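import Pool.Agent.LibFS95.Gen

/-!
Row G1: comparing sums over classes of two sets (`clsum_transfer`) and restricting to the support
(`clsum_restrict`). Everything is pure set theory with `finsum`.
-/

set_option autoImplicit false
noncomputable section
open MulAction
namespace Pool.FS95

private theorem g1_lift {X : Type*} (r : Setoid X) (f : X → ℤ) (hf : ∀ x x', r x x' → f x = f x') :
    clsum r f = ∑ᶠ q : Quotient r, Quotient.lift f hf q := by
  unfold clsum
  apply finsum_congr
  intro q
  have h := Quotient.lift_mk (s := r) f hf q.out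
  rw [Quotient.out_eq] at h
  exact h.symm

theorem clsum_transfer {X Y : Type*} (rX : Setoid X) (rY : Setoid Y) (f : X → ℤ) (g : Y → ℤ)
    (hf : ∀ x x', rX x x' → f x = f x') (hg : ∀ y y', rY y y' → g y = g y') (Φ : X → Y)
    (h1 : ∀ x x', rX x x' ↔ rY (Φ x) (Φ x')) (h2 : ∀ y, g y ≠ 0 → ∃ x, rY (Φ x) y)
    (h3 : ∀ x, f x = g (Φ x)) : clsum rX f = clsum rY g := by
  rw [g1_lift rX f hf, g1_lift rY g hg]
  let Φq : Quotient rX → Quotient rY :=
    Quotient.lift (fun x => (Quotient.mk rY (Φ x))) (fun x x' h => Quotient.sound ((h1 x x').1 h))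
  have hinj : Function.Injective Φq := by
    intro a b
    refine Quotient.inductionOn₂ a b (fun x x' h => ?_)
    exact Quotient.sound ((h1 x x').2 (Quotient.exact h))
  have hval : ∀ q : Quotient rX, Quotient.lift f hf q = Quotient.lift g hg (Φq q) := by
    intro q
    refine Quotient.inductionOn q (fun x => ?_)
    exact h3 x
  rw [finsum_congr hval, ← finsum_mem_range (f := fun y => Quotient.lift g hg y) hinj, finsum_mem_def]
  congr 1
  apply Set.indicator_eq_self.2
  intro y
  refine Quotient.inductionOn y (fun y0 hy => ?_)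
  obtain ⟨x, hx⟩ := h2 y0 hy
  exact ⟨Quotient.mk rX x, Quotient.sound hx⟩

theorem clsum_restrict {X : Type*} (r : Setoid X) (f : X → ℤ) (hf : ∀ x x', r x x' → f x = f x')
    (p : X → Prop) (h0 : ∀ x, ¬ p x → f x = 0) :
    clsum (r.comap (Subtype.val : {x // p x} → X)) (fun x => f x.1) = clsum r f := by
  refine clsum_transfer (r.comap (Subtype.val : {x // p x} → X)) r (fun x => f x.1) f
    (fun x x' h => hf _ _ h) hf Subtype.val (fun x x' => Iff.rfl) (fun y hy => ?_) (fun x => rfl)
  have hp : p y := by
    by_contra h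
    exact hy (h0 y h)
  exact ⟨⟨y, hp⟩, r.refl y⟩

end Pool.FS95
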