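import Pool.Agent.LibFS95.Ch

/-!
Row E0: elementary facts on stabilisers of chains. EASY.

Plan. `mem_stab_cj`: `cj h` permutes the totally ordered finite set `σ`; `X` and `cj h X` are comparable and have the
same cardinality, so they are equal. `mem_stab_normalizer`: `cj h X = X` means `h ∈ normalizer X`.
`le_stab_iff`: combine. `cj_eq_iff`: `cj h X = X ↔ h ∈ normalizer X` (`H` finite: or directly for both directions,
`cj h X = X` gives both inclusions).
-/

set_option autoImplicit false
noncomputable section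
open MulAction
namespace Pool.FS95

theorem cj_eq_iff {H : Type*} [Group H] (h : H) (X : Subgroup H) :
    cj h X = X ↔ h ∈ Subgroup.normalizer (X : Set H) := by
  rw [Subgroup.mem_normalizer_iff]
  constructor
  · intro hX w
    constructor
    · intro hw
      have h1 : h * w * h⁻¹ ∈ cj h X := mem_cj.2 ⟨w, hw, rfl⟩
      rw [hX] at h1
      exact h1
    · intro hw
      have hw' : h * w * h⁻¹ ∈ X := hw
      rw [← hX, mem_cj] at hw'
      obtain ⟨x, hx, hxe⟩ := hw'
      have h2 : x = w := by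
        have h3 := mul_right_cancel hxe
        exact mul_left_cancel h3
      rw [← h2]
      exact hx
  · intro hn
    ext z
    rw [mem_cj]
    constructor
    · rintro ⟨x, hx, rfl⟩
      exact (hn x).1 hx
    · intro hz
      refine ⟨h⁻¹ * z * h, (hn _).2 ?_, by group⟩
      have h2 : h * (h⁻¹ * z * h) * h⁻¹ = z := by group
      rw [h2]
      exact hz

theorem mem_stab_normalizer {ℓ : ℕ} {H : Type*} [Group H] [Finite H] {h : H} {σ : NChain ℓ H}
    (hh : h ∈ stabilizer H σ) {X : Subgroup H} (hX : X ∈ σ.1) :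
    h ∈ Subgroup.normalizer (X : Set H) := by
  rw [← cj_eq_iff]
  rw [mem_stab_iff] at hh
  have hX' : cj h X ∈ σ.1 := by
    rw [← hh]
    exact ⟨X, hX, rfl⟩
  have hinj : Function.Injective (MulAut.conj h).toMonoidHom := (MulAut.conj h).injective
  have hc : Nat.card (cj h X) = Nat.card X := by
    unfold cj
    exact Subgroup.card_map_of_injective hinj
  rcases σ.2.total _ hX' X hX with h1 | h1
  · exact Subgroup.eq_of_le_of_card_ge h1 hc.ge
  · exact (Subgroup.eq_of_le_of_card_ge h1 hc.le).symm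

theorem mem_stab_iff' {ℓ : ℕ} {H : Type*} [Group H] [Finite H] (h : H) (σ : NChain ℓ H) :
    h ∈ stabilizer H σ ↔ ∀ X ∈ σ.1, h ∈ Subgroup.normalizer (X : Set H) := by
  constructor
  · intro hh X hX
    exact mem_stab_normalizer hh hX
  · intro hh
    rw [mem_stab_iff]
    have h1 : ∀ X ∈ σ.1, cj h X = id X := fun X hX => (cj_eq_iff h X).2 (hh X hX)
    rw [Set.image_congr h1, Set.image_id]

/-- `eul` as a sum over the normal chains whose members are normalised by `B`. -/
theorem eul_eq (ℓ : ℕ) {H : Type*} [Group H] [Finite H] (B : Subgroup H) :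
    eul ℓ B = ∑ᶠ σ : {σ : Set (Subgroup H) // IsPChain ℓ B σ ∧ NormalSet σ}, (-1) ^ (σ.1.ncard - 1) := by
  let e : {σ : NChain ℓ H // B ≤ stabilizer H σ} ≃
      {σ : Set (Subgroup H) // IsPChain ℓ B σ ∧ NormalSet σ} :=
    { toFun := fun σ => ⟨σ.1.1, ⟨⟨σ.1.2.bot_mem, σ.1.2.isPGroup, σ.1.2.total,
        fun X hX b hb => mem_stab_normalizer (σ.2 hb) hX⟩, σ.1.2.normal⟩⟩
      invFun := fun τ => ⟨⟨τ.1, ⟨τ.2.1.bot_mem, τ.2.1.isPGroup, τ.2.1.total, τ.2.2⟩⟩,
        fun b hb => (mem_stab_iff' _ _).2 fun X hX => τ.2.1.norm X hX hb⟩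
      left_inv := fun σ => rfl
      right_inv := fun τ => rfl }
  unfold eul
  exact finsum_comp_equiv e (f := fun τ => (-1 : ℤ) ^ (τ.1.ncard - 1))

end Pool.FS95
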