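import Pool.Agent.LibFS95.Ch

/-!
Row Z2: `z(kH) = 0` if `H` has a non-trivial normal `ℓ`-subgroup.

Plan. Suppose `V = kH/I` is simple and projective. Let `N ⊴ H`, an `ℓ`-group `≠ 1`. (1) `N` acts trivially on `V`: the fixed points `V^N` form an `H`-submodule (`N` normal), non-zero because `V` is a
non-zero finite `𝔽_ℓ[N]`-like module: more precisely `V` is a vector space over `k` (char `ℓ`) with a linear action of the `ℓ`-group `N`; take a non-zero `v`, its orbit spans a finite additive group `W` of exponent `ℓ` (a finite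
`𝔽_ℓ`-space), `N` acts on `W`, `|W^N| ≡ |W| ≡ 0 mod ℓ` (`IsPGroup.card_modEq_card_fixedPoints`), so there is a non-zero fixed vector. So `V^N = V`.
(2) `V` is a direct summand of `kH` (projective, cyclic): there are `f : V → kH`, `kH`-linear and injective. Let `v ≠ 0`, `a = f v ≠ 0`; `x a = a` for all `x ∈ N`, so `a = s b` with `s = ∑_{x ∈ N} x` (coefficients constant on the cosets
`N g`). If `p : kH → V` is the projection (`p ∘ f = id`), `v = p (s b) = s p(b) = |N| p(b) = 0`. Contradiction.
-/

set_option autoImplicit false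
noncomputable section
open MulAction
namespace Pool.FS95

/-- An `ℓ`-group acting on a non-zero group of exponent `ℓ` has a non-zero fixed point. -/
theorem Z2_fixed {ℓ : ℕ} [Fact ℓ.Prime] {N : Type} [Group N] (hN : IsPGroup ℓ N) [Finite N]
    {V : Type} [AddCommGroup V] [DistribMulAction N V] (hV : ∀ v : V, ℓ • v = 0) {v : V}
    (hv : v ≠ 0) : ∃ w : V, w ≠ 0 ∧ ∀ x : N, x • w = w := by
  have hℓ : ℓ.Prime := Fact.out
  let W : AddSubgroup V := AddSubgroup.closure (Set.range fun x : N => x • v)
  have hstab : ∀ (x : N) (w : V), w ∈ W → x • w ∈ W := by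
    intro x w hw
    refine AddSubgroup.closure_induction (p := fun w _ => x • w ∈ W) ?_ ?_ ?_ ?_ hw
    · rintro _ ⟨y, rfl⟩
      exact AddSubgroup.subset_closure ⟨x * y, by simp only [mul_smul]⟩
    · rw [smul_zero]
      exact zero_mem _
    · intro a b _ _ ha hb
      rw [smul_add]
      exact add_mem ha hb
    · intro a _ ha
      rw [smul_neg]
      exact neg_mem ha
  have hvW : v ∈ W := AddSubgroup.subset_closure ⟨1, one_smul _ _⟩
  have hfin : Finite W := by
    have : AddGroup.FG W := AddGroup.closure_finite_fg _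
    refine AddCommGroup.finite_of_fg_isAddTorsion W fun w => ?_
    rw [isOfFinAddOrder_iff_nsmul_eq_zero]
    exact ⟨ℓ, hℓ.pos, Subtype.ext (hV w.1)⟩
  let act : MulAction N W :=
    { smul := fun x w => ⟨x • w.1, hstab x w.1 w.2⟩
      one_smul := fun w => Subtype.ext (one_smul N w.1)
      mul_smul := fun x y w => Subtype.ext (mul_smul x y w.1) }
  have hdvd : ℓ ∣ Nat.card W := by
    have h1 : addOrderOf (⟨v, hvW⟩ : W) = ℓ :=
      addOrderOf_eq_prime (Subtype.ext (hV v)) fun h => hv (congrArg Subtype.val h)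
    rw [← h1]
    exact addOrderOf_dvd_natCard _
  have h0 : (0 : W) ∈ @MulAction.fixedPoints N W _ act := fun x => Subtype.ext (smul_zero x)
  obtain ⟨b, hb, hb0⟩ := @IsPGroup.exists_fixed_point_of_prime_dvd_card_of_fixed_point ℓ N _ hN _
    W act hfin hdvd 0 h0
  refine ⟨b.1, fun h => hb0 (Subtype.ext h.symm), fun x => ?_⟩
  exact congrArg Subtype.val (hb x)

theorem Z2_proj {A : Type} [Ring A] (I : Submodule A A) (h : Module.Projective A (A ⧸ I)) :
    ∃ a : A, (∀ x ∈ I, x * a = 0) ∧ a - 1 ∈ I := by
  obtain ⟨s, hs⟩ := Module.projective_lifting_property (I.mkQ) (LinearMap.id)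
    (Submodule.mkQ_surjective I)
  refine ⟨s (I.mkQ 1), fun x hx => ?_, ?_⟩
  · have h1 : x * s (I.mkQ 1) = s (x • I.mkQ 1) := by
      rw [map_smul, smul_eq_mul]
    rw [h1, ← map_smul, smul_eq_mul, mul_one]
    have h2 : I.mkQ x = 0 := by
      rw [Submodule.mkQ_apply, Submodule.Quotient.mk_eq_zero]
      exact hx
    rw [h2, map_zero]
  · have h1 := LinearMap.congr_fun hs (I.mkQ 1)
    rw [LinearMap.comp_apply, LinearMap.id_apply, Submodule.mkQ_apply, Submodule.mkQ_apply,
      Submodule.Quotient.eq] at h1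
    exact h1

/-- A left invariant element `a` is `s b`. -/
theorem Z2_coset {k : Type} [Field k] {H : Type} [Group H] [Fintype H] (N : Subgroup H)
    [Fintype N] (a : MonoidAlgebra k H) (ha : ∀ x ∈ N, MonoidAlgebra.single x (1 : k) * a = a) :
    ∃ b : MonoidAlgebra k H, (∑ x : N, MonoidAlgebra.single (x : H) (1 : k)) * b = a := by
  classical
  obtain ⟨T, hT, -⟩ := Subgroup.exists_isComplement_right N 1
  rw [Subgroup.isComplement_iff_existsUnique_inv_mul_mem] at hT
  have hinv : ∀ x ∈ N, ∀ g : H, a.coeff (x⁻¹ * g) = a.coeff g := by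
    intro x hx g
    have h1 := congrArg (fun y => y.coeff g) (ha x hx)
    simp only [MonoidAlgebra.coeff_single_mul_apply, one_mul] at h1
    exact h1
  let b : MonoidAlgebra k H := ∑ g : H, MonoidAlgebra.single g (if g ∈ T then a.coeff g else 0)
  have hb : ∀ y : H, b.coeff y = if y ∈ T then a.coeff y else 0 := by
    intro y
    simp only [b, MonoidAlgebra.coeff_sum, MonoidAlgebra.coeff_single, Finsupp.finsetSum_apply]
    rw [Finset.sum_eq_single y]
    · rw [Finsupp.single_eq_same]
    · intro z _ hz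
      exact Finsupp.single_eq_of_ne hz.symm
    · intro h
      exact absurd (Finset.mem_univ y) h
  refine ⟨b, ?_⟩
  apply MonoidAlgebra.ext
  ext g
  rw [Finset.sum_mul, MonoidAlgebra.coeff_sum, Finsupp.finsetSum_apply]
  have h1 : ∀ x : N, (MonoidAlgebra.single (x : H) (1 : k) * b).coeff g =
      if (x : H)⁻¹ * g ∈ T then a.coeff g else 0 := by
    intro x
    rw [MonoidAlgebra.coeff_single_mul_apply, one_mul, hb]
    split_ifs
    · exact hinv x x.2 g
    · rfl
  rw [Finset.sum_congr rfl fun x _ => h1 x]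
  obtain ⟨x0, hx0, huniq⟩ := hT g
  rw [Finset.sum_eq_single (⟨x0.1, x0.2⟩ : N)]
  · exact if_pos hx0
  · intro x _ hx
    exact if_neg fun h => hx (Subtype.ext (congrArg Subtype.val (huniq ⟨x.1, x.2⟩ h)))
  · intro h
    exact absurd (Finset.mem_univ _) h

theorem zproj_eq_zero (ℓ : ℕ) [Fact ℓ.Prime] (k : Type) [Field k] [CharP k ℓ] (H : Type) [Group H]
    [Finite H] (hH : ¬ OTriv ℓ H) : zproj k H = 0 := by
  classical
  letI : Fintype H := Fintype.ofFinite H
  have hℓ : ℓ.Prime := Fact.out
  unfold OTriv at hH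
  push Not at hH
  obtain ⟨N, hNn, hNp, hNb⟩ := hH
  letI : Fintype N := Fintype.ofFinite N
  suffices h : IsEmpty (ProjSimple k H) by
    unfold zproj
    rw [Nat.card_of_isEmpty, Nat.cast_zero]
  refine ⟨?_⟩
  rintro ⟨I, hs, hp⟩
  obtain ⟨a, haI, ha1⟩ := Z2_proj I hp
  have hsimple := hs
  rw [isSimpleModule_iff_isCoatom] at hs
  -- the action of `N`
  letI act : DistribMulAction N (MonoidAlgebra k H ⧸ I) :=
    DistribMulAction.compHom _ ((MonoidAlgebra.of k H).comp N.subtype)
  have hact : ∀ (x : N) (v : MonoidAlgebra k H ⧸ I),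
      x • v = MonoidAlgebra.single (x : H) (1 : k) • v := fun x v => rfl
  have hchar : (ℓ : MonoidAlgebra k H) = 0 := by
    rw [← map_natCast (algebraMap k (MonoidAlgebra k H)) ℓ, CharP.cast_eq_zero, map_zero]
  have hV : ∀ v : MonoidAlgebra k H ⧸ I, ℓ • v = 0 := by
    intro v
    rw [← Nat.cast_smul_eq_nsmul (MonoidAlgebra k H) ℓ v, hchar, zero_smul]
  have h10 : I.mkQ 1 ≠ 0 := by
    intro h
    rw [Submodule.mkQ_apply, Submodule.Quotient.mk_eq_zero] at h
    exact hs.1 ((Ideal.eq_top_iff_one I).2 h)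
  obtain ⟨w, hw0, hw⟩ := Z2_fixed hNp hV h10
  -- the fixed points
  let F : Submodule (MonoidAlgebra k H) (MonoidAlgebra k H ⧸ I) :=
    { carrier := {v | ∀ x : N, x • v = v}
      add_mem' := fun ha hb x => by rw [smul_add, ha x, hb x]
      zero_mem' := fun x => smul_zero x
      smul_mem' := fun c v hv => by
        refine MonoidAlgebra.induction_linear (motive := fun c => c • v ∈
          {v : MonoidAlgebra k H ⧸ I | ∀ x : N, x • v = v}) c ?_ ?_ ?_
        · intro x
          rw [zero_smul, smul_zero]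
        · intro y z hy hz x
          rw [add_smul, smul_add, hy x, hz x]
        · intro m r x
          have h1 := hv ⟨m⁻¹ * x * m, by
            have := hNn.conj_mem x x.2 m⁻¹
            rwa [inv_inv] at this⟩
          rw [hact] at h1 ⊢
          rw [smul_smul, MonoidAlgebra.single_mul_single, one_mul]
          have h2 : MonoidAlgebra.single ((x : H) * m) r =
              MonoidAlgebra.single m r * MonoidAlgebra.single (m⁻¹ * x * m) (1 : k) := by
            rw [MonoidAlgebra.single_mul_single, mul_one]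
            congr 1
            group
          rw [h2, mul_smul, h1] }
  have hF : F = ⊤ := by
    have := hsimple.toIsSimpleOrder
    rcases eq_bot_or_eq_top F with h | h
    · exfalso
      have h1 : w ∈ F := hw
      rw [h, Submodule.mem_bot] at h1
      exact hw0 h1
    · exact h
  have hfix : ∀ x ∈ N, MonoidAlgebra.single x (1 : k) * a = a := by
    intro x hx
    have h1 : I.mkQ 1 ∈ F := by
      rw [hF]
      exact Submodule.mem_top
    have h2 := h1 ⟨x, hx⟩
    rw [hact, ← map_smul, smul_eq_mul, mul_one, Submodule.mkQ_apply, Submodule.mkQ_apply,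
      Submodule.Quotient.eq] at h2
    have h3 := haI _ h2
    rw [sub_mul, one_mul, sub_eq_zero] at h3
    exact h3
  have haa : a * a = a := by
    have h1 := haI _ ha1
    rwa [sub_mul, one_mul, sub_eq_zero] at h1
  obtain ⟨b, hb⟩ := Z2_coset N a hfix
  -- right invariance
  have hright : ∀ x : N, a * MonoidAlgebra.single (x : H) (1 : k) = a := by
    intro x
    apply MonoidAlgebra.ext
    ext g
    rw [MonoidAlgebra.coeff_mul_single_apply, mul_one]
    have hy : g * x * g⁻¹ ∈ N := hNn.conj_mem x x.2 g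
    have h1 := congrArg (fun y => y.coeff g) (hfix _ hy)
    simp only [MonoidAlgebra.coeff_single_mul_apply, one_mul] at h1
    rw [← h1]
    congr 1
    group
  have has : a * (∑ x : N, MonoidAlgebra.single (x : H) (1 : k)) = 0 := by
    rw [Finset.mul_sum, Finset.sum_congr rfl fun x _ => hright x, Finset.sum_const, Finset.card_univ,
      ← Nat.cast_smul_eq_nsmul (MonoidAlgebra k H), ← Nat.card_eq_fintype_card]
    have h1 : ℓ ∣ Nat.card N := by
      rcases hNp.card_eq_or_dvd with h | h
      · exact absurd (Subgroup.card_eq_one.1 h) hNb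
      · exact h
    obtain ⟨c, hc⟩ := h1
    rw [hc, Nat.cast_mul, hchar, zero_mul, zero_smul]
  have ha0 : a = 0 := by
    calc a = a * a := haa.symm
      _ = a * ((∑ x : N, MonoidAlgebra.single (x : H) (1 : k)) * b) := by rw [hb]
      _ = (a * (∑ x : N, MonoidAlgebra.single (x : H) (1 : k))) * b := (mul_assoc _ _ _).symm
      _ = 0 := by rw [has, zero_mul]
  apply hs.1
  rw [Ideal.eq_top_iff_one]
  rw [ha0, zero_sub] at ha1
  exact (neg_mem_iff).1 ha1

end Pool.FS95
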