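import Pool.Agent.LibFS95.Z1
import Pool.Agent.LibFS95.Z2
import Pool.Agent.LibFS95.E0

/-!
Row K2: two facts on `N_A(Q)/Q` for `A` a subgroup of `H`.

Plan. (a) `T` is a normal `ℓ`-subgroup of `A` with `¬ T ≤ Q`, `Q ≤ A` an `ℓ`-group: `T ⊔ Q` is an `ℓ`-group, strictly larger than `Q`, so by the normaliser condition `N_{TQ}(Q) > Q`; by Dedekind
`N_{TQ}(Q) = N_T(Q) Q`, so `N_T(Q)` is not contained in `Q`; its image in `N_A(Q)/Q` is a non-trivial normal `ℓ`-subgroup (`T ⊴ A`). So `z = 0` by Z2.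
(b) if `normalizer Q ⊓ A = normalizer Q ⊓ A'` then the groups `N_A(Q)/Q` and `N_{A'}(Q)/Q` are isomorphic (both are `(normalizer Q ⊓ A)/Q`).
-/

set_option autoImplicit false
noncomputable section
open MulAction
namespace Pool.FS95

theorem k2_not_otriv (ℓ : ℕ) [Fact ℓ.Prime] (G : Type) [Group G] [Finite G] (T P : Subgroup G)
    (hn : T.Normal) (hT : IsPGroup ℓ T) (hP : IsPGroup ℓ P) (hTP : ¬ T ≤ P) :
    ¬ OTriv ℓ (NQ P) := by
  -- an element of `T` normalising `P`, not in `P`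
  have hex : ∃ t ∈ T, t ∈ Subgroup.normalizer (P : Set G) ∧ t ∉ P := by
    have hR : IsPGroup ℓ (T ⊔ P : Subgroup G) := IsPGroup.to_sup_of_normal_left hT hP
    have hnil : Group.IsNilpotent (T ⊔ P : Subgroup G) := hR.isNilpotent
    have hnc : NormalizerCondition (T ⊔ P : Subgroup G) := Group.normalizerCondition_of_isNilpotent
    have hPR : P ≤ T ⊔ P := le_sup_right
    have hlt : P.subgroupOf (T ⊔ P) < ⊤ := by
      rw [lt_top_iff_ne_top]
      intro h
      rw [Subgroup.subgroupOf_eq_top] at h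
      exact hTP (le_sup_left.trans h)
    have h1 := hnc _ hlt
    obtain ⟨r, hr, hrP⟩ := SetLike.exists_of_lt h1
    rw [Subgroup.mem_subgroupOf] at hrP
    obtain ⟨t, ht, p, hp, htp⟩ := Subgroup.mem_sup_of_normal_left.1 r.2
    have hrn : (r : G) ∈ Subgroup.normalizer (P : Set G) := by
      rw [Subgroup.mem_normalizer_iff] at hr ⊢
      intro x
      constructor
      · intro hx
        have h2 := (hr ⟨x, hPR hx⟩).1 (Subgroup.mem_subgroupOf.2 hx)
        exact Subgroup.mem_subgroupOf.1 h2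
      · intro hx
        have hxR : x ∈ T ⊔ P := by
          have h3 := mul_mem (mul_mem (inv_mem r.2) (hPR hx)) r.2
          have h4 : (r : G)⁻¹ * (r * x * (r : G)⁻¹) * r = x := by group
          rwa [h4] at h3
        have h2 := (hr ⟨x, hxR⟩).2 (Subgroup.mem_subgroupOf.2 hx)
        exact Subgroup.mem_subgroupOf.1 h2
    have hpn : p ∈ Subgroup.normalizer (P : Set G) := Subgroup.le_normalizer hp
    have htr : t = r * p⁻¹ := by rw [← htp]; group
    refine ⟨t, ht, ?_, ?_⟩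
    · rw [htr]
      exact mul_mem hrn (inv_mem hpn)
    · intro htP
      exact hrP (by rw [← htp]; exact mul_mem htP hp)
  obtain ⟨t, ht, htn, htP⟩ := hex
  intro hO
  have hN : ((T.subgroupOf (Subgroup.normalizer (P : Set G))).map
      (QuotientGroup.mk' (P.subgroupOf (Subgroup.normalizer (P : Set G))))).Normal :=
    (hn.subgroupOf _).map _ (QuotientGroup.mk'_surjective _)
  have hpg : IsPGroup ℓ ((T.subgroupOf (Subgroup.normalizer (P : Set G))).map
      (QuotientGroup.mk' (P.subgroupOf (Subgroup.normalizer (P : Set G))))) := by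
    refine IsPGroup.map ?_ _
    exact hT.comap_subtype
  have h1 := hO _ hN hpg
  have h2 : (QuotientGroup.mk' (P.subgroupOf (Subgroup.normalizer (P : Set G)))) ⟨t, htn⟩ ∈
      (T.subgroupOf (Subgroup.normalizer (P : Set G))).map
      (QuotientGroup.mk' (P.subgroupOf (Subgroup.normalizer (P : Set G)))) :=
    ⟨⟨t, htn⟩, Subgroup.mem_subgroupOf.2 ht, rfl⟩
  rw [h1, Subgroup.mem_bot, QuotientGroup.mk'_apply, QuotientGroup.eq_one_iff,
    Subgroup.mem_subgroupOf] at h2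
  exact htP h2

theorem k2_mem {H : Type} [Group H] {A Q : Subgroup H} (hQ : Q ≤ A) (x : A) :
    x ∈ Subgroup.normalizer ((Q.subgroupOf A : Subgroup A) : Set A) ↔
      (x : H) ∈ Subgroup.normalizer (Q : Set H) := by
  rw [Subgroup.mem_normalizer_iff, Subgroup.mem_normalizer_iff]
  constructor
  · intro hx y
    constructor
    · intro hy
      have h2 := (hx ⟨y, hQ hy⟩).1 (Subgroup.mem_subgroupOf.2 hy)
      exact Subgroup.mem_subgroupOf.1 h2
    · intro hy
      have hyA : y ∈ A := by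
        have h3 := mul_mem (mul_mem (inv_mem x.2) (hQ hy)) x.2
        have h4 : (x : H)⁻¹ * (x * y * (x : H)⁻¹) * x = y := by group
        rwa [h4] at h3
      have h2 := (hx ⟨y, hyA⟩).2 (Subgroup.mem_subgroupOf.2 hy)
      exact Subgroup.mem_subgroupOf.1 h2
  · intro hx y
    rw [Subgroup.mem_subgroupOf, Subgroup.mem_subgroupOf]
    exact hx y

theorem k2_mem' {H : Type} [Group H] {A A' Q : Subgroup H}
    (hQ : Q ≤ A) (hQ' : Q ≤ A')
    (h : Subgroup.normalizer (Q : Set H) ⊓ A = Subgroup.normalizer (Q : Set H) ⊓ A')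
    (x : A) (hx : x ∈ Subgroup.normalizer ((Q.subgroupOf A : Subgroup A) : Set A)) :
    ∃ hxA : (x : H) ∈ A', (⟨x, hxA⟩ : A') ∈
      Subgroup.normalizer ((Q.subgroupOf A' : Subgroup A') : Set A') := by
  have h1 : (x : H) ∈ Subgroup.normalizer (Q : Set H) ⊓ A := ⟨(k2_mem hQ x).1 hx, x.2⟩
  rw [h] at h1
  exact ⟨h1.2, (k2_mem hQ' _).2 h1.1⟩

/-- `N_A(Q) ≃ N_{A'}(Q)`. -/
def k2_equiv {H : Type} [Group H] {A A' Q : Subgroup H}
    (hQ : Q ≤ A) (hQ' : Q ≤ A')
    (h : Subgroup.normalizer (Q : Set H) ⊓ A = Subgroup.normalizer (Q : Set H) ⊓ A') :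
    ↥(Subgroup.normalizer ((Q.subgroupOf A : Subgroup A) : Set A)) ≃*
      ↥(Subgroup.normalizer ((Q.subgroupOf A' : Subgroup A') : Set A')) where
  toFun x := ⟨⟨x.1.1, (k2_mem' hQ hQ' h x.1 x.2).choose⟩,
    (k2_mem' hQ hQ' h x.1 x.2).choose_spec⟩
  invFun x := ⟨⟨x.1.1, (k2_mem' hQ' hQ h.symm x.1 x.2).choose⟩,
    (k2_mem' hQ' hQ h.symm x.1 x.2).choose_spec⟩
  left_inv _ := rfl
  right_inv _ := rfl
  map_mul' _ _ := rfl

theorem zproj_NQ_zero (ℓ : ℕ) [Fact ℓ.Prime] (k : Type) [Field k] [CharP k ℓ] (H : Type) [Group H]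
    [Finite H] (A T Q : Subgroup H) (hTA : T ≤ A) (hT : IsPGroup ℓ T)
    (hn : A ≤ Subgroup.normalizer (T : Set H)) (hQ : IsPGroup ℓ Q) (hQA : Q ≤ A) (hTQ : ¬ T ≤ Q) :
    zproj k (NQ (Q.subgroupOf A)) = 0 := by
  apply zproj_eq_zero ℓ k
  apply k2_not_otriv ℓ A (T.subgroupOf A) (Q.subgroupOf A)
  · rw [Subgroup.normal_subgroupOf_iff_le_normalizer hTA]
    exact hn
  · exact hT.comap_subtype
  · exact hQ.comap_subtype
  · intro hle
    apply hTQ
    intro t ht
    have := hle (show (⟨t, hTA ht⟩ : A) ∈ T.subgroupOf A from Subgroup.mem_subgroupOf.2 ht)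
    exact Subgroup.mem_subgroupOf.1 this

theorem zproj_NQ_congr (k : Type) [Field k] (H : Type) [Group H] (A A' Q : Subgroup H)
    (hQ : Q ≤ A) (hQ' : Q ≤ A')
    (h : Subgroup.normalizer (Q : Set H) ⊓ A = Subgroup.normalizer (Q : Set H) ⊓ A') :
    zproj k (NQ (Q.subgroupOf A)) = zproj k (NQ (Q.subgroupOf A')) := by
  apply zproj_iso k
  refine ⟨QuotientGroup.congr _ _ (k2_equiv hQ hQ' h) ?_⟩
  ext y
  constructor
  · rintro ⟨x, hx, rfl⟩
    rw [SetLike.mem_coe, Subgroup.mem_subgroupOf, Subgroup.mem_subgroupOf] at hx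
    rw [Subgroup.mem_subgroupOf, Subgroup.mem_subgroupOf]
    exact hx
  · intro hy
    rw [Subgroup.mem_subgroupOf, Subgroup.mem_subgroupOf] at hy
    refine ⟨(k2_equiv hQ hQ' h).symm y, ?_, (k2_equiv hQ hQ' h).apply_symm_apply y⟩
    rw [SetLike.mem_coe, Subgroup.mem_subgroupOf, Subgroup.mem_subgroupOf]
    exact hy

end Pool.FS95
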