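import Pool.Agent.LibFS95.K5
import Pool.Agent.LibFS95.K2
import Pool.Agent.LibFS95.G1

/-!
Row K6: `H` and `H/O` have the same number of weights for a normal `ℓ`-subgroup `O`; so Alperin's weight conjecture for `H/O` implies it for `H`.

Plan. `clsum_transfer` from the `ℓ`-subgroups of `H/O` to those of `H`: `Q̄ ↦ Q̄.comap (mk' O)` (an `ℓ`-group because `O` is one). Conjugacy corresponds. `ℓ`-subgroups `Q` of `H` not containing `O` have `z(NQ Q) = 0` (`zproj_NQ_zero` with `A = ⊤`, `T = O`; transport from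
`Q.subgroupOf ⊤`), those containing `O` come from `H/O`. Third isomorphism theorem: `N_{H/O}(Q̄)/Q̄ ≃ N_H(Q)/Q`, `zproj_iso`.
-/

set_option autoImplicit false
noncomputable section
open MulAction
namespace Pool.FS95

/-- `N_G(π⁻¹R)/π⁻¹R ≃ N_{G'}(R)/R` for a surjective `π : G → G'`. -/
theorem K6_NQ_comap {G G' : Type} [Group G] [Group G'] (π : G →* G')
    (hπ : Function.Surjective π) (R : Subgroup G') : Nonempty (NQ (R.comap π) ≃* NQ R) := by
  have hN : ∀ x : G, x ∈ Subgroup.normalizer ((R.comap π : Subgroup G) : Set G) ↔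
      π x ∈ Subgroup.normalizer (R : Set G') := by
    intro x
    rw [← Subgroup.comap_normalizer_eq_of_surjective R hπ, Subgroup.mem_comap]
  let f : ↥(Subgroup.normalizer ((R.comap π : Subgroup G) : Set G)) →*
      ↥(Subgroup.normalizer (R : Set G')) :=
    (π.comp (Subgroup.subtype _)).codRestrict _ (fun x => (hN x).1 x.2)
  have hf : ∀ x, ((f x : ↥(Subgroup.normalizer (R : Set G'))) : G') = π x := fun x => rfl
  let g : ↥(Subgroup.normalizer ((R.comap π : Subgroup G) : Set G)) →* NQ R :=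
    (QuotientGroup.mk' (R.subgroupOf (Subgroup.normalizer (R : Set G')))).comp f
  have hg : Function.Surjective g := by
    intro y
    obtain ⟨y, rfl⟩ := QuotientGroup.mk'_surjective _ y
    obtain ⟨x, hx⟩ := hπ y
    refine ⟨⟨x, (hN x).2 (hx ▸ y.2)⟩, ?_⟩
    change QuotientGroup.mk' _ (f _) = _
    congr 1
    exact Subtype.ext hx
  have hk : g.ker = (R.comap π).subgroupOf (Subgroup.normalizer ((R.comap π : Subgroup G) : Set G)) := by
    ext x
    rw [MonoidHom.mem_ker, Subgroup.mem_subgroupOf, Subgroup.mem_comap]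
    change QuotientGroup.mk' _ (f x) = 1 ↔ _
    rw [QuotientGroup.mk'_apply, QuotientGroup.eq_one_iff, Subgroup.mem_subgroupOf, hf]
  exact ⟨(QuotientGroup.quotientMulEquivOfEq hk.symm).trans
    (QuotientGroup.quotientKerEquivOfSurjective g hg)⟩

theorem K6_zproj_comap (k : Type) [Field k] {G G' : Type} [Group G] [Group G'] (π : G →* G')
    (hπ : Function.Surjective π) (R : Subgroup G') : zproj k (NQ (R.comap π)) = zproj k (NQ R) :=
  zproj_iso k _ _ (K6_NQ_comap π hπ R)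

theorem K6_zproj_cj (k : Type) [Field k] {G : Type} [Group G] (g : G) (Q : Subgroup G) :
    zproj k (NQ (cj g Q)) = zproj k (NQ Q) := by
  have h : cj g Q = Q.comap (MulAut.conj g⁻¹).toMonoidHom := by
    ext z
    rw [mem_cj, Subgroup.mem_comap]
    change _ ↔ MulAut.conj g⁻¹ z ∈ Q
    rw [MulAut.conj_apply]
    constructor
    · rintro ⟨x, hx, rfl⟩
      have : g⁻¹ * (g * x * g⁻¹) * g⁻¹⁻¹ = x := by group
      rw [this]; exact hx
    · intro hz
      exact ⟨_, hz, by group⟩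
  rw [h]
  exact K6_zproj_comap k _ (MulEquiv.surjective (MulAut.conj g⁻¹)) Q

theorem K6_cj_comap {G G' : Type} [Group G] [Group G'] (π : G →* G')
    (hπ : Function.Surjective π) (g : G) (R : Subgroup G') :
    cj g (R.comap π) = (cj (π g) R).comap π := by
  ext z
  rw [mem_cj, Subgroup.mem_comap, mem_cj]
  constructor
  · rintro ⟨x, hx, rfl⟩
    exact ⟨π x, hx, by simp⟩
  · rintro ⟨y, hy, hyz⟩
    refine ⟨g⁻¹ * z * g, ?_, by group⟩
    rw [Subgroup.mem_comap]
    have : π (g⁻¹ * z * g) = y := by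
      rw [map_mul, map_mul, ← hyz, map_inv]
      group
    rw [this]; exact hy

theorem K6_isPGroup_comap {ℓ : ℕ} {H : Type} [Group H] {O : Subgroup H} [O.Normal]
    (hO : IsPGroup ℓ O) {Q : Subgroup (H ⧸ O)} (hQ : IsPGroup ℓ Q) :
    IsPGroup ℓ (Q.comap (QuotientGroup.mk' O)) := by
  apply hQ.comap_of_ker_isPGroup
  rw [QuotientGroup.ker_mk']
  exact hO

theorem K6_zproj_zero (ℓ : ℕ) [Fact ℓ.Prime] (k : Type) [Field k] [CharP k ℓ] (H : Type) [Group H]
    [Finite H] (O : Subgroup H) [O.Normal] (hO : IsPGroup ℓ O) (Q : Subgroup H)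
    (hQ : IsPGroup ℓ Q) (h : ¬ O ≤ Q) : zproj k (NQ Q) = 0 := by
  have h1 := zproj_NQ_zero ℓ k H ⊤ O Q le_top hO
    (by rw [Subgroup.normalizer_eq_top O]) hQ le_top h
  have h2 := K6_zproj_comap k (Subgroup.subtype (⊤ : Subgroup H))
    (fun x => ⟨⟨x, Subgroup.mem_top x⟩, rfl⟩) Q
  rw [← h2]
  exact h1

theorem weights_quot (ℓ : ℕ) [Fact ℓ.Prime] (k : Type) [Field k] [CharP k ℓ] (H : Type) [Group H]
    [Finite H] (O : Subgroup H) [O.Normal] (hO : IsPGroup ℓ O) :
    clsum (lsubSetoid ℓ (H ⧸ O)) (fun Q => zproj k (NQ Q.1)) =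
      clsum (lsubSetoid ℓ H) fun Q => zproj k (NQ Q.1) := by
  have hs : Function.Surjective (QuotientGroup.mk' O) := QuotientGroup.mk'_surjective O
  refine clsum_transfer (lsubSetoid ℓ (H ⧸ O)) (lsubSetoid ℓ H) _ _ ?_ ?_
    (fun Q => ⟨Q.1.comap (QuotientGroup.mk' O), K6_isPGroup_comap hO Q.2⟩) ?_ ?_ ?_
  · rintro Q R ⟨g, hg⟩
    change zproj k (NQ Q.1) = zproj k (NQ R.1)
    rw [← hg, K6_zproj_cj]
  · rintro Q R ⟨g, hg⟩
    change zproj k (NQ Q.1) = zproj k (NQ R.1)
    rw [← hg, K6_zproj_cj]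
  · intro Q R
    constructor
    · rintro ⟨g, hg⟩
      obtain ⟨h, rfl⟩ := hs g
      refine ⟨h, ?_⟩
      change cj h (Q.1.comap (QuotientGroup.mk' O)) = R.1.comap (QuotientGroup.mk' O)
      rw [K6_cj_comap _ hs, hg]
    · rintro ⟨h, hh⟩
      refine ⟨QuotientGroup.mk' O h, ?_⟩
      change cj h (Q.1.comap (QuotientGroup.mk' O)) = R.1.comap (QuotientGroup.mk' O) at hh
      rw [K6_cj_comap _ hs] at hh
      exact Subgroup.comap_injective hs hh
  · intro Q hQ
    have hOQ : O ≤ Q.1 := by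
      by_contra h
      exact hQ (K6_zproj_zero ℓ k H O hO Q.1 Q.2 h)
    refine ⟨⟨Q.1.map (QuotientGroup.mk' O), Q.2.map _⟩, 1, ?_⟩
    change cj 1 ((Q.1.map (QuotientGroup.mk' O)).comap (QuotientGroup.mk' O)) = Q.1
    rw [cj_one, Subgroup.comap_map_eq_self]
    rw [QuotientGroup.ker_mk']
    exact hOQ
  · intro Q
    exact (K6_zproj_comap k _ hs Q.1).symm

theorem awc_quot (ℓ : ℕ) [Fact ℓ.Prime] (k : Type) [Field k] [CharP k ℓ] (H : Type) [Group H]
    [Finite H] (O : Subgroup H) [O.Normal] (hO : IsPGroup ℓ O) (h : AWCfor ℓ k (H ⧸ O)) :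
    AWCfor ℓ k H := by
  unfold AWCfor at h ⊢
  rw [← lreg_quot ℓ H O hO, h]
  exact weights_quot ℓ k H O hO

end Pool.FS95
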