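import Pool.Agent.LibFS95.B2

/-!
Row B3: Brauer's permutation lemma for an automorphism `α` with `α^p = 1`, `p` prime, over any field.

Plan. The centre `Z` of `KG` has two bases permuted by `aut K α`: the block idempotents (`b`, B1: the centre of a product of matrix
algebras is `Π K`) and the class sums (a central element has coefficients constant on classes). For a finite set `Y` permuted by `α` the
space of `α`-invariants of the permutation module `K^Y` has dimension the number of `⟨α⟩`-orbits (invariant functions are the functions constant on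
orbits). So `⟨α⟩` has the same number of orbits on both sets, and also both sets have the same cardinality `dim Z`. Orbits have size `1` or `p`:
`#orbits * p = #fixed * (p - 1) + #Y`, so the numbers of fixed points agree.
-/

set_option autoImplicit false
noncomputable section
open MulAction
namespace Pool.FS95

theorem b3_orb {ι : Type} [Finite ι] (p : ℕ) [Fact p.Prime] (σ : Equiv.Perm ι)
    (hσ : σ ^ p = 1) :
    p * Nat.card (Quotient (MulAction.orbitRel (Subgroup.zpowers σ) ι)) =
      Nat.card ι + (p - 1) * Nat.card {i : ι // σ i = i} := by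
  classical
  haveI := Fintype.ofFinite ι
  have hp1 : 1 ≤ p := (Fact.out : p.Prime).one_lt.le
  by_cases h1 : σ = 1
  · subst h1
    have hq : Nat.card (Quotient (MulAction.orbitRel (Subgroup.zpowers (1 : Equiv.Perm ι)) ι)) =
        Nat.card ι := by
      refine (Nat.card_eq_of_bijective
        (fun i : ι => (Quotient.mk (MulAction.orbitRel (Subgroup.zpowers (1 : Equiv.Perm ι)) ι) i))
        ⟨fun i j hij => ?_, Quotient.mk_surjective⟩).symm
      obtain ⟨⟨g, hg⟩, hgi⟩ := Quotient.exact hij
      rw [Subgroup.zpowers_one_eq_bot, Subgroup.mem_bot] at hg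
      subst hg
      exact hgi.symm
    have hf : Nat.card {i : ι // (1 : Equiv.Perm ι) i = i} = Nat.card ι :=
      Nat.card_congr (Equiv.subtypeUnivEquiv (fun i => rfl))
    rw [hq, hf]
    obtain ⟨k, rfl⟩ : ∃ k, p = k + 1 := ⟨p - 1, by omega⟩
    simp only [Nat.add_sub_cancel]
    ring
  · have hord : Nat.card (Subgroup.zpowers σ) = p := by
      rw [Nat.card_zpowers]
      exact orderOf_eq_prime hσ h1
    have hburn := MulAction.sum_card_fixedBy_eq_card_orbits_mul_card_group
      (Subgroup.zpowers σ) ι
    simp only [← Nat.card_eq_fintype_card] at hburn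
    rw [hord] at hburn
    have hmem : σ ∈ Subgroup.zpowers σ := Subgroup.mem_zpowers σ
    have hfix : ∀ g : Subgroup.zpowers σ, g ≠ 1 →
        Nat.card (MulAction.fixedBy ι g) = Nat.card {i : ι // σ i = i} := by
      intro g hg
      refine Nat.card_congr (Equiv.subtypeEquivRight fun i => ?_)
      rw [MulAction.mem_fixedBy]
      constructor
      · intro hgi
        obtain ⟨k, hk⟩ := mem_zpowers_of_prime_card (g' := (⟨σ, hmem⟩ : Subgroup.zpowers σ)) hord hg
        have h2 : (⟨σ, hmem⟩ : Subgroup.zpowers σ) ∈ MulAction.stabilizer (Subgroup.zpowers σ) i := by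
          rw [← hk]
          exact Subgroup.zpow_mem _ (MulAction.mem_stabilizer_iff.2 hgi) k
        exact h2
      · intro hi
        obtain ⟨k, hk⟩ := g.2
        have h2 : (⟨σ, hmem⟩ : Subgroup.zpowers σ) ∈ MulAction.stabilizer (Subgroup.zpowers σ) i := hi
        have h3 : g = (⟨σ, hmem⟩ : Subgroup.zpowers σ) ^ k := by
          apply Subtype.ext
          rw [Subgroup.coe_zpow]
          exact hk.symm
        have h4 := Subgroup.zpow_mem _ h2 k
        rw [← h3] at h4
        exact h4
    have hone : Nat.card (MulAction.fixedBy ι (1 : Subgroup.zpowers σ)) = Nat.card ι :=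
      Nat.card_congr (Equiv.subtypeUnivEquiv (fun i => one_smul _ i))
    rw [← Finset.add_sum_erase _ _ (Finset.mem_univ (1 : Subgroup.zpowers σ)), hone,
      Finset.sum_congr rfl (fun g hg => hfix g (Finset.ne_of_mem_erase hg)), Finset.sum_const,
      Finset.card_erase_of_mem (Finset.mem_univ _), Finset.card_univ,
      ← Nat.card_eq_fintype_card, hord, smul_eq_mul] at hburn
    rw [hburn, mul_comm]

theorem b3_inv {K V ι : Type} [Field K] [AddCommGroup V] [Module K V] [Finite ι]
    (e : V ≃ₗ[K] (ι → K)) (T : V →ₗ[K] V) (σ : Equiv.Perm ι)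
    (hT : ∀ v i, e (T v) (σ i) = e v i) :
    Module.finrank K (LinearMap.ker (T - LinearMap.id)) =
      Nat.card (Quotient (MulAction.orbitRel (Subgroup.zpowers σ) ι)) := by
  classical
  haveI := Fintype.ofFinite ι
  set R := MulAction.orbitRel (Subgroup.zpowers σ) ι with hR
  haveI : Fintype (Quotient R) := Fintype.ofFinite _
  let Φ : (Quotient R → K) →ₗ[K] V :=
    e.symm.toLinearMap ∘ₗ LinearMap.funLeft K K (Quotient.mk R)
  have hΦ : ∀ f i, e (Φ f) i = f (Quotient.mk R i) := by
    intro f i
    simp [Φ, LinearMap.funLeft_apply]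
  have hinj : Function.Injective Φ :=
    e.symm.injective.comp
      (LinearMap.funLeft_injective_of_surjective K K _ Quotient.mk_surjective)
  have hσ : ∀ i, Quotient.mk R (σ i) = Quotient.mk R i := by
    intro i
    apply Quotient.sound
    exact ⟨⟨σ, Subgroup.mem_zpowers σ⟩, rfl⟩
  have hrange : LinearMap.range Φ = LinearMap.ker (T - LinearMap.id) := by
    ext v
    rw [LinearMap.mem_ker, LinearMap.sub_apply, LinearMap.id_apply, sub_eq_zero]
    constructor
    · rintro ⟨f, rfl⟩
      apply e.injective
      ext i
      obtain ⟨j, rfl⟩ := σ.surjective i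
      rw [hT, hΦ, hΦ, hσ]
    · intro hv
      have h1 : ∀ i, e v (σ i) = e v i := by
        intro i
        have := hT v i
        rwa [hv] at this
      let S : Subgroup (Equiv.Perm ι) :=
        { carrier := {g | ∀ i, e v (g i) = e v i}
          one_mem' := fun i => rfl
          mul_mem' := fun {g g'} hg hg' i => by
            rw [Equiv.Perm.mul_apply, hg, hg']
          inv_mem' := fun {g} hg i => by
            have h5 : g (g⁻¹ i) = i := g.apply_symm_apply i
            have := hg (g⁻¹ i)
            rw [h5] at this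
            exact this.symm }
      have hS : Subgroup.zpowers σ ≤ S := by
        rw [Subgroup.zpowers_le]
        exact h1
      refine ⟨Quotient.lift (fun i => e v i) ?_, ?_⟩
      · rintro i j ⟨⟨g, hg⟩, rfl⟩
        exact hS hg j
      · apply e.injective
        ext i
        rw [hΦ]
        rfl
  rw [← hrange, LinearMap.finrank_range_of_inj hinj, Module.finrank_fintype_fun_eq_card,
    Nat.card_eq_fintype_card]

theorem b3_dim {K V ι : Type} [Field K] [AddCommGroup V] [Module K V] [Finite ι]
    (e : V ≃ₗ[K] (ι → K)) : Module.finrank K V = Nat.card ι := by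
  haveI := Fintype.ofFinite ι
  rw [e.finrank_eq, Module.finrank_fintype_fun_eq_card, Nat.card_eq_fintype_card]

/-- The centre of the group algebra. -/
def b3Z (K : Type) [Field K] (G : Type) [Group G] : Submodule K (MonoidAlgebra K G) where
  carrier := {a | ∀ b, a * b = b * a}
  add_mem' := by intro a b ha hb c; rw [mul_add, add_mul, ha c, hb c]
  zero_mem' := by intro b; simp
  smul_mem' := by intro c a ha b; rw [mul_smul_comm, smul_mul_assoc, ha b]

theorem b3_aut_mem {K : Type} [Field K] {G : Type} [Group G] (α : MulAut G)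
    {a : MonoidAlgebra K G} (ha : a ∈ b3Z K G) : aut K α a ∈ b3Z K G := by
  intro b
  have h1 := congrArg (aut K α) (ha (aut K α⁻¹ b))
  rwa [map_mul, map_mul, ← aut_mul, mul_inv_cancel, aut_one] at h1

/-- The map induced by `α` on the centre. -/
def b3T (K : Type) [Field K] {G : Type} [Group G] (α : MulAut G) : b3Z K G →ₗ[K] b3Z K G :=
  (aut K α).toLinearMap.restrict (fun _ ha => b3_aut_mem α ha)

theorem b3T_coe {K : Type} [Field K] {G : Type} [Group G] (α : MulAut G) (a : b3Z K G) :
    (b3T K α a : MonoidAlgebra K G) = aut K α a := rfl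

theorem b3_coeff_conj {K : Type} [Field K] {G : Type} [Group G] {a : MonoidAlgebra K G}
    (ha : a ∈ b3Z K G) {x y : G} (hxy : IsConj x y) : a.coeff x = a.coeff y := by
  obtain ⟨c, rfl⟩ := isConj_iff.1 hxy
  have h1 := congrArg (fun b => b.coeff (c * x)) (ha (MonoidAlgebra.single c 1))
  simp only [MonoidAlgebra.coeff_mul_single_apply, MonoidAlgebra.coeff_single_mul_apply,
    mul_one, one_mul, inv_mul_cancel_left] at h1
  exact h1.symm

theorem b3_mem_of_class {K : Type} [Field K] {G : Type} [Group G] {a : MonoidAlgebra K G}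
    (ha : ∀ x y, IsConj x y → a.coeff x = a.coeff y) : a ∈ b3Z K G := by
  intro b
  induction b using MonoidAlgebra.induction_linear with
  | zero => simp
  | add f g hf hg => rw [mul_add, add_mul, hf, hg]
  | single g r =>
    ext h
    rw [MonoidAlgebra.coeff_mul_single_apply, MonoidAlgebra.coeff_single_mul_apply, mul_comm]
    congr 1
    apply ha
    rw [isConj_iff]
    exact ⟨g⁻¹, by group⟩

/-- The centre as the space of class functions. -/
def b3e2 (K : Type) [Field K] (G : Type) [Group G] [Finite G] :
    b3Z K G ≃ₗ[K] (ConjClasses G → K) where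
  toFun a c := Quotient.lift (fun x => a.1.coeff x) (fun _ _ h => b3_coeff_conj a.2 h) c
  map_add' a b := by
    funext c
    induction c using Quotient.inductionOn with
    | h x => rfl
  map_smul' r a := by
    funext c
    induction c using Quotient.inductionOn with
    | h x => rfl
  invFun f := ⟨MonoidAlgebra.ofCoeff (Finsupp.equivFunOnFinite.symm
    (fun x => f (ConjClasses.mk x))), b3_mem_of_class (fun x y h => by
      simp only [Finsupp.equivFunOnFinite_symm_apply_apply]
      rw [ConjClasses.mk_eq_mk_iff_isConj.2 h])⟩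
  left_inv a := by
    apply Subtype.ext
    ext x
    simp only [Finsupp.equivFunOnFinite_symm_apply_apply]
    rfl
  right_inv f := by
    funext c
    induction c using Quotient.inductionOn with
    | h x =>
      show (MonoidAlgebra.ofCoeff (Finsupp.equivFunOnFinite.symm
        (fun x => f (ConjClasses.mk x)))).coeff x = _
      simp only [Finsupp.equivFunOnFinite_symm_apply_apply]
      rfl

theorem b3e2_T {K : Type} [Field K] {G : Type} [Group G] [Finite G] (α : MulAut G)
    (a : b3Z K G) (c : ConjClasses G) :
    b3e2 K G (b3T K α a) (α • c) = b3e2 K G a c := by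
  induction c using Quotient.inductionOn with
  | h x =>
    show (aut K α a.1).coeff (α x) = a.1.coeff x
    unfold aut
    rw [MonoidAlgebra.coeff_domCongr]
    congr 1
    exact α.symm_apply_apply x

theorem b3_scalar {K : Type} [Field K] {n : ℕ} [NeZero n] {M : Matrix (Fin n) (Fin n) K}
    (hM : ∀ N, M * N = N * M) : M = (M 0 0) • (1 : Matrix (Fin n) (Fin n) K) := by
  obtain ⟨c, hc⟩ := Matrix.mem_range_scalar_of_commute_single (M := M)
    (fun i j _ => (hM (Matrix.single i j 1)).symm)
  rw [← hc]
  ext i j
  simp [Matrix.scalar_apply, Matrix.diagonal_apply, Matrix.one_apply]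

theorem b3_comp {K : Type} [Field K] {G : Type} [Group G] {r : ℕ} {d : Fin r → ℕ}
    (E : MonoidAlgebra K G ≃ₐ[K] Π i, Matrix (Fin (d i)) (Fin (d i)) K)
    {a : MonoidAlgebra K G} (ha : a ∈ b3Z K G) (i : Fin r)
    (N : Matrix (Fin (d i)) (Fin (d i)) K) : E a i * N = N * E a i := by
  have h1 := congrArg (fun x => E x i) (ha (E.symm (Pi.single i N)))
  simp only [map_mul, AlgEquiv.apply_symm_apply, Pi.mul_apply, Pi.single_eq_same] at h1
  exact h1

theorem b3_exists (K : Type) [Field K] [IsAlgClosed K] (G : Type) [Group G] [Finite G]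
    (hG : (Nat.card G : K) ≠ 0) :
    ∃ e : b3Z K G ≃ₗ[K] (Blk K G → K), ∀ (α : MulAut G) (a : b3Z K G) (f : Blk K G),
      e (b3T K α a) (α • f) = e a f := by
  obtain ⟨r, d, E, b, hd, hE⟩ := blk_structure K G hG
  haveI := hd
  have hsc : ∀ a : b3Z K G, ∀ i, E a.1 i = (E a.1 i 0 0) • (1 : Matrix (Fin (d i)) (Fin (d i)) K) :=
    fun a i => b3_scalar (fun N => b3_comp E a.2 i N)
  let e : b3Z K G ≃ₗ[K] (Blk K G → K) :=
    { toFun := fun a f => E a.1 (b.symm f) 0 0
      map_add' := by
        intro x y
        funext f
        simp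
      map_smul' := by
        intro c x
        funext f
        simp
      invFun := fun f => ⟨E.symm (fun i => (f (b i)) • (1 : Matrix (Fin (d i)) (Fin (d i)) K)), by
        intro x
        apply E.injective
        rw [map_mul, map_mul, AlgEquiv.apply_symm_apply]
        funext i
        simp⟩
      left_inv := by
        intro a
        apply Subtype.ext
        apply E.injective
        show E (E.symm (fun i => (E a.1 (b.symm (b i)) 0 0) •
          (1 : Matrix (Fin (d i)) (Fin (d i)) K))) = E a.1
        rw [AlgEquiv.apply_symm_apply]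
        funext i
        rw [Equiv.symm_apply_apply]
        exact (hsc a i).symm
      right_inv := by
        intro f
        funext g
        show E (E.symm _) (b.symm g) 0 0 = f g
        rw [AlgEquiv.apply_symm_apply]
        simp }
  have hval : ∀ (a : b3Z K G) (f : Blk K G), f.1 * a.1 = (e a f) • f.1 := by
    intro a f
    obtain ⟨i, rfl⟩ := b.surjective f
    apply E.injective
    show E ((b i).1 * a.1) = E ((E a.1 (b.symm (b i)) 0 0) • (b i).1)
    rw [map_mul, map_smul, hE, Equiv.symm_apply_apply]
    funext j
    by_cases hj : j = i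
    · subst hj
      simp only [Pi.mul_apply, Pi.single_eq_same, one_mul, Pi.smul_apply]
      exact hsc a j
    · simp [Pi.single_eq_of_ne hj]
  refine ⟨e, fun α a f => ?_⟩
  have h1 := hval (b3T K α a) (α • f)
  rw [b3T_coe, blk_smul_val, ← map_mul, hval a f, map_smul] at h1
  have hne : aut K α f.1 ≠ 0 := (α • f).2.1
  have h2 := sub_eq_zero.2 h1
  rw [← sub_smul] at h2
  rcases smul_eq_zero.1 h2 with h3 | h3
  · exact (sub_eq_zero.1 h3).symm
  · exact absurd h3 hne

theorem card_blk_fixed (K : Type) [Field K] [IsAlgClosed K] (G : Type) [Group G] [Finite G]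
    (hG : (Nat.card G : K) ≠ 0) (p : ℕ) [Fact p.Prime] (α : MulAut G) (hα : α ^ p = 1) :
    Nat.card {e : Blk K G // α • e = e} = Nat.card {c : ConjClasses G // α • c = c} := by
  have := blk_finite K G hG
  obtain ⟨e, he⟩ := b3_exists K G hG
  have hp : 1 < p := (Fact.out : p.Prime).one_lt
  have hs1 : (MulAction.toPerm α : Equiv.Perm (Blk K G)) ^ p = 1 := by
    have := map_pow (MulAction.toPermHom (MulAut G) (Blk K G)) α p
    rw [hα, map_one] at this
    exact this.symm
  have hs2 : (MulAction.toPerm α : Equiv.Perm (ConjClasses G)) ^ p = 1 := by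
    have := map_pow (MulAction.toPermHom (MulAut G) (ConjClasses G)) α p
    rw [hα, map_one] at this
    exact this.symm
  have h1 := b3_orb p (MulAction.toPerm α : Equiv.Perm (Blk K G)) hs1
  have h2 := b3_orb p (MulAction.toPerm α : Equiv.Perm (ConjClasses G)) hs2
  rw [← b3_inv e (b3T K α) _ (fun v i => he α v i), ← b3_dim e] at h1
  rw [← b3_inv (b3e2 K G) (b3T K α) _ (fun v i => b3e2_T α v i), ← b3_dim (b3e2 K G), h1] at h2
  have h3 := Nat.add_left_cancel h2
  exact Nat.eq_of_mul_eq_mul_left (by omega) h3

theorem card_blk (K : Type) [Field K] [IsAlgClosed K] (G : Type) [Group G] [Finite G]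
    (hG : (Nat.card G : K) ≠ 0) : Nat.card (Blk K G) = Nat.card (ConjClasses G) := by
  have := blk_finite K G hG
  obtain ⟨e, _⟩ := b3_exists K G hG
  rw [← b3_dim e, ← b3_dim (b3e2 K G)]

end Pool.FS95
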