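import Pool.Agent.LibFS95.Blk

/-!
Row N4: classes of an `ℓ'`-group `N` stable under an automorphism of order `ℓ`.
-/

set_option autoImplicit false
noncomputable section
open MulAction
namespace Pool.FS95

/-- The fixed points of `α`. -/
def fixOne {N : Type} [Group N] (α : MulAut N) : Subgroup N where
  carrier := {x | α x = x}
  mul_mem' := by intro a b h1 h2; change α (a * b) = a * b; rw [map_mul, h1, h2]
  one_mem' := map_one α
  inv_mem' := by intro a h1; change α a⁻¹ = a⁻¹; rw [map_inv, h1]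

private theorem n4_point (ℓ : ℕ) [Fact ℓ.Prime] {O A Ω : Type} [Group O] [Finite O] [Group A]
    [Finite A] (hA : IsPGroup ℓ A) (hO : ¬ ℓ ∣ Nat.card O) [MulAction O Ω] [MulAction A Ω]
    [Nonempty Ω] [IsPretransitive O Ω] : ∃ ω : Ω, ∀ a : A, a • ω = ω := by
  obtain ⟨ω₀⟩ := ‹Nonempty Ω›
  have hfin : Finite Ω := by
    refine Finite.of_surjective (fun o : O => o • ω₀) fun ω => ?_
    exact IsPretransitive.exists_smul_eq ω₀ ω
  have h1 : (stabilizer O ω₀).index = Nat.card Ω := index_stabilizer_of_transitive O ω₀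
  have h2 : ¬ ℓ ∣ Nat.card Ω := by
    intro h
    apply hO
    rw [← h1] at h
    exact h.trans (Subgroup.index_dvd_card _)
  obtain ⟨ω, hω⟩ := hA.nonempty_fixed_point_of_prime_not_dvd_card Ω h2
  exact ⟨ω, fun a => hω a⟩

private theorem n4_fix (ℓ : ℕ) [Fact ℓ.Prime] {Q : Type} [Group Q] [Finite Q]
    (hQ : ¬ ℓ ∣ Nat.card Q) {A : Type} [Group A] [Finite A] (hA : IsPGroup ℓ A) (φ : A →* MulAut Q)
    (x₀ : Q) (hx : ∀ a, ∃ q, φ a x₀ = q * x₀ * q⁻¹) :
    ∃ x, (∃ q, x = q * x₀ * q⁻¹) ∧ ∀ a, φ a x = x := by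
  letI i2 : MulAction Q {y // ∃ q, y = q * x₀ * q⁻¹} :=
    { smul := fun q y => ⟨q * y.1 * q⁻¹, by
        obtain ⟨y, r, rfl⟩ := y
        exact ⟨q * r, by group⟩⟩
      one_smul := fun y => Subtype.ext (by
        change 1 * y.1 * 1⁻¹ = y.1
        group)
      mul_smul := fun q r y => Subtype.ext (by
        change (q * r) * y.1 * (q * r)⁻¹ = q * (r * y.1 * r⁻¹) * q⁻¹
        group) }
  letI i3 : MulAction A {y // ∃ q, y = q * x₀ * q⁻¹} :=
    { smul := fun a y => ⟨φ a y.1, by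
        obtain ⟨y, r, rfl⟩ := y
        obtain ⟨s, hs⟩ := hx a
        refine ⟨φ a r * s, ?_⟩
        change φ a (r * x₀ * r⁻¹) = _
        rw [map_mul, map_mul, map_inv, hs]
        group⟩
      one_smul := fun y => Subtype.ext (by
        change φ 1 y.1 = y.1
        rw [map_one]; rfl)
      mul_smul := fun a b y => Subtype.ext (by
        change φ (a * b) y.1 = φ a (φ b y.1)
        rw [map_mul]; rfl) }
  haveI i4 : Nonempty {y // ∃ q, y = q * x₀ * q⁻¹} := ⟨⟨x₀, 1, by group⟩⟩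
  haveI i5 : IsPretransitive Q {y // ∃ q, y = q * x₀ * q⁻¹} := by
    refine ⟨fun y z => ?_⟩
    obtain ⟨y, q, rfl⟩ := y
    obtain ⟨z, r, rfl⟩ := z
    refine ⟨r * q⁻¹, Subtype.ext ?_⟩
    change (r * q⁻¹) * (q * x₀ * q⁻¹) * (r * q⁻¹)⁻¹ = r * x₀ * r⁻¹
    group
  obtain ⟨ω, hω⟩ := n4_point ℓ (O := Q) (A := A) (Ω := {y // ∃ q, y = q * x₀ * q⁻¹}) hA hQ
  exact ⟨ω.1, ω.2, fun a => congrArg Subtype.val (hω a)⟩

private theorem n4_conj (ℓ : ℕ) [Fact ℓ.Prime] {Q : Type} [Group Q] [Finite Q]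
    (hQ : ¬ ℓ ∣ Nat.card Q) {A : Type} [Group A] [Finite A] (hA : IsPGroup ℓ A) (φ : A →* MulAut Q)
    (x y : Q) (hx : ∀ a, φ a x = x) (hy : ∀ a, φ a y = y)
    (hxy : ∃ q, y = q * x * q⁻¹) : ∃ c, (∀ a, φ a c = c) ∧ y = c * x * c⁻¹ := by
  have hO : ∀ v : Subgroup.centralizer ({y} : Set Q), v.1 * y = y * v.1 := fun v =>
    Subgroup.mem_centralizer_singleton_iff.1 v.2
  letI i2 : MulAction (Subgroup.centralizer ({y} : Set Q)) {q : Q // y = q * x * q⁻¹} :=
    { smul := fun v q => ⟨v.1 * q.1, by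
        have h1 := hO v
        calc y = v.1 * y * v.1⁻¹ := by rw [h1]; group
          _ = v.1 * (q.1 * x * q.1⁻¹) * v.1⁻¹ := by rw [← q.2]
          _ = v.1 * q.1 * x * (v.1 * q.1)⁻¹ := by group⟩
      one_smul := fun q => Subtype.ext (one_mul q.1)
      mul_smul := fun v w q => Subtype.ext (mul_assoc v.1 w.1 q.1) }
  letI i3 : MulAction A {q : Q // y = q * x * q⁻¹} :=
    { smul := fun a q => ⟨φ a q.1, by
        have h1 := congrArg (φ a) q.2
        rwa [map_mul, map_mul, map_inv, hy a, hx a] at h1⟩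
      one_smul := fun q => Subtype.ext (by
        change φ 1 q.1 = q.1
        rw [map_one]; rfl)
      mul_smul := fun a b q => Subtype.ext (by
        change φ (a * b) q.1 = φ a (φ b q.1)
        rw [map_mul]; rfl) }
  haveI i4 : Nonempty {q : Q // y = q * x * q⁻¹} := by
    obtain ⟨q, hq⟩ := hxy
    exact ⟨⟨q, hq⟩⟩
  haveI i5 : IsPretransitive (Subgroup.centralizer ({y} : Set Q)) {q : Q // y = q * x * q⁻¹} := by
    refine ⟨fun q r => ?_⟩
    have hq := q.2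
    have hr := r.2
    refine ⟨⟨r.1 * q.1⁻¹, ?_⟩, Subtype.ext ?_⟩
    · rw [Subgroup.mem_centralizer_singleton_iff]
      calc r.1 * q.1⁻¹ * y = r.1 * q.1⁻¹ * (q.1 * x * q.1⁻¹) := by rw [← hq]
        _ = (r.1 * x * r.1⁻¹) * (r.1 * q.1⁻¹) := by group
        _ = y * (r.1 * q.1⁻¹) := by rw [← hr]
    · change r.1 * q.1⁻¹ * q.1 = r.1
      group
  have hC : ¬ ℓ ∣ Nat.card (Subgroup.centralizer ({y} : Set Q)) := fun h =>
    hQ (h.trans (Subgroup.card_subgroup_dvd_card _))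
  obtain ⟨ω, hω⟩ := n4_point ℓ (O := Subgroup.centralizer ({y} : Set Q)) (A := A)
    (Ω := {q : Q // y = q * x * q⁻¹}) hA hC
  exact ⟨ω.1, fun a => congrArg Subtype.val (hω a), ω.2⟩

private theorem n4_zpow {N : Type} [Group N] (α : MulAut N) {x : N} (hx : α x = x)
    (a : Subgroup.zpowers α) : (Subgroup.zpowers α).subtype a x = x := by
  have h1 : Subgroup.zpowers α ≤ stabilizer (MulAut N) x := by
    rw [Subgroup.zpowers_le]
    exact hx
  exact h1 a.2

theorem card_classes_fixed_one (ℓ : ℕ) [Fact ℓ.Prime] {N : Type} [Group N] [Finite N]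
    (hN : ¬ ℓ ∣ Nat.card N) (α : MulAut N) (hα : α ^ ℓ = 1) :
    Nat.card {c : ConjClasses N // α • c = c} = Nat.card (ConjClasses (fixOne α)) := by
  have hA : IsPGroup ℓ (Subgroup.zpowers α) := by
    intro a
    refine ⟨1, ?_⟩
    obtain ⟨a, i, rfl⟩ := a
    apply Subtype.ext
    change (α ^ i) ^ (ℓ ^ 1) = 1
    rw [pow_one, ← zpow_natCast, ← zpow_mul, mul_comm, zpow_mul, zpow_natCast, hα, one_zpow]
  haveI hAf : Finite (Subgroup.zpowers α) := by
    have h1 : IsOfFinOrder α := isOfFinOrder_iff_pow_eq_one.2 ⟨ℓ, (Fact.out : ℓ.Prime).pos, hα⟩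
    exact h1.finite_zpowers
  symm
  have hwd : ∀ x y : fixOne α, IsConj x y →
      (⟨ConjClasses.mk x.1, by rw [smul_mk, show α x.1 = x.1 from x.2]⟩ :
        {c : ConjClasses N // α • c = c}) =
      ⟨ConjClasses.mk y.1, by rw [smul_mk, show α y.1 = y.1 from y.2]⟩ := by
    intro x y hxy
    obtain ⟨c, hc⟩ := isConj_iff.1 hxy
    apply Subtype.ext
    rw [ConjClasses.mk_eq_mk_iff_isConj, isConj_iff]
    exact ⟨c.1, congrArg Subtype.val hc⟩
  refine Nat.card_congr (Equiv.ofBijective (Quotient.lift (s := IsConj.setoid (fixOne α))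
    (fun x : fixOne α => (⟨ConjClasses.mk x.1, by rw [smul_mk, show α x.1 = x.1 from x.2]⟩ :
        {c : ConjClasses N // α • c = c})) hwd) ⟨?_, ?_⟩)
  · intro c d
    refine Quotient.inductionOn₂ c d (fun x y hxy => ?_)
    have h1 : ConjClasses.mk x.1 = ConjClasses.mk y.1 := congrArg Subtype.val hxy
    rw [ConjClasses.mk_eq_mk_iff_isConj, isConj_iff] at h1
    obtain ⟨q, hq⟩ := h1
    obtain ⟨r, hr1, hr2⟩ := n4_conj ℓ hN hA (Subgroup.zpowers α).subtype x.1 y.1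
      (n4_zpow α x.2) (n4_zpow α y.2) ⟨q, hq.symm⟩
    apply Quotient.sound
    change IsConj x y
    rw [isConj_iff]
    refine ⟨⟨r, hr1 ⟨α, Subgroup.mem_zpowers α⟩⟩, Subtype.ext ?_⟩
    exact hr2.symm
  · rintro ⟨c, hc⟩
    obtain ⟨x₀, rfl⟩ := ConjClasses.exists_rep c
    obtain ⟨x, ⟨q, hq⟩, hxa⟩ := n4_fix ℓ hN hA (Subgroup.zpowers α).subtype x₀ (fun a => by
      have h1 : Subgroup.zpowers α ≤ stabilizer (MulAut N) (ConjClasses.mk x₀) := by
        rw [Subgroup.zpowers_le]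
        exact hc
      have h2 : a.1 • ConjClasses.mk x₀ = ConjClasses.mk x₀ := h1 a.2
      rw [smul_mk] at h2
      rw [eq_comm, ConjClasses.mk_eq_mk_iff_isConj, isConj_iff] at h2
      obtain ⟨q, hq⟩ := h2
      exact ⟨q, hq.symm⟩)
    have hx3 : α x = x := hxa ⟨α, Subgroup.mem_zpowers α⟩
    refine ⟨Quotient.mk (IsConj.setoid (fixOne α)) ⟨x, hx3⟩, Subtype.ext ?_⟩
    change ConjClasses.mk x = ConjClasses.mk x₀
    rw [eq_comm, ConjClasses.mk_eq_mk_iff_isConj, isConj_iff]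
    exact ⟨q, hq.symm⟩

end Pool.FS95
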