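import Pool.Agent.LibFS95.Z7

/-!
Row Z8: `|H:N| z(kH)` is the number of blocks of `kN` with stabiliser `N`.

Plan. By Z5 and Z7 the map `V ↦ {e : Blk k N | eV ≠ 0}` is a bijection from the isomorphism classes of simple projective modules (`Quotient (projSimpleSetoid k H)`) to the `H`-orbits on `{e // blkStab N e = N}` (the set is a single orbit: `blk_smul_conj`; it is closed under `H`: `h e V = (h•e) h V`).
All these orbits have `|H:N|` elements (orbit-stabiliser: the action of `H` through `MulAut.conjNormal`). Isomorphic modules have the same set of blocks.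
-/

set_option autoImplicit false
noncomputable section
open MulAction
namespace Pool.FS95

theorem z8_conj {k : Type} [Field k] {H : Type} [Group H] (N : Subgroup H) [N.Normal] (h : H)
    (a : MonoidAlgebra k N) :
    iN k N (aut k (MulAut.conjNormal h) a) * MonoidAlgebra.single h 1 =
      MonoidAlgebra.single h 1 * iN k N a := by
  have key : (AddMonoidHom.mulRight (MonoidAlgebra.single h (1 : k))).comp
      ((iN k N : MonoidAlgebra k N →+* MonoidAlgebra k H).toAddMonoidHom.comp
        ((aut k (MulAut.conjNormal h : MulAut N) : MonoidAlgebra k N →+*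
          MonoidAlgebra k N).toAddMonoidHom)) =
      (AddMonoidHom.mulLeft (MonoidAlgebra.single h (1 : k))).comp
        (iN k N : MonoidAlgebra k N →+* MonoidAlgebra k H).toAddMonoidHom := by
    apply MonoidAlgebra.addMonoidHom_ext
    intro x c
    change iN k N (aut k (MulAut.conjNormal h) (MonoidAlgebra.single x c)) *
        MonoidAlgebra.single h 1 = MonoidAlgebra.single h 1 * iN k N (MonoidAlgebra.single x c)
    rw [aut_single]
    unfold iN
    rw [MonoidAlgebra.mapDomainAlgHom_apply, MonoidAlgebra.mapDomainAlgHom_apply,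
      MonoidAlgebra.mapDomain_single, MonoidAlgebra.mapDomain_single,
      MonoidAlgebra.single_mul_single, MonoidAlgebra.single_mul_single, mul_one, one_mul]
    congr 1
    simp [MulAut.conjNormal_apply]
  exact DFunLike.congr_fun key a

/-- `V` belongs to the block `e`. -/
def z8_R {k : Type} [Field k] {H : Type} [Group H] (N : Subgroup H) (I : ProjSimple k H)
    (e : Blk k N) : Prop := ∃ v : MonoidAlgebra k H ⧸ I.1, iN k N e.1 • v ≠ 0

theorem z8_smul {k : Type} [Field k] {H : Type} [Group H] (N : Subgroup H) [N.Normal] (h : H)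
    (I : ProjSimple k H) (e : Blk k N) (hI : z8_R N I e) :
    z8_R N I ((MulAut.conjNormal h : MulAut N) • e) := by
  obtain ⟨v, hv⟩ := hI
  refine ⟨MonoidAlgebra.single h (1 : k) • v, ?_⟩
  intro h0
  apply hv
  rw [blk_smul_val, smul_smul, z8_conj, mul_smul] at h0
  have h1 := congrArg (fun w => MonoidAlgebra.single h⁻¹ (1 : k) • w) h0
  simp only [smul_zero] at h1
  rw [smul_smul, MonoidAlgebra.single_mul_single, inv_mul_cancel, mul_one,
    ← MonoidAlgebra.one_def, one_smul] at h1
  exact h1

theorem z8_congr {k : Type} [Field k] {H : Type} [Group H] (N : Subgroup H)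
    (I J : ProjSimple k H) (e : Blk k N) (hI : z8_R N I e)
    (φ : (MonoidAlgebra k H ⧸ I.1) ≃ₗ[MonoidAlgebra k H] (MonoidAlgebra k H ⧸ J.1)) :
    z8_R N J e := by
  obtain ⟨v, hv⟩ := hI
  refine ⟨φ v, ?_⟩
  rw [← map_smul]
  intro h0
  exact hv ((LinearEquiv.map_eq_zero_iff φ).1 h0)

theorem index_mul_zproj (ℓ : ℕ) [Fact ℓ.Prime] (k : Type) [Field k] [IsAlgClosed k]
    [CharP k ℓ] (H : Type) [Group H] [Finite H] (N : Subgroup H) [N.Normal]
    (hN : ¬ ℓ ∣ Nat.card N) (hP : IsPGroup ℓ (H ⧸ N)) :
    (N.index : ℤ) * zproj k H = (Nat.card {e : Blk k N // blkStab N e = N} : ℤ) := by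
  classical
  have hN' : (Nat.card N : k) ≠ 0 := by
    intro h0
    exact hN ((CharP.cast_eq_zero_iff k ℓ _).1 h0)
  -- the map from the blocks to the modules
  choose f hf hf' using fun e : {e : Blk k N // blkStab N e = N} =>
    exists_projSimple ℓ k N hN e.1 e.2
  let F : {e : Blk k N // blkStab N e = N} → Quotient (projSimpleSetoid k H) :=
    fun e => Quotient.mk _ (f e)
  have hF : ∀ (e : {e : Blk k N // blkStab N e = N}) (I : ProjSimple k H),
      F e = Quotient.mk _ I ↔ z8_R N I e.1 := by
    intro e I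
    constructor
    · intro h
      obtain ⟨φ⟩ := Quotient.exact h
      exact z8_congr N (f e) I e.1 (hf e) φ
    · intro h
      exact Quotient.sound ⟨(hf' e I h).some.symm⟩
  let act : MulAction H (Blk k N) := MulAction.compHom (Blk k N) (MulAut.conjNormal (H := N))
  have hact : ∀ (h : H) (e : Blk k N), h • e = (MulAut.conjNormal h : MulAut N) • e :=
    fun h e => rfl
  have hfib : ∀ q : Quotient (projSimpleSetoid k H), Nonempty ({e // F e = q} ≃ H ⧸ N) := by
    intro q
    induction q using Quotient.inductionOn with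
    | h I =>
    have hs : IsSimpleModule (MonoidAlgebra k H) (MonoidAlgebra k H ⧸ I.1) := I.2.1
    have hp : Module.Projective (MonoidAlgebra k H) (MonoidAlgebra k H ⧸ I.1) := I.2.2
    have hnt : Nontrivial (MonoidAlgebra k H ⧸ I.1) :=
      IsSimpleModule.nontrivial (MonoidAlgebra k H) _
    obtain ⟨v, hv⟩ := exists_ne (0 : MonoidAlgebra k H ⧸ I.1)
    obtain ⟨e₀, he₀⟩ := exists_blk_smul_ne_zero k N hN' _ v hv
    have hR₀ : z8_R N I e₀ := ⟨v, he₀⟩
    have hst : ∀ e : Blk k N, z8_R N I e → blkStab N e = N := fun e he =>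
      stab_eq_of_projective ℓ k N hN hP (MonoidAlgebra k H ⧸ I.1) e he
    have hstab : MulAction.stabilizer H e₀ = N := hst e₀ hR₀
    have e1 : {e // F e = Quotient.mk (projSimpleSetoid k H) I} ≃ MulAction.orbit H e₀ :=
      { toFun := fun e => ⟨e.1.1, by
          obtain ⟨h, hh⟩ := blk_smul_conj k N hN' (MonoidAlgebra k H ⧸ I.1) e₀ e.1.1 hR₀
            ((hF e.1 I).1 e.2)
          exact ⟨h, hh⟩⟩
        invFun := fun e => ⟨⟨e.1, by
          obtain ⟨h, hh⟩ := e.2
          refine hst e.1 ?_
          rw [← hh]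
          exact z8_smul N h I e₀ hR₀⟩, by
          obtain ⟨h, hh⟩ := e.2
          refine (hF _ I).2 ?_
          change z8_R N I e.1
          rw [← hh]
          exact z8_smul N h I e₀ hR₀⟩
        left_inv := fun e => rfl
        right_inv := fun e => rfl }
    have e2 : MulAction.orbit H e₀ ≃ H ⧸ MulAction.stabilizer H e₀ :=
      MulAction.orbitEquivQuotientStabilizer H e₀
    rw [hstab] at e2
    exact ⟨e1.trans e2⟩
  have e3 : {e : Blk k N // blkStab N e = N} ≃ Quotient (projSimpleSetoid k H) × (H ⧸ N) :=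
    (Equiv.sigmaFiberEquiv F).symm.trans ((Equiv.sigmaCongrRight fun q => (hfib q).some).trans
      (Equiv.sigmaEquivProd _ _))
  rw [Nat.card_congr e3, Nat.card_prod]
  unfold zproj Subgroup.index
  push_cast
  ring

end Pool.FS95
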