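import Pool.Agent.LibFS95.N3
import Pool.Agent.LibFS95.N4
import Pool.Agent.LibFS95.Z8
import Pool.Agent.LibFS95.B3

/-!
Row N5: `z'(H) = z(kH)` if `H` has a normal `ℓ'`-subgroup `N` with `H/N` a cyclic `ℓ`-group.
-/

set_option autoImplicit false
noncomputable section
open MulAction
namespace Pool.FS95

private theorem n5_cc {G G' : Type} [Group G] [Group G'] (e : G ≃* G') :
    Nat.card (ConjClasses G) = Nat.card (ConjClasses G') := by
  refine Nat.card_congr (Quotient.congr (ra := IsConj.setoid G) (rb := IsConj.setoid G')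
    e.toEquiv fun a b => ?_)
  change IsConj a b ↔ IsConj (e a) (e b)
  rw [isConj_iff, isConj_iff]
  constructor
  · rintro ⟨c, rfl⟩
    exact ⟨e c, by rw [map_mul, map_mul, map_inv]⟩
  · rintro ⟨c, hc⟩
    refine ⟨e.symm c, e.injective ?_⟩
    rw [map_mul, map_mul, map_inv, e.apply_symm_apply, hc]

private theorem n5_mem {ℓ : ℕ} (hℓ : ℓ.Prime) {C : Type} [Group C] [Finite C] [IsCyclic C]
    {Z : Subgroup C} (hZ : Nat.card Z = ℓ) {a : C} (ha : a ^ ℓ = 1) : a ∈ Z := by
  classical
  haveI := Fintype.ofFinite C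
  have h1 : (Finset.univ.filter fun a : C => a ∈ Z) ⊆
      Finset.univ.filter fun a : C => a ^ ℓ = 1 := by
    intro b hb
    rw [Finset.mem_filter] at hb ⊢
    refine ⟨hb.1, ?_⟩
    have h2 : (⟨b, hb.2⟩ : Z) ^ Nat.card Z = 1 := pow_card_eq_one'
    rw [hZ] at h2
    have h3 := congrArg Subtype.val h2
    simpa using h3
  have h2 : (Finset.univ.filter fun a : C => a ^ ℓ = 1).card ≤
      (Finset.univ.filter fun a : C => a ∈ Z).card := by
    refine (IsCyclic.card_pow_eq_one_le hℓ.pos).trans ?_
    rw [← Fintype.card_subtype, ← Nat.card_eq_fintype_card]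
    exact le_of_eq hZ.symm
  have h3 := Finset.eq_of_subset_of_card_le h1 h2
  have h4 := (Finset.ext_iff.1 h3 a).2 (Finset.mem_filter.2 ⟨Finset.mem_univ _, ha⟩)
  exact (Finset.mem_filter.1 h4).2

private theorem n5_le {k : Type} [Field k] {H : Type} [Group H] (N : Subgroup H) [N.Normal]
    (e : Blk k N) : N ≤ blkStab N e := by
  intro n hn
  change (MulAut.conjNormal n : MulAut N) • e = e
  apply Subtype.ext
  rw [blk_smul_val]
  have h1 : aut k (MulAut.conjNormal n : MulAut N) e.1 =
      MonoidAlgebra.single (⟨n, hn⟩ : N) (1 : k) * e.1 * MonoidAlgebra.single (⟨n, hn⟩ : N)⁻¹ (1 : k) := by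
    apply MonoidAlgebra.ext
    ext x
    rw [MonoidAlgebra.coeff_mul_single_apply, MonoidAlgebra.coeff_single_mul_apply]
    have h2 : (aut k (MulAut.conjNormal n : MulAut N) e.1).coeff x =
        e.1.coeff ((MulAut.conjNormal n : MulAut N)⁻¹ x) :=
      MonoidAlgebra.coeff_domCongr (R := k) (MulAut.conjNormal n : MulAut N) e.1 x
    rw [h2, mul_one, one_mul]
    congr 1
    apply Subtype.ext
    rw [← map_inv, MulAut.conjNormal_apply]
    change n⁻¹ * x.1 * n⁻¹⁻¹ = n⁻¹ * (x.1 * (n⁻¹)⁻¹)
    group
  rw [h1, ← e.2.2.2.1, mul_assoc, MonoidAlgebra.single_mul_single, mul_inv_cancel, mul_one,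
    ← MonoidAlgebra.one_def, mul_one]

theorem zp_eq_zproj_of_nilp (ℓ : ℕ) [Fact ℓ.Prime] (k : Type) [Field k] [IsAlgClosed k] [CharP k ℓ]
    (H : Type) [Group H] [Finite H] (N : Subgroup H) [N.Normal] (hN : ¬ ℓ ∣ Nat.card N)
    (hP : IsPGroup ℓ (H ⧸ N)) (hc : IsCyclic (H ⧸ N)) : zp ℓ H = zproj k H := by
  classical
  have hprime : ℓ.Prime := Fact.out
  have hZ := index_mul_zproj ℓ k H N hN hP
  have hN' : (Nat.card N : k) ≠ 0 := by
    intro h0
    exact hN ((CharP.cast_eq_zero_iff k ℓ _).1 h0)
  haveI hBf : Finite (Blk k N) := blk_finite k N hN'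
  by_cases hd : ℓ ∣ Nat.card H
  · obtain ⟨x, hx⟩ := exists_prime_orderOf_dvd_card' ℓ hd
    have hX : Nat.card (Subgroup.zpowers x) = ℓ := by rw [Nat.card_zpowers, hx]
    have hxN : x ∉ N := by
      intro h1
      exact hN (hx ▸ Subgroup.orderOf_dvd_natCard N h1)
    have hxl : x ^ ℓ = 1 := by rw [← hx, pow_orderOf_eq_one]
    have hI := index_mul_zp ℓ H N hN hP hc (Subgroup.zpowers x) hX
    have hα : (MulAut.conjNormal x : MulAut N) ^ ℓ = 1 := by
      rw [← map_pow, hxl, map_one]
    have hfix := card_blk_fixed k N hN' ℓ (MulAut.conjNormal x : MulAut N) hα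
    have hcl := card_classes_fixed_one ℓ hN (MulAut.conjNormal x : MulAut N) hα
    have hstab : ∀ e : Blk k N, blkStab N e = N ↔ ¬ ((MulAut.conjNormal x : MulAut N) • e = e) := by
      intro e
      constructor
      · intro h1 h2
        have h3 : x ∈ blkStab N e := h2
        rw [h1] at h3
        exact hxN h3
      · intro h1
        by_contra h2
        apply h1
        -- the stabiliser is larger than `N`
        obtain ⟨s, hs, hsN⟩ : ∃ s ∈ blkStab N e, s ∉ N := by
          by_contra h3
          push Not at h3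
          exact h2 (le_antisymm h3 (n5_le N e))
        have hZp : IsPGroup ℓ ((blkStab N e).map (QuotientGroup.mk' N)) := hP.to_subgroup _
        have hZd : ℓ ∣ Nat.card ((blkStab N e).map (QuotientGroup.mk' N)) := by
          obtain ⟨n, hn⟩ := IsPGroup.iff_card.1 hZp
          have hn0 : n ≠ 0 := by
            rintro rfl
            rw [pow_zero] at hn
            have h3 := Subgroup.card_eq_one.1 hn
            apply hsN
            rw [← QuotientGroup.eq_one_iff]
            have h4 : QuotientGroup.mk' N s ∈ (blkStab N e).map (QuotientGroup.mk' N) :=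
              Subgroup.mem_map_of_mem _ hs
            rw [h3] at h4
            exact Subgroup.mem_bot.1 h4
          rw [hn]
          exact dvd_pow_self ℓ hn0
        obtain ⟨z, hz⟩ := exists_prime_orderOf_dvd_card' ℓ hZd
        have hzc : Nat.card (Subgroup.zpowers (z : H ⧸ N)) = ℓ := by
          rw [Nat.card_zpowers, Subgroup.orderOf_coe, hz]
        haveI := hc
        have h5 : (QuotientGroup.mk' N x) ∈ Subgroup.zpowers (z : H ⧸ N) :=
          n5_mem hprime hzc (by rw [← map_pow, hxl, map_one])
        have h6 : (QuotientGroup.mk' N x) ∈ (blkStab N e).map (QuotientGroup.mk' N) :=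
          (Subgroup.zpowers_le.2 z.2) h5
        obtain ⟨t, ht, htx⟩ := h6
        have h7 : t⁻¹ * x ∈ N := by
          rw [← QuotientGroup.eq]
          exact htx
        have h8 : x ∈ blkStab N e := by
          have h9 := (blkStab N e).mul_mem ht (n5_le N e h7)
          rwa [mul_inv_cancel_left] at h9
        exact h8
    have hsum : Nat.card {e : Blk k N // (MulAut.conjNormal x : MulAut N) • e = e} +
        Nat.card {e : Blk k N // blkStab N e = N} = Nat.card (Blk k N) := by
      rw [← Nat.card_congr (Equiv.sumCompl fun e : Blk k N => (MulAut.conjNormal x : MulAut N) • e = e),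
        Nat.card_sum]
      congr 1
      exact Nat.card_congr (Equiv.subtypeEquivRight fun e => hstab e)
    have hcen : Nat.card (ConjClasses (fixOne (MulAut.conjNormal x : MulAut N))) =
        Nat.card (ConjClasses ↥(Subgroup.centralizer ((Subgroup.zpowers x : Subgroup H) : Set H) ⊓ N)) := by
      have key : ∀ n : N, (MulAut.conjNormal x : MulAut N) n = n ↔
          n.1 ∈ Subgroup.centralizer ((Subgroup.zpowers x : Subgroup H) : Set H) := by
        intro n
        rw [Subtype.ext_iff, MulAut.conjNormal_apply, Subgroup.mem_centralizer_iff]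
        constructor
        · intro h1 y hy
          obtain ⟨i, rfl⟩ := hy
          have h2 : Commute x n.1 := by
            have h3 : x * n.1 = n.1 * x := by
              calc x * n.1 = x * n.1 * x⁻¹ * x := by group
                _ = n.1 * x := by rw [h1]
            exact h3
          exact (h2.zpow_left i)
        · intro h1
          have h2 := h1 x (Subgroup.mem_zpowers x)
          rw [h2, mul_inv_cancel_right]
      refine n5_cc ⟨⟨fun n => ⟨n.1.1, Subgroup.mem_inf.2 ⟨(key n.1).1 n.2, n.1.2⟩⟩,
        fun n => ⟨⟨n.1, (Subgroup.mem_inf.1 n.2).2⟩, (key _).2 (Subgroup.mem_inf.1 n.2).1⟩,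
        fun _ => rfl, fun _ => rfl⟩, fun _ _ => rfl⟩
    have hB := card_blk k N hN'
    have hidx : (N.index : ℤ) ≠ 0 := by exact_mod_cast Subgroup.index_ne_zero_of_finite
    apply mul_left_cancel₀ hidx
    rw [hI, hZ]
    have h1 : (Nat.card {e : Blk k N // blkStab N e = N} : ℤ) = (Nat.card (Blk k N) : ℤ) -
        (Nat.card {e : Blk k N // (MulAut.conjNormal x : MulAut N) • e = e} : ℤ) := by
      have := congrArg (Nat.cast : ℕ → ℤ) hsum
      push_cast at this
      linarith
    rw [h1, hB, hfix, hcl, hcen]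
  · have hidx : N.index = 1 := by
      obtain ⟨n, hn⟩ := IsPGroup.iff_card.1 hP
      have h1 : Nat.card (H ⧸ N) ∣ Nat.card H := Subgroup.card_quotient_dvd_card N
      have hn0 : n = 0 := by
        by_contra hn0
        apply hd
        rw [hn] at h1
        exact (dvd_pow_self ℓ hn0).trans h1
      rw [hn0, pow_zero] at hn
      exact hn
    rw [hidx, Nat.cast_one, one_mul] at hZ
    rw [zp_of_not_dvd ℓ H hd, hZ]
    have htop : N = ⊤ := Subgroup.index_eq_one.1 hidx
    have h1 : Nat.card {e : Blk k N // blkStab N e = N} = Nat.card (Blk k N) := by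
      refine Nat.card_congr (Equiv.subtypeUnivEquiv fun e => ?_)
      exact le_antisymm (le_top.trans htop.ge) (n5_le N e)
    rw [h1, card_blk k N hN']
    congr 1
    subst htop
    exact n5_cc Subgroup.topEquiv.symm

end Pool.FS95
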