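import Pool.Agent.LibFS95.Ch

/-!
Row N6: if every subgroup of order divisible by `ℓ` has exactly `ℓ` homomorphisms to `ℤ/ℓ`, then `H` is `ℓ`-nilpotent with cyclic Sylow `ℓ`-subgroup.
-/

set_option autoImplicit false
noncomputable section
open MulAction
namespace Pool.FS95

private theorem n6_cardM (ℓ : ℕ) : Nat.card (Multiplicative (ZMod ℓ)) = ℓ := by
  exact (Nat.card_congr Multiplicative.toAdd).trans (Nat.card_zmod ℓ)

private theorem n6_powM {ℓ : ℕ} (a : Multiplicative (ZMod ℓ)) : a ^ ℓ = 1 := by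
  have h1 : a ^ Nat.card (Multiplicative (ZMod ℓ)) = 1 := pow_card_eq_one'
  rwa [n6_cardM] at h1

/-- one step down -/
private theorem n6_step (ℓ : ℕ) [Fact ℓ.Prime] (H : Type) [Group H] [Finite H] (N : Subgroup H)
    [N.Normal] (hP : IsPGroup ℓ (H ⧸ N))
    (hcard : Nat.card (N →* Multiplicative (ZMod ℓ)) = ℓ) :
    ∃ (C : Subgroup H) (_ : C.Normal), IsPGroup ℓ (H ⧸ C) ∧ Nat.card C < Nat.card N := by
  obtain ⟨f, hf⟩ : ∃ f : N →* Multiplicative (ZMod ℓ), f ≠ 1 := by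
    by_contra hcon
    push Not at hcon
    haveI : Subsingleton (N →* Multiplicative (ZMod ℓ)) := ⟨fun a b => by rw [hcon a, hcon b]⟩
    have h1 : Nat.card (N →* Multiplicative (ZMod ℓ)) = 1 := Nat.card_of_subsingleton 1
    rw [hcard] at h1
    exact (Fact.out : ℓ.Prime).one_lt.ne' h1
  refine ⟨(f.ker.map N.subtype).normalCore, inferInstance, ?_, ?_⟩
  · have key : ∀ n ∈ N, n ^ ℓ ∈ (f.ker.map N.subtype).normalCore := by
      intro n hn b
      have h1 : b * n ^ ℓ * b⁻¹ = (b * n * b⁻¹) ^ ℓ := conj_pow.symm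
      rw [h1, Subgroup.mem_map]
      have h2 : b * n * b⁻¹ ∈ N := Subgroup.Normal.conj_mem inferInstance n hn b
      refine ⟨⟨b * n * b⁻¹, h2⟩ ^ ℓ, ?_, rfl⟩
      rw [MonoidHom.mem_ker, map_pow, n6_powM]
    intro q
    obtain ⟨x, rfl⟩ := QuotientGroup.mk_surjective q
    obtain ⟨k, hk⟩ := hP (QuotientGroup.mk x)
    have h1 : x ^ (ℓ ^ k) ∈ N := by
      rw [← QuotientGroup.eq_one_iff, QuotientGroup.mk_pow, hk]
    refine ⟨k + 1, ?_⟩
    rw [← QuotientGroup.mk_pow, QuotientGroup.eq_one_iff, pow_succ, pow_mul]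
    exact key _ h1
  · have hle1 : (f.ker.map N.subtype).normalCore ≤ f.ker.map N.subtype := Subgroup.normalCore_le _
    have hle2 : f.ker.map N.subtype ≤ N := by
      rintro x ⟨n, _, rfl⟩
      exact n.2
    refine lt_of_le_of_ne (Subgroup.card_le_of_le (hle1.trans hle2)) fun h => ?_
    have h1 := Subgroup.eq_of_le_of_card_ge (hle1.trans hle2) h.ge
    apply hf
    ext n
    have h2 : n.1 ∈ (f.ker.map N.subtype).normalCore := by
      rw [h1]
      exact n.2
    obtain ⟨m, hm, hmn⟩ := hle1 h2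
    have h3 : m = n := Subtype.ext hmn
    rw [← h3]
    have h4 : f m = 1 := hm
    rw [h4]
    rfl

private theorem n6_ex (ℓ : ℕ) [Fact ℓ.Prime] (H : Type) [Group H] [Finite H]
    (h : ∀ K : Subgroup H, ℓ ∣ Nat.card K → Nat.card (K →* Multiplicative (ZMod ℓ)) = ℓ) (n : ℕ) :
    ∀ (N : Subgroup H) [N.Normal], IsPGroup ℓ (H ⧸ N) → Nat.card N ≤ n →
      ∃ (N' : Subgroup H) (_ : N'.Normal), ¬ ℓ ∣ Nat.card N' ∧ IsPGroup ℓ (H ⧸ N') := by
  induction n with
  | zero =>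
    intro N _ _ h0
    have : 0 < Nat.card N := Nat.card_pos
    omega
  | succ n ih =>
    intro N _ hP hn
    by_cases hd : ℓ ∣ Nat.card N
    · obtain ⟨C, hC, hCP, hCN⟩ := n6_step ℓ H N hP (h N hd)
      exact @ih C hC hCP (by omega)
    · exact ⟨N, inferInstance, hd, hP⟩

/-- the maximal subgroups of an `ℓ`-group are kernels -/
private theorem n6_coatom (ℓ : ℕ) [Fact ℓ.Prime] (R : Type) [Group R] [Finite R]
    (hR : IsPGroup ℓ R) (M : Subgroup R) (hM : IsCoatom M) :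
    ∃ f : R →* Multiplicative (ZMod ℓ), f.ker = M := by
  haveI : Group.IsNilpotent R := hR.isNilpotent
  haveI hMn : M.Normal := Subgroup.NormalizerCondition.normal_of_coatom M Group.normalizerCondition_of_isNilpotent hM
  have hRM : IsPGroup ℓ (R ⧸ M) := hR.to_quotient M
  have hnt : Nontrivial (R ⧸ M) := by
    by_contra hcon
    rw [not_nontrivial_iff_subsingleton] at hcon
    apply hM.1
    rw [eq_top_iff]
    intro x _
    rw [← QuotientGroup.eq_one_iff]
    exact Subsingleton.elim _ _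
  have hd : ℓ ∣ Nat.card (R ⧸ M) := by
    obtain ⟨n, hn⟩ := IsPGroup.iff_card.1 hRM
    have hn0 : n ≠ 0 := by
      rintro rfl
      rw [pow_zero] at hn
      have h1 := Finite.one_lt_card (α := R ⧸ M)
      omega
    rw [hn]
    exact dvd_pow_self ℓ hn0
  obtain ⟨x, hx⟩ := exists_prime_orderOf_dvd_card' ℓ hd
  have htop : (Subgroup.zpowers x).comap (QuotientGroup.mk' M) = ⊤ := by
    have hle : M ≤ (Subgroup.zpowers x).comap (QuotientGroup.mk' M) := by
      intro m hm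
      rw [Subgroup.mem_comap]
      have : QuotientGroup.mk' M m = 1 := (QuotientGroup.eq_one_iff m).2 hm
      rw [this]
      exact Subgroup.one_mem _
    rcases hle.eq_or_lt with h1 | h1
    · exfalso
      obtain ⟨r, hr⟩ := QuotientGroup.mk_surjective x
      have h2 : r ∈ (Subgroup.zpowers x).comap (QuotientGroup.mk' M) := by
        rw [Subgroup.mem_comap]
        change (QuotientGroup.mk r : R ⧸ M) ∈ Subgroup.zpowers x
        rw [hr]
        exact Subgroup.mem_zpowers x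
      rw [← h1, ← QuotientGroup.eq_one_iff, hr] at h2
      rw [h2, orderOf_one] at hx
      exact (Fact.out : ℓ.Prime).one_lt.ne hx
    · exact hM.2 _ h1
  have hcard : Nat.card (R ⧸ M) = ℓ := by
    have h1 : Subgroup.zpowers x = ⊤ := by
      rw [eq_top_iff]
      intro y _
      obtain ⟨r, rfl⟩ := QuotientGroup.mk_surjective y
      have h2 : r ∈ (Subgroup.zpowers x).comap (QuotientGroup.mk' M) := by
        rw [htop]
        exact Subgroup.mem_top r
      exact h2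
    rw [← hx, ← Nat.card_zpowers, h1, Subgroup.card_top]
  have e : (R ⧸ M) ≃* Multiplicative (ZMod ℓ) := mulEquivOfPrimeCardEq hcard (n6_cardM ℓ)
  refine ⟨e.toMonoidHom.comp (QuotientGroup.mk' M), ?_⟩
  ext r
  rw [MonoidHom.mem_ker]
  change e (QuotientGroup.mk r) = 1 ↔ r ∈ M
  rw [map_eq_one_iff e e.injective, QuotientGroup.eq_one_iff]

private theorem n6_cyc (ℓ : ℕ) [Fact ℓ.Prime] (R : Type) [Group R] [Finite R]
    (hR : IsPGroup ℓ R) (hz : ∀ f₁ f₂ : R →* Multiplicative (ZMod ℓ), f₁ ≠ 1 →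
      ∃ i : ℤ, ∀ x, f₂ x = f₁ x ^ i) : IsCyclic R := by
  by_contra hcon
  have h1 : ∀ g : R, ∃ M : Subgroup R, IsCoatom M ∧ g ∈ M := by
    intro g
    have h2 : Subgroup.zpowers g ≠ ⊤ := by
      intro h3
      apply hcon
      exact ⟨g, fun x => by
        have h4 := Subgroup.mem_top x
        rw [← h3] at h4
        exact h4⟩
    obtain ⟨M, hM, hgM⟩ := (IsCoatomic.eq_top_or_exists_le_coatom (Subgroup.zpowers g)).resolve_left h2
    exact ⟨M, hM, hgM (Subgroup.mem_zpowers g)⟩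
  obtain ⟨M₁, hM₁, _⟩ := h1 1
  obtain ⟨g, hg⟩ : ∃ g, g ∉ M₁ := by
    by_contra h2
    push Not at h2
    exact hM₁.1 (eq_top_iff.2 fun x _ => h2 x)
  obtain ⟨M₂, hM₂, hgM₂⟩ := h1 g
  obtain ⟨f₁, hf₁⟩ := n6_coatom ℓ R hR M₁ hM₁
  obtain ⟨f₂, hf₂⟩ := n6_coatom ℓ R hR M₂ hM₂
  have hf1 : f₁ ≠ 1 := by
    rintro rfl
    apply hM₁.1
    rw [← hf₁, MonoidHom.ker_one]
  obtain ⟨i, hi⟩ := hz f₁ f₂ hf1
  have hle : M₁ ≤ M₂ := by
    intro x hx
    rw [← hf₁, MonoidHom.mem_ker] at hx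
    rw [← hf₂, MonoidHom.mem_ker, hi, hx, one_zpow]
  rcases hle.eq_or_lt with h2 | h2
  · rw [h2] at hg
    exact hg hgM₂
  · exact hM₂.1 (hM₁.2 _ h2)

theorem exists_nilp (ℓ : ℕ) [Fact ℓ.Prime] (H : Type) [Group H] [Finite H]
    (h : ∀ K : Subgroup H, ℓ ∣ Nat.card K → Nat.card (K →* Multiplicative (ZMod ℓ)) = ℓ) :
    ∃ (N : Subgroup H) (_ : N.Normal), ¬ ℓ ∣ Nat.card N ∧ IsPGroup ℓ (H ⧸ N) ∧ IsCyclic (H ⧸ N) := by
  haveI : Subsingleton (H ⧸ (⊤ : Subgroup H)) := QuotientGroup.subsingleton_quotient_top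
  have hP0 : IsPGroup ℓ (H ⧸ (⊤ : Subgroup H)) := fun g => ⟨0, Subsingleton.elim _ _⟩
  obtain ⟨N, hNn, hN, hP⟩ := n6_ex ℓ H h (Nat.card (⊤ : Subgroup H)) ⊤ hP0 le_rfl
  refine ⟨N, hNn, hN, hP, ?_⟩
  by_cases hd : ℓ ∣ Nat.card H
  · have hc1 := h ⊤ (by rwa [Subgroup.card_top])
    have hc : Nat.card (H →* Multiplicative (ZMod ℓ)) = ℓ := by
      refine (Nat.card_congr ⟨fun f => f.comp (⊤ : Subgroup H).subtype,
        fun f => f.comp Subgroup.topEquiv.symm.toMonoidHom, fun f => ?_, fun f => ?_⟩).trans hc1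
      · ext x
        rfl
      · ext x
        rfl
    refine n6_cyc ℓ (H ⧸ N) hP fun f₁ f₂ hf => ?_
    have hF : f₁.comp (QuotientGroup.mk' N) ≠ 1 := by
      intro h1
      apply hf
      refine MonoidHom.ext fun x => ?_
      obtain ⟨r, rfl⟩ := QuotientGroup.mk_surjective x
      exact DFunLike.congr_fun h1 r
    obtain ⟨i, hi⟩ := mem_zpowers_of_prime_card hc (g' := f₂.comp (QuotientGroup.mk' N)) hF
    refine ⟨i, fun x => ?_⟩
    obtain ⟨r, rfl⟩ := QuotientGroup.mk_surjective x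
    have h2 := DFunLike.congr_fun hi r
    exact h2.symm
  · obtain ⟨n, hn⟩ := IsPGroup.iff_card.1 hP
    have h1 : Nat.card (H ⧸ N) ∣ Nat.card H := Subgroup.card_quotient_dvd_card N
    have hn0 : n = 0 := by
      by_contra hn0
      apply hd
      rw [hn] at h1
      exact (dvd_pow_self ℓ hn0).trans h1
    rw [hn0, pow_zero] at hn
    haveI : Subsingleton (H ⧸ N) := (Nat.card_eq_one_iff_unique.1 hn).1
    exact isCyclic_of_subsingleton

end Pool.FS95
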