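import Pool.Agent.LibFS95.Blk

/-!
Row B1: the blocks of a semisimple group algebra over an algebraically closed field.
-/

set_option autoImplicit false
noncomputable section
open MulAction
namespace Pool.FS95

/-- primitive central idempotent of a ring -/
private def B1_Prim {R : Type} [Ring R] (e : R) : Prop :=
  e ≠ 0 ∧ e * e = e ∧ (∀ a, e * a = a * e) ∧
    ∀ f, f * f = f → (∀ a, f * a = a * f) → e * f = f → f = 0 ∨ f = e

private theorem B1_map {R S : Type} [Ring R] [Ring S] (E : R ≃+* S) {e : R} (h : B1_Prim e) :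
    B1_Prim (E e) := by
  obtain ⟨h1, h2, h3, h4⟩ := h
  refine ⟨?_, ?_, ?_, ?_⟩
  · exact (map_ne_zero_iff E E.injective).2 h1
  · rw [← map_mul, h2]
  · intro a
    obtain ⟨a, rfl⟩ := E.surjective a
    rw [← map_mul, ← map_mul, h3]
  · intro f hf1 hf2 hf3
    obtain ⟨f, rfl⟩ := E.surjective f
    have g1 : f * f = f := E.injective (by rw [map_mul]; exact hf1)
    have g2 : ∀ a, f * a = a * f := fun a => E.injective (by rw [map_mul, map_mul]; exact hf2 (E a))
    have g3 : e * f = f := E.injective (by rw [map_mul]; exact hf3)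
    rcases h4 f g1 g2 g3 with h | h
    · left; rw [h, map_zero]
    · right; rw [h]

private theorem B1_matrix {K : Type} [Field K] {n : ℕ} [NeZero n] (M : Matrix (Fin n) (Fin n) K)
    (h1 : M * M = M) (h2 : ∀ a, M * a = a * M) : M = 0 ∨ M = 1 := by
  obtain ⟨c, hc⟩ := Matrix.mem_range_scalar_of_commute_single (M := M) (fun i j _ => (h2 _).symm)
  rw [← hc] at h1
  rw [← map_mul] at h1
  have h3 : c * c = c := Matrix.scalar_inj.1 h1
  have h4 : c = 0 ∨ c = 1 := by
    rcases eq_or_ne c 0 with h | h
    · exact Or.inl h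
    · right
      exact mul_left_cancel₀ h (by rw [h3, mul_one])
  rcases h4 with rfl | rfl
  · left; rw [← hc, map_zero]
  · right; rw [← hc, map_one]

section
variable {K : Type} [Field K] {r : ℕ} {d : Fin r → ℕ}

private abbrev B1P (K : Type) [Field K] {r : ℕ} (d : Fin r → ℕ) : Type :=
  Π i : Fin r, Matrix (Fin (d i)) (Fin (d i)) K

private theorem B1_comp (hd : ∀ i, NeZero (d i)) (f : B1P K d) (h1 : f * f = f) (h2 : ∀ a, f * a = a * f)
    (i : Fin r) : f i = 0 ∨ f i = 1 := by
  haveI := hd i
  apply B1_matrix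
  · exact congrFun h1 i
  · intro a
    have := congrFun (h2 (Pi.single i a)) i
    rwa [Pi.mul_apply, Pi.mul_apply, Pi.single_eq_same] at this

private theorem B1_single_ne (hd : ∀ i, NeZero (d i)) (i : Fin r) : (Pi.single i 1 : B1P K d) ≠ 0 := by
  haveI := hd i
  intro h
  have := congrFun h i
  rw [Pi.single_eq_same, Pi.zero_apply] at this
  exact one_ne_zero this

private theorem B1_single_idem (i : Fin r) : (Pi.single i 1 : B1P K d) * Pi.single i 1 = Pi.single i 1 := by
  rw [← Pi.single_mul, mul_one]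

private theorem B1_single_central (i : Fin r) (a : B1P K d) :
    (Pi.single i 1 : B1P K d) * a = a * Pi.single i 1 := by
  funext j
  rw [Pi.mul_apply, Pi.mul_apply]
  rcases eq_or_ne j i with rfl | h
  · rw [Pi.single_eq_same, one_mul, mul_one]
  · rw [Pi.single_eq_of_ne h, zero_mul, mul_zero]

private theorem B1_single_prim (hd : ∀ i, NeZero (d i)) (i : Fin r) : B1_Prim (Pi.single i 1 : B1P K d) := by
  refine ⟨B1_single_ne hd i, B1_single_idem i, B1_single_central i, ?_⟩
  intro f h1 h2 h3
  have hj : ∀ j, j ≠ i → f j = 0 := by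
    intro j hji
    rw [← h3, Pi.mul_apply, Pi.single_eq_of_ne hji, zero_mul]
  rcases B1_comp hd f h1 h2 i with h | h
  · left
    funext j
    rcases eq_or_ne j i with rfl | hji
    · exact h
    · exact hj j hji
  · right
    funext j
    rcases eq_or_ne j i with rfl | hji
    · rw [h, Pi.single_eq_same]
    · rw [hj j hji, Pi.single_eq_of_ne hji]

private theorem B1_prim_single (hd : ∀ i, NeZero (d i)) {x : B1P K d} (hx : B1_Prim x) :
    ∃ i, x = Pi.single i 1 := by
  obtain ⟨h1, h2, h3, h4⟩ := hx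
  obtain ⟨i, hi⟩ : ∃ i, x i ≠ 0 := by
    by_contra hcon
    push Not at hcon
    exact h1 (funext hcon)
  have hi1 : x i = 1 := (B1_comp hd x h2 h3 i).resolve_left hi
  refine ⟨i, ?_⟩
  rcases h4 (Pi.single i 1) (B1_single_idem i) (B1_single_central i) (by
    funext j
    rw [Pi.mul_apply]
    rcases eq_or_ne j i with rfl | hji
    · rw [Pi.single_eq_same, mul_one, hi1]
    · rw [Pi.single_eq_of_ne hji, mul_zero]) with h | h
  · exact absurd h (B1_single_ne hd i)
  · exact h.symm

end

theorem blk_structure (K : Type) [Field K] [IsAlgClosed K] (G : Type) [Group G] [Finite G]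
    (hG : (Nat.card G : K) ≠ 0) :
    ∃ (r : ℕ) (d : Fin r → ℕ) (E : MonoidAlgebra K G ≃ₐ[K] Π i, Matrix (Fin (d i)) (Fin (d i)) K)
      (b : Fin r ≃ Blk K G), (∀ i, NeZero (d i)) ∧ ∀ i, E (b i).1 = Pi.single i 1 := by
  classical
  haveI : NeZero (Nat.card G : K) := ⟨hG⟩
  haveI := Fintype.ofFinite G
  haveI : Module.Finite K (MonoidAlgebra K G) := inferInstance
  obtain ⟨r, d, hd, ⟨E⟩⟩ := IsSemisimpleRing.exists_algEquiv_pi_matrix_of_isAlgClosed K (MonoidAlgebra K G)
  have hprim : ∀ i, B1_Prim (E.symm (Pi.single i 1)) := fun i =>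
    B1_map (E.symm.toRingEquiv) (B1_single_prim hd i)
  have hinj : ∀ i j : Fin r, (Pi.single i 1 : B1P K d) = Pi.single j 1 → i = j := by
    intro i j h
    by_contra hij
    haveI := hd i
    have h1 := congrFun h i
    rw [Pi.single_eq_same, Pi.single_eq_of_ne hij] at h1
    exact one_ne_zero h1
  let b₀ : Fin r → Blk K G := fun i => ⟨E.symm (Pi.single i 1), hprim i⟩
  have hb : Function.Bijective b₀ := by
    constructor
    · intro i j hij
      have h1 : E.symm (Pi.single i 1) = E.symm (Pi.single j 1) := congrArg Subtype.val hij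
      exact hinj i j (E.symm.injective h1)
    · intro e
      obtain ⟨i, hi⟩ := B1_prim_single hd (B1_map E.toRingEquiv (e := e.1) e.2)
      refine ⟨i, Subtype.ext ?_⟩
      change E.symm (Pi.single i 1) = e.1
      rw [← hi]
      exact E.symm_apply_apply e.1
  refine ⟨r, d, E, Equiv.ofBijective b₀ hb, hd, fun i => ?_⟩
  change E (E.symm (Pi.single i 1)) = Pi.single i 1
  exact E.apply_symm_apply _

end Pool.FS95
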