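import Pool.Agent.LibFS95.B1

/-!
Row B2: consequences of B1. EASY.

Plan. From `blk_structure`: `Finite (Blk K G)` via `b`; `π = (Pi.evalAlgHom ..) ∘ E`; `E (e a) = Pi.single i 1 * E a`.
-/

set_option autoImplicit false
noncomputable section
open MulAction
namespace Pool.FS95

theorem blk_finite (K : Type) [Field K] [IsAlgClosed K] (G : Type) [Group G] [Finite G]
    (hG : (Nat.card G : K) ≠ 0) : Finite (Blk K G) := by
  obtain ⟨r, d, E, b, hd, hE⟩ := blk_structure K G hG
  exact Finite.of_equiv (Fin r) b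

theorem blk_orth (K : Type) [Field K] [IsAlgClosed K] (G : Type) [Group G] [Finite G]
    (hG : (Nat.card G : K) ≠ 0) (e f : Blk K G) (hef : e ≠ f) : e.1 * f.1 = 0 := by
  obtain ⟨r, d, E, b, hd, hE⟩ := blk_structure K G hG
  obtain ⟨i, rfl⟩ := b.surjective e
  obtain ⟨j, rfl⟩ := b.surjective f
  have hij : i ≠ j := fun h => hef (by rw [h])
  apply E.injective
  rw [map_mul, hE, hE, map_zero]
  funext k
  rw [Pi.mul_apply, Pi.zero_apply]
  by_cases hk : k = i
  · subst hk
    rw [Pi.single_eq_of_ne hij, mul_zero]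
  · rw [Pi.single_eq_of_ne hk, zero_mul]

theorem blk_sum (K : Type) [Field K] [IsAlgClosed K] (G : Type) [Group G] [Finite G]
    (hG : (Nat.card G : K) ≠ 0) : ∑ᶠ e : Blk K G, e.1 = 1 := by
  obtain ⟨r, d, E, b, hd, hE⟩ := blk_structure K G hG
  have h1 : ∑ᶠ e : Blk K G, e.1 = ∑ i : Fin r, (b i).1 := by
    rw [← finsum_comp_equiv b, finsum_eq_sum_of_fintype]
  rw [h1]
  apply E.injective
  rw [map_sum, map_one]
  simp only [hE]
  exact Finset.univ_sum_single (1 : ∀ i : Fin r, Matrix (Fin (d i)) (Fin (d i)) K)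

theorem exists_blkHom (K : Type) [Field K] [IsAlgClosed K] (G : Type) [Group G] [Finite G]
    (hG : (Nat.card G : K) ≠ 0) (e : Blk K G) :
    ∃ (n : ℕ) (_ : NeZero n) (π : MonoidAlgebra K G →ₐ[K] Matrix (Fin n) (Fin n) K),
      IsBlkHom e π := by
  obtain ⟨r, d, E, b, hd, hE⟩ := blk_structure K G hG
  obtain ⟨i, rfl⟩ := b.surjective e
  refine ⟨d i, hd i, (Pi.evalAlgHom K (fun i : Fin r => Matrix (Fin (d i)) (Fin (d i)) K) i).comp
    (E : MonoidAlgebra K G →ₐ[K] ∀ i, Matrix (Fin (d i)) (Fin (d i)) K), ?_, ?_⟩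
  · intro M
    refine ⟨E.symm (Pi.single i M), ?_⟩
    change E (E.symm (Pi.single i M)) i = M
    rw [AlgEquiv.apply_symm_apply, Pi.single_eq_same]
  · intro a
    change E a i = 0 ↔ (b i).1 * a = 0
    constructor
    · intro h
      apply E.injective
      rw [map_mul, hE, map_zero]
      funext k
      rw [Pi.mul_apply, Pi.zero_apply]
      by_cases hk : k = i
      · subst hk
        rw [h, mul_zero]
      · rw [Pi.single_eq_of_ne hk, zero_mul]
    · intro h
      have h1 := congrFun (congrArg E h) i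
      rw [map_mul, hE, map_zero, Pi.mul_apply, Pi.single_eq_same, one_mul] at h1
      exact h1

end Pool.FS95
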