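import Pool.Agent.LibFS95.B2

/-!
Row B4: irreducible complex characters correspond to blocks, equivariantly. STRONG.

Proof. For `e : Blk ℂ G` with block homomorphism `π` (B2) the representation `g ↦ π (single g 1)` on `Fin n → ℂ` is irreducible
(`π` is surjective); every irreducible `ρ` with `ρ(e) ≠ 0` is isomorphic to it (a non-zero intertwining map is
`x ↦ ρ(e a_x) v`, `π(a_x) = x ⊗ δ_j`), and every irreducible `ρ` has `ρ(e) ≠ 0` for some `e` (`blk_sum`).
-/

set_option autoImplicit false
noncomputable section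
open MulAction
namespace Pool.FS95

section
variable {G : Type} [Group G]

/-- the representation of a homomorphism to a matrix algebra -/
private def B4_rep {n : ℕ} (π : MonoidAlgebra ℂ G →ₐ[ℂ] Matrix (Fin n) (Fin n) ℂ) :
    Representation ℂ G (Fin n → ℂ) where
  toFun g := Matrix.toLin' (π (MonoidAlgebra.single g 1))
  map_one' := by
    have : (MonoidAlgebra.single (1 : G) (1 : ℂ)) = 1 := rfl
    rw [this, map_one, Matrix.toLin'_one]; rfl
  map_mul' g h := by
    have : (MonoidAlgebra.single (g * h) (1 : ℂ)) =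
        MonoidAlgebra.single g 1 * MonoidAlgebra.single h 1 := by
      rw [MonoidAlgebra.single_mul_single, mul_one]
    rw [this, map_mul, Matrix.toLin'_mul]; rfl

private theorem B4_rep_apply {n : ℕ} (π : MonoidAlgebra ℂ G →ₐ[ℂ] Matrix (Fin n) (Fin n) ℂ) (g : G)
    (x : Fin n → ℂ) : B4_rep π g x = (π (MonoidAlgebra.single g 1)).mulVec x := rfl

private theorem B4_char {n : ℕ} (π : MonoidAlgebra ℂ G →ₐ[ℂ] Matrix (Fin n) (Fin n) ℂ) (g : G) :
    (B4_rep π).character g = Matrix.trace (π (MonoidAlgebra.single g 1)) := by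
  change LinearMap.trace ℂ (Fin n → ℂ) (Matrix.toLin' (π (MonoidAlgebra.single g 1))) = _
  rw [Matrix.trace_toLin'_eq]

private theorem B4_lin {n : ℕ} (π : MonoidAlgebra ℂ G →ₐ[ℂ] Matrix (Fin n) (Fin n) ℂ)
    (a : MonoidAlgebra ℂ G) : π a = a.coeff.sum fun g c => c • π (MonoidAlgebra.single g 1) := by
  induction a using MonoidAlgebra.induction_linear with
  | zero => rw [map_zero, MonoidAlgebra.coeff_zero, Finsupp.sum_zero_index]
  | add x y hx hy =>
    rw [map_add, MonoidAlgebra.coeff_add, Finsupp.sum_add_index', hx, hy]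
    · intro g; rw [zero_smul]
    · intro g c d; rw [add_smul]
  | single g c =>
    rw [MonoidAlgebra.coeff_single, Finsupp.sum_single_index]
    · rw [← map_smul, MonoidAlgebra.smul_single, smul_eq_mul, mul_one]
    · rw [zero_smul]

private theorem B4_irr {n : ℕ} [NeZero n] (π : MonoidAlgebra ℂ G →ₐ[ℂ] Matrix (Fin n) (Fin n) ℂ)
    (hπ : Function.Surjective π) : (B4_rep π).IsIrreducible := by
  classical
  have hext : ∀ s t : Subrepresentation (B4_rep π), s.toSubmodule = t.toSubmodule → s = t :=
    fun s t h => Subrepresentation.toSubmodule_injective h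
  refine @IsSimpleOrder.mk _ _ _ ⟨⊥, ⊤, ?_⟩ ?_
  · intro h
    have h1 : (⊥ : Submodule ℂ (Fin n → ℂ)) = ⊤ := congrArg Subrepresentation.toSubmodule h
    exact bot_ne_top h1
  · intro s
    by_cases h : ∀ v ∈ s.toSubmodule, v = 0
    · left
      apply hext
      change s.toSubmodule = ⊥
      exact (Submodule.eq_bot_iff _).2 h
    · right
      apply hext
      change s.toSubmodule = ⊤
      push Not at h
      obtain ⟨v, hv, hv0⟩ := h
      obtain ⟨j, hj⟩ := Function.ne_iff.1 hv0
      rw [Submodule.eq_top_iff']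
      intro w
      obtain ⟨a, ha⟩ := hπ (Matrix.vecMulVec w (Pi.single j (v j)⁻¹))
      have h1 : (π a).mulVec v = w := by
        rw [ha]
        funext i
        rw [Matrix.mulVec, dotProduct]
        simp only [Matrix.vecMulVec_apply]
        rw [Finset.sum_eq_single j]
        · rw [Pi.single_eq_same, mul_assoc, inv_mul_cancel₀ hj, mul_one]
        · intro b _ hb
          rw [Pi.single_eq_of_ne hb, mul_zero, zero_mul]
        · intro h; exact absurd (Finset.mem_univ j) h
      rw [← h1, B4_lin π a, Finsupp.sum, Matrix.sum_mulVec]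
      apply Submodule.sum_mem
      intro g _
      rw [Matrix.smul_mulVec]
      apply Submodule.smul_mem
      exact s.apply_mem_toSubmodule g hv

/-- an irreducible representation on which `e` does not act as zero -/
private theorem B4_key (e : Blk ℂ G) {n : ℕ} [NeZero n]
    (π : MonoidAlgebra ℂ G →ₐ[ℂ] Matrix (Fin n) (Fin n) ℂ) (hπ : IsBlkHom e π)
    {m : ℕ} (ρ : Representation ℂ G (Fin m → ℂ)) (hρ : ρ.IsIrreducible)
    (he : ρ.asAlgebraHom e.1 ≠ 0) (g : G) :
    ρ.character g = Matrix.trace (π (MonoidAlgebra.single g 1)) := by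
  classical
  obtain ⟨hs, hk⟩ := hπ
  have hker : ∀ a b, π a = π b → e.1 * a = e.1 * b := by
    intro a b hab
    have h1 : π (a - b) = 0 := by rw [map_sub, hab, sub_self]
    have h2 := (hk _).1 h1
    rwa [mul_sub, sub_eq_zero] at h2
  -- the section
  let σ : Matrix (Fin n) (Fin n) ℂ → MonoidAlgebra ℂ G := fun M => e.1 * Function.surjInv hs M
  have hσ : ∀ M a, π a = M → σ M = e.1 * a := fun M a h =>
    hker _ _ (by rw [Function.surjInv_eq hs, h])
  have hπσ : ∀ M, π (Function.surjInv hs M) = M := Function.surjInv_eq hs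
  have hσadd : ∀ M N, σ (M + N) = σ M + σ N := by
    intro M N
    rw [hσ (M + N) (Function.surjInv hs M + Function.surjInv hs N) (by rw [map_add, hπσ, hπσ]), mul_add]
  have hσsmul : ∀ (c : ℂ) M, σ (c • M) = c • σ M := by
    intro c M
    rw [hσ (c • M) (c • Function.surjInv hs M) (by rw [map_smul, hπσ]), mul_smul_comm]
  have hσmul : ∀ a M, σ (π a * M) = a * σ M := by
    intro a M
    rw [hσ (π a * M) (a * Function.surjInv hs M) (by rw [map_mul, hπσ])]
    obtain ⟨-, -, h3, -⟩ := e.2
    rw [← mul_assoc, h3 a, mul_assoc]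
  have hσone : σ 1 = e.1 := by
    rw [hσ 1 1 (map_one π), mul_one]
  -- the intertwining maps
  let f : Fin n → (Fin m → ℂ) → Representation.IntertwiningMap (B4_rep π) ρ := fun j v =>
    { toFun := fun x => ρ.asAlgebraHom (σ (Matrix.vecMulVec x (Pi.single j 1))) v
      map_add' := fun x y => by
        rw [Matrix.add_vecMulVec, hσadd, map_add, LinearMap.add_apply]
      map_smul' := fun c x => by
        rw [Matrix.smul_vecMulVec, hσsmul, map_smul, LinearMap.smul_apply, RingHom.id_apply]
      isIntertwining' := fun g => by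
        apply LinearMap.ext
        intro x
        change ρ.asAlgebraHom (σ (Matrix.vecMulVec ((π (MonoidAlgebra.single g 1)).mulVec x) (Pi.single j 1))) v =
          ρ g (ρ.asAlgebraHom (σ (Matrix.vecMulVec x (Pi.single j 1))) v)
        rw [← Matrix.mul_vecMulVec, hσmul, map_mul, Representation.asAlgebraHom_single_one]
        rfl }
  have hf : ∀ j v x, f j v x = ρ.asAlgebraHom (σ (Matrix.vecMulVec x (Pi.single j 1))) v := fun j v x => rfl
  have hne : ∃ j v, f j v ≠ 0 := by
    by_contra hcon
    push Not at hcon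
    apply he
    have h0 : ∀ i j, ρ.asAlgebraHom (σ (Matrix.single i j 1)) = 0 := by
      intro i j
      apply LinearMap.ext
      intro v
      have h1 : f j v (Pi.single i 1) = (0 : Representation.IntertwiningMap (B4_rep π) ρ) (Pi.single i 1) := by
        rw [hcon j v]
      rw [hf] at h1
      have h2 : Matrix.vecMulVec (Pi.single i (1 : ℂ)) (Pi.single j 1) = Matrix.single i j (1 : ℂ) := by
        rw [← Matrix.single_eq_single_vecMulVec_single]
      rw [h2] at h1
      exact h1
    have h1 : σ 1 = ∑ i : Fin n, σ (Matrix.single i i 1) := by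
      have h2 : (1 : Matrix (Fin n) (Fin n) ℂ) = ∑ i : Fin n, Matrix.single i i 1 := by
        exact (Matrix.sum_single_one).symm
      have h3 : ∀ s : Finset (Fin n), σ (∑ i ∈ s, Matrix.single i i 1) = ∑ i ∈ s, σ (Matrix.single i i 1) := by
        intro s
        induction s using Finset.induction_on with
        | empty =>
          rw [Finset.sum_empty, Finset.sum_empty]
          have := hσsmul 0 0
          rwa [zero_smul, zero_smul] at this
        | insert a s ha ih => rw [Finset.sum_insert ha, Finset.sum_insert ha, hσadd, ih]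
      rw [h2, h3]
    rw [← hσone, h1, map_sum]
    exact Finset.sum_eq_zero fun i _ => h0 i i
  obtain ⟨j, v, hjv⟩ := hne
  haveI := B4_irr π hs
  haveI := hρ
  have hbij := (Representation.IsIrreducible.bijective_or_eq_zero (f j v)).resolve_right hjv
  let E := (f j v).ofBijective hbij
  have h1 := Representation.char_iso E
  rw [← h1, B4_char]

end

theorem exists_irr_equiv_blk (G : Type) [Group G] [Finite G] :
    ∃ Φ : Irr G ≃ Blk ℂ G, ∀ (α : MulAut G) (χ : Irr G), Φ (α • χ) = α • Φ χ := by
  classical
  have hG : (Nat.card G : ℂ) ≠ 0 := by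
    exact_mod_cast Nat.card_pos.ne'
  haveI := blk_finite ℂ G hG
  choose n hn π hπ using fun e : Blk ℂ G => exists_blkHom ℂ G hG e
  have hone : ∀ e : Blk ℂ G, π e e.1 = 1 := by
    intro e
    have h1 : π e (1 - e.1) = 0 := by
      rw [(hπ e).2, mul_sub, mul_one, e.2.2.1, sub_self]
    rw [map_sub, map_one, sub_eq_zero] at h1
    exact h1.symm
  have hzero : ∀ e f : Blk ℂ G, e ≠ f → π e f.1 = 0 := by
    intro e f hef
    rw [(hπ e).2]
    exact blk_orth ℂ G hG e f hef
  let Ψ : Blk ℂ G → Irr G := fun e =>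
    ⟨fun g => Matrix.trace (π e (MonoidAlgebra.single g 1)), n e, B4_rep (π e), by
      haveI := hn e
      exact ⟨B4_irr (π e) (hπ e).1, funext fun g => B4_char (π e) g⟩⟩
  have hΨ : ∀ e g, (Ψ e).1 g = Matrix.trace (π e (MonoidAlgebra.single g 1)) := fun e g => rfl
  have htr : ∀ e a, Matrix.trace (π e a) = a.coeff.sum fun g c => c * (Ψ e).1 g := by
    intro e a
    rw [B4_lin (π e) a, Finsupp.sum, Matrix.trace_sum, Finsupp.sum]
    apply Finset.sum_congr rfl
    intro g _
    rw [Matrix.trace_smul, smul_eq_mul, hΨ]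
  have hinj : Function.Injective Ψ := by
    intro e f hef
    by_contra hne
    haveI := hn e
    have h1 := htr e e.1
    rw [hef, ← htr f e.1, hone, hzero f e (Ne.symm hne), Matrix.trace_one, Matrix.trace_zero,
      Fintype.card_fin] at h1
    exact NeZero.ne (n e) (by exact_mod_cast h1)
  have hsurj : Function.Surjective Ψ := by
    rintro ⟨χ, m, ρ, hρ, rfl⟩
    have h1 : ∃ e : Blk ℂ G, ρ.asAlgebraHom e.1 ≠ 0 := by
      by_contra hcon
      push Not at hcon
      haveI := Fintype.ofFinite (Blk ℂ G)
      have h2 := congrArg ρ.asAlgebraHom (blk_sum ℂ G hG)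
      rw [finsum_eq_sum_of_fintype, map_sum, Finset.sum_eq_zero (fun e _ => hcon e), map_one] at h2
      haveI : Nontrivial (Subrepresentation ρ) := hρ.toNontrivial
      obtain ⟨s, t, hst⟩ := exists_pair_ne (Subrepresentation ρ)
      apply hst
      apply Subrepresentation.toSubmodule_injective
      have h3 : ∀ v : Fin m → ℂ, v = 0 := by
        intro v
        have := congrArg (fun F => F v) h2
        exact this.symm
      ext v
      rw [h3 v]
      exact ⟨fun _ => zero_mem _, fun _ => zero_mem _⟩
    obtain ⟨e, he⟩ := h1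
    refine ⟨e, Subtype.ext ?_⟩
    funext g
    haveI := hn e
    rw [hΨ]
    exact (B4_key e (π e) (hπ e) ρ hρ he g).symm
  have hequiv : ∀ (α : MulAut G) (e : Blk ℂ G), Ψ (α • e) = α • Ψ e := by
    intro α e
    apply Subtype.ext
    funext g
    change Matrix.trace (π (α • e) (MonoidAlgebra.single g 1)) =
      Matrix.trace (π e (MonoidAlgebra.single (α⁻¹ g) 1))
    haveI := hn e
    haveI := hn (α • e)
    -- the block homomorphism of `α • e`
    let π' : MonoidAlgebra ℂ G →ₐ[ℂ] Matrix (Fin (n e)) (Fin (n e)) ℂ :=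
      (π e).comp (aut ℂ α⁻¹).toAlgHom
    have hπ'a : ∀ a, π' a = π e (aut ℂ α⁻¹ a) := fun a => rfl
    have hinv : ∀ a, aut ℂ α (aut ℂ α⁻¹ a) = a := fun a => by
      rw [← aut_mul, mul_inv_cancel, aut_one]
    have hinv' : ∀ a, aut ℂ α⁻¹ (aut ℂ α a) = a := fun a => by
      rw [← aut_mul, inv_mul_cancel, aut_one]
    have hπ' : IsBlkHom (α • e) π' := by
      constructor
      · intro M
        obtain ⟨a, ha⟩ := (hπ e).1 M
        exact ⟨aut ℂ α a, by rw [hπ'a, hinv', ha]⟩
      · intro a
        rw [hπ'a, (hπ e).2, blk_smul_val]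
        constructor
        · intro h
          have := congrArg (aut ℂ α) h
          rwa [map_mul, hinv, map_zero] at this
        · intro h
          have := congrArg (aut ℂ α⁻¹) h
          rwa [map_mul, hinv', map_zero] at this
    have h1 := B4_key (α • e) π' hπ' (B4_rep (π (α • e))) (B4_irr _ (hπ (α • e)).1) (by
      intro h
      have h2 : (B4_rep (π (α • e))).asAlgebraHom (α • e).1 = Matrix.toLin' (π (α • e) (α • e).1) := by
        have h3 : (B4_rep (π (α • e))).asAlgebraHom =
            (Matrix.toLinAlgEquiv' (R := ℂ) (n := Fin (n (α • e)))).toAlgHom.comp (π (α • e)) := by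
          refine MonoidAlgebra.algHom_ext ?_ ?_
          · intro x
            rw [Representation.asAlgebraHom_single_one]
            rfl
          · exact Subsingleton.elim _ _
        rw [h3]; rfl
      rw [h2, hone, Matrix.toLin'_one] at h
      have h4 : (Pi.single (0 : Fin (n (α • e))) (1 : ℂ) : Fin (n (α • e)) → ℂ) = 0 := by
        have := congrArg (fun F => F (Pi.single (0 : Fin (n (α • e))) (1 : ℂ))) h
        exact this
      have h5 := congrFun h4 0
      rw [Pi.single_eq_same] at h5
      exact one_ne_zero h5) g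
    rw [B4_char, hπ'a, aut_single] at h1
    exact h1
  refine ⟨(Equiv.ofBijective Ψ ⟨hinj, hsurj⟩).symm, fun α χ => ?_⟩
  obtain ⟨e, rfl⟩ := hsurj χ
  rw [← hequiv, Equiv.symm_apply_eq]
  change Ψ (α • e) = Ψ (α • (Equiv.ofBijective Ψ ⟨hinj, hsurj⟩).symm (Ψ e))
  congr 2
  rw [Equiv.eq_symm_apply]
  rfl

theorem irr_finite (G : Type) [Group G] [Finite G] : Finite (Irr G) := by
  have hG : (Nat.card G : ℂ) ≠ 0 := by
    exact_mod_cast Nat.card_pos.ne'
  haveI := blk_finite ℂ G hG
  obtain ⟨Φ, -⟩ := exists_irr_equiv_blk G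
  exact Finite.of_equiv _ Φ.symm

end Pool.FS95
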