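import Pool.Agent.LibFS95.Ch

/-!
Definitions: the primitive central idempotents of `KG` (`Blk K G`), the action of `Aut(G)`, twisted classes
and twisted centres.
-/

set_option autoImplicit false
noncomputable section
open MulAction
namespace Pool.FS95

/-- The primitive central idempotents of `KG`. -/
def Blk (K : Type) [Field K] (G : Type) [Group G] : Type :=
  {e : MonoidAlgebra K G // e ≠ 0 ∧ e * e = e ∧ (∀ a, e * a = a * e) ∧
    ∀ f, f * f = f → (∀ a, f * a = a * f) → e * f = f → f = 0 ∨ f = e}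

/-- The algebra automorphism of `KG` induced by `α`. -/
def aut (K : Type) [Field K] {G : Type} [Group G] (α : MulAut G) :
    MonoidAlgebra K G ≃ₐ[K] MonoidAlgebra K G := MonoidAlgebra.domCongr K K α

theorem aut_one (K : Type) [Field K] {G : Type} [Group G] (a : MonoidAlgebra K G) :
    aut K (1 : MulAut G) a = a := by
  have h := map_one (MonoidAlgebra.domCongrAut (R := K) (A := K) (M := G))
  exact congrArg (fun f => f a) h

theorem aut_mul (K : Type) [Field K] {G : Type} [Group G] (α β : MulAut G) (a : MonoidAlgebra K G) :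
    aut K (α * β) a = aut K α (aut K β a) := by
  have h := map_mul (MonoidAlgebra.domCongrAut (R := K) (A := K) (M := G)) α β
  exact congrArg (fun f => f a) h

theorem aut_single (K : Type) [Field K] {G : Type} [Group G] (α : MulAut G) (x : G) (c : K) :
    aut K α (MonoidAlgebra.single x c) = MonoidAlgebra.single (α x) c :=
  MonoidAlgebra.domCongr_single (R := K) α x c

theorem blk_smul_prop {K : Type} [Field K] {G : Type} [Group G] (α : MulAut G) (e : Blk K G) :
    aut K α e.1 ≠ 0 ∧ aut K α e.1 * aut K α e.1 = aut K α e.1 ∧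
      (∀ a, aut K α e.1 * a = a * aut K α e.1) ∧
      ∀ f, f * f = f → (∀ a, f * a = a * f) → aut K α e.1 * f = f → f = 0 ∨ f = aut K α e.1 := by
  obtain ⟨e, h1, h2, h3, h4⟩ := e
  have hinv : ∀ a, aut K α (aut K α⁻¹ a) = a := fun a => by
    rw [← aut_mul, mul_inv_cancel, aut_one]
  have hinv' : ∀ a, aut K α⁻¹ (aut K α a) = a := fun a => by
    rw [← aut_mul, inv_mul_cancel, aut_one]
  refine ⟨?_, ?_, ?_, ?_⟩
  · intro h; apply h1
    have := congrArg (aut K α⁻¹) h
    rwa [hinv', map_zero] at this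
  · rw [← map_mul]; exact congrArg _ h2
  · intro a
    have := congrArg (aut K α) (h3 (aut K α⁻¹ a))
    rwa [map_mul, map_mul, hinv] at this
  · intro f hf1 hf2 hf3
    have h5 := h4 (aut K α⁻¹ f) (by rw [← map_mul, hf1]) (fun a => by
      have := congrArg (aut K α⁻¹) (hf2 (aut K α a))
      rwa [map_mul, map_mul, hinv'] at this) (by
      have := congrArg (aut K α⁻¹) hf3
      rwa [map_mul, hinv'] at this)
    rcases h5 with h5 | h5
    · left
      have := congrArg (aut K α) h5
      rwa [hinv, map_zero] at this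
    · right
      have := congrArg (aut K α) h5
      rwa [hinv] at this

instance {K : Type} [Field K] {G : Type} [Group G] : MulAction (MulAut G) (Blk K G) where
  smul α e := ⟨aut K α e.1, blk_smul_prop α e⟩
  one_smul e := Subtype.ext (aut_one K e.1)
  mul_smul α β e := Subtype.ext (aut_mul K α β e.1)

theorem blk_smul_val {K : Type} [Field K] {G : Type} [Group G] (α : MulAut G) (e : Blk K G) :
    (α • e).1 = aut K α e.1 := rfl

/-- `π : KG → M_n(K)` is the projection to the block `e`. -/
def IsBlkHom {K : Type} [Field K] {G : Type} [Group G] (e : Blk K G) {n : ℕ}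
    (π : MonoidAlgebra K G →ₐ[K] Matrix (Fin n) (Fin n) K) : Prop :=
  Function.Surjective π ∧ ∀ a, π a = 0 ↔ e.1 * a = 0

/-- Twisted conjugacy: `x ~ q x g(q)⁻¹`. -/
def twSetoid {Q : Type} [Group Q] (g : MulAut Q) : Setoid Q where
  r x y := ∃ q : Q, y = q * x * (g q)⁻¹
  iseqv := by
    refine ⟨fun x => ⟨1, by simp⟩, ?_, ?_⟩
    · rintro x y ⟨q, rfl⟩
      exact ⟨q⁻¹, by rw [map_inv]; group⟩
    · rintro x y z ⟨q, rfl⟩ ⟨r, rfl⟩
      exact ⟨r * q, by rw [map_mul]; group⟩

/-- The `g`-twisted centre `{a | b a = a g(b)}` of `ℂQ`. -/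
def tz {Q : Type} [Group Q] (g : MulAut Q) : Submodule ℂ (MonoidAlgebra ℂ Q) where
  carrier := {a | ∀ b, b * a = a * aut ℂ g b}
  add_mem' := by intro a b ha hb c; rw [mul_add, add_mul, ha c, hb c]
  zero_mem' := by intro b; simp
  smul_mem' := by intro c a ha b; rw [mul_smul_comm, smul_mul_assoc, ha b]

/-- `h` maps the `g`-twisted centre to itself if `g` and `h` commute. -/
def tzMap {Q : Type} [Group Q] (g h : MulAut Q) (hgh : g * h = h * g) : tz g →ₗ[ℂ] tz g :=
  (aut ℂ h).toLinearMap.restrict (fun a ha b => by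
    have h1 := congrArg (aut ℂ h) (ha (aut ℂ h⁻¹ b))
    have h2 : h * g * h⁻¹ = g := by rw [← hgh, mul_inv_cancel_right]
    rw [map_mul, map_mul, ← aut_mul, mul_inv_cancel, aut_one, ← aut_mul, ← aut_mul, h2] at h1
    exact h1)

theorem tzMap_coe {Q : Type} [Group Q] (g h : MulAut Q) (hgh : g * h = h * g) (a : tz g) :
    (tzMap g h hgh a : MonoidAlgebra ℂ Q) = aut ℂ h a := rfl

end Pool.FS95
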