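import Pool.Agent.LibFS95.Gen

/-!
Row G4: orbit counting with weights: `|H| ∑_{x ∈ X/H} f(x) = ∑_x |H_x| f(x)`.

Plan. Group the right hand side by orbits: for `x` in the orbit `q` we have
`|H_x| = |H_{q.out}|` and `f x = f q.out`, the orbit has `|H|/|H_x|` elements
(`MulAction.card_orbit_mul_card_stabilizer_eq_card_group`, or the equivalence
`MulAction.selfEquivSigmaOrbitsQuotientStabilizer` / `selfEquivSigmaOrbits`).
-/

set_option autoImplicit false
noncomputable section
open MulAction
namespace Pool.FS95

theorem card_mul_clsum {H X : Type*} [Group H] [Finite H] [MulAction H X] [Finite X] (f : X → ℤ)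
    (hf : ∀ (h : H) (x : X), f (h • x) = f x) :
    (Nat.card H : ℤ) * clsum (orbitRel H X) f = ∑ᶠ x : X, (Nat.card (stabilizer H x) : ℤ) * f x := by
  classical
  have := Fintype.ofFinite H
  have := Fintype.ofFinite X
  have : Fintype (Quotient (orbitRel H X)) := Fintype.ofFinite _
  unfold clsum
  rw [finsum_eq_sum_of_fintype, finsum_eq_sum_of_fintype, Finset.mul_sum,
    ← Finset.sum_fiberwise Finset.univ (fun x : X => Quotient.mk (orbitRel H X) x)
      (fun x : X => (Nat.card (stabilizer H x) : ℤ) * f x)]
  refine Finset.sum_congr rfl fun q _ => ?_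
  have hrel : ∀ x : X, Quotient.mk (orbitRel H X) x = q ↔ x ∈ orbit H q.out := by
    intro x
    rw [← orbitRel_apply]
    constructor
    · intro h
      have h2 : Quotient.mk (orbitRel H X) x = Quotient.mk (orbitRel H X) q.out := by
        rw [h, Quotient.out_eq]
      exact Quotient.exact h2
    · intro h
      have h2 : Quotient.mk (orbitRel H X) x = Quotient.mk (orbitRel H X) q.out := Quotient.sound h
      rw [h2, Quotient.out_eq]
  have hconst : ∀ x ∈ Finset.univ.filter (fun x : X => Quotient.mk (orbitRel H X) x = q),
      (Nat.card (stabilizer H x) : ℤ) * f x = (Nat.card (stabilizer H q.out) : ℤ) * f q.out := by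
    intro x hx
    have hx2 := (hrel x).1 (Finset.mem_filter.1 hx).2
    have e1 : f x = f q.out := by
      obtain ⟨h, rfl⟩ := hx2
      exact hf h q.out
    have e2 : Nat.card (stabilizer H x) = Nat.card (stabilizer H q.out) :=
      Nat.card_congr (stabilizerEquivStabilizerOfOrbitRel (orbitRel_apply.2 hx2)).toEquiv
    rw [e1, e2]
  rw [Finset.sum_congr rfl hconst, Finset.sum_const, nsmul_eq_mul, ← mul_assoc]
  congr 1
  have h1 := card_orbit_mul_card_stabilizer_eq_card_group H q.out
  have h2 : (Finset.univ.filter (fun x : X => Quotient.mk (orbitRel H X) x = q)).card =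
      Fintype.card (orbit H q.out) := by
    rw [← Set.toFinset_card]
    congr 1
    ext x
    rw [Finset.mem_filter, Set.mem_toFinset, hrel]
    simp
  rw [h2, Nat.card_eq_fintype_card, Nat.card_eq_fintype_card, ← h1]
  push_cast
  ring

end Pool.FS95
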