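import Pool.Agent.LibFS95.E0
import Pool.Agent.LibFS95.G4

/-!
Row C1: the weighted form of `W`.

Plan. Apply `card_mul_clsum` (G4) twice: `|H| * clsum_σ f(σ) = ∑_σ |H_σ| f(σ)` with
`f σ = (-1)^len * clsum_{Y/H_σ} ζ`, and `|H_σ| * clsum_{Y/H_σ} g = ∑_y |(H_σ)_y| g y`. The group
`stabilizer (stabilizer H σ) y` is isomorphic to `stabilizer H σ ⊓ stabilizer H y` (so the cardinalities agree and, by `IsoInv`,
the values of `ζ`). Invariance of `f` under `H`: for `h • σ` the stabiliser is conjugate; the conjugation isomorphism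
`H_σ ≃ H_{hσ}` and `y ↦ h • y` transport the inner sum (use e.g. the weighted form of the inner sum, or G1
`clsum_transfer` with `Φ y = h • y`); `len (h • σ) = len σ` because `cj h` is injective.
-/

set_option autoImplicit false
noncomputable section
open MulAction
namespace Pool.FS95

private theorem c1_iso {ζ : ∀ (K : Type) [Group K], ℤ} (hζ : IsoInv ζ) {K K' : Type} [Group K]
    [Group K'] (e : K ≃* K') :
    (Nat.card K : ℤ) * ζ K = (Nat.card K' : ℤ) * ζ K' := by
  rw [hζ K K' ⟨e⟩, Nat.card_congr e.toEquiv]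

private theorem c1_map {H Y : Type} [Group H] [MulAction H Y] (K : Subgroup H) (y : Y) :
    (stabilizer K y).map K.subtype = K ⊓ stabilizer H y := by
  ext g
  rw [Subgroup.mem_map, Subgroup.mem_inf]
  constructor
  · rintro ⟨k, hk, rfl⟩
    exact ⟨k.2, hk⟩
  · rintro ⟨h1, h2⟩
    exact ⟨⟨g, h1⟩, h2, rfl⟩

private theorem c1_inner {ζ : ∀ (K : Type) [Group K], ℤ} (hζ : IsoInv ζ) {H Y : Type} [Group H]
    [Finite H] [MulAction H Y] [Finite Y] (K : Subgroup H) :
    (Nat.card K : ℤ) * clsum (orbitRel K Y) (fun y => ζ (stabilizer K y)) =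
      ∑ᶠ y : Y, (Nat.card ↥(K ⊓ stabilizer H y) : ℤ) * ζ ↥(K ⊓ stabilizer H y) := by
  have h1 := card_mul_clsum (H := K) (X := Y) (fun y => ζ (stabilizer K y)) (fun k y => by
    refine hζ _ _ ⟨?_⟩
    exact (MulEquiv.subgroupCongr (stabilizer_smul_eq_stabilizer_map_conj k y)).trans
      (Subgroup.equivMapOfInjective (stabilizer K y) (MulAut.conj k).toMonoidHom
        (MulAut.conj k).injective).symm)
  rw [h1]
  refine finsum_congr fun y => ?_
  exact c1_iso hζ ((Subgroup.equivMapOfInjective (stabilizer K y) K.subtype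
    K.subtype_injective).trans (MulEquiv.subgroupCongr (c1_map K y)))

private theorem c1_conj {ζ : ∀ (K : Type) [Group K], ℤ} (hζ : IsoInv ζ) {H Y : Type} [Group H]
    [MulAction H Y] (K : Subgroup H) (h : H) :
    ∑ᶠ y : Y, (Nat.card ↥(K.map (MulAut.conj h).toMonoidHom ⊓ stabilizer H y) : ℤ) *
        ζ ↥(K.map (MulAut.conj h).toMonoidHom ⊓ stabilizer H y) =
      ∑ᶠ y : Y, (Nat.card ↥(K ⊓ stabilizer H y) : ℤ) * ζ ↥(K ⊓ stabilizer H y) := by
  rw [← finsum_comp_equiv (MulAction.toPerm h : Equiv.Perm Y)]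
  refine finsum_congr fun y => ?_
  have h1 : K.map (MulAut.conj h).toMonoidHom ⊓ stabilizer H (h • y) =
      (K ⊓ stabilizer H y).map (MulAut.conj h).toMonoidHom := by
    rw [stabilizer_smul_eq_stabilizer_map_conj,
      Subgroup.map_inf _ _ _ (MulAut.conj h).injective]
  exact c1_iso hζ ((MulEquiv.subgroupCongr h1).trans
    (Subgroup.equivMapOfInjective (K ⊓ stabilizer H y) (MulAut.conj h).toMonoidHom
        (MulAut.conj h).injective).symm)

private theorem c1_len {ℓ : ℕ} {H : Type} [Group H] (h : H) (σ : NChain ℓ H) :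
    (h • σ).len = σ.len := by
  unfold NChain.len
  rw [smul_val, Set.ncard_image_of_injective]
  intro X Y hXY
  have h1 := congrArg (cj h⁻¹) hXY
  rwa [← cj_mul, ← cj_mul, inv_mul_cancel, cj_one, cj_one] at h1

theorem card_mul_W (ℓ : ℕ) {ζ : ∀ (K : Type) [Group K], ℤ} (hζ : IsoInv ζ) (H Y : Type) [Group H]
    [Finite H] [MulAction H Y] [Finite Y] :
    (Nat.card H : ℤ) * W ℓ ζ H Y = ∑ᶠ σ : NChain ℓ H, ∑ᶠ y : Y,
      (-1) ^ σ.len * ((Nat.card ↥(stabilizer H σ ⊓ stabilizer H y) : ℤ) *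
        ζ ↥(stabilizer H σ ⊓ stabilizer H y)) := by
  unfold W
  rw [card_mul_clsum]
  · refine finsum_congr fun σ => ?_
    rw [← mul_finsum, ← c1_inner hζ (stabilizer H σ)]
    ring
  · intro h σ
    rw [c1_len]
    congr 1
    have h1 := c1_inner (Y := Y) hζ (stabilizer H (h • σ))
    have h2 := c1_inner (Y := Y) hζ (stabilizer H σ)
    have h3 := c1_conj (Y := Y) hζ (stabilizer H σ) h
    have hcard : Nat.card (stabilizer H (h • σ)) = Nat.card (stabilizer H σ) :=
      Nat.card_congr ((MulEquiv.subgroupCongr (stabilizer_smul_eq_stabilizer_map_conj h σ)).trans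
        (Subgroup.equivMapOfInjective (stabilizer H σ) (MulAut.conj h).toMonoidHom
          (MulAut.conj h).injective).symm).toEquiv
    have hpos : (Nat.card (stabilizer H σ) : ℤ) ≠ 0 := by
      have : 0 < Nat.card (stabilizer H σ) := Nat.card_pos
      exact_mod_cast this.ne'
    have h4 : ∑ᶠ y : Y, (Nat.card ↥(stabilizer H (h • σ) ⊓ stabilizer H y) : ℤ) *
        ζ ↥(stabilizer H (h • σ) ⊓ stabilizer H y) =
        ∑ᶠ y : Y, (Nat.card ↥((stabilizer H σ).map (MulAut.conj h).toMonoidHom ⊓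
          stabilizer H y) : ℤ) *
        ζ ↥((stabilizer H σ).map (MulAut.conj h).toMonoidHom ⊓ stabilizer H y) := by
      rw [stabilizer_smul_eq_stabilizer_map_conj]
    rw [h4, h3, ← h2, hcard] at h1
    exact mul_left_cancel₀ hpos h1

end Pool.FS95
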