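import Pool.Agent.LibFS95.Ch

/-!
Row C2: Moebius transform on the lattice of subgroups. EASY.

Plan. Define `g` by well-founded recursion on `K` (finite lattice; or on `Nat.card K`): `g K = f K - ∑_{B < K} g B`.
Second claim by strong induction on `B`.
-/

set_option autoImplicit false
noncomputable section
open MulAction
namespace Pool.FS95

theorem exists_moebius {H : Type*} [Group H] [Finite H] (f : Subgroup H → ℤ) :
    ∃ g : Subgroup H → ℤ, (∀ K, f K = ∑ᶠ B : {B : Subgroup H // B ≤ K}, g B.1) ∧
      ∀ B, (∀ K ≤ B, f K = 0) → g B = 0 := by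
  classical
  haveI : Fintype (Subgroup H) := Fintype.ofFinite _
  have hwf : WellFounded ((· < ·) : Subgroup H → Subgroup H → Prop) := wellFounded_lt
  set g : Subgroup H → ℤ := hwf.fix (fun K ih => f K - ∑ B : {B : Subgroup H // B < K}, ih B.1 B.2)
    with hg
  have hgK : ∀ K, g K = f K - ∑ B : {B : Subgroup H // B < K}, g B.1 := by
    intro K
    rw [hg, hwf.fix_eq]
  refine ⟨g, ?_, ?_⟩
  · intro K
    rw [finsum_eq_sum_of_fintype]
    have h1 : ∑ B : {B : Subgroup H // B ≤ K}, g B.1 =
        ∑ B ∈ Finset.univ.filter (fun B : Subgroup H => B ≤ K), g B :=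
      (Finset.sum_subtype _ (fun B => by simp) g).symm
    have h2 : ∑ B : {B : Subgroup H // B < K}, g B.1 =
        ∑ B ∈ Finset.univ.filter (fun B : Subgroup H => B < K), g B :=
      (Finset.sum_subtype _ (fun B => by simp) g).symm
    have h3 : Finset.univ.filter (fun B : Subgroup H => B ≤ K) =
        insert K (Finset.univ.filter (fun B : Subgroup H => B < K)) := by
      ext B
      simp only [Finset.mem_filter, Finset.mem_univ, true_and, Finset.mem_insert]
      rw [le_iff_eq_or_lt]
    rw [h1, h3, Finset.sum_insert (by simp), ← h2, hgK K]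
    ring
  · intro B
    induction B using hwf.induction with
    | _ B ih =>
      intro hB
      rw [hgK B, hB B le_rfl, zero_sub, neg_eq_zero]
      apply Finset.sum_eq_zero
      intro B' _
      exact ih B'.1 B'.2 fun K hK => hB K (hK.trans B'.2.le)

end Pool.FS95
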