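import Pool.Agent.LibFS95.Ch

/-!
Row E2: the sum over all chains vanishes if there is a suitable `O ≠ 1`.

Plan. For a chain `σ` let `L = sSup {X ∈ σ | ¬ O ≤ X}` (a member of `σ`, the set contains `⊥` as `O ≠ ⊥`), `N = L ⊔ O`. Every member
`Y` of `σ` satisfies `Y ≤ L`, or `O ≤ Y` and `L ≤ Y`, hence `N ≤ Y`. Toggle `N`: `σ' = σ \ {N}` if `N ∈ σ`, else `insert N σ`.
`L` and `N` do not change (as `O ≤ N`), so this is an involution; `N ≠ ⊥`, so `⊥` stays and the parity of `ncard - 1` changes;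
`B` normalises `N = L ⊔ O`, `N` is an `ℓ`-group by `hO`. Sum over the finite type with a sign changing involution
(`finsum_eq_sum_of_fintype`, `Equiv.sum_comp`).
-/

set_option autoImplicit false
noncomputable section
open MulAction
namespace Pool.FS95

theorem E2_mem_normalizer {H : Type*} [Group H] (b : H) (K : Subgroup H) :
    b ∈ Subgroup.normalizer (K : Set H) ↔ cj b K = K := by
  rw [Subgroup.mem_normalizer_iff]
  constructor
  · intro h
    ext z
    rw [mem_cj]
    constructor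
    · rintro ⟨x, hx, rfl⟩
      exact (h x).1 hx
    · intro hz
      refine ⟨b⁻¹ * z * b, ?_, by group⟩
      apply (h _).2
      have e : b * (b⁻¹ * z * b) * b⁻¹ = z := by group
      show b * (b⁻¹ * z * b) * b⁻¹ ∈ K
      rw [e]
      exact hz
  · intro h x
    constructor
    · intro hx
      show b * x * b⁻¹ ∈ K
      rw [← h, mem_cj]
      exact ⟨x, hx, rfl⟩
    · intro hx
      have hx' : b * x * b⁻¹ ∈ K := hx
      rw [← h, mem_cj] at hx'
      obtain ⟨y, hy, hyx⟩ := hx'
      have e : y = x := mul_left_cancel (mul_right_cancel hyx)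
      rw [← e]
      exact hy

theorem E2_normalizer_sup {H : Type*} [Group H] {B K O : Subgroup H}
    (h1 : B ≤ Subgroup.normalizer (K : Set H)) (h2 : B ≤ Subgroup.normalizer (O : Set H)) :
    B ≤ Subgroup.normalizer ((K ⊔ O : Subgroup H) : Set H) := by
  intro b hb
  rw [E2_mem_normalizer]
  unfold cj
  rw [Subgroup.map_sup]
  have e1 := (E2_mem_normalizer b K).1 (h1 hb)
  have e2 := (E2_mem_normalizer b O).1 (h2 hb)
  unfold cj at e1 e2
  rw [e1, e2]

/-- the subgroup which is toggled -/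
def E2_N {H : Type*} [Group H] (O : Subgroup H) (σ : Set (Subgroup H)) : Subgroup H :=
  sSup {X | X ∈ σ ∧ ¬ O ≤ X} ⊔ O

open scoped Classical in
/-- the toggle -/
def E2_tog {H : Type*} [Group H] (O : Subgroup H) (σ : Set (Subgroup H)) : Set (Subgroup H) :=
  if E2_N O σ ∈ σ then σ \ {E2_N O σ} else insert (E2_N O σ) σ

theorem E2_N_tog {H : Type*} [Group H] (O : Subgroup H) (σ : Set (Subgroup H)) :
    E2_N O (E2_tog O σ) = E2_N O σ := by
  have hO : O ≤ E2_N O σ := le_sup_right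
  have e : {X | X ∈ E2_tog O σ ∧ ¬ O ≤ X} = {X | X ∈ σ ∧ ¬ O ≤ X} := by
    ext X
    unfold E2_tog
    split_ifs with h
    · constructor
      · rintro ⟨h1, h2⟩
        exact ⟨h1.1, h2⟩
      · rintro ⟨h1, h2⟩
        refine ⟨⟨h1, ?_⟩, h2⟩
        intro h3
        rw [Set.mem_singleton_iff] at h3
        rw [h3] at h2
        exact h2 hO
    · constructor
      · rintro ⟨h1, h2⟩
        rcases h1 with h1 | h1
        · rw [h1] at h2
          exact absurd hO h2
        · exact ⟨h1, h2⟩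
      · rintro ⟨h1, h2⟩
        exact ⟨Or.inr h1, h2⟩
  unfold E2_N at e ⊢
  rw [e]

theorem E2_tog_tog {H : Type*} [Group H] (O : Subgroup H) (σ : Set (Subgroup H)) :
    E2_tog O (E2_tog O σ) = σ := by
  have h1 := E2_N_tog O σ
  rw [E2_tog, h1]
  by_cases h : E2_N O σ ∈ σ
  · have h2 : E2_tog O σ = σ \ {E2_N O σ} := by rw [E2_tog, if_pos h]
    rw [h2, if_neg (fun h3 => h3.2 rfl), Set.insert_diff_singleton, Set.insert_eq_of_mem h]
  · have h2 : E2_tog O σ = insert (E2_N O σ) σ := by rw [E2_tog, if_neg h]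
    rw [h2, if_pos (Set.mem_insert _ _), Set.insert_diff_of_mem _ (Set.mem_singleton _),
      Set.diff_singleton_eq_self h]

theorem E2_tog_isPChain {ℓ : ℕ} {H : Type*} [Group H] [Finite H] {B O : Subgroup H}
    (hne : O ≠ ⊥) (hB : B ≤ Subgroup.normalizer (O : Set H))
    (hO : ∀ X : Subgroup H, IsPGroup ℓ X → B ≤ Subgroup.normalizer (X : Set H) →
      IsPGroup ℓ ↥(X ⊔ O)) {σ : Set (Subgroup H)} (hσ : IsPChain ℓ B σ) :
    IsPChain ℓ B (E2_tog O σ) := by
  have hON : O ≤ E2_N O σ := le_sup_right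
  have hbot : (⊥ : Subgroup H) ≠ E2_N O σ := by
    intro h
    rw [← h] at hON
    exact hne (le_bot_iff.1 hON)
  have hL : sSup {X | X ∈ σ ∧ ¬ O ≤ X} ∈ {X | X ∈ σ ∧ ¬ O ≤ X} := by
    apply sSup_mem_of_total
    · exact ⟨⊥, hσ.bot_mem, fun h => hne (le_bot_iff.1 h)⟩
    · intro X hX Y hY
      exact hσ.total X hX.1 Y hY.1
  have htot : ∀ Y ∈ σ, Y ≤ E2_N O σ ∨ E2_N O σ ≤ Y := by
    intro Y hY
    by_cases hOY : O ≤ Y
    · right
      refine sup_le ?_ hOY
      rcases hσ.total _ hL.1 Y hY with h | h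
      · exact h
      · exact absurd (hOY.trans h) hL.2
    · left
      have h1 : Y ≤ sSup {X | X ∈ σ ∧ ¬ O ≤ X} := le_sSup ⟨hY, hOY⟩
      exact h1.trans le_sup_left
  unfold E2_tog
  split_ifs with h
  · exact
      { bot_mem := ⟨hσ.bot_mem, fun h1 => hbot h1⟩
        isPGroup := fun X hX => hσ.isPGroup X hX.1
        total := fun X hX Y hY => hσ.total X hX.1 Y hY.1
        norm := fun X hX => hσ.norm X hX.1 }
  · exact
      { bot_mem := Or.inr hσ.bot_mem
        isPGroup := by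
          rintro X (hX | hX)
          · subst hX
            exact hO _ (hσ.isPGroup _ hL.1) (hσ.norm _ hL.1)
          · exact hσ.isPGroup X hX
        total := by
          rintro X (hX | hX) Y (hY | hY)
          · rw [hX, hY]
            exact Or.inl le_rfl
          · rw [hX]
            exact (htot Y hY).symm
          · rw [hY]
            exact htot X hX
          · exact hσ.total X hX Y hY
        norm := by
          rintro X (hX | hX)
          · subst hX
            exact E2_normalizer_sup (hσ.norm _ hL.1) hB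
          · exact hσ.norm X hX }

theorem E2_sign {m : ℕ} (hm : 1 ≤ m) : (-1 : ℤ) ^ (m + 1 - 1) + (-1 : ℤ) ^ (m - 1) = 0 := by
  obtain ⟨n, rfl⟩ : ∃ n, m = n + 1 := ⟨m - 1, by omega⟩
  rw [Nat.add_sub_cancel, Nat.add_sub_cancel, pow_succ]
  ring

theorem sum_all_eq_zero (ℓ : ℕ) [Fact ℓ.Prime] {H : Type*} [Group H] [Finite H] (B O : Subgroup H)
    (hne : O ≠ ⊥) (hB : B ≤ Subgroup.normalizer (O : Set H))
    (hO : ∀ X : Subgroup H, IsPGroup ℓ X → B ≤ Subgroup.normalizer (X : Set H) →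
      IsPGroup ℓ ↥(X ⊔ O)) :
    ∑ᶠ σ : {σ : Set (Subgroup H) // IsPChain ℓ B σ}, (-1 : ℤ) ^ (σ.1.ncard - 1) = 0 := by
  classical
  have : Fintype {σ : Set (Subgroup H) // IsPChain ℓ B σ} := Fintype.ofFinite _
  rw [finsum_eq_sum_of_fintype]
  have hparity : ∀ σ : Set (Subgroup H), IsPChain ℓ B σ →
      (-1 : ℤ) ^ (σ.ncard - 1) + (-1 : ℤ) ^ ((E2_tog O σ).ncard - 1) = 0 := by
    intro σ hσ
    have hσ' := E2_tog_isPChain hne hB hO hσ
    have hpos : ∀ τ : Set (Subgroup H), IsPChain ℓ B τ → 1 ≤ τ.ncard := fun τ hτ =>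
      (Set.ncard_pos (Set.toFinite τ)).2 ⟨⊥, hτ.bot_mem⟩
    by_cases h : E2_N O σ ∈ σ
    · have h2 : E2_tog O σ = σ \ {E2_N O σ} := by rw [E2_tog, if_pos h]
      have h3 := Set.ncard_diff_singleton_add_one h (Set.toFinite σ)
      rw [← h2] at h3
      rw [← h3]
      exact E2_sign (hpos _ hσ')
    · have h2 : E2_tog O σ = insert (E2_N O σ) σ := by rw [E2_tog, if_neg h]
      have h3 := Set.ncard_insert_of_notMem h (Set.toFinite σ)
      rw [← h2] at h3
      rw [h3, add_comm]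
      exact E2_sign (hpos _ hσ)
  refine Finset.sum_involution
    (fun σ _ => ⟨E2_tog O σ.1, E2_tog_isPChain hne hB hO σ.2⟩) ?_ ?_ ?_ ?_
  · intro σ _
    exact hparity σ.1 σ.2
  · intro σ _ h0 h1
    have h2 := hparity σ.1 σ.2
    have h3 : E2_tog O σ.1 = σ.1 := congrArg Subtype.val h1
    rw [h3] at h2
    apply h0
    omega
  · intro σ _
    exact Finset.mem_univ _
  · intro σ _
    exact Subtype.ext (E2_tog_tog O σ.1)

end Pool.FS95
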