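import Pool.Agent.LibFS95.E1
import Pool.Agent.LibFS95.E2

/-!
Row E3: vanishing of `eul`. EASY (from E1, E2).

Plan. `eul_eq_zero`: `N ⊴ B` an `ℓ`-group `≠ ⊥`, `O = N.map B.subtype`, normalised by `B`, contained in `B`; if `B` normalises the
`ℓ`-group `X` then `O` normalises `X` and `X ⊔ O` is an `ℓ`-group (`IsPGroup.to_sup_of_normal_left'` or similar).
`eul_eq_zero'`: `O ⊴ H` an `ℓ`-group `≠ ⊥` (`IsPGroup.to_sup_of_normal_right`).
-/

set_option autoImplicit false
noncomputable section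
open MulAction
namespace Pool.FS95

theorem eul_eq_zero (ℓ : ℕ) [Fact ℓ.Prime] {H : Type*} [Group H] [Finite H] (B : Subgroup H)
    (hB : ¬ OTriv ℓ B) : eul ℓ B = 0 := by
  unfold OTriv at hB
  push Not at hB
  obtain ⟨N, hN, hp, hne⟩ := hB
  rw [eul_eq_all]
  have hOB : N.map B.subtype ≤ B := by
    rintro _ ⟨x, _, rfl⟩
    exact x.2
  refine sum_all_eq_zero ℓ B (N.map B.subtype) ?_ ?_ ?_
  · intro h
    exact hne ((Subgroup.map_eq_bot_iff_of_injective N B.subtype_injective).1 h)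
  · intro b hb
    have key : ∀ c ∈ B, ∀ z ∈ N.map B.subtype, c * z * c⁻¹ ∈ N.map B.subtype := by
      rintro c hc _ ⟨x, hx, rfl⟩
      exact ⟨⟨c, hc⟩ * x * ⟨c, hc⟩⁻¹, hN.conj_mem x hx ⟨c, hc⟩, rfl⟩
    rw [Subgroup.mem_normalizer_iff]
    intro z
    constructor
    · intro hz
      exact key b hb z hz
    · intro hz
      have := key b⁻¹ (inv_mem hb) _ hz
      have e : b⁻¹ * (b * z * b⁻¹) * b⁻¹⁻¹ = z := by group
      rwa [e] at this
  · intro X hX hBX
    exact IsPGroup.to_sup_of_normal_left' hX (hp.map _) (hOB.trans hBX)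

theorem eul_eq_zero' (ℓ : ℕ) [Fact ℓ.Prime] {H : Type*} [Group H] [Finite H] (B : Subgroup H)
    (hH : ¬ OTriv ℓ H) : eul ℓ B = 0 := by
  unfold OTriv at hH
  push Not at hH
  obtain ⟨N, hN, hp, hne⟩ := hH
  rw [eul_eq_all]
  refine sum_all_eq_zero ℓ B N hne ?_ ?_
  · rw [Subgroup.normalizer_eq_top]
    exact le_top
  · intro X hX _
    exact IsPGroup.to_sup_of_normal_right hX hp

end Pool.FS95
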