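import Pool.Agent.LibFS95.C1
import Pool.Agent.LibFS95.C2
import Pool.Agent.LibFS95.E3

/-!
Row C3: `W` in terms of marks.

Plan. `g` = Moebius transform (C2) of `f K = |K| ζ(K)`. In `card_mul_W` (C1) replace `|K| ζ(K)`, `K = H_σ ⊓ H_y`, by
`∑_{B ≤ K} g B` and exchange the (finite) sums: `B ≤ H_σ ⊓ H_y` iff `B ≤ H_σ` and `B ≤ H_y`; the sum over `σ` of
`(-1)^{len}` with `B ≤ H_σ` is `eul ℓ B`, the number of `y` is the mark. Convert `finsum` to `Finset.sum` over `univ`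
with indicator functions (`if B ≤ ... then ... else 0`) first.
`W_congr_of_marks`, `W_eq_zero` follow (`eul_eq_zero`, `eul_eq_zero'` of E3; `|H| ≠ 0`).
-/

set_option autoImplicit false
noncomputable section
open MulAction
namespace Pool.FS95

private theorem c3_sub {α : Type*} [Fintype α] (p : α → Prop) [DecidablePred p] (g : α → ℤ) :
    ∑ᶠ a : {a // p a}, g a.1 = ∑ a, if p a then g a else 0 := by
  rw [finsum_eq_sum_of_fintype, ← Finset.sum_filter]
  exact (Finset.sum_subtype (Finset.univ.filter p) (fun x => by simp) g).symm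

private theorem c3_card {α : Type*} [Fintype α] (p : α → Prop) [DecidablePred p] :
    (Nat.card {a // p a} : ℤ) = ∑ a, if p a then (1 : ℤ) else 0 := by
  rw [Nat.card_eq_fintype_card, Fintype.card_subtype, Finset.card_filter]
  push_cast
  rfl

theorem card_mul_W_marks (ℓ : ℕ) [Fact ℓ.Prime] {ζ : ∀ (K : Type) [Group K], ℤ} (hζ : IsoInv ζ)
    (H : Type) [Group H] [Finite H] :
    ∃ g : Subgroup H → ℤ, (∀ B : Subgroup H, (∀ K ≤ B, ζ ↥K = 0) → g B = 0) ∧
      ∀ (Y : Type) [MulAction H Y] [Finite Y], (Nat.card H : ℤ) * W ℓ ζ H Y =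
        ∑ᶠ B : Subgroup H, g B * (Nat.card {y : Y // B ≤ stabilizer H y} : ℤ) * eul ℓ B := by
  classical
  obtain ⟨g, hg1, hg2⟩ := exists_moebius (fun K : Subgroup H => (Nat.card ↥K : ℤ) * ζ ↥K)
  refine ⟨g, fun B hB => hg2 B fun K hK => by simp only [hB K hK, mul_zero], ?_⟩
  intro Y _ _
  have : Fintype Y := Fintype.ofFinite Y
  have : Fintype (NChain ℓ H) := Fintype.ofFinite _
  have : Fintype (Subgroup H) := Fintype.ofFinite _
  rw [card_mul_W ℓ hζ H Y, finsum_eq_sum_of_fintype, finsum_eq_sum_of_fintype]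
  have e1 : ∀ σ : NChain ℓ H, (∑ᶠ y : Y, (-1) ^ σ.len * ((Nat.card ↥(stabilizer H σ ⊓ stabilizer H y) : ℤ) *
        ζ ↥(stabilizer H σ ⊓ stabilizer H y))) = ∑ y : Y, ∑ B : Subgroup H,
        (-1) ^ σ.len * (if B ≤ stabilizer H σ ⊓ stabilizer H y then g B else 0) := by
    intro σ
    rw [finsum_eq_sum_of_fintype]
    refine Finset.sum_congr rfl fun y _ => ?_
    rw [← Finset.mul_sum, ← c3_sub (fun B : Subgroup H => B ≤ stabilizer H σ ⊓ stabilizer H y) g]
    rw [← hg1 (stabilizer H σ ⊓ stabilizer H y)]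
  calc ∑ σ : NChain ℓ H, (∑ᶠ y : Y, (-1) ^ σ.len * ((Nat.card ↥(stabilizer H σ ⊓ stabilizer H y) : ℤ) *
        ζ ↥(stabilizer H σ ⊓ stabilizer H y)))
      = ∑ σ : NChain ℓ H, ∑ y : Y, ∑ B : Subgroup H,
        (-1) ^ σ.len * (if B ≤ stabilizer H σ ⊓ stabilizer H y then g B else 0) :=
        Finset.sum_congr rfl fun σ _ => e1 σ
    _ = ∑ σ : NChain ℓ H, ∑ B : Subgroup H, ∑ y : Y,
        (-1) ^ σ.len * (if B ≤ stabilizer H σ ⊓ stabilizer H y then g B else 0) :=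
        Finset.sum_congr rfl fun σ _ => Finset.sum_comm
    _ = ∑ B : Subgroup H, ∑ σ : NChain ℓ H, ∑ y : Y,
        (-1) ^ σ.len * (if B ≤ stabilizer H σ ⊓ stabilizer H y then g B else 0) := Finset.sum_comm
    _ = ∑ B : Subgroup H, g B * (Nat.card {y : Y // B ≤ stabilizer H y} : ℤ) * eul ℓ B := by
        refine Finset.sum_congr rfl fun B _ => ?_
        unfold eul
        rw [c3_card (fun y : Y => B ≤ stabilizer H y),
          c3_sub (fun σ : NChain ℓ H => B ≤ stabilizer H σ) (fun σ => (-1) ^ σ.len), Finset.mul_sum]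
        refine Finset.sum_congr rfl fun σ _ => ?_
        rw [Finset.mul_sum, Finset.sum_mul]
        refine Finset.sum_congr rfl fun y _ => ?_
        rw [le_inf_iff]
        by_cases h1 : B ≤ stabilizer H σ <;> by_cases h2 : B ≤ stabilizer H y <;> simp [h1, h2, mul_comm]

theorem W_congr_of_marks (ℓ : ℕ) [Fact ℓ.Prime] {ζ : ∀ (K : Type) [Group K], ℤ} (hζ : IsoInv ζ)
    (H Y Y' : Type) [Group H] [Finite H] [MulAction H Y] [Finite Y] [MulAction H Y'] [Finite Y']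
    (h : ∀ B : Subgroup H, OTriv ℓ B →
      (Nat.card {y : Y // B ≤ stabilizer H y} = Nat.card {y : Y' // B ≤ stabilizer H y}) ∨
        ∀ K ≤ B, ζ ↥K = 0) :
    W ℓ ζ H Y = W ℓ ζ H Y' := by
  obtain ⟨g, hg1, hg2⟩ := card_mul_W_marks ℓ hζ H
  have hc : (Nat.card H : ℤ) ≠ 0 := by exact_mod_cast Nat.card_pos.ne'
  apply mul_left_cancel₀ hc
  rw [hg2 Y, hg2 Y']
  apply finsum_congr
  intro B
  by_cases hB : OTriv ℓ B
  · rcases h B hB with h1 | h1
    · rw [h1]
    · rw [hg1 B h1]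
      ring
  · rw [eul_eq_zero ℓ B hB, mul_zero, mul_zero]

theorem W_eq_zero (ℓ : ℕ) [Fact ℓ.Prime] {ζ : ∀ (K : Type) [Group K], ℤ} (hζ : IsoInv ζ)
    (H Y : Type) [Group H] [Finite H] [MulAction H Y] [Finite Y] (hH : ¬ OTriv ℓ H) :
    W ℓ ζ H Y = 0 := by
  obtain ⟨g, hg1, hg2⟩ := card_mul_W_marks ℓ hζ H
  have hc : (Nat.card H : ℤ) ≠ 0 := by exact_mod_cast Nat.card_pos.ne'
  have h1 : (Nat.card H : ℤ) * W ℓ ζ H Y = 0 := by
    rw [hg2 Y]
    have : ∀ B : Subgroup H, g B * (Nat.card {y : Y // B ≤ stabilizer H y} : ℤ) * eul ℓ B = 0 := by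
      intro B
      rw [eul_eq_zero' ℓ B hH, mul_zero]
    rw [finsum_congr this, finsum_zero]
  exact (mul_eq_zero.1 h1).resolve_left hc

end Pool.FS95
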