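import Pool.Agent.LibFS95.Gen

/-!
Definitions: `IsPChain`, `eul ℓ B`, `eulA ℓ B`, `IsoInv`, `zp`, `awcD`, and two lemmas on finite totally
ordered sets of subgroups.
-/

set_option autoImplicit false
noncomputable section
open MulAction
namespace Pool.FS95

instance finite_nchain {ℓ : ℕ} {H : Type*} [Group H] [Finite H] : Finite (NChain ℓ H) :=
  inferInstanceAs (Finite {σ : Set (Subgroup H) // IsNChain ℓ σ})

/-- `∑ (-1)^{|σ|}` over the normal chains `σ` stabilised by `B`. -/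
def eul (ℓ : ℕ) {H : Type*} [Group H] (B : Subgroup H) : ℤ :=
  ∑ᶠ σ : {σ : NChain ℓ H // B ≤ stabilizer H σ}, (-1) ^ σ.1.len

/-- Arbitrary chains `1 = X_0 < ... < X_m` of `ℓ`-subgroups whose members are normalised by `B`. -/
structure IsPChain (ℓ : ℕ) {H : Type*} [Group H] (B : Subgroup H) (σ : Set (Subgroup H)) : Prop where
  bot_mem : (⊥ : Subgroup H) ∈ σ
  isPGroup : ∀ X ∈ σ, IsPGroup ℓ X
  total : ∀ X ∈ σ, ∀ Y ∈ σ, X ≤ Y ∨ Y ≤ X
  norm : ∀ X ∈ σ, B ≤ Subgroup.normalizer (X : Set H)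

/-- All members of `σ` are normal in the larger ones. -/
def NormalSet {H : Type*} [Group H] (σ : Set (Subgroup H)) : Prop :=
  ∀ X ∈ σ, ∀ Y ∈ σ, X ≤ Y → Y ≤ Subgroup.normalizer (X : Set H)

/-- `ζ` only depends on the isomorphism class. -/
def IsoInv (ζ : ∀ (K : Type) [Group K], ℤ) : Prop :=
  ∀ (K K' : Type) [Group K] [Group K'], Nonempty (K ≃* K') → ζ K = ζ K'

/-- `z'(H) = ∑_{σ ∈ N/H} (-1)^{|σ|} l(H_σ)`. -/
def zp (ℓ : ℕ) (H : Type) [Group H] : ℤ :=
  clsum (orbitRel H (NChain ℓ H)) fun σ => (-1) ^ σ.len * lreg ℓ (stabilizer H σ)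

/-- The defect of Alperin's weight conjecture: `l(G)` minus the number of weights. -/
def awcD (ℓ : ℕ) (k : Type) [Field k] (G : Type) [Group G] : ℤ :=
  lreg ℓ G - clsum (lsubSetoid ℓ G) fun Q => zproj k (NQ Q.1)

theorem awcD_eq_zero_iff (ℓ : ℕ) (k : Type) [Field k] (G : Type) [Group G] :
    awcD ℓ k G = 0 ↔ AWCfor ℓ k G := by
  unfold awcD AWCfor
  exact sub_eq_zero

theorem mem_stab_iff {ℓ : ℕ} {H : Type*} [Group H] (h : H) (σ : NChain ℓ H) :
    h ∈ stabilizer H σ ↔ cj h '' σ.1 = σ.1 := by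
  rw [mem_stabilizer_iff]
  constructor
  · intro h1; rw [← smul_val, h1]
  · intro h1; exact Subtype.ext h1

theorem sSup_mem_of_total {H : Type*} [Group H] [Finite H] {σ : Set (Subgroup H)} (hne : σ.Nonempty)
    (ht : ∀ X ∈ σ, ∀ Y ∈ σ, X ≤ Y ∨ Y ≤ X) : sSup σ ∈ σ := by
  obtain ⟨M, hM, hM2⟩ := (Set.toFinite σ).exists_maximal hne
  have : sSup σ = M := by
    apply le_antisymm
    · apply sSup_le
      intro X hX
      rcases ht X hX M hM with h | h
      · exact h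
      · exact hM2 hX h
    · exact le_sSup hM
  rw [this]; exact hM

theorem sInf_mem_of_total {H : Type*} [Group H] [Finite H] {σ : Set (Subgroup H)} (hne : σ.Nonempty)
    (ht : ∀ X ∈ σ, ∀ Y ∈ σ, X ≤ Y ∨ Y ≤ X) : sInf σ ∈ σ := by
  obtain ⟨M, hM, hM2⟩ := (Set.toFinite σ).exists_minimal hne
  have : sInf σ = M := by
    apply le_antisymm
    · exact sInf_le hM
    · apply le_sInf
      intro X hX
      rcases ht X hX M hM with h | h
      · exact hM2 hX h
      · exact h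
  rw [this]; exact hM

end Pool.FS95
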