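import Pool.Agent.LibFS95.G4
import Pool.Agent.LibFS95.Ch

/-!
Row C4: `ℓ`-regular classes. `lreg` is invariant under isomorphism and `|K| l(K)` = number of commuting pairs `(g,h)` with `g`
`ℓ`-regular.

Plan. `card_mul_lreg`: `|K| * #(K-orbits on the regular elements) = ∑_{g regular} |C_K(g)|` (orbit counting for the conjugation
action, `card_mul_clsum` with `f = 1` for `ConjAct K` on `{g // ¬ ℓ ∣ orderOf g}`, or count pairs directly: for a class `c`,
`∑_{g ∈ c} |C_K(g)| = |K|`, cf. `ConjClasses` / `card_comm_eq_card_conjClasses_mul_card` in Mathlib for the unrestricted count).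
-/

set_option autoImplicit false
noncomputable section
open MulAction
namespace Pool.FS95

theorem lreg_iso (ℓ : ℕ) : IsoInv (fun K _ => lreg ℓ K) := by
  intro K K' _ _ ⟨e⟩
  unfold lreg
  refine congrArg (Nat.cast : ℕ → ℤ) ?_
  have hmk : ∀ g : K, ConjClasses.map e.toMonoidHom (ConjClasses.mk g) = ConjClasses.mk (e g) :=
    fun g => rfl
  have hmk' : ∀ g : K', ConjClasses.map e.symm.toMonoidHom (ConjClasses.mk g) =
      ConjClasses.mk (e.symm g) := fun g => rfl
  refine Nat.card_congr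
    { toFun := fun c => ⟨ConjClasses.map e.toMonoidHom c.1, ?_⟩
      invFun := fun c => ⟨ConjClasses.map e.symm.toMonoidHom c.1, ?_⟩
      left_inv := ?_
      right_inv := ?_ }
  · obtain ⟨c, g, hg, ho⟩ := c
    refine ⟨e g, ?_, ?_⟩
    · simp only [← hg, hmk]
    · rwa [MulEquiv.orderOf_eq e g]
  · obtain ⟨c, g, hg, ho⟩ := c
    refine ⟨e.symm g, ?_, ?_⟩
    · simp only [← hg, hmk']
    · rwa [MulEquiv.orderOf_eq e.symm g]
  · rintro ⟨c, g, hg, ho⟩
    apply Subtype.ext
    simp only [← hg, hmk, hmk', MulEquiv.symm_apply_apply]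
  · rintro ⟨c, g, hg, ho⟩
    apply Subtype.ext
    simp only [← hg, hmk, hmk', MulEquiv.apply_symm_apply]

private theorem c4_orderOf {K : Type} [Group K] (h : ConjAct K) (g : K) :
    orderOf (h • g) = orderOf g := by
  have h1 : h • g = MulAut.conj (ConjAct.ofConjAct h) g := by
    rw [ConjAct.smul_def, MulAut.conj_apply]
  rw [h1]
  exact MulEquiv.orderOf_eq (MulAut.conj (ConjAct.ofConjAct h)) g

theorem card_mul_lreg (ℓ : ℕ) (K : Type) [Group K] [Finite K] :
    (Nat.card K : ℤ) * lreg ℓ K =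
      (Nat.card {p : K × K // p.1 * p.2 = p.2 * p.1 ∧ ¬ ℓ ∣ orderOf p.1} : ℤ) := by
  classical
  letI act : MulAction (ConjAct K) {g : K // ¬ ℓ ∣ orderOf g} :=
    { smul := fun h g => ⟨h • g.1, by rw [c4_orderOf]; exact g.2⟩
      one_smul := fun g => Subtype.ext (one_smul _ g.1)
      mul_smul := fun h h' g => Subtype.ext (mul_smul h h' g.1) }
  have hsmul : ∀ (h : ConjAct K) (g : {g : K // ¬ ℓ ∣ orderOf g}), (h • g).1 = h • g.1 :=
    fun _ _ => rfl
  haveI : Finite (ConjAct K) := Finite.of_equiv K ConjAct.toConjAct.toEquiv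
  haveI : Fintype {g : K // ¬ ℓ ∣ orderOf g} := Fintype.ofFinite _
  have h1 := card_mul_clsum (H := ConjAct K) (X := {g : K // ¬ ℓ ∣ orderOf g}) (fun _ => 1)
    (fun _ _ => rfl)
  have h2 : (Nat.card (ConjAct K) : ℤ) = Nat.card K := by
    rw [Nat.card_congr ConjAct.toConjAct.toEquiv.symm]
  have h3 : clsum (orbitRel (ConjAct K) {g : K // ¬ ℓ ∣ orderOf g}) (fun _ => 1) = lreg ℓ K := by
    unfold clsum lreg
    haveI : Fintype (Quotient (orbitRel (ConjAct K) {g : K // ¬ ℓ ∣ orderOf g})) :=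
      Fintype.ofFinite _
    rw [finsum_eq_sum_of_fintype, Finset.sum_const, Finset.card_univ, nsmul_eq_mul, mul_one,
      ← Nat.card_eq_fintype_card]
    refine congrArg (Nat.cast : ℕ → ℤ) ?_
    have hwd : ∀ x y : {g : K // ¬ ℓ ∣ orderOf g},
        orbitRel (ConjAct K) {g : K // ¬ ℓ ∣ orderOf g} x y →
        (⟨ConjClasses.mk x.1, ⟨x.1, rfl, x.2⟩⟩ :
          {c : ConjClasses K // ∃ g, ConjClasses.mk g = c ∧ ¬ ℓ ∣ orderOf g}) =
          ⟨ConjClasses.mk y.1, ⟨y.1, rfl, y.2⟩⟩ := by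
      intro x y hxy
      obtain ⟨h, hh⟩ := hxy
      apply Subtype.ext
      simp only
      rw [ConjClasses.mk_eq_mk_iff_isConj, isConj_comm, isConj_iff]
      refine ⟨ConjAct.ofConjAct h, ?_⟩
      have := congrArg Subtype.val hh
      simpa [hsmul, ConjAct.smul_def] using this
    refine Nat.card_eq_of_bijective (Quotient.lift (fun x =>
      (⟨ConjClasses.mk x.1, ⟨x.1, rfl, x.2⟩⟩ :
          {c : ConjClasses K // ∃ g, ConjClasses.mk g = c ∧ ¬ ℓ ∣ orderOf g})) hwd) ⟨?_, ?_⟩
    · intro q q' hqq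
      induction q using Quotient.inductionOn with
      | _ x =>
      induction q' using Quotient.inductionOn with
      | _ y =>
      have h4 : ConjClasses.mk x.1 = ConjClasses.mk y.1 := congrArg Subtype.val hqq
      rw [ConjClasses.mk_eq_mk_iff_isConj, isConj_comm, isConj_iff] at h4
      obtain ⟨c, hc⟩ := h4
      apply Quotient.sound
      refine ⟨ConjAct.toConjAct c, ?_⟩
      apply Subtype.ext
      simpa [hsmul, ConjAct.smul_def] using hc
    · rintro ⟨c, g, hg, ho⟩
      exact ⟨Quotient.mk _ ⟨g, ho⟩, Subtype.ext hg⟩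
  rw [h2, h3] at h1
  rw [h1, finsum_eq_sum_of_fintype]
  have e : {p : K × K // p.1 * p.2 = p.2 * p.1 ∧ ¬ ℓ ∣ orderOf p.1} ≃
      Σ x : {g : K // ¬ ℓ ∣ orderOf g}, stabilizer (ConjAct K) x :=
    { toFun := fun p => ⟨⟨p.1.1, p.2.2⟩, ⟨ConjAct.toConjAct p.1.2, by
        rw [mem_stabilizer_iff]
        apply Subtype.ext
        rw [hsmul, ConjAct.smul_def, ConjAct.ofConjAct_toConjAct]
        exact mul_inv_eq_iff_eq_mul.2 p.2.1.symm⟩⟩
      invFun := fun x => ⟨(x.1.1, ConjAct.ofConjAct x.2.1), by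
        have h4 := x.2.2
        rw [mem_stabilizer_iff] at h4
        have h5 := congrArg Subtype.val h4
        rw [hsmul, ConjAct.smul_def, mul_inv_eq_iff_eq_mul] at h5
        exact h5.symm, x.1.2⟩
      left_inv := fun p => rfl
      right_inv := fun x => rfl }
  rw [Nat.card_congr e, Nat.card_sigma]
  push_cast
  exact Finset.sum_congr rfl fun x _ => mul_one _

end Pool.FS95
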