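import Pool.Agent.LibFS95.C4
import Pool.Agent.LibFS95.E0
import Pool.Agent.LibFS95.G1

/-!
Row C5: `z'` is invariant under isomorphism, and the weighted form of `z'(K)` for a subgroup `K` of `H`.

Plan. `zp_iso`: transport chains along `e : K ≃* K'` (`Subgroup.map e`), G1 `clsum_transfer`, stabilisers correspond, `lreg_iso`.
`card_mul_zp_sub`: G4 + C4 give `|K| z'(K) = ∑_{τ : NChain ℓ K} (-1)^{len} #{(g,h) ∈ K_τ² commuting, g regular}`; the normal chains of
`↥K` correspond to the normal chains `τ` of `H` with all members `≤ K` (`Subgroup.map K.subtype`), and `K_τ` to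
`K ⊓ stabilizer H τ`. (`orderOf` of an element of a subgroup is its order in `H`.)
-/

set_option autoImplicit false
noncomputable section
open MulAction
namespace Pool.FS95

private theorem c5_cj_map {K H : Type*} [Group K] [Group H] (f : K →* H) (k : K)
    (X : Subgroup K) : cj (f k) (X.map f) = (cj k X).map f := by
  ext z
  rw [mem_cj, Subgroup.mem_map]
  constructor
  · rintro ⟨x, hx, rfl⟩
    obtain ⟨y, hy, rfl⟩ := Subgroup.mem_map.1 hx
    exact ⟨k * y * k⁻¹, mem_cj.2 ⟨y, hy, rfl⟩, by rw [map_mul, map_mul, map_inv]⟩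
  · rintro ⟨y, hy, rfl⟩
    obtain ⟨x, hx, rfl⟩ := mem_cj.1 hy
    exact ⟨f x, Subgroup.mem_map.2 ⟨x, hx, rfl⟩, by rw [map_mul, map_mul, map_inv]⟩

private theorem c5_isN_map {ℓ : ℕ} {K H : Type*} [Group K] [Group H] (f : K →* H)
    (hf : Function.Injective f) {σ : Set (Subgroup K)} (hσ : IsNChain ℓ σ) :
    IsNChain ℓ (Subgroup.map f '' σ) where
  bot_mem := ⟨⊥, hσ.bot_mem, Subgroup.map_bot f⟩
  isPGroup := by
    rintro _ ⟨X, hX, rfl⟩
    exact (hσ.isPGroup X hX).map f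
  total := by
    rintro _ ⟨X, hX, rfl⟩ _ ⟨Y, hY, rfl⟩
    rcases hσ.total X hX Y hY with h1 | h1
    · exact Or.inl (Subgroup.map_mono h1)
    · exact Or.inr (Subgroup.map_mono h1)
  normal := by
    rintro _ ⟨X, hX, rfl⟩ _ ⟨Y, hY, rfl⟩ hXY
    have hXY' : X ≤ Y := (Subgroup.map_le_map_iff_of_injective hf).1 hXY
    have h2 := hσ.normal X hX Y hY hXY'
    intro z hz
    obtain ⟨y, hy, rfl⟩ := Subgroup.mem_map.1 hz
    rw [← cj_eq_iff, c5_cj_map, (cj_eq_iff y X).2 (h2 hy)]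

private def c5_map {ℓ : ℕ} {K H : Type*} [Group K] [Group H] (f : K →* H)
    (hf : Function.Injective f) (σ : NChain ℓ K) : NChain ℓ H :=
  ⟨Subgroup.map f '' σ.1, c5_isN_map f hf σ.2⟩

private theorem c5_map_inj {ℓ : ℕ} {K H : Type*} [Group K] [Group H] (f : K →* H)
    (hf : Function.Injective f) : Function.Injective (c5_map (ℓ := ℓ) f hf) := by
  intro σ τ h
  have h1 : Subgroup.map f '' σ.1 = Subgroup.map f '' τ.1 := congrArg Subtype.val h
  exact Subtype.ext ((Set.image_injective.2 (Subgroup.map_injective hf)) h1)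

private theorem c5_map_surj {ℓ : ℕ} {K H : Type*} [Group K] [Group H] (f : K →* H)
    (hf : Function.Injective f) (τ : NChain ℓ H) (hτ : ∀ X ∈ τ.1, X ≤ f.range) :
    ∃ σ : NChain ℓ K, c5_map f hf σ = τ := by
  have hmc : ∀ X ∈ τ.1, (X.comap f).map f = X := fun X hX => by
    rw [Subgroup.map_comap_eq]
    exact inf_eq_right.2 (hτ X hX)
  have hσ : IsNChain ℓ (Subgroup.comap f '' τ.1) := by
    refine ⟨⟨⊥, τ.2.bot_mem, ?_⟩, ?_, ?_, ?_⟩
    · rw [MonoidHom.comap_bot]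
      exact (MonoidHom.ker_eq_bot_iff f).2 hf
    · rintro _ ⟨X, hX, rfl⟩
      exact IsPGroup.comap_of_injective (τ.2.isPGroup X hX) f hf
    · rintro _ ⟨X, hX, rfl⟩ _ ⟨Y, hY, rfl⟩
      rcases τ.2.total X hX Y hY with h1 | h1
      · exact Or.inl (Subgroup.comap_mono h1)
      · exact Or.inr (Subgroup.comap_mono h1)
    · rintro _ ⟨X, hX, rfl⟩ _ ⟨Y, hY, rfl⟩ hXY
      have h1 : X ≤ Y := by
        rw [← hmc X hX, ← hmc Y hY]
        exact Subgroup.map_mono hXY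
      have h2 := τ.2.normal X hX Y hY h1
      intro z hz
      have h3 : f z ∈ Subgroup.normalizer (X : Set H) := h2 (Subgroup.mem_comap.1 hz)
      rw [← cj_eq_iff] at h3 ⊢
      apply Subgroup.map_injective hf
      rw [← c5_cj_map, hmc X hX, h3]
  refine ⟨⟨Subgroup.comap f '' τ.1, hσ⟩, Subtype.ext ?_⟩
  change Subgroup.map f '' (Subgroup.comap f '' τ.1) = τ.1
  rw [Set.image_image]
  ext X
  constructor
  · rintro ⟨Y, hY, rfl⟩
    change (Y.comap f).map f ∈ τ.1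
    rw [hmc Y hY]
    exact hY
  · intro hX
    exact ⟨X, hX, hmc X hX⟩

private theorem c5_smul_map {ℓ : ℕ} {K H : Type*} [Group K] [Group H] (f : K →* H)
    (hf : Function.Injective f) (k : K) (σ : NChain ℓ K) :
    f k • c5_map f hf σ = c5_map f hf (k • σ) := by
  apply Subtype.ext
  rw [smul_val]
  change cj (f k) '' (Subgroup.map f '' σ.1) = Subgroup.map f '' (cj k '' σ.1)
  rw [Set.image_image, Set.image_image]
  congr 1
  funext X
  exact c5_cj_map f k X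

private theorem c5_len_map {ℓ : ℕ} {K H : Type*} [Group K] [Group H] (f : K →* H)
    (hf : Function.Injective f) (σ : NChain ℓ K) : (c5_map f hf σ).len = σ.len := by
  unfold NChain.len
  change (Subgroup.map f '' σ.1).ncard - 1 = _
  rw [Set.ncard_image_of_injective _ (Subgroup.map_injective hf)]

private theorem c5_stab {ℓ : ℕ} {K H : Type*} [Group K] [Group H] (f : K →* H)
    (hf : Function.Injective f) (σ : NChain ℓ K) (k : K) :
    f k ∈ stabilizer H (c5_map f hf σ) ↔ k ∈ stabilizer K σ := by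
  rw [mem_stabilizer_iff, mem_stabilizer_iff, c5_smul_map]
  exact (c5_map_inj f hf).eq_iff

private theorem c5_len_smul {ℓ : ℕ} {H : Type*} [Group H] (h : H) (σ : NChain ℓ H) :
    (h • σ).len = σ.len := by
  unfold NChain.len
  rw [smul_val, Set.ncard_image_of_injective]
  intro X Y hXY
  have h1 := congrArg (cj h⁻¹) hXY
  rwa [← cj_mul, ← cj_mul, inv_mul_cancel, cj_one, cj_one] at h1

private theorem c5_inv {ℓ : ℕ} {H : Type} [Group H] (h : H) (σ : NChain ℓ H) :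
    (-1 : ℤ) ^ (h • σ).len * lreg ℓ (stabilizer H (h • σ)) =
      (-1) ^ σ.len * lreg ℓ (stabilizer H σ) := by
  rw [c5_len_smul]
  congr 1
  exact lreg_iso ℓ _ _ ⟨(MulEquiv.subgroupCongr (stabilizer_smul_eq_stabilizer_map_conj h σ)).trans
    (Subgroup.equivMapOfInjective (stabilizer H σ) (MulAut.conj h).toMonoidHom
      (MulAut.conj h).injective).symm⟩

private theorem c5_inv' {ℓ : ℕ} {H : Type} [Group H] (σ τ : NChain ℓ H)
    (h : orbitRel H (NChain ℓ H) σ τ) :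
    (-1 : ℤ) ^ σ.len * lreg ℓ (stabilizer H σ) = (-1) ^ τ.len * lreg ℓ (stabilizer H τ) := by
  obtain ⟨g, rfl⟩ := (orbitRel_apply.1 h : σ ∈ orbit H τ)
  exact c5_inv g τ

private theorem c5_card {ℓ : ℕ} {S H : Type*} [Group S] [Group H] (φ : S →* H)
    (hφ : Function.Injective φ) (T : Subgroup H) (hT : φ.range = T) :
    Nat.card {p : S × S // p.1 * p.2 = p.2 * p.1 ∧ ¬ ℓ ∣ orderOf p.1} =
      Nat.card {p : H × H // (p.1 * p.2 = p.2 * p.1 ∧ ¬ ℓ ∣ orderOf p.1) ∧ p.1 ∈ T ∧ p.2 ∈ T} := by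
  subst hT
  refine Nat.card_congr (Equiv.ofBijective (fun p : {p : S × S // p.1 * p.2 = p.2 * p.1 ∧
    ¬ ℓ ∣ orderOf p.1} => (⟨(φ p.1.1, φ p.1.2), ⟨?_, ?_⟩, ⟨p.1.1, rfl⟩, ⟨p.1.2, rfl⟩⟩ :
      {p : H × H // (p.1 * p.2 = p.2 * p.1 ∧ ¬ ℓ ∣ orderOf p.1) ∧
        p.1 ∈ φ.range ∧ p.2 ∈ φ.range})) ⟨?_, ?_⟩)
  · change φ p.1.1 * φ p.1.2 = φ p.1.2 * φ p.1.1
    rw [← map_mul, p.2.1, map_mul]
  · change ¬ ℓ ∣ orderOf (φ p.1.1)
    rw [orderOf_injective φ hφ]
    exact p.2.2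
  · intro p p' h
    have h1 := congrArg Subtype.val h
    have h2 : φ p.1.1 = φ p'.1.1 := congrArg Prod.fst h1
    have h3 : φ p.1.2 = φ p'.1.2 := congrArg Prod.snd h1
    exact Subtype.ext (Prod.ext (hφ h2) (hφ h3))
  · rintro ⟨⟨x, y⟩, ⟨h1, h2⟩, ⟨a, ha⟩, ⟨b, hb⟩⟩
    change φ a = x at ha
    change φ b = y at hb
    subst ha hb
    refine ⟨⟨(a, b), ?_, ?_⟩, rfl⟩
    · change a * b = b * a
      apply hφ
      rw [map_mul, map_mul]
      exact h1
    · change ¬ ℓ ∣ orderOf a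
      rw [← orderOf_injective φ hφ]
      exact h2

theorem zp_iso (ℓ : ℕ) : IsoInv (fun K _ => zp ℓ K) := by
  rintro K K' _ _ ⟨e⟩
  have he : Function.Injective (e : K →* K') := e.injective
  change zp ℓ K = zp ℓ K'
  unfold zp
  refine clsum_transfer _ _ _ _ c5_inv' c5_inv' (c5_map (e : K →* K') he) ?_ ?_ ?_
  · intro σ σ'
    constructor
    · intro h
      obtain ⟨k, hk⟩ := (orbitRel_apply.1 h : σ ∈ orbit K σ')
      refine orbitRel_apply.2 ⟨e k, ?_⟩
      change (e : K →* K') k • _ = _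
      rw [c5_smul_map]
      exact congrArg _ hk
    · intro h
      obtain ⟨k', hk⟩ := (orbitRel_apply.1 h : _ ∈ orbit K' _)
      obtain ⟨k, rfl⟩ := e.surjective k'
      refine orbitRel_apply.2 ⟨k, ?_⟩
      change (e : K →* K') k • _ = _ at hk
      rw [c5_smul_map] at hk
      exact c5_map_inj _ he hk
  · intro τ _
    obtain ⟨σ, hσ⟩ := c5_map_surj (e : K →* K') he τ (fun X _ x _ => by
      obtain ⟨k, rfl⟩ := e.surjective x
      exact ⟨k, rfl⟩)
    refine ⟨σ, ?_⟩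
    rw [hσ]
  · intro σ
    rw [c5_len_map]
    congr 1
    refine lreg_iso ℓ _ _ ⟨(Subgroup.equivMapOfInjective (stabilizer K σ) (e : K →* K')
      he).trans (MulEquiv.subgroupCongr ?_)⟩
    ext x
    rw [Subgroup.mem_map]
    constructor
    · rintro ⟨k, hk, rfl⟩
      exact (c5_stab _ he σ k).2 hk
    · intro hx
      obtain ⟨k, rfl⟩ := e.surjective x
      exact ⟨k, (c5_stab _ he σ k).1 hx, rfl⟩

theorem card_mul_zp_sub (ℓ : ℕ) (H : Type) [Group H] [Finite H] (K : Subgroup H) :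
    (Nat.card K : ℤ) * zp ℓ K = ∑ᶠ τ : {τ : NChain ℓ H // ∀ X ∈ τ.1, X ≤ K}, (-1) ^ τ.1.len *
      (Nat.card {p : H × H // (p.1 * p.2 = p.2 * p.1 ∧ ¬ ℓ ∣ orderOf p.1) ∧
        p.1 ∈ K ⊓ stabilizer H τ.1 ∧ p.2 ∈ K ⊓ stabilizer H τ.1} : ℤ) := by
  unfold zp
  rw [card_mul_clsum _ (fun h σ => c5_inv h σ)]
  have hsub : Function.Injective K.subtype := K.subtype_injective
  let E : NChain ℓ K → {τ : NChain ℓ H // ∀ X ∈ τ.1, X ≤ K} := fun σ =>
    ⟨c5_map K.subtype hsub σ, by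
      rintro _ ⟨Y, hY, rfl⟩
      exact Subgroup.map_subtype_le Y⟩
  have hE : Function.Bijective E := by
    constructor
    · intro σ σ' h
      exact c5_map_inj _ hsub (congrArg Subtype.val h)
    · rintro ⟨τ, hτ⟩
      obtain ⟨σ, hσ⟩ := c5_map_surj K.subtype hsub τ (fun X hX => by
        rw [Subgroup.range_subtype]
        exact hτ X hX)
      exact ⟨σ, Subtype.ext hσ⟩
  rw [← finsum_comp_equiv (Equiv.ofBijective E hE)]
  refine finsum_congr fun σ => ?_
  have h1 := card_mul_lreg ℓ (stabilizer K σ)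
  have h2 := c5_card (ℓ := ℓ) (K.subtype.comp (stabilizer K σ).subtype)
    (hsub.comp (Subgroup.subtype_injective _))
    (K ⊓ stabilizer H (c5_map K.subtype hsub σ)) (by
      ext x
      constructor
      · rintro ⟨y, rfl⟩
        refine Subgroup.mem_inf.2 ⟨y.1.2, ?_⟩
        exact (c5_stab K.subtype hsub σ y.1).2 y.2
      · intro hx
        obtain ⟨hx1, hx2⟩ := Subgroup.mem_inf.1 hx
        exact ⟨⟨⟨x, hx1⟩, (c5_stab K.subtype hsub σ ⟨x, hx1⟩).1 hx2⟩, rfl⟩)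
  rw [h2] at h1
  change _ = (-1) ^ (c5_map K.subtype hsub σ).len * _
  rw [c5_len_map]
  have h3 : (Nat.card (stabilizer K σ) : ℤ) * ((-1) ^ σ.len * lreg ℓ (stabilizer K σ)) =
      (-1) ^ σ.len * ((Nat.card (stabilizer K σ) : ℤ) * lreg ℓ (stabilizer K σ)) := by ring
  rw [h3, h1]
  rfl

end Pool.FS95
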