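import Pool.Agent.LibFS95.C5
import Pool.Agent.LibFS95.E3

/-!
Row C6: two vanishing statements used in C7. EASY.

Plan. (a) `T = sSup τ ≠ ⊥` is a normal `ℓ`-subgroup of `B = T ⊔ closure {g,h}` (`g`, `h` normalise `T`, `mem_stab_normalizer`): so
`¬ OTriv ℓ B`, `eul_eq_zero`. (b) `B = closure {g,h}` is abelian and contains an element of order `ℓ` (a power of `g` or `h`),
which generates a normal `ℓ`-subgroup `≠ ⊥` of `B`.
-/

set_option autoImplicit false
noncomputable section
open MulAction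
namespace Pool.FS95

private theorem c6_not_otriv {ℓ : ℕ} {H : Type} [Group H] (T B : Subgroup H) (hTB : T ≤ B)
    (hT : IsPGroup ℓ T) (hT0 : T ≠ ⊥) (hN : B ≤ Subgroup.normalizer (T : Set H)) :
    ¬ OTriv ℓ B := by
  intro h
  have h1 := h (T.subgroupOf B) ((Subgroup.normal_subgroupOf_iff_le_normalizer hTB).2 hN)
    hT.comap_subtype
  rw [Subgroup.subgroupOf_eq_bot] at h1
  exact hT0 (h1.eq_bot_of_le hTB)

theorem eul_top_zero (ℓ : ℕ) [Fact ℓ.Prime] (H : Type) [Group H] [Finite H] (τ : NChain ℓ H)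
    (hτ : sSup τ.1 ≠ ⊥) (g h : H) (hg : g ∈ stabilizer H τ) (hh : h ∈ stabilizer H τ) :
    eul ℓ (sSup τ.1 ⊔ Subgroup.closure {g, h}) = 0 := by
  have hT : sSup τ.1 ∈ τ.1 := sSup_mem_of_total ⟨⊥, τ.2.bot_mem⟩ τ.2.total
  apply eul_eq_zero
  refine c6_not_otriv (sSup τ.1) _ le_sup_left (τ.2.isPGroup _ hT) hτ ?_
  refine sup_le Subgroup.le_normalizer ?_
  rw [Subgroup.closure_le]
  rintro x (rfl | rfl)
  · exact mem_stab_normalizer hg hT
  · exact mem_stab_normalizer hh hT

theorem eul_pair_zero (ℓ : ℕ) [Fact ℓ.Prime] (H : Type) [Group H] [Finite H] (g h : H)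
    (hgh : g * h = h * g) (hd : ℓ ∣ orderOf g ∨ ℓ ∣ orderOf h) :
    eul ℓ (Subgroup.closure {g, h}) = 0 := by
  have hℓ : ℓ.Prime := Fact.out
  obtain ⟨z, hz, hzd⟩ : ∃ z, (z = g ∨ z = h) ∧ ℓ ∣ orderOf z := by
    rcases hd with h1 | h1
    · exact ⟨g, Or.inl rfl, h1⟩
    · exact ⟨h, Or.inr rfl, h1⟩
  have hzm : z ∈ Subgroup.closure {g, h} := by
    apply Subgroup.subset_closure
    rcases hz with rfl | rfl
    · exact Set.mem_insert _ _
    · exact Set.mem_insert_of_mem _ rfl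
  obtain ⟨y, hy⟩ : ∃ y, y = z ^ (orderOf z / ℓ) := ⟨_, rfl⟩
  have hyo : orderOf y = ℓ := by
    rw [hy]
    exact orderOf_pow_orderOf_div (orderOf_pos z).ne' hzd
  have hgz : g * z = z * g := by
    rcases hz with rfl | rfl
    · rfl
    · exact hgh
  have hhz : h * z = z * h := by
    rcases hz with rfl | rfl
    · exact hgh.symm
    · rfl
  have hcomm : ∀ x : H, x * z = z * x → x ∈ Subgroup.normalizer ((Subgroup.zpowers y : Subgroup H) : Set H) := by
    intro x hx
    rw [← cj_eq_iff]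
    have h1 : x * y = y * x := by
      rw [hy]
      exact (Commute.pow_right (show Commute x z from hx) _)
    unfold cj
    rw [MonoidHom.map_zpowers]
    congr 1
    change x * y * x⁻¹ = y
    rw [h1, mul_inv_cancel_right]
  apply eul_eq_zero
  refine c6_not_otriv (Subgroup.zpowers y) _ ?_ ?_ ?_ ?_
  · rw [Subgroup.zpowers_le, hy]
    exact Subgroup.pow_mem _ hzm _
  · apply IsPGroup.of_card (n := 1)
    rw [Nat.card_zpowers, hyo, pow_one]
  · intro h1
    rw [Subgroup.zpowers_eq_bot] at h1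
    rw [h1, orderOf_one] at hyo
    exact hℓ.one_lt.ne hyo
  · rw [Subgroup.closure_le]
    rintro x (rfl | rfl)
    · exact hcomm _ hgz
    · exact hcomm _ hhz

theorem chain_sSup_bot {ℓ : ℕ} {H : Type} [Group H] [Finite H] (τ : NChain ℓ H) :
    sSup τ.1 = ⊥ ↔ τ.1 = {⊥} := by
  constructor
  · intro h
    ext X
    rw [Set.mem_singleton_iff]
    constructor
    · intro hX
      rw [eq_bot_iff, ← h]
      exact le_sSup hX
    · rintro rfl
      exact τ.2.bot_mem
  · intro h
    rw [h, sSup_singleton]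

end Pool.FS95
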