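import Pool.Agent.LibFS95.C6
import Pool.Agent.LibFS95.C1

/-!
Row C7: the formula for `W_{z'}`. STRONG (bookkeeping with finite sums).

Plan. C1 with `ζ = z'` (`zp_iso`), then C5 for `K = H_σ ⊓ H_y`:
`|H| W = ∑_σ ∑_y ∑_{τ, members ≤ K} (-1)^{len σ + len τ} #{(g,h) ∈ (K ⊓ H_τ)², commuting, g regular}`.
Exchange: for `τ` and a commuting pair `(g,h)` in `H_τ` (`g` regular) put `B = sSup τ ⊔ closure {g,h}`; the conditions on `(σ,y)`
are `B ≤ H_σ` and `B ≤ H_y` (`sSup τ ≤ K` iff all members `≤ K`). So the total is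
`∑_{τ,(g,h)} (-1)^{len τ} eul(B) * #{y // B ≤ H_y}`. For `sSup τ ≠ ⊥` this is `0` (`eul_top_zero`), so only `τ.1 = {⊥}` (length 0) remains,
`B = closure {g,h}`, and pairs with `h` not regular give `0` (`eul_pair_zero`).
`{y // closure {g,h} ≤ stabilizer H y}` is `{y // g • y = y ∧ h • y = y}`.
-/

set_option autoImplicit false
noncomputable section
open MulAction
namespace Pool.FS95

open Classical in
theorem c7_finsum {X : Type*} [Fintype X] (p : X → Prop) (f : X → ℤ) :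
    ∑ᶠ x : {x : X // p x}, f x.1 = ∑ x : X, if p x then f x else 0 := by
  rw [finsum_eq_sum_of_fintype]
  rw [← Finset.sum_filter]
  exact (Finset.sum_subtype (Finset.univ.filter p) (fun x => by simp) f).symm

open Classical in
theorem c7_card {X : Type*} [Fintype X] (p : X → Prop) :
    (Nat.card {x : X // p x} : ℤ) = ∑ x : X, if p x then (1 : ℤ) else 0 := by
  rw [Nat.card_eq_fintype_card, Fintype.card_subtype, Finset.card_filter]
  push_cast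
  rfl

theorem c7_swap {A B C D : Type*} [Fintype A] [Fintype B] [Fintype C] [Fintype D]
    (F : A → B → C → D → ℤ) :
    ∑ a, ∑ b, ∑ c, ∑ d, F a b c d = ∑ c, ∑ d, ∑ a, ∑ b, F a b c d := by
  calc ∑ a, ∑ b, ∑ c, ∑ d, F a b c d = ∑ a, ∑ c, ∑ b, ∑ d, F a b c d :=
        Finset.sum_congr rfl fun a _ => Finset.sum_comm
    _ = ∑ c, ∑ a, ∑ b, ∑ d, F a b c d := Finset.sum_comm
    _ = ∑ c, ∑ a, ∑ d, ∑ b, F a b c d :=
        Finset.sum_congr rfl fun c _ => Finset.sum_congr rfl fun a _ => Finset.sum_comm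
    _ = ∑ c, ∑ d, ∑ a, ∑ b, F a b c d := Finset.sum_congr rfl fun c _ => Finset.sum_comm

/-- the trivial chain -/
def c7bot (ℓ : ℕ) (H : Type*) [Group H] : NChain ℓ H :=
  ⟨{⊥}, {
    bot_mem := rfl
    isPGroup := by
      rintro X (rfl : X = ⊥)
      exact IsPGroup.of_bot
    total := by
      rintro X (rfl : X = ⊥) Y (rfl : Y = ⊥)
      exact Or.inl le_rfl
    normal := by
      rintro X (rfl : X = ⊥) Y (rfl : Y = ⊥) _
      exact bot_le }⟩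

theorem c7bot_len (ℓ : ℕ) (H : Type*) [Group H] : (c7bot ℓ H).len = 0 := by
  change ({⊥} : Set (Subgroup H)).ncard - 1 = 0
  rw [Set.ncard_singleton]

theorem c7bot_stab (ℓ : ℕ) (H : Type*) [Group H] (h : H) : h ∈ stabilizer H (c7bot ℓ H) := by
  rw [mem_stab_iff]
  change cj h '' ({⊥} : Set (Subgroup H)) = {⊥}
  rw [Set.image_singleton, cj_bot]

theorem c7bot_sSup (ℓ : ℕ) (H : Type*) [Group H] : sSup (c7bot ℓ H).1 = ⊥ := by
  change sSup ({⊥} : Set (Subgroup H)) = ⊥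
  exact sSup_singleton

open Classical in
theorem c7_eul (ℓ : ℕ) {H : Type} [Group H] [Fintype (NChain ℓ H)] (B : Subgroup H) :
    eul ℓ B = ∑ σ : NChain ℓ H, if B ≤ stabilizer H σ then (-1 : ℤ) ^ σ.len else 0 := by
  unfold eul
  exact c7_finsum (fun σ : NChain ℓ H => B ≤ stabilizer H σ) (fun σ => (-1 : ℤ) ^ σ.len)

open Classical in
/-- the weighted form of `z'(K)` as a sum of indicator functions -/
theorem c7_zp (ℓ : ℕ) {H : Type} [Group H] [Fintype H] [Fintype (NChain ℓ H)] (K : Subgroup H) :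
    (Nat.card K : ℤ) * zp ℓ K = ∑ τ : NChain ℓ H, ∑ p : H × H,
      if (∀ X ∈ τ.1, X ≤ K) ∧ (p.1 * p.2 = p.2 * p.1 ∧ ¬ ℓ ∣ orderOf p.1) ∧
        p.1 ∈ K ⊓ stabilizer H τ ∧ p.2 ∈ K ⊓ stabilizer H τ then (-1 : ℤ) ^ τ.len else 0 := by
  rw [card_mul_zp_sub]
  rw [c7_finsum (fun τ : NChain ℓ H => ∀ X ∈ τ.1, X ≤ K) (fun τ => (-1) ^ τ.len *
      (Nat.card {p : H × H // (p.1 * p.2 = p.2 * p.1 ∧ ¬ ℓ ∣ orderOf p.1) ∧
        p.1 ∈ K ⊓ stabilizer H τ ∧ p.2 ∈ K ⊓ stabilizer H τ} : ℤ))]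
  refine Finset.sum_congr rfl fun τ _ => ?_
  by_cases h : ∀ X ∈ τ.1, X ≤ K
  · rw [if_pos h, c7_card, Finset.mul_sum]
    refine Finset.sum_congr rfl fun p _ => ?_
    by_cases h2 : (p.1 * p.2 = p.2 * p.1 ∧ ¬ ℓ ∣ orderOf p.1) ∧
        p.1 ∈ K ⊓ stabilizer H τ ∧ p.2 ∈ K ⊓ stabilizer H τ
    · rw [if_pos h2, if_pos ⟨h, h2⟩, mul_one]
    · rw [if_neg h2, if_neg (fun h3 => h2 h3.2), mul_zero]
  · rw [if_neg h]
    symm
    refine Finset.sum_eq_zero fun p _ => ?_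
    rw [if_neg (fun h3 => h h3.1)]

open Classical in
theorem c7_inner (ℓ : ℕ) {H Y : Type} [Group H] [Fintype H] [MulAction H Y] [Fintype Y]
    [Fintype (NChain ℓ H)] (τ : NChain ℓ H) (p : H × H) :
    ∑ σ : NChain ℓ H, ∑ y : Y, (-1 : ℤ) ^ σ.len *
      (if (∀ X ∈ τ.1, X ≤ stabilizer H σ ⊓ stabilizer H y) ∧
        (p.1 * p.2 = p.2 * p.1 ∧ ¬ ℓ ∣ orderOf p.1) ∧
        p.1 ∈ (stabilizer H σ ⊓ stabilizer H y) ⊓ stabilizer H τ ∧
        p.2 ∈ (stabilizer H σ ⊓ stabilizer H y) ⊓ stabilizer H τ then (-1 : ℤ) ^ τ.len else 0) =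
      if (p.1 * p.2 = p.2 * p.1 ∧ ¬ ℓ ∣ orderOf p.1) ∧ p.1 ∈ stabilizer H τ ∧
        p.2 ∈ stabilizer H τ then
        (-1 : ℤ) ^ τ.len * (eul ℓ (sSup τ.1 ⊔ Subgroup.closure {p.1, p.2}) *
          (Nat.card {y : Y // sSup τ.1 ⊔ Subgroup.closure {p.1, p.2} ≤ stabilizer H y} : ℤ))
      else 0 := by
  set B := sSup τ.1 ⊔ Subgroup.closure {p.1, p.2} with hB
  have hBK : ∀ K : Subgroup H, B ≤ K ↔ (∀ X ∈ τ.1, X ≤ K) ∧ p.1 ∈ K ∧ p.2 ∈ K := by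
    intro K
    rw [hB, sup_le_iff, sSup_le_iff, Subgroup.closure_le]
    constructor
    · rintro ⟨h1, h2⟩
      exact ⟨h1, h2 (Set.mem_insert _ _), h2 (Set.mem_insert_of_mem _ rfl)⟩
    · rintro ⟨h1, h2, h3⟩
      refine ⟨h1, ?_⟩
      rintro x (rfl | rfl)
      · exact h2
      · exact h3
  by_cases hQ : (p.1 * p.2 = p.2 * p.1 ∧ ¬ ℓ ∣ orderOf p.1) ∧ p.1 ∈ stabilizer H τ ∧
        p.2 ∈ stabilizer H τ
  · rw [if_pos hQ, c7_eul, c7_card, Finset.sum_mul_sum, Finset.mul_sum]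
    refine Finset.sum_congr rfl fun σ _ => ?_
    rw [Finset.mul_sum]
    refine Finset.sum_congr rfl fun y _ => ?_
    by_cases h1 : B ≤ stabilizer H σ ⊓ stabilizer H y
    · have h2 := (hBK _).1 h1
      rw [if_pos ⟨h2.1, hQ.1, ⟨h2.2.1, hQ.2.1⟩, ⟨h2.2.2, hQ.2.2⟩⟩,
        if_pos (h1.trans inf_le_left), if_pos (h1.trans inf_le_right)]
      ring
    · rw [if_neg (fun h3 => h1 ((hBK _).2 ⟨h3.1, h3.2.2.1.1, h3.2.2.2.1⟩))]
      by_cases h4 : B ≤ stabilizer H σ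
      · rw [if_neg (fun h5 => h1 (le_inf h4 h5))]
        ring
      · rw [if_neg h4]
        ring
  · rw [if_neg hQ]
    refine Finset.sum_eq_zero fun σ _ => Finset.sum_eq_zero fun y _ => ?_
    rw [if_neg (fun h3 => hQ ⟨h3.2.1, h3.2.2.1.2, h3.2.2.2.2⟩), mul_zero]

theorem card_mul_W_zp (ℓ : ℕ) [Fact ℓ.Prime] (H Y : Type) [Group H] [Finite H] [MulAction H Y]
    [Finite Y] :
    (Nat.card H : ℤ) * W ℓ (fun K _ => zp ℓ K) H Y =
      ∑ᶠ p : {p : H × H // p.1 * p.2 = p.2 * p.1 ∧ ¬ ℓ ∣ orderOf p.1 ∧ ¬ ℓ ∣ orderOf p.2},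
        (Nat.card {y : Y // p.1.1 • y = y ∧ p.1.2 • y = y} : ℤ) *
          eul ℓ (Subgroup.closure {p.1.1, p.1.2}) := by
  classical
  haveI : Fintype H := Fintype.ofFinite H
  haveI : Fintype Y := Fintype.ofFinite Y
  haveI : Fintype (NChain ℓ H) := Fintype.ofFinite _
  rw [card_mul_W ℓ (zp_iso ℓ) H Y, finsum_eq_sum_of_fintype]
  have h1 : ∀ σ : NChain ℓ H, ∑ᶠ y : Y, (-1 : ℤ) ^ σ.len *
      ((Nat.card ↥(stabilizer H σ ⊓ stabilizer H y) : ℤ) *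
        zp ℓ ↥(stabilizer H σ ⊓ stabilizer H y)) =
      ∑ y : Y, ∑ τ : NChain ℓ H, ∑ p : H × H, (-1 : ℤ) ^ σ.len *
        (if (∀ X ∈ τ.1, X ≤ stabilizer H σ ⊓ stabilizer H y) ∧
        (p.1 * p.2 = p.2 * p.1 ∧ ¬ ℓ ∣ orderOf p.1) ∧
        p.1 ∈ (stabilizer H σ ⊓ stabilizer H y) ⊓ stabilizer H τ ∧
        p.2 ∈ (stabilizer H σ ⊓ stabilizer H y) ⊓ stabilizer H τ then (-1 : ℤ) ^ τ.len else 0) := by
    intro σ
    rw [finsum_eq_sum_of_fintype]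
    refine Finset.sum_congr rfl fun y _ => ?_
    rw [c7_zp, Finset.mul_sum]
    refine Finset.sum_congr rfl fun τ _ => ?_
    rw [Finset.mul_sum]
  rw [Finset.sum_congr rfl fun σ _ => h1 σ, c7_swap]
  rw [Finset.sum_congr rfl fun τ _ => Finset.sum_congr rfl fun p _ => c7_inner ℓ τ p]
  rw [Finset.sum_eq_single (c7bot ℓ H)]
  · rw [c7_finsum (fun p : H × H => p.1 * p.2 = p.2 * p.1 ∧ ¬ ℓ ∣ orderOf p.1 ∧ ¬ ℓ ∣ orderOf p.2)
      (fun p => (Nat.card {y : Y // p.1 • y = y ∧ p.2 • y = y} : ℤ) *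
          eul ℓ (Subgroup.closure {p.1, p.2}))]
    refine Finset.sum_congr rfl fun p _ => ?_
    rw [c7bot_len, c7bot_sSup, bot_sup_eq, pow_zero, one_mul]
    have hcard : (Nat.card {y : Y // Subgroup.closure {p.1, p.2} ≤ stabilizer H y} : ℤ) =
        (Nat.card {y : Y // p.1 • y = y ∧ p.2 • y = y} : ℤ) := by
      congr 1
      refine Nat.card_congr (Equiv.subtypeEquivRight fun y => ?_)
      rw [Subgroup.closure_le]
      constructor
      · intro h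
        exact ⟨h (Set.mem_insert _ _), h (Set.mem_insert_of_mem _ rfl)⟩
      · rintro ⟨h2, h3⟩ x (rfl | rfl)
        · exact h2
        · exact h3
    rw [hcard]
    by_cases hc : p.1 * p.2 = p.2 * p.1 ∧ ¬ ℓ ∣ orderOf p.1
    · rw [if_pos ⟨hc, c7bot_stab ℓ H _, c7bot_stab ℓ H _⟩]
      by_cases hr : ℓ ∣ orderOf p.2
      · rw [if_neg (fun h3 => h3.2.2 hr), eul_pair_zero ℓ H p.1 p.2 hc.1 (Or.inr hr), zero_mul]
      · rw [if_pos ⟨hc.1, hc.2, hr⟩, mul_comm]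
    · rw [if_neg (fun h3 => hc h3.1), if_neg (fun h3 => hc ⟨h3.1, h3.2.1⟩)]
  · intro τ _ hτ
    refine Finset.sum_eq_zero fun p _ => ?_
    by_cases hQ : (p.1 * p.2 = p.2 * p.1 ∧ ¬ ℓ ∣ orderOf p.1) ∧ p.1 ∈ stabilizer H τ ∧
        p.2 ∈ stabilizer H τ
    · rw [if_pos hQ, eul_top_zero ℓ H τ ?_ p.1 p.2 hQ.2.1 hQ.2.2, zero_mul, mul_zero]
      intro h0
      exact hτ (Subtype.ext (chain_sSup_bot τ |>.1 h0))
    · rw [if_neg hQ]
  · intro h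
    exact absurd (Finset.mem_univ _) h

theorem W_zp_congr (ℓ : ℕ) [Fact ℓ.Prime] (H Y Y' : Type) [Group H] [Finite H] [MulAction H Y]
    [Finite Y] [MulAction H Y'] [Finite Y']
    (h : ∀ g h : H, g * h = h * g → ¬ ℓ ∣ orderOf g → ¬ ℓ ∣ orderOf h →
      Nat.card {y : Y // g • y = y ∧ h • y = y} = Nat.card {y : Y' // g • y = y ∧ h • y = y}) :
    W ℓ (fun K _ => zp ℓ K) H Y = W ℓ (fun K _ => zp ℓ K) H Y' := by
  have h1 := card_mul_W_zp ℓ H Y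
  have h2 := card_mul_W_zp ℓ H Y'
  have h3 : (Nat.card H : ℤ) ≠ 0 := by
    have : Nat.card H ≠ 0 := Nat.card_pos.ne'
    exact_mod_cast this
  apply mul_left_cancel₀ h3
  rw [h1, h2]
  refine finsum_congr fun p => ?_
  rw [h p.1.1 p.1.2 p.2.1 p.2.2.1 p.2.2.2]

end Pool.FS95
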