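import Pool.Agent.LibFS95.C6
import Pool.Agent.LibFS95.G4

/-!
Row C8: `|H| z'(H) = ∑ eul(⟨g,h⟩)` over the commuting pairs of `ℓ`-regular elements.

Plan. G4 and C4: `|H| z'(H) = ∑_σ (-1)^{len} |H_σ| l(H_σ) = ∑_σ (-1)^{len} #{(g,h) ∈ H_σ², commuting, g regular}` (invariance of
`σ ↦ (-1)^{len} l(H_σ)`: conjugate stabilisers, `lreg_iso`); exchange the sums: `g, h ∈ H_σ` iff `closure {g,h} ≤ H_σ`;
pairs with `h` not regular give `0` (`eul_pair_zero`). (Or `card_mul_zp_sub` with `K = ⊤`.)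
-/

set_option autoImplicit false
noncomputable section
open MulAction
namespace Pool.FS95

private theorem c8_sub {α : Type*} [Fintype α] (p : α → Prop) [DecidablePred p] (g : α → ℤ) :
    ∑ᶠ a : {a // p a}, g a.1 = ∑ a, if p a then g a else 0 := by
  rw [finsum_eq_sum_of_fintype, ← Finset.sum_filter]
  exact (Finset.sum_subtype (Finset.univ.filter p) (fun x => by simp) g).symm

private theorem c8_card {α : Type*} [Fintype α] (p : α → Prop) [DecidablePred p] :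
    (Nat.card {a // p a} : ℤ) = ∑ a, if p a then (1 : ℤ) else 0 := by
  rw [Nat.card_eq_fintype_card, Fintype.card_subtype, Finset.card_filter]
  push_cast
  rfl

private theorem c8_closure {H : Type} [Group H] (K : Subgroup H) (g h : H) :
    Subgroup.closure {g, h} ≤ K ↔ g ∈ K ∧ h ∈ K := by
  rw [Subgroup.closure_le, Set.insert_subset_iff, Set.singleton_subset_iff]
  rfl

theorem card_mul_zp (ℓ : ℕ) [Fact ℓ.Prime] (H : Type) [Group H] [Finite H] :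
    (Nat.card H : ℤ) * zp ℓ H =
      ∑ᶠ p : {p : H × H // p.1 * p.2 = p.2 * p.1 ∧ ¬ ℓ ∣ orderOf p.1 ∧ ¬ ℓ ∣ orderOf p.2},
        eul ℓ (Subgroup.closure {p.1.1, p.1.2}) := by
  classical
  have : Fintype H := Fintype.ofFinite H
  have : Fintype (NChain ℓ H) := Fintype.ofFinite _
  have h1 : zp ℓ ↥(⊤ : Subgroup H) = zp ℓ H := zp_iso ℓ _ _ ⟨Subgroup.topEquiv⟩
  have h2 : Nat.card ↥(⊤ : Subgroup H) = Nat.card H := Nat.card_congr Subgroup.topEquiv.toEquiv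
  have h3 := card_mul_zp_sub ℓ H ⊤
  rw [h1, h2] at h3
  rw [h3, c8_sub (fun τ : NChain ℓ H => ∀ X ∈ τ.1, X ≤ (⊤ : Subgroup H))
    (fun τ : NChain ℓ H => (-1) ^ τ.len * (Nat.card {p : H × H // (p.1 * p.2 = p.2 * p.1 ∧
      ¬ ℓ ∣ orderOf p.1) ∧ p.1 ∈ (⊤ : Subgroup H) ⊓ stabilizer H τ ∧
        p.2 ∈ (⊤ : Subgroup H) ⊓ stabilizer H τ} : ℤ))]
  rw [c8_sub (fun p : H × H => p.1 * p.2 = p.2 * p.1 ∧ ¬ ℓ ∣ orderOf p.1 ∧ ¬ ℓ ∣ orderOf p.2)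
    (fun p : H × H => eul ℓ (Subgroup.closure {p.1, p.2}))]
  have h4 : ∀ τ : NChain ℓ H, ∀ X ∈ τ.1, X ≤ (⊤ : Subgroup H) := fun τ X _ => le_top
  rw [Finset.sum_congr rfl fun τ _ => if_pos (h4 τ)]
  simp only [top_inf_eq]
  have h5 : ∀ τ : NChain ℓ H, (-1 : ℤ) ^ τ.len * (Nat.card {p : H × H // (p.1 * p.2 = p.2 * p.1 ∧
      ¬ ℓ ∣ orderOf p.1) ∧ p.1 ∈ stabilizer H τ ∧ p.2 ∈ stabilizer H τ} : ℤ) =
      ∑ p : H × H, (-1 : ℤ) ^ τ.len * (if (p.1 * p.2 = p.2 * p.1 ∧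
      ¬ ℓ ∣ orderOf p.1) ∧ p.1 ∈ stabilizer H τ ∧ p.2 ∈ stabilizer H τ then 1 else 0) := by
    intro τ
    rw [c8_card (fun p : H × H => (p.1 * p.2 = p.2 * p.1 ∧
      ¬ ℓ ∣ orderOf p.1) ∧ p.1 ∈ stabilizer H τ ∧ p.2 ∈ stabilizer H τ), Finset.mul_sum]
  rw [Finset.sum_congr rfl fun τ _ => h5 τ, Finset.sum_comm]
  refine Finset.sum_congr rfl fun p _ => ?_
  by_cases hc : p.1 * p.2 = p.2 * p.1 ∧ ¬ ℓ ∣ orderOf p.1
  · have h6 : eul ℓ (Subgroup.closure {p.1, p.2}) = ∑ τ : NChain ℓ H,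
        (if Subgroup.closure {p.1, p.2} ≤ stabilizer H τ then (-1 : ℤ) ^ τ.len else 0) := by
      unfold eul
      exact c8_sub (fun σ : NChain ℓ H => Subgroup.closure {p.1, p.2} ≤ stabilizer H σ)
        (fun σ => (-1) ^ σ.len)
    have h7 : ∑ τ : NChain ℓ H, (-1 : ℤ) ^ τ.len * (if (p.1 * p.2 = p.2 * p.1 ∧
        ¬ ℓ ∣ orderOf p.1) ∧ p.1 ∈ stabilizer H τ ∧ p.2 ∈ stabilizer H τ then 1 else 0) =
        eul ℓ (Subgroup.closure {p.1, p.2}) := by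
      rw [h6]
      refine Finset.sum_congr rfl fun τ _ => ?_
      rw [c8_closure]
      by_cases h8 : p.1 ∈ stabilizer H τ ∧ p.2 ∈ stabilizer H τ
      · rw [if_pos ⟨hc, h8⟩, if_pos h8, mul_one]
      · rw [if_neg (fun h9 => h8 h9.2), if_neg h8, mul_zero]
    rw [h7]
    by_cases h8 : ℓ ∣ orderOf p.2
    · rw [if_neg (fun h9 => h9.2.2 h8)]
      exact eul_pair_zero ℓ H p.1 p.2 hc.1 (Or.inr h8)
    · rw [if_pos ⟨hc.1, hc.2, h8⟩]
  · rw [if_neg (fun h9 => hc ⟨h9.1, h9.2.1⟩)]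
    apply Finset.sum_eq_zero
    intro τ _
    rw [if_neg (fun h9 => hc h9.1), mul_zero]

end Pool.FS95
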