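import Mathlib

/-!
# MP_a4c8ee_al: definitions

`ℓ` is a prime, `k` an algebraically closed field of characteristic `ℓ`, all groups are finite.

* `zproj k H`  = number of isomorphism classes of projective simple `kH`-modules (`z(kH)`).
* `NChain ℓ H` = chains `1 = X_0 < X_1 < ... < X_m` of `ℓ`-subgroups of `H`, all normal in `X_m`.
* `W ℓ ζ H Y`  = `∑_{σ ∈ NChain/H} (-1)^{|σ|} ∑_{y ∈ Y/H_σ} ζ(H_{σ,y})`.
* `FusionSystem`, `Saturated`, `OutF`, `Centric`, `Radical`, `cent` (centraliser fusion system).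
* `mD`, `m`, `wF`, `kF` : the invariants `m(F,d)`, `m(F)`, `w(F)`, `k(F)`.
* `AWCfor ℓ k G` : Alperin's weight conjecture in number form for `G`.
-/

set_option autoImplicit false

noncomputable section

open MulAction

namespace Pool.FS95

/-! ## Sums over classes -/

/-- `∑_{x ∈ X/~} f(x)`, one representative for every class. -/
def clsum {X : Type*} (r : Setoid X) (f : X → ℤ) : ℤ := ∑ᶠ q : Quotient r, f (Quotient.out q)

/-! ## Projective simple modules -/

/-- The maximal left ideals `I` of `kH` for which the simple module `kH/I` is projective. Every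
simple `kH`-module is isomorphic to some `kH/I`. -/
def ProjSimple (k H : Type) [Field k] [Group H] : Type :=
  {I : Submodule (MonoidAlgebra k H) (MonoidAlgebra k H) //
    IsSimpleModule (MonoidAlgebra k H) (MonoidAlgebra k H ⧸ I) ∧
      Module.Projective (MonoidAlgebra k H) (MonoidAlgebra k H ⧸ I)}

/-- Isomorphism of the modules `kH/I` and `kH/J`. -/
def projSimpleSetoid (k H : Type) [Field k] [Group H] : Setoid (ProjSimple k H) where
  r I J := Nonempty ((MonoidAlgebra k H ⧸ I.1) ≃ₗ[MonoidAlgebra k H] (MonoidAlgebra k H ⧸ J.1))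
  iseqv := ⟨fun _ => ⟨LinearEquiv.refl _ _⟩, fun ⟨e⟩ => ⟨e.symm⟩, fun ⟨e⟩ ⟨f⟩ => ⟨e.trans f⟩⟩

/-- `z(kH)`: the number of isomorphism classes of projective simple `kH`-modules. -/
def zproj (k H : Type) [Field k] [Group H] : ℤ := (Nat.card (Quotient (projSimpleSetoid k H)) : ℤ)

/-! ## Normal chains of `ℓ`-subgroups -/

/-- The conjugate `h X h⁻¹`. -/
def cj {H : Type*} [Group H] (h : H) (X : Subgroup H) : Subgroup H :=
  X.map (MulAut.conj h).toMonoidHom

theorem mem_cj {H : Type*} [Group H] {h : H} {X : Subgroup H} {z : H} :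
    z ∈ cj h X ↔ ∃ x ∈ X, h * x * h⁻¹ = z := by
  simp [cj, Subgroup.mem_map, MulAut.conj_apply]

theorem cj_one {H : Type*} [Group H] (X : Subgroup H) : cj 1 X = X := by
  ext z; simp [mem_cj]

theorem cj_mul {H : Type*} [Group H] (g h : H) (X : Subgroup H) : cj (g * h) X = cj g (cj h X) := by
  ext z
  simp only [mem_cj]
  constructor
  · rintro ⟨x, hx, rfl⟩
    exact ⟨h * x * h⁻¹, ⟨x, hx, rfl⟩, by group⟩
  · rintro ⟨y, ⟨x, hx, rfl⟩, rfl⟩
    exact ⟨x, hx, by group⟩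

/-- A set `σ` of subgroups of `H` is (the set of members of) a normal chain: it contains `1`, it is
totally ordered, its members are `ℓ`-groups and every member is normal in the larger ones
(equivalently, in the largest one). -/
structure IsNChain (ℓ : ℕ) {H : Type*} [Group H] (σ : Set (Subgroup H)) : Prop where
  bot_mem : (⊥ : Subgroup H) ∈ σ
  isPGroup : ∀ X ∈ σ, IsPGroup ℓ X
  total : ∀ X ∈ σ, ∀ Y ∈ σ, X ≤ Y ∨ Y ≤ X
  normal : ∀ X ∈ σ, ∀ Y ∈ σ, X ≤ Y → Y ≤ Subgroup.normalizer (X : Set H)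

/-- Normal chains of `ℓ`-subgroups of `H`. -/
def NChain (ℓ : ℕ) (H : Type*) [Group H] : Type _ := {σ : Set (Subgroup H) // IsNChain ℓ σ}

/-- The length `m` of the chain `X_0 < ... < X_m`. -/
def NChain.len {ℓ : ℕ} {H : Type*} [Group H] (σ : NChain ℓ H) : ℕ := σ.1.ncard - 1

theorem cj_bot {H : Type*} [Group H] (h : H) : cj h (⊥ : Subgroup H) = ⊥ := by
  simp [cj]

theorem cj_mono {H : Type*} [Group H] (h : H) {X Y : Subgroup H} (hXY : X ≤ Y) :
    cj h X ≤ cj h Y := Subgroup.map_mono hXY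

theorem cj_le_cj {H : Type*} [Group H] (h : H) {X Y : Subgroup H} :
    cj h X ≤ cj h Y ↔ X ≤ Y := by
  constructor
  · intro hh
    have := cj_mono h⁻¹ hh
    rwa [← cj_mul, ← cj_mul, inv_mul_cancel, cj_one, cj_one] at this
  · exact cj_mono h

theorem isNChain_cj {ℓ : ℕ} {H : Type*} [Group H] {σ : Set (Subgroup H)} (hσ : IsNChain ℓ σ)
    (h : H) : IsNChain ℓ (cj h '' σ) where
  bot_mem := ⟨⊥, hσ.bot_mem, cj_bot h⟩
  isPGroup := by
    rintro _ ⟨X, hX, rfl⟩
    exact (hσ.isPGroup X hX).map _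
  total := by
    rintro _ ⟨X, hX, rfl⟩ _ ⟨Y, hY, rfl⟩
    rcases hσ.total X hX Y hY with h1 | h1
    · exact Or.inl (cj_mono h h1)
    · exact Or.inr (cj_mono h h1)
  normal := by
    rintro _ ⟨X, hX, rfl⟩ _ ⟨Y, hY, rfl⟩ hXY
    have hXY' : X ≤ Y := (cj_le_cj h).1 hXY
    have h2 := hσ.normal X hX Y hY hXY'
    intro z hz
    rw [mem_cj] at hz
    obtain ⟨y, hy, rfl⟩ := hz
    have hy2 := h2 hy
    rw [Subgroup.mem_normalizer_iff] at hy2 ⊢
    intro w
    constructor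
    · intro hw
      rw [mem_cj] at hw ⊢
      obtain ⟨x, hx, rfl⟩ := hw
      exact ⟨y * x * y⁻¹, (hy2 x).1 hx, by group⟩
    · intro hw
      rw [mem_cj] at hw ⊢
      obtain ⟨x, hx, hxe⟩ := hw
      refine ⟨h⁻¹ * w * h, (hy2 _).2 ?_, by group⟩
      have : y * (h⁻¹ * w * h) * y⁻¹ = x := by
        have h3 : x = h⁻¹ * (h * y * h⁻¹ * w * (h * y * h⁻¹)⁻¹) * h := by rw [← hxe]; group
        rw [h3]; group
      rw [this]; exact hx

instance {ℓ : ℕ} {H : Type*} [Group H] : MulAction H (NChain ℓ H) where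
  smul h σ := ⟨cj h '' σ.1, isNChain_cj σ.2 h⟩
  one_smul σ := by
    apply Subtype.ext
    change cj 1 '' σ.1 = σ.1
    have : (cj (1 : H)) = id := by funext X; exact cj_one X
    rw [this, Set.image_id]
  mul_smul g h σ := by
    apply Subtype.ext
    change cj (g * h) '' σ.1 = cj g '' (cj h '' σ.1)
    rw [Set.image_image]
    congr 1
    funext X; exact cj_mul g h X

theorem smul_val {ℓ : ℕ} {H : Type*} [Group H] (h : H) (σ : NChain ℓ H) :
    (h • σ).1 = cj h '' σ.1 := rfl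

/-- `∑_{σ ∈ N/H} (-1)^{|σ|} ∑_{y ∈ Y/H_σ} ζ(H_{σ,y})` for a finite group `H` acting on a finite set `Y`;
`N` is the set of normal chains of `ℓ`-subgroups of `H`, `H_σ` is the stabiliser of `σ` and
`H_{σ,y}` the stabiliser of `y` in `H_σ`. -/
def W (ℓ : ℕ) (ζ : ∀ (K : Type) [Group K], ℤ) (H Y : Type) [Group H] [MulAction H Y] : ℤ :=
  clsum (orbitRel H (NChain ℓ H)) fun σ =>
    (-1) ^ σ.len * clsum (orbitRel (stabilizer H σ) Y) fun y => ζ (stabilizer (stabilizer H σ) y)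

/-! ## `ℓ`-cores, `ℓ`-regular classes, Alperin's weight conjecture -/

/-- `O_ℓ(H) = 1`: `H` has no non-trivial normal `ℓ`-subgroup. -/
def OTriv (ℓ : ℕ) (H : Type*) [Group H] : Prop :=
  ∀ N : Subgroup H, N.Normal → IsPGroup ℓ N → N = ⊥

/-- Number of conjugacy classes of elements of order prime to `ℓ`. -/
def lreg (ℓ : ℕ) (G : Type) [Group G] : ℤ :=
  (Nat.card {c : ConjClasses G // ∃ g, ConjClasses.mk g = c ∧ ¬ ℓ ∣ orderOf g} : ℤ)

/-- Conjugacy of `ℓ`-subgroups. -/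
def lsubSetoid (ℓ : ℕ) (G : Type) [Group G] : Setoid {Q : Subgroup G // IsPGroup ℓ Q} where
  r Q R := ∃ g : G, cj g Q.1 = R.1
  iseqv :=
    ⟨fun Q => ⟨1, cj_one _⟩,
     fun {Q R} ⟨g, h⟩ => ⟨g⁻¹, by rw [← h, ← cj_mul, inv_mul_cancel, cj_one]⟩,
     fun {Q R T} ⟨g, h⟩ ⟨g', h'⟩ => ⟨g' * g, by rw [cj_mul, h, h']⟩⟩

/-- `N_G(Q)/Q`. -/
abbrev NQ {G : Type} [Group G] (Q : Subgroup G) : Type :=
  ↥(Subgroup.normalizer (Q : Set G)) ⧸ (Q.subgroupOf (Subgroup.normalizer (Q : Set G)))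

instance {G : Type} [Group G] (Q : Subgroup G) :
    (Q.subgroupOf (Subgroup.normalizer (Q : Set G))).Normal := Subgroup.normal_in_normalizer

/-- Alperin's weight conjecture (number form) for the group `G`: the number of `ℓ`-regular classes
of `G` (= the number of simple `kG`-modules) is the number of `ℓ`-weights
`∑_{Q ∈ {ℓ-subgroups}/G} z(k N_G(Q)/Q)`. -/
def AWCfor (ℓ : ℕ) (k : Type) [Field k] (G : Type) [Group G] : Prop :=
  lreg ℓ G = clsum (lsubSetoid ℓ G) fun Q => zproj k (NQ Q.1)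

/-! ## Fusion systems -/

/-- A fusion system on `S`: a category whose objects are the subgroups of `S`, whose morphisms are
injective homomorphisms, which contains the conjugations by elements of `S`, and in which every
morphism is the composite of an isomorphism of the category and an inclusion. -/
structure FusionSystem (S : Type) [Group S] where
  /-- the morphisms `P → Q` -/
  Hom : (P Q : Subgroup S) → Set (P →* Q)
  inj : ∀ {P Q : Subgroup S} {φ : P →* Q}, φ ∈ Hom P Q → Function.Injective φ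
  conj_mem : ∀ (P Q : Subgroup S) (s : S) (φ : P →* Q), (∀ x : P, (φ x : S) = s * x * s⁻¹) →
    φ ∈ Hom P Q
  comp_mem : ∀ {P Q R : Subgroup S} {φ : P →* Q} {ψ : Q →* R}, φ ∈ Hom P Q → ψ ∈ Hom Q R →
    ψ.comp φ ∈ Hom P R
  factor : ∀ {P Q : Subgroup S} {φ : P →* Q}, φ ∈ Hom P Q → ∀ (R : Subgroup S) (e : P ≃* R),
    (∀ x : P, (e x : S) = φ x) → e.toMonoidHom ∈ Hom P R ∧ e.symm.toMonoidHom ∈ Hom R P

namespace FusionSystem

variable {S : Type} [Group S] (F : FusionSystem S)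

/-- The isomorphisms `P → Q` of the fusion system. -/
def Iso (P Q : Subgroup S) : Set (P ≃* Q) := {e | e.toMonoidHom ∈ F.Hom P Q}

theorem iso_refl (P : Subgroup S) : MulEquiv.refl P ∈ F.Iso P P :=
  F.conj_mem P P 1 _ (fun x => by simp)

theorem iso_conj {P Q : Subgroup S} (s : S) (e : P ≃* Q) (h : ∀ x : P, (e x : S) = s * x * s⁻¹) :
    e ∈ F.Iso P Q := F.conj_mem P Q s _ h

theorem iso_symm {P Q : Subgroup S} {e : P ≃* Q} (h : e ∈ F.Iso P Q) : e.symm ∈ F.Iso Q P :=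
  (F.factor h Q e (fun _ => rfl)).2

theorem iso_trans {P Q R : Subgroup S} {e : P ≃* Q} {f : Q ≃* R} (he : e ∈ F.Iso P Q)
    (hf : f ∈ F.Iso Q R) : e.trans f ∈ F.Iso P R := F.comp_mem he hf

theorem iso_restrict {P Q : Subgroup S} {e : P ≃* Q} (h : e ∈ F.Iso P Q) {P' Q' : Subgroup S}
    (hP : P' ≤ P) (e' : P' ≃* Q') (h' : ∀ x : P', (e' x : S) = e ⟨x, hP x.2⟩) :
    e' ∈ F.Iso P' Q' := by
  have h1 : Subgroup.inclusion hP ∈ F.Hom P' P := F.conj_mem P' P 1 _ (fun x => by simp)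
  exact (F.factor (F.comp_mem h1 h) Q' e' h').1

/-- `F`-conjugacy of subgroups. -/
def Conj (P Q : Subgroup S) : Prop := (F.Iso P Q).Nonempty

/-- `Aut_F(P)`. -/
def AutF (P : Subgroup S) : Subgroup (MulAut P) where
  carrier := F.Iso P P
  mul_mem' := fun ha hb => F.iso_trans hb ha
  one_mem' := F.iso_refl P
  inv_mem' := fun ha => F.iso_symm ha

/-- `Aut_S(P)`: the automorphisms of `P` induced by elements of `N_S(P)`. -/
def AutS (P : Subgroup S) : Subgroup (MulAut P) where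
  carrier := {α | ∃ g : S, ∀ x : P, (α x : S) = g * x * g⁻¹}
  mul_mem' := by
    rintro a b ⟨g, hg⟩ ⟨h, hh⟩
    refine ⟨g * h, fun x => ?_⟩
    change ((a (b x) : P) : S) = _
    rw [hg, hh]; group
  one_mem' := ⟨1, fun x => by simp⟩
  inv_mem' := by
    rintro a ⟨g, hg⟩
    refine ⟨g⁻¹, fun x => ?_⟩
    have := hg (a⁻¹ x)
    have h2 : a (a⁻¹ x) = x := MulAut.apply_inv_self _ a x
    rw [h2] at this
    rw [this]; group

/-- `Inn(P)`. -/
def inn (P : Type*) [Group P] : Subgroup (MulAut P) := (MulAut.conj : P →* MulAut P).range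

instance inn_normal (P : Type*) [Group P] : (inn P).Normal := by
  constructor
  rintro _ ⟨p, rfl⟩ α
  refine ⟨α p, ?_⟩
  ext x
  simp [MulAut.conj_apply, MulAut.mul_apply]

/-- `T/(T ∩ Inn(P))` for a group `T` of automorphisms of `P`. -/
abbrev outq {P : Type} [Group P] (T : Subgroup (MulAut P)) : Type := ↥T ⧸ (inn P).subgroupOf T

/-- The quotient group structure of `T/(T ∩ Inn(P))`. -/
instance outqGroup {P : Type} [Group P] (T : Subgroup (MulAut P)) : Group (outq T) :=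
  QuotientGroup.Quotient.group ((inn P).subgroupOf T)

/-- `Out_F(P) = Aut_F(P)/Inn(P)`. -/
abbrev OutF (P : Subgroup S) : Type := outq (F.AutF P)

/-- `P` is fully `F`-normalised. -/
def FullyNormalized (P : Subgroup S) : Prop :=
  ∀ Q, F.Conj P Q → Nat.card (Subgroup.normalizer (Q : Set S)) ≤
    Nat.card (Subgroup.normalizer (P : Set S))

/-- `P` is fully `F`-centralised. -/
def FullyCentralized (P : Subgroup S) : Prop :=
  ∀ Q, F.Conj P Q → Nat.card (Subgroup.centralizer (Q : Set S)) ≤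
    Nat.card (Subgroup.centralizer (P : Set S))

/-- `N_φ = {g ∈ N_S(P) : φ c_g φ⁻¹ ∈ Aut_S(Q)}` for an isomorphism `φ : P → Q`. -/
def Nphi {P Q : Subgroup S} (e : P ≃* Q) : Subgroup S where
  carrier := {g | g ∈ Subgroup.normalizer (P : Set S) ∧
    ∃ g' ∈ Subgroup.normalizer (Q : Set S), ∀ x y : P, (y : S) = g * x * g⁻¹ →
      (e y : S) = g' * e x * g'⁻¹}
  mul_mem' := by
    rintro a b ⟨ha, a', ha', h1⟩ ⟨hb, b', hb', h2⟩
    refine ⟨mul_mem ha hb, a' * b', mul_mem ha' hb', fun x y hxy => ?_⟩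
    have hm : b * x * b⁻¹ ∈ P := (Subgroup.mem_normalizer_iff.1 hb x).1 x.2
    have e1 := h2 x ⟨b * x * b⁻¹, hm⟩ rfl
    have e2 := h1 ⟨b * x * b⁻¹, hm⟩ y (by rw [hxy]; group)
    rw [e2, e1]; group
  one_mem' := ⟨one_mem _, 1, one_mem _, fun x y hxy => by
    have : y = x := Subtype.ext (by simpa using hxy)
    simp [this]⟩
  inv_mem' := by
    rintro a ⟨ha, a', ha', h1⟩
    refine ⟨inv_mem ha, a'⁻¹, inv_mem ha', fun x y hxy => ?_⟩
    have := h1 y x (by rw [hxy]; group)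
    rw [this]; group

/-- `F` is saturated (Broto-Levi-Oliver): fully normalised subgroups `P` are fully centralised and
`Aut_S(P)` is a Sylow `ℓ`-subgroup of `Aut_F(P)`; every isomorphism `φ : P → Q` of `F` with `Q`
fully centralised extends to a morphism `N_φ → S` of `F`. -/
structure Saturated (ℓ : ℕ) : Prop where
  sylow : ∀ P, F.FullyNormalized P →
    F.FullyCentralized P ∧ ¬ ℓ ∣ (AutS P).relIndex (F.AutF P)
  ext : ∀ (P Q : Subgroup S) (e : P ≃* Q), e ∈ F.Iso P Q → F.FullyCentralized Q →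
    ∃ ψ ∈ F.Hom (Nphi e) ⊤, ∀ (x : P) (hx : (x : S) ∈ Nphi e), (ψ ⟨x, hx⟩ : S) = e x

/-- `P` is `F`-centric. -/
def Centric (P : Subgroup S) : Prop :=
  ∀ Q, F.Conj P Q → Subgroup.centralizer (Q : Set S) ≤ Q

/-- `P` is `F`-radical. -/
def Radical (ℓ : ℕ) (P : Subgroup S) : Prop := OTriv ℓ (F.OutF P)

/-- The `F`-centric radical subgroups. -/
def CR (ℓ : ℕ) : Type := {P : Subgroup S // F.Centric P ∧ F.Radical ℓ P}

theorem conj_refl (P : Subgroup S) : F.Conj P P := ⟨_, F.iso_refl P⟩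
theorem conj_symm {P Q : Subgroup S} (h : F.Conj P Q) : F.Conj Q P := by
  obtain ⟨e, he⟩ := h; exact ⟨_, F.iso_symm he⟩
theorem conj_trans {P Q R : Subgroup S} (h : F.Conj P Q) (h' : F.Conj Q R) : F.Conj P R := by
  obtain ⟨e, he⟩ := h; obtain ⟨f, hf⟩ := h'; exact ⟨_, F.iso_trans he hf⟩

/-- `F`-conjugacy on a set of subgroups. -/
def subSetoid (p : Subgroup S → Prop) : Setoid {P : Subgroup S // p P} where
  r P Q := F.Conj P.1 Q.1
  iseqv := ⟨fun _ => F.conj_refl _, F.conj_symm, F.conj_trans⟩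

/-- `∑_{P ∈ F^{cr}/F} ζ(Out_F(P))`. -/
def wζ (ℓ : ℕ) (ζ : ∀ (K : Type) [Group K], ℤ) : ℤ :=
  clsum (F.subSetoid fun P => F.Centric P ∧ F.Radical ℓ P) fun P => ζ (F.OutF P.1)

/-- `w(F) = ∑_{P ∈ F^{cr}/F} z(k Out_F(P))`. -/
def w (ℓ : ℕ) (k : Type) [Field k] : ℤ := F.wζ ℓ (fun K _ => zproj k K)

end FusionSystem

/-! ## Actions of automorphism groups -/

/-- The action of `Aut(P)` on the conjugacy classes of `P`. -/
instance {P : Type} [Group P] : MulAction (MulAut P) (ConjClasses P) where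
  smul α c := ConjClasses.map α.toMonoidHom c
  one_smul c := by
    induction c using Quotient.inductionOn with
    | h a => rfl
  mul_smul α β c := by
    induction c using Quotient.inductionOn with
    | h a => rfl

theorem smul_mk {P : Type} [Group P] (α : MulAut P) (x : P) :
    α • ConjClasses.mk x = ConjClasses.mk (α x) := rfl

/-- `Irr(P)`: the irreducible complex characters of `P`. -/
def Irr (P : Type) [Group P] : Type :=
  {χ : P → ℂ // ∃ (n : ℕ) (ρ : Representation ℂ P (Fin n → ℂ)), ρ.IsIrreducible ∧ ρ.character = χ}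

theorem irr_comp {P : Type} [Group P] (α : MulAut P) (χ : Irr P) :
    ∃ (n : ℕ) (ρ : Representation ℂ P (Fin n → ℂ)), ρ.IsIrreducible ∧
      ρ.character = fun x => χ.1 (α⁻¹ x) := by
  obtain ⟨n, ρ, hρ, h⟩ := χ.2
  let σ : Representation ℂ P (Fin n → ℂ) := ρ.comp (α⁻¹).toMonoidHom
  have hσ : ∀ g, σ g = ρ (α⁻¹ g) := fun g => rfl
  let e : Subrepresentation σ ≃o Subrepresentation ρ :=
    { toFun := fun s => ⟨s.toSubmodule, fun g v hv => by
        have := s.apply_mem_toSubmodule (α g) hv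
        rw [hσ, MulAut.inv_apply_self] at this
        exact this⟩
      invFun := fun s => ⟨s.toSubmodule, fun g v hv => s.apply_mem_toSubmodule (α⁻¹ g) hv⟩
      left_inv := fun s => rfl
      right_inv := fun s => rfl
      map_rel_iff' := Iff.rfl }
  refine ⟨n, σ, e.isSimpleOrder, ?_⟩
  funext x
  rw [← h]
  rfl

/-- The action of `Aut(P)` on `Irr(P)`: `(α χ)(x) = χ(α⁻¹(x))`. -/
instance {P : Type} [Group P] : MulAction (MulAut P) (Irr P) where
  smul α χ := ⟨fun x => χ.1 (α⁻¹ x), irr_comp α χ⟩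
  one_smul χ := by
    apply Subtype.ext; funext x
    change χ.1 ((1 : MulAut P)⁻¹ x) = χ.1 x
    rw [inv_one]; rfl
  mul_smul α β χ := by
    apply Subtype.ext; funext x
    change χ.1 ((α * β)⁻¹ x) = χ.1 (β⁻¹ (α⁻¹ x))
    rw [mul_inv_rev]; rfl

/-- An action of `Aut(P)` on which the inner automorphisms act trivially. -/
class InnTriv (P Y : Type) [Group P] [MulAction (MulAut P) Y] : Prop where
  triv : ∀ (p : P) (y : Y), MulAut.conj p • y = y

instance {P : Type} [Group P] : InnTriv P (ConjClasses P) where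
  triv := by
    intro p c
    induction c using Quotient.inductionOn with
    | h a =>
      change ConjClasses.mk (MulAut.conj p a) = ConjClasses.mk a
      rw [ConjClasses.mk_eq_mk_iff_isConj]
      exact (isConj_iff.2 ⟨p, rfl⟩ : IsConj a (MulAut.conj p a)).symm

instance {P : Type} [Group P] : InnTriv P (Irr P) where
  triv := by
    intro p χ
    apply Subtype.ext; funext x
    change χ.1 ((MulAut.conj p)⁻¹ x) = χ.1 x
    obtain ⟨n, ρ, hρ, h⟩ := χ.2
    rw [← h, ← map_inv, MulAut.conj_apply, Representation.char_conj]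

/-- `T/(T ∩ Inn(P))` acts on `Y` if inner automorphisms act trivially. -/
instance outqAction {P Y : Type} [Group P] [MulAction (MulAut P) Y] [InnTriv P Y]
    (T : Subgroup (MulAut P)) : MulAction (FusionSystem.outq T) Y where
  smul a y := Quotient.liftOn' a (fun t : T => (t : MulAut P) • y) (by
    intro s t hst
    rw [QuotientGroup.leftRel_apply, Subgroup.mem_subgroupOf] at hst
    obtain ⟨p, hp⟩ := hst
    have h1 : (t : MulAut P) = s * MulAut.conj p := by
      have : ((s⁻¹ * t : T) : MulAut P) = (s : MulAut P)⁻¹ * t := rfl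
      rw [hp, this]; group
    change (s : MulAut P) • y = (t : MulAut P) • y
    rw [h1, mul_smul, InnTriv.triv])
  one_smul y := by
    change ((1 : T) : MulAut P) • y = y
    simp
  mul_smul a b y := by
    induction a using Quotient.inductionOn' with
    | h s =>
      induction b using Quotient.inductionOn' with
      | h t => exact mul_smul (s : MulAut P) (t : MulAut P) y

theorem outq_smul {P Y : Type} [Group P] [MulAction (MulAut P) Y] [InnTriv P Y]
    (T : Subgroup (MulAut P)) (t : T) (y : Y) :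
    (QuotientGroup.mk t : FusionSystem.outq T) • y = (t : MulAut P) • y := rfl

/-- `H` has a normal `ℓ'`-subgroup with cyclic quotient of `ℓ`-power order. -/
def NilCyc (ℓ : ℕ) (H : Type) [Group H] : Prop :=
  ∃ (N : Subgroup H) (_ : N.Normal), ¬ ℓ ∣ Nat.card N ∧ IsPGroup ℓ (H ⧸ N) ∧ IsCyclic (H ⧸ N)

/-- The subgroup `B` of `T/(T ∩ Inn(P))` fixes as many irreducible characters as conjugacy classes of `P`. -/
def SameFix {P : Type} [Group P] (T : Subgroup (MulAut P)) (B : Subgroup (FusionSystem.outq T)) : Prop :=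
  Nat.card {χ : Irr P // ∀ b ∈ B, b • χ = χ} = Nat.card {c : ConjClasses P // ∀ b ∈ B, b • c = c}

/-- `Irr^d(P)`: the irreducible characters `μ` with `ν_ℓ(|P|/μ(1)) = d`. -/
def IrrD (ℓ : ℕ) (P : Type) [Group P] (d : ℕ) : Type :=
  {χ : Irr P // ∃ n : ℕ, χ.1 1 = n ∧ padicValNat ℓ (Nat.card P / n) = d}

instance {ℓ : ℕ} {P : Type} [Group P] {d : ℕ} : MulAction (MulAut P) (IrrD ℓ P d) where
  smul α χ := ⟨α • χ.1, by
    obtain ⟨n, h1, h2⟩ := χ.2
    refine ⟨n, ?_, h2⟩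
    rw [← h1]
    change χ.1.1 (α⁻¹ 1) = χ.1.1 1
    rw [map_one]⟩
  one_smul χ := by apply Subtype.ext; exact one_smul _ χ.1
  mul_smul α β χ := by apply Subtype.ext; exact mul_smul α β χ.1

instance {ℓ : ℕ} {P : Type} [Group P] {d : ℕ} : InnTriv P (IrrD ℓ P d) where
  triv := by
    intro p χ
    apply Subtype.ext
    exact InnTriv.triv p χ.1

namespace FusionSystem

variable {S : Type} [Group S] (F : FusionSystem S)

/-! ## The invariant `m(F)` -/

/-- `w_Q(F,d) = ∑_{σ ∈ N_Q/Out_F(Q)} (-1)^{|σ|} ∑_{μ ∈ Irr^d(Q)/I(σ)} z(k I(σ,μ))`. -/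
def wQ (ℓ : ℕ) (k : Type) [Field k] (Q : Subgroup S) (d : ℕ) : ℤ :=
  W ℓ (fun K _ => zproj k K) (F.OutF Q) (IrrD ℓ Q d)

/-- `m(F,d) = ∑_{Q ∈ F^{cr}/F} w_Q(F,d)`. -/
def mD (ℓ : ℕ) (k : Type) [Field k] (d : ℕ) : ℤ :=
  clsum (F.subSetoid fun P => F.Centric P ∧ F.Radical ℓ P) fun Q => F.wQ ℓ k Q.1 d

/-- `m(F) = ∑_{d ≥ 0} m(F,d)`. -/
def m (ℓ : ℕ) (k : Type) [Field k] : ℤ := ∑ᶠ d : ℕ, F.mD ℓ k d

/-! ## Centralisers and the invariant `k(F)` -/

theorem sup_ind {A B T : Subgroup S} (f : ↥(A ⊔ B) →* S) (hA : ∀ a (h : a ∈ A ⊔ B), a ∈ A → f ⟨a, h⟩ ∈ T)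
    (hB : ∀ b (h : b ∈ A ⊔ B), b ∈ B → f ⟨b, h⟩ ∈ T) (y : ↥(A ⊔ B)) : f y ∈ T := by
  have h1 : A ⊔ B ≤ (T.comap f).map (A ⊔ B).subtype := by
    refine sup_le (fun a ha => ?_) (fun b hb => ?_)
    · exact ⟨⟨a, Subgroup.mem_sup_left ha⟩, hA a _ ha, rfl⟩
    · exact ⟨⟨b, Subgroup.mem_sup_right hb⟩, hB b _ hb, rfl⟩
  obtain ⟨y', hy', h2⟩ := h1 y.2
  have : y' = y := Subtype.ext h2
  rw [← this]; exact hy'

/-- The subgroup `P⟨s⟩` of `S`, for a subgroup `P` of `C_S(s)`. -/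
def adj (s : S) (P : Subgroup ↥(Subgroup.centralizer ({s} : Set S))) : Subgroup S :=
  P.map (Subgroup.subtype _) ⊔ Subgroup.zpowers s

theorem self_mem_adj (s : S) (P : Subgroup ↥(Subgroup.centralizer ({s} : Set S))) : s ∈ adj s P :=
  Subgroup.mem_sup_right (Subgroup.mem_zpowers s)

theorem mem_adj (s : S) (P : Subgroup ↥(Subgroup.centralizer ({s} : Set S)))
    {x : ↥(Subgroup.centralizer ({s} : Set S))} (hx : x ∈ P) : (x : S) ∈ adj s P :=
  Subgroup.mem_sup_left ⟨x, hx, rfl⟩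

theorem adj_ind (s : S) {P : Subgroup ↥(Subgroup.centralizer ({s} : Set S))} {T : Subgroup S}
    (f : ↥(adj s P) →* S) (h1 : ∀ (x : ↥(Subgroup.centralizer ({s} : Set S))) (hx : x ∈ P),
      f ⟨x, mem_adj s P hx⟩ ∈ T) (h2 : f ⟨s, self_mem_adj s P⟩ ∈ T) (y : ↥(adj s P)) : f y ∈ T := by
  refine sup_ind (T := T) f ?_ ?_ y
  · rintro a h ⟨x, hx, rfl⟩
    exact h1 x hx
  · rintro b h ⟨n, rfl⟩
    have h3 : (⟨(fun x => s ^ x) n, h⟩ : ↥(adj s P)) = ⟨s, self_mem_adj s P⟩ ^ n := Subtype.ext rfl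
    change f (⟨(fun x => s ^ x) n, h⟩ : ↥(adj s P)) ∈ T
    rw [h3, map_zpow]
    exact T.zpow_mem h2 n

/-- The homomorphisms `P → Q` (`P, Q ≤ C_S(s)`) which extend to a morphism `P⟨s⟩ → Q⟨s⟩` of `F` fixing `s`. -/
def centHom (s : S) (P Q : Subgroup ↥(Subgroup.centralizer ({s} : Set S))) : Set (P →* Q) :=
  {φ | ∃ ψ ∈ F.Hom (adj s P) (adj s Q), (ψ ⟨s, self_mem_adj s P⟩ : S) = s ∧
    ∀ x : P, (ψ ⟨x, mem_adj s P x.2⟩ : S) = (φ x : ↥(Subgroup.centralizer ({s} : Set S)))}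

theorem centHom_inj (s : S) {P Q : Subgroup ↥(Subgroup.centralizer ({s} : Set S))} {φ : P →* Q}
    (h : φ ∈ F.centHom s P Q) : Function.Injective φ := by
  obtain ⟨ψ, hψ, h1, h2⟩ := h
  intro x y hxy
  have h3 : ψ ⟨x, mem_adj s P x.2⟩ = ψ ⟨y, mem_adj s P y.2⟩ :=
    Subtype.ext (by rw [h2, h2, hxy])
  have h4 := F.inj hψ h3
  have h5 : ((x : ↥(Subgroup.centralizer ({s} : Set S))) : S) =
      ((y : ↥(Subgroup.centralizer ({s} : Set S))) : S) :=
    congrArg (fun z : ↥(adj s P) => (z : S)) h4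
  exact Subtype.ext (Subtype.ext h5)

theorem centHom_conj (s : S) (P Q : Subgroup ↥(Subgroup.centralizer ({s} : Set S)))
    (c : ↥(Subgroup.centralizer ({s} : Set S))) (φ : P →* Q)
    (h : ∀ x : P, (φ x : ↥(Subgroup.centralizer ({s} : Set S))) = c * x * c⁻¹) :
    φ ∈ F.centHom s P Q := by
  have hc : (c : S) * s * (c : S)⁻¹ = s := by
    have := Subgroup.mem_centralizer_iff.1 c.2 s rfl
    rw [← this]; group
  have h1 : ∀ y : ↥(adj s P), ((MulAut.conj (c : S)).toMonoidHom.comp (adj s P).subtype) y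
      ∈ adj s Q := by
    refine adj_ind s _ ?_ ?_
    · intro x hx
      have h2 := h ⟨x, hx⟩
      have h3 : ((MulAut.conj (c : S)).toMonoidHom.comp (adj s P).subtype)
          ⟨x, mem_adj s P hx⟩ = ((φ ⟨x, hx⟩ : ↥(Subgroup.centralizer ({s} : Set S))) : S) := by
        rw [h2]; rfl
      rw [h3]
      exact mem_adj s Q (φ ⟨x, hx⟩).2
    · have h3 : ((MulAut.conj (c : S)).toMonoidHom.comp (adj s P).subtype)
          ⟨s, self_mem_adj s P⟩ = s := hc
      rw [h3]; exact self_mem_adj s Q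
  refine ⟨((MulAut.conj (c : S)).toMonoidHom.comp (adj s P).subtype).codRestrict _ h1,
    F.conj_mem _ _ c _ (fun x => rfl), hc, fun x => ?_⟩
  rw [h x]; rfl

theorem centHom_comp (s : S) {P Q R : Subgroup ↥(Subgroup.centralizer ({s} : Set S))} {φ : P →* Q}
    {ψ : Q →* R} (hφ : φ ∈ F.centHom s P Q) (hψ : ψ ∈ F.centHom s Q R) :
    ψ.comp φ ∈ F.centHom s P R := by
  obtain ⟨φ', h1, h2, h3⟩ := hφ
  obtain ⟨ψ', h4, h5, h6⟩ := hψ
  refine ⟨ψ'.comp φ', F.comp_mem h1 h4, ?_, fun x => ?_⟩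
  · have : φ' ⟨s, self_mem_adj s P⟩ = ⟨s, self_mem_adj s Q⟩ := Subtype.ext h2
    rw [MonoidHom.comp_apply, this, h5]
  · have : φ' ⟨x, mem_adj s P x.2⟩ = ⟨φ x, mem_adj s Q (φ x).2⟩ := Subtype.ext (h3 x)
    rw [MonoidHom.comp_apply, this, h6]; rfl

theorem centHom_factor (s : S) {P Q : Subgroup ↥(Subgroup.centralizer ({s} : Set S))} {φ : P →* Q}
    (hφ : φ ∈ F.centHom s P Q) (R : Subgroup ↥(Subgroup.centralizer ({s} : Set S))) (e : P ≃* R)
    (he : ∀ x : P, (e x : ↥(Subgroup.centralizer ({s} : Set S))) = φ x) :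
    e.toMonoidHom ∈ F.centHom s P R ∧ e.symm.toMonoidHom ∈ F.centHom s R P := by
  obtain ⟨ψ, h1, h2, h3⟩ := hφ
  let f : ↥(adj s P) →* S := (adj s Q).subtype.comp ψ
  have hf : Function.Injective f := fun x y hxy => F.inj h1 (Subtype.ext hxy)
  have hr : f.range = adj s R := by
    apply le_antisymm
    · rintro _ ⟨y, rfl⟩
      refine adj_ind s f ?_ ?_ y
      · intro x hx
        have h4 := h3 ⟨x, hx⟩
        have : f ⟨x, mem_adj s P hx⟩ = ((e ⟨x, hx⟩ : ↥(Subgroup.centralizer ({s} : Set S))) : S) := by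
          rw [he]; exact h4
        rw [this]; exact mem_adj s R (e ⟨x, hx⟩).2
      · have : f ⟨s, self_mem_adj s P⟩ = s := h2
        rw [this]; exact self_mem_adj s R
    · refine sup_le ?_ ?_
      · rintro _ ⟨r, hr, rfl⟩
        refine ⟨⟨e.symm ⟨r, hr⟩, mem_adj s P (e.symm ⟨r, hr⟩).2⟩, ?_⟩
        have h4 := h3 (e.symm ⟨r, hr⟩)
        rw [← he, MulEquiv.apply_symm_apply] at h4
        exact h4
      · rw [Subgroup.zpowers_le]
        exact ⟨_, h2⟩
  let E : ↥(adj s P) ≃* ↥(adj s R) := (MonoidHom.ofInjective hf).trans (MulEquiv.subgroupCongr hr)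
  have hE : ∀ y, (E y : S) = ψ y := fun y => rfl
  obtain ⟨h5, h6⟩ := F.factor h1 (adj s R) E hE
  refine ⟨⟨E.toMonoidHom, h5, h2, fun x => ?_⟩, ⟨E.symm.toMonoidHom, h6, ?_, fun x => ?_⟩⟩
  · change (E _ : S) = ((e x : ↥(Subgroup.centralizer ({s} : Set S))) : S)
    rw [hE, he]; exact h3 x
  · change (E.symm _ : S) = s
    have : (⟨s, self_mem_adj s R⟩ : ↥(adj s R)) = E ⟨s, self_mem_adj s P⟩ :=
      Subtype.ext (by rw [hE]; exact h2.symm)
    rw [this, MulEquiv.symm_apply_apply]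
  · change (E.symm _ : S) = ((e.symm x : ↥(Subgroup.centralizer ({s} : Set S))) : S)
    have : (⟨x, mem_adj s R x.2⟩ : ↥(adj s R)) =
        E ⟨e.symm x, mem_adj s P (e.symm x).2⟩ := by
      apply Subtype.ext
      rw [hE]
      have h7 := h3 (e.symm x)
      rw [← he, MulEquiv.apply_symm_apply] at h7
      exact h7.symm
    rw [this, MulEquiv.symm_apply_apply]

/-- The centraliser fusion system `C_F(s)` on `C_S(s)`: the morphisms `P → Q` are the homomorphisms
which extend to a morphism `P⟨s⟩ → Q⟨s⟩` of `F` fixing `s`. -/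
def cent (s : S) : FusionSystem ↥(Subgroup.centralizer ({s} : Set S)) where
  Hom := F.centHom s
  inj := F.centHom_inj s
  conj_mem := F.centHom_conj s
  comp_mem := F.centHom_comp s
  factor := F.centHom_factor s

/-- `F`-conjugacy of elements of `S`. -/
def elSetoid : Setoid S where
  r s t := ∃ e ∈ F.Iso (Subgroup.zpowers s) (Subgroup.zpowers t),
    (e ⟨s, Subgroup.mem_zpowers s⟩ : S) = t
  iseqv := by
    refine ⟨fun s => ⟨_, F.iso_refl _, rfl⟩, ?_, ?_⟩
    · rintro s t ⟨e, he, h⟩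
      refine ⟨e.symm, F.iso_symm he, ?_⟩
      have : (⟨t, Subgroup.mem_zpowers t⟩ : Subgroup.zpowers t) = e ⟨s, Subgroup.mem_zpowers s⟩ :=
        Subtype.ext h.symm
      rw [this, MulEquiv.symm_apply_apply]
    · rintro s t u ⟨e, he, h⟩ ⟨f, hf, h'⟩
      refine ⟨e.trans f, F.iso_trans he hf, ?_⟩
      have : e ⟨s, Subgroup.mem_zpowers s⟩ = (⟨t, Subgroup.mem_zpowers t⟩ : Subgroup.zpowers t) :=
        Subtype.ext h
      rw [MulEquiv.trans_apply, this]
      exact h'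

/-- A representative of a class of elements which generates a fully `F`-centralised subgroup. -/
def fcRep (c : Quotient F.elSetoid) : S :=
  Classical.epsilon fun s => Quotient.mk F.elSetoid s = c ∧ F.FullyCentralized (Subgroup.zpowers s)

/-- `∑_{s ∈ S/F} w_ζ(C_F(s))`. -/
def kζ (ℓ : ℕ) (ζ : ∀ (K : Type) [Group K], ℤ) : ℤ :=
  ∑ᶠ c : Quotient F.elSetoid, (F.cent (F.fcRep c)).wζ ℓ ζ

/-- `k(F) = ∑_{s ∈ S/F} w(C_F(s))`. -/
def k (ℓ : ℕ) (k : Type) [Field k] : ℤ :=
  ∑ᶠ c : Quotient F.elSetoid, (F.cent (F.fcRep c)).w ℓ k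

end FusionSystem

end Pool.FS95
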