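import Pool.Agent.LibFS95.Two

/-!
Systems of conditions `x_i + 1 = x_k`, `x_i ! = x_k`, `x_i ∤ x_k` in positive integers
(MP_38ee21_nt): the bound, if all dividends of the non-divisibility conditions are in components
without successor conditions.
-/

set_option autoImplicit false

namespace Pool.Agent.LibFS95

open Nat Finset Pool.Agent.LibFSN

/-- In a component all values are controlled by each value. -/
theorem esc {n : ℕ} {A B : Set (Fin n × Fin n)} {i j : Fin n} (h : Joined A B i j) :
    (∀ b : ℕ, ∃ b' : ℕ, ∀ y : Fin n → ℕ, (∀ p ∈ A, y p.1 + 1 = y p.2) → (∀ p ∈ B, (y p.1)! = y p.2) →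
      y i ≤ b → y j ≤ b') ∧
    (∀ b : ℕ, ∃ b' : ℕ, ∀ y : Fin n → ℕ, (∀ p ∈ A, y p.1 + 1 = y p.2) → (∀ p ∈ B, (y p.1)! = y p.2) →
      y j ≤ b → y i ≤ b') := by
  unfold Joined at h
  induction h with
  | rel i j h =>
    rcases h with h | h
    · refine ⟨fun b => ⟨b + 1, fun y hA _ hb => ?_⟩, fun b => ⟨b, fun y hA _ hb => ?_⟩⟩
      · have := hA _ h
        simp only at this
        omega
      · have := hA _ h
        simp only at this
        omega
    · refine ⟨fun b => ⟨b !, fun y _ hB hb => ?_⟩, fun b => ⟨b, fun y _ hB hb => ?_⟩⟩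
      · have h1 := hB _ h
        simp only at h1
        rw [← h1]
        exact Nat.factorial_le hb
      · have h1 := hB _ h
        simp only at h1
        have h2 := Nat.self_le_factorial (y i)
        omega
  | refl i => exact ⟨fun b => ⟨b, fun _ _ _ h => h⟩, fun b => ⟨b, fun _ _ _ h => h⟩⟩
  | symm i j _ ih => exact ⟨ih.2, ih.1⟩
  | trans i j k _ _ ih1 ih2 =>
    constructor
    · intro b
      obtain ⟨b1, h1⟩ := ih1.1 b
      obtain ⟨b2, h2⟩ := ih2.1 b1
      exact ⟨b2, fun y hA hB hb => h2 y hA hB (h1 y hA hB hb)⟩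
    · intro b
      obtain ⟨b1, h1⟩ := ih2.2 b
      obtain ⟨b2, h2⟩ := ih1.2 b1
      exact ⟨b2, fun y hA hB hb => h2 y hA hB (h1 y hA hB hb)⟩

/-- The bound on a closed set of unknowns, if the solutions there are bounded. -/
theorem sub_bound {n : ℕ} {A B : Set (Fin n × Fin n)} (S : Finset (Fin n))
    (hA : ∀ p ∈ A, p.1 ∈ S ↔ p.2 ∈ S) (hB : ∀ p ∈ B, p.1 ∈ S ↔ p.2 ∈ S)
    {b : ℕ} (hb : ∀ y : Fin n → ℕ, (∀ j, 1 ≤ y j) → (∀ p ∈ A, p.1 ∈ S → y p.1 + 1 = y p.2) →
      (∀ p ∈ B, p.1 ∈ S → (y p.1)! = y p.2) → ∀ j ∈ S, y j ≤ b)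
    {x : Fin n → ℕ} (hx : ∀ j, 1 ≤ x j) (hxA : ∀ p ∈ A, x p.1 + 1 = x p.2)
    (hxB : ∀ p ∈ B, (x p.1)! = x p.2) : ∀ j ∈ S, x j ≤ bnd S.card := by
  classical
  let e : S ≃ Fin S.card := S.equivFin
  let A' : Set (Fin S.card × Fin S.card) := {p | ((e.symm p.1 : Fin n), (e.symm p.2 : Fin n)) ∈ A}
  let B' : Set (Fin S.card × Fin S.card) := {p | ((e.symm p.1 : Fin n), (e.symm p.2 : Fin n)) ∈ B}
  have hfin : (Sols A' B' ∅).Finite := by
    refine (Set.finite_Iic (fun _ => b)).subset fun z hz => ?_
    obtain ⟨hz1, hzA, hzB, -⟩ := hz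
    let y : Fin n → ℕ := fun j => if h : j ∈ S then z (e ⟨j, h⟩) else 1
    have hy : ∀ j (h : j ∈ S), y j = z (e ⟨j, h⟩) := fun j h => dif_pos h
    have h0 := hb y (fun j => ?_) (fun p hp h => ?_) (fun p hp h => ?_)
    · intro k
      have h1 := h0 _ (e.symm k).2
      rw [hy _ (e.symm k).2] at h1
      simpa using h1
    · by_cases h : j ∈ S
      · rw [hy j h]; exact hz1 _
      · simp [y, h]
    · have h2 : p.2 ∈ S := (hA p hp).1 h
      rw [hy _ h, hy _ h2]
      exact hzA (e ⟨p.1, h⟩, e ⟨p.2, h2⟩) (by simpa [A'] using hp)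
    · have h2 : p.2 ∈ S := (hB p hp).1 h
      rw [hy _ h, hy _ h2]
      exact hzB (e ⟨p.1, h⟩, e ⟨p.2, h2⟩) (by simpa [B'] using hp)
  have hmem : (fun k => x (e.symm k)) ∈ Sols A' B' ∅ :=
    ⟨fun k => hx _, fun p hp => hxA _ hp, fun p hp => hxB _ hp, fun p hp => absurd hp (Set.notMem_empty p)⟩
  intro j hj
  have := plus_bound A' B' hfin _ hmem (e ⟨j, hj⟩)
  simpa using this

theorem two_le_bnd {n : ℕ} (hn : 1 ≤ n) : 2 ≤ bnd n := by
  have := bnd_mono le_rfl hn
  rwa [bnd_one] at this

/-- the bound with a value at `0` -/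
def bd (m : ℕ) : ℕ := if m = 0 then 0 else bnd m

theorem bd_fac (m : ℕ) : (bd m)! ≤ bd (m + 1) := by
  unfold bd
  rcases m with _ | _ | m
  · simp [bnd_one]
  · simp [bnd_one, bnd_two]
  · rw [if_neg (by omega), if_neg (by omega)]
    exact (bnd_succ (n := m + 1 + 1) (by omega)).ge

theorem bd_mono {m k : ℕ} (h : m ≤ k) : bd m ≤ bd k := by
  unfold bd
  split_ifs with h1 h2
  · exact le_rfl
  · exact Nat.zero_le _
  · omega
  · exact bnd_mono (by omega) h

theorem two_le_bd (m : ℕ) : 2 ≤ bd (m + 1) := by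
  unfold bd
  rw [if_neg (by omega)]
  exact two_le_bnd (by omega)

/-- The bound, if no dividend of a non-divisibility atom is in a component with a successor atom. -/
theorem div_bound {n : ℕ} {A B C : Set (Fin n × Fin n)} (hC : ∀ p ∈ C, ∀ q ∈ A, ¬ Joined A B p.2 q.1)
    (hfin : (Sols A B C).Finite) {x : Fin n → ℕ} (hx : x ∈ Sols A B C) (i : Fin n) : x i ≤ bnd n := by
  classical
  obtain ⟨b1, hb1⟩ := hfin.bddAbove
  obtain ⟨hx1, hxA, hxB, hxC⟩ := id hx
  have hn : 1 ≤ n := by have := i.2; omega
  let S : Finset (Fin n) := Finset.univ.filter (fun j => ∃ q ∈ A, Joined A B j q.1)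
  have hS : ∀ j, j ∈ S ↔ ∃ q ∈ A, Joined A B j q.1 := fun j => by simp [S]
  have hjoin : ∀ {j k : Fin n}, Joined A B j k → (j ∈ S ↔ k ∈ S) := by
    intro j k h
    rw [hS, hS]
    exact ⟨fun ⟨q, hq, h1⟩ => ⟨q, hq, (h.symm _ _).trans _ _ _ h1⟩, fun ⟨q, hq, h1⟩ => ⟨q, hq, h.trans _ _ _ h1⟩⟩
  have hA1 : ∀ p ∈ A, Joined A B p.1 p.2 := fun p hp => Relation.EqvGen.rel _ _ (Or.inl hp)
  have hB1 : ∀ p ∈ B, Joined A B p.1 p.2 := fun p hp => Relation.EqvGen.rel _ _ (Or.inr hp)
  have hAS : ∀ p ∈ A, p.1 ∈ S ∧ p.2 ∈ S := by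
    intro p hp
    have h1 : p.1 ∈ S := (hS _).2 ⟨p, hp, Relation.EqvGen.refl _⟩
    exact ⟨h1, (hjoin (hA1 p hp)).1 h1⟩
  have hCS : ∀ p ∈ C, p.2 ∉ S := by
    intro p hp h
    obtain ⟨q, hq, h1⟩ := (hS _).1 h
    exact hC p hp q hq h1
  have hxle : ∀ j, x j ≤ ∑ k, x k := fun j =>
    Finset.single_le_sum (f := x) (fun _ _ => Nat.zero_le _) (Finset.mem_univ j)
  have hble : ∀ j, b1 j ≤ ∑ k, b1 k := fun j =>
    Finset.single_le_sum (f := b1) (fun _ _ => Nat.zero_le _) (Finset.mem_univ j)
  -- the part with successor atoms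
  have hmix : ∀ j ∈ S, x j ≤ bnd S.card := by
    choose F hF using fun (k j : Fin n) => (show ∃ b' : ℕ, Joined A B k j → ∀ y : Fin n → ℕ,
        (∀ p ∈ A, y p.1 + 1 = y p.2) → (∀ p ∈ B, (y p.1)! = y p.2) → y k ≤ ∑ l, x l → y j ≤ b' from by
      by_cases h : Joined A B k j
      · obtain ⟨b', hb'⟩ := (esc h).1 (∑ l, x l)
        exact ⟨b', fun _ => hb'⟩
      · exact ⟨0, fun h' => absurd h' h⟩)
    refine sub_bound S (fun p hp => hjoin (hA1 p hp)) (fun p hp => hjoin (hB1 p hp))
      (b := ∑ k, ∑ j, F k j + ∑ k, b1 k) ?_ hx1 hxA hxB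
    intro y hy1 hyA hyB j hj
    by_contra hc
    push_neg at hc
    have hFle : ∀ k, F k j ≤ ∑ k, ∑ j, F k j := fun k =>
      (Finset.single_le_sum (f := fun j => F k j) (fun _ _ => Nat.zero_le _) (Finset.mem_univ j)).trans
        (Finset.single_le_sum (f := fun k => ∑ j, F k j) (fun _ _ => Nat.zero_le _) (Finset.mem_univ k))
    let y' : Fin n → ℕ := fun k => if k ∈ S then y k else 1
    have hy'A : ∀ p ∈ A, y' p.1 + 1 = y' p.2 := by
      intro p hp
      obtain ⟨h1, h2⟩ := hAS p hp
      simp only [y', if_pos h1, if_pos h2]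
      exact hyA p hp h1
    have hy'B : ∀ p ∈ B, (y' p.1)! = y' p.2 := by
      intro p hp
      have h1 := hjoin (hB1 p hp)
      by_cases h : p.1 ∈ S
      · simp only [y', if_pos h, if_pos (h1.1 h)]
        exact hyB p hp h
      · simp only [y', if_neg h, if_neg (fun h' => h (h1.2 h'))]
        rfl
    have hy'j : y' j = y j := if_pos hj
    have hlarge : ∀ k, Joined A B k j → ∑ l, x l < y' k := by
      intro k hk
      by_contra h
      push_neg at h
      have h1 := hF k j hk y' hy'A hy'B h
      have h2 := hFle k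
      rw [hy'j] at h1
      omega
    have hz : (fun k => if Joined A B k j then y' k else x k) ∈ Sols A B C := by
      refine ⟨fun k => ?_, fun p hp => ?_, fun p hp => ?_, fun p hp => ?_⟩
      · show 1 ≤ (if Joined A B k j then y' k else x k)
        split_ifs with h
        · have := hlarge k h; omega
        · exact hx1 k
      · have h1 := hA1 p hp
        by_cases h : Joined A B p.1 j
        · have h2 : Joined A B p.2 j := (h1.symm _ _).trans _ _ _ h
          simp only [if_pos h, if_pos h2]
          exact hy'A p hp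
        · have h2 : ¬ Joined A B p.2 j := fun h2 => h (h1.trans _ _ _ h2)
          simp only [if_neg h, if_neg h2]
          exact hxA p hp
      · have h1 := hB1 p hp
        by_cases h : Joined A B p.1 j
        · have h2 : Joined A B p.2 j := (h1.symm _ _).trans _ _ _ h
          simp only [if_pos h, if_pos h2]
          exact hy'B p hp
        · have h2 : ¬ Joined A B p.2 j := fun h2 => h (h1.trans _ _ _ h2)
          simp only [if_neg h, if_neg h2]
          exact hxB p hp
      · have h2 : ¬ Joined A B p.2 j := fun h2 => hCS p hp ((hjoin h2).2 hj)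
        simp only [if_neg h2]
        by_cases h : Joined A B p.1 j
        · simp only [if_pos h]
          intro hd
          have h3 := Nat.le_of_dvd (hx1 p.2) hd
          have h4 := hlarge p.1 h
          have h5 := hxle p.2
          omega
        · simp only [if_neg h]
          exact hxC p hp
    have h1 : (if Joined A B j j then y' j else x j) ≤ b1 j := hb1 hz j
    have hjj : Joined A B j j := Relation.EqvGen.refl j
    rw [if_pos hjj, hy'j] at h1
    have h2 := hble j
    omega
  have hmix' : ∀ j ∈ S, x j ≤ bd S.card := by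
    intro j hj
    have h1 : 0 < S.card := Finset.card_pos.2 ⟨j, hj⟩
    unfold bd
    rw [if_neg (by omega)]
    exact hmix j hj
  -- a gap
  by_contra hbig
  push_neg at hbig
  have hgap : ∃ m, S.card ≤ m ∧ m < n ∧ ∀ j, x j ≤ bd m ∨ bd (m + 1) < x j := by
    by_contra hno
    push_neg at hno
    have hcount : ∀ m, S.card ≤ m → m ≤ n → m ≤ (Finset.univ.filter (fun j => x j ≤ bd m)).card := by
      intro m hm
      induction m, hm using Nat.le_induction with
      | base =>
        intro _
        exact Finset.card_le_card fun j hj => by simpa using hmix' j hj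
      | succ m hm ih =>
        intro h1
        obtain ⟨j, h2, h3⟩ := hno m hm (by omega)
        have h4 := ih (by omega)
        have h5 : insert j (Finset.univ.filter (fun j => x j ≤ bd m)) ⊆
            Finset.univ.filter (fun j => x j ≤ bd (m + 1)) := by
          intro k hk
          rcases Finset.mem_insert.1 hk with rfl | hk
          · simpa using h3
          · simp only [Finset.mem_filter, Finset.mem_univ, true_and] at hk ⊢
            exact hk.trans (bd_mono (Nat.le_succ m))
        have h6 := Finset.card_le_card h5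
        rw [Finset.card_insert_of_notMem (by simpa using h2)] at h6
        omega
    have h1 := hcount n (by simpa using Finset.card_le_univ S) le_rfl
    have h2 : (Finset.univ.filter (fun j => x j ≤ bd n)) = Finset.univ := by
      apply Finset.eq_univ_of_card
      have h3 := Finset.card_le_univ (Finset.univ.filter (fun j => x j ≤ bd n))
      simp only [Fintype.card_fin] at h3 ⊢
      omega
    have h3 : i ∈ Finset.univ.filter (fun j => x j ≤ bd n) := by
      rw [h2]
      exact Finset.mem_univ i
    have h4 : bd n = bnd n := if_neg (by omega)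
    simp only [Finset.mem_filter, Finset.mem_univ, true_and, h4] at h3
    omega
  obtain ⟨m, hm1, hm2, hgap⟩ := hgap
  have hbm := bd_fac m
  have hb2 := two_le_bd m
  have hSH : ∀ j ∈ S, ¬ bd (m + 1) < x j := by
    intro j hj h
    have h1 := (hmix' j hj).trans (bd_mono hm1)
    have h2 : bd m ≤ bd (m + 1) := bd_mono (Nat.le_succ m)
    omega
  obtain ⟨g, hg⟩ := exists_gm (1 + ∑ k, x k + ∑ k, b1 k) (3 + ∑ k, x k) (by omega)
  have hle : ∀ j, x j ≤ 3 + ∑ k, x k := fun j => (hxle j).trans (by omega)
  have hz : (fun j => if bd (m + 1) < x j then g (x j) else x j) ∈ Sols A B C := by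
    refine ⟨fun j => ?_, fun p hp => ?_, fun p hp => ?_, fun p hp => ?_⟩
    · show 1 ≤ (if bd (m + 1) < x j then g (x j) else x j)
      split_ifs with h
      · have := hg.large (by omega) (hle j)
        omega
      · exact hx1 j
    · obtain ⟨h1, h2⟩ := hAS p hp
      simp only [if_neg (hSH _ h1), if_neg (hSH _ h2)]
      exact hxA p hp
    · have h1 := hxB p hp
      by_cases h : bd (m + 1) < x p.1
      · have h2 : bd (m + 1) < x p.2 := by
          have := Nat.self_le_factorial (x p.1)
          omega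
        simp only [if_pos h, if_pos h2]
        rw [← h1]
        exact (hg.fac _ (h1 ▸ hle p.2)).symm
      · have h2 : ¬ bd (m + 1) < x p.2 := by
          have h3 := Nat.factorial_le ((hgap p.1).resolve_right h)
          omega
        simp only [if_neg h, if_neg h2]
        exact h1
    · have h1 := hxC p hp
      by_cases h : bd (m + 1) < x p.1
      · by_cases h' : bd (m + 1) < x p.2
        · simp only [if_pos h, if_pos h']
          exact hg.nd (hx1 _) (hx1 _) (hle _) (hle _) h1
        · simp only [if_pos h, if_neg h']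
          intro hd
          have h2 := Nat.le_of_dvd (hx1 p.2) hd
          have h3 := hg.large (show 3 ≤ x p.1 by omega) (hle _)
          have h4 := hxle p.2
          omega
      · by_cases h' : bd (m + 1) < x p.2
        · simp only [if_neg h, if_pos h']
          intro hd
          have h3 := (hgap p.1).resolve_right h
          have hnf : ∀ v, v ! ≠ x p.2 := by
            intro v hv
            have h4 : v < x p.1 := by
              by_contra h5
              exact h1 (hv ▸ Nat.dvd_factorial (hx1 p.1) (by omega))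
            have h5 := Nat.factorial_le (h4.le.trans h3)
            omega
          have hp' := hg.prime (x p.2) (by omega) (hle _) hnf
          have h4 := hg.large (show 3 ≤ x p.2 by omega) (hle _)
          have h5 := hxle p.1
          rcases (Nat.dvd_prime hp').1 hd with h6 | h6
          · exact h1 (h6 ▸ one_dvd _)
          · omega
        · simp only [if_neg h, if_neg h']
          exact h1
  have hbi : bd (m + 1) < x i := by
    have h1 : bd (m + 1) ≤ bd n := bd_mono (by omega)
    have h2 : bd n = bnd n := if_neg (by omega)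
    omega
  have h1 : (if bd (m + 1) < x i then g (x i) else x i) ≤ b1 i := hb1 hz i
  rw [if_pos hbi] at h1
  have h2 := hg.large (show 3 ≤ x i by omega) (hle i)
  have h3 := hble i
  omega

/-- The bound for two kinds of systems. -/
theorem main2 {n : ℕ} (A B C : Set (Fin n × Fin n))
    (h : (∃ i, ∀ p ∈ B, ¬ Joined A B i p.1) ∨ ∀ p ∈ C, ∀ q ∈ A, ¬ Joined A B p.2 q.1)
    (hfin : (Sols A B C).Finite) (x : Fin n → ℕ) (hx : x ∈ Sols A B C) (i : Fin n) : x i ≤ bnd n := by
  rcases h with h | h
  · exact main A B C (Or.inl h) hfin x hx i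
  · exact div_bound h hfin hx i

end Pool.Agent.LibFS95
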