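import Pool.Agent.LibFS95.E0

/-!
Row E1: non-normal chains cancel (Knoerr-Robinson). STRONG.

Plan. Put `X = {σ : Set (Subgroup H) // IsPChain ℓ B σ ∧ ¬ NormalSet σ}` (finite); we construct an involution of `X` which
changes the parity of `ncard`. For `σ` in `X`:
`I = {A ∈ σ | ∀ Y ∈ σ, Y ≤ A → A ≤ normalizer Y}` (contains `⊥`, downward closed in `σ`; `I ≠ σ` because `σ` is not normal),
`A = sSup I ∈ I`, `U = sInf (σ \ I) ∈ σ \ I`, so `A < U` and no member of `σ` is strictly between,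
`N = U ⊓ ⨅_{Y ∈ σ, Y ≤ A} normalizer Y`; `A ≤ N < U` (`N = U` would give `U ∈ I`).
The toggle: `σ' = σ \ {N}` if `N ∈ σ` (i.e. `N = A`), else `insert N σ`.
* `N ∉ σ`: `I' = I ∪ {N}`, `U' = U`, `A' = N`, `N' = N ⊓ normalizer N = N`: removing gives `σ` back.
* `N = A`: `A ≠ ⊥` (if `A = ⊥`, `N = U ⊓ normalizer ⊥ = U`). `σ' = σ \ {A}`. `U ∉ I'`: otherwise `U ≤ normalizer Y` for all
  members `Y < A`, so `N = U ⊓ normalizer A = A`, contradiction with the normaliser condition in the finite `ℓ`-group `U`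
  (`A < U`). So `I' = I \ {A}`, `U' = U` and `N' = U ⊓ ⨅_{Y < A} normalizer Y ⊇ A`, `N' ⊓ normalizer A = N = A`; the normaliser
  condition in the `ℓ`-group `N'` gives `N' = A ∉ σ'`: adding gives `σ` back.
`σ'` is again in `X` (`U` and some member `Y ≤ U` witness non-normality; `N` is an `ℓ`-group as `N ≤ U`; `B` normalises `N` because it
normalises all members; `N` is comparable to all members). Then `∑_X (-1)^{ncard - 1} = 0` (equivalence + sign change,
`finsum_eq_sum_of_fintype`, `Equiv.sum_comp`; `⊥ ∈ σ`, `⊥` is never removed, so `ncard ≥ 1`), and the sum over all `IsPChain`s is the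
sum over the normal ones plus the sum over `X`.
Normaliser condition for `ℓ`-groups: `IsPGroup.isNilpotent`, `Group.normalizerCondition_of_isNilpotent` (in the subgroup `U` or `N'`).
You may split off the description of the toggle as separate lemmas.
-/

set_option autoImplicit false
noncomputable section
open MulAction
namespace Pool.FS95

/-- The group `U ⊓ ⨅_{Y ∈ σ, Y ≤ A} normalizer Y`. -/
def e1N {H : Type*} [Group H] (σ : Set (Subgroup H)) (A U : Subgroup H) : Subgroup H :=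
  U ⊓ ⨅ Y : {Y : Subgroup H // Y ∈ σ ∧ Y ≤ A}, Subgroup.normalizer (Y.1 : Set H)

theorem e1_le_N {H : Type*} [Group H] {σ : Set (Subgroup H)} {A U X : Subgroup H} :
    X ≤ e1N σ A U ↔ X ≤ U ∧ ∀ Y ∈ σ, Y ≤ A → X ≤ Subgroup.normalizer (Y : Set H) := by
  unfold e1N
  rw [le_inf_iff, le_iInf_iff]
  constructor
  · rintro ⟨h1, h2⟩
    exact ⟨h1, fun Y hY hYA => h2 ⟨Y, hY, hYA⟩⟩
  · rintro ⟨h1, h2⟩
    exact ⟨h1, fun Y => h2 Y.1 Y.2.1 Y.2.2⟩

/-- `A < U` are neighbours in `σ`, `σ` is normal up to `A` and not up to `U`. -/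
structure E1Data {H : Type*} [Group H] (σ : Set (Subgroup H)) (A U : Subgroup H) : Prop where
  hA : A ∈ σ
  hU : U ∈ σ
  lt : A < U
  sep : ∀ Y ∈ σ, Y ≤ A ∨ U ≤ Y
  nor : ∀ X ∈ σ, X ≤ A → ∀ Y ∈ σ, Y ≤ X → X ≤ Subgroup.normalizer (Y : Set H)
  bad : ∃ Y ∈ σ, Y ≤ A ∧ ¬ U ≤ Subgroup.normalizer (Y : Set H)

theorem E1Data.unique {H : Type*} [Group H] {σ : Set (Subgroup H)} {A U A' U' : Subgroup H}
    (h : E1Data σ A U) (h' : E1Data σ A' U') : A = A' ∧ U = U' := by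
  have key : ∀ {A U A' U' : Subgroup H}, E1Data σ A U → E1Data σ A' U' → A' ≤ A := by
    intro A U A' U' h h'
    rcases h.sep A' h'.hA with h1 | h1
    · exact h1
    · exfalso
      obtain ⟨Y, hY, hYA, hb⟩ := h.bad
      exact hb (h'.nor U h.hU h1 Y hY (hYA.trans h.lt.le))
  have e1 : A = A' := le_antisymm (key h' h) (key h h')
  subst e1
  refine ⟨rfl, le_antisymm ?_ ?_⟩
  · exact (h.sep U' h'.hU).resolve_left fun h1 => absurd h'.lt (not_lt_of_ge h1)
  · exact (h'.sep U h.hU).resolve_left fun h1 => absurd h.lt (not_lt_of_ge h1)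

theorem E1Data.not_normal {H : Type*} [Group H] {σ : Set (Subgroup H)} {A U : Subgroup H}
    (h : E1Data σ A U) : ¬ NormalSet σ := by
  intro hn
  obtain ⟨Y, hY, hYA, hb⟩ := h.bad
  exact hb (hn Y hY U h.hU (hYA.trans h.lt.le))

theorem e1_exists {H : Type*} [Group H] [Finite H] {ℓ : ℕ} {B : Subgroup H}
    {σ : Set (Subgroup H)} (hσ : IsPChain ℓ B σ) (hn : ¬ NormalSet σ) :
    ∃ A U, E1Data σ A U := by
  set I : Set (Subgroup H) :=
    {X | X ∈ σ ∧ ∀ Y ∈ σ, Y ≤ X → X ≤ Subgroup.normalizer (Y : Set H)} with hI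
  have hne : (σ \ I).Nonempty := by
    unfold NormalSet at hn
    push Not at hn
    obtain ⟨X, hX, Y, hY, hXY, hb⟩ := hn
    exact ⟨Y, hY, fun h => hb (h.2 X hX hXY)⟩
  have hU : sInf (σ \ I) ∈ σ \ I :=
    sInf_mem_of_total hne fun X hX Y hY => hσ.total X hX.1 Y hY.1
  set U := sInf (σ \ I) with hUdef
  have hbotI : (⊥ : Subgroup H) ∈ I := ⟨hσ.bot_mem, fun Y hY _ => bot_le⟩
  have hUbot : (⊥ : Subgroup H) < U := by
    rw [bot_lt_iff_ne_bot]
    intro h
    exact hU.2 (h ▸ hbotI)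
  have hJ : sSup {X | X ∈ σ ∧ X < U} ∈ {X | X ∈ σ ∧ X < U} :=
    sSup_mem_of_total ⟨⊥, hσ.bot_mem, hUbot⟩ fun X hX Y hY => hσ.total X hX.1 Y hY.1
  set A := sSup {X | X ∈ σ ∧ X < U} with hAdef
  have hsep : ∀ Y ∈ σ, Y ≤ A ∨ U ≤ Y := by
    intro Y hY
    rcases hσ.total U hU.1 Y hY with h | h
    · exact Or.inr h
    · rcases eq_or_lt_of_le h with h' | h'
      · exact Or.inr h'.ge
      · exact Or.inl (le_sSup ⟨hY, h'⟩)
  refine ⟨A, U, hJ.1, hU.1, hJ.2, hsep, ?_, ?_⟩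
  · intro X hX hXA Y hY hYX
    by_cases hXI : X ∈ I
    · exact hXI.2 Y hY hYX
    · exfalso
      have h1 : U ≤ X := sInf_le ⟨hX, hXI⟩
      exact absurd hJ.2 (not_lt_of_ge (h1.trans hXA))
  · by_contra hcon
    push Not at hcon
    refine hU.2 ⟨hU.1, fun Y hY hYU => ?_⟩
    rcases hsep Y hY with h | h
    · exact hcon Y hY h
    · have : Y = U := le_antisymm hYU h
      rw [this]
      exact Subgroup.le_normalizer

/-- the normaliser condition -/
theorem e1_normalizer {H : Type*} [Group H] [Finite H] {ℓ : ℕ} [Fact ℓ.Prime]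
    {A U : Subgroup H} (hU : IsPGroup ℓ U) (hAU : A ≤ U)
    (h : U ⊓ Subgroup.normalizer (A : Set H) ≤ A) : A = U := by
  by_contra hne
  have hnil : Group.IsNilpotent U := hU.isNilpotent
  have hcond : NormalizerCondition U := Group.normalizerCondition_of_isNilpotent
  have hlt : A.subgroupOf U < ⊤ := by
    rw [lt_top_iff_ne_top]
    intro h1
    rw [Subgroup.subgroupOf_eq_top] at h1
    exact hne (le_antisymm hAU h1)
  obtain ⟨u, hu, hu'⟩ := SetLike.exists_of_lt (hcond _ hlt)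
  have hn : (u : H) ∈ Subgroup.normalizer (A : Set H) := by
    rw [Subgroup.mem_normalizer_iff] at hu ⊢
    intro x
    constructor
    · intro hx
      have := (hu ⟨x, hAU hx⟩).1 hx
      exact this
    · intro hx
      have hxU : x ∈ U := by
        have h1 : (u : H) * x * (u : H)⁻¹ ∈ U := hAU hx
        have h2 : (u : H)⁻¹ * ((u : H) * x * (u : H)⁻¹) * u ∈ U :=
          U.mul_mem (U.mul_mem (U.inv_mem u.2) h1) u.2
        have h3 : (u : H)⁻¹ * ((u : H) * x * (u : H)⁻¹) * u = x := by group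
        rwa [h3] at h2
      exact (hu ⟨x, hxU⟩).2 hx
  apply hu'
  rw [Subgroup.mem_subgroupOf]
  exact h ⟨u.2, hn⟩

section toggle

variable {H : Type*} [Group H] {σ : Set (Subgroup H)} {A U : Subgroup H}

theorem E1Data.le_N (h : E1Data σ A U) : A ≤ e1N σ A U :=
  e1_le_N.2 ⟨h.lt.le, fun Y hY hYA => h.nor A h.hA le_rfl Y hY hYA⟩

theorem e1_N_le : e1N σ A U ≤ U := inf_le_left

theorem E1Data.N_lt (h : E1Data σ A U) : e1N σ A U < U := by
  refine lt_of_le_of_ne e1_N_le fun he => ?_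
  obtain ⟨Y, hY, hYA, hb⟩ := h.bad
  exact hb ((e1_le_N.1 he.ge).2 Y hY hYA)

theorem E1Data.N_eq (h : E1Data σ A U) (hN : e1N σ A U ∈ σ) : e1N σ A U = A :=
  le_antisymm ((h.sep _ hN).resolve_right fun h1 => absurd h.N_lt (not_lt_of_ge h1)) h.le_N

theorem E1Data.le_A (h : E1Data σ A U) {Y : Subgroup H} (hY : Y ∈ σ) (hYN : Y ≤ e1N σ A U) :
    Y ≤ A :=
  (h.sep Y hY).resolve_right fun h1 => absurd h.N_lt (not_lt_of_ge (h1.trans hYN))

/-- adding `N` -/
theorem E1Data.ins (h : E1Data σ A U) (hN : e1N σ A U ∉ σ) :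
    E1Data (insert (e1N σ A U) σ) (e1N σ A U) U ∧
      e1N (insert (e1N σ A U) σ) (e1N σ A U) U = e1N σ A U := by
  set N := e1N σ A U with hNdef
  have hAN : A ≤ N := h.le_N
  have hNU : N < U := h.N_lt
  have hNY : ∀ Y ∈ σ, Y ≤ N → Y ≤ A := fun Y hY hYN => h.le_A hY hYN
  have hNn : ∀ Y ∈ σ, Y ≤ A → N ≤ Subgroup.normalizer (Y : Set H) :=
    (e1_le_N.1 (le_refl N)).2
  refine ⟨⟨Set.mem_insert _ _, Set.mem_insert_of_mem _ h.hU, hNU, ?_, ?_, ?_⟩, ?_⟩
  · rintro Y (rfl | hY)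
    · exact Or.inl le_rfl
    · rcases h.sep Y hY with h1 | h1
      · exact Or.inl (h1.trans hAN)
      · exact Or.inr h1
  · rintro X (rfl | hX) hXN Y (rfl | hY) hYX
    · exact Subgroup.le_normalizer
    · exact hNn Y hY (hNY Y hY hYX)
    · have : X = N := le_antisymm hXN hYX
      rw [this]
      exact Subgroup.le_normalizer
    · exact h.nor X hX (hNY X hX hXN) Y hY hYX
  · obtain ⟨Y, hY, hYA, hb⟩ := h.bad
    exact ⟨Y, Set.mem_insert_of_mem _ hY, hYA.trans hAN, hb⟩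
  · apply le_antisymm
    · rw [hNdef]
      refine e1_le_N.2 ⟨e1_N_le, fun Y hY hYA => ?_⟩
      exact (e1_le_N.1 (le_refl (e1N (insert N σ) N U))).2 Y (Set.mem_insert_of_mem _ hY)
        (hYA.trans hAN)
    · refine e1_le_N.2 ⟨hNU.le, ?_⟩
      rintro Y (rfl | hY) hYN
      · exact Subgroup.le_normalizer
      · exact hNn Y hY (hNY Y hY hYN)

theorem E1Data.ne_bot (h : E1Data σ A U) (hN : e1N σ A U = A) : A ≠ ⊥ := by
  rintro rfl
  obtain ⟨Y, hY, hYA, hb⟩ := h.bad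
  rw [le_bot_iff] at hYA
  subst hYA
  apply hb
  intro u _
  rw [Subgroup.mem_normalizer_iff]
  intro x
  rw [Subgroup.mem_bot, Subgroup.mem_bot]
  constructor
  · rintro rfl
    group
  · intro hx
    have : x = u⁻¹ * (u * x * u⁻¹) * u := by group
    rw [this, hx]
    group

/-- removing `N = A` -/
theorem E1Data.remove [Finite H] {ℓ : ℕ} [Fact ℓ.Prime] {B : Subgroup H} (hσ : IsPChain ℓ B σ)
    (h : E1Data σ A U) (hN : e1N σ A U = A) :
    ∃ A', E1Data (σ \ {A}) A' U ∧ e1N (σ \ {A}) A' U = A := by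
  have hA0 : A ≠ ⊥ := h.ne_bot hN
  have hJ : sSup {X | X ∈ σ ∧ X < A} ∈ {X | X ∈ σ ∧ X < A} :=
    sSup_mem_of_total ⟨⊥, hσ.bot_mem, bot_lt_iff_ne_bot.2 hA0⟩
      fun X hX Y hY => hσ.total X hX.1 Y hY.1
  set A' := sSup {X | X ∈ σ ∧ X < A} with hA'
  have hle : ∀ Y ∈ σ \ {A}, Y ≤ A → Y ≤ A' := fun Y hY hYA =>
    le_sSup ⟨hY.1, lt_of_le_of_ne hYA hY.2⟩
  have hlt : ∀ Y : Subgroup H, Y ≤ A' → Y < A := fun Y hY => lt_of_le_of_lt hY hJ.2
  have hmem : ∀ Y ∈ σ, Y ≤ A → Y = A ∨ (Y ∈ σ \ {A} ∧ Y ≤ A') := by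
    intro Y hY hYA
    by_cases hYe : Y = A
    · exact Or.inl hYe
    · exact Or.inr ⟨⟨hY, hYe⟩, hle Y ⟨hY, hYe⟩ hYA⟩
  have hUp : IsPGroup ℓ U := hσ.isPGroup U h.hU
  have hbad : ∃ Y ∈ σ \ {A}, Y ≤ A' ∧ ¬ U ≤ Subgroup.normalizer (Y : Set H) := by
    by_contra hcon
    push Not at hcon
    have h1 : U ⊓ Subgroup.normalizer (A : Set H) ≤ A := by
      rw [← hN]
      conv_lhs => rw [hN]
      refine e1_le_N.2 ⟨inf_le_left, fun Y hY hYA => ?_⟩
      rcases hmem Y hY hYA with rfl | ⟨h1, h2⟩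
      · exact inf_le_right
      · exact inf_le_left.trans (hcon Y h1 h2)
    exact h.lt.ne (e1_normalizer hUp h.lt.le h1)
  have hdata : E1Data (σ \ {A}) A' U := by
    refine ⟨⟨hJ.1, hJ.2.ne⟩, ⟨h.hU, h.lt.ne'⟩, hJ.2.trans h.lt, ?_, ?_, hbad⟩
    · intro Y hY
      rcases h.sep Y hY.1 with h1 | h1
      · exact Or.inl (hle Y hY h1)
      · exact Or.inr h1
    · intro X hX hXA Y hY hYX
      exact h.nor X hX.1 (hlt X hXA).le Y hY.1 hYX
  refine ⟨A', hdata, ?_⟩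
  have hAN' : A ≤ e1N (σ \ {A}) A' U :=
    e1_le_N.2 ⟨h.lt.le, fun Y hY hYA => h.nor A h.hA le_rfl Y hY.1 (hlt Y hYA).le⟩
  have hN'p : IsPGroup ℓ (e1N (σ \ {A}) A' U) := hUp.to_le e1_N_le
  refine (e1_normalizer hN'p hAN' ?_).symm
  rw [← hN]
  conv_lhs => rw [hN]
  refine e1_le_N.2 ⟨inf_le_left.trans e1_N_le, fun Y hY hYA => ?_⟩
  rcases hmem Y hY hYA with rfl | ⟨h1, h2⟩
  · exact inf_le_right
  · exact inf_le_left.trans ((e1_le_N.1 (le_refl (e1N (σ \ {A}) A' U))).2 Y h1 h2)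

/-- `B` normalises `N` -/
theorem e1_norm {B : Subgroup H} (hU : B ≤ Subgroup.normalizer (U : Set H))
    (hY : ∀ Y ∈ σ, B ≤ Subgroup.normalizer (Y : Set H)) :
    B ≤ Subgroup.normalizer (e1N σ A U : Set H) := by
  have key : ∀ b ∈ B, ∀ x ∈ e1N σ A U, b * x * b⁻¹ ∈ e1N σ A U := by
    intro b hb x hx
    have h1 : Subgroup.zpowers x ≤ e1N σ A U := by
      rw [Subgroup.zpowers_le]
      exact hx
    have h2 := e1_le_N.1 h1
    have h3 : Subgroup.zpowers (b * x * b⁻¹) ≤ e1N σ A U := by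
      refine e1_le_N.2 ⟨?_, fun Y hYσ hYA => ?_⟩
      · rw [Subgroup.zpowers_le]
        have h4 := h2.1 (Subgroup.mem_zpowers x)
        exact (Subgroup.mem_normalizer_iff.1 (hU hb) x).1 h4
      · rw [Subgroup.zpowers_le]
        have h4 := h2.2 Y hYσ hYA (Subgroup.mem_zpowers x)
        have h5 := hY Y hYσ hb
        exact Subgroup.mul_mem _ (Subgroup.mul_mem _ h5 h4) (Subgroup.inv_mem _ h5)
    exact h3 (Subgroup.mem_zpowers _)
  intro b hb
  rw [Subgroup.mem_normalizer_iff]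
  intro x
  constructor
  · exact key b hb x
  · intro hx
    have h1 := key b⁻¹ (B.inv_mem hb) _ hx
    have h2 : b⁻¹ * (b * x * b⁻¹) * b⁻¹⁻¹ = x := by group
    rwa [h2] at h1

end toggle

open Classical in
/-- the group which is added or removed -/
def e1n {H : Type*} [Group H] (σ : Set (Subgroup H)) : Subgroup H :=
  if h : ∃ p : Subgroup H × Subgroup H, E1Data σ p.1 p.2 then e1N σ h.choose.1 h.choose.2 else ⊥

theorem E1Data.n_eq {H : Type*} [Group H] {σ : Set (Subgroup H)} {A U : Subgroup H}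
    (h : E1Data σ A U) : e1n σ = e1N σ A U := by
  have hex : ∃ p : Subgroup H × Subgroup H, E1Data σ p.1 p.2 := ⟨(A, U), h⟩
  unfold e1n
  rw [dif_pos hex]
  obtain ⟨h1, h2⟩ := hex.choose_spec.unique h
  rw [h1, h2]

open Classical in
/-- the toggle -/
def e1t {H : Type*} [Group H] (σ : Set (Subgroup H)) : Set (Subgroup H) :=
  if e1n σ ∈ σ then σ \ {e1n σ} else insert (e1n σ) σ

theorem e1_sign {H : Type*} [Finite (Set H)] {σ : Set H} [Finite H] {x : H} (hx : x ∉ σ)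
    (hne : σ.Nonempty) :
    (-1 : ℤ) ^ (σ.ncard - 1) + (-1) ^ ((insert x σ).ncard - 1) = 0 := by
  rw [Set.ncard_insert_of_notMem hx (Set.toFinite σ)]
  have h1 : 0 < σ.ncard := (Set.ncard_pos (Set.toFinite σ)).2 hne
  obtain ⟨m, hm⟩ := Nat.exists_eq_succ_of_ne_zero h1.ne'
  rw [hm]
  simp only [Nat.succ_eq_add_one, Nat.add_sub_cancel]
  rw [pow_succ]
  ring

theorem e1_toggle {ℓ : ℕ} [Fact ℓ.Prime] {H : Type*} [Group H] [Finite H] {B : Subgroup H}
    {σ : Set (Subgroup H)} (hσ : IsPChain ℓ B σ) (hn : ¬ NormalSet σ) :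
    IsPChain ℓ B (e1t σ) ∧ ¬ NormalSet (e1t σ) ∧ e1t (e1t σ) = σ ∧ e1t σ ≠ σ ∧
      (-1 : ℤ) ^ (σ.ncard - 1) + (-1) ^ ((e1t σ).ncard - 1) = 0 := by
  obtain ⟨A, U, h⟩ := e1_exists hσ hn
  have hne := h.n_eq
  by_cases hN : e1N σ A U ∈ σ
  · -- removing
    have hNA : e1N σ A U = A := h.N_eq hN
    have ht : e1t σ = σ \ {A} := by
      unfold e1t
      rw [hne, if_pos hN, hNA]
    obtain ⟨A', h', hN'⟩ := h.remove hσ hNA
    have hA0 : A ≠ ⊥ := h.ne_bot hNA
    have hins : insert A (σ \ {A}) = σ := Set.insert_sdiff_self_of_mem h.hA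
    have hnot : A ∉ σ \ {A} := fun hh => hh.2 rfl
    rw [ht]
    refine ⟨⟨⟨hσ.bot_mem, fun hh => hA0 (Set.mem_singleton_iff.1 hh).symm⟩,
      fun X hX => hσ.isPGroup X hX.1, fun X hX Y hY => hσ.total X hX.1 Y hY.1,
      fun X hX => hσ.norm X hX.1⟩, h'.not_normal, ?_, ?_, ?_⟩
    · unfold e1t
      rw [h'.n_eq, hN', if_neg hnot, hins]
    · intro hh
      rw [← hh] at h
      exact h.hA.2 rfl
    · have h1 := e1_sign (σ := σ \ {A}) hnot
        ⟨⊥, hσ.bot_mem, fun hh => hA0 (Set.mem_singleton_iff.1 hh).symm⟩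
      rw [hins] at h1
      linarith
  · -- adding
    have ht : e1t σ = insert (e1N σ A U) σ := by
      unfold e1t
      rw [hne, if_neg hN]
    obtain ⟨h', hN'⟩ := h.ins hN
    rw [ht]
    refine ⟨⟨Set.mem_insert_of_mem _ hσ.bot_mem, ?_, ?_, ?_⟩, h'.not_normal, ?_, ?_, ?_⟩
    · rintro X (rfl | hX)
      · exact (hσ.isPGroup U h.hU).to_le e1_N_le
      · exact hσ.isPGroup X hX
    · have key : ∀ Y ∈ σ, Y ≤ e1N σ A U ∨ e1N σ A U ≤ Y := by
        intro Y hY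
        rcases h.sep Y hY with h1 | h1
        · exact Or.inl (h1.trans h.le_N)
        · exact Or.inr (e1_N_le.trans h1)
      rintro X (rfl | hX) Y (rfl | hY)
      · exact Or.inl le_rfl
      · exact (key Y hY).symm
      · exact key X hX
      · exact hσ.total X hX Y hY
    · rintro X (rfl | hX)
      · exact e1_norm (hσ.norm U h.hU) hσ.norm
      · exact hσ.norm X hX
    · unfold e1t
      rw [h'.n_eq, hN', if_pos (Set.mem_insert _ _)]
      exact Set.insert_sdiff_self_of_notMem hN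
    · intro hh
      have h1 := Set.mem_insert (e1N σ A U) σ
      rw [hh] at h1
      exact hN h1
    · exact e1_sign hN ⟨⊥, hσ.bot_mem⟩

theorem eul_eq_all (ℓ : ℕ) [Fact ℓ.Prime] {H : Type*} [Group H] [Finite H] (B : Subgroup H) :
    eul ℓ B = ∑ᶠ σ : {σ : Set (Subgroup H) // IsPChain ℓ B σ}, (-1) ^ (σ.1.ncard - 1) := by
  classical
  haveI : Fintype (Set (Subgroup H)) := Fintype.ofFinite _
  have key : ∀ p : Set (Subgroup H) → Prop,
      ∑ᶠ x : {x : Set (Subgroup H) // p x}, (-1 : ℤ) ^ (x.1.ncard - 1) =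
        ∑ x ∈ Finset.univ.filter p, (-1 : ℤ) ^ (x.ncard - 1) := by
    intro p
    rw [finsum_eq_sum_of_fintype]
    exact (Finset.sum_subtype (Finset.univ.filter p) (fun x => by simp)
      (fun x => (-1 : ℤ) ^ (x.ncard - 1))).symm
  rw [eul_eq, key, key]
  have h0 : ∑ x ∈ Finset.univ.filter (fun σ => IsPChain ℓ B σ ∧ ¬ NormalSet σ),
      (-1 : ℤ) ^ (x.ncard - 1) = 0 := by
    refine Finset.sum_involution (fun σ _ => e1t σ) ?_ ?_ ?_ ?_
    · intro σ hσ
      rw [Finset.mem_filter] at hσ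
      exact (e1_toggle hσ.2.1 hσ.2.2).2.2.2.2
    · intro σ hσ _
      rw [Finset.mem_filter] at hσ
      exact (e1_toggle hσ.2.1 hσ.2.2).2.2.2.1
    · intro σ hσ
      rw [Finset.mem_filter] at hσ ⊢
      have h1 := e1_toggle hσ.2.1 hσ.2.2
      exact ⟨Finset.mem_univ _, h1.1, h1.2.1⟩
    · intro σ hσ
      rw [Finset.mem_filter] at hσ
      exact (e1_toggle hσ.2.1 hσ.2.2).2.2.1
  have h1 : Finset.univ.filter (fun σ : Set (Subgroup H) => IsPChain ℓ B σ) =
      Finset.univ.filter (fun σ => IsPChain ℓ B σ ∧ NormalSet σ) ∪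
      Finset.univ.filter (fun σ => IsPChain ℓ B σ ∧ ¬ NormalSet σ) := by
    ext σ
    simp only [Finset.mem_filter, Finset.mem_univ, true_and, Finset.mem_union]
    tauto
  have hd : Disjoint
      (Finset.univ.filter (fun σ : Set (Subgroup H) => IsPChain ℓ B σ ∧ NormalSet σ))
      (Finset.univ.filter (fun σ : Set (Subgroup H) => IsPChain ℓ B σ ∧ ¬ NormalSet σ)) := by
    rw [Finset.disjoint_left]
    intro σ h2 h3
    rw [Finset.mem_filter] at h2 h3
    exact h3.2.2 h2.2.2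
  rw [h1, Finset.sum_union hd, h0, add_zero]
  refine Finset.sum_congr ?_ fun _ _ => rfl
  ext σ
  simp only [Finset.mem_filter]

end Pool.FS95
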