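import Pool.Agent.LibFS95.Fu

/-!
Row F1: centric subgroups. EASY.

Plan. `centric_of_le`: `e : P ≃* P'` in `F`, `Q' = img e Q` is `F`-conjugate to `Q` (`restr_mem`), so `C_S(P') ≤ C_S(Q') ≤ Q' ≤ P'`. `fullyCentralized_of_centric`: if `Q'` is conjugate to the centric `Q` then so is every conjugate `R` of `Q'`,
and `C_S(R) = Z(R)` has the order of `Z(Q)` (`Z(R)` as a subgroup of `S`; it corresponds to `Z(Q)` under the isomorphism). `exists_fullyNormalized`: maximise `|N_S(Q')|` over the finite set of conjugates.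
-/

set_option autoImplicit false
noncomputable section
open MulAction
namespace Pool.FS95

variable {S : Type} [Group S]

theorem centric_conj {F : FusionSystem S} {P Q : Subgroup S} (h : F.Centric P) (hc : F.Conj P Q) :
    F.Centric Q := by
  exact fun R hR => h R (F.conj_trans hc hR)

theorem centric_of_le {F : FusionSystem S} {P Q : Subgroup S} (hQ : F.Centric Q) (h : Q ≤ P) :
    F.Centric P := by
  rintro P' ⟨e, he⟩
  have h1 : F.Conj Q (img e Q) := ⟨restr e h, restr_mem he h⟩
  have h2 := hQ _ h1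
  exact (Subgroup.centralizer_le (img_le e Q)).trans (h2.trans (img_le e Q))

theorem fullyCentralized_of_centric [Finite S] {F : FusionSystem S} {Q Q' : Subgroup S}
    (hQ : F.Centric Q) (hc : F.Conj Q Q') : F.FullyCentralized Q' := by
  have key : ∀ R, F.Conj Q R →
      Nat.card (Subgroup.centralizer (R : Set S)) = Nat.card (Subgroup.center Q) := by
    rintro R ⟨e, he⟩
    have hR := hQ R ⟨e, he⟩
    rw [Nat.card_congr (Subgroup.centerCongr e).toEquiv]
    refine Nat.card_congr ⟨fun z => ⟨⟨z, hR z.2⟩, ?_⟩, fun z => ⟨(z : R), ?_⟩, fun _ => rfl,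
      fun _ => rfl⟩
    · rw [Subgroup.mem_center_iff]
      intro g
      exact Subtype.ext (Subgroup.mem_centralizer_iff.1 z.2 g g.2)
    · rw [Subgroup.mem_centralizer_iff]
      intro g hg
      exact congrArg (fun w : R => (w : S)) (Subgroup.mem_center_iff.1 z.2 ⟨g, hg⟩)
  intro R hR
  rw [key R (F.conj_trans hc hR), key Q' hc]

theorem exists_fullyNormalized [Finite S] (F : FusionSystem S) (Q : Subgroup S) :
    ∃ Q', F.Conj Q Q' ∧ F.FullyNormalized Q' := by
  obtain ⟨Q', h1, h2⟩ := Set.exists_max_image {Q' : Subgroup S | F.Conj Q Q'}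
    (fun R => Nat.card (Subgroup.normalizer (R : Set S))) (Set.toFinite _) ⟨Q, F.conj_refl Q⟩
  exact ⟨Q', h1, fun R hR => h2 R (F.conj_trans h1 hR)⟩

end Pool.FS95
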