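import Pool.Agent.LibFS95.F6

/-!
Row F10: the value of `toQT d` is `0` when `C_P(x)` is not contained in `Q`.

Plan. `T₂ = TQ F σ x`, `Q = sInf τ`. `M = AutR Q P ⊓ T₂` is a normal subgroup of `T₂` (`T₂` normalises the top `AutR Q P` of the chain: it permutes the finite totally ordered `σ`) and an `ℓ`-group (`AutR_isPGroup`), `inn Q ≤ M`. Take `g ∈ C_P(x)`, `g ∉ Q`: `c_g|_Q ∈ AutR Q P`, it normalises the members of `σ` (all `X ∈ τ` are normal in `P`) and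
fixes `x`, so it is in `M`; it is not in `inn Q` (`c_g = c_q` on `Q` gives `q⁻¹ g ∈ C_S(Q) ≤ Q`). So the image of `M` in `outq T₂` is a non-trivial normal `ℓ`-subgroup, and `ζ = 0`.
-/

set_option autoImplicit false
noncomputable section
open MulAction
namespace Pool.FS95

variable {S : Type} [Group S]

theorem f10_cj_iff {H : Type*} [Group H] (h : H) (X : Subgroup H)
    (h1 : h ∈ Subgroup.normalizer (X : Set H)) : cj h X = X := by
  rw [Subgroup.mem_normalizer_iff] at h1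
  ext z
  rw [mem_cj]
  constructor
  · rintro ⟨x, hx, rfl⟩
    exact (h1 x).1 hx
  · intro hz
    refine ⟨h⁻¹ * z * h, (h1 _).2 ?_, by group⟩
    have h2 : h * (h⁻¹ * z * h) * h⁻¹ = z := by group
    rwa [h2]

theorem f10_cj_eq {H : Type*} [Group H] [Finite H] {σ : Set (Subgroup H)}
    (ht : ∀ X ∈ σ, ∀ Y ∈ σ, X ≤ Y ∨ Y ≤ X) {g : H} (h : cj g '' σ = σ) {X : Subgroup H}
    (hX : X ∈ σ) : cj g X = X := by
  have h1 : cj g X ∈ σ := by rw [← h]; exact ⟨X, hX, rfl⟩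
  have h2 : Nat.card (cj g X) = Nat.card X :=
    (Nat.card_congr (Subgroup.equivMapOfInjective _ _ (MulAut.conj g).injective).toEquiv).symm
  rcases ht _ h1 X hX with h3 | h3
  · exact Subgroup.eq_of_le_of_card_ge h3 h2.ge
  · exact (Subgroup.eq_of_le_of_card_ge h3 h2.le).symm

theorem toQT_val_zero [Finite S] {ℓ : ℕ} [Fact ℓ.Prime] (hS : IsPGroup ℓ S) {F : FusionSystem S}
    {ζ : ∀ (K : Type) [Group K], ℤ}
    (h0 : ∀ (K : Type) [Group K] [Finite K], ¬ OTriv ℓ K → ζ K = 0) (d : DT F)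
    (hc : F.Centric (sInf d.τ)) (hx : ¬ d.cx ≤ sInf d.τ) : (toQT hS d hc).val ζ = 0 := by
  have hcc : Subgroup.centralizer ((sInf d.τ : Subgroup S) : Set S) ≤ sInf d.τ := hc _ (F.conj_refl _)
  have hQ := sInf_mem_DT d
  have hPN := d.normal _ hQ
  have : Finite (MulAut ↥(sInf d.τ)) :=
    Finite.of_injective (fun e : MulAut ↥(sInf d.τ) => (e : ↥(sInf d.τ) → ↥(sInf d.τ)))
      DFunLike.coe_injective
  let T2 := TQ F (AutR (sInf d.τ) '' d.τ) (⟨d.x, d.x_mem⟩ : ↥(sInf d.τ))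
  obtain ⟨g, hg, hgQ⟩ := Set.not_subset.1 hx
  obtain ⟨hg1, hg2⟩ := Subgroup.mem_inf.1 hg
  have hgN := Subgroup.mem_normalizer_iff.1 (hPN hg2)
  have hgN' := Subgroup.mem_normalizer_iff.1 (hPN (inv_mem hg2))
  let α : MulAut ↥(sInf d.τ) :=
    { toFun := fun x => ⟨g * x * g⁻¹, (hgN x).1 x.2⟩
      invFun := fun x => ⟨g⁻¹ * x * g⁻¹⁻¹, (hgN' x).1 x.2⟩
      left_inv := fun x => Subtype.ext (by change g⁻¹ * (g * (x : S) * g⁻¹) * g⁻¹⁻¹ = x; group)
      right_inv := fun x => Subtype.ext (by change g * (g⁻¹ * (x : S) * g⁻¹⁻¹) * g⁻¹ = x; group)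
      map_mul' := fun x y => Subtype.ext (by
        change g * ((x : S) * y) * g⁻¹ = (g * x * g⁻¹) * (g * y * g⁻¹); group) }
  have hα : α ∈ AutR (sInf d.τ) d.P := ⟨g, hg2, fun x => rfl⟩
  have hαx : α ⟨d.x, d.x_mem⟩ = ⟨d.x, d.x_mem⟩ := by
    apply Subtype.ext
    change g * (d.x : S) * g⁻¹ = d.x
    have h1 := Subgroup.mem_centralizer_iff.1 hg1 d.x rfl
    rw [← h1]; group
  have hαT : α ∈ T2 := by
    refine ⟨AutR_le_AutF F _ _ hα, ?_, by rw [hαx]⟩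
    have h1 : ∀ X ∈ AutR (sInf d.τ) '' d.τ, cj α X = X := by
      rintro _ ⟨X, hX, rfl⟩
      exact f10_cj_iff _ _ (AutR_le_normalizer (d.normal X hX) hPN hα)
    rw [Set.image_congr h1, Set.image_id']
  have hαinn : α ∉ FusionSystem.inn ↥(sInf d.τ) := by
    rintro ⟨q, hq⟩
    apply hgQ
    have h1 : (q : S)⁻¹ * g ∈ Subgroup.centralizer ((sInf d.τ : Subgroup S) : Set S) := by
      rw [Subgroup.mem_centralizer_iff]
      intro z hz
      have h2 := DFunLike.congr_fun hq ⟨z, hz⟩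
      have h3 : (q : S) * z * (q : S)⁻¹ = g * z * g⁻¹ :=
        congrArg (fun t : ↥(sInf d.τ) => (t : S)) h2
      calc z * ((q : S)⁻¹ * g) = (q : S)⁻¹ * ((q : S) * z * (q : S)⁻¹) * g := by group
        _ = (q : S)⁻¹ * (g * z * g⁻¹) * g := by rw [h3]
        _ = (q : S)⁻¹ * g * z := by group
    have h2 := hcc h1
    have h3 : g = (q : S) * ((q : S)⁻¹ * g) := by group
    rw [h3]
    exact mul_mem q.2 h2
  have hN : ((AutR (sInf d.τ) d.P).subgroupOf T2).Normal := by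
    constructor
    rintro ⟨β, hβ⟩ h1 ⟨γ, hγ⟩
    rw [Subgroup.mem_subgroupOf] at h1 ⊢
    change γ * β * γ⁻¹ ∈ AutR (sInf d.τ) d.P
    have h2 := f10_cj_eq (toQT hS d hc).total (mem_TQ.1 hγ).2.1
      (show AutR (sInf d.τ) d.P ∈ AutR (sInf d.τ) '' d.τ from ⟨d.P, d.top_mem, rfl⟩)
    rw [← h2]
    exact mem_cj.2 ⟨β, h1, rfl⟩
  have hNp : IsPGroup ℓ ((AutR (sInf d.τ) d.P).subgroupOf T2) :=
    (AutR_isPGroup hS hPN).comap_of_injective _ T2.subtype_injective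
  have hOT : ¬ OTriv ℓ (FusionSystem.outq T2) := by
    intro hO
    have h1 := hO (((AutR (sInf d.τ) d.P).subgroupOf T2).map
      (QuotientGroup.mk' ((FusionSystem.inn ↥(sInf d.τ)).subgroupOf T2)))
      (Subgroup.Normal.map hN _ (QuotientGroup.mk'_surjective _)) (hNp.map _)
    have h2 : QuotientGroup.mk' ((FusionSystem.inn ↥(sInf d.τ)).subgroupOf T2) ⟨α, hαT⟩ ∈
        ((AutR (sInf d.τ) d.P).subgroupOf T2).map
          (QuotientGroup.mk' ((FusionSystem.inn ↥(sInf d.τ)).subgroupOf T2)) :=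
      ⟨⟨α, hαT⟩, hα, rfl⟩
    rw [h1, Subgroup.mem_bot] at h2
    have h3 : (QuotientGroup.mk ⟨α, hαT⟩ : FusionSystem.outq T2) = 1 := h2
    rw [QuotientGroup.eq_one_iff, Subgroup.mem_subgroupOf] at h3
    exact hαinn h3
  change _ * ζ (FusionSystem.outq T2) = 0
  rw [h0 _ hOT, mul_zero]

end Pool.FS95
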