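import Pool.Agent.LibFS95.F6

/-!
Row F11: `d.val ζ = 0` if the bottom of `τ` is not centric. STRONG.

Plan. We may assume `C_P(x) ≤ Q := sInf τ` (otherwise `val = 0` by definition). (1) Reduction to `C_S(Q) ⊄ Q`: `Q` is not centric, so some conjugate `Q₁` has `C_S(Q₁) ⊄ Q₁`; let `Q'` be a fully normalised conjugate (F1), it is fully centralised (saturation), `|C_S(Q')| ≥ |C_S(Q₁)| > |Z(Q₁)| = |Z(Q')|`, so `C_S(Q') ⊄ Q'`.
There is `e : Q ≃* Q'` in `F` such that `P ≤ Nphi e`: take any `e₀ : Q ≃* Q'`; `mapA e₀ (AutR Q P)` is an `ℓ`-subgroup of `Aut_F(Q')` and `AutS Q'` is a Sylow subgroup, so compose with `β ∈ Aut_F(Q')`. So `e` extends to `P`: an `F`-isomorphism `f : P ≃* P'` with `img f Q = Q'`; replace `d` by its image `d'` (val invariant: `DT.val_congr`). Now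
`C_S(Q) ⊄ Q`, `Q ⊴ P`.
(2) `P C_S(Q)` is an `ℓ`-group strictly larger than `P` (`C_S(Q) ∩ P = C_P(Q) ≤ C_P(x) ≤ Q`, as `x ∈ Q`), so some `g ∈ P C_S(Q) \ P` normalises `P` (normaliser condition), and multiplying by an element of `P` we may take `g ∈ C_S(Q)`, `g ∉ P`.
(3) Let `K = {α ∈ Aut_F(P) | α = id on Q, img α X = X for X ∈ τ} ≤ T₁ = TD F τ x` (`α x = x`). `K` is normal in `T₁` (`T₁` normalises `Q` and the members of `τ`); it is an `ℓ`-group: `α(g) = g z(g)` with `z(g) ∈ C_P(Q) ≤ Q` fixed by `α`, so `α^{|S|} = 1`. `c_g ∈ K`: for `p ∈ P`, `[g,p] ∈ C_S(Q) ∩ P ≤ Q` (`C_S(Q)` is normalised by `P`), so `c_g` preserves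
every `X ∈ τ` (`X ≥ Q`). `c_g ∉ Inn(P)` because `g ∉ P = P C_S(P)` (`P` centric). So the image of `K` in `outq T₁` is a non-trivial normal `ℓ`-subgroup: `ζ = 0`.
-/

set_option autoImplicit false
noncomputable section
open MulAction
namespace Pool.FS95

variable {S : Type} [Group S]

theorem f11_mem_norm {Q : Subgroup S} {α : MulAut Q} {g : S}
    (h : ∀ x : Q, (α x : S) = g * x * g⁻¹) : g ∈ Subgroup.normalizer (Q : Set S) := by
  rw [Subgroup.mem_normalizer_iff]
  intro x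
  constructor
  · intro hx
    have := h ⟨x, hx⟩
    have h1 : g * x * g⁻¹ = (α ⟨x, hx⟩ : S) := this.symm
    rw [h1]; exact (α ⟨x, hx⟩).2
  · intro hx
    have := h (α⁻¹ ⟨_, hx⟩)
    rw [MulAut.apply_inv_self] at this
    have h1 : x = (α⁻¹ ⟨_, hx⟩ : Q) := by
      have h2 : g * x * g⁻¹ = g * (α⁻¹ ⟨_, hx⟩ : Q) * g⁻¹ := this
      exact mul_left_cancel (mul_right_cancel h2)
    rw [h1]; exact (α⁻¹ ⟨_, hx⟩).2

theorem f11_sylow {ℓ : ℕ} [Fact ℓ.Prime] {G : Type*} [Group G] [Finite G] {B A X : Subgroup G}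
    (hA : IsPGroup ℓ A) (hA' : ¬ ℓ ∣ A.relIndex B) (hX : IsPGroup ℓ X) (hXB : X ≤ B) :
    ∃ b ∈ B, cj b X ≤ A := by
  have h1 : IsPGroup ℓ (A.subgroupOf B) := hA.comap_of_injective _ B.subtype_injective
  have h2 : IsPGroup ℓ (X.subgroupOf B) := hX.comap_of_injective _ B.subtype_injective
  obtain ⟨P, hP⟩ := h2.exists_le_sylow
  obtain ⟨b, hb⟩ := exists_smul_eq B P (h1.toSylow hA')
  refine ⟨b, b.2, ?_⟩
  intro z hz
  obtain ⟨x, hx, rfl⟩ := mem_cj.1 hz
  have h3 : (b * (⟨x, hXB hx⟩ : B) * b⁻¹) ∈ ((b • P : Sylow ℓ B) : Subgroup B) := by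
    rw [Sylow.coe_subgroup_smul]
    exact (Subgroup.smul_mem_pointwise_smul _ (MulAut.conj b) (P : Subgroup B) (hP hx))
  rw [hb] at h3
  exact h3

theorem f11_norm {ℓ : ℕ} [Fact ℓ.Prime] {G : Type*} [Group G] [Finite G] (hG : IsPGroup ℓ G)
    {A C : Subgroup G} [C.Normal] (h : ¬ C ≤ A) :
    ∃ c ∈ C, c ∈ Subgroup.normalizer (A : Set G) ∧ c ∉ A := by
  set T : Subgroup G := A ⊔ C with hT
  have hTp : IsPGroup ℓ T := hG.to_subgroup T
  have hAT : A ≤ T := le_sup_left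
  have : Group.IsNilpotent T := hTp.isNilpotent
  have hlt : A.subgroupOf T < ⊤ := by
    refine lt_top_iff_ne_top.2 fun h1 => h ?_
    rw [Subgroup.subgroupOf_eq_top] at h1
    exact le_sup_right.trans h1
  have h1 := Group.normalizerCondition_of_isNilpotent (G := T) _ hlt
  obtain ⟨x, hx1, hx2⟩ := SetLike.exists_of_lt h1
  obtain ⟨p, hp, v, hv, hpv⟩ := Subgroup.mem_sup_of_normal_right.1 x.2
  have hxN : (x : G) ∈ Subgroup.normalizer (A : Set G) := by
    rw [Subgroup.mem_normalizer_iff]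
    intro y
    have h2 := Subgroup.mem_normalizer_iff.1 hx1
    constructor
    · intro hy
      exact (h2 ⟨y, hAT hy⟩).1 hy
    · intro hy
      have h3 : y ∈ T := by
        have h4 := T.mul_mem (T.mul_mem (T.inv_mem x.2) (hAT hy)) x.2
        have h5 : (x : G)⁻¹ * ((x : G) * y * (x : G)⁻¹) * (x : G) = y := by group
        rwa [h5] at h4
      exact (h2 ⟨y, h3⟩).2 hy
  have hvx : v = p⁻¹ * (x : G) := by rw [← hpv]; group
  refine ⟨v, hv, ?_, fun hvP => hx2 ?_⟩
  · rw [hvx]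
    exact mul_mem (inv_mem (Subgroup.le_normalizer hp)) hxN
  · rw [Subgroup.mem_subgroupOf, ← hpv]
    exact mul_mem hp hvP

/-- `|Z(Q)|` is an isomorphism invariant -/
theorem f11_card_center {Q Q' : Subgroup S} (e : Q ≃* Q') :
    Nat.card ↥(Subgroup.centralizer (Q : Set S) ⊓ Q) =
      Nat.card ↥(Subgroup.centralizer (Q' : Set S) ⊓ Q') := by
  have key : ∀ A : Subgroup S, Nat.card ↥(Subgroup.centralizer (A : Set S) ⊓ A) =
      Nat.card (Subgroup.center A) := by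
    intro A
    have h1 : (Subgroup.center A).map A.subtype = Subgroup.centralizer (A : Set S) ⊓ A := by
      ext z
      constructor
      · rintro ⟨y, hy, rfl⟩
        refine Subgroup.mem_inf.2 ⟨Subgroup.mem_centralizer_iff.2 fun w hw => ?_, y.2⟩
        exact congrArg (fun t : A => (t : S)) (Subgroup.mem_center_iff.1 hy ⟨w, hw⟩)
      · intro hz
        obtain ⟨h1, h2⟩ := Subgroup.mem_inf.1 hz
        refine ⟨⟨z, h2⟩, Subgroup.mem_center_iff.2 fun w => ?_, rfl⟩
        exact Subtype.ext (Subgroup.mem_centralizer_iff.1 h1 w w.2)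
    rw [← h1]
    exact (Nat.card_congr (Subgroup.equivMapOfInjective _ _ A.subtype_injective).toEquiv).symm
  rw [key, key]
  exact Nat.card_congr (Subgroup.centerCongr e).toEquiv

/-- the good isomorphism `f : P ≃* P'` with `C_S(f Q) ⊄ f Q` -/
theorem f11_exists_iso [Finite S] {ℓ : ℕ} [Fact ℓ.Prime] (hS : IsPGroup ℓ S) {F : FusionSystem S}
    (hF : F.Saturated ℓ) {Q P : Subgroup S} (hQP : Q ≤ P)
    (hP : P ≤ Subgroup.normalizer (Q : Set S)) (hc : ¬ F.Centric Q) :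
    ∃ (P' : Subgroup S) (f : P ≃* P'), f ∈ F.Iso P P' ∧
      ¬ Subgroup.centralizer (img f Q : Set S) ≤ img f Q := by
  unfold FusionSystem.Centric at hc
  push Not at hc
  obtain ⟨Q₁, hQ₁, hc₁⟩ := hc
  obtain ⟨Q', hQ', hfn⟩ := exists_fullyNormalized F Q
  obtain ⟨hfc, hsyl⟩ := hF.sylow Q' hfn
  have hc' : ¬ Subgroup.centralizer (Q' : Set S) ≤ Q' := by
    intro h
    have h1 := hfc Q₁ (F.conj_trans (F.conj_symm hQ') hQ₁)
    have h2 : Subgroup.centralizer (Q' : Set S) ⊓ Q' = Subgroup.centralizer (Q' : Set S) :=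
      inf_eq_left.2 h
    obtain ⟨e1, he1⟩ := F.conj_trans (F.conj_symm hQ₁) hQ'
    have h3 := f11_card_center e1
    rw [h2] at h3
    have h4 : Subgroup.centralizer (Q₁ : Set S) ⊓ Q₁ = Subgroup.centralizer (Q₁ : Set S) :=
      Subgroup.eq_of_le_of_card_ge inf_le_left (by rw [h3]; exact h1)
    exact hc₁ (inf_eq_left.1 h4)
  obtain ⟨e₀, he₀⟩ := hQ'
  -- the Sylow subgroup `Aut_S(Q')`
  have hASp : IsPGroup ℓ (FusionSystem.AutS Q') := by
    refine (AutR_isPGroup hS (le_refl (Subgroup.normalizer (Q' : Set S)))).to_le ?_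
    rintro α ⟨g, hg⟩
    exact ⟨g, f11_mem_norm hg, hg⟩
  have hA0F : mapA e₀ (AutR Q P) ≤ F.AutF Q' := by
    rintro _ ⟨α, hα, rfl⟩
    have hα' : α ∈ F.Iso Q Q := AutR_le_AutF F Q P hα
    exact F.iso_trans (F.iso_symm he₀) (F.iso_trans hα' he₀)
  have hA0p : IsPGroup ℓ (mapA e₀ (AutR Q P)) := (AutR_isPGroup hS hP).map _
  have : Finite (MulAut Q') :=
    Finite.of_injective (fun e : MulAut Q' => (e : Q' → Q')) DFunLike.coe_injective
  obtain ⟨β, hβ, hle⟩ := f11_sylow hASp hsyl hA0p hA0F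
  let e : Q ≃* Q' := e₀.trans β
  have he : e ∈ F.Iso Q Q' := F.iso_trans he₀ hβ
  have hPN : P ≤ FusionSystem.Nphi e := by
    intro g hg
    refine ⟨hP hg, ?_⟩
    -- the automorphism of `Q` induced by `g`
    have hgN := Subgroup.mem_normalizer_iff.1 (hP hg)
    have hgN' := Subgroup.mem_normalizer_iff.1 (hP (inv_mem hg))
    let α : MulAut Q :=
      { toFun := fun x => ⟨g * x * g⁻¹, (hgN x).1 x.2⟩
        invFun := fun x => ⟨g⁻¹ * x * g⁻¹⁻¹, (hgN' x).1 x.2⟩
        left_inv := fun x => Subtype.ext (by change g⁻¹ * (g * (x : S) * g⁻¹) * g⁻¹⁻¹ = x; group)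
        right_inv := fun x => Subtype.ext (by change g * (g⁻¹ * (x : S) * g⁻¹⁻¹) * g⁻¹ = x; group)
        map_mul' := fun x y => Subtype.ext (by
          change g * ((x : S) * y) * g⁻¹ = (g * x * g⁻¹) * (g * y * g⁻¹); group) }
    have hα : α ∈ AutR Q P := ⟨g, hg, fun x => rfl⟩
    have h1 : cj β (mapA e₀ (AutR Q P)) ≤ FusionSystem.AutS Q' := hle
    obtain ⟨g', hg'⟩ := h1 (mem_cj.2 ⟨_, ⟨α, hα, rfl⟩, rfl⟩)
    refine ⟨g', f11_mem_norm hg', fun x y hxy => ?_⟩
    have h2 := hg' (e x)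
    have h3 : (β * (MulAut.congr e₀) α * β⁻¹) (e x) = e y := by
      change β (e₀ (α (e₀.symm (β⁻¹ (β (e₀ x)))))) = β (e₀ y)
      rw [MulAut.inv_apply_self, MulEquiv.symm_apply_apply]
      congr 2
      exact Subtype.ext hxy.symm
    rw [← h2]
    exact congrArg (fun z : Q' => (z : S)) h3.symm
  obtain ⟨ψ, hψ, hex⟩ := hF.ext Q Q' e he hfc
  let f₀ : P →* S := (Subgroup.subtype _).comp (ψ.comp (Subgroup.inclusion hPN))
  have hf₀ : Function.Injective f₀ := by
    intro a b hab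
    have h1 : ψ (Subgroup.inclusion hPN a) = ψ (Subgroup.inclusion hPN b) := Subtype.ext hab
    exact Subgroup.inclusion_injective hPN (F.inj hψ h1)
  let f : P ≃* f₀.range := MonoidHom.ofInjective hf₀
  have hf : f ∈ F.Iso P f₀.range := by
    have h1 : Subgroup.inclusion hPN ∈ F.Hom P (FusionSystem.Nphi e) :=
      F.conj_mem P _ 1 _ (fun x => by simp)
    exact (F.factor (F.comp_mem h1 hψ) _ f (fun _ => rfl)).1
  refine ⟨f₀.range, f, hf, ?_⟩
  have himg : img f Q = Q' := by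
    ext z
    rw [mem_img]
    constructor
    · rintro ⟨y, hy, rfl⟩
      have h1 := hex ⟨y, hy⟩ (hPN y.2)
      have h2 : (f y : S) = e ⟨y, hy⟩ := h1
      rw [h2]
      exact (e ⟨y, hy⟩).2
    · intro hz
      obtain ⟨y, hy⟩ := e.surjective ⟨z, hz⟩
      refine ⟨⟨y, hQP y.2⟩, y.2, ?_⟩
      have h1 := hex y (hPN (hQP y.2))
      have h2 : (f ⟨y, hQP y.2⟩ : S) = e y := h1
      rw [h2, hy]
  rw [himg]
  exact hc'

theorem f11_img_eq [Finite S] {P : Subgroup S} {τ : Set (Subgroup S)} (hle : ∀ X ∈ τ, X ≤ P)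
    (ht : ∀ X ∈ τ, ∀ Y ∈ τ, X ≤ Y ∨ Y ≤ X) {α : MulAut P} (h : img α '' τ = τ) {X : Subgroup S}
    (hX : X ∈ τ) : img α X = X := by
  have h1 : img α X ∈ τ := by rw [← h]; exact ⟨X, hX, rfl⟩
  have h2 : Nat.card (img α X) = Nat.card X := (Nat.card_congr (restr α (hle X hX)).toEquiv).symm
  rcases ht _ h1 X hX with h3 | h3
  · exact Subgroup.eq_of_le_of_card_ge h3 h2.ge
  · exact (Subgroup.eq_of_le_of_card_ge h3 h2.le).symm

theorem DT.val_zero [Finite S] {ℓ : ℕ} [Fact ℓ.Prime] (hS : IsPGroup ℓ S) {F : FusionSystem S}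
    (hF : F.Saturated ℓ) {ζ : ∀ (K : Type) [Group K], ℤ} (hζ : IsoInv ζ)
    (h0 : ∀ (K : Type) [Group K] [Finite K], ¬ OTriv ℓ K → ζ K = 0) (d : DT F)
    (hc : ¬ F.Centric (sInf d.τ)) : d.val ζ = 0 := by
  classical
  unfold DT.val
  split_ifs with hx
  swap
  · rfl
  have hQ := sInf_mem_DT d
  have hQP : sInf d.τ ≤ d.P := sInf_le d.top_mem
  have hPN := d.normal _ hQ
  have : Finite (MulAut d.P) :=
    Finite.of_injective (fun e : MulAut d.P => (e : d.P → d.P)) DFunLike.coe_injective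
  -- elements of `P` centralising `Q` are in `Q`
  have hCQ : ∀ z : d.P, (∀ u : S, u ∈ sInf d.τ → u * z = z * u) → (z : S) ∈ sInf d.τ := by
    intro z hz
    apply hx
    refine Subgroup.mem_inf.2 ⟨Subgroup.mem_centralizer_iff.2 fun y hy => ?_, z.2⟩
    rw [Set.mem_singleton_iff] at hy
    rw [hy]
    exact hz _ d.x_mem
  let T1 := TD F d.τ d.le d.x
  let Fix : Subgroup (MulAut d.P) :=
    { carrier := {α | ∀ y : d.P, (y : S) ∈ sInf d.τ → α y = y}
      mul_mem' := fun {a b} ha hb y hy => by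
        change a (b y) = y
        rw [hb y hy, ha y hy]
      one_mem' := fun y _ => rfl
      inv_mem' := fun {a} ha y hy => by
        have h1 := ha y hy
        conv_lhs => rw [← h1]
        exact MulAut.inv_apply_self _ a y }
  have hN : (Fix.subgroupOf T1).Normal := by
    constructor
    rintro ⟨α, hα⟩ h1 ⟨γ, hγ⟩
    rw [Subgroup.mem_subgroupOf] at h1 ⊢
    change ∀ y : d.P, (y : S) ∈ sInf d.τ → γ (α (γ⁻¹ y)) = y
    intro y hy
    have h2 : img (γ⁻¹ : MulAut d.P) (sInf d.τ) = sInf d.τ :=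
      f11_img_eq d.le d.total (mem_TD.1 (inv_mem hγ)).2.1 hQ
    have h3 : ((γ⁻¹ y : d.P) : S) ∈ sInf d.τ := by
      rw [← h2]
      exact mem_img.2 ⟨y, hy, rfl⟩
    rw [h1 _ h3, MulAut.apply_inv_self]
  have hzz : ∀ α ∈ Fix, ∀ g : d.P, ((g⁻¹ * α g : d.P) : S) ∈ sInf d.τ := by
    intro α hα g
    have hz : ∀ u : S, u ∈ sInf d.τ → u * ((g⁻¹ * α g : d.P) : S) = ((g⁻¹ * α g : d.P) : S) * u := by
      intro u hu
      have h1 : (g : S) * u * (g : S)⁻¹ ∈ sInf d.τ :=
        (Subgroup.mem_normalizer_iff.1 (hPN g.2) u).1 hu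
      have h2 := hα (g * ⟨u, hQP hu⟩ * g⁻¹) h1
      rw [map_mul, map_mul, map_inv, hα ⟨u, hQP hu⟩ hu] at h2
      have h3 : ((α g : d.P) : S) * u * ((α g : d.P) : S)⁻¹ = (g : S) * u * (g : S)⁻¹ :=
        congrArg (fun z : d.P => (z : S)) h2
      change u * ((g : S)⁻¹ * (α g : S)) = ((g : S)⁻¹ * (α g : S)) * u
      calc u * ((g : S)⁻¹ * (α g : S)) = (g : S)⁻¹ * ((g : S) * u * (g : S)⁻¹) * (α g : S) := by
            group
        _ = (g : S)⁻¹ * (((α g : d.P) : S) * u * ((α g : d.P) : S)⁻¹) * (α g : S) := by rw [h3]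
        _ = ((g : S)⁻¹ * (α g : S)) * u := by group
    exact hCQ _ hz
  have hNp : IsPGroup ℓ (Fix.subgroupOf T1) := by
    have hFp : IsPGroup ℓ Fix := by
      rintro ⟨α, hα⟩
      obtain ⟨m, hm⟩ := IsPGroup.iff_card.1 hS
      refine ⟨m, Subtype.ext ?_⟩
      change α ^ (ℓ ^ m) = 1
      rw [← hm]
      apply MulEquiv.ext
      intro g
      have h5 : α (g⁻¹ * α g) = g⁻¹ * α g := hα _ (hzz α hα g)
      have h6 : ∀ n : ℕ, (α ^ n) g = g * (g⁻¹ * α g) ^ n := by
        intro n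
        induction n with
        | zero => simp
        | succ n ih =>
          rw [pow_succ', MulAut.mul_apply, ih, map_mul, map_pow, h5, pow_succ' (g⁻¹ * α g),
            ← mul_assoc g]
          congr 1
          group
      have h7 : (g⁻¹ * α g) ^ (Nat.card S) = 1 := Subtype.ext (by
        rw [Subgroup.coe_pow]; exact pow_card_eq_one')
      rw [h6, h7, mul_one]
      rfl
    exact hFp.comap_of_injective _ T1.subtype_injective
  -- the element of `Fix` which is not inner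
  obtain ⟨P', f, hf, hC⟩ := f11_exists_iso hS hF hQP hPN hc
  set Q' := img f (sInf d.τ) with hQ'
  have hfQ : ∀ y : d.P, (y : S) ∈ sInf d.τ ↔ (f y : S) ∈ Q' := by
    intro y
    rw [hQ', mem_img]
    constructor
    · intro hy; exact ⟨y, hy, rfl⟩
    · rintro ⟨z, hz, hzy⟩
      have h1 : z = y := f.injective (Subtype.ext hzy)
      rwa [← h1]
  have hQ'P' : Q' ≤ P' := img_le f _
  have hsurj : ∀ z : S, z ∈ P' → ∃ y : d.P, (f y : S) = z := fun z hz => by
    obtain ⟨y, hy⟩ := f.surjective ⟨z, hz⟩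
    exact ⟨y, by rw [hy]⟩
  have hP'N : P' ≤ Subgroup.normalizer (Q' : Set S) := by
    intro g hg
    obtain ⟨p, rfl⟩ := hsurj g hg
    have key : ∀ (p y : d.P), (y : S) ∈ sInf d.τ → (f p : S) * (f y : S) * (f p : S)⁻¹ ∈ Q' := by
      intro p y hy
      have h1 : ((p * y * p⁻¹ : d.P) : S) ∈ sInf d.τ :=
        (Subgroup.mem_normalizer_iff.1 (hPN p.2) y).1 hy
      have h2 := (hfQ _).1 h1
      rw [map_mul, map_mul, map_inv] at h2
      exact h2
    rw [Subgroup.mem_normalizer_iff]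
    intro x
    constructor
    · intro hx
      obtain ⟨y, rfl⟩ := hsurj x (hQ'P' hx)
      exact key p y ((hfQ y).2 hx)
    · intro hx
      obtain ⟨y, hy⟩ := hsurj _ (hQ'P' hx)
      rw [← hy] at hx
      have h1 := key p⁻¹ y ((hfQ y).2 hx)
      rw [hy, map_inv] at h1
      have h2 : ((f p)⁻¹ : P') = ((f p)⁻¹ : P') := rfl
      have h3 : (((f p)⁻¹ : P') : S) * ((f p : S) * x * (f p : S)⁻¹) * (((f p)⁻¹ : P') : S)⁻¹ = x := by
        change (f p : S)⁻¹ * ((f p : S) * x * (f p : S)⁻¹) * ((f p : S)⁻¹)⁻¹ = x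
        group
      rwa [h3] at h1
  set N := Subgroup.normalizer (Q' : Set S) with hNdef
  set C := Subgroup.centralizer (Q' : Set S) with hCdef
  have hCN : C ≤ N := by
    intro g hg
    rw [hNdef, Subgroup.mem_normalizer_iff]
    have h1 := Subgroup.mem_centralizer_iff.1 hg
    intro x
    constructor
    · intro hx
      have h2 : g * x * g⁻¹ = x := by rw [← h1 x hx]; group
      rwa [h2]
    · intro hx
      have h2 := h1 _ hx
      have h3 : g * x * g⁻¹ = x := by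
        have h4 : g * x = g * (g * x * g⁻¹) := by rw [← h2]; group
        exact (mul_left_cancel h4).symm
      rwa [h3] at hx
  have hCnorm : (C.subgroupOf N).Normal := by
    constructor
    rintro ⟨x, hxN⟩ hx ⟨g, hgN⟩
    rw [Subgroup.mem_subgroupOf] at hx ⊢
    change g * x * g⁻¹ ∈ C
    have hx : x ∈ C := hx
    rw [hCdef, Subgroup.mem_centralizer_iff]
    intro y hy
    have h1 : g⁻¹ * y * g ∈ Q' := by
      have h2 := (Subgroup.mem_normalizer_iff.1 hgN (g⁻¹ * y * g)).2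
      apply h2
      have h3 : g * (g⁻¹ * y * g) * g⁻¹ = y := by group
      rw [h3]; exact hy
    have h2 := Subgroup.mem_centralizer_iff.1 hx _ h1
    calc y * (g * x * g⁻¹) = g * ((g⁻¹ * y * g) * x) * g⁻¹ := by group
      _ = g * (x * (g⁻¹ * y * g)) * g⁻¹ := by rw [h2]
      _ = g * x * g⁻¹ * y := by group
  have hnot : ¬ C.subgroupOf N ≤ P'.subgroupOf N := by
    intro h
    apply hC
    intro z hz
    have h1 : z ∈ P' := h (show (⟨z, hCN hz⟩ : N) ∈ C.subgroupOf N from hz)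
    obtain ⟨y, rfl⟩ := hsurj z h1
    apply (hfQ y).1
    apply hCQ
    intro u hu
    have h2 := Subgroup.mem_centralizer_iff.1 hz _ ((hfQ ⟨u, hQP hu⟩).1 hu)
    have h3 : f (⟨u, hQP hu⟩ * y) = f (y * ⟨u, hQP hu⟩) := by
      rw [map_mul, map_mul]
      exact Subtype.ext h2
    exact congrArg (fun z : d.P => (z : S)) (f.injective h3)
  obtain ⟨⟨c, hcN⟩, hcC, hcP, hcn⟩ := f11_norm (hS.to_subgroup N) hnot
  have hcC : c ∈ C := hcC
  have hcn : c ∉ P' := hcn
  have hcP1 : ∀ x : S, x ∈ P' ↔ c * x * c⁻¹ ∈ P' := by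
    intro x
    have h1 := Subgroup.mem_normalizer_iff.1 hcP
    constructor
    · intro hx
      exact (h1 ⟨x, hP'N hx⟩).1 hx
    · intro hx
      have h2 : x ∈ N := by
        have h3 := mul_mem (mul_mem (inv_mem hcN) (hP'N hx)) hcN
        have h4 : c⁻¹ * (c * x * c⁻¹) * c = x := by group
        rwa [h4] at h3
      exact (h1 ⟨x, h2⟩).2 hx
  let κ : MulAut P' :=
    { toFun := fun x => ⟨c * x * c⁻¹, (hcP1 x).1 x.2⟩
      invFun := fun x => ⟨c⁻¹ * x * c, (hcP1 _).2 (by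
        have h3 : c * (c⁻¹ * (x : S) * c) * c⁻¹ = x := by group
        rw [h3]; exact x.2)⟩
      left_inv := fun x => Subtype.ext (by change c⁻¹ * (c * (x : S) * c⁻¹) * c = x; group)
      right_inv := fun x => Subtype.ext (by change c * (c⁻¹ * (x : S) * c) * c⁻¹ = x; group)
      map_mul' := fun x y => Subtype.ext (by
        change c * ((x : S) * y) * c⁻¹ = (c * x * c⁻¹) * (c * y * c⁻¹); group) }
  have hκ : κ ∈ F.Iso P' P' := F.iso_conj c κ (fun x => rfl)
  let α : MulAut d.P := (f.trans κ).trans f.symm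
  have hαF : α ∈ F.AutF d.P := F.iso_trans (F.iso_trans hf hκ) (F.iso_symm hf)
  have hα : ∀ y : d.P, (f (α y) : S) = c * (f y : S) * c⁻¹ := by
    intro y
    change (f (f.symm (κ (f y))) : S) = _
    rw [MulEquiv.apply_symm_apply]
    rfl
  have hαFix : α ∈ Fix := by
    intro y hy
    apply f.injective
    apply Subtype.ext
    rw [hα]
    have h1 := Subgroup.mem_centralizer_iff.1 hcC _ ((hfQ y).1 hy)
    rw [← h1]
    group
  have hαimg : ∀ X ∈ d.τ, img α X = X := by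
    intro X hX
    have h1 : img α X ≤ X := by
      intro z hz
      obtain ⟨y, hy, rfl⟩ := mem_img.1 hz
      have h2 := sInf_le hX (hzz α hαFix y)
      have h3 : (α y : S) = (y : S) * ((y⁻¹ * α y : d.P) : S) := by
        change (α y : S) = (y : S) * ((y : S)⁻¹ * (α y : S))
        group
      rw [h3]
      exact mul_mem hy h2
    have h2 : Nat.card (img α X) = Nat.card X :=
      (Nat.card_congr (restr α (d.le X hX)).toEquiv).symm
    exact Subgroup.eq_of_le_of_card_ge h1 h2.ge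
  have hαT : α ∈ T1 := by
    refine ⟨hαF, ?_, ?_⟩
    · rw [Set.image_congr hαimg, Set.image_id']
    · rw [hαFix _ d.x_mem]
  have hαinn : α ∉ FusionSystem.inn d.P := by
    rintro ⟨p, hp⟩
    apply hcn
    have h1 : (f p : S)⁻¹ * c ∈ Subgroup.centralizer (P' : Set S) := by
      rw [Subgroup.mem_centralizer_iff]
      intro z hz
      obtain ⟨y, rfl⟩ := hsurj z hz
      have h2 : α y = p * y * p⁻¹ := by rw [← hp]; rfl
      have h3 := hα y
      rw [h2, map_mul, map_mul, map_inv] at h3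
      have h4 : (f p : S) * (f y : S) * (f p : S)⁻¹ = c * (f y : S) * c⁻¹ := h3
      calc (f y : S) * ((f p : S)⁻¹ * c)
          = (f p : S)⁻¹ * ((f p : S) * (f y : S) * (f p : S)⁻¹) * c := by group
        _ = (f p : S)⁻¹ * (c * (f y : S) * c⁻¹) * c := by rw [h4]
        _ = (f p : S)⁻¹ * c * (f y : S) := by group
    have h2 := d.centric P' ⟨f, hf⟩ h1
    have h3 : c = (f p : S) * ((f p : S)⁻¹ * c) := by group
    rw [h3]
    exact mul_mem (f p).2 h2
  have hOT : ¬ OTriv ℓ (FusionSystem.outq T1) := by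
    intro hO
    have h1 := hO ((Fix.subgroupOf T1).map (QuotientGroup.mk' ((FusionSystem.inn d.P).subgroupOf T1)))
      (Subgroup.Normal.map hN _ (QuotientGroup.mk'_surjective _)) (hNp.map _)
    have h2 : QuotientGroup.mk' ((FusionSystem.inn d.P).subgroupOf T1) ⟨α, hαT⟩ ∈
        (Fix.subgroupOf T1).map (QuotientGroup.mk' ((FusionSystem.inn d.P).subgroupOf T1)) :=
      ⟨⟨α, hαT⟩, hαFix, rfl⟩
    rw [h1, Subgroup.mem_bot] at h2
    have h3 : (QuotientGroup.mk ⟨α, hαT⟩ : FusionSystem.outq T1) = 1 := h2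
    rw [QuotientGroup.eq_one_iff, Subgroup.mem_subgroupOf] at h3
    exact hαinn h3
  change _ * ζ (FusionSystem.outq T1) = 0
  rw [h0 _ hOT, mul_zero]

end Pool.FS95
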