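import Pool.Agent.LibFS95.F6

/-!
Row F8: every `(Q, σ, x)` is isomorphic to some `toQT d`.

Plan. `A` = top of `σ` (`sSup σ ∈ σ`, cf. `sSup_mem_of_total`). F5 gives `e : Q ≃* Q'`, `R'` with `mapA e A = AutR Q' R'`. Every `X ∈ σ` satisfies `inn ≤ X ≤ A`, so `mapA e X ≤ AutR Q' R' ≤ AutS Q'` and `mapA e X = AutR Q' Y` for a unique `Q' ≤ Y ≤ N(Q')` (`exists_AutR_eq`, `AutR_injOn`), `Y ≤ R'` (`AutR_le_iff`).
`P = R'`, `τ` = the set of these `Y` (contains `R'`, and `Q'` from `inn`), `x' = e x ∈ Q' = sInf τ`. `R'` is centric (F1), the `Y` are totally ordered and normal in `R'` (`le_normalizer_of_AutR`; members of `σ` are normal in `A`).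
-/

set_option autoImplicit false
noncomputable section
open MulAction
namespace Pool.FS95

variable {S : Type} [Group S]

private theorem f8_inn {P Q : Type} [Group P] [Group Q] (e : P ≃* Q) :
    mapA e (FusionSystem.inn P) = FusionSystem.inn Q := by
  have h : ∀ p : P, MulAut.congr e (MulAut.conj p) = MulAut.conj (e p) := by
    intro p
    ext x
    change e (p * e.symm x * p⁻¹) = e p * x * (e p)⁻¹
    rw [map_mul, map_mul, map_inv, MulEquiv.apply_symm_apply]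
  ext β
  rw [mem_mapA]
  constructor
  · rintro ⟨_, ⟨p, rfl⟩, rfl⟩
    exact ⟨e p, (h p).symm⟩
  · rintro ⟨q, rfl⟩
    exact ⟨MulAut.conj (e.symm q), ⟨e.symm q, rfl⟩, by rw [h, MulEquiv.apply_symm_apply]⟩

private theorem f8_norm {P Q : Type} [Group P] [Group Q] (e : P ≃* Q) {A X : Subgroup (MulAut P)}
    (h : A ≤ Subgroup.normalizer (X : Set (MulAut P))) :
    mapA e A ≤ Subgroup.normalizer (mapA e X : Set (MulAut Q)) := by
  intro β hβ
  obtain ⟨a, ha, rfl⟩ := mem_mapA.1 hβ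
  have h1 := Subgroup.mem_normalizer_iff.1 (h ha)
  rw [Subgroup.mem_normalizer_iff]
  intro γ
  constructor
  · intro hγ
    obtain ⟨x, hx, rfl⟩ := mem_mapA.1 hγ
    refine mem_mapA.2 ⟨a * x * a⁻¹, (h1 x).1 hx, ?_⟩
    rw [map_mul, map_mul, map_inv]
  · intro hγ
    obtain ⟨x, hx, hxe⟩ := mem_mapA.1 hγ
    refine mem_mapA.2 ⟨a⁻¹ * x * a, (h1 _).2 ?_, ?_⟩
    · have : a * (a⁻¹ * x * a) * a⁻¹ = x := by group
      rw [this]
      exact hx
    · rw [map_mul, map_mul, map_inv, hxe]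
      group

private theorem f8_AutS {Q R : Subgroup S} : AutR Q R ≤ FusionSystem.AutS Q := by
  intro α hα
  obtain ⟨g, _, hg⟩ := mem_AutR.1 hα
  exact ⟨g, hg⟩

theorem exists_toQT_rel [Finite S] {ℓ : ℕ} [Fact ℓ.Prime] (hS : IsPGroup ℓ S)
    {F : FusionSystem S} (hF : F.Saturated ℓ) (t : QT F ℓ) :
    ∃ (d : DT F) (hc : F.Centric (sInf d.τ)), qtSetoid F ℓ (toQT hS d hc) t := by
  have hfin : Finite (MulAut t.Q) :=
    Finite.of_injective (fun e : MulAut t.Q => (e : t.Q → t.Q)) DFunLike.coe_injective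
  have hA : sSup t.σ ∈ t.σ := sSup_mem_of_total ⟨_, t.inn_mem⟩ t.total
  obtain ⟨Q', R', e, he, hQR, hRN, hAR⟩ := exists_lift hS hF (sSup t.σ) (t.inn_le _ hA) (t.le _ hA)
    (t.isPGroup _ hA)
  have hQ' : F.Centric Q' := centric_conj t.centric ⟨e, he⟩
  have hc' : Subgroup.centralizer (Q' : Set S) ≤ Q' := hQ' _ (F.conj_refl _)
  have hmono : ∀ X Y : Subgroup (MulAut t.Q), X ≤ Y → mapA e X ≤ mapA e Y := fun X Y h =>
    Subgroup.map_mono h
  obtain ⟨τ, hτ⟩ : ∃ τ : Set (Subgroup S), ∀ Y, Y ∈ τ ↔ Q' ≤ Y ∧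
      Y ≤ Subgroup.normalizer (Q' : Set S) ∧ ∃ X ∈ t.σ, mapA e X = AutR Q' Y :=
    ⟨{Y | Q' ≤ Y ∧ Y ≤ Subgroup.normalizer (Q' : Set S) ∧ ∃ X ∈ t.σ, mapA e X = AutR Q' Y},
      fun Y => Iff.rfl⟩
  have hR : R' ∈ τ := (hτ R').2 ⟨hQR, hRN, _, hA, hAR⟩
  have hQ : Q' ∈ τ := (hτ Q').2 ⟨le_rfl, Subgroup.le_normalizer, _, t.inn_mem, by
    rw [f8_inn, AutR_self]⟩
  have hle : ∀ Y ∈ τ, Y ≤ R' := by
    intro Y hY
    obtain ⟨h1, h2, X, hX, h3⟩ := (hτ Y).1 hY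
    refine (AutR_le_iff hc' hQR h2).1 ?_
    rw [← h3, ← hAR]
    exact hmono _ _ (le_sSup hX)
  have htot : ∀ X ∈ τ, ∀ Y ∈ τ, X ≤ Y ∨ Y ≤ X := by
    intro Y hY Z hZ
    obtain ⟨h1, h2, X, hX, h3⟩ := (hτ Y).1 hY
    obtain ⟨g1, g2, X', hX', g3⟩ := (hτ Z).1 hZ
    rcases t.total X hX X' hX' with h | h
    · exact Or.inl ((AutR_le_iff hc' g1 h2).1 (by rw [← h3, ← g3]; exact hmono _ _ h))
    · exact Or.inr ((AutR_le_iff hc' h1 g2).1 (by rw [← h3, ← g3]; exact hmono _ _ h))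
  have hnorm : ∀ Y ∈ τ, R' ≤ Subgroup.normalizer (Y : Set S) := by
    intro Y hY
    obtain ⟨h1, h2, X, hX, h3⟩ := (hτ Y).1 hY
    refine le_normalizer_of_AutR hc' h1 h2 hRN ?_
    rw [← h3, ← hAR]
    exact f8_norm e (t.normal X hX _ hA (le_sSup hX))
  have hinf : Q' = sInf τ := by
    refine le_antisymm (le_sInf fun Y hY => ((hτ Y).1 hY).1) (sInf_le hQ)
  have hset : mapA e '' t.σ = AutR Q' '' τ := by
    ext Z
    constructor
    · rintro ⟨X, hX, rfl⟩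
      have h1 : FusionSystem.inn Q' ≤ mapA e X := by
        rw [← f8_inn e]
        exact hmono _ _ (t.inn_le X hX)
      have h2 : mapA e X ≤ FusionSystem.AutS Q' := by
        refine (hmono _ _ (le_sSup hX)).trans ?_
        rw [hAR]
        exact f8_AutS
      obtain ⟨Y, hY1, hY2, hY3⟩ := exists_AutR_eq _ h1 h2
      exact ⟨Y, (hτ Y).2 ⟨hY1, hY2, X, hX, hY3.symm⟩, hY3⟩
    · rintro ⟨Y, hY, rfl⟩
      obtain ⟨_, _, X, hX, h3⟩ := (hτ Y).1 hY
      exact ⟨X, hX, h3⟩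
  have hxm : ((e t.x : Q') : S) ∈ sInf τ := by
    rw [← hinf]
    exact (e t.x).2
  have key : ∀ Q'' : Subgroup S, Q' = Q'' → ∀ hx : ((e t.x : Q') : S) ∈ Q'',
      ∃ e' ∈ F.Iso t.Q Q'', mapA e' '' t.σ = AutR Q'' '' τ ∧
        e' t.x = (⟨((e t.x : Q') : S), hx⟩ : Q'') := by
    rintro Q'' rfl hx
    exact ⟨e, he, hset, rfl⟩
  let d : DT F :=
    { P := R'
      τ := τ
      x := ⟨((e t.x : Q') : S), hQR (e t.x).2⟩
      centric := centric_of_le hQ' hQR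
      top_mem := hR
      le := hle
      total := htot
      normal := hnorm
      x_mem := hxm }
  have hc : F.Centric (sInf d.τ) := by
    change F.Centric (sInf τ)
    rw [← hinf]
    exact hQ'
  refine ⟨d, hc, (qtSetoid F ℓ).symm ?_⟩
  exact key _ hinf hxm

end Pool.FS95
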