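import Pool.Agent.LibFS95.F2

/-!
Row F4: automorphisms in `F` which are trivial on a normal centric subgroup are inner (BLO Prop. A.8). STRONG.

Plan. (1) `α` has `ℓ`-power order: for `g ∈ P`, `u ∈ Q`: `g u g⁻¹ ∈ Q` is fixed, so `g⁻¹ α(g)` centralises `Q`, it lies in `C_P(Q) ≤ Q`, hence is fixed by `α`: `α(g) = g z(g)`, `α^i(g) = g z(g)^i`; so `α^{|S|} = 1`. (2) Choose `e : P ≃* P'` in `F` with `P'` fully normalised (F1); `AutS P'` is a Sylow `ℓ`-subgroup of
`F.AutF P'` (`hF.sylow`); the `ℓ`-group generated by `congr e α` is conjugate into it by an element `β ∈ F.AutF P'` (Sylow: `Sylow.exists_smul_le`... / `IsPGroup.exists_le_sylow` + conjugacy of Sylow subgroups; `AutS P' ≤ AutF P'` is an `ℓ`-group of index prime to `ℓ`, so it is a Sylow subgroup). With `f = e.trans β`: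
`congr f α = c_g` for some `g ∈ S`. `c_g` is trivial on `Q' = img f Q`, so `g ∈ C_S(Q') ≤ Q'` (`Q` centric). Put `z = f⁻¹(g) ∈ Q`: `α = c_z`, and `z` centralises `Q` since `α` is trivial on `Q`.
-/

set_option autoImplicit false
noncomputable section
open MulAction
namespace Pool.FS95

variable {S : Type} [Group S]

private lemma f4_pow [Finite S] {F : FusionSystem S} {Q P : Subgroup S} (hQ : F.Centric Q)
    (hQP : Q ≤ P) (hP : P ≤ Subgroup.normalizer (Q : Set S)) (α : MulAut P)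
    (h1 : ∀ x : P, (x : S) ∈ Q → α x = x) : α ^ Nat.card S = 1 := by
  have hz : ∀ g : P, ((g⁻¹ * α g : P) : S) ∈ Q := by
    intro g
    apply hQ Q (F.conj_refl Q)
    rw [Subgroup.mem_centralizer_iff]
    intro u hu
    have hgu : (g : S) * u * (g : S)⁻¹ ∈ Q := (Subgroup.mem_normalizer_iff.1 (hP g.2) u).1 hu
    have e1 : α (g * ⟨u, hQP hu⟩ * g⁻¹) = g * ⟨u, hQP hu⟩ * g⁻¹ := h1 _ hgu
    rw [map_mul, map_mul, map_inv, h1 ⟨u, hQP hu⟩ hu] at e1
    have e2 : g⁻¹ * α g * ⟨u, hQP hu⟩ = ⟨u, hQP hu⟩ * (g⁻¹ * α g) := by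
      have e3 : α g * ⟨u, hQP hu⟩ = g * ⟨u, hQP hu⟩ * g⁻¹ * α g := by
        rw [← e1]; group
      rw [mul_assoc, e3]; group
    exact (congrArg (fun x : P => (x : S)) e2).symm
  have hi : ∀ (g : P) (i : ℕ), (α ^ i) g = g * (g⁻¹ * α g) ^ i := by
    intro g i
    induction i with
    | zero => simp
    | succ i ih =>
      rw [pow_succ', MulAut.mul_apply, ih, map_mul, map_pow, h1 _ (hz g), pow_succ',
        ← mul_assoc g, mul_inv_cancel_left]
  ext g
  rw [hi g]
  have h2 : (g⁻¹ * α g) ^ Nat.card S = 1 := by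
    apply Subtype.ext
    rw [Subgroup.coe_pow]
    exact pow_card_eq_one'
  rw [h2, mul_one]
  rfl

private lemma f4_autS [Finite S] {ℓ : ℕ} (hS : IsPGroup ℓ S) (P : Subgroup S) :
    IsPGroup ℓ (FusionSystem.AutS P) := by
  intro a'
  obtain ⟨g, hg⟩ := a'.2
  obtain ⟨k, hk⟩ := hS g
  refine ⟨k, ?_⟩
  apply Subtype.ext
  set a : MulAut P := (a' : MulAut P) with ha
  have h : ∀ (n : ℕ) (x : P), ((a ^ n) x : S) = g ^ n * x * (g ^ n)⁻¹ := by
    intro n
    induction n with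
    | zero => intro x; simp
    | succ n ih =>
      intro x
      rw [pow_succ, MulAut.mul_apply, ih, hg, pow_succ]
      group
  rw [Subgroup.coe_pow, ← ha]
  ext x
  rw [h, hk]
  simp

theorem exists_center_conj [Finite S] {ℓ : ℕ} [Fact ℓ.Prime] (hS : IsPGroup ℓ S)
    {F : FusionSystem S} (hF : F.Saturated ℓ) {Q P : Subgroup S} (hQ : F.Centric Q) (hQP : Q ≤ P)
    (hP : P ≤ Subgroup.normalizer (Q : Set S)) (α : MulAut P) (hα : α ∈ F.AutF P)
    (h1 : ∀ x : P, (x : S) ∈ Q → α x = x) :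
    ∃ z : P, (z : S) ∈ Q ∧ (∀ y : P, (y : S) ∈ Q → z * y = y * z) ∧ α = MulAut.conj z := by
  obtain ⟨P', ⟨e, he⟩, hfn⟩ := exists_fullyNormalized F P
  haveI : Finite (MulAut P') :=
    Finite.of_injective (fun e : MulAut P' => (e : P' → P')) DFunLike.coe_injective
  -- the transported automorphism
  set β : MulAut P' := MulAut.congr e α with hβ
  have hβF : β ∈ F.AutF P' := F.iso_trans (F.iso_symm he) (F.iso_trans hα he)
  have hβpow : β ^ Nat.card S = 1 := by
    rw [hβ, ← map_pow, f4_pow hQ hQP hP α h1, map_one]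
  obtain ⟨n, hn⟩ := IsPGroup.iff_card.mp hS
  -- Sylow subgroups of `AutF P'`
  have hle : FusionSystem.AutS P' ≤ F.AutF P' := by
    rintro a ⟨g, hg⟩
    exact F.iso_conj g a hg
  have hK : IsPGroup ℓ ((FusionSystem.AutS P').subgroupOf (F.AutF P')) :=
    (f4_autS hS P').comap_subtype
  have hidx : ¬ ℓ ∣ ((FusionSystem.AutS P').subgroupOf (F.AutF P')).index := (hF.sylow P' hfn).2
  set K : Sylow ℓ (F.AutF P') := hK.toSylow hidx with hKdef
  set b : F.AutF P' := ⟨β, hβF⟩ with hb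
  have hZ : IsPGroup ℓ (Subgroup.zpowers b) := by
    intro y
    refine ⟨n, ?_⟩
    obtain ⟨m, hm⟩ := y.2
    apply Subtype.ext
    rw [Subgroup.coe_pow, ← hm]
    show (b ^ m) ^ ℓ ^ n = 1
    have hb1 : b ^ ℓ ^ n = 1 := by
      apply Subtype.ext
      rw [Subgroup.coe_pow]
      show β ^ ℓ ^ n = 1
      rw [← hn]; exact hβpow
    rw [← zpow_natCast, ← zpow_mul, mul_comm, zpow_mul, zpow_natCast, hb1, one_zpow]
  obtain ⟨L, hL⟩ := hZ.exists_le_sylow
  obtain ⟨γ, hγ⟩ := MulAction.exists_smul_eq (F.AutF P') L K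
  have hbL : b ∈ L := hL (Subgroup.mem_zpowers b)
  have hconj : γ * b * γ⁻¹ ∈ K := by
    rw [← hγ]
    exact Subgroup.smul_mem_pointwise_smul b (MulAut.conj γ) (L : Subgroup (F.AutF P')) hbL
  have hconj2 : (γ : MulAut P') * β * (γ : MulAut P')⁻¹ ∈ FusionSystem.AutS P' := by
    have h2 : γ * b * γ⁻¹ ∈ (FusionSystem.AutS P').subgroupOf (F.AutF P') := hconj
    rw [Subgroup.mem_subgroupOf] at h2
    exact h2
  obtain ⟨g, hg⟩ := hconj2
  -- the new isomorphism
  set f : P ≃* P' := e.trans (γ : MulAut P') with hf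
  have hfF : f ∈ F.Iso P P' := F.iso_trans he γ.2
  have hfα : ∀ x : P, (f (α x) : S) = g * f x * g⁻¹ := by
    intro x
    have h2 := hg (f x)
    rw [← h2]
    congr 1
    show (γ : MulAut P') (e (α x)) =
      ((γ : MulAut P') * β * (γ : MulAut P')⁻¹) ((γ : MulAut P') (e x))
    rw [MulAut.mul_apply, MulAut.mul_apply, MulAut.inv_apply_self, hβ]
    show _ = (γ : MulAut P') (e (α (e.symm (e x))))
    rw [MulEquiv.symm_apply_apply]
  have hgQ : g ∈ img f Q := by
    apply hQ (img f Q) ⟨_, restr_mem hfF hQP⟩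
    rw [Subgroup.mem_centralizer_iff]
    intro u hu
    obtain ⟨y, hy, rfl⟩ := mem_img.1 hu
    have h2 := hfα y
    rw [h1 y hy] at h2
    have h3 : (f y : S) * g = g * f y := by
      conv_lhs => rw [h2]
      group
    exact h3
  obtain ⟨z, hz, hzg⟩ := mem_img.1 hgQ
  have hαz : α = MulAut.conj z := by
    ext x
    rw [MulAut.conj_apply]
    congr 1
    apply f.injective
    apply Subtype.ext
    rw [hfα, map_mul, map_mul, map_inv, Subgroup.coe_mul, Subgroup.coe_mul, Subgroup.coe_inv, hzg]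
  refine ⟨z, hz, ?_, hαz⟩
  intro y hy
  have h2 := h1 y hy
  rw [hαz, MulAut.conj_apply] at h2
  exact mul_inv_eq_iff_eq_mul.mp h2

end Pool.FS95
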