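import Pool.Agent.LibFS95.F6
import Pool.Agent.LibFS95.F4

/-!
Row F9: the value of `toQT d` when `C_P(x) ≤ Q`. STRONG.

Notation: `Q = sInf τ`, `T₁ = TD F τ x ≤ Aut(P)`, `T₂ = TQ F σ x ≤ Aut(Q)`, `σ = {AutR Q X : X ∈ τ}`. `ncard σ = ncard τ` (`AutR_injOn`). To show: `outq T₁ ≃* outq T₂`.
Plan. Define a homomorphism `T₂ → outq T₁`... it is easier to define `ρ : T₁' → T₂/inn`, where: every `α ∈ T₁` satisfies `α Q = Q` (`img α` permutes `τ`, preserves order), and `α x = g x g⁻¹`, `g ∈ P`. The element `γ = (c_g⁻¹ α)|_Q` is in `T₂`: it is in `Aut_F(Q)`, `cj γ (AutR Q X) = AutR Q X` for `X ∈ τ` (`α X = X`, as `img α`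
permutes the chain `τ` preserving order, and `c_g X = X`), and `γ x = x`. If also `α x = g' x g'⁻¹` then `g⁻¹ g' ∈ C_P(x) ≤ Q`, so the class of `γ` in `T₂/inn Q` does not change. This gives a homomorphism `T₁ → outq T₂`, surjective: `γ ∈ T₂`, composing with an inner automorphism of `Q` we may assume `γ x = x`; `γ` extends to `α ∈ Aut_F(P)`
(F3 `exists_ext` with `R = R' = P`: `cj γ (AutR Q P) = AutR Q P`) with `img α X = X` (`img_eq_of_ext`), so `α ∈ T₁` and `α ↦ γ`. Kernel: `γ = c_q|_Q`, `q ∈ Q`: then `c_q⁻¹ c_g⁻¹ α` is trivial on `Q`, so by F4 it is `c_z`, `z ∈ Q`: `α ∈ Inn(P)`; conversely inner automorphisms of `P` are in the kernel. So `outq T₁ ≃* outq T₂`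
(`QuotientGroup.quotientKerEquivOfSurjective`). (To define the homomorphism it may be easier to work with the subgroup `T₁⁰ = {α ∈ T₁ | α x = x}`: `T₁ = Inn(P) T₁⁰`, so `outq T₁ ≃ T₁⁰/(T₁⁰ ∩ Inn P)`, and similarly `T₂⁰`; restriction to `Q` is a homomorphism `T₁⁰ → T₂⁰`.)
-/

set_option autoImplicit false
noncomputable section
open MulAction
namespace Pool.FS95

variable {S : Type} [Group S]

theorem f9_card_img {P P' X : Subgroup S} (e : P ≃* P') (hX : X ≤ P) :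
    Nat.card (img e X) = Nat.card X := (Nat.card_congr (restr e hX).toEquiv).symm

/-- a chain stabilised by `α` is fixed elementwise -/
theorem f9_img_eq [Finite S] {P : Subgroup S} {τ : Set (Subgroup S)} (hle : ∀ X ∈ τ, X ≤ P)
    (ht : ∀ X ∈ τ, ∀ Y ∈ τ, X ≤ Y ∨ Y ≤ X) {α : MulAut P} (h : img α '' τ = τ) {X : Subgroup S}
    (hX : X ∈ τ) : img α X = X := by
  have h1 : img α X ∈ τ := by rw [← h]; exact ⟨X, hX, rfl⟩
  have h2 := f9_card_img α (hle X hX)
  rcases ht _ h1 X hX with h3 | h3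
  · exact Subgroup.eq_of_le_of_card_ge h3 h2.ge
  · exact (Subgroup.eq_of_le_of_card_ge h3 h2.le).symm

instance f9_finite (Q : Type) [Group Q] [Finite Q] : Finite (MulAut Q) :=
  Finite.of_injective (fun e : MulAut Q => (e : Q → Q)) DFunLike.coe_injective

theorem f9_mapA {Q : Type} [Group Q] (e : MulAut Q) (X : Subgroup (MulAut Q)) :
    mapA e X = cj e X := by
  ext β
  rw [mem_mapA, mem_cj]
  constructor
  · rintro ⟨α, hα, rfl⟩; exact ⟨α, hα, rfl⟩
  · rintro ⟨α, hα, rfl⟩; exact ⟨α, hα, rfl⟩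

theorem f9_card_cj {H : Type*} [Group H] (g : H) (X : Subgroup H) :
    Nat.card (cj g X) = Nat.card X :=
  (Nat.card_congr (Subgroup.equivMapOfInjective _ _ (MulAut.conj g).injective).toEquiv).symm

theorem f9_cj_eq {H : Type*} [Group H] [Finite H] {σ : Set (Subgroup H)}
    (ht : ∀ X ∈ σ, ∀ Y ∈ σ, X ≤ Y ∨ Y ≤ X) {g : H} (h : cj g '' σ = σ) {X : Subgroup H}
    (hX : X ∈ σ) : cj g X = X := by
  have h1 : cj g X ∈ σ := by rw [← h]; exact ⟨X, hX, rfl⟩
  have h2 := f9_card_cj g X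
  rcases ht _ h1 X hX with h3 | h3
  · exact Subgroup.eq_of_le_of_card_ge h3 h2.ge
  · exact (Subgroup.eq_of_le_of_card_ge h3 h2.le).symm

theorem f9_cj_iff {H : Type*} [Group H] (h : H) (X : Subgroup H) :
    cj h X = X ↔ h ∈ Subgroup.normalizer (X : Set H) := by
  constructor
  · intro h1
    rw [Subgroup.mem_normalizer_iff]
    intro x
    constructor
    · intro hx
      rw [← h1]
      exact mem_cj.2 ⟨x, hx, rfl⟩
    · intro hx
      have h2 : h * x * h⁻¹ ∈ cj h X := by rw [h1]; exact hx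
      obtain ⟨y, hy, h3⟩ := mem_cj.1 h2
      have h4 : y = x := mul_left_cancel (mul_right_cancel h3)
      rwa [← h4]
  · intro h1
    rw [Subgroup.mem_normalizer_iff] at h1
    ext z
    rw [mem_cj]
    constructor
    · rintro ⟨x, hx, rfl⟩
      exact (h1 x).1 hx
    · intro hz
      refine ⟨h⁻¹ * z * h, (h1 _).2 ?_, by group⟩
      have h2 : h * (h⁻¹ * z * h) * h⁻¹ = z := by group
      rwa [h2]

theorem f9_img_conj {P X : Subgroup S} (hXP : X ≤ P) (hX : P ≤ Subgroup.normalizer (X : Set S))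
    (p : P) : img (MulAut.conj p : MulAut P) X = X := by
  ext z
  rw [mem_img]
  constructor
  · rintro ⟨y, hy, rfl⟩
    exact (Subgroup.mem_normalizer_iff.1 (hX p.2) y).1 hy
  · intro hz
    have h1 : (p : S)⁻¹ * z * p ∈ X := by
      have := (Subgroup.mem_normalizer_iff.1 (hX (p⁻¹).2) z).1 hz
      have h2 : ((p⁻¹ : P) : S) = (p : S)⁻¹ := rfl
      rw [h2, inv_inv] at this
      exact this
    refine ⟨⟨_, hXP h1⟩, h1, ?_⟩
    change (p : S) * ((p : S)⁻¹ * z * p) * (p : S)⁻¹ = z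
    group

/-- restriction of an automorphism to a stable subgroup -/
def f9_res {P Q : Subgroup S} (hQP : Q ≤ P) (α : MulAut P) (h1 : ∀ q : P, (q : S) ∈ Q → (α q : S) ∈ Q)
    (h2 : ∀ q : P, (q : S) ∈ Q → (α⁻¹ q : S) ∈ Q) : MulAut Q where
  toFun q := ⟨α ⟨q, hQP q.2⟩, h1 _ q.2⟩
  invFun q := ⟨α⁻¹ ⟨q, hQP q.2⟩, h2 _ q.2⟩
  left_inv q := Subtype.ext (congrArg (fun z : P => (z : S)) (MulAut.inv_apply_self P α ⟨q, hQP q.2⟩))
  right_inv q := Subtype.ext (congrArg (fun z : P => (z : S)) (MulAut.apply_inv_self P α ⟨q, hQP q.2⟩))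
  map_mul' q q' := Subtype.ext (by
    have : (⟨((q * q' : Q) : S), hQP (q * q').2⟩ : P) = ⟨q, hQP q.2⟩ * ⟨q', hQP q'.2⟩ := rfl
    change ((α ⟨((q * q' : Q) : S), hQP (q * q').2⟩ : P) : S) = _
    rw [this, map_mul]
    rfl)

theorem f9_res_coe {P Q : Subgroup S} (hQP : Q ≤ P) (α : MulAut P) (h1 h2) (q : Q) :
    (f9_res hQP α h1 h2 q : S) = α ⟨q, hQP q.2⟩ := rfl

theorem f9_mem_of_img {P X : Subgroup S} {α : MulAut P} (h : img α X = X) (q : P) (hq : (q : S) ∈ X) :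
    (α q : S) ∈ X := by
  rw [← h]; exact mem_img.2 ⟨q, hq, rfl⟩

theorem f9_img_inv {P X : Subgroup S} (hX : X ≤ P) {α : MulAut P} (h : img α X = X) :
    img (α⁻¹ : MulAut P) X = X := by
  conv_lhs => rw [← h]
  exact img_symm_img α hX

/-- two surjective homomorphisms with the same kernel -/
def f9_equiv {A B C : Type*} [Group A] [Group B] [Group C] (f : A →* B) (g : A →* C)
    (hf : Function.Surjective f) (hg : Function.Surjective g) (h : f.ker = g.ker) : B ≃* C :=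
  (QuotientGroup.quotientKerEquivOfSurjective f hf).symm.trans
    ((QuotientGroup.quotientMulEquivOfEq h).trans (QuotientGroup.quotientKerEquivOfSurjective g hg))

section main

variable [Finite S] {F : FusionSystem S} (d : DT F)

/-- the stabiliser of `τ` and `x` -/
def f9_T0 : Subgroup (MulAut d.P) := TD F d.τ d.le d.x ⊓ stabilizer (MulAut d.P) d.x

theorem f9_img {α : MulAut d.P} (h : α ∈ f9_T0 d) {X : Subgroup S} (hX : X ∈ d.τ) :
    img α X = X := f9_img_eq d.le d.total (mem_TD.1 h.1).2.1 hX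

theorem f9_fix {α : MulAut d.P} (h : α ∈ f9_T0 d) : α d.x = d.x := h.2

theorem f9_QP : sInf d.τ ≤ d.P := sInf_le d.top_mem

/-- restriction -/
def f9_r : f9_T0 d →* MulAut ↥(sInf d.τ) where
  toFun α := f9_res (f9_QP d) α.1 (f9_mem_of_img (f9_img d α.2 (sInf_mem_DT d)))
    (f9_mem_of_img (f9_img_inv (f9_QP d) (f9_img d α.2 (sInf_mem_DT d))))
  map_one' := rfl
  map_mul' α β := rfl

theorem f9_r_coe (α : f9_T0 d) (q : ↥(sInf d.τ)) :
    (f9_r d α q : S) = (α.1 ⟨q, f9_QP d q.2⟩ : S) := rfl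

theorem f9_r_mem (α : f9_T0 d) :
    f9_r d α ∈ TQ F (AutR (sInf d.τ) '' d.τ) ⟨d.x, d.x_mem⟩ := by
  refine ⟨?_, ?_, ?_⟩
  · exact F.iso_restrict (mem_TD.1 α.2.1).1 (f9_QP d) _ (fun x => rfl)
  · rw [← Set.image_comp]
    have h1 : ∀ X ∈ d.τ, (cj (f9_r d α) ∘ AutR (sInf d.τ)) X = AutR (sInf d.τ) X := by
      intro X hX
      have h2 := mapA_eq_of_img (f9_r d α) (α.1 : d.P ≃* d.P) (f9_QP d) (fun x => rfl) (d.le X hX)
        (d.le_norm hX)
      rw [f9_mapA, f9_img d α.2 hX] at h2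
      exact h2
    rw [Set.image_congr h1]
  · have h1 : f9_r d α ⟨d.x, d.x_mem⟩ = ⟨d.x, d.x_mem⟩ := by
      apply Subtype.ext
      rw [f9_r_coe]
      exact congrArg (fun z : d.P => (z : S)) (f9_fix d α.2)
    rw [h1]

end main

theorem toQT_val [Finite S] {ℓ : ℕ} [Fact ℓ.Prime] (hS : IsPGroup ℓ S) {F : FusionSystem S}
    (hF : F.Saturated ℓ) {ζ : ∀ (K : Type) [Group K], ℤ} (hζ : IsoInv ζ) (d : DT F)
    (hc : F.Centric (sInf d.τ)) (hx : d.cx ≤ sInf d.τ) : (toQT hS d hc).val ζ = d.val ζ := by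
  have hcc : Subgroup.centralizer ((sInf d.τ : Subgroup S) : Set S) ≤ sInf d.τ := hc _ (F.conj_refl _)
  have hQ := sInf_mem_DT d
  have hQP := f9_QP d
  have hinj : Set.InjOn (AutR (sInf d.τ)) d.τ := by
    intro X hX Y hY hXY
    exact AutR_injOn hcc (sInf_le hX) (sInf_le hY) (d.le_norm hX) (d.le_norm hY) hXY
  have hcard : (toQT hS d hc).σ.ncard = d.τ.ncard := hinj.ncard_image
  -- inner automorphisms of `P` are in `T₁`
  have hinnT : ∀ p : d.P, (MulAut.conj p : MulAut d.P) ∈ TD F d.τ d.le d.x := by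
    intro p
    refine ⟨F.iso_conj (p : S) _ (fun x => rfl), ?_, ?_⟩
    · have h1 : ∀ X ∈ d.τ, img (MulAut.conj p : MulAut d.P) X = X := fun X hX =>
        f9_img_conj (d.le X hX) (d.normal X hX) p
      rw [Set.image_congr h1, Set.image_id']
    · exact (isConj_iff.2 ⟨p, rfl⟩ : IsConj d.x (MulAut.conj p d.x)).symm
  have hinnQ : ∀ q : ↥(sInf d.τ), (MulAut.conj q : MulAut ↥(sInf d.τ)) ∈
      TQ F (AutR (sInf d.τ) '' d.τ) ⟨d.x, d.x_mem⟩ := by
    intro q
    refine ⟨F.iso_conj (q : S) _ (fun x => rfl), ?_, ?_⟩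
    · have h1 : ∀ X ∈ AutR (sInf d.τ) '' d.τ, cj (MulAut.conj q : MulAut ↥(sInf d.τ)) X = X := by
        rintro _ ⟨X, hX, rfl⟩
        rw [f9_cj_iff]
        apply Subgroup.le_normalizer
        exact inn_le_AutR (sInf_le hX) ⟨q, rfl⟩
      rw [Set.image_congr h1, Set.image_id']
    · exact (isConj_iff.2 ⟨q, rfl⟩ : IsConj _ (MulAut.conj q _)).symm
  let T1 := TD F d.τ d.le d.x
  let T2 := TQ F (AutR (sInf d.τ) '' d.τ) (⟨d.x, d.x_mem⟩ : ↥(sInf d.τ))
  let f : f9_T0 d →* FusionSystem.outq T1 :=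
    (QuotientGroup.mk' ((FusionSystem.inn d.P).subgroupOf T1)).comp
      (Subgroup.inclusion (inf_le_left : f9_T0 d ≤ T1))
  let g : f9_T0 d →* FusionSystem.outq T2 :=
    (QuotientGroup.mk' ((FusionSystem.inn ↥(sInf d.τ)).subgroupOf T2)).comp
      ((f9_r d).codRestrict T2 (f9_r_mem d))
  have hf : Function.Surjective f := by
    intro y
    obtain ⟨α, rfl⟩ := QuotientGroup.mk'_surjective _ y
    obtain ⟨p, hp⟩ := isConj_iff.1 (mem_TD.1 α.2).2.2
    have h1 : (MulAut.conj p : MulAut d.P) * α.1 ∈ f9_T0 d := by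
      refine ⟨mul_mem (hinnT p) α.2, ?_⟩
      exact hp
    refine ⟨⟨_, h1⟩, ?_⟩
    change QuotientGroup.mk _ = QuotientGroup.mk _
    apply QuotientGroup.eq.2
    rw [Subgroup.mem_subgroupOf]
    change (MulAut.conj p * α.1)⁻¹ * α.1 ∈ FusionSystem.inn d.P
    have h2 : (MulAut.conj p * α.1)⁻¹ * α.1 = α.1⁻¹ * MulAut.conj p⁻¹ * α.1⁻¹⁻¹ := by
      rw [map_inv]; group
    rw [h2]
    exact (FusionSystem.inn_normal d.P).conj_mem _ ⟨p⁻¹, rfl⟩ _
  have hg : Function.Surjective g := by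
    intro y
    obtain ⟨β, rfl⟩ := QuotientGroup.mk'_surjective _ y
    obtain ⟨q, hq⟩ := isConj_iff.1 (mem_TQ.1 β.2).2.2
    set β' : MulAut ↥(sInf d.τ) := (MulAut.conj q : MulAut ↥(sInf d.τ)) * β.1 with hβ'
    have h1 : β' ∈ T2 := mul_mem (hinnQ q) β.2
    have h1x : β' ⟨d.x, d.x_mem⟩ = ⟨d.x, d.x_mem⟩ := hq
    have htot : ∀ X ∈ AutR (sInf d.τ) '' d.τ, ∀ Y ∈ AutR (sInf d.τ) '' d.τ, X ≤ Y ∨ Y ≤ X :=
      (toQT hS d hc).total
    have h2 : ∀ X ∈ d.τ, mapA β' (AutR (sInf d.τ) X) = AutR (sInf d.τ) X := by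
      intro X hX
      rw [f9_mapA]
      exact f9_cj_eq htot (mem_TQ.1 h1).2.1 ⟨X, hX, rfl⟩
    obtain ⟨e, he, hex⟩ := exists_ext hF hc β' (mem_TQ.1 h1).1 hQP (d.normal _ hQ) hQP
      (d.normal _ hQ) (h2 _ d.top_mem)
    have h3 : ∀ X ∈ d.τ, img e X = X := fun X hX =>
      img_eq_of_ext hcc β' e hQP (d.normal _ hQ) (d.normal _ hQ) hex (sInf_le hX) (d.le X hX)
        (sInf_le hX) (d.le X hX) (h2 X hX)
    have h4 : (e : MulAut d.P) ∈ f9_T0 d := by
      refine ⟨⟨he, ?_, ?_⟩, ?_⟩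
      · rw [Set.image_congr h3, Set.image_id']
      · have : e d.x = d.x := Subtype.ext ((hex ⟨d.x, d.x_mem⟩).trans
          (congrArg (fun z : ↥(sInf d.τ) => (z : S)) h1x))
        rw [this]
      · exact Subtype.ext ((hex ⟨d.x, d.x_mem⟩).trans
          (congrArg (fun z : ↥(sInf d.τ) => (z : S)) h1x))
    refine ⟨⟨e, h4⟩, ?_⟩
    have h5 : f9_r d ⟨e, h4⟩ = β' := by
      apply MulEquiv.ext
      intro z
      apply Subtype.ext
      rw [f9_r_coe]
      exact hex z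
    change QuotientGroup.mk _ = QuotientGroup.mk _
    apply QuotientGroup.eq.2
    rw [Subgroup.mem_subgroupOf]
    change (f9_r d ⟨e, h4⟩)⁻¹ * β.1 ∈ FusionSystem.inn ↥(sInf d.τ)
    rw [h5, hβ']
    have h6 : (MulAut.conj q * β.1)⁻¹ * β.1 = β.1⁻¹ * MulAut.conj q⁻¹ * β.1⁻¹⁻¹ := by
      rw [map_inv]; group
    rw [h6]
    exact (FusionSystem.inn_normal ↥(sInf d.τ)).conj_mem _ ⟨q⁻¹, rfl⟩ _
  have hk : f.ker = g.ker := by
    ext α
    have e1 : α ∈ f.ker ↔ α.1 ∈ FusionSystem.inn d.P := by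
      rw [MonoidHom.mem_ker]
      change QuotientGroup.mk _ = (1 : FusionSystem.outq T1) ↔ _
      rw [QuotientGroup.eq_one_iff, Subgroup.mem_subgroupOf]
      exact Iff.rfl
    have e2 : α ∈ g.ker ↔ f9_r d α ∈ FusionSystem.inn ↥(sInf d.τ) := by
      rw [MonoidHom.mem_ker]
      change QuotientGroup.mk _ = (1 : FusionSystem.outq T2) ↔ _
      rw [QuotientGroup.eq_one_iff, Subgroup.mem_subgroupOf]
      exact Iff.rfl
    rw [e1, e2]
    constructor
    · rintro ⟨p, hp⟩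
      have h1 : (p : S) ∈ d.cx := by
        refine Subgroup.mem_inf.2 ⟨?_, p.2⟩
        have h2 : MulAut.conj p d.x = d.x := by
          rw [hp]; exact f9_fix d α.2
        have h3 : (p : S) * d.x * (p : S)⁻¹ = d.x := congrArg (fun z : d.P => (z : S)) h2
        rw [Subgroup.mem_centralizer_iff]
        intro y hy
        rw [Set.mem_singleton_iff] at hy
        rw [hy]
        calc (d.x : S) * (p : S) = (p : S) * d.x * (p : S)⁻¹ * (p : S) := by rw [h3]
          _ = (p : S) * d.x := by group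
      refine ⟨⟨p, hx h1⟩, ?_⟩
      apply MulEquiv.ext
      intro z
      apply Subtype.ext
      rw [f9_r_coe, ← hp]
      rfl
    · rintro ⟨q, hq⟩
      let α' : MulAut d.P := (MulAut.conj (⟨q, hQP q.2⟩ : d.P))⁻¹ * α.1
      have h1 : α' ∈ F.AutF d.P :=
        mul_mem (inv_mem (mem_TD.1 (hinnT ⟨q, hQP q.2⟩)).1) (mem_TD.1 α.2.1).1
      have h2 : ∀ x : d.P, (x : S) ∈ sInf d.τ → α' x = x := by
        intro x hx
        have h3 := DFunLike.congr_fun hq ⟨x, hx⟩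
        have h4 : (q : S) * x * (q : S)⁻¹ = (α.1 x : S) :=
          congrArg (fun z : ↥(sInf d.τ) => (z : S)) h3
        change (MulAut.conj (⟨q, hQP q.2⟩ : d.P))⁻¹ (α.1 x) = x
        rw [← map_inv]
        apply Subtype.ext
        change (q : S)⁻¹ * (α.1 x : S) * ((q : S)⁻¹)⁻¹ = x
        rw [← h4]
        group
      obtain ⟨z, hz1, hz2, hz3⟩ := exists_center_conj hS hF hc hQP (d.normal _ hQ) α' h1 h2
      refine ⟨⟨q, hQP q.2⟩ * z, ?_⟩
      rw [map_mul, ← hz3]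
      change MulAut.conj _ * ((MulAut.conj (⟨q, hQP q.2⟩ : d.P))⁻¹ * α.1) = α.1
      group
  have hE : ζ (FusionSystem.outq T1) = ζ (FusionSystem.outq T2) := hζ _ _ ⟨f9_equiv f g hf hg hk⟩
  unfold QT.val DT.val
  rw [if_pos hx, hcard]
  change _ * ζ (FusionSystem.outq T2) = _ * ζ (FusionSystem.outq T1)
  rw [hE]

end Pool.FS95
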