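import Pool.Agent.LibFS95.F7
import Pool.Agent.LibFS95.F8
import Pool.Agent.LibFS95.F9
import Pool.Agent.LibFS95.F10
import Pool.Agent.LibFS95.F11
import Pool.Agent.LibFS95.G1

/-!
Row F12: the sums over `(Q,σ,x)` and over `(P,τ,x)` agree. EASY.

Plan. `clsum_restrict` (G1) for `p d = F.Centric (sInf d.τ)` (F11: the value is 0 otherwise), then `clsum_transfer` (G1) with `Φ d = toQT hS d.1 d.2` (F7, F8, F9, F10; `DT.val ζ = 0` when `¬ cx ≤ sInf τ`), invariance from F6.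
-/

set_option autoImplicit false
noncomputable section
open MulAction
namespace Pool.FS95

variable {S : Type} [Group S]

theorem clsum_QT_eq_DT [Finite S] {ℓ : ℕ} [Fact ℓ.Prime] (hS : IsPGroup ℓ S)
    {F : FusionSystem S} (hF : F.Saturated ℓ) {ζ : ∀ (K : Type) [Group K], ℤ} (hζ : IsoInv ζ)
    (h0 : ∀ (K : Type) [Group K] [Finite K], ¬ OTriv ℓ K → ζ K = 0) :
    clsum (qtSetoid F ℓ) (QT.val ζ) = clsum (dtSetoid F) (DT.val ζ) := by
  rw [← clsum_restrict (dtSetoid F) (DT.val ζ) (DT.val_congr hζ)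
    (fun d => F.Centric (sInf d.τ)) (fun d hc => DT.val_zero hS hF hζ h0 d hc)]
  symm
  refine clsum_transfer ((dtSetoid F).comap (Subtype.val : {d : DT F // F.Centric (sInf d.τ)} → DT F))
    (qtSetoid F ℓ) (fun d => DT.val ζ d.1) (QT.val ζ) (fun a b h => DT.val_congr hζ a.1 b.1 h)
    (QT.val_congr hζ) (fun d => toQT hS d.1 d.2)
    (fun a b => toQT_rel_iff hS hF a.1 b.1 a.2 b.2) (fun t _ => ?_) (fun d => ?_)
  · obtain ⟨d, hc, hd⟩ := exists_toQT_rel hS hF t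
    exact ⟨⟨d, hc⟩, hd⟩
  · by_cases hx : d.1.cx ≤ sInf d.1.τ
    · exact (toQT_val hS hF hζ d.1 d.2 hx).symm
    · rw [toQT_val_zero hS h0 d.1 d.2 hx, DT.val, if_neg hx]

end Pool.FS95
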