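import Pool.Agent.LibFS95.F6

/-!
Row F13: the normal closure `R` of `C_P(x)` in `P` and the toggled triple.

`d.R = ⨆ g : P, g C_P(x) g⁻¹`. Proof. `R_le`, `R_normal`: clear. `R_le_sInf`: `sInf τ` is normal in `P`. `R_eq_iff`: if `C_P(x) ≠ P`, it is contained in a maximal subgroup `M` of the `ℓ`-group `P`, `M` is normal (`Subgroup.NormalizerCondition.normal_of_coatom`), so `R ≤ M < P`. `R_img`: `img e` of the generators
(`e (C_P(x)) = C_{P'}(e x)`, `e (g Y g⁻¹) = e(g) e(Y) e(g)⁻¹`).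
`tgl d`: for `d.cx ≤ sInf τ` and `R ≠ P`: `τ' = τ \ {R}` if `R ∈ τ`, else `insert R τ` (all members of `τ` contain `R`). All fields of `DT` are easy; `x ∈ C_P(x) ≤ R`.
-/

set_option autoImplicit false
noncomputable section
open MulAction
namespace Pool.FS95

variable {S : Type} [Group S]

/-- The normal closure of `C_P(x)` in `P`. -/
def DT.R {F : FusionSystem S} (d : DT F) : Subgroup S := ⨆ g : d.P, cj (g : S) d.cx

private theorem F13_cx_le {F : FusionSystem S} (d : DT F) : d.cx ≤ d.P := inf_le_right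

private theorem F13_x_mem {F : FusionSystem S} (d : DT F) : (d.x : S) ∈ d.cx := by
  refine Subgroup.mem_inf.2 ⟨?_, d.x.2⟩
  rw [Subgroup.mem_centralizer_iff]
  intro y hy
  rw [Set.mem_singleton_iff.1 hy]

private theorem F13_cj_le {P X : Subgroup S} {g : S} (hg : g ∈ P) (hP : P ≤ Subgroup.normalizer (X : Set S)) :
    cj g X ≤ X := by
  intro z hz
  obtain ⟨x, hx, rfl⟩ := mem_cj.1 hz
  exact (Subgroup.mem_normalizer_iff.1 (hP hg) x).1 hx

private theorem F13_R_le_of {F : FusionSystem S} (d : DT F) {X : Subgroup S} (h : d.cx ≤ X)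
    (hX : d.P ≤ Subgroup.normalizer (X : Set S)) : d.R ≤ X :=
  iSup_le fun g => (cj_mono (g : S) h).trans (F13_cj_le g.2 hX)

theorem DT.R_le {F : FusionSystem S} (d : DT F) : d.R ≤ d.P :=
  F13_R_le_of d (F13_cx_le d) Subgroup.le_normalizer

theorem DT.cx_le_R {F : FusionSystem S} (d : DT F) : d.cx ≤ d.R := by
  have h := le_iSup (fun g : d.P => cj (g : S) d.cx) 1
  rwa [show ((1 : d.P) : S) = 1 from rfl, cj_one] at h

private theorem F13_norm {X P : Subgroup S} (h : ∀ g ∈ P, cj g X ≤ X) :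
    P ≤ Subgroup.normalizer (X : Set S) := by
  intro g hg
  rw [Subgroup.mem_normalizer_iff]
  intro x
  constructor
  · intro hx
    exact h g hg (mem_cj.2 ⟨x, hx, rfl⟩)
  · intro hx
    have h1 := h g⁻¹ (inv_mem hg) (mem_cj.2 ⟨_, hx, rfl⟩)
    have h2 : g⁻¹ * (g * x * g⁻¹) * g⁻¹⁻¹ = x := by group
    rwa [h2] at h1

theorem DT.R_normal {F : FusionSystem S} (d : DT F) : d.P ≤ Subgroup.normalizer (d.R : Set S) := by
  apply F13_norm
  intro g hg
  unfold DT.R cj
  rw [Subgroup.map_iSup]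
  apply iSup_le
  intro h
  have h1 := le_iSup (fun g : d.P => cj (g : S) d.cx) (⟨g, hg⟩ * h)
  refine le_trans ?_ h1
  change cj g (cj (h : S) d.cx) ≤ cj (g * (h : S)) d.cx
  rw [cj_mul]

theorem DT.R_le_sInf [Finite S] {F : FusionSystem S} (d : DT F) (h : d.cx ≤ sInf d.τ) :
    d.R ≤ sInf d.τ :=
  F13_R_le_of d h (d.normal _ (sInf_mem_DT d))

theorem DT.R_eq_iff [Finite S] {ℓ : ℕ} [Fact ℓ.Prime] (hS : IsPGroup ℓ S) {F : FusionSystem S}
    (d : DT F) : d.R = d.P ↔ ∀ y : d.P, y * d.x = d.x * y := by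
  constructor
  · intro hR
    -- `C_P(x)` as a subgroup of `P`
    let C : Subgroup d.P := Subgroup.centralizer {d.x}
    rcases eq_or_ne C ⊤ with hC | hC
    · intro y
      have h1 : y ∈ C := by rw [hC]; trivial
      exact (Subgroup.mem_centralizer_iff.1 h1 d.x rfl).symm
    · exfalso
      obtain ⟨M, hM, hCM⟩ := (eq_top_or_exists_le_coatom C).resolve_left hC
      have hPp : IsPGroup ℓ d.P := hS.to_subgroup d.P
      haveI : Group.IsNilpotent d.P := hPp.isNilpotent
      haveI hMn : M.Normal :=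
        Subgroup.NormalizerCondition.normal_of_coatom M Group.normalizerCondition_of_isNilpotent hM
      have h1 : d.R ≤ M.map d.P.subtype := by
        apply F13_R_le_of
        · intro z hz
          obtain ⟨hz1, hz2⟩ := Subgroup.mem_inf.1 hz
          refine ⟨⟨z, hz2⟩, hCM ?_, rfl⟩
          change (⟨z, hz2⟩ : d.P) ∈ Subgroup.centralizer {d.x}
          rw [Subgroup.mem_centralizer_iff]
          intro y hy
          rw [Set.mem_singleton_iff.1 hy]
          exact Subtype.ext (Subgroup.mem_centralizer_iff.1 hz1 d.x rfl)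
        · apply F13_norm
          intro g hg z hz
          obtain ⟨_, ⟨m, hm, rfl⟩, rfl⟩ := mem_cj.1 hz
          exact ⟨⟨g, hg⟩ * m * ⟨g, hg⟩⁻¹, hMn.conj_mem m hm _, rfl⟩
      rw [hR] at h1
      apply hM.1
      rw [Subgroup.eq_top_iff']
      intro y
      obtain ⟨m, hm, hmy⟩ := h1 y.2
      have : m = y := Subtype.ext hmy
      rw [← this]; exact hm
  · intro h
    apply le_antisymm d.R_le
    refine le_trans ?_ d.cx_le_R
    intro z hz
    refine Subgroup.mem_inf.2 ⟨?_, hz⟩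
    rw [Subgroup.mem_centralizer_iff]
    intro y hy
    rw [Set.mem_singleton_iff.1 hy]
    exact (congrArg (fun w : d.P => (w : S)) (h ⟨z, hz⟩)).symm

theorem DT.R_img {F : FusionSystem S} (a b : DT F) (e : a.P ≃* b.P) (h : e a.x = b.x) :
    img e a.R = b.R := by
  have key : ∀ (a b : DT F) (e : a.P ≃* b.P), e a.x = b.x → img e a.R ≤ b.R := by
    intro a b e h z hz
    obtain ⟨y, hy, rfl⟩ := mem_img.1 hz
    -- the preimage of `b.R`
    have h1 : a.R ≤ (b.R.comap (b.P.subtype.comp e.toMonoidHom)).map a.P.subtype := by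
      apply F13_R_le_of
      · intro w hw
        obtain ⟨hw1, hw2⟩ := Subgroup.mem_inf.1 hw
        refine ⟨⟨w, hw2⟩, ?_, rfl⟩
        change (e ⟨w, hw2⟩ : S) ∈ b.R
        apply b.cx_le_R
        refine Subgroup.mem_inf.2 ⟨?_, (e ⟨w, hw2⟩).2⟩
        rw [Subgroup.mem_centralizer_iff]
        intro y hy
        rw [Set.mem_singleton_iff.1 hy, ← h]
        have h2 : a.x * ⟨w, hw2⟩ = ⟨w, hw2⟩ * a.x :=
          Subtype.ext (Subgroup.mem_centralizer_iff.1 hw1 a.x rfl)
        have h3 := congrArg (fun v : a.P => (e v : S)) h2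
        simpa only [map_mul, Subgroup.coe_mul] using h3
      · apply F13_norm
        intro g hg w hw
        obtain ⟨_, ⟨m, hm, rfl⟩, rfl⟩ := mem_cj.1 hw
        refine ⟨⟨g, hg⟩ * m * ⟨g, hg⟩⁻¹, ?_, rfl⟩
        change (e (⟨g, hg⟩ * m * ⟨g, hg⟩⁻¹) : S) ∈ b.R
        rw [map_mul, map_mul, map_inv, Subgroup.coe_mul, Subgroup.coe_mul, Subgroup.coe_inv]
        exact (Subgroup.mem_normalizer_iff.1 (b.R_normal (e ⟨g, hg⟩).2) _).1 hm
    obtain ⟨m, hm, hmy⟩ := h1 hy
    have : m = y := Subtype.ext hmy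
    rw [← this]
    exact hm
  apply le_antisymm (key a b e h)
  have h2 := key b a e.symm (by rw [← h, MulEquiv.symm_apply_apply])
  intro z hz
  have hzP : z ∈ b.P := b.R_le hz
  have h3 := h2 (mem_img.2 ⟨⟨z, hzP⟩, hz, rfl⟩)
  exact mem_img.2 ⟨e.symm ⟨z, hzP⟩, h3, by rw [MulEquiv.apply_symm_apply]⟩

open Classical in
/-- The toggled chain. -/
def DT.tau' {F : FusionSystem S} (d : DT F) : Set (Subgroup S) :=
  if d.R ∈ d.τ then d.τ \ {d.R} else insert d.R d.τ

theorem exists_tgl [Finite S] {F : FusionSystem S} (d : DT F) (h : d.cx ≤ sInf d.τ)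
    (hR : d.R ≠ d.P) : ∃ d' : DT F, d'.P = d.P ∧ d'.τ = d.tau' ∧ (d'.x : S) = d.x := by
  classical
  have hRle : ∀ X ∈ d.τ, d.R ≤ X := fun X hX => (d.R_le_sInf h).trans (sInf_le hX)
  have hmem : ∀ X ∈ d.tau', X ∈ d.τ ∨ X = d.R := by
    intro X hX
    unfold DT.tau' at hX
    split_ifs at hX with h1
    · exact Or.inl hX.1
    · rcases hX with hX | hX
      · exact Or.inr hX
      · exact Or.inl hX
  refine ⟨
    { P := d.P
      τ := d.tau'
      x := d.x
      centric := d.centric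
      top_mem := ?_
      le := ?_
      total := ?_
      normal := ?_
      x_mem := ?_ }, rfl, rfl, rfl⟩
  · unfold DT.tau'
    split_ifs with h1
    · exact ⟨d.top_mem, fun h2 => hR (Set.mem_singleton_iff.1 h2).symm⟩
    · exact Or.inr d.top_mem
  · intro X hX
    rcases hmem X hX with h1 | rfl
    · exact d.le X h1
    · exact d.R_le
  · intro X hX Y hY
    rcases hmem X hX with h1 | rfl
    · rcases hmem Y hY with h2 | rfl
      · exact d.total X h1 Y h2
      · exact Or.inr (hRle X h1)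
    · rcases hmem Y hY with h2 | rfl
      · exact Or.inl (hRle Y h2)
      · exact Or.inl le_rfl
  · intro X hX
    rcases hmem X hX with h1 | rfl
    · exact d.normal X h1
    · exact d.R_normal
  · rw [Subgroup.mem_sInf]
    intro X hX
    have hx : (d.x : S) ∈ d.R := d.cx_le_R (F13_x_mem d)
    rcases hmem X hX with h1 | rfl
    · exact hRle X h1 hx
    · exact hx

end Pool.FS95
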