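import Pool.Agent.LibFS95.G1

/-!
Row G2: sign reversing involution on classes.

Plan. Let `r'` be `r` restricted to `{x // p x}`; `clsum r f = clsum r|p f + clsum r|¬p f`
(use `Quotient` = disjoint union, or the functions `fun x => if p x then f x else 0` and
`clsum_restrict`). On `{x // p x}` the map `t` induces a permutation `T` of the finite quotient with
`T ∘ T = id` and `f̄ (T q) = - f̄ q`; so the sum `s` satisfies `s = -s`
(`finsum_eq_sum_of_fintype`, `Equiv.sum_comp` with the equivalence `T`).
-/

set_option autoImplicit false
noncomputable section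
open MulAction
namespace Pool.FS95

private theorem g2_zero {X : Type*} (r : Setoid X) (f : X → ℤ)
    (hf : ∀ x x', r x x' → f x = f x') (t : X → X) (hr : ∀ x x', r x x' → r (t x) (t x'))
    (hi : ∀ x, r (t (t x)) x) (hs : ∀ x, f (t x) = - f x) : clsum r f = 0 := by
  rw [clsum_eq_lift r f hf]
  let T : Quotient r → Quotient r := Quotient.map t (fun a b h => hr a b h)
  have hT : Function.Involutive T := by
    intro q
    induction q using Quotient.inductionOn with
    | _ x => exact Quotient.sound (hi x)
  have hF : ∀ q, Quotient.lift f hf (T q) = - Quotient.lift f hf q := by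
    intro q
    induction q using Quotient.inductionOn with
    | _ x => exact hs x
  have h1 : ∑ᶠ q : Quotient r, Quotient.lift f hf (hT.toPerm T q) = ∑ᶠ q : Quotient r, Quotient.lift f hf q :=
    finsum_comp_equiv (hT.toPerm T)
  have h2 : ∑ᶠ q : Quotient r, Quotient.lift f hf (hT.toPerm T q) = - ∑ᶠ q : Quotient r, Quotient.lift f hf q := by
    rw [← finsum_neg_distrib]
    exact finsum_congr fun q => hF q
  omega

theorem clsum_involution {X : Type*} (r : Setoid X) [Finite (Quotient r)] (f : X → ℤ)
    (hf : ∀ x x', r x x' → f x = f x') (p : X → Prop) (hp : ∀ x x', r x x' → (p x ↔ p x'))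
    (t : X → X) (ht : ∀ x, p x → p (t x)) (hr : ∀ x x', p x → r x x' → r (t x) (t x'))
    (hi : ∀ x, p x → r (t (t x)) x) (hs : ∀ x, p x → f (t x) = - f x) :
    clsum (r.comap (Subtype.val : {x // ¬ p x} → X)) (fun x => f x.1) = clsum r f := by
  classical
  have e0 : clsum r f = clsum r (fun x => (if p x then f x else 0) + (if p x then 0 else f x)) :=
    clsum_congr fun x => by by_cases h : p x <;> simp [h]
  rw [e0, clsum_add]
  have e1 : clsum r (fun x => if p x then f x else 0) = 0 := by
    refine g2_zero r _ ?_ (fun x => if p x then t x else x) ?_ ?_ ?_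
    · intro x x' h
      have h1 := hp x x' h
      have h2 := hf x x' h
      by_cases h3 : p x
      · simp [h3, h1.1 h3, h2]
      · have h4 : ¬ p x' := fun h5 => h3 (h1.2 h5)
        simp [h3, h4]
    · intro x x' h
      have h1 := hp x x' h
      by_cases h3 : p x
      · simp only [h3, h1.1 h3, if_true]
        exact hr x x' h3 h
      · have h4 : ¬ p x' := fun h5 => h3 (h1.2 h5)
        simp only [h3, h4, if_false]
        exact h
    · intro x
      by_cases h3 : p x
      · simp only [h3, ht x h3, if_true]
        exact hi x h3
      · simp only [h3, if_false]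
        exact r.refl' x
    · intro x
      by_cases h3 : p x
      · simp only [h3, ht x h3, if_true]
        exact hs x h3
      · simp [h3]
  rw [e1, zero_add]
  have e2 := clsum_restrict r (fun x => if p x then 0 else f x) (fun x x' h => by
      have h1 := hp x x' h
      have h2 := hf x x' h
      by_cases h3 : p x
      · simp [h3, h1.1 h3]
      · have h4 : ¬ p x' := fun h5 => h3 (h1.2 h5)
        simp [h3, h4, h2]) (fun x => ¬ p x) (fun x h => by
      have h' : p x := not_not.1 h
      simp [h'])
  rw [← e2]
  apply clsum_congr
  intro x
  have : ¬ p x.1 := x.2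
  simp [this]

end Pool.FS95
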