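import Pool.Agent.LibFS95.F13
import Pool.Agent.LibFS95.G2

/-!
Row F14: the toggle cancels everything except the pairs `(P, {P}, x)` with `x` central.

Plan. `clsum_involution` (G2) for `p d = (d.cx ≤ sInf d.τ ∧ d.R ≠ d.P)` and `t d` = the triple of `exists_tgl` (F13) if `p d`, else `d`. Invariance of `p`: F13 `R_img`, and `e` maps `cx` to `cx`, `sInf τ` to `sInf τ'`. The toggled triple has the same `P`, `x`, `cx`, `R`; `cx ≤ sInf τ'` (`cx ≤ R`); `t (t d)` has the same `τ` as `d` (toggle twice);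
`t` respects isomorphism (`img e` commutes with insert/remove, `R_img`). Sign: `ncard` changes by one and stays `≥ 1` (`P ∈ τ'` because `R ≠ P`); the stabiliser `TD` does not change: every `α ∈ Aut_F(P)` with `α x ~ x` satisfies `img α R = R`, so it stabilises `τ` iff it stabilises `τ'`
(`img α` is injective on the subgroups of `P`). The stabilisers are then equal as subgroups of `MulAut P` (after `P' = P`: use `obtain`/`subst` or an isomorphism and `IsoInv`).
-/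

set_option autoImplicit false
noncomputable section
open MulAction
namespace Pool.FS95

variable {S : Type} [Group S]

/-- toggling a member of a set -/
def f14_tog {α : Type*} (R : α) (τ : Set α) : Set α :=
  open Classical in if R ∈ τ then τ \ {R} else insert R τ

theorem f14_tog_pos {α : Type*} {R : α} {τ : Set α} (h : R ∈ τ) : f14_tog R τ = τ \ {R} := if_pos h

theorem f14_tog_neg {α : Type*} {R : α} {τ : Set α} (h : R ∉ τ) : f14_tog R τ = insert R τ :=
  if_neg h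

theorem f14_tog_tog {α : Type*} (R : α) (τ : Set α) : f14_tog R (f14_tog R τ) = τ := by
  by_cases h : R ∈ τ
  · rw [f14_tog_pos h, f14_tog_neg (by simp), Set.insert_sdiff_singleton, Set.insert_eq_of_mem h]
  · rw [f14_tog_neg h, f14_tog_pos (by simp), Set.insert_sdiff_self_of_notMem h]

theorem f14_image_tog {α β : Type*} (f : α → β) (R : α) (τ : Set α)
    (hinj : ∀ X ∈ τ, f X = f R → X = R) : f '' f14_tog R τ = f14_tog (f R) (f '' τ) := by
  by_cases h : R ∈ τ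
  · rw [f14_tog_pos h, f14_tog_pos (Set.mem_image_of_mem f h)]
    ext Y
    constructor
    · rintro ⟨X, ⟨hX, hXR⟩, rfl⟩
      exact ⟨⟨X, hX, rfl⟩, fun h1 => hXR (hinj X hX h1)⟩
    · rintro ⟨⟨X, hX, rfl⟩, hn⟩
      exact ⟨X, ⟨hX, fun h1 => hn (congrArg f h1)⟩, rfl⟩
  · rw [f14_tog_neg h, f14_tog_neg (by
      rintro ⟨X, hX, hXR⟩
      exact h (hinj X hX hXR ▸ hX)), Set.image_insert_eq]

theorem f14_sign {α : Type*} [Finite α] (R P : α) (τ : Set α) (hP : P ∈ τ) (hRP : R ≠ P) (z : ℤ) :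
    (-1 : ℤ) ^ ((f14_tog R τ).ncard - 1) * z = -((-1 : ℤ) ^ (τ.ncard - 1) * z) := by
  by_cases h : R ∈ τ
  · have h1 : (τ \ {R}).ncard = τ.ncard - 1 := Set.ncard_sdiff_singleton_of_mem h
    have h2 : 0 < (τ \ {R}).ncard := (Set.ncard_pos (Set.toFinite _)).2 ⟨P, hP, fun e => hRP e.symm⟩
    rw [f14_tog_pos h]
    obtain ⟨n, hn⟩ : ∃ n, (τ \ {R}).ncard = n + 1 := ⟨_, (Nat.sub_add_cancel h2).symm⟩
    have h3 : τ.ncard = n + 2 := by omega
    rw [hn, h3]
    simp only [Nat.add_sub_cancel, show n + 2 - 1 = n + 1 from rfl, pow_succ]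
    ring
  · rw [f14_tog_neg h, Set.ncard_insert_of_notMem h (Set.toFinite _)]
    have h2 : 0 < τ.ncard := (Set.ncard_pos (Set.toFinite _)).2 ⟨P, hP⟩
    obtain ⟨n, hn⟩ : ∃ n, τ.ncard = n + 1 := ⟨_, (Nat.sub_add_cancel h2).symm⟩
    rw [hn]
    simp only [Nat.add_sub_cancel, pow_succ]
    ring

theorem f14_img_mono {P P' : Subgroup S} (e : P ≃* P') {X Y : Subgroup S} (h : X ≤ Y) :
    img e X ≤ img e Y := by
  intro z hz
  obtain ⟨y, hy, rfl⟩ := mem_img.1 hz
  exact mem_img.2 ⟨y, h hy, rfl⟩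

theorem f14_img_inj {P P' : Subgroup S} (e : P ≃* P') {X Y : Subgroup S} (hX : X ≤ P) (hY : Y ≤ P)
    (h : img e X = img e Y) : X = Y := by
  rw [← img_symm_img e hX, h, img_symm_img e hY]

theorem f14_img_top {P P' : Subgroup S} (e : P ≃* P') : img e P = P' := by
  apply le_antisymm (img_le e P)
  intro z hz
  exact mem_img.2 ⟨e.symm ⟨z, hz⟩, (e.symm ⟨z, hz⟩).2, by rw [MulEquiv.apply_symm_apply]⟩

theorem f14_img_cx {F : FusionSystem S} (a b : DT F) (e : a.P ≃* b.P) (h : e a.x = b.x) :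
    img e a.cx = b.cx := by
  ext z
  rw [mem_img]
  constructor
  · rintro ⟨y, hy, rfl⟩
    refine Subgroup.mem_inf.2 ⟨?_, (e y).2⟩
    have h1 := (Subgroup.mem_inf.1 hy).1
    rw [Subgroup.mem_centralizer_singleton_iff] at h1 ⊢
    have h2 : y * a.x = a.x * y := Subtype.ext h1
    have h3 : e y * e a.x = e a.x * e y := by rw [← map_mul, h2, map_mul]
    rw [h] at h3
    exact congrArg (fun w : b.P => (w : S)) h3
  · intro hz
    obtain ⟨h1, h2⟩ := Subgroup.mem_inf.1 hz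
    rw [Subgroup.mem_centralizer_singleton_iff] at h1
    refine ⟨e.symm ⟨z, h2⟩, Subgroup.mem_inf.2 ⟨?_, (e.symm ⟨z, h2⟩).2⟩, by
      rw [MulEquiv.apply_symm_apply]⟩
    rw [Subgroup.mem_centralizer_singleton_iff]
    have h3 : (⟨z, h2⟩ : b.P) * b.x = b.x * ⟨z, h2⟩ := Subtype.ext h1
    have h4 : e.symm ⟨z, h2⟩ * a.x = a.x * e.symm ⟨z, h2⟩ := by
      apply e.injective
      rw [map_mul, map_mul, MulEquiv.apply_symm_apply, h, h3]
    exact congrArg (fun w : a.P => (w : S)) h4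

theorem f14_img_sInf [Finite S] {F : FusionSystem S} (a b : DT F) (e : a.P ≃* b.P)
    (h : img e '' a.τ = b.τ) : img e (sInf a.τ) = sInf b.τ := by
  apply le_antisymm
  · apply le_sInf
    intro Y hY
    rw [← h] at hY
    obtain ⟨X, hX, rfl⟩ := hY
    exact f14_img_mono e (sInf_le hX)
  · apply sInf_le
    rw [← h]
    exact ⟨_, sInf_mem_DT a, rfl⟩

theorem f14_p_imp [Finite S] {F : FusionSystem S} (a b : DT F) (h : dtSetoid F a b)
    (hp : a.cx ≤ sInf a.τ ∧ a.R ≠ a.P) : b.cx ≤ sInf b.τ ∧ b.R ≠ b.P := by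
  obtain ⟨e, he, h1, h2⟩ := h
  refine ⟨?_, ?_⟩
  · rw [← f14_img_cx a b e h2, ← f14_img_sInf a b e h1]
    exact f14_img_mono e hp.1
  · intro h3
    apply hp.2
    apply f14_img_inj e a.R_le le_rfl
    rw [DT.R_img a b e h2, f14_img_top, h3]

theorem f14_ext {F : FusionSystem S} (a b : DT F) (h1 : a.P = b.P) (h2 : a.τ = b.τ)
    (h3 : (a.x : S) = b.x) : a = b := by
  obtain ⟨P, τ, x, _⟩ := a
  obtain ⟨P', τ', x', _⟩ := b
  dsimp only at h1 h2 h3
  subst h1
  subst h2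
  obtain rfl : x = x' := Subtype.ext h3
  rfl

theorem f14_cx {F : FusionSystem S} (a b : DT F) (h1 : a.P = b.P) (h3 : (a.x : S) = b.x) :
    a.cx = b.cx := by
  unfold DT.cx
  rw [h3, h1]

theorem f14_R {F : FusionSystem S} (a b : DT F) (h1 : a.P = b.P) (h3 : (a.x : S) = b.x) :
    a.R = b.R := by
  unfold DT.R
  rw [f14_cx a b h1 h3, h1]

theorem f14_rel {F : FusionSystem S} (a b a' b' : DT F) (hPa : a'.P = a.P)
    (hxa : (a'.x : S) = a.x) (hPb : b'.P = b.P) (hxb : (b'.x : S) = b.x) (e : a.P ≃* b.P)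
    (he : e ∈ F.Iso a.P b.P) (hex : e a.x = b.x) :
    ∃ e' ∈ F.Iso a'.P b'.P, (∀ X, img e' X = img e X) ∧ e' a'.x = b'.x := by
  obtain ⟨P, τ, x, _⟩ := a
  obtain ⟨P', τ', x', _⟩ := a'
  obtain ⟨Q, σ, y, _⟩ := b
  obtain ⟨Q', σ', y', _⟩ := b'
  dsimp only at hPa hxa hPb hxb e he hex ⊢
  subst hPa
  subst hPb
  obtain rfl : x' = x := Subtype.ext hxa
  obtain rfl : y' = y := Subtype.ext hxb
  exact ⟨e, he, fun _ => rfl, hex⟩

theorem f14_img_conj {P : Subgroup S} (g : P) {X : Subgroup S} (hX : X ≤ P)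
    (hn : P ≤ Subgroup.normalizer (X : Set S)) : img (MulAut.conj g : MulAut P) X = X := by
  ext z
  rw [mem_img]
  constructor
  · rintro ⟨y, hy, rfl⟩
    exact (Subgroup.mem_normalizer_iff.1 (hn g.2) (y : S)).1 hy
  · intro hz
    refine ⟨g⁻¹ * ⟨z, hX hz⟩ * g, ?_, ?_⟩
    · have h1 := (Subgroup.mem_normalizer_iff.1 (hn (inv_mem g.2)) z).1 hz
      rw [inv_inv] at h1
      exact h1
    · rw [MulAut.conj_apply]
      have : g * (g⁻¹ * ⟨z, hX hz⟩ * g) * g⁻¹ = (⟨z, hX hz⟩ : P) := by group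
      rw [this]

theorem f14_aut_R {F : FusionSystem S} (d : DT F) (α : MulAut d.P) (h : IsConj (α d.x) d.x) :
    img α d.R = d.R := by
  obtain ⟨g, hg⟩ := isConj_iff.1 h
  have h1 : img (MulAut.conj g * α : MulAut d.P) d.R = d.R := by
    apply DT.R_img d d
    exact hg
  rw [img_mul] at h1
  have h2 := congrArg (img (MulAut.conj g⁻¹ : MulAut d.P)) h1
  rw [f14_img_conj g⁻¹ d.R_le d.R_normal, ← img_mul, ← map_mul, inv_mul_cancel, map_one] at h2
  exact (img_refl (img_le α d.R)).symm.trans h2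

theorem f14_zeta {F : FusionSystem S} {ζ : ∀ (K : Type) [Group K], ℤ} (a b : DT F)
    (h1 : a.P = b.P) (h3 : (a.x : S) = b.x)
    (h : ∀ α : MulAut b.P, IsConj (α b.x) b.x → (img α '' a.τ = a.τ ↔ img α '' b.τ = b.τ)) :
    ζ (FusionSystem.outq (TD F a.τ a.le a.x)) = ζ (FusionSystem.outq (TD F b.τ b.le b.x)) := by
  obtain ⟨P, τ, x, _⟩ := a
  obtain ⟨P', τ', x', _⟩ := b
  dsimp only at h1 h3 h ⊢
  subst h1
  obtain rfl : x = x' := Subtype.ext h3
  have key : ∀ (h4 : ∀ X ∈ τ, X ≤ P) (h5 : ∀ X ∈ τ', X ≤ P), TD F τ h4 x = TD F τ' h5 x := by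
    intro h4 h5
    ext α
    rw [mem_TD, mem_TD]
    constructor
    · rintro ⟨h6, h7, h8⟩
      exact ⟨h6, (h α h8).1 h7, h8⟩
    · rintro ⟨h6, h7, h8⟩
      exact ⟨h6, (h α h8).2 h7, h8⟩
  rw [key]

open Classical in
/-- the involution -/
def f14_t [Finite S] {F : FusionSystem S} (d : DT F) : DT F :=
  if h : d.cx ≤ sInf d.τ ∧ d.R ≠ d.P then Classical.choose (exists_tgl d h.1 h.2) else d

theorem f14_t_spec [Finite S] {F : FusionSystem S} (d : DT F) (h : d.cx ≤ sInf d.τ ∧ d.R ≠ d.P) :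
    (f14_t d).P = d.P ∧ (f14_t d).τ = f14_tog d.R d.τ ∧ ((f14_t d).x : S) = d.x := by
  unfold f14_t
  rw [dif_pos h]
  exact Classical.choose_spec (exists_tgl d h.1 h.2)

theorem f14_t_p [Finite S] {F : FusionSystem S} (d : DT F) (h : d.cx ≤ sInf d.τ ∧ d.R ≠ d.P) :
    (f14_t d).cx ≤ sInf (f14_t d).τ ∧ (f14_t d).R ≠ (f14_t d).P := by
  obtain ⟨h1, h2, h3⟩ := f14_t_spec d h
  rw [f14_R _ _ h1 h3, f14_cx _ _ h1 h3, h1, h2]
  refine ⟨?_, h.2⟩
  by_cases hR : d.R ∈ d.τ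
  · rw [f14_tog_pos hR]
    exact h.1.trans (sInf_le_sInf Set.sdiff_subset)
  · rw [f14_tog_neg hR, sInf_insert]
    exact le_inf d.cx_le_R h.1

theorem clsum_DT_eq [Finite S] {ℓ : ℕ} [Fact ℓ.Prime] (hS : IsPGroup ℓ S)
    {F : FusionSystem S} {ζ : ∀ (K : Type) [Group K], ℤ} (hζ : IsoInv ζ) :
    clsum ((dtSetoid F).comap (Subtype.val : {d : DT F // ¬ (d.cx ≤ sInf d.τ ∧ d.R ≠ d.P)} → DT F))
      (fun d => d.1.val ζ) = clsum (dtSetoid F) (DT.val ζ) := by
  apply clsum_involution (dtSetoid F) (DT.val ζ) (fun a b h => DT.val_congr hζ a b h)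
    (fun d => d.cx ≤ sInf d.τ ∧ d.R ≠ d.P)
    (fun a b h => ⟨f14_p_imp a b h, f14_p_imp b a ((dtSetoid F).symm h)⟩) f14_t f14_t_p
  · intro a b hp h
    have hpb := f14_p_imp a b h hp
    obtain ⟨a1, a2, a3⟩ := f14_t_spec a hp
    obtain ⟨b1, b2, b3⟩ := f14_t_spec b hpb
    obtain ⟨e, he, h1, h2⟩ := h
    obtain ⟨e', he', h3, h4⟩ := f14_rel a b (f14_t a) (f14_t b) a1 a3 b1 b3 e he h2
    refine ⟨e', he', ?_, h4⟩
    have h5 : (img e' : Subgroup S → Subgroup S) = img e := funext h3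
    rw [h5, a2, b2, f14_image_tog, h1, DT.R_img a b e h2]
    intro X hX hXR
    exact f14_img_inj e (a.le X hX) a.R_le hXR
  · intro d hp
    obtain ⟨a1, a2, a3⟩ := f14_t_spec d hp
    obtain ⟨b1, b2, b3⟩ := f14_t_spec (f14_t d) (f14_t_p d hp)
    have : f14_t (f14_t d) = d := by
      apply f14_ext
      · rw [b1, a1]
      · rw [b2, f14_R _ _ a1 a3, a2, f14_tog_tog]
      · rw [b3, a3]
    rw [this]
  · intro d hp
    obtain ⟨a1, a2, a3⟩ := f14_t_spec d hp
    unfold DT.val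
    rw [if_pos hp.1, if_pos (f14_t_p d hp).1]
    have hz : ζ (FusionSystem.outq (TD F (f14_t d).τ (f14_t d).le (f14_t d).x)) =
        ζ (FusionSystem.outq (TD F d.τ d.le d.x)) := by
      apply f14_zeta _ _ a1 a3
      intro α hα
      have hR := f14_aut_R d α hα
      have hI : ∀ τ : Set (Subgroup S), (∀ X ∈ τ, X ≤ d.P) →
          img α '' f14_tog d.R τ = f14_tog d.R (img α '' τ) := by
        intro τ hτ
        rw [f14_image_tog, hR]
        intro X hX hXR
        exact f14_img_inj α (hτ X hX) d.R_le hXR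
      rw [a2]
      constructor
      · intro h5
        rw [hI d.τ d.le] at h5
        have h6 := congrArg (f14_tog d.R) h5
        rw [f14_tog_tog, f14_tog_tog] at h6
        exact h6
      · intro h5
        rw [hI d.τ d.le, h5]
    rw [hz, a2]
    exact f14_sign d.R d.P d.τ d.top_mem hp.2 _

end Pool.FS95
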