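import Pool.Agent.LibFS95.F14
import Pool.Agent.LibFS95.F13
import Pool.Agent.LibFS95.G1

/-!
Row F15: `∑_{(P,τ,x)} = ∑_{(P,x), x central}`.

Plan. By F14 only the `d` with `¬ (cx ≤ sInf τ ∧ R ≠ P)` matter; those with `¬ cx ≤ sInf τ` have value 0, so (G1 `clsum_restrict`) only `cx ≤ sInf τ ∧ R = P` remain: then `P = R ≤ sInf τ`, so `τ = {P}` and `x` is central in `P` (`R_eq_iff`). `clsum_transfer` (G1) with `ZT → {d}`, `(P,x) ↦ (P,{P},x)`: relations correspond
(`img e P = P'`), values: `ncard {P} - 1 = 0` and `TD F {P} x = TZ F x` (for central `x`, `IsConj (α x) x ↔ α x = x`, and `img α P = P`).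
-/

set_option autoImplicit false
noncomputable section
open MulAction
namespace Pool.FS95

variable {S : Type} [Group S]

private theorem f15_img {P P' : Subgroup S} (e : P ≃* P') : img e P = P' := by
  ext z
  rw [mem_img]
  constructor
  · rintro ⟨y, -, rfl⟩
    exact (e y).2
  · intro hz
    refine ⟨e.symm ⟨z, hz⟩, (e.symm ⟨z, hz⟩).2, ?_⟩
    rw [MulEquiv.apply_symm_apply]

/-- The triple `(P, {P}, x)`. -/
private def f15_D {F : FusionSystem S} (a : ZT F) : DT F where
  P := a.P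
  τ := {a.P}
  x := a.x
  centric := a.centric
  top_mem := rfl
  le := by
    rintro X rfl
    exact le_rfl
  total := by
    rintro X rfl Y rfl
    exact Or.inl le_rfl
  normal := by
    rintro X rfl
    exact Subgroup.le_normalizer
  x_mem := by
    rw [sInf_singleton]
    exact a.x.2

private theorem f15_T {F : FusionSystem S} {P : Subgroup S} (x : P) (hx : ∀ y : P, y * x = x * y)
    (hτ : ∀ X ∈ ({P} : Set (Subgroup S)), X ≤ P) : TD F {P} hτ x = TZ F x := by
  ext α
  rw [mem_TD]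
  show α ∈ F.AutF P ∧ img α '' {P} = {P} ∧ IsConj (α x) x ↔
    α ∈ F.AutF P ∧ α ∈ stabilizer (MulAut P) x
  rw [mem_stabilizer_iff, Set.image_singleton, f15_img]
  constructor
  · rintro ⟨h1, -, h2⟩
    refine ⟨h1, ?_⟩
    obtain ⟨c, hc⟩ := isConj_iff.1 h2
    have h3 : α x = c⁻¹ * x * c := by
      have h5 : α x = c⁻¹ * (c * α x * c⁻¹) * c := by group
      rw [hc] at h5
      exact h5
    have h4 := hx c⁻¹
    rw [h4, mul_assoc, inv_mul_cancel, mul_one] at h3
    exact h3
  · rintro ⟨h1, h2⟩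
    have h3 : α x = x := h2
    refine ⟨h1, rfl, ?_⟩
    rw [h3]

private theorem f15_zeta {P : Type} [Group P] {T T' : Subgroup (MulAut P)} (h : T = T')
    (ζ : ∀ (K : Type) [Group K], ℤ) :
    ζ (FusionSystem.outq T) = ζ (FusionSystem.outq T') := by
  subst h
  rfl

private theorem f15_val {F : FusionSystem S} {ζ : ∀ (K : Type) [Group K], ℤ} (a : ZT F) :
    a.val ζ = (f15_D a).val ζ := by
  have h1 : (f15_D a).cx ≤ sInf (f15_D a).τ := by
    show (f15_D a).cx ≤ sInf {a.P}
    rw [sInf_singleton]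
    exact inf_le_right
  have h2 : (f15_D a).τ.ncard = 1 := Set.ncard_singleton a.P
  have h3 : (f15_D a).val ζ = (-1) ^ ((f15_D a).τ.ncard - 1) *
      ζ (FusionSystem.outq (TD F (f15_D a).τ (f15_D a).le (f15_D a).x)) := if_pos h1
  have h4 : ζ (FusionSystem.outq (TD F (f15_D a).τ (f15_D a).le (f15_D a).x)) =
      ζ (FusionSystem.outq (TZ F a.x)) := f15_zeta (f15_T a.x a.central (f15_D a).le) ζ
  rw [h3, h4, h2]
  show ζ (FusionSystem.outq (TZ F a.x)) = (-1) ^ (1 - 1) * ζ (FusionSystem.outq (TZ F a.x))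
  simp

theorem clsum_DT_eq_ZT [Finite S] {ℓ : ℕ} [Fact ℓ.Prime] (hS : IsPGroup ℓ S)
    {F : FusionSystem S} {ζ : ∀ (K : Type) [Group K], ℤ} (hζ : IsoInv ζ) :
    clsum (dtSetoid F) (DT.val ζ) = clsum (ztSetoid F) (ZT.val ζ) := by
  rw [← clsum_DT_eq hS hζ]
  symm
  refine clsum_transfer (ztSetoid F) _ (ZT.val ζ)
    (fun d : {d : DT F // ¬ (d.cx ≤ sInf d.τ ∧ d.R ≠ d.P)} => d.1.val ζ)
    (ZT.val_congr hζ) (fun y y' h => DT.val_congr hζ y.1 y'.1 h)
    (fun a => ⟨f15_D a, fun h => h.2 ((DT.R_eq_iff hS (f15_D a)).2 a.central)⟩) ?_ ?_ ?_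
  · intro a b
    constructor
    · rintro ⟨e, he, hx⟩
      refine ⟨e, he, ?_, hx⟩
      show img e '' {a.P} = {b.P}
      rw [Set.image_singleton, f15_img]
    · rintro ⟨e, he, -, hx⟩
      exact ⟨e, he, hx⟩
  · rintro ⟨d, hd⟩ hv
    have hv' : d.val ζ ≠ 0 := hv
    have hcx : d.cx ≤ sInf d.τ := by
      by_contra hcx
      exact hv' (if_neg hcx)
    have hR : d.R = d.P := by
      by_contra hR
      exact hd ⟨hcx, hR⟩
    have hcen := (DT.R_eq_iff hS d).1 hR
    have hP : d.P ≤ sInf d.τ := by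
      have h1 := DT.R_le_sInf d hcx
      rw [hR] at h1
      exact h1
    have hτ : d.τ = {d.P} := by
      ext X
      constructor
      · intro hX
        exact le_antisymm (d.le X hX) (hP.trans (sInf_le hX))
      · rintro rfl
        exact d.top_mem
    refine ⟨⟨d.P, d.x, d.centric, hcen⟩, MulEquiv.refl _, F.iso_refl _, ?_, rfl⟩
    show img (MulEquiv.refl d.P) '' {d.P} = d.τ
    rw [Set.image_singleton, f15_img, hτ]
  · intro a
    exact f15_val a

end Pool.FS95
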