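import Pool.Agent.LibFS95.G3
import Pool.Agent.LibFS95.G1
import Pool.Agent.LibFS95.E0

/-!
Row F16: `W` as one sum over the orbits on pairs `(σ, y)`.

Plan. G3 `clsum_fiber` for `NChain ℓ H × Y` with the diagonal action of `H` and `π = Prod.fst`; the fibre over the class of `σ₀ = b.out`: `clsum_transfer` from `Y` with `orbitRel (stabilizer H σ₀) Y`, `Φ y = (σ₀, y)`. Stabilisers: `stabilizer H (σ₀,y) ≃* stabilizer (stabilizer H σ₀) y`. The sign only depends on the class of `σ`
(`len (h • σ) = len σ`).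
-/

set_option autoImplicit false
noncomputable section
open MulAction
namespace Pool.FS95

theorem len_smul {ℓ : ℕ} {H : Type*} [Group H] (h : H) (σ : NChain ℓ H) : (h • σ).len = σ.len := by
  have hinj : Function.Injective (cj h) := fun X Y hXY =>
    le_antisymm ((cj_le_cj h).1 hXY.le) ((cj_le_cj h).1 hXY.ge)
  show (cj h '' σ.1).ncard - 1 = σ.1.ncard - 1
  rw [Set.ncard_image_of_injective _ hinj]

/-- the stabiliser of a pair -/
def f16_stab {H X Y : Type} [Group H] [MulAction H X] [MulAction H Y] (x : X) (y : Y) :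
    stabilizer (stabilizer H x) y ≃* stabilizer H (x, y) where
  toFun g := ⟨((g : stabilizer H x) : H), Prod.ext g.1.2 g.2⟩
  invFun g := ⟨⟨(g : H), congrArg Prod.fst g.2⟩, congrArg Prod.snd g.2⟩
  left_inv _ := rfl
  right_inv _ := rfl
  map_mul' _ _ := rfl

theorem W_eq_clsum_prod (ℓ : ℕ) {ζ : ∀ (K : Type) [Group K], ℤ} (hζ : IsoInv ζ) (H Y : Type)
    [Group H] [Finite H] [MulAction H Y] [Finite Y] :
    W ℓ ζ H Y = clsum (orbitRel H (NChain ℓ H × Y)) fun p => (-1) ^ p.1.len * ζ (stabilizer H p) := by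
  have hg : ∀ p p' : NChain ℓ H × Y, orbitRel H (NChain ℓ H × Y) p p' →
      (-1) ^ p.1.len * ζ (stabilizer H p) = (-1) ^ p'.1.len * ζ (stabilizer H p') := by
    intro p p' h
    have h1 : p.1.len = p'.1.len := by
      obtain ⟨g, hg⟩ := orbitRel_apply.1 h
      have : g • p'.1 = p.1 := congrArg Prod.fst hg
      rw [← this, len_smul]
    rw [h1, hζ _ _ ⟨stabilizerEquivStabilizerOfOrbitRel h⟩]
  rw [clsum_fiber (orbitRel H (NChain ℓ H × Y)) (orbitRel H (NChain ℓ H)) _ hg Prod.fst (by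
    intro x x' h
    obtain ⟨g, hg⟩ := orbitRel_apply.1 h
    exact orbitRel_apply.2 ⟨g, congrArg Prod.fst hg⟩)]
  unfold W
  show (∑ᶠ b : Quotient (orbitRel H (NChain ℓ H)), _) = _
  apply finsum_congr
  intro b
  show (-1) ^ (Quotient.out b).len *
    clsum (orbitRel (stabilizer H (Quotient.out b)) Y)
      (fun y => ζ (stabilizer (stabilizer H (Quotient.out b)) y)) = _
  rw [← clsum_mul_left]
  have h1 : ∀ y y' : Y, orbitRel (stabilizer H (Quotient.out b)) Y y y' ↔
      ((orbitRel H (NChain ℓ H × Y)).comap (Subtype.val : {x : NChain ℓ H × Y //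
        Quotient.mk (orbitRel H (NChain ℓ H)) (Prod.fst x) = b} → NChain ℓ H × Y))
        ⟨(Quotient.out b, y), Quotient.out_eq b⟩ ⟨(Quotient.out b, y'), Quotient.out_eq b⟩ := by
    intro y y'
    rw [orbitRel_apply]
    constructor
    · rintro ⟨g, hg⟩
      exact orbitRel_apply.2 ⟨(g : H), Prod.ext g.2 hg⟩
    · intro h
      obtain ⟨g, hg⟩ := orbitRel_apply.1 h
      exact ⟨⟨g, congrArg Prod.fst hg⟩, congrArg Prod.snd hg⟩
  have h3 : ∀ y : Y, (-1) ^ (Quotient.out b).len * ζ (stabilizer (stabilizer H (Quotient.out b)) y) =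
      (-1) ^ (Quotient.out b).len * ζ (stabilizer H (Quotient.out b, y)) := by
    intro y
    rw [hζ _ _ ⟨f16_stab (Quotient.out b) y⟩]
  refine clsum_transfer _ _ _ _ ?_ (fun y y' h => hg _ _ h)
    (fun y => ⟨(Quotient.out b, y), Quotient.out_eq b⟩) h1 ?_ h3
  · intro y y' h
    rw [h3, h3]
    exact hg _ _ ((h1 y y').1 h)
  · rintro ⟨⟨σ, y⟩, ht⟩ _
    have h4 : orbitRel H (NChain ℓ H) (Quotient.out b) σ := by
      apply Quotient.exact
      rw [Quotient.out_eq]
      exact ht.symm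
    obtain ⟨g, hg⟩ := orbitRel_apply.1 h4
    refine ⟨g • y, ?_⟩
    exact orbitRel_apply.2 ⟨g, Prod.ext hg rfl⟩

end Pool.FS95
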