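import Pool.Agent.LibFS95.F2

/-!
Row F5: lifting an `ℓ`-subgroup of `Aut_F(Q)` to `S`.

Proof. `e₀ : Q ≃* Q'` in `F`, `Q'` fully normalised (F1); `AutS Q'` is a Sylow `ℓ`-subgroup of `F.AutF Q'` (`hF.sylow`: relative index prime to `ℓ`, and it is an `ℓ`-group: `AutR_isPGroup` with `AutS Q' = AutR Q' (normalizer Q')`); `mapA e₀ A` is an `ℓ`-subgroup of `F.AutF Q'`, so there is `β ∈ F.AutF Q'` with
`β (mapA e₀ A) β⁻¹ ≤ AutS Q'`. `e = e₀.trans β`. Then `exists_AutR_eq`.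
-/

set_option autoImplicit false
noncomputable section
open MulAction
namespace Pool.FS95

variable {S : Type} [Group S]

private theorem F5_autS {ℓ : ℕ} (hS : IsPGroup ℓ S) (P : Subgroup S) :
    IsPGroup ℓ (FusionSystem.AutS P) := by
  rintro ⟨a, g, hg⟩
  obtain ⟨k, hk⟩ := hS g
  refine ⟨k, ?_⟩
  apply Subtype.ext
  have h : ∀ (n : ℕ) (x : P), ((a ^ n) x : S) = g ^ n * x * (g ^ n)⁻¹ := by
    intro n
    induction n with
    | zero => intro x; simp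
    | succ n ih =>
      intro x
      rw [pow_succ, MulAut.mul_apply, ih, hg, pow_succ]
      group
  rw [Subgroup.coe_pow]
  ext x
  rw [h, hk]
  simp

theorem exists_lift [Finite S] {ℓ : ℕ} [Fact ℓ.Prime] (hS : IsPGroup ℓ S) {F : FusionSystem S}
    (hF : F.Saturated ℓ) {Q : Subgroup S} (A : Subgroup (MulAut Q))
    (h1 : FusionSystem.inn Q ≤ A) (h2 : A ≤ F.AutF Q) (h3 : IsPGroup ℓ A) :
    ∃ (Q' R' : Subgroup S) (e : Q ≃* Q'), e ∈ F.Iso Q Q' ∧ Q' ≤ R' ∧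
      R' ≤ Subgroup.normalizer (Q' : Set S) ∧ mapA e A = AutR Q' R' := by
  obtain ⟨Q', ⟨e₀, he₀⟩, hfn⟩ := exists_fullyNormalized F Q
  haveI : Finite (MulAut Q') :=
    Finite.of_injective (fun e : MulAut Q' => (e : Q' → Q')) DFunLike.coe_injective
  have hA₀F : mapA e₀ A ≤ F.AutF Q' := by
    rintro _ ⟨α, hα, rfl⟩
    exact F.iso_trans (F.iso_symm he₀) (F.iso_trans (h2 hα) he₀)
  have hA₀p : IsPGroup ℓ (mapA e₀ A) := h3.map _
  have hle : FusionSystem.AutS Q' ≤ F.AutF Q' := by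
    rintro a ⟨g, hg⟩
    exact F.iso_conj g a hg
  have hK : IsPGroup ℓ ((FusionSystem.AutS Q').subgroupOf (F.AutF Q')) :=
    (F5_autS hS Q').comap_subtype
  have hidx : ¬ ℓ ∣ ((FusionSystem.AutS Q').subgroupOf (F.AutF Q')).index := (hF.sylow Q' hfn).2
  set K : Sylow ℓ (F.AutF Q') := hK.toSylow hidx with hKdef
  have hB : IsPGroup ℓ ((mapA e₀ A).subgroupOf (F.AutF Q')) := hA₀p.comap_subtype
  obtain ⟨L, hL⟩ := hB.exists_le_sylow
  obtain ⟨γ, hγ⟩ := MulAction.exists_smul_eq (F.AutF Q') L K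
  have hconj : ∀ β ∈ mapA e₀ A, (γ : MulAut Q') * β * (γ : MulAut Q')⁻¹ ∈ FusionSystem.AutS Q' := by
    intro β hβ
    have hbL : (⟨β, hA₀F hβ⟩ : F.AutF Q') ∈ L := hL (by rw [Subgroup.mem_subgroupOf]; exact hβ)
    have h4 : γ * ⟨β, hA₀F hβ⟩ * γ⁻¹ ∈ K := by
      rw [← hγ]
      exact Subgroup.smul_mem_pointwise_smul _ (MulAut.conj γ) (L : Subgroup (F.AutF Q')) hbL
    have h5 : γ * ⟨β, hA₀F hβ⟩ * γ⁻¹ ∈ (FusionSystem.AutS Q').subgroupOf (F.AutF Q') := h4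
    rw [Subgroup.mem_subgroupOf] at h5
    exact h5
  set e : Q ≃* Q' := e₀.trans (γ : MulAut Q') with he
  have heF : e ∈ F.Iso Q Q' := F.iso_trans he₀ γ.2
  have hmap : ∀ β ∈ mapA e A, β ∈ FusionSystem.AutS Q' := by
    rintro _ ⟨α, hα, rfl⟩
    have h4 := hconj _ (mem_mapA.2 ⟨α, hα, rfl⟩)
    have h5 : MulAut.congr e α = (γ : MulAut Q') * MulAut.congr e₀ α * (γ : MulAut Q')⁻¹ := by
      ext x
      rfl
    change MulAut.congr e α ∈ _
    rw [h5]; exact h4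
  have hinn : FusionSystem.inn Q' ≤ mapA e A := by
    rintro _ ⟨p, rfl⟩
    refine mem_mapA.2 ⟨MulAut.conj (e.symm p), h1 ⟨_, rfl⟩, ?_⟩
    ext x
    change (e (MulAut.conj (e.symm p) (e.symm x)) : S) = _
    rw [MulAut.conj_apply, map_mul, map_mul, map_inv, MulEquiv.apply_symm_apply,
      MulEquiv.apply_symm_apply, MulAut.conj_apply]
  obtain ⟨R', hR1, hR2, hR3⟩ := exists_AutR_eq (mapA e A) hinn hmap
  exact ⟨Q', R', e, heF, hR1, hR2, hR3.symm⟩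

end Pool.FS95
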