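import Pool.Agent.LibFS95.F3
import Pool.Agent.LibFS95.F5

/-!
The map from `(P, τ, x)` with centric bottom to `(Q, σ, x)` (definition), and invariance of the values (row F6).

Row F6, plan. `e ∈ F.Iso` from `a` to `b` induces, by `MulAut.congr e`, an isomorphism of the stabilisers `TQ`/`TD`/`TZ` which maps `inn` to `inn`; so the quotients `outq` are isomorphic
(`QuotientGroup.congr`), and `ncard` and the condition `cx ≤ sInf τ` are preserved (`mapA e`, `img e` are injective on the relevant sets).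
-/

set_option autoImplicit false
noncomputable section
open MulAction
namespace Pool.FS95

variable {S : Type} [Group S]

theorem sInf_mem_DT [Finite S] {F : FusionSystem S} (d : DT F) : sInf d.τ ∈ d.τ :=
  sInf_mem_of_total ⟨d.P, d.top_mem⟩ d.total

theorem DT.le_norm [Finite S] {F : FusionSystem S} (d : DT F) {X : Subgroup S} (hX : X ∈ d.τ) :
    X ≤ Subgroup.normalizer (sInf d.τ : Subgroup S) :=
  (d.le X hX).trans (d.normal _ (sInf_mem_DT d))

/-- The triple `(Q, σ, x)` defined by `(P, τ, x)` if the bottom `Q` of `τ` is centric: `σ = {Aut_X(Q) : X ∈ τ}`. -/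
def toQT [Finite S] {ℓ : ℕ} (hS : IsPGroup ℓ S) {F : FusionSystem S} (d : DT F)
    (hc : F.Centric (sInf d.τ)) : QT F ℓ where
  Q := sInf d.τ
  σ := AutR (sInf d.τ) '' d.τ
  x := ⟨d.x, d.x_mem⟩
  centric := hc
  inn_mem := ⟨sInf d.τ, sInf_mem_DT d, AutR_self _⟩
  inn_le := by
    rintro _ ⟨X, hX, rfl⟩
    exact inn_le_AutR (sInf_le hX)
  le := by
    rintro _ ⟨X, hX, rfl⟩
    exact AutR_le_AutF F _ _
  isPGroup := by
    rintro _ ⟨X, hX, rfl⟩
    exact AutR_isPGroup hS (d.le_norm hX)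
  total := by
    rintro _ ⟨X, hX, rfl⟩ _ ⟨Y, hY, rfl⟩
    have hcc : Subgroup.centralizer ((sInf d.τ : Subgroup S) : Set S) ≤ sInf d.τ := hc _ (F.conj_refl _)
    rcases d.total X hX Y hY with h | h
    · exact Or.inl ((AutR_le_iff hcc (sInf_le hY) (d.le_norm hX)).2 h)
    · exact Or.inr ((AutR_le_iff hcc (sInf_le hX) (d.le_norm hY)).2 h)
  normal := by
    rintro _ ⟨X, hX, rfl⟩ _ ⟨Y, hY, rfl⟩ _
    exact AutR_le_normalizer ((d.le Y hY).trans (d.normal X hX)) (d.le_norm hY)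

/-- `Out` of a transported group of automorphisms -/
theorem f6_out {P P' : Type} [Group P] [Group P'] (e : P ≃* P') (T : Subgroup (MulAut P))
    (T' : Subgroup (MulAut P')) (h : mapA e T = T') :
    Nonempty (FusionSystem.outq T ≃* FusionSystem.outq T') := by
  subst h
  let E : T ≃* mapA e T :=
    T.equivMapOfInjective (MulAut.congr e).toMonoidHom (MulAut.congr e).injective
  refine ⟨QuotientGroup.congr ((FusionSystem.inn P).subgroupOf T)
    ((FusionSystem.inn P').subgroupOf (mapA e T)) E ?_⟩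
  ext β
  constructor
  · rintro ⟨α, hα, rfl⟩
    obtain ⟨p, hp⟩ := Subgroup.mem_subgroupOf.1 hα
    refine Subgroup.mem_subgroupOf.2 ⟨e p, ?_⟩
    change MulAut.conj (e p) = MulAut.congr e α.1
    rw [← hp]
    apply MulEquiv.ext
    intro y
    change e p * y * (e p)⁻¹ = e (p * e.symm y * p⁻¹)
    rw [map_mul, map_mul, MulEquiv.apply_symm_apply, map_inv]
  · intro hβ
    obtain ⟨p, hp⟩ := Subgroup.mem_subgroupOf.1 hβ
    obtain ⟨α, rfl⟩ := E.surjective β
    refine ⟨α, Subgroup.mem_subgroupOf.2 ⟨e.symm p, ?_⟩, rfl⟩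
    have hp : MulAut.conj p = MulAut.congr e α.1 := hp
    apply MulEquiv.ext
    intro y
    have h1 := DFunLike.congr_fun hp (e y)
    change p * e y * p⁻¹ = e (α.1 (e.symm (e y))) at h1
    rw [MulEquiv.symm_apply_apply] at h1
    change e.symm p * y * (e.symm p)⁻¹ = α.1 y
    apply e.injective
    rw [← h1, map_mul, map_mul, map_inv, MulEquiv.apply_symm_apply]

theorem f6_congr_symm {P P' : Type} [Group P] [Group P'] (e : P ≃* P') (β : MulAut P') :
    MulAut.congr e (MulAut.congr e.symm β) = β := by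
  apply MulEquiv.ext
  intro y
  change e (e.symm (β (e (e.symm y)))) = β y
  rw [MulEquiv.apply_symm_apply, MulEquiv.apply_symm_apply]

theorem f6_aut {F : FusionSystem S} {P P' : Subgroup S} {e : P ≃* P'} (he : e ∈ F.Iso P P')
    {α : MulAut P} (hα : α ∈ F.AutF P) : MulAut.congr e α ∈ F.AutF P' := by
  have hα' : α ∈ F.Iso P P := hα
  exact F.iso_trans (F.iso_symm he) (F.iso_trans hα' he)

theorem f6_congr_apply {P P' : Type} [Group P] [Group P'] (e : P ≃* P') (α : MulAut P) (y : P) :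
    MulAut.congr e α (e y) = e (α y) := by
  change e (α (e.symm (e y))) = e (α y)
  rw [MulEquiv.symm_apply_apply]

theorem f6_mapA_injective {P P' : Type} [Group P] [Group P'] (e : P ≃* P') :
    Function.Injective (mapA e) := Subgroup.map_injective (MulAut.congr e).injective

theorem f6_cj_mapA {P P' : Type} [Group P] [Group P'] (e : P ≃* P') (α : MulAut P)
    (X : Subgroup (MulAut P)) : cj (MulAut.congr e α) (mapA e X) = mapA e (cj α X) := by
  ext β
  rw [mem_cj, mem_mapA]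
  constructor
  · rintro ⟨_, ⟨γ, hγ, rfl⟩, rfl⟩
    refine ⟨α * γ * α⁻¹, mem_cj.2 ⟨γ, hγ, rfl⟩, ?_⟩
    rw [map_mul, map_mul, map_inv]
    rfl
  · rintro ⟨γ, hγ, rfl⟩
    obtain ⟨δ, hδ, rfl⟩ := mem_cj.1 hγ
    refine ⟨MulAut.congr e δ, ⟨δ, hδ, rfl⟩, ?_⟩
    rw [map_mul, map_mul, map_inv]

theorem f6_TQ {F : FusionSystem S} {ℓ : ℕ} {a b : QT F ℓ} {e : a.Q ≃* b.Q} (he : e ∈ F.Iso a.Q b.Q)
    (h1 : mapA e '' a.σ = b.σ) (h2 : e a.x = b.x) {α : MulAut a.Q} (hα : α ∈ TQ F a.σ a.x) :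
    MulAut.congr e α ∈ TQ F b.σ b.x := by
  refine ⟨f6_aut he hα.1, ?_, ?_⟩
  · rw [← h1, ← Set.image_comp]
    have h3 : cj (MulAut.congr e α) ∘ mapA e = mapA e ∘ cj α := by
      funext X; exact f6_cj_mapA e α X
    rw [h3, Set.image_comp, hα.2.1]
  · rw [← h2, f6_congr_apply]
    exact e.toMonoidHom.map_isConj hα.2.2

theorem QT.val_congr [Finite S] {ℓ : ℕ} {F : FusionSystem S} {ζ : ∀ (K : Type) [Group K], ℤ}
    (hζ : IsoInv ζ) (a b : QT F ℓ) (h : qtSetoid F ℓ a b) : a.val ζ = b.val ζ := by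
  obtain ⟨e, he, h1, h2⟩ := h
  have h3 : mapA e (TQ F a.σ a.x) = TQ F b.σ b.x := by
    apply le_antisymm
    · rintro _ ⟨α, hα, rfl⟩
      exact f6_TQ he h1 h2 hα
    · intro β hβ
      have k1 : mapA e.symm '' b.σ = a.σ := by
        rw [← h1, ← Set.image_comp]
        have : mapA e.symm ∘ mapA e = id := by
          funext X; rw [Function.comp_apply, ← mapA_trans]
          have : e.trans e.symm = MulEquiv.refl a.Q := by ext x; simp
          rw [this, mapA_refl]; rfl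
        rw [this, Set.image_id]
      have k2 : e.symm b.x = a.x := by rw [← h2, MulEquiv.symm_apply_apply]
      exact ⟨_, f6_TQ (F.iso_symm he) k1 k2 hβ, f6_congr_symm e β⟩
  have h4 : ζ (FusionSystem.outq (TQ F a.σ a.x)) = ζ (FusionSystem.outq (TQ F b.σ b.x)) :=
    hζ _ _ (f6_out e _ _ h3)
  have h5 : a.σ.ncard = b.σ.ncard := by
    rw [← h1, Set.ncard_image_of_injective _ (f6_mapA_injective e)]
  unfold QT.val
  rw [h4, h5]

theorem f6_img_congr {P P' X : Subgroup S} (e : P ≃* P') (α : MulAut P) :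
    img (MulAut.congr e α) (img e X) = img e (img α X) := by
  ext z
  simp only [mem_img]
  constructor
  · rintro ⟨y, ⟨w, hw, h⟩, rfl⟩
    have h1 : y = e w := Subtype.ext h.symm
    refine ⟨α w, ⟨w, hw, rfl⟩, ?_⟩
    rw [h1, f6_congr_apply]
  · rintro ⟨y, ⟨w, hw, h⟩, rfl⟩
    have h1 : y = α w := Subtype.ext h.symm
    refine ⟨e w, ⟨w, hw, rfl⟩, ?_⟩
    rw [h1, f6_congr_apply]

theorem f6_TD {F : FusionSystem S} {a b : DT F} {e : a.P ≃* b.P} (he : e ∈ F.Iso a.P b.P)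
    (h1 : img e '' a.τ = b.τ) (h2 : e a.x = b.x) {α : MulAut a.P} (hα : α ∈ TD F a.τ a.le a.x) :
    MulAut.congr e α ∈ TD F b.τ b.le b.x := by
  refine ⟨f6_aut he hα.1, ?_, ?_⟩
  · rw [← h1, ← Set.image_comp]
    have h3 : ∀ X ∈ a.τ, (img (MulAut.congr e α) ∘ img e) X = (img e ∘ img α) X := fun X _ =>
      f6_img_congr e α
    rw [Set.image_congr h3, Set.image_comp, hα.2.1]
  · rw [← h2, f6_congr_apply]
    exact e.toMonoidHom.map_isConj hα.2.2

theorem f6_cx {F : FusionSystem S} {a b : DT F} {e : a.P ≃* b.P}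
    (h1 : img e '' a.τ = b.τ) (h2 : e a.x = b.x) (h : a.cx ≤ sInf a.τ) : b.cx ≤ sInf b.τ := by
  intro z hz
  obtain ⟨hz1, hz2⟩ := Subgroup.mem_inf.1 hz
  obtain ⟨y, hy⟩ := e.surjective ⟨z, hz2⟩
  have h3 := Subgroup.mem_centralizer_iff.1 hz1 b.x rfl
  have h4 : a.x * y = y * a.x := by
    apply e.injective
    rw [map_mul, map_mul, h2, hy]
    exact Subtype.ext h3
  have h5 : (y : S) ∈ a.cx := by
    refine Subgroup.mem_inf.2 ⟨Subgroup.mem_centralizer_iff.2 fun w hw => ?_, y.2⟩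
    rw [Set.mem_singleton_iff] at hw
    rw [hw]
    exact congrArg (fun t : a.P => (t : S)) h4
  have h6 := h h5
  rw [Subgroup.mem_sInf] at h6 ⊢
  intro Y hY
  rw [← h1] at hY
  obtain ⟨X, hX, rfl⟩ := hY
  refine mem_img.2 ⟨y, h6 X hX, ?_⟩
  rw [hy]

theorem DT.val_congr [Finite S] {F : FusionSystem S} {ζ : ∀ (K : Type) [Group K], ℤ}
    (hζ : IsoInv ζ) (a b : DT F) (h : dtSetoid F a b) : a.val ζ = b.val ζ := by
  classical
  obtain ⟨e, he, h1, h2⟩ := h
  have k1 : img e.symm '' b.τ = a.τ := by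
    rw [← h1, ← Set.image_comp]
    have h3 : ∀ X ∈ a.τ, (img e.symm ∘ img e) X = X := fun X hX => img_symm_img e (a.le X hX)
    rw [Set.image_congr h3, Set.image_id']
  have k2 : e.symm b.x = a.x := by rw [← h2, MulEquiv.symm_apply_apply]
  have h3 : mapA e (TD F a.τ a.le a.x) = TD F b.τ b.le b.x := by
    apply le_antisymm
    · rintro _ ⟨α, hα, rfl⟩
      exact f6_TD he h1 h2 hα
    · intro β hβ
      exact ⟨_, f6_TD (F.iso_symm he) k1 k2 hβ, f6_congr_symm e β⟩
  have h4 : ζ (FusionSystem.outq (TD F a.τ a.le a.x)) =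
      ζ (FusionSystem.outq (TD F b.τ b.le b.x)) := hζ _ _ (f6_out e _ _ h3)
  have h5 : a.τ.ncard = b.τ.ncard := by
    rw [← h1]
    symm
    apply Set.InjOn.ncard_image
    intro X hX Y hY hXY
    have h6 := congrArg (img e.symm) hXY
    rwa [img_symm_img e (a.le X hX), img_symm_img e (a.le Y hY)] at h6
  have h6 : (a.cx ≤ sInf a.τ) ↔ (b.cx ≤ sInf b.τ) := ⟨f6_cx h1 h2, f6_cx k1 k2⟩
  unfold DT.val
  by_cases hx : a.cx ≤ sInf a.τ
  · rw [if_pos hx, if_pos (h6.1 hx), h4, h5]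
  · rw [if_neg hx, if_neg (fun h => hx (h6.2 h))]

theorem f6_TZ {F : FusionSystem S} {a b : ZT F} {e : a.P ≃* b.P} (he : e ∈ F.Iso a.P b.P)
    (h2 : e a.x = b.x) {α : MulAut a.P} (hα : α ∈ TZ F a.x) :
    MulAut.congr e α ∈ TZ F b.x := by
  obtain ⟨h3, h4⟩ := Subgroup.mem_inf.1 hα
  refine Subgroup.mem_inf.2 ⟨f6_aut he h3, ?_⟩
  rw [mem_stabilizer_iff] at h4 ⊢
  change MulAut.congr e α b.x = b.x
  have h5 : α a.x = a.x := h4
  rw [← h2, f6_congr_apply, h5]

theorem ZT.val_congr [Finite S] {F : FusionSystem S} {ζ : ∀ (K : Type) [Group K], ℤ}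
    (hζ : IsoInv ζ) (a b : ZT F) (h : ztSetoid F a b) : a.val ζ = b.val ζ := by
  obtain ⟨e, he, h2⟩ := h
  have k2 : e.symm b.x = a.x := by rw [← h2, MulEquiv.symm_apply_apply]
  have h3 : mapA e (TZ F a.x) = TZ F b.x := by
    apply le_antisymm
    · rintro _ ⟨α, hα, rfl⟩
      exact f6_TZ he h2 hα
    · intro β hβ
      exact ⟨_, f6_TZ (F.iso_symm he) k2 hβ, f6_congr_symm e β⟩
  exact hζ _ _ (f6_out e _ _ h3)

end Pool.FS95
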