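import Pool.Agent.LibFS95.F16
import Pool.Agent.LibFS95.F6

/-!
Row F17: `W(Out_F(Q), Cl(Q))` as the sum over the `(Q', σ, x)` with `Q'` isomorphic to `Q`. STRONG.

Plan. F16, then G1 `clsum_transfer` with `Φ : NChain ℓ (F.OutF Q) × ConjClasses Q → {t : QT F ℓ // F.Conj Q t.Q}`, `Φ (σ, c) = (Q, {pull X : X ∈ σ}, x)` with `x = Quotient.out c` (`ConjClasses.mk x = c`) and `pull X = (X.comap (QuotientGroup.mk' _)).map (F.AutF Q).subtype ≤ MulAut Q` (order isomorphism from the subgroups of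
`OutF Q` to the subgroups between `inn Q` and `F.AutF Q`; `pull ⊥ = inn Q`; `pull X` is an `ℓ`-group iff `X` is, because `inn Q` is an `ℓ`-group, `Q ≤ S`). Relations: `(σ,c) ~ (σ',c')` iff there is `α ∈ F.AutF Q` with `α σ = σ'` (`cj α`, which is `mapA α`) and `ConjClasses.mk (α x) = mk x'`; composing `α` with an inner automorphism (which
fixes `σ'`: its members contain `inn Q`) we get `α x = x'`. Surjectivity: transport `t` along `e : Q ≃* t.Q`. Values: `ncard` is preserved; `stabilizer (OutF Q) (σ, c) ≃* outq (TQ F (pull '' σ) x)`: `TQ/inn` is the image of `TQ` in `AutF/inn`.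
-/

set_option autoImplicit false
noncomputable section
open MulAction
namespace Pool.FS95

variable {S : Type} [Group S]

section pull

variable {F : FusionSystem S} {Q : Subgroup S}

/-- the image in `OutF Q` -/
def f17_pi (F : FusionSystem S) (Q : Subgroup S) : F.AutF Q →* F.OutF Q :=
  QuotientGroup.mk' ((FusionSystem.inn Q).subgroupOf (F.AutF Q))

theorem f17_pi_surj : Function.Surjective (f17_pi F Q) := QuotientGroup.mk'_surjective _

theorem f17_pi_one {a : F.AutF Q} : f17_pi F Q a = 1 ↔ (a : MulAut Q) ∈ FusionSystem.inn Q := by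
  unfold f17_pi
  rw [QuotientGroup.mk'_apply, QuotientGroup.eq_one_iff, Subgroup.mem_subgroupOf]

theorem f17_inn_le : FusionSystem.inn Q ≤ F.AutF Q := by
  rw [← AutR_self]
  exact AutR_le_AutF F Q Q

/-- preimage of a subgroup of `OutF Q` -/
def f17_pull (F : FusionSystem S) (Q : Subgroup S) (X : Subgroup (F.OutF Q)) : Subgroup (MulAut Q) :=
  (X.comap (f17_pi F Q)).map (F.AutF Q).subtype

theorem f17_mem {X : Subgroup (F.OutF Q)} {α : MulAut Q} :
    α ∈ f17_pull F Q X ↔ ∃ h : α ∈ F.AutF Q, f17_pi F Q ⟨α, h⟩ ∈ X := by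
  unfold f17_pull
  rw [Subgroup.mem_map]
  constructor
  · rintro ⟨a, ha, rfl⟩
    exact ⟨a.2, ha⟩
  · rintro ⟨h, ha⟩
    exact ⟨⟨α, h⟩, ha, rfl⟩

theorem f17_mem' {X : Subgroup (F.OutF Q)} (a : F.AutF Q) :
    (a : MulAut Q) ∈ f17_pull F Q X ↔ f17_pi F Q a ∈ X := by
  rw [f17_mem]
  constructor
  · rintro ⟨_, h⟩; exact h
  · intro h; exact ⟨a.2, h⟩

theorem f17_le_iff {X Y : Subgroup (F.OutF Q)} : f17_pull F Q X ≤ f17_pull F Q Y ↔ X ≤ Y := by
  constructor
  · intro h x hx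
    obtain ⟨a, rfl⟩ := f17_pi_surj x
    exact (f17_mem' a).1 (h ((f17_mem' a).2 hx))
  · intro h α hα
    obtain ⟨h1, h2⟩ := f17_mem.1 hα
    exact f17_mem.2 ⟨h1, h h2⟩

theorem f17_inj : Function.Injective (f17_pull F Q) := fun _ _ h =>
  le_antisymm (f17_le_iff.1 h.le) (f17_le_iff.1 h.ge)

theorem f17_bot : f17_pull F Q ⊥ = FusionSystem.inn Q := by
  ext α
  rw [f17_mem]
  constructor
  · rintro ⟨h, h1⟩
    rw [Subgroup.mem_bot] at h1
    exact f17_pi_one.1 h1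
  · intro h
    refine ⟨f17_inn_le h, ?_⟩
    rw [Subgroup.mem_bot]
    exact f17_pi_one.2 h

theorem f17_inn_le_pull (X : Subgroup (F.OutF Q)) : FusionSystem.inn Q ≤ f17_pull F Q X := by
  rw [← f17_bot (F := F)]
  exact f17_le_iff.2 bot_le

theorem f17_pull_le (X : Subgroup (F.OutF Q)) : f17_pull F Q X ≤ F.AutF Q := fun _ h =>
  (f17_mem.1 h).1

theorem f17_surj {B : Subgroup (MulAut Q)} (h1 : FusionSystem.inn Q ≤ B) (h2 : B ≤ F.AutF Q) :
    f17_pull F Q ((B.subgroupOf (F.AutF Q)).map (f17_pi F Q)) = B := by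
  ext α
  rw [f17_mem]
  constructor
  · rintro ⟨h, h3⟩
    obtain ⟨b, hb, hb2⟩ := h3
    have h4 : f17_pi F Q (b⁻¹ * ⟨α, h⟩) = 1 := by
      rw [map_mul, map_inv, hb2, inv_mul_cancel]
    have h5 := h1 (f17_pi_one.1 h4)
    have h6 := B.mul_mem (Subgroup.mem_subgroupOf.1 hb) h5
    simpa using h6
  · intro h
    exact ⟨h2 h, ⟨⟨α, h2 h⟩, Subgroup.mem_subgroupOf.2 h, rfl⟩⟩

theorem f17_inn_pgroup [Finite S] {ℓ : ℕ} (hS : IsPGroup ℓ S) : IsPGroup ℓ (FusionSystem.inn Q) := by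
  rw [← AutR_self]
  exact AutR_isPGroup hS Subgroup.le_normalizer

theorem f17_pgroup_iff [Finite S] {ℓ : ℕ} (hS : IsPGroup ℓ S) {X : Subgroup (F.OutF Q)} :
    IsPGroup ℓ (f17_pull F Q X) ↔ IsPGroup ℓ X := by
  constructor
  · rintro h ⟨x, hx⟩
    obtain ⟨a, rfl⟩ := f17_pi_surj x
    obtain ⟨k, hk⟩ := h ⟨(a : MulAut Q), (f17_mem' a).2 hx⟩
    refine ⟨k, ?_⟩
    apply Subtype.ext
    rw [Subgroup.coe_pow]
    have h1 : (a : MulAut Q) ^ ℓ ^ k = 1 := congrArg Subtype.val hk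
    have h2 : a ^ ℓ ^ k = 1 := Subtype.ext (by rw [Subgroup.coe_pow]; exact h1)
    show (f17_pi F Q a) ^ ℓ ^ k = 1
    rw [← map_pow, h2, map_one]
  · rintro h ⟨α, hα⟩
    obtain ⟨h1, h2⟩ := f17_mem.1 hα
    obtain ⟨k, hk⟩ := h ⟨_, h2⟩
    have h3 : (f17_pi F Q ⟨α, h1⟩) ^ ℓ ^ k = 1 := congrArg Subtype.val hk
    rw [← map_pow] at h3
    have h4 := f17_pi_one.1 h3
    rw [Subgroup.coe_pow] at h4
    obtain ⟨j, hj⟩ := f17_inn_pgroup (Q := Q) hS ⟨_, h4⟩
    refine ⟨k + j, ?_⟩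
    apply Subtype.ext
    rw [Subgroup.coe_pow]
    have h5 : (α ^ ℓ ^ k) ^ ℓ ^ j = 1 := congrArg Subtype.val hj
    show α ^ ℓ ^ (k + j) = 1
    rw [pow_add, pow_mul]
    exact h5

theorem f17_norm_iff {X Y : Subgroup (F.OutF Q)} :
    f17_pull F Q Y ≤ Subgroup.normalizer (f17_pull F Q X : Set (MulAut Q)) ↔
      Y ≤ Subgroup.normalizer (X : Set (F.OutF Q)) := by
  constructor
  · intro h y hy
    obtain ⟨b, rfl⟩ := f17_pi_surj y
    have h1 := h ((f17_mem' b).2 hy)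
    rw [Subgroup.mem_normalizer_iff] at h1 ⊢
    intro x
    obtain ⟨a, rfl⟩ := f17_pi_surj x
    have h2 := h1 a
    have h3 : (b : MulAut Q) * a * (b : MulAut Q)⁻¹ = ((b * a * b⁻¹ : F.AutF Q) : MulAut Q) := rfl
    rw [h3, f17_mem', f17_mem', map_mul, map_mul, map_inv] at h2
    exact h2
  · intro h β hβ
    obtain ⟨hb, hβ2⟩ := f17_mem.1 hβ
    have h1 := h hβ2
    rw [Subgroup.mem_normalizer_iff] at h1 ⊢
    intro α
    have key : ∀ a : F.AutF Q, (a : MulAut Q) ∈ f17_pull F Q X ↔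
        β * a * β⁻¹ ∈ f17_pull F Q X := by
      intro a
      have h3 : β * a * β⁻¹ = (((⟨β, hb⟩ : F.AutF Q) * a * (⟨β, hb⟩ : F.AutF Q)⁻¹ : F.AutF Q) :
        MulAut Q) := rfl
      rw [h3, f17_mem', f17_mem', map_mul, map_mul, map_inv]
      exact h1 _
    constructor
    · intro hα
      exact (key ⟨α, f17_pull_le X hα⟩).1 hα
    · intro hα
      have h4 : α ∈ F.AutF Q := by
        have h5 := f17_pull_le X hα
        have h6 := (F.AutF Q).mul_mem ((F.AutF Q).mul_mem ((F.AutF Q).inv_mem hb) h5) hb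
        have h7 : β⁻¹ * (β * α * β⁻¹) * β = α := by group
        rwa [h7] at h6
      exact (key ⟨α, h4⟩).2 hα

theorem f17_cj (a : F.AutF Q) (X : Subgroup (F.OutF Q)) :
    f17_pull F Q (cj (f17_pi F Q a) X) = cj (a : MulAut Q) (f17_pull F Q X) := by
  ext α
  rw [f17_mem, mem_cj]
  constructor
  · rintro ⟨h, h1⟩
    rw [mem_cj] at h1
    obtain ⟨x, hx, hx2⟩ := h1
    obtain ⟨c, rfl⟩ := f17_pi_surj x
    refine ⟨((a⁻¹ * ⟨α, h⟩ * a : F.AutF Q) : MulAut Q), ?_, ?_⟩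
    · rw [f17_mem', map_mul, map_mul, map_inv, ← hx2]
      have h3 : (f17_pi F Q a)⁻¹ * (f17_pi F Q a * f17_pi F Q c * (f17_pi F Q a)⁻¹) * f17_pi F Q a =
          f17_pi F Q c := by group
      rw [h3]; exact hx
    · show (a : MulAut Q) * ((a : MulAut Q)⁻¹ * α * a) * (a : MulAut Q)⁻¹ = α
      group
  · rintro ⟨b, hb, rfl⟩
    obtain ⟨h1, h2⟩ := f17_mem.1 hb
    refine ⟨(F.AutF Q).mul_mem ((F.AutF Q).mul_mem a.2 h1) ((F.AutF Q).inv_mem a.2), ?_⟩
    rw [mem_cj]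
    refine ⟨_, h2, ?_⟩
    rw [← map_inv, ← map_mul, ← map_mul]
    rfl

theorem f17_mapA (a : MulAut Q) (B : Subgroup (MulAut Q)) : mapA (a : Q ≃* Q) B = cj a B := by
  ext β
  rw [mem_mapA, mem_cj]
  rfl

/-- inner automorphisms fix everything above `inn` -/
theorem f17_cj_inn {B : Subgroup (MulAut Q)} (h : FusionSystem.inn Q ≤ B) (q : Q) :
    cj (MulAut.conj q) B = B := by
  have hq : MulAut.conj q ∈ B := h ⟨q, rfl⟩
  ext β
  rw [mem_cj]
  constructor
  · rintro ⟨b, hb, rfl⟩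
    exact B.mul_mem (B.mul_mem hq hb) (B.inv_mem hq)
  · intro hβ
    refine ⟨(MulAut.conj q)⁻¹ * β * MulAut.conj q, B.mul_mem (B.mul_mem (B.inv_mem hq) hβ) hq, ?_⟩
    group

theorem f17_image_cj (a : F.AutF Q) (σ : Set (Subgroup (F.OutF Q))) :
    cj (a : MulAut Q) '' (f17_pull F Q '' σ) = f17_pull F Q '' (cj (f17_pi F Q a) '' σ) := by
  rw [Set.image_image, Set.image_image]
  exact Set.image_congr fun X _ => (f17_cj a X).symm

theorem f17_key (a : F.AutF Q) (q : Q) (σ : Set (Subgroup (F.OutF Q))) :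
    mapA ((MulAut.conj q * (a : MulAut Q) : MulAut Q) : Q ≃* Q) '' (f17_pull F Q '' σ) =
      f17_pull F Q '' (cj (f17_pi F Q a) '' σ) := by
  rw [← f17_image_cj, Set.image_image, Set.image_image]
  refine Set.image_congr fun X _ => ?_
  rw [f17_mapA, cj_mul, ← f17_cj, f17_cj_inn (f17_inn_le_pull _)]

theorem f17_mapA_mono {P R : Type} [Group P] [Group R] (e : P ≃* R) {X Y : Subgroup (MulAut P)}
    (h : X ≤ Y) : mapA e X ≤ mapA e Y := Subgroup.map_mono h

theorem f17_mapA_inn {P R : Type} [Group P] [Group R] (e : P ≃* R) :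
    mapA e (FusionSystem.inn P) = FusionSystem.inn R := by
  ext β
  rw [mem_mapA]
  constructor
  · rintro ⟨_, ⟨p, rfl⟩, rfl⟩
    refine ⟨e p, ?_⟩
    ext x
    show e p * x * (e p)⁻¹ = e (p * e.symm x * p⁻¹)
    rw [map_mul, map_mul, map_inv, MulEquiv.apply_symm_apply]
  · rintro ⟨r, rfl⟩
    refine ⟨MulAut.conj (e.symm r), ⟨_, rfl⟩, ?_⟩
    ext x
    show e (e.symm r * e.symm x * (e.symm r)⁻¹) = r * x * r⁻¹
    rw [map_mul, map_mul, map_inv, MulEquiv.apply_symm_apply, MulEquiv.apply_symm_apply]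

theorem f17_mapA_norm {P R : Type} [Group P] [Group R] (e : P ≃* R) {X Y : Subgroup (MulAut P)}
    (h : Y ≤ Subgroup.normalizer (X : Set (MulAut P))) :
    mapA e Y ≤ Subgroup.normalizer (mapA e X : Set (MulAut R)) := by
  rintro _ ⟨y, hy, rfl⟩
  have h1 := h hy
  rw [Subgroup.mem_normalizer_iff] at h1 ⊢
  intro β
  rw [mem_mapA, mem_mapA]
  constructor
  · rintro ⟨α, hα, rfl⟩
    refine ⟨y * α * y⁻¹, (h1 α).1 hα, ?_⟩
    rw [map_mul, map_mul, map_inv]
    rfl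
  · rintro ⟨α, hα, h2⟩
    refine ⟨y⁻¹ * α * y, ?_, ?_⟩
    · rw [h1]
      have h3 : y * (y⁻¹ * α * y) * y⁻¹ = α := by group
      rw [h3]; exact hα
    · rw [map_mul, map_mul, map_inv, h2]
      show (MulAut.congr e y)⁻¹ * (MulAut.congr e y * β * (MulAut.congr e y)⁻¹) * MulAut.congr e y = β
      group

/-- the representative of a class -/
def f17_rep {P : Type} [Group P] (c : ConjClasses P) : P := Classical.choose (ConjClasses.exists_rep c)

theorem f17_rep_spec {P : Type} [Group P] (c : ConjClasses P) : ConjClasses.mk (f17_rep c) = c :=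
  Classical.choose_spec (ConjClasses.exists_rep c)

/-- the map -/
def f17_Phi [Finite S] {ℓ : ℕ} (hS : IsPGroup ℓ S) (hQ : F.Centric Q)
    (p : NChain ℓ (F.OutF Q) × ConjClasses Q) : {t : QT F ℓ // F.Conj Q t.Q} :=
  ⟨{ Q := Q
     σ := f17_pull F Q '' p.1.1
     x := f17_rep p.2
     centric := hQ
     inn_mem := ⟨⊥, p.1.2.bot_mem, f17_bot⟩
     inn_le := by
      rintro _ ⟨X, _, rfl⟩
      exact f17_inn_le_pull X
     le := by
      rintro _ ⟨X, _, rfl⟩
      exact f17_pull_le X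
     isPGroup := by
      rintro _ ⟨X, hX, rfl⟩
      exact (f17_pgroup_iff hS).2 (p.1.2.isPGroup X hX)
     total := by
      rintro _ ⟨X, hX, rfl⟩ _ ⟨Y, hY, rfl⟩
      rcases p.1.2.total X hX Y hY with h | h
      · exact Or.inl (f17_le_iff.2 h)
      · exact Or.inr (f17_le_iff.2 h)
     normal := by
      rintro _ ⟨X, hX, rfl⟩ _ ⟨Y, hY, rfl⟩ h
      exact f17_norm_iff.2 (p.1.2.normal X hX Y hY (f17_le_iff.1 h)) }, F.conj_refl Q⟩

theorem f17_h1_aux {ℓ : ℕ} (p p' : NChain ℓ (F.OutF Q) × ConjClasses Q) (e : Q ≃* Q)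
    (he : e ∈ F.Iso Q Q) (h1 : mapA e '' (f17_pull F Q '' p.1.1) = f17_pull F Q '' p'.1.1)
    (h2 : e (f17_rep p.2) = f17_rep p'.2) :
    orbitRel (F.OutF Q) (NChain ℓ (F.OutF Q) × ConjClasses Q) p p' := by
  rw [orbitRel_apply]
  set a : F.AutF Q := ⟨e, he⟩ with ha
  have h3 : cj (f17_pi F Q a) '' p.1.1 = p'.1.1 := by
    apply f17_inj.image_injective
    rw [← h1, ← f17_image_cj]
    refine Set.image_congr fun X _ => ?_
    exact (f17_mapA _ _).symm
  have h4 : (f17_pi F Q a) • p = p' := by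
    refine Prod.ext (Subtype.ext h3) ?_
    show (a : MulAut Q) • p.2 = p'.2
    conv_lhs => rw [← f17_rep_spec p.2]
    rw [smul_mk]
    show ConjClasses.mk (e (f17_rep p.2)) = p'.2
    rw [h2, f17_rep_spec]
  refine ⟨(f17_pi F Q a)⁻¹, ?_⟩
  show (f17_pi F Q a)⁻¹ • p' = p
  rw [← h4, inv_smul_smul]

theorem f17_h1 [Finite S] {ℓ : ℕ} (hS : IsPGroup ℓ S) (hQ : F.Centric Q)
    (p p' : NChain ℓ (F.OutF Q) × ConjClasses Q) :
    orbitRel (F.OutF Q) (NChain ℓ (F.OutF Q) × ConjClasses Q) p p' ↔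
      qtSetoid F ℓ (f17_Phi hS hQ p).1 (f17_Phi hS hQ p').1 := by
  rw [orbitRel_apply]
  constructor
  · rintro ⟨h, hh⟩
    obtain ⟨a, rfl⟩ := f17_pi_surj h
    have h1 : cj (f17_pi F Q a) '' p'.1.1 = p.1.1 := by
      have := congrArg (fun z => (Prod.fst z).1) hh
      exact this
    have h2 : (a : MulAut Q) • p'.2 = p.2 := congrArg Prod.snd hh
    have h3 : IsConj ((a : MulAut Q) (f17_rep p'.2)) (f17_rep p.2) := by
      rw [← ConjClasses.mk_eq_mk_iff_isConj, f17_rep_spec, ← smul_mk, f17_rep_spec]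
      exact h2
    have h4 : IsConj ((a : MulAut Q)⁻¹ (f17_rep p.2)) (f17_rep p'.2) := by
      have h5 := ((a : MulAut Q)⁻¹).toMonoidHom.map_isConj h3
      have h6 : ((a : MulAut Q)⁻¹).toMonoidHom ((a : MulAut Q) (f17_rep p'.2)) = f17_rep p'.2 :=
        MulAut.inv_apply_self _ (a : MulAut Q) _
      rw [h6] at h5
      exact h5.symm
    obtain ⟨q, hq⟩ := isConj_iff.1 h4
    refine ⟨((MulAut.conj q * ((a⁻¹ : F.AutF Q) : MulAut Q) : MulAut Q) : Q ≃* Q), ?_, ?_, ?_⟩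
    · exact (F.AutF Q).mul_mem (f17_inn_le ⟨q, rfl⟩) (a⁻¹).2
    · show mapA _ '' (f17_pull F Q '' p.1.1) = f17_pull F Q '' p'.1.1
      rw [f17_key, ← h1, map_inv]
      have h7 : cj (f17_pi F Q a)⁻¹ '' (cj (f17_pi F Q a) '' p'.1.1) = p'.1.1 := by
        rw [← Set.image_comp]
        have h6 : cj (f17_pi F Q a)⁻¹ ∘ cj (f17_pi F Q a) = id := by
          funext X
          rw [Function.comp_apply, ← cj_mul, inv_mul_cancel, cj_one]
          rfl
        rw [h6, Set.image_id]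
      rw [h7]
    · exact hq
  · rintro ⟨e, he, h1, h2⟩
    exact orbitRel_apply.1 (f17_h1_aux p p' e he h1 h2)

theorem f17_h2 [Finite S] {ℓ : ℕ} (hS : IsPGroup ℓ S) (hQ : F.Centric Q)
    (t : {t : QT F ℓ // F.Conj Q t.Q}) :
    ∃ p : NChain ℓ (F.OutF Q) × ConjClasses Q, qtSetoid F ℓ (f17_Phi hS hQ p).1 t.1 := by
  obtain ⟨t, ⟨e, he⟩⟩ := t
  have hle : ∀ B ∈ t.σ, mapA e.symm B ≤ F.AutF Q := by
    rintro B hB _ ⟨α, hα, rfl⟩
    have h1 : α ∈ F.Iso t.Q t.Q := t.le B hB hα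
    exact F.iso_trans he (F.iso_trans h1 (F.iso_symm he))
  have hinn : ∀ B ∈ t.σ, FusionSystem.inn Q ≤ mapA e.symm B := by
    intro B hB
    rw [← f17_mapA_inn e.symm]
    exact f17_mapA_mono _ (t.inn_le B hB)
  set push : Subgroup (MulAut t.Q) → Subgroup (F.OutF Q) := fun B =>
    ((mapA e.symm B).subgroupOf (F.AutF Q)).map (f17_pi F Q) with hpush
  have hpp : ∀ B ∈ t.σ, f17_pull F Q (push B) = mapA e.symm B := fun B hB =>
    f17_surj (hinn B hB) (hle B hB)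
  have hσ : IsNChain ℓ (push '' t.σ) :=
    { bot_mem := by
        refine ⟨FusionSystem.inn t.Q, t.inn_mem, ?_⟩
        apply f17_inj
        rw [hpp _ t.inn_mem, f17_bot, f17_mapA_inn]
      isPGroup := by
        rintro _ ⟨B, hB, rfl⟩
        rw [← f17_pgroup_iff hS, hpp B hB]
        exact (t.isPGroup B hB).map _
      total := by
        rintro _ ⟨X, hX, rfl⟩ _ ⟨Y, hY, rfl⟩
        rw [← f17_le_iff (X := push X), ← f17_le_iff (X := push Y), hpp X hX, hpp Y hY]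
        rcases t.total X hX Y hY with h | h
        · exact Or.inl (f17_mapA_mono _ h)
        · exact Or.inr (f17_mapA_mono _ h)
      normal := by
        rintro _ ⟨X, hX, rfl⟩ _ ⟨Y, hY, rfl⟩ h
        rw [← f17_le_iff, hpp X hX, hpp Y hY] at h
        rw [← f17_norm_iff, hpp X hX, hpp Y hY]
        have h1 : X ≤ Y := by
          have h2 := f17_mapA_mono e h
          have h3 : ∀ Z : Subgroup (MulAut t.Q), mapA e (mapA e.symm Z) = Z := by
            intro Z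
            rw [← mapA_trans]
            have : e.symm.trans e = MulEquiv.refl t.Q := by ext x; simp
            rw [this, mapA_refl]
          rwa [h3, h3] at h2
        exact f17_mapA_norm _ (t.normal X hX Y hY h1) }
  refine ⟨(⟨push '' t.σ, hσ⟩, ConjClasses.mk (e.symm t.x)), ?_⟩
  set c : ConjClasses Q := ConjClasses.mk (e.symm t.x) with hc
  have h1 : IsConj (f17_rep c) (e.symm t.x) := by
    rw [← ConjClasses.mk_eq_mk_iff_isConj, f17_rep_spec]
  obtain ⟨q, hq⟩ := isConj_iff.1 h1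
  refine ⟨(MulAut.conj q : Q ≃* Q).trans e, ?_, ?_, ?_⟩
  · exact F.iso_trans (f17_inn_le ⟨q, rfl⟩) he
  · show mapA ((MulAut.conj q : Q ≃* Q).trans e) '' (f17_pull F Q '' (push '' t.σ)) = t.σ
    rw [Set.image_image, Set.image_image]
    have h2 : ∀ B ∈ t.σ, mapA ((MulAut.conj q : Q ≃* Q).trans e) (f17_pull F Q (push B)) = B := by
      intro B hB
      rw [mapA_trans, f17_mapA, f17_cj_inn (f17_inn_le_pull _), hpp B hB, ← mapA_trans]
      have : e.symm.trans e = MulEquiv.refl t.Q := by ext x; simp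
      rw [this, mapA_refl]
    rw [Set.image_congr h2, Set.image_id']
  · show e (MulAut.conj q (f17_rep c)) = t.x
    rw [MulAut.conj_apply, hq, MulEquiv.apply_symm_apply]

theorem f17_h3 [Finite S] {ℓ : ℕ} (hS : IsPGroup ℓ S) (hQ : F.Centric Q)
    {ζ : ∀ (K : Type) [Group K], ℤ} (hζ : IsoInv ζ) (p : NChain ℓ (F.OutF Q) × ConjClasses Q) :
    (-1) ^ p.1.len * ζ (stabilizer (F.OutF Q) p) = (f17_Phi hS hQ p).1.val ζ := by
  have hval : (f17_Phi hS hQ p).1.val ζ = (-1) ^ ((f17_pull F Q '' p.1.1).ncard - 1) *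
    ζ (FusionSystem.outq (TQ F (f17_pull F Q '' p.1.1) (f17_rep p.2))) := rfl
  rw [hval, Set.ncard_image_of_injective _ f17_inj]
  have hlen : p.1.len = p.1.1.ncard - 1 := rfl
  rw [hlen]
  congr 1
  apply hζ
  set T := TQ F (f17_pull F Q '' p.1.1) (f17_rep p.2) with hT
  have hle : T ≤ F.AutF Q := fun α hα => hα.1
  have hmem : ∀ a : F.AutF Q, (a : MulAut Q) ∈ T ↔ f17_pi F Q a ∈ stabilizer (F.OutF Q) p := by
    intro a
    rw [mem_stabilizer_iff]
    constructor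
    · rintro ⟨_, h2, h3⟩
      refine Prod.ext (Subtype.ext ?_) ?_
      · apply f17_inj.image_injective
        show f17_pull F Q '' (cj (f17_pi F Q a) '' p.1.1) = f17_pull F Q '' p.1.1
        rw [← f17_image_cj]
        exact h2
      · show (a : MulAut Q) • p.2 = p.2
        conv_lhs => rw [← f17_rep_spec p.2]
        rw [smul_mk, ConjClasses.mk_eq_mk_iff_isConj.2 h3, f17_rep_spec]
    · intro h
      refine ⟨a.2, ?_, ?_⟩
      · rw [f17_image_cj]
        congr 1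
        exact congrArg (fun z => (Prod.fst z).1) h
      · rw [← ConjClasses.mk_eq_mk_iff_isConj, ← smul_mk, f17_rep_spec]
        exact congrArg Prod.snd h
  let φ : T →* stabilizer (F.OutF Q) p :=
    ((f17_pi F Q).comp (Subgroup.inclusion hle)).codRestrict _ (fun α =>
      (hmem ⟨α, hle α.2⟩).1 α.2)
  have hφ : Function.Surjective φ := by
    rintro ⟨h, hh⟩
    obtain ⟨a, rfl⟩ := f17_pi_surj h
    exact ⟨⟨a, (hmem a).2 hh⟩, rfl⟩
  have hker : (FusionSystem.inn Q).subgroupOf T = φ.ker := by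
    ext α
    rw [Subgroup.mem_subgroupOf, MonoidHom.mem_ker]
    have h1 := f17_pi_one (F := F) (a := ⟨α, hle α.2⟩)
    constructor
    · intro h
      exact Subtype.ext (h1.2 h)
    · intro h
      exact h1.1 (congrArg Subtype.val h)
  exact ⟨((QuotientGroup.quotientMulEquivOfEq hker).trans
    (QuotientGroup.quotientKerEquivOfSurjective φ hφ)).symm⟩

end pull

theorem W_classes_eq [Finite S] {ℓ : ℕ} (hS : IsPGroup ℓ S) {F : FusionSystem S}
    {ζ : ∀ (K : Type) [Group K], ℤ} (hζ : IsoInv ζ) (Q : Subgroup S) (hQ : F.Centric Q) :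
    W ℓ ζ (F.OutF Q) (ConjClasses Q) =
      clsum ((qtSetoid F ℓ).comap (Subtype.val : {t : QT F ℓ // F.Conj Q t.Q} → QT F ℓ))
        (fun t => t.1.val ζ) := by
  have : Finite (MulAut Q) :=
    Finite.of_injective (fun e : MulAut Q => (e : Q → Q)) DFunLike.coe_injective
  have : Finite (ConjClasses Q) := Quotient.finite _
  rw [W_eq_clsum_prod ℓ hζ]
  have hg : ∀ y y' : {t : QT F ℓ // F.Conj Q t.Q},
      ((qtSetoid F ℓ).comap (Subtype.val : {t : QT F ℓ // F.Conj Q t.Q} → QT F ℓ)) y y' →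
      y.1.val ζ = y'.1.val ζ := fun y y' h => QT.val_congr hζ _ _ h
  refine clsum_transfer _ _ _ _ ?_ hg (f17_Phi hS hQ) (fun p p' => f17_h1 hS hQ p p')
    (fun t _ => f17_h2 hS hQ t) (fun p => f17_h3 hS hQ hζ p)
  intro p p' h
  rw [f17_h3 hS hQ hζ p, f17_h3 hS hQ hζ p']
  exact hg _ _ ((f17_h1 hS hQ p p').1 h)

end Pool.FS95
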