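import Pool.Agent.LibFS95.G1

/-!
Row G3: summing over the fibres of an invariant map to a second set of classes.

Plan. `Quotient r → Quotient rB`, `[x] ↦ [π x]`; `∑_{q} = ∑_b ∑_{q ↦ b}` (both quotients may be
replaced by the finite image; `Quotient r` is finite, so everything is a finite sum:
`finsum_eq_sum_of_fintype`, `Finset.sum_fiberwise`, or `finsum_mem` versions); the fibre over `b` is
in bijection with the quotient of `{x // ⟦π x⟧ = b}`.
-/

set_option autoImplicit false
noncomputable section
open MulAction
namespace Pool.FS95

theorem clsum_fiber {X B : Type*} (r : Setoid X) (rB : Setoid B) [Finite (Quotient r)] (f : X → ℤ)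
    (hf : ∀ x x', r x x' → f x = f x') (π : X → B) (hπ : ∀ x x', r x x' → rB (π x) (π x')) :
    clsum r f = ∑ᶠ b : Quotient rB,
      clsum (r.comap (Subtype.val : {x : X // Quotient.mk rB (π x) = b} → X)) (fun x => f x.1) := by
  classical
  haveI := Fintype.ofFinite (Quotient r)
  rw [clsum_eq_lift r f hf, finsum_eq_sum_of_fintype]
  set P : Quotient r → Quotient rB := Quotient.map π hπ with hP
  have key : ∀ b : Quotient rB,
      clsum (r.comap (Subtype.val : {x : X // Quotient.mk rB (π x) = b} → X)) (fun x => f x.1) =
        ∑ q ∈ Finset.univ.filter (fun q => P q = b), Quotient.lift f hf q := by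
    intro b
    set rb : Setoid {x : X // Quotient.mk rB (π x) = b} :=
      r.comap (Subtype.val : {x : X // Quotient.mk rB (π x) = b} → X) with hrb
    have hf' : ∀ x x' : {x : X // Quotient.mk rB (π x) = b}, rb x x' → f x.1 = f x'.1 :=
      fun x x' h => hf _ _ h
    rw [clsum_eq_lift rb (fun x => f x.1) hf']
    set ι : Quotient rb → Quotient r := Quotient.map (fun x => x.1) (fun _ _ h => h) with hι
    have hinj : Function.Injective ι := by
      intro q q'
      induction q using Quotient.inductionOn with
      | _ x =>
      induction q' using Quotient.inductionOn with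
      | _ x' =>
      intro h
      have h' : Quotient.mk r x.1 = Quotient.mk r x'.1 := h
      have h2 : r x.1 x'.1 := Quotient.exact h'
      exact Quotient.sound (s := rb) h2
    have hrange : Set.range ι = ((Finset.univ.filter (fun q => P q = b) : Finset (Quotient r)) :
        Set (Quotient r)) := by
      ext q
      rw [Finset.coe_filter, Set.mem_range]
      constructor
      · rintro ⟨q', rfl⟩
        induction q' using Quotient.inductionOn with
        | _ x =>
        exact ⟨Finset.mem_univ _, x.2⟩
      · rintro ⟨_, hq⟩
        induction q using Quotient.inductionOn with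
        | _ x =>
        exact ⟨Quotient.mk rb ⟨x, hq⟩, rfl⟩
    have h1 : ∀ q : Quotient rb, Quotient.lift (fun x => f x.1) hf' q =
        Quotient.lift f hf (ι q) := by
      intro q
      induction q using Quotient.inductionOn with
      | _ x => rfl
    rw [finsum_congr h1, ← finsum_mem_range hinj, hrange, finsum_mem_coe_finset]
  rw [finsum_congr key, finsum_eq_sum_of_support_subset (s := Finset.univ.image P)]
  · exact (Finset.sum_fiberwise_of_maps_to
      (fun q _ => Finset.mem_image_of_mem P (Finset.mem_univ q)) _).symm
  · intro b hb
    by_contra hcon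
    apply hb
    apply Finset.sum_eq_zero
    intro q hq
    exfalso
    apply hcon
    rw [← (Finset.mem_filter.1 hq).2, Finset.coe_image]
    exact ⟨q, Finset.mem_coe.2 (Finset.mem_univ q), rfl⟩

end Pool.FS95
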