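import Pool.Agent.LibFS95.F17
import Pool.Agent.LibFS95.G3
import Pool.Agent.LibFS95.C3

/-!
Row F18: `∑_{Q ∈ F^{cr}/F} W(Out_F(Q), Cl(Q)) = ∑_{(Q,σ,x)}`.

Plan. G3 `clsum_fiber` for `qtSetoid F ℓ`, `rB = F.subSetoid F.Centric`, `π t = ⟨t.Q, t.centric⟩`; the fibre over `b` with `Q_b = b.out` is `{t // F.Conj Q_b t.Q}` and its sum is `W ℓ ζ (F.OutF Q_b) (ConjClasses Q_b)` (F17). So `clsum (qtSetoid) = clsum (F.subSetoid F.Centric) (fun Q => W ..)`. The `Q` which are not radical contribute 0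
(C3 `W_eq_zero`): `clsum_restrict`/`clsum_transfer` from `{P // Centric ∧ Radical}` to `{P // Centric}` (radicality is invariant under `F`-conjugacy: `F.OutF P ≃* F.OutF P'` by `MulAut.congr e`; `W` also: prove that `Q ↦ W ℓ ζ (F.OutF Q) (ConjClasses Q)` is invariant, e.g. from F17 itself).
-/

set_option autoImplicit false
noncomputable section
open MulAction
namespace Pool.FS95

variable {S : Type} [Group S]

/-- the sum over a part of the triples -/
private def f18_sum (F : FusionSystem S) (ℓ : ℕ) (ζ : ∀ (K : Type) [Group K], ℤ)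
    (p : QT F ℓ → Prop) : ℤ :=
  clsum ((qtSetoid F ℓ).comap (Subtype.val : {t : QT F ℓ // p t} → QT F ℓ)) (fun t => t.1.val ζ)

theorem clsum_W_classes [Finite S] {ℓ : ℕ} [Fact ℓ.Prime] (hS : IsPGroup ℓ S)
    {F : FusionSystem S} {ζ : ∀ (K : Type) [Group K], ℤ} (hζ : IsoInv ζ) :
    clsum (F.subSetoid fun P => F.Centric P ∧ F.Radical ℓ P)
      (fun Q => W ℓ ζ (F.OutF Q.1) (ConjClasses Q.1)) = clsum (qtSetoid F ℓ) (QT.val ζ) := by
  have hW : ∀ Q : Subgroup S, F.Centric Q →
      W ℓ ζ (F.OutF Q) (ConjClasses Q) = f18_sum F ℓ ζ (fun t => F.Conj Q t.Q) :=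
    fun Q hQ => W_classes_eq hS hζ Q hQ
  have hinv : ∀ y y' : {P : Subgroup S // F.Centric P}, F.subSetoid F.Centric y y' →
      W ℓ ζ (F.OutF y.1) (ConjClasses y.1) = W ℓ ζ (F.OutF y'.1) (ConjClasses y'.1) := by
    intro y y' h
    have h : F.Conj y.1 y'.1 := h
    rw [hW _ y.2, hW _ y'.2]
    congr 1
    funext t
    exact propext ⟨fun h' => F.conj_trans (F.conj_symm h) h', fun h' => F.conj_trans h h'⟩
  have hA : clsum (F.subSetoid fun P => F.Centric P ∧ F.Radical ℓ P)
      (fun Q => W ℓ ζ (F.OutF Q.1) (ConjClasses Q.1)) =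
      clsum (F.subSetoid F.Centric) (fun Q => W ℓ ζ (F.OutF Q.1) (ConjClasses Q.1)) := by
    refine clsum_transfer _ _ _ _ ?_ hinv (fun P => ⟨P.1, P.2.1⟩) ?_ ?_ ?_
    · intro P P' h
      exact hinv ⟨P.1, P.2.1⟩ ⟨P'.1, P'.2.1⟩ h
    · intro P P'
      exact Iff.rfl
    · rintro ⟨P, hP⟩ hne
      by_cases hrad : F.Radical ℓ P
      · exact ⟨⟨P, hP, hrad⟩, F.conj_refl P⟩
      · exfalso
        apply hne
        have : Finite (MulAut P) :=
          Finite.of_injective (fun e : MulAut P => (e : P → P)) DFunLike.coe_injective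
        exact W_eq_zero ℓ hζ (F.OutF P) (ConjClasses P) hrad
    · intro P
      rfl
  rw [hA, clsum_fiber (qtSetoid F ℓ) (F.subSetoid F.Centric) (QT.val ζ)
    (fun a b h => QT.val_congr hζ a b h) (fun t => ⟨t.Q, t.centric⟩) ?_]
  · unfold clsum
    refine finsum_congr fun b => ?_
    refine (hW _ b.out.2).trans ?_
    change f18_sum F ℓ ζ (fun t => F.Conj b.out.1 t.Q) = f18_sum F ℓ ζ
      (fun t => Quotient.mk (F.subSetoid F.Centric) ⟨t.Q, t.centric⟩ = b)
    congr 1
    funext t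
    apply propext
    constructor
    · intro h
      conv_rhs => rw [← Quotient.out_eq b]
      exact Quotient.sound (F.conj_symm h)
    · intro h
      have h1 : Quotient.mk (F.subSetoid F.Centric) ⟨t.Q, t.centric⟩ =
          Quotient.mk (F.subSetoid F.Centric) b.out := by
        rw [h]
        exact (Quotient.out_eq b).symm
      exact F.conj_symm (Quotient.exact h1)
  · rintro a b ⟨e, he, -⟩
    exact ⟨e, he⟩

end Pool.FS95
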