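import Pool.Agent.LibFS95.F6

/-!
Row F19: centric subgroups of the centraliser fusion system `C_F(s)`.

`C = C_S(s)`, `P ≤ C` (a `Subgroup ↥C`), `up s P = P.map C.subtype` the same group as a subgroup of `S`. Plan. `iso_cent_iff`: for `s ∈ up s P`, `adj s P = up s P`; an isomorphism `e : P ≃* P'` is in `(F.cent s).Iso` iff the corresponding `e' : up s P ≃* up s P'` is in `F.Iso` and fixes `s`.
`mem_of_centric`: `s` is central in `C`, so it is in the centraliser of `P` in `C`. `up_centric`: `P` is `C_F(s)`-centric. Let `φ : up P ≃* Q` in `F`, `t = φ s`. As `⟨s⟩` is fully centralised, `⟨t⟩ ≃ ⟨s⟩` (`t ↦ s`) extends to `ψ : C_S(t) → S` (saturation: `C_S(t) ≤ Nphi`), with image in `C_S(s)`. `Q ≤ C_S(t)`, `C_S(Q) ≤ C_S(t)`; `Q' = ψ(Q) ≤ C_S(s)` and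
`ψ ∘ φ : up P → Q'` fixes `s`, so `Q'` is `C_F(s)`-conjugate to `P`; `ψ(C_S(Q)) ≤ C_{C_S(s)}(Q') ≤ Q' = ψ(Q)`, so `C_S(Q) ≤ Q`. `centric_of_up`: `Q'` a `C_F(s)`-conjugate of `P` (with `s ∈ up P`) is an `F`-conjugate of `up P`, so `C_S(Q') ≤ Q'`.
-/

set_option autoImplicit false
noncomputable section
open MulAction
namespace Pool.FS95

variable {S : Type} [Group S]

/-- A subgroup of `C_S(s)` as a subgroup of `S`. -/
def up (s : S) (P : Subgroup ↥(Subgroup.centralizer ({s} : Set S))) : Subgroup S :=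
  P.map (Subgroup.subtype _)

/-- `P ≃* up s P`. -/
def upEquiv (s : S) (P : Subgroup ↥(Subgroup.centralizer ({s} : Set S))) : P ≃* up s P :=
  P.equivMapOfInjective _ (Subgroup.subtype_injective _)

theorem upEquiv_coe (s : S) (P : Subgroup ↥(Subgroup.centralizer ({s} : Set S))) (x : P) :
    (upEquiv s P x : S) = ((x : ↥(Subgroup.centralizer ({s} : Set S))) : S) := rfl

open FusionSystem (adj mem_adj self_mem_adj)

theorem mem_up_iff {s : S} {P : Subgroup ↥(Subgroup.centralizer ({s} : Set S))}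
    {x : ↥(Subgroup.centralizer ({s} : Set S))} : (x : S) ∈ up s P ↔ x ∈ P := by
  constructor
  · rintro ⟨y, hy, h⟩
    have : y = x := Subtype.ext h
    rwa [← this]
  · intro h
    exact ⟨x, h, rfl⟩

theorem up_le_cent (s : S) (P : Subgroup ↥(Subgroup.centralizer ({s} : Set S))) :
    up s P ≤ Subgroup.centralizer ({s} : Set S) := by
  rintro _ ⟨y, _, rfl⟩
  exact y.2

theorem up_le_adj (s : S) (P : Subgroup ↥(Subgroup.centralizer ({s} : Set S))) :
    up s P ≤ adj s P := le_sup_left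

theorem incl_mem (F : FusionSystem S) {A B : Subgroup S} (h : A ≤ B) :
    Subgroup.inclusion h ∈ F.Hom A B := F.conj_mem A B 1 _ (fun x => by simp)

theorem upc_apply {s : S} {P P' : Subgroup ↥(Subgroup.centralizer ({s} : Set S))} (e : P ≃* P')
    (y : P) : (((upEquiv s P).symm.trans (e.trans (upEquiv s P'))) (upEquiv s P y) : S) =
      ((e y : ↥(Subgroup.centralizer ({s} : Set S))) : S) := by
  rw [MulEquiv.trans_apply, MulEquiv.symm_apply_apply, MulEquiv.trans_apply, upEquiv_coe]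

theorem iso_cent_iff {F : FusionSystem S} {s : S}
    {P P' : Subgroup ↥(Subgroup.centralizer ({s} : Set S))} (hs : s ∈ up s P) (hs' : s ∈ up s P')
    (e : P ≃* P') : e ∈ (F.cent s).Iso P P' ↔
      ((upEquiv s P).symm.trans (e.trans (upEquiv s P'))) ∈ F.Iso (up s P) (up s P') ∧
      (((upEquiv s P).symm.trans (e.trans (upEquiv s P'))) ⟨s, hs⟩ : S) = s := by
  constructor
  · rintro ⟨ψ, hψ, h1, h2⟩
    have key : ∀ x : up s P, (((upEquiv s P).symm.trans (e.trans (upEquiv s P'))) x : S) =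
        (ψ.comp (Subgroup.inclusion (up_le_adj s P))) x := by
      intro x
      obtain ⟨y, rfl⟩ := (upEquiv s P).surjective x
      rw [upc_apply]
      have := h2 y
      rw [MonoidHom.comp_apply]
      exact this.symm
    have h3 := F.comp_mem (incl_mem F (up_le_adj s P)) hψ
    refine ⟨(F.factor h3 _ _ key).1, ?_⟩
    rw [key ⟨s, hs⟩]
    exact h1
  · rintro ⟨h1, h2⟩
    have hA : adj s P ≤ up s P := sup_le le_rfl (by
      rw [Subgroup.zpowers_le]; exact hs)
    refine ⟨(Subgroup.inclusion (up_le_adj s P')).comp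
      (((upEquiv s P).symm.trans (e.trans (upEquiv s P'))).toMonoidHom.comp
        (Subgroup.inclusion hA)), ?_, ?_, ?_⟩
    · exact F.comp_mem (F.comp_mem (incl_mem F hA) h1) (incl_mem F _)
    · exact h2
    · intro x
      have h3 : (Subgroup.inclusion hA) ⟨x, mem_adj s P x.2⟩ = upEquiv s P x := rfl
      change (((upEquiv s P).symm.trans (e.trans (upEquiv s P')))
        ((Subgroup.inclusion hA) ⟨x, mem_adj s P x.2⟩) : S) = _
      rw [h3, upc_apply]
      rfl

theorem mem_of_centric {F : FusionSystem S} {s : S}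
    {P : Subgroup ↥(Subgroup.centralizer ({s} : Set S))} (h : (F.cent s).Centric P) :
    s ∈ up s P := by
  have hsC : s ∈ Subgroup.centralizer ({s} : Set S) := by
    rw [Subgroup.mem_centralizer_iff]
    rintro y rfl
    rfl
  have h1 := h P ((F.cent s).conj_refl P)
  refine ⟨⟨s, hsC⟩, h1 ?_, rfl⟩
  rw [Subgroup.mem_centralizer_iff]
  intro x _
  apply Subtype.ext
  have := Subgroup.mem_centralizer_iff.1 x.2 s rfl
  exact this.symm

theorem up_centric [Finite S] {ℓ : ℕ} {F : FusionSystem S} (hF : F.Saturated ℓ) {s : S}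
    (hs : F.FullyCentralized (Subgroup.zpowers s))
    {P : Subgroup ↥(Subgroup.centralizer ({s} : Set S))} (h : (F.cent s).Centric P) :
    F.Centric (up s P) := by
  rintro Q ⟨φ, hφ⟩
  have hsP : s ∈ up s P := mem_of_centric h
  set t : Q := φ ⟨s, hsP⟩ with ht
  have hφt : φ.symm t = ⟨s, hsP⟩ := φ.symm_apply_apply _
  have htQ : Subgroup.zpowers (t : S) ≤ Q := by
    rw [Subgroup.zpowers_le]; exact t.2
  have himg : img φ.symm (Subgroup.zpowers (t : S)) = Subgroup.zpowers s := by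
    ext z
    rw [mem_img]
    constructor
    · rintro ⟨y, ⟨n, hn⟩, rfl⟩
      have h1 : y = t ^ n := Subtype.ext hn.symm
      rw [h1, map_zpow, hφt]
      exact ⟨n, rfl⟩
    · rintro ⟨n, rfl⟩
      refine ⟨t ^ n, ⟨n, rfl⟩, ?_⟩
      rw [map_zpow, hφt]
      rfl
  let e₀ : Subgroup.zpowers (t : S) ≃* Subgroup.zpowers s :=
    (restr φ.symm htQ).trans (MulEquiv.subgroupCongr himg)
  have he₀c : ∀ x : Subgroup.zpowers (t : S), (e₀ x : S) = φ.symm ⟨x, htQ x.2⟩ := fun x => rfl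
  have he₀ : e₀ ∈ F.Iso _ _ := F.iso_restrict (F.iso_symm hφ) htQ e₀ he₀c
  obtain ⟨ψ, hψ, hψe⟩ := hF.ext _ _ e₀ he₀ hs
  have hN : Subgroup.centralizer ({(t : S)} : Set S) ≤ FusionSystem.Nphi e₀ := by
    intro g hg
    have hgt : (t : S) * g = g * t := Subgroup.mem_centralizer_iff.1 hg t rfl
    have hc : ∀ x ∈ Subgroup.zpowers (t : S), g * x * g⁻¹ = x := by
      rintro _ ⟨n, rfl⟩
      have : Commute (t : S) g := hgt
      have h2 : Commute ((t : S) ^ n) g := this.zpow_left n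
      change g * (t : S) ^ n * g⁻¹ = (t : S) ^ n
      rw [← h2.eq]; group
    refine ⟨?_, 1, one_mem _, fun x y hxy => ?_⟩
    · rw [Subgroup.mem_normalizer_iff]
      intro x
      constructor
      · intro hx
        rw [hc x hx]; exact hx
      · intro hx
        have h3 := hc _ hx
        have h6 : g * x * g⁻¹ = x := mul_left_cancel (mul_right_cancel h3)
        rw [h6] at hx; exact hx
    · have h2 : y = x := Subtype.ext (by rw [hxy, hc x x.2])
      rw [h2]; simp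
  have hsC : ∀ y ∈ up s P, s * y = y * s := fun y hy =>
    Subgroup.mem_centralizer_iff.1 (up_le_cent s P hy) s rfl
  have hQt : Q ≤ Subgroup.centralizer ({(t : S)} : Set S) := by
    intro q hq
    rw [Subgroup.mem_centralizer_iff]
    rintro _ rfl
    obtain ⟨y, hy⟩ := φ.surjective ⟨q, hq⟩
    have h1 : (⟨s, hsP⟩ : up s P) * y = y * ⟨s, hsP⟩ := Subtype.ext (hsC y y.2)
    have h2 := congrArg φ h1
    rw [map_mul, map_mul, hy] at h2
    exact congrArg (fun z : Q => (z : S)) h2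
  have hψt : ∀ h1, (ψ ⟨(t : S), h1⟩ : S) = s := by
    intro h1
    have h2 := hψe ⟨t, Subgroup.mem_zpowers _⟩ h1
    rw [h2, he₀c]
    have h3 : (⟨(t : S), htQ (Subgroup.mem_zpowers (t : S))⟩ : Q) = t := rfl
    rw [h3, hφt]
  -- the image of `C_S(t)` is in `C_S(s)`
  have hψc : ∀ g (hg : g ∈ Subgroup.centralizer ({(t : S)} : Set S)),
      (ψ ⟨g, hN hg⟩ : S) ∈ Subgroup.centralizer ({s} : Set S) := by
    intro g hg
    rw [Subgroup.mem_centralizer_iff]
    rintro _ rfl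
    have htt : (t : S) ∈ Subgroup.centralizer ({(t : S)} : Set S) := hQt t.2
    have hgt : (t : S) * g = g * t := Subgroup.mem_centralizer_iff.1 hg t rfl
    have h1 : (⟨(t : S), hN htt⟩ : FusionSystem.Nphi e₀) * ⟨g, hN hg⟩ =
      ⟨g, hN hg⟩ * ⟨(t : S), hN htt⟩ := Subtype.ext hgt
    have h2 := congrArg ψ h1
    rw [map_mul, map_mul] at h2
    have h3 := congrArg (fun z : (⊤ : Subgroup S) => (z : S)) h2
    change (ψ ⟨(t : S), hN htt⟩ : S) * ψ ⟨g, hN hg⟩ = ψ ⟨g, hN hg⟩ * ψ ⟨(t : S), hN htt⟩ at h3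
    rw [hψt] at h3
    exact h3
  let f : Q →* ↥(Subgroup.centralizer ({s} : Set S)) :=
    { toFun := fun q => ⟨ψ ⟨q, hN (hQt q.2)⟩, hψc q (hQt q.2)⟩
      map_one' := Subtype.ext (by
        have : (⟨((1 : Q) : S), hN (hQt (1 : Q).2)⟩ : FusionSystem.Nphi e₀) = 1 := rfl
        simp only [this, map_one]; rfl)
      map_mul' := fun x y => Subtype.ext (by
        have : (⟨((x * y : Q) : S), hN (hQt (x * y).2)⟩ : FusionSystem.Nphi e₀) =
          ⟨x, hN (hQt x.2)⟩ * ⟨y, hN (hQt y.2)⟩ := rfl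
        simp only [this, map_mul]; rfl) }
  have hfc : ∀ q : Q, (f q : S) = ψ ⟨q, hN (hQt q.2)⟩ := fun q => rfl
  have hψi : Function.Injective ψ := F.inj hψ
  have hfi : Function.Injective f := by
    intro x y hxy
    have h1 : (ψ ⟨x, hN (hQt x.2)⟩ : S) = ψ ⟨y, hN (hQt y.2)⟩ := by
      rw [← hfc, ← hfc, hxy]
    have h2 := hψi (Subtype.ext h1)
    exact Subtype.ext (congrArg (fun z : FusionSystem.Nphi e₀ => (z : S)) h2)
  let g₀ : P →* ↥(Subgroup.centralizer ({s} : Set S)) :=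
    f.comp (φ.toMonoidHom.comp (upEquiv s P).toMonoidHom)
  have hg₀c : ∀ p : P, g₀ p = f (φ (upEquiv s P p)) := fun p => rfl
  have hg₀i : Function.Injective g₀ :=
    hfi.comp (φ.injective.comp (upEquiv s P).injective)
  let ε : P ≃* g₀.range := MonoidHom.ofInjective hg₀i
  have hεc : ∀ p : P, (ε p : ↥(Subgroup.centralizer ({s} : Set S))) = g₀ p := fun p => rfl
  have hs' : s ∈ up s g₀.range := by
    obtain ⟨p, hp⟩ := (upEquiv s P).surjective ⟨s, hsP⟩
    refine ⟨g₀ p, ⟨p, rfl⟩, ?_⟩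
    change (g₀ p : S) = s
    rw [hg₀c, hp, hfc]
    exact hψt _
  have hε : ε ∈ (F.cent s).Iso P g₀.range := by
    have hkey : ∀ x : up s P, (((upEquiv s P).symm.trans (ε.trans (upEquiv s g₀.range))) x : S) =
        (ψ.comp ((Subgroup.inclusion (hQt.trans hN)).comp φ.toMonoidHom)) x := by
      intro x
      obtain ⟨y, rfl⟩ := (upEquiv s P).surjective x
      rw [upc_apply, hεc, hg₀c, hfc]
      rfl
    rw [iso_cent_iff hsP hs']
    refine ⟨(F.factor (F.comp_mem (F.comp_mem hφ (incl_mem F (hQt.trans hN))) hψ) _ _ hkey).1, ?_⟩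
    rw [hkey ⟨s, hsP⟩]
    exact hψt _
  have hcen := h g₀.range ⟨ε, hε⟩
  intro g hg
  have hgt : g ∈ Subgroup.centralizer ({(t : S)} : Set S) := by
    rw [Subgroup.mem_centralizer_iff]
    rintro _ rfl
    exact Subgroup.mem_centralizer_iff.1 hg t t.2
  have hmem : (⟨ψ ⟨g, hN hgt⟩, hψc g hgt⟩ : ↥(Subgroup.centralizer ({s} : Set S))) ∈ g₀.range := by
    apply hcen
    rw [Subgroup.mem_centralizer_iff]
    rintro _ ⟨p, rfl⟩
    apply Subtype.ext
    change (g₀ p : S) * ψ ⟨g, hN hgt⟩ = ψ ⟨g, hN hgt⟩ * g₀ p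
    rw [hg₀c, hfc]
    set q : Q := φ (upEquiv s P p)
    have h1 : (⟨q, hN (hQt q.2)⟩ : FusionSystem.Nphi e₀) * ⟨g, hN hgt⟩ =
        ⟨g, hN hgt⟩ * ⟨q, hN (hQt q.2)⟩ :=
      Subtype.ext (Subgroup.mem_centralizer_iff.1 hg q q.2)
    have h2 := congrArg ψ h1
    rw [map_mul, map_mul] at h2
    exact congrArg (fun z : (⊤ : Subgroup S) => (z : S)) h2
  obtain ⟨p, hp⟩ := hmem
  have h1 : (ψ ⟨φ (upEquiv s P p), hN (hQt (φ (upEquiv s P p)).2)⟩ : S) = ψ ⟨g, hN hgt⟩ := by
    rw [← hfc, ← hg₀c, hp]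
  have h2 := hψi (Subtype.ext h1)
  have h3 : ((φ (upEquiv s P p) : Q) : S) = g :=
    congrArg (fun z : FusionSystem.Nphi e₀ => (z : S)) h2
  rw [← h3]
  exact (φ (upEquiv s P p)).2

theorem centric_of_up {F : FusionSystem S} {s : S}
    {P : Subgroup ↥(Subgroup.centralizer ({s} : Set S))} (h : F.Centric (up s P))
    (hs : s ∈ up s P) : (F.cent s).Centric P := by
  rintro Q' ⟨e, he⟩
  have hs' : s ∈ up s Q' := by
    obtain ⟨ψ, hψ, h1, h2⟩ := he
    obtain ⟨x, hx, hxs⟩ := hs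
    have h3 := h2 ⟨x, hx⟩
    have h4 : (⟨((⟨x, hx⟩ : P) : ↥(Subgroup.centralizer ({s} : Set S))), mem_adj s P hx⟩ : adj s P) =
        ⟨s, self_mem_adj s P⟩ := Subtype.ext hxs
    have h5 : (ψ ⟨((⟨x, hx⟩ : P) : ↥(Subgroup.centralizer ({s} : Set S))), mem_adj s P hx⟩ : S) = s := by
      rw [h4]; exact h1
    refine ⟨(e ⟨x, hx⟩ : ↥(Subgroup.centralizer ({s} : Set S))), (e ⟨x, hx⟩).2, ?_⟩
    exact h3.symm.trans h5
  have h1 := ((iso_cent_iff hs hs' e).1 he).1
  have h2 := h _ ⟨_, h1⟩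
  intro c hc
  rw [← mem_up_iff (s := s)]
  apply h2
  rw [Subgroup.mem_centralizer_iff]
  rintro _ ⟨y, hy, rfl⟩
  have := Subgroup.mem_centralizer_iff.1 hc y hy
  exact congrArg (fun z : ↥(Subgroup.centralizer ({s} : Set S)) => (z : S)) this

end Pool.FS95
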