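import Pool.Agent.LibFS95.F1

/-!
Row F2: `Aut_X(Q)` for a subgroup `Q` with `C_S(Q) ≤ Q`: the lattice of subgroups `Q ≤ X ≤ N_S(Q)`.

Proof. `X → Aut_X(Q)`, `g ↦ c_g|_Q`, has kernel `C_S(Q) ∩ X ≤ Q`. So if `c_g = c_h` on `Q` then `h⁻¹ g ∈ C_S(Q) ≤ Q`; everything follows. `exists_AutR_eq`: `X = {g ∈ N_S(Q) | c_g|_Q ∈ B}`.
-/

set_option autoImplicit false
noncomputable section
open MulAction
namespace Pool.FS95

variable {S : Type} [Group S]

private theorem F2_conj {Q : Subgroup S} {g : S} (hg : g ∈ Subgroup.normalizer (Q : Set S)) :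
    ∃ α : MulAut Q, ∀ x : Q, (α x : S) = g * x * g⁻¹ :=
  ⟨Subgroup.normalizerMonoidHom Q ⟨g, hg⟩, fun _ => rfl⟩

private theorem F2_norm {Q : Subgroup S} {g : S} (α : MulAut Q)
    (h : ∀ x : Q, (α x : S) = g * x * g⁻¹) : g ∈ Subgroup.normalizer (Q : Set S) := by
  rw [Subgroup.mem_normalizer_iff]
  intro x
  constructor
  · intro hx
    rw [← h ⟨x, hx⟩]
    exact (α ⟨x, hx⟩).2
  · intro hx
    have h1 := h (α.symm ⟨g * x * g⁻¹, hx⟩)
    rw [MulEquiv.apply_symm_apply] at h1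
    have h2 : x = (α.symm ⟨g * x * g⁻¹, hx⟩ : Q) := by
      have : g * x * g⁻¹ = g * (α.symm ⟨g * x * g⁻¹, hx⟩ : Q) * g⁻¹ := h1
      exact mul_left_cancel (mul_right_cancel this)
    rw [h2]
    exact (α.symm ⟨g * x * g⁻¹, hx⟩).2

private theorem F2_cent {Q : Subgroup S} {g h : S} (hc : Subgroup.centralizer (Q : Set S) ≤ Q)
    (hgh : ∀ x : Q, g * x * g⁻¹ = h * x * h⁻¹) : h⁻¹ * g ∈ Q := by
  apply hc
  rw [Subgroup.mem_centralizer_iff]
  intro u hu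
  have h1 := hgh ⟨u, hu⟩
  have h2 : g * u * g⁻¹ = h * u * h⁻¹ := h1
  have h3 : u * (h⁻¹ * g) = h⁻¹ * (h * u * h⁻¹) * g := by group
  rw [h3, ← h2]
  group

theorem AutR_self (Q : Subgroup S) : AutR Q Q = FusionSystem.inn Q := by
  ext α
  rw [mem_AutR]
  constructor
  · rintro ⟨g, hg, h⟩
    refine ⟨⟨g, hg⟩, ?_⟩
    ext x
    rw [h]; rfl
  · rintro ⟨g, rfl⟩
    exact ⟨g, g.2, fun x => rfl⟩

theorem inn_le_AutR {Q X : Subgroup S} (h : Q ≤ X) : FusionSystem.inn Q ≤ AutR Q X := by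
  rw [← AutR_self]
  rintro α ⟨g, hg, hα⟩
  exact ⟨g, h hg, hα⟩

theorem AutR_le_AutF (F : FusionSystem S) (Q X : Subgroup S) : AutR Q X ≤ F.AutF Q := by
  rintro α ⟨g, -, hα⟩
  exact F.iso_conj g α hα

theorem AutR_le_iff {Q X Y : Subgroup S} (hc : Subgroup.centralizer (Q : Set S) ≤ Q) (hQY : Q ≤ Y)
    (hX : X ≤ Subgroup.normalizer (Q : Set S)) : AutR Q X ≤ AutR Q Y ↔ X ≤ Y := by
  constructor
  · intro h x hx
    obtain ⟨α, hα⟩ := F2_conj (hX hx)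
    obtain ⟨y, hy, hαy⟩ := h ⟨x, hx, hα⟩
    have h1 : y⁻¹ * x ∈ Q := F2_cent hc (fun z => by rw [← hα, ← hαy])
    have h2 := Y.mul_mem hy (hQY h1)
    rwa [mul_inv_cancel_left] at h2
  · rintro h α ⟨g, hg, hα⟩
    exact ⟨g, h hg, hα⟩

theorem AutR_injOn {Q X Y : Subgroup S} (hc : Subgroup.centralizer (Q : Set S) ≤ Q) (hQX : Q ≤ X)
    (hQY : Q ≤ Y) (hX : X ≤ Subgroup.normalizer (Q : Set S))
    (hY : Y ≤ Subgroup.normalizer (Q : Set S)) (h : AutR Q X = AutR Q Y) : X = Y :=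
  le_antisymm ((AutR_le_iff hc hQY hX).1 h.le) ((AutR_le_iff hc hQX hY).1 h.ge)

theorem exists_AutR_eq {Q : Subgroup S} (B : Subgroup (MulAut Q)) (h1 : FusionSystem.inn Q ≤ B)
    (h2 : B ≤ FusionSystem.AutS Q) :
    ∃ X, Q ≤ X ∧ X ≤ Subgroup.normalizer (Q : Set S) ∧ AutR Q X = B := by
  refine ⟨(B.comap (Subgroup.normalizerMonoidHom Q)).map (Subgroup.subtype _), ?_, ?_, ?_⟩
  · intro q hq
    refine ⟨⟨q, Subgroup.le_normalizer hq⟩, ?_, rfl⟩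
    apply h1
    refine ⟨⟨q, hq⟩, ?_⟩
    ext x
    rfl
  · rintro _ ⟨g, -, rfl⟩
    exact g.2
  · ext α
    rw [mem_AutR]
    constructor
    · rintro ⟨_, ⟨g, hg, rfl⟩, h⟩
      have : α = Subgroup.normalizerMonoidHom Q g := by
        ext x
        rw [h]; rfl
      rw [this]
      exact hg
    · intro hα
      obtain ⟨g, hg⟩ := h2 hα
      have hgN := F2_norm α hg
      refine ⟨g, ⟨⟨g, hgN⟩, ?_, rfl⟩, hg⟩
      have : Subgroup.normalizerMonoidHom Q ⟨g, hgN⟩ = α := by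
        ext x
        rw [hg]; rfl
      change Subgroup.normalizerMonoidHom Q ⟨g, hgN⟩ ∈ B
      rw [this]; exact hα

theorem AutR_le_normalizer {Q X Y : Subgroup S} (hY : Y ≤ Subgroup.normalizer (X : Set S))
    (hY' : Y ≤ Subgroup.normalizer (Q : Set S)) :
    AutR Q Y ≤ Subgroup.normalizer (AutR Q X : Set (MulAut Q)) := by
  have key : ∀ α ∈ AutR Q Y, ∀ β ∈ AutR Q X, α * β * α⁻¹ ∈ AutR Q X := by
    rintro α ⟨y, hy, hα⟩ β ⟨x, hx, hβ⟩
    refine ⟨y * x * y⁻¹, (Subgroup.mem_normalizer_iff.1 (hY hy) x).1 hx, fun z => ?_⟩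
    have h3 : (α⁻¹ z : S) = y⁻¹ * z * y := by
      have h4 := hα (α⁻¹ z)
      rw [MulAut.apply_inv_self] at h4
      rw [h4]; group
    rw [MulAut.mul_apply, MulAut.mul_apply, hα, hβ, h3]
    group
  intro α hα
  rw [Subgroup.mem_normalizer_iff]
  intro β
  constructor
  · exact key α hα β
  · intro h
    have h1 := key α⁻¹ (inv_mem hα) _ h
    have h2 : α⁻¹ * (α * β * α⁻¹) * α⁻¹⁻¹ = β := by group
    rwa [h2] at h1

theorem le_normalizer_of_AutR {Q X Y : Subgroup S} (hc : Subgroup.centralizer (Q : Set S) ≤ Q)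
    (hQX : Q ≤ X) (hX : X ≤ Subgroup.normalizer (Q : Set S))
    (hY : Y ≤ Subgroup.normalizer (Q : Set S))
    (h : AutR Q Y ≤ Subgroup.normalizer (AutR Q X : Set (MulAut Q))) :
    Y ≤ Subgroup.normalizer (X : Set S) := by
  have key : ∀ y ∈ Y, ∀ x ∈ X, y * x * y⁻¹ ∈ X := by
    intro y hy x hx
    obtain ⟨α, hα⟩ := F2_conj (hY hy)
    obtain ⟨β, hβ⟩ := F2_conj (hX hx)
    obtain ⟨x', hx', hx'β⟩ :=
      (Subgroup.mem_normalizer_iff.1 (h ⟨y, hy, hα⟩) β).1 ⟨x, hx, hβ⟩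
    have h3 : ∀ z : Q, (α⁻¹ z : S) = y⁻¹ * z * y := by
      intro z
      have h4 := hα (α⁻¹ z)
      rw [MulAut.apply_inv_self] at h4
      rw [h4]; group
    have h1 : x'⁻¹ * (y * x * y⁻¹) ∈ Q := by
      apply F2_cent hc
      intro z
      rw [← hx'β z, MulAut.mul_apply, MulAut.mul_apply, hα, hβ, h3]
      group
    have h2 := X.mul_mem hx' (hQX h1)
    rwa [mul_inv_cancel_left] at h2
  intro y hy
  rw [Subgroup.mem_normalizer_iff]
  intro x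
  constructor
  · exact key y hy x
  · intro hx
    have h1 := key y⁻¹ (inv_mem hy) _ hx
    have h2 : y⁻¹ * (y * x * y⁻¹) * y⁻¹⁻¹ = x := by group
    rwa [h2] at h1

theorem AutR_isPGroup {ℓ : ℕ} (hS : IsPGroup ℓ S) {Q X : Subgroup S}
    (hX : X ≤ Subgroup.normalizer (Q : Set S)) : IsPGroup ℓ (AutR Q X) := by
  rintro ⟨a, g, hgX, hg⟩
  obtain ⟨k, hk⟩ := hS g
  refine ⟨k, ?_⟩
  apply Subtype.ext
  have h : ∀ (n : ℕ) (x : Q), ((a ^ n) x : S) = g ^ n * x * (g ^ n)⁻¹ := by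
    intro n
    induction n with
    | zero => intro x; simp
    | succ n ih =>
      intro x
      rw [pow_succ, MulAut.mul_apply, ih, hg, pow_succ]
      group
  rw [Subgroup.coe_pow]
  ext x
  rw [h, hk]
  simp

end Pool.FS95
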