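import Pool.Agent.LibFS95.F19

/-!
Row F20: `Out_{C_F(s)}(P)` and the representatives of the classes of elements.

Plan. `cent_out`: `MulAut.congr (upEquiv s P)` maps `(F.cent s).AutF P` onto `TZ F ⟨s,hs⟩` (`iso_cent_iff`) and `inn` to `inn` (inner automorphisms of `up s P` fix the central element `s`, so they are in `TZ`). `fcRep_spec`: every class contains an element `s` with `⟨s⟩` fully centralised: among the elements `t` of the class choose one with
`|C_S(t)|` maximal; an `F`-conjugate `Q` of `⟨t⟩` is `⟨e t⟩`, `e t` is in the class (`C_S(⟨t⟩) = C_S(t)`). `exists_conj_up`: for `a : ZT F` and `s` in the class of `a.x` with `⟨s⟩` fully centralised: `⟨a.x⟩ ≃ ⟨s⟩` extends to `ψ : C_S(a.x) → S` (saturation; `C_S(a.x) ≤ Nphi`), `a.P ≤ C_S(a.x)` because `a.x` is central in `a.P`; the restriction to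
`a.P` is an isomorphism onto a subgroup of `C_S(s)` and maps `a.x` to `s`.
-/

set_option autoImplicit false
noncomputable section
open MulAction
namespace Pool.FS95

variable {S : Type} [Group S]

theorem f20_map {F : FusionSystem S} {s : S}
    {P : Subgroup ↥(Subgroup.centralizer ({s} : Set S))} (hs : s ∈ up s P) :
    ((F.cent s).AutF P).map (MulAut.congr (upEquiv s P)).toMonoidHom =
      TZ F (⟨s, hs⟩ : up s P) := by
  have key : ∀ α : MulAut P, MulAut.congr (upEquiv s P) α =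
      (upEquiv s P).symm.trans ((α : P ≃* P).trans (upEquiv s P)) := fun α => by
    apply MulEquiv.ext
    intro x
    rfl
  ext β
  constructor
  · rintro ⟨α, hα, rfl⟩
    have h1 := (iso_cent_iff hs hs α).1 hα
    rw [← key] at h1
    exact ⟨h1.1, Subtype.ext h1.2⟩
  · rintro ⟨h1, h2⟩
    obtain ⟨α, rfl⟩ := (MulAut.congr (upEquiv s P)).surjective β
    refine ⟨α, (iso_cent_iff hs hs α).2 ?_, rfl⟩
    rw [← key]
    exact ⟨h1, congrArg (fun z : up s P => (z : S)) h2⟩

theorem f20_inn {s : S} {P : Subgroup ↥(Subgroup.centralizer ({s} : Set S))} {α : MulAut P} :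
    MulAut.congr (upEquiv s P) α ∈ FusionSystem.inn (up s P) ↔ α ∈ FusionSystem.inn P := by
  have key : ∀ p : P, MulAut.congr (upEquiv s P) (MulAut.conj p) =
      MulAut.conj (upEquiv s P p) := by
    intro p
    apply MulEquiv.ext
    intro x
    change (upEquiv s P) (p * (upEquiv s P).symm x * p⁻¹) = _
    rw [map_mul, map_mul, map_inv, MulEquiv.apply_symm_apply]
    rfl
  constructor
  · rintro ⟨q, hq⟩
    obtain ⟨p, rfl⟩ := (upEquiv s P).surjective q
    refine ⟨p, (MulAut.congr (upEquiv s P)).injective ?_⟩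
    rw [key]; exact hq
  · rintro ⟨p, rfl⟩
    exact ⟨upEquiv s P p, (key p).symm⟩

theorem cent_out {F : FusionSystem S} {ζ : ∀ (K : Type) [Group K], ℤ} (hζ : IsoInv ζ) {s : S}
    {P : Subgroup ↥(Subgroup.centralizer ({s} : Set S))} (hs : s ∈ up s P) :
    ζ ((F.cent s).OutF P) = ζ (FusionSystem.outq (TZ F (⟨s, hs⟩ : up s P))) := by
  apply hζ
  let E : ↥((F.cent s).AutF P) ≃* ↥(TZ F (⟨s, hs⟩ : up s P)) :=
    ((MulAut.congr (upEquiv s P)).subgroupMap ((F.cent s).AutF P)).trans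
      (MulEquiv.subgroupCongr (f20_map hs))
  have hE : ∀ α : ↥((F.cent s).AutF P), ((E α : ↥(TZ F (⟨s, hs⟩ : up s P))) : MulAut (up s P)) =
      MulAut.congr (upEquiv s P) α := fun α => rfl
  refine ⟨QuotientGroup.congr _ _ E ?_⟩
  ext β
  rw [Subgroup.mem_subgroupOf]
  constructor
  · rintro ⟨α, hα, rfl⟩
    have h1 : (α : MulAut P) ∈ FusionSystem.inn P := Subgroup.mem_subgroupOf.1 hα
    change ((E α : ↥(TZ F (⟨s, hs⟩ : up s P))) : MulAut (up s P)) ∈ _
    rw [hE, f20_inn]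
    exact h1
  · intro hβ
    obtain ⟨α, rfl⟩ := E.surjective β
    refine ⟨α, Subgroup.mem_subgroupOf.2 ?_, rfl⟩
    rw [hE, f20_inn] at hβ
    exact hβ

theorem f20_cent_zpowers (t : S) :
    Subgroup.centralizer ((Subgroup.zpowers t : Subgroup S) : Set S) =
      Subgroup.centralizer ({t} : Set S) := by
  rw [Subgroup.zpowers_eq_closure, Subgroup.centralizer_closure]

theorem fcRep_spec [Finite S] (F : FusionSystem S) (c : Quotient F.elSetoid) :
    Quotient.mk F.elSetoid (F.fcRep c) = c ∧ F.FullyCentralized (Subgroup.zpowers (F.fcRep c)) := by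
  apply Classical.epsilon_spec (p := fun s => Quotient.mk F.elSetoid s = c ∧
    F.FullyCentralized (Subgroup.zpowers s))
  obtain ⟨t₀, rfl⟩ := Quotient.exists_rep c
  obtain ⟨t, ht, hmax⟩ := Set.exists_max_image {t : S | F.elSetoid t t₀}
    (fun t => Nat.card (Subgroup.centralizer ({t} : Set S))) (Set.toFinite _)
    ⟨t₀, F.elSetoid.refl t₀⟩
  refine ⟨t, Quotient.sound ht, ?_⟩
  rintro Q ⟨e, he⟩
  obtain ⟨t', ht'⟩ : ∃ t' : S, t' = (e ⟨t, Subgroup.mem_zpowers t⟩ : S) := ⟨_, rfl⟩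
  have hQ : Q = Subgroup.zpowers t' := by
    ext z
    constructor
    · intro hz
      obtain ⟨⟨y, n, hn⟩, hy⟩ := e.surjective ⟨z, hz⟩
      refine ⟨n, ?_⟩
      have h1 : (⟨y, n, hn⟩ : Subgroup.zpowers t) = ⟨t, Subgroup.mem_zpowers t⟩ ^ n :=
        Subtype.ext hn.symm
      rw [h1, map_zpow] at hy
      have h2 := congrArg (fun w : Q => (w : S)) hy
      change t' ^ n = z
      rw [ht']
      exact h2
    · rintro ⟨n, rfl⟩
      change t' ^ n ∈ Q
      rw [ht']
      exact Subgroup.zpow_mem _ (e ⟨t, Subgroup.mem_zpowers t⟩).2 n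
  subst hQ
  rw [f20_cent_zpowers, f20_cent_zpowers]
  apply hmax
  have h1 : F.elSetoid t t' := ⟨e, he, ht'.symm⟩
  exact F.elSetoid.trans (F.elSetoid.symm h1) ht

theorem f20_cent_le {t : S} {Q : Subgroup S} (e : Subgroup.zpowers t ≃* Q) :
    Subgroup.centralizer ({t} : Set S) ≤ FusionSystem.Nphi e := by
  intro g hg
  have hgt : t * g = g * t := Subgroup.mem_centralizer_iff.1 hg t rfl
  have hc : ∀ x ∈ Subgroup.zpowers t, g * x * g⁻¹ = x := by
    rintro _ ⟨n, rfl⟩
    have : Commute t g := hgt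
    have h2 : Commute (t ^ n) g := this.zpow_left n
    change g * t ^ n * g⁻¹ = t ^ n
    rw [← h2.eq]; group
  refine ⟨?_, 1, one_mem _, fun x y hxy => ?_⟩
  · rw [Subgroup.mem_normalizer_iff]
    intro x
    constructor
    · intro hx
      rw [hc x hx]; exact hx
    · intro hx
      have h3 := hc _ hx
      have h6 : g * x * g⁻¹ = x := mul_left_cancel (mul_right_cancel h3)
      rw [h6] at hx; exact hx
  · have h2 : y = x := Subtype.ext (by rw [hxy, hc x x.2])
    rw [h2]; simp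

theorem exists_conj_up [Finite S] {ℓ : ℕ} {F : FusionSystem S} (hF : F.Saturated ℓ) {s : S}
    (hs : F.FullyCentralized (Subgroup.zpowers s)) (a : ZT F) (ha : F.elSetoid (a.x : S) s) :
    ∃ (P : Subgroup ↥(Subgroup.centralizer ({s} : Set S))) (hsP : s ∈ up s P),
      ∃ e ∈ F.Iso a.P (up s P), e a.x = ⟨s, hsP⟩ := by
  obtain ⟨e, he, hes⟩ := ha
  obtain ⟨ψ, hψ, hψe⟩ := hF.ext _ _ e he hs
  have hN := f20_cent_le e
  have hPc : a.P ≤ Subgroup.centralizer ({(a.x : S)} : Set S) := by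
    intro y hy
    rw [Subgroup.mem_centralizer_iff]
    rintro _ rfl
    exact (congrArg (fun z : a.P => (z : S)) (a.central ⟨y, hy⟩)).symm
  have hxc : (a.x : S) ∈ Subgroup.centralizer ({(a.x : S)} : Set S) := hPc a.x.2
  have hψx : (ψ ⟨(a.x : S), hN hxc⟩ : S) = s := by
    have h1 := hψe ⟨(a.x : S), Subgroup.mem_zpowers _⟩ (hN hxc)
    rw [h1, hes]
  have hψc : ∀ g (hg : g ∈ Subgroup.centralizer ({(a.x : S)} : Set S)),
      (ψ ⟨g, hN hg⟩ : S) ∈ Subgroup.centralizer ({s} : Set S) := by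
    intro g hg
    rw [Subgroup.mem_centralizer_iff]
    rintro _ rfl
    have hgt : (a.x : S) * g = g * a.x := Subgroup.mem_centralizer_iff.1 hg a.x rfl
    have h1 : (⟨(a.x : S), hN hxc⟩ : FusionSystem.Nphi e) * ⟨g, hN hg⟩ =
      ⟨g, hN hg⟩ * ⟨(a.x : S), hN hxc⟩ := Subtype.ext hgt
    have h2 := congrArg ψ h1
    rw [map_mul, map_mul] at h2
    have h3 := congrArg (fun z : (⊤ : Subgroup S) => (z : S)) h2
    change (ψ ⟨(a.x : S), hN hxc⟩ : S) * ψ ⟨g, hN hg⟩ = ψ ⟨g, hN hg⟩ * ψ ⟨(a.x : S), hN hxc⟩ at h3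
    rw [hψx] at h3
    exact h3
  let g : a.P →* ↥(Subgroup.centralizer ({s} : Set S)) :=
    { toFun := fun q => ⟨ψ ⟨q, hN (hPc q.2)⟩, hψc q (hPc q.2)⟩
      map_one' := Subtype.ext (by
        have : (⟨((1 : a.P) : S), hN (hPc (1 : a.P).2)⟩ : FusionSystem.Nphi e) = 1 := rfl
        simp only [this, map_one]; rfl)
      map_mul' := fun x y => Subtype.ext (by
        have : (⟨((x * y : a.P) : S), hN (hPc (x * y).2)⟩ : FusionSystem.Nphi e) =
          ⟨x, hN (hPc x.2)⟩ * ⟨y, hN (hPc y.2)⟩ := rfl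
        simp only [this, map_mul]; rfl) }
  have hgc : ∀ q : a.P, (g q : S) = ψ ⟨q, hN (hPc q.2)⟩ := fun q => rfl
  have hgi : Function.Injective g := by
    intro x y hxy
    have h1 : (ψ ⟨x, hN (hPc x.2)⟩ : S) = ψ ⟨y, hN (hPc y.2)⟩ := by
      rw [← hgc, ← hgc, hxy]
    have h2 := F.inj hψ (Subtype.ext h1)
    exact Subtype.ext (congrArg (fun z : FusionSystem.Nphi e => (z : S)) h2)
  let E : a.P ≃* up s g.range := (MonoidHom.ofInjective hgi).trans (upEquiv s g.range)
  have hE : ∀ y : a.P, (E y : S) = g y := fun y => rfl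
  have hEx : (E a.x : S) = s := by
    rw [hE, hgc]; exact hψx
  have hsP : s ∈ up s g.range := by
    have h1 := (E a.x).2
    rwa [hEx] at h1
  refine ⟨g.range, hsP, E, ?_, Subtype.ext hEx⟩
  exact (F.factor (F.comp_mem (incl_mem F (hPc.trans hN)) hψ) _ E (fun x => rfl)).1

end Pool.FS95
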