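import Pool.Agent.LibFS95.F20
import Pool.Agent.LibFS95.G1
import Pool.Agent.LibFS95.G3

/-!
Row F21: `k_ζ(F) = ∑_{(P,x)} ζ(Out_F(P)_x)`.

Plan. (1) For `s` with `⟨s⟩` fully centralised: `(F.cent s).wζ ℓ ζ = clsum` over `{a : ZT F // F.elSetoid a.x s}`: the non-radical centric subgroups contribute 0 to `wζ` (`h0`, `clsum_restrict`-like: compare `{P // Centric ∧ Radical}` and `{P // Centric}` by `clsum_transfer`), then `clsum_transfer` with
`Φ : {P // (F.cent s).Centric P} → {a : ZT F // ..}`, `P ↦ (up s P, s)` (F19 `up_centric`, `mem_of_centric`); relations: `iso_cent_iff`; surjectivity: F20 `exists_conj_up` and `centric_of_up`; values: `cent_out`.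
(2) G3 `clsum_fiber` for `ztSetoid F`, `rB = F.elSetoid`, `π a = a.x` (`e a.x = b.x` restricts to `⟨a.x⟩ ≃ ⟨b.x⟩`), with `b = c`, `s = F.fcRep c`, `⟦a.x⟧ = c ↔ F.elSetoid a.x s` (F20 `fcRep_spec`).
-/

set_option autoImplicit false
noncomputable section
open MulAction
namespace Pool.FS95

variable {S : Type} [Group S]

private theorem f21_img {F : FusionSystem S} {P Q : Subgroup S} (e : P ≃* Q) (x : P) (y : Q)
    (h : e x = y) : img e (Subgroup.zpowers (x : S)) = Subgroup.zpowers (y : S) := by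
  ext z
  rw [mem_img, Subgroup.mem_zpowers_iff]
  constructor
  · rintro ⟨w, hw, rfl⟩
    obtain ⟨n, hn⟩ := Subgroup.mem_zpowers_iff.1 hw
    have h1 : w = x ^ n := Subtype.ext (by rw [← hn]; rfl)
    refine ⟨n, ?_⟩
    rw [h1, map_zpow, h]
    rfl
  · rintro ⟨n, rfl⟩
    refine ⟨x ^ n, Subgroup.mem_zpowers_iff.2 ⟨n, rfl⟩, ?_⟩
    rw [map_zpow, h]
    rfl

private theorem f21_el {F : FusionSystem S} (a b : ZT F) (h : ztSetoid F a b) :
    F.elSetoid (a.x : S) (b.x : S) := by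
  obtain ⟨e, he, hx⟩ := h
  have hX : Subgroup.zpowers (a.x : S) ≤ a.P := by
    rw [Subgroup.zpowers_le]
    exact a.x.2
  have h1 := f21_img (F := F) e a.x b.x hx
  change ∃ e ∈ F.Iso (Subgroup.zpowers (a.x : S)) (Subgroup.zpowers (b.x : S)),
    (e ⟨(a.x : S), Subgroup.mem_zpowers (a.x : S)⟩ : S) = b.x
  rw [← h1]
  refine ⟨restr e hX, restr_mem he hX, ?_⟩
  rw [restr_coe, ← hx]

private theorem f21_central (s : S) (P : Subgroup ↥(Subgroup.centralizer ({s} : Set S)))
    (hs : s ∈ up s P) (y : up s P) : y * ⟨s, hs⟩ = ⟨s, hs⟩ * y := by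
  obtain ⟨z, hz, hzy⟩ := y.2
  apply Subtype.ext
  change (y : S) * s = s * y
  rw [← hzy]
  exact (Subgroup.mem_centralizer_iff.1 z.2 s rfl).symm

private theorem f21_finite [Finite S] {F : FusionSystem S} (P : Subgroup S) :
    Finite (F.OutF P) := by
  have : Finite (MulAut P) :=
    Finite.of_injective (fun e : MulAut P => (e : P → P)) DFunLike.coe_injective
  infer_instance

private theorem f21_centric {F : FusionSystem S} {P Q : Subgroup S} (h : F.Centric P)
    (hPQ : F.Conj P Q) : F.Centric Q := fun R hR => h R (F.conj_trans hPQ hR)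

/-- the pair `(up s P, s)` -/
private def f21_zt [Finite S] {ℓ : ℕ} {F : FusionSystem S} (hF : F.Saturated ℓ) {s : S}
    (hs : F.FullyCentralized (Subgroup.zpowers s))
    (P : Subgroup ↥(Subgroup.centralizer ({s} : Set S))) (hP : (F.cent s).Centric P) : ZT F where
  P := up s P
  x := ⟨s, mem_of_centric hP⟩
  centric := up_centric hF hs hP
  central := f21_central s P _

private theorem f21_term [Finite S] {ℓ : ℕ} {F : FusionSystem S} (hF : F.Saturated ℓ)
    {ζ : ∀ (K : Type) [Group K], ℤ} (hζ : IsoInv ζ)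
    (h0 : ∀ (K : Type) [Group K] [Finite K], ¬ OTriv ℓ K → ζ K = 0) {s : S}
    (hs : F.FullyCentralized (Subgroup.zpowers s)) :
    (F.cent s).wζ ℓ ζ = clsum ((ztSetoid F).comap
      (Subtype.val : {x : ZT F // Quotient.mk F.elSetoid (x.x : S) = Quotient.mk F.elSetoid s} →
        ZT F)) (fun x => ZT.val ζ x.1) := by
  have hval : ∀ (P : Subgroup ↥(Subgroup.centralizer ({s} : Set S)))
      (hP : (F.cent s).Centric P), ζ ((F.cent s).OutF P) = ZT.val ζ (f21_zt hF hs P hP) :=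
    fun P hP => cent_out hζ (mem_of_centric hP)
  have hrel : ∀ (P P' : Subgroup ↥(Subgroup.centralizer ({s} : Set S)))
      (hP : (F.cent s).Centric P) (hP' : (F.cent s).Centric P'), (F.cent s).Conj P P' ↔
        ztSetoid F (f21_zt hF hs P hP) (f21_zt hF hs P' hP') := by
    intro P P' hP hP'
    constructor
    · rintro ⟨e, he⟩
      obtain ⟨h1, h2⟩ := (iso_cent_iff (mem_of_centric hP) (mem_of_centric hP') e).1 he
      exact ⟨_, h1, Subtype.ext h2⟩
    · rintro ⟨f, hf, hx⟩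
      let g : up s P ≃* up s P' := f
      let e : P ≃* P' := (upEquiv s P).trans (g.trans (upEquiv s P').symm)
      have he : (upEquiv s P).symm.trans (e.trans (upEquiv s P')) = g := by
        ext x
        simp [e]
      refine ⟨e, (iso_cent_iff (mem_of_centric hP) (mem_of_centric hP') e).2 ?_⟩
      rw [he]
      exact ⟨hf, congrArg Subtype.val hx⟩
  have hg : ∀ y y' : {x : ZT F // Quotient.mk F.elSetoid (x.x : S) = Quotient.mk F.elSetoid s},
      ((ztSetoid F).comap Subtype.val) y y' → ZT.val ζ y.1 = ZT.val ζ y'.1 :=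
    fun y y' h => ZT.val_congr hζ _ _ h
  unfold FusionSystem.wζ
  refine clsum_transfer _ _ _ _ ?_ hg
    (fun P => ⟨f21_zt hF hs P.1 P.2.1, rfl⟩) ?_ ?_ ?_
  · intro P P' h
    change ζ ((F.cent s).OutF P.1) = ζ ((F.cent s).OutF P'.1)
    rw [hval P.1 P.2.1, hval P'.1 P'.2.1]
    exact ZT.val_congr hζ _ _ ((hrel _ _ P.2.1 P'.2.1).1 h)
  · intro P P'
    exact hrel _ _ P.2.1 P'.2.1
  · rintro ⟨a, ha⟩ hne
    have hne : ZT.val ζ a ≠ 0 := hne
    obtain ⟨P, hsP, e, he, hx⟩ := exists_conj_up hF hs a (Quotient.exact ha)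
    have hup : F.Centric (up s P) := f21_centric a.centric ⟨e, he⟩
    have hP : (F.cent s).Centric P := centric_of_up hup hsP
    have hrel' : ztSetoid F (f21_zt hF hs P hP) a := (ztSetoid F).symm ⟨e, he, hx⟩
    refine ⟨⟨P, hP, ?_⟩, hrel'⟩
    by_contra hrad
    apply hne
    have := f21_finite (F := F.cent s) P
    rw [← ZT.val_congr hζ _ _ hrel', ← hval P hP]
    exact h0 _ hrad
  · intro P
    exact hval P.1 P.2.1

theorem kζ_eq [Finite S] {ℓ : ℕ} {F : FusionSystem S} (hF : F.Saturated ℓ)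
    {ζ : ∀ (K : Type) [Group K], ℤ} (hζ : IsoInv ζ)
    (h0 : ∀ (K : Type) [Group K] [Finite K], ¬ OTriv ℓ K → ζ K = 0) :
    F.kζ ℓ ζ = clsum (ztSetoid F) (ZT.val ζ) := by
  rw [clsum_fiber (ztSetoid F) F.elSetoid (ZT.val ζ) (fun a b h => ZT.val_congr hζ a b h)
    (fun a => (a.x : S)) f21_el]
  unfold FusionSystem.kζ
  refine finsum_congr fun c => ?_
  obtain ⟨hc1, hc2⟩ := fcRep_spec F c
  generalize F.fcRep c = s at hc1 hc2 ⊢
  subst hc1
  exact f21_term hF hζ h0 hc2

end Pool.FS95
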