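import Pool.Agent.LibFS95.Ch

/-!
Row Z1: `z(kH)` is an isomorphism invariant and the trivial cases.

Plan. `e : K ≃* K'` induces a ring isomorphism `Φ = MonoidAlgebra.domCongr k k e`; `I ↦ I.map Φ` (or `comap Φ.symm`) maps the left ideals `I` with `kK/I` projective simple
to those of `kK'`, and isomorphic quotients to isomorphic quotients (transport along the semilinear isomorphism). Only existence of a bijection of the quotients is needed
(`Nat.card_congr`). `NQ_bot`: `N_G(1)/1 ≃ G`.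
-/

set_option autoImplicit false
noncomputable section
open MulAction
namespace Pool.FS95

/-- Projective simple quotients in terms of left ideals. -/
theorem Z1_sp {A : Type} [Ring A] (I : Submodule A A) :
    (IsSimpleModule A (A ⧸ I) ∧ Module.Projective A (A ⧸ I)) ↔
      (IsCoatom I ∧ ∃ a : A, (∀ x ∈ I, x * a = 0) ∧ a - 1 ∈ I) := by
  rw [isSimpleModule_iff_isCoatom]
  refine and_congr_right fun _ => ⟨fun h => ?_, fun h => ?_⟩
  · obtain ⟨s, hs⟩ := Module.projective_lifting_property (I.mkQ) (LinearMap.id)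
      (Submodule.mkQ_surjective I)
    refine ⟨s (I.mkQ 1), fun x hx => ?_, ?_⟩
    · have h1 : x * s (I.mkQ 1) = s (x • I.mkQ 1) := by
        rw [map_smul, smul_eq_mul]
      rw [h1, ← map_smul, smul_eq_mul, mul_one]
      have h2 : I.mkQ x = 0 := by
        rw [Submodule.mkQ_apply, Submodule.Quotient.mk_eq_zero]
        exact hx
      rw [h2, map_zero]
    · have h1 := LinearMap.congr_fun hs (I.mkQ 1)
      rw [LinearMap.comp_apply, LinearMap.id_apply, Submodule.mkQ_apply, Submodule.mkQ_apply,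
        Submodule.Quotient.eq] at h1
      exact h1
  · obtain ⟨a, ha, ha1⟩ := h
    have hle : I ≤ LinearMap.ker (LinearMap.toSpanSingleton A A a) := by
      intro x hx
      rw [LinearMap.mem_ker, LinearMap.toSpanSingleton_apply, smul_eq_mul]
      exact ha x hx
    refine Module.Projective.of_split (I.liftQ (LinearMap.toSpanSingleton A A a) hle) I.mkQ ?_
    apply Submodule.linearMap_qext
    ext
    have h1 : (I.liftQ (LinearMap.toSpanSingleton A A a) hle) (I.mkQ 1) = a := by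
      rw [Submodule.mkQ_apply, Submodule.liftQ_apply, LinearMap.toSpanSingleton_apply, one_smul]
    show I.mkQ ((I.liftQ (LinearMap.toSpanSingleton A A a) hle) (I.mkQ 1)) = I.mkQ 1
    rw [h1]
    exact (Submodule.Quotient.eq I).2 ha1

/-- Isomorphism of simple quotients in terms of left ideals. -/
theorem Z1_eqv {A : Type} [Ring A] (I J : Submodule A A) (hI : IsCoatom I) (hJ : IsCoatom J) :
    Nonempty ((A ⧸ I) ≃ₗ[A] (A ⧸ J)) ↔ ∃ a : A, a ∉ J ∧ ∀ x ∈ I, x * a ∈ J := by
  constructor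
  · rintro ⟨e⟩
    obtain ⟨a, ha⟩ := Submodule.mkQ_surjective J (e (I.mkQ 1))
    refine ⟨a, fun haJ => ?_, fun x hx => ?_⟩
    · have h1 : J.mkQ a = 0 := by
        rw [Submodule.mkQ_apply, Submodule.Quotient.mk_eq_zero]
        exact haJ
      rw [h1] at ha
      have h2 : I.mkQ 1 = 0 := e.map_eq_zero_iff.1 ha.symm
      rw [Submodule.mkQ_apply, Submodule.Quotient.mk_eq_zero] at h2
      exact hI.1 ((Ideal.eq_top_iff_one I).2 h2)
    · have h1 : J.mkQ (x * a) = 0 := by
        have h3 : J.mkQ (x * a) = x • J.mkQ a := by rw [← smul_eq_mul, map_smul]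
        have h2 : I.mkQ x = 0 := by
          rw [Submodule.mkQ_apply, Submodule.Quotient.mk_eq_zero]
          exact hx
        rw [h3, ha, ← map_smul, ← map_smul, smul_eq_mul, mul_one, h2, map_zero]
      rw [Submodule.mkQ_apply, Submodule.Quotient.mk_eq_zero] at h1
      exact h1
  · rintro ⟨a, ha, ha1⟩
    have : IsSimpleModule A (A ⧸ I) := isSimpleModule_iff_isCoatom.2 hI
    have : IsSimpleModule A (A ⧸ J) := isSimpleModule_iff_isCoatom.2 hJ
    have hle : I ≤ LinearMap.ker (J.mkQ ∘ₗ LinearMap.toSpanSingleton A A a) := by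
      intro x hx
      rw [LinearMap.mem_ker, LinearMap.comp_apply, LinearMap.toSpanSingleton_apply, smul_eq_mul,
        Submodule.mkQ_apply, Submodule.Quotient.mk_eq_zero]
      exact ha1 x hx
    have hne : I.liftQ (J.mkQ ∘ₗ LinearMap.toSpanSingleton A A a) hle ≠ 0 := by
      intro h0
      have h1 := LinearMap.congr_fun h0 (I.mkQ 1)
      rw [Submodule.mkQ_apply, Submodule.liftQ_apply, LinearMap.comp_apply,
        LinearMap.toSpanSingleton_apply, one_smul, LinearMap.zero_apply, Submodule.mkQ_apply,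
        Submodule.Quotient.mk_eq_zero] at h1
      exact ha h1
    exact ⟨LinearEquiv.ofBijective _ (LinearMap.bijective_of_ne_zero hne)⟩

/-- Transport of a left ideal. -/
theorem Z1_trans {A A' : Type} [Ring A] [Ring A'] (Φ : A ≃+* A') (I : Ideal A)
    (h : IsCoatom I ∧ ∃ a : A, (∀ x ∈ I, x * a = 0) ∧ a - 1 ∈ I) :
    IsCoatom (Φ.symm.idealComapOrderIso I) ∧ ∃ a : A', (∀ x ∈ Φ.symm.idealComapOrderIso I,
      x * a = 0) ∧ a - 1 ∈ Φ.symm.idealComapOrderIso I := by
  obtain ⟨h1, a, ha, ha1⟩ := h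
  refine ⟨(OrderIso.isCoatom_iff _ _).2 h1, Φ a, fun x hx => ?_, ?_⟩
  · have hx' : Φ.symm x ∈ I := hx
    apply Φ.symm.injective
    rw [map_mul, Φ.symm_apply_apply, ha _ hx', map_zero]
  · show Φ.symm (Φ a - 1) ∈ I
    rw [map_sub, Φ.symm_apply_apply, map_one]
    exact ha1

theorem zproj_iso (k : Type) [Field k] : IsoInv (fun K _ => zproj k K) := by
  rintro K K' _ _ ⟨e⟩
  simp only [zproj]
  congr 1
  let Φ : MonoidAlgebra k K ≃+* MonoidAlgebra k K' := MonoidAlgebra.mapDomainRingEquiv k e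
  have hback : ∀ I : Ideal (MonoidAlgebra k K),
      Φ.idealComapOrderIso (Φ.symm.idealComapOrderIso I) = I := by
    intro I
    ext x
    show Φ.symm (Φ x) ∈ I ↔ _
    rw [Φ.symm_apply_apply]
  have hback' : ∀ I : Ideal (MonoidAlgebra k K'),
      Φ.symm.idealComapOrderIso (Φ.idealComapOrderIso I) = I := by
    intro I
    ext x
    show Φ (Φ.symm x) ∈ I ↔ _
    rw [Φ.apply_symm_apply]
  let E : ProjSimple k K ≃ ProjSimple k K' :=
    { toFun := fun I => ⟨Φ.symm.idealComapOrderIso I.1,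
        (Z1_sp _).2 (Z1_trans Φ I.1 ((Z1_sp _).1 I.2))⟩
      invFun := fun I => ⟨Φ.idealComapOrderIso I.1,
        (Z1_sp _).2 (Z1_trans Φ.symm I.1 ((Z1_sp _).1 I.2))⟩
      left_inv := fun I => Subtype.ext (hback I.1)
      right_inv := fun I => Subtype.ext (hback' I.1) }
  refine Nat.card_congr (Quotient.congr E fun I J => ?_)
  have hI := ((Z1_sp _).1 I.2).1
  have hJ := ((Z1_sp _).1 J.2).1
  have hI' := ((Z1_sp _).1 (E I).2).1
  have hJ' := ((Z1_sp _).1 (E J).2).1
  change Nonempty ((MonoidAlgebra k K ⧸ I.1) ≃ₗ[MonoidAlgebra k K] (MonoidAlgebra k K ⧸ J.1)) ↔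
    Nonempty ((MonoidAlgebra k K' ⧸ (E I).1) ≃ₗ[MonoidAlgebra k K']
      (MonoidAlgebra k K' ⧸ (E J).1))
  rw [Z1_eqv _ _ hI hJ, Z1_eqv _ _ hI' hJ']
  constructor
  · rintro ⟨a, ha, ha1⟩
    refine ⟨Φ a, fun h => ha ?_, fun x hx => ?_⟩
    · have h' : Φ.symm (Φ a) ∈ J.1 := h
      rwa [Φ.symm_apply_apply] at h'
    · have hx' : Φ.symm x ∈ I.1 := hx
      show Φ.symm (x * Φ a) ∈ J.1
      rw [map_mul, Φ.symm_apply_apply]
      exact ha1 _ hx'
  · rintro ⟨a, ha, ha1⟩
    refine ⟨Φ.symm a, fun h => ha h, fun x hx => ?_⟩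
    have hx' : Φ x ∈ (E I).1 := by
      show Φ.symm (Φ x) ∈ I.1
      rw [Φ.symm_apply_apply]
      exact hx
    have h1 : Φ.symm (Φ x * a) ∈ J.1 := ha1 _ hx'
    rwa [map_mul, Φ.symm_apply_apply] at h1

theorem zproj_NQ_bot (k : Type) [Field k] (G : Type) [Group G] :
    zproj k (NQ (⊥ : Subgroup G)) = zproj k G := by
  have hN : Subgroup.normalizer ((⊥ : Subgroup G) : Set G) = ⊤ := Subgroup.normalizer_eq_top _
  have hb : (⊥ : Subgroup G).subgroupOf (Subgroup.normalizer ((⊥ : Subgroup G) : Set G)) = ⊥ := by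
    simp
  have e1 : NQ (⊥ : Subgroup G) ≃* (Subgroup.normalizer ((⊥ : Subgroup G) : Set G) ⧸
      (⊥ : Subgroup (Subgroup.normalizer ((⊥ : Subgroup G) : Set G)))) :=
    QuotientGroup.quotientMulEquivOfEq hb
  exact zproj_iso k _ _ ⟨e1.trans (QuotientGroup.quotientBot.trans
    ((MulEquiv.subgroupCongr hN).trans Subgroup.topEquiv))⟩

end Pool.FS95
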