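import Pool.Agent.LibFS95.F16
import Pool.Agent.LibFS95.B4
import Pool.Agent.LibFS95.C1
import Pool.Agent.LibFS95.Z1

/-!
Row F22: `m(F)` is the sum of `W(Out_F(Q), Irr(Q))` over the centric radical subgroups.

Proof. `Irr Q` is the disjoint union of the `IrrD ℓ Q d` (`χ(1)` is a natural number: `Representation.char_one`), only finitely many `d` are non-empty (`Irr Q` is finite, B4 `irr_finite`), and the action preserves the pieces. `W` is additive over disjoint unions of `H`-sets: weighted form C1.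
So `W(.., Irr Q) = ∑ᶠ d, W(.., IrrD ℓ Q d)`; exchange with the finite sum over the classes of `Q` (`finsum_sum_comm`; for every `Q` the set of `d` with a non-zero term is finite).
-/

set_option autoImplicit false
noncomputable section
open MulAction
namespace Pool.FS95

variable {S : Type} [Group S]

private theorem F22_key (ℓ : ℕ) {ζ : ∀ (K : Type) [Group K], ℤ} (hζ : IsoInv ζ) (H Y : Type)
    [Group H] [Finite H] [MulAction H Y] [Finite Y] (D : ℕ → Type) [∀ d, MulAction H (D d)]
    (ι : ∀ d, D d → Y) (hι : ∀ d, Function.Injective (ι d))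
    (hsm : ∀ d (a : H) (z : D d), ι d (a • z) = a • ι d z) (f : Y → ℕ)
    (hf : ∀ (y : Y) (d : ℕ), (∃ z : D d, ι d z = y) ↔ f y = d) :
    W ℓ ζ H Y = ∑ᶠ d, W ℓ ζ H (D d) ∧ (Function.support fun d => W ℓ ζ H (D d)).Finite := by
  classical
  haveI := Fintype.ofFinite Y
  haveI := Fintype.ofFinite (NChain ℓ H)
  haveI hfin : ∀ d, Finite (D d) := fun d => Finite.of_injective (ι d) (hι d)
  have hH : (Nat.card H : ℤ) ≠ 0 := by
    exact_mod_cast (Nat.card_pos (α := H)).ne'
  let g : NChain ℓ H → Y → ℤ := fun σ y =>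
    (-1) ^ σ.len * ((Nat.card ↥(stabilizer H σ ⊓ stabilizer H y) : ℤ) *
      ζ ↥(stabilizer H σ ⊓ stabilizer H y))
  have hW : (Nat.card H : ℤ) * W ℓ ζ H Y = ∑ σ, ∑ y, g σ y := by
    rw [card_mul_W ℓ hζ, finsum_eq_sum_of_fintype]
    refine Finset.sum_congr rfl fun σ _ => ?_
    rw [finsum_eq_sum_of_fintype]
  have hWd : ∀ d, (Nat.card H : ℤ) * W ℓ ζ H (D d) =
      ∑ σ, ∑ y ∈ Finset.univ.filter (fun y => f y = d), g σ y := by
    intro d
    haveI := Fintype.ofFinite (D d)
    rw [card_mul_W ℓ hζ, finsum_eq_sum_of_fintype]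
    refine Finset.sum_congr rfl fun σ _ => ?_
    rw [finsum_eq_sum_of_fintype]
    refine Finset.sum_bij (fun z _ => ι d z) ?_ ?_ ?_ ?_
    · intro z _
      rw [Finset.mem_filter]
      exact ⟨Finset.mem_univ _, (hf _ d).1 ⟨z, rfl⟩⟩
    · intro z _ z' _ h
      exact hι d h
    · intro y hy
      obtain ⟨z, hz⟩ := (hf y d).2 (Finset.mem_filter.1 hy).2
      exact ⟨z, Finset.mem_univ _, hz⟩
    · intro z _
      have h1 : stabilizer H z = stabilizer H (ι d z) := by
        ext a
        rw [mem_stabilizer_iff, mem_stabilizer_iff, ← hsm]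
        exact ⟨fun h => by rw [h], fun h => hι d h⟩
      simp only [g]
      rw [h1]
  have hsupp : (Function.support fun d => W ℓ ζ H (D d)) ⊆ ((Finset.univ.image f : Finset ℕ) : Set ℕ) := by
    intro d hd
    rw [Function.mem_support] at hd
    by_contra hcon
    apply hd
    have h1 := hWd d
    have h2 : Finset.univ.filter (fun y => f y = d) = ∅ := by
      rw [Finset.filter_eq_empty_iff]
      intro y _ hy
      apply hcon
      rw [Finset.mem_coe, Finset.mem_image]
      exact ⟨y, Finset.mem_univ _, hy⟩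
    rw [h2] at h1
    simp only [Finset.sum_empty, Finset.sum_const_zero] at h1
    exact (mul_eq_zero.1 h1).resolve_left hH
  refine ⟨?_, (Finset.finite_toSet _).subset hsupp⟩
  apply mul_left_cancel₀ hH
  rw [hW, finsum_eq_sum_of_support_subset _ hsupp, Finset.mul_sum]
  simp only [hWd]
  conv_rhs => rw [Finset.sum_comm]
  refine Finset.sum_congr rfl fun σ _ => ?_
  exact (Finset.sum_fiberwise_of_maps_to
    (fun y _ => Finset.mem_image_of_mem f (Finset.mem_univ y)) _).symm

private theorem F22_irr (ℓ : ℕ) {ζ : ∀ (K : Type) [Group K], ℤ} (hζ : IsoInv ζ) (P : Type)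
    [Group P] [Finite P] (T : Subgroup (MulAut P)) :
    W ℓ ζ (FusionSystem.outq T) (Irr P) = ∑ᶠ d, W ℓ ζ (FusionSystem.outq T) (IrrD ℓ P d) ∧
      (Function.support fun d => W ℓ ζ (FusionSystem.outq T) (IrrD ℓ P d)).Finite := by
  classical
  haveI : Finite (MulAut P) :=
    Finite.of_injective (fun e : MulAut P => (e : P → P)) DFunLike.coe_injective
  haveI := irr_finite P
  have hdeg : ∀ χ : Irr P, ∃ n : ℕ, χ.1 1 = n := by
    intro χ
    obtain ⟨n, ρ, -, h⟩ := χ.2
    refine ⟨n, ?_⟩
    rw [← h, Representation.char_one]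
    simp
  choose deg hdeg using hdeg
  refine F22_key ℓ hζ (FusionSystem.outq T) (Irr P) (fun d => IrrD ℓ P d) (fun d z => z.1)
    (fun d z z' h => Subtype.ext h) ?_ (fun χ => padicValNat ℓ (Nat.card P / deg χ)) ?_
  · intro d a z
    induction a using Quotient.inductionOn' with
    | h t => rfl
  · intro χ d
    constructor
    · rintro ⟨⟨χ', n, h1, h2⟩, rfl⟩
      have h3 : deg χ' = n := by
        have h4 := hdeg χ'
        rw [h1] at h4
        exact_mod_cast h4.symm
      change padicValNat ℓ (Nat.card P / deg χ') = d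
      rw [h3]; exact h2
    · intro h
      exact ⟨⟨χ, deg χ, hdeg χ, h⟩, rfl⟩

theorem m_eq [Finite S] (F : FusionSystem S) (ℓ : ℕ) [Fact ℓ.Prime] (k : Type) [Field k] :
    F.m ℓ k = clsum (F.subSetoid fun P => F.Centric P ∧ F.Radical ℓ P)
      (fun Q => W ℓ (fun K _ => zproj k K) (F.OutF Q.1) (Irr Q.1)) := by
  classical
  have hz : IsoInv (fun K _ => zproj k K) := zproj_iso k
  unfold FusionSystem.m FusionSystem.mD FusionSystem.wQ clsum
  haveI : Finite (Quotient (F.subSetoid fun P => F.Centric P ∧ F.Radical ℓ P)) := Quotient.finite _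
  haveI := Fintype.ofFinite (Quotient (F.subSetoid fun P => F.Centric P ∧ F.Radical ℓ P))
  simp only [finsum_eq_sum_of_fintype]
  rw [finsum_sum_comm]
  · refine Finset.sum_congr rfl fun q _ => ?_
    exact (F22_irr ℓ hz _ _).1.symm
  · intro q _
    exact (F22_irr ℓ hz _ _).2

end Pool.FS95
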