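import Pool.Agent.LibFS95.F2

/-!
Row F3: extension of isomorphisms between centric subgroups.

Proof. `exists_ext`: `Q'` is centric, hence fully centralised (F1), so `e` extends to `ψ ∈ Hom (Nphi e) ⊤` (saturation). `R ≤ Nphi e`: for `g ∈ R`, `c_g|_Q ∈ AutR Q R`, `e c_g e⁻¹ ∈ AutR Q' R'` is `c_{g'}`, `g' ∈ R' ≤ N(Q')`. Let `f₀ = ψ|_R`; for `g ∈ R`, `c_{f₀ g} = e c_g e⁻¹` on `Q'`, which is
`c_{g'}` with `g' ∈ R'`, so `f₀ g ∈ R' C_S(Q') ≤ R'`; `f₀ : R → R'` is injective, and surjective: `r' ∈ R'`: `c_{r'} = e c_g e⁻¹ = c_{f₀ g}` for some `g ∈ R`, so `r' ∈ f₀(g) Q' = f₀(g) f₀(Q)`. Use `F.factor`.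
`img_eq_of_ext`, `mapA_eq_of_img`: the same computations.
-/

set_option autoImplicit false
noncomputable section
open MulAction
namespace Pool.FS95

variable {S : Type} [Group S]

private theorem F3_conj {Q : Subgroup S} {g : S} (hg : g ∈ Subgroup.normalizer (Q : Set S)) :
    ∃ α : MulAut Q, ∀ x : Q, (α x : S) = g * x * g⁻¹ :=
  ⟨Subgroup.normalizerMonoidHom Q ⟨g, hg⟩, fun _ => rfl⟩

private theorem F3_cent {Q : Subgroup S} {g h : S} (hc : Subgroup.centralizer (Q : Set S) ≤ Q)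
    (hgh : ∀ x : Q, g * x * g⁻¹ = h * x * h⁻¹) : h⁻¹ * g ∈ Q := by
  apply hc
  rw [Subgroup.mem_centralizer_iff]
  intro u hu
  have h1 := hgh ⟨u, hu⟩
  have h2 : g * u * g⁻¹ = h * u * h⁻¹ := h1
  have h3 : u * (h⁻¹ * g) = h⁻¹ * (h * u * h⁻¹) * g := by group
  rw [h3, ← h2]
  group

theorem exists_ext [Finite S] {ℓ : ℕ} {F : FusionSystem S} (hF : F.Saturated ℓ)
    {Q Q' R R' : Subgroup S} (hQ : F.Centric Q) (e : Q ≃* Q') (he : e ∈ F.Iso Q Q') (hQR : Q ≤ R)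
    (hR : R ≤ Subgroup.normalizer (Q : Set S)) (hQR' : Q' ≤ R')
    (hR' : R' ≤ Subgroup.normalizer (Q' : Set S)) (hA : mapA e (AutR Q R) = AutR Q' R') :
    ∃ f ∈ F.Iso R R', ∀ x : Q, (f ⟨x, hQR x.2⟩ : S) = e x := by
  have hQ' : Subgroup.centralizer (Q' : Set S) ≤ Q' := hQ Q' ⟨e, he⟩
  obtain ⟨ψ, hψ, hψe⟩ := hF.ext Q Q' e he (fullyCentralized_of_centric hQ ⟨e, he⟩)
  -- the two facts on `AutR`
  have hK : ∀ g ∈ R, ∃ g' ∈ R', ∀ x y : Q, (y : S) = g * x * g⁻¹ → (e y : S) = g' * e x * g'⁻¹ := by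
    intro g hg
    obtain ⟨α, hα⟩ := F3_conj (hR hg)
    have h1 : MulAut.congr e α ∈ AutR Q' R' := by
      rw [← hA]; exact ⟨α, ⟨g, hg, hα⟩, rfl⟩
    obtain ⟨g', hg', h2⟩ := h1
    refine ⟨g', hg', fun x y hxy => ?_⟩
    rw [← h2 (e x)]
    change (e y : S) = e (α (e.symm (e x)))
    rw [MulEquiv.symm_apply_apply]
    have : y = α x := Subtype.ext (by rw [hα, hxy])
    rw [this]
  have hK' : ∀ g' ∈ R', ∃ g ∈ R, ∀ x y : Q, (y : S) = g * x * g⁻¹ →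
      (e y : S) = g' * e x * g'⁻¹ := by
    intro g' hg'
    obtain ⟨β, hβ⟩ := F3_conj (hR' hg')
    have h1 : β ∈ mapA e (AutR Q R) := by
      rw [hA]; exact ⟨g', hg', hβ⟩
    obtain ⟨α, ⟨g, hg, hα⟩, h2⟩ := h1
    refine ⟨g, hg, fun x y hxy => ?_⟩
    rw [← hβ (e x), ← h2]
    change (e y : S) = e (α (e.symm (e x)))
    rw [MulEquiv.symm_apply_apply]
    have : y = α x := Subtype.ext (by rw [hα, hxy])
    rw [this]
  have hRN : R ≤ FusionSystem.Nphi e := by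
    intro g hg
    obtain ⟨g', hg', h⟩ := hK g hg
    exact ⟨hR hg, g', hR' hg', h⟩
  -- the restriction
  let φ : R →* (⊤ : Subgroup S) := ψ.comp (Subgroup.inclusion hRN)
  have hφ : φ ∈ F.Hom R ⊤ :=
    F.comp_mem (F.conj_mem _ _ 1 _ (fun x => by simp)) hψ
  have hφe : ∀ (x : Q), (φ ⟨x, hQR x.2⟩ : S) = e x := fun x => hψe x (hRN (hQR x.2))
  have hinj : Function.Injective φ := F.inj hφ
  have hφc : ∀ (g : R) (x : Q), (φ g : S) * e x * (φ g : S)⁻¹ =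
      φ ⟨g * x * (g : S)⁻¹, R.mul_mem (R.mul_mem g.2 (hQR x.2)) (R.inv_mem g.2)⟩ := by
    intro g x
    rw [← hφe x, ← Subgroup.coe_mul, ← Subgroup.coe_inv, ← Subgroup.coe_mul, ← map_mul, ← map_inv,
      ← map_mul]
    rfl
  have hφc' : ∀ (g : R) (x : Q) (g' : S), (∀ y : Q, (y : S) = g * x * (g : S)⁻¹ →
      (e y : S) = g' * e x * g'⁻¹) → (φ g : S) * e x * (φ g : S)⁻¹ = g' * e x * g'⁻¹ := by
    intro g x g' h
    have hy : (g : S) * x * (g : S)⁻¹ ∈ Q := (Subgroup.mem_normalizer_iff.1 (hR g.2) x).1 x.2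
    rw [hφc, ← h ⟨_, hy⟩ rfl, ← hφe]
  have hmem : ∀ g : R, (φ g : S) ∈ R' := by
    intro g
    obtain ⟨g', hg', h⟩ := hK g g.2
    have h1 : g'⁻¹ * (φ g : S) ∈ Q' := by
      apply F3_cent hQ'
      intro z
      have h2 := hφc' g (e.symm z) g' (fun y hy => h _ y hy)
      rw [MulEquiv.apply_symm_apply] at h2
      exact h2
    have h2 := R'.mul_mem hg' (hQR' h1)
    rwa [mul_inv_cancel_left] at h2
  have hsurj : ∀ r' : R', ∃ g : R, (φ g : S) = r' := by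
    intro r'
    obtain ⟨g, hg, h⟩ := hK' r' r'.2
    have h1 : (φ ⟨g, hg⟩ : S)⁻¹ * (r' : S) ∈ Q' := by
      apply F3_cent hQ'
      intro z
      have h2 := hφc' ⟨g, hg⟩ (e.symm z) r' (fun y hy => h _ y hy)
      rw [MulEquiv.apply_symm_apply] at h2
      exact h2.symm
    refine ⟨⟨g, hg⟩ * ⟨e.symm ⟨_, h1⟩, hQR (e.symm ⟨_, h1⟩).2⟩, ?_⟩
    rw [map_mul, Subgroup.coe_mul, hφe, MulEquiv.apply_symm_apply]
    rw [mul_inv_cancel_left]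
  let f : R ≃* R' := MulEquiv.ofBijective
    (((⊤ : Subgroup S).subtype.comp φ).codRestrict R' hmem)
    ⟨fun x y hxy => hinj (Subtype.ext (congrArg (fun z : R' => (z : S)) hxy)),
     fun r' => by
      obtain ⟨g, hg⟩ := hsurj r'
      exact ⟨g, Subtype.ext hg⟩⟩
  have hfφ : ∀ x : R, (f x : S) = φ x := fun x => rfl
  exact ⟨f, (F.factor hφ R' f hfφ).1, fun x => by rw [hfφ, hφe]⟩

private theorem F3_congr {Q Q' R R' : Subgroup S} (e : Q ≃* Q') (f : R ≃* R') (hQR : Q ≤ R)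
    (hf : ∀ x : Q, (f ⟨x, hQR x.2⟩ : S) = e x) (g : R) (α : MulAut Q)
    (hα : ∀ x : Q, (α x : S) = g * x * (g : S)⁻¹) (y : Q') :
    (MulAut.congr e α y : S) = f g * y * (f g : S)⁻¹ := by
  change (e (α (e.symm y)) : S) = _
  rw [← hf]
  have h1 : (⟨α (e.symm y), hQR (α (e.symm y)).2⟩ : R) =
      g * ⟨e.symm y, hQR (e.symm y).2⟩ * g⁻¹ := Subtype.ext (hα _)
  rw [h1, map_mul, map_mul, map_inv, Subgroup.coe_mul, Subgroup.coe_mul, Subgroup.coe_inv, hf,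
    MulEquiv.apply_symm_apply]

private theorem F3_mapA {Q Q' R R' : Subgroup S} (e : Q ≃* Q') (f : R ≃* R') (hQR : Q ≤ R)
    (hf : ∀ x : Q, (f ⟨x, hQR x.2⟩ : S) = e x) {X : Subgroup S} (hXR : X ≤ R)
    (hX : X ≤ Subgroup.normalizer (Q : Set S)) : mapA e (AutR Q X) = AutR Q' (img f X) := by
  ext β
  rw [mem_mapA, mem_AutR]
  constructor
  · rintro ⟨α, ⟨x, hx, hα⟩, rfl⟩
    exact ⟨f ⟨x, hXR hx⟩, mem_img.2 ⟨⟨x, hXR hx⟩, hx, rfl⟩,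
      fun y => F3_congr e f hQR hf ⟨x, hXR hx⟩ α hα y⟩
  · rintro ⟨_, hz, hβ⟩
    obtain ⟨g, hg, rfl⟩ := mem_img.1 hz
    obtain ⟨α, hα⟩ := F3_conj (hX hg)
    refine ⟨α, ⟨g, hg, hα⟩, ?_⟩
    ext y
    rw [hβ, F3_congr e f hQR hf g α hα y]

theorem img_eq_of_ext {Q Q' R R' : Subgroup S} (hc : Subgroup.centralizer (Q' : Set S) ≤ Q')
    (e : Q ≃* Q') (f : R ≃* R') (hQR : Q ≤ R) (hR : R ≤ Subgroup.normalizer (Q : Set S))
    (hR' : R' ≤ Subgroup.normalizer (Q' : Set S)) (hf : ∀ x : Q, (f ⟨x, hQR x.2⟩ : S) = e x)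
    {X X' : Subgroup S} (hQX : Q ≤ X) (hXR : X ≤ R) (hQX' : Q' ≤ X') (hXR' : X' ≤ R')
    (hA : mapA e (AutR Q X) = AutR Q' X') : img f X = X' := by
  rw [F3_mapA e f hQR hf hXR (hXR.trans hR)] at hA
  refine AutR_injOn hc ?_ hQX' ((img_le f X).trans hR') (hXR'.trans hR') hA
  intro q hq
  refine mem_img.2 ⟨⟨e.symm ⟨q, hq⟩, hQR (e.symm ⟨q, hq⟩).2⟩, hQX (e.symm ⟨q, hq⟩).2, ?_⟩
  rw [hf, MulEquiv.apply_symm_apply]

theorem mapA_eq_of_img {Q Q' R R' : Subgroup S} (e : Q ≃* Q') (f : R ≃* R') (hQR : Q ≤ R)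
    (hf : ∀ x : Q, (f ⟨x, hQR x.2⟩ : S) = e x) {X : Subgroup S} (hXR : X ≤ R)
    (hX : X ≤ Subgroup.normalizer (Q : Set S)) : mapA e (AutR Q X) = AutR Q' (img f X) :=
  F3_mapA e f hQR hf hXR hX

end Pool.FS95
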