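import Pool.Agent.LibFS95.F6

/-!
Row F7: `toQT` reflects and respects isomorphism.

Plan. (→) from `e : Q ≃* Q'` with `mapA e '' σ = σ'`, `e x = x'`: `mapA e` is an order isomorphism from `σ` to `σ'`, so it maps the top `AutR Q P` to the top `AutR Q' P'`, and `X ∈ τ` to the `X' ∈ τ'` with `mapA e (AutR Q X) = AutR Q' X'`. F3 `exists_ext` with `R = P`, `R' = P'` gives `f : P ≃* P'` extending `e`;
`img f X = X'` by `img_eq_of_ext`, so `img f '' τ = τ'`; `f x = x'`. (←) `f : P ≃* P'` with `img f '' τ = τ'`: `img f` is an order isomorphism `τ → τ'`, so `img f (sInf τ) = sInf τ'`; restrict `f` to `Q ≃* Q'` (`restr`, F `restr_mem`, transport along the equality `img f Q = Q'`) and use `mapA_eq_of_img`.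
-/

set_option autoImplicit false
noncomputable section
open MulAction
namespace Pool.FS95

variable {S : Type} [Group S]

theorem f7_AutR_mono {Q X Y : Subgroup S} (h : X ≤ Y) : AutR Q X ≤ AutR Q Y := by
  rintro α ⟨g, hg, hα⟩
  exact ⟨g, h hg, hα⟩

theorem f7_mapA_mono {P Q : Type} [Group P] [Group Q] (e : P ≃* Q) {X Y : Subgroup (MulAut P)}
    (h : X ≤ Y) : mapA e X ≤ mapA e Y := Subgroup.map_mono h

theorem f7_img_mono {P P' : Subgroup S} (e : P ≃* P') {X Y : Subgroup S} (h : X ≤ Y) :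
    img e X ≤ img e Y := by
  intro z hz
  obtain ⟨y, hy, rfl⟩ := mem_img.1 hz
  exact mem_img.2 ⟨y, h hy, rfl⟩

theorem toQT_rel_iff [Finite S] {ℓ : ℕ} (hS : IsPGroup ℓ S) {F : FusionSystem S}
    (hF : F.Saturated ℓ) (a b : DT F) (ha : F.Centric (sInf a.τ)) (hb : F.Centric (sInf b.τ)) :
    dtSetoid F a b ↔ qtSetoid F ℓ (toQT hS a ha) (toQT hS b hb) := by
  have hQa := sInf_mem_DT a
  have hQb := sInf_mem_DT b
  have hQPa : sInf a.τ ≤ a.P := sInf_le a.top_mem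
  have hQPb : sInf b.τ ≤ b.P := sInf_le b.top_mem
  have hcb : Subgroup.centralizer ((sInf b.τ : Subgroup S) : Set S) ≤ sInf b.τ :=
    hb _ (F.conj_refl _)
  constructor
  · rintro ⟨f, hf, h1, h2⟩
    have himg : img f (sInf a.τ) = sInf b.τ := by
      apply le_antisymm
      · apply le_sInf
        intro Y hY
        rw [← h1] at hY
        obtain ⟨X, hX, rfl⟩ := hY
        exact f7_img_mono f (sInf_le hX)
      · apply sInf_le
        rw [← h1]
        exact ⟨_, hQa, rfl⟩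
    let e : ↥(sInf a.τ) ≃* ↥(sInf b.τ) := (restr f hQPa).trans (MulEquiv.subgroupCongr himg)
    have he : ∀ x : ↥(sInf a.τ), (e x : S) = f ⟨x, hQPa x.2⟩ := fun x => rfl
    refine ⟨e, F.iso_restrict hf hQPa e he, ?_, ?_⟩
    · change mapA e '' (AutR (sInf a.τ) '' a.τ) = AutR (sInf b.τ) '' b.τ
      have h3 : AutR (sInf b.τ) '' b.τ = AutR (sInf b.τ) '' (img f '' a.τ) := by rw [h1]
      rw [h3, ← Set.image_comp, ← Set.image_comp]
      apply Set.image_congr
      intro X hX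
      exact mapA_eq_of_img e f hQPa (fun x => rfl) (a.le X hX) (a.le_norm hX)
    · apply Subtype.ext
      change (f a.x : S) = b.x
      rw [h2]
  · rintro ⟨e, he, h1, h2⟩
    have he : e ∈ F.Iso (sInf a.τ) (sInf b.τ) := he
    have h1 : mapA e '' (AutR (sInf a.τ) '' a.τ) = AutR (sInf b.τ) '' b.τ := h1
    have h2 : e ⟨a.x, a.x_mem⟩ = ⟨b.x, b.x_mem⟩ := h2
    have k1 : ∀ X ∈ a.τ, ∃ Y ∈ b.τ, mapA e (AutR (sInf a.τ) X) = AutR (sInf b.τ) Y := by
      intro X hX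
      have h3 : mapA e (AutR (sInf a.τ) X) ∈ mapA e '' (AutR (sInf a.τ) '' a.τ) :=
        ⟨_, ⟨X, hX, rfl⟩, rfl⟩
      rw [h1] at h3
      obtain ⟨Y, hY, h4⟩ := h3
      exact ⟨Y, hY, h4.symm⟩
    have k2 : ∀ Y ∈ b.τ, ∃ X ∈ a.τ, mapA e (AutR (sInf a.τ) X) = AutR (sInf b.τ) Y := by
      intro Y hY
      have h3 : AutR (sInf b.τ) Y ∈ AutR (sInf b.τ) '' b.τ := ⟨Y, hY, rfl⟩
      rw [← h1] at h3
      obtain ⟨_, ⟨X, hX, rfl⟩, h4⟩ := h3
      exact ⟨X, hX, h4⟩
    have htop : mapA e (AutR (sInf a.τ) a.P) = AutR (sInf b.τ) b.P := by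
      apply le_antisymm
      · obtain ⟨Y, hY, h3⟩ := k1 _ a.top_mem
        rw [h3]
        exact f7_AutR_mono (b.le Y hY)
      · obtain ⟨X, hX, h3⟩ := k2 _ b.top_mem
        rw [← h3]
        exact f7_mapA_mono e (f7_AutR_mono (a.le X hX))
    obtain ⟨f, hf, hfe⟩ := exists_ext hF ha e he hQPa (a.normal _ hQa) hQPb (b.normal _ hQb) htop
    have himg : ∀ X ∈ a.τ, ∀ Y ∈ b.τ, mapA e (AutR (sInf a.τ) X) = AutR (sInf b.τ) Y →
        img f X = Y := by
      intro X hX Y hY h3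
      exact img_eq_of_ext hcb e f hQPa (a.normal _ hQa) (b.normal _ hQb) hfe (sInf_le hX)
        (a.le X hX) (sInf_le hY) (b.le Y hY) h3
    refine ⟨f, hf, ?_, ?_⟩
    · ext Y
      constructor
      · rintro ⟨X, hX, rfl⟩
        obtain ⟨Y, hY, h3⟩ := k1 X hX
        rw [himg X hX Y hY h3]
        exact hY
      · intro hY
        obtain ⟨X, hX, h3⟩ := k2 Y hY
        exact ⟨X, hX, himg X hX Y hY h3⟩
    · apply Subtype.ext
      exact (hfe ⟨a.x, a.x_mem⟩).trans (congrArg (fun t : ↥(sInf b.τ) => (t : S)) h2)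

end Pool.FS95
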