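import Pool.Agent.LibFS95.Ch

/-!
Fusion systems: images of subgroups, `Aut_R(Q)`, and the three kinds of decorated subgroups
`QT` (centric `Q`, a chain in `Aut_F(Q)` starting at `Inn(Q)`, `x ∈ Q`), `DT` (centric `P`, a chain of normal
subgroups of `P` with top `P`, `x` in its bottom), `ZT` (centric `P`, `x ∈ Z(P)`).
-/

set_option autoImplicit false
noncomputable section
open MulAction
namespace Pool.FS95

variable {S : Type} [Group S]

/-- The image `e(X)` of a subgroup `X` (intersected with `P`) under `e : P ≃* P'`, as a subgroup of `S`. -/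
def img {P P' : Subgroup S} (e : P ≃* P') (X : Subgroup S) : Subgroup S :=
  (X.subgroupOf P).map (P'.subtype.comp e.toMonoidHom)

theorem mem_img {P P' : Subgroup S} {e : P ≃* P'} {X : Subgroup S} {z : S} :
    z ∈ img e X ↔ ∃ y : P, (y : S) ∈ X ∧ (e y : S) = z := by
  simp only [img, Subgroup.mem_map, Subgroup.mem_subgroupOf]
  rfl

/-- The restriction `X ≃* e(X)` of `e`. -/
def restr {P P' : Subgroup S} (e : P ≃* P') {X : Subgroup S} (hX : X ≤ P) : X ≃* img e X :=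
  MulEquiv.ofBijective
    ({ toFun := fun x => ⟨e ⟨x, hX x.2⟩, mem_img.2 ⟨⟨x, hX x.2⟩, x.2, rfl⟩⟩
       map_one' := Subtype.ext (by
        have : (⟨((1 : X) : S), hX (1 : X).2⟩ : P) = 1 := rfl
        simp only [this, map_one]; rfl)
       map_mul' := fun x y => Subtype.ext (by
        have : (⟨((x * y : X) : S), hX (x * y).2⟩ : P) = ⟨x, hX x.2⟩ * ⟨y, hX y.2⟩ := rfl
        simp only [this, map_mul]; rfl) } : X →* img e X)
    ⟨fun x y hxy => by
      have h1 : (e ⟨x, hX x.2⟩ : S) = e ⟨y, hX y.2⟩ := congrArg (fun z : img e X => (z : S)) hxy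
      have h2 := e.injective (Subtype.ext h1)
      have h3 : (x : S) = y := congrArg (fun z : P => (z : S)) h2
      exact Subtype.ext h3,
     fun z => by
      obtain ⟨y, hy, h⟩ := mem_img.1 z.2
      exact ⟨⟨y, hy⟩, Subtype.ext h⟩⟩

theorem restr_coe {P P' : Subgroup S} (e : P ≃* P') {X : Subgroup S} (hX : X ≤ P) (x : X) :
    (restr e hX x : S) = e ⟨x, hX x.2⟩ := rfl

theorem restr_mem {F : FusionSystem S} {P P' : Subgroup S} {e : P ≃* P'} (he : e ∈ F.Iso P P')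
    {X : Subgroup S} (hX : X ≤ P) : restr e hX ∈ F.Iso X (img e X) :=
  F.iso_restrict he hX _ (fun _ => rfl)

/-- `Aut_R(Q)`: the automorphisms of `Q` induced by elements of `R`. -/
def AutR (Q R : Subgroup S) : Subgroup (MulAut Q) where
  carrier := {α | ∃ g ∈ R, ∀ x : Q, (α x : S) = g * x * g⁻¹}
  mul_mem' := by
    rintro a b ⟨g, hgR, hg⟩ ⟨h, hhR, hh⟩
    refine ⟨g * h, mul_mem hgR hhR, fun x => ?_⟩
    change ((a (b x) : Q) : S) = _
    rw [hg, hh]; group
  one_mem' := ⟨1, one_mem _, fun x => by simp⟩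
  inv_mem' := by
    rintro a ⟨g, hgR, hg⟩
    refine ⟨g⁻¹, inv_mem hgR, fun x => ?_⟩
    have := hg (a⁻¹ x)
    have h2 : a (a⁻¹ x) = x := MulAut.apply_inv_self _ a x
    rw [h2] at this
    rw [this]; group

theorem mem_AutR {Q R : Subgroup S} {α : MulAut Q} :
    α ∈ AutR Q R ↔ ∃ g ∈ R, ∀ x : Q, (α x : S) = g * x * g⁻¹ := Iff.rfl

/-- A centric subgroup `Q`, a normal chain `σ` of `ℓ`-subgroups of `Aut_F(Q)` starting at `Inn(Q)` and an element `x` of `Q`. -/
structure QT (F : FusionSystem S) (ℓ : ℕ) where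
  Q : Subgroup S
  σ : Set (Subgroup (MulAut Q))
  x : Q
  centric : F.Centric Q
  inn_mem : FusionSystem.inn Q ∈ σ
  inn_le : ∀ X ∈ σ, FusionSystem.inn Q ≤ X
  le : ∀ X ∈ σ, X ≤ F.AutF Q
  isPGroup : ∀ X ∈ σ, IsPGroup ℓ X
  total : ∀ X ∈ σ, ∀ Y ∈ σ, X ≤ Y ∨ Y ≤ X
  normal : ∀ X ∈ σ, ∀ Y ∈ σ, X ≤ Y → Y ≤ Subgroup.normalizer (X : Set (MulAut Q))

/-- The stabiliser of the chain `σ` and of the class of `x` in `Aut_F(Q)`. -/
def TQ (F : FusionSystem S) {Q : Subgroup S} (σ : Set (Subgroup (MulAut Q))) (x : Q) :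
    Subgroup (MulAut Q) where
  carrier := {α | α ∈ F.AutF Q ∧ cj α '' σ = σ ∧ IsConj (α x) x}
  mul_mem' := by
    rintro a b ⟨h1, h2, h3⟩ ⟨h4, h5, h6⟩
    refine ⟨mul_mem h1 h4, ?_, ?_⟩
    · have : cj (a * b) = cj a ∘ cj b := by funext X; exact cj_mul a b X
      rw [this, Set.image_comp, h5, h2]
    · exact (a.toMonoidHom.map_isConj h6).trans h3
  one_mem' := ⟨one_mem _, by
    have : (cj (1 : MulAut Q)) = id := by funext X; exact cj_one X
    rw [this, Set.image_id], IsConj.refl _⟩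
  inv_mem' := by
    rintro a ⟨h1, h2, h3⟩
    refine ⟨inv_mem h1, ?_, ?_⟩
    · have : cj a⁻¹ ∘ cj a = id := by
        funext X; change cj a⁻¹ (cj a X) = X; rw [← cj_mul, inv_mul_cancel, cj_one]
      conv_lhs => rw [← h2]
      rw [← Set.image_comp, this, Set.image_id]
    · have h4 := (a⁻¹).toMonoidHom.map_isConj h3
      have h5 : (a⁻¹).toMonoidHom (a x) = x := MulAut.inv_apply_self _ a x
      rw [h5] at h4
      exact h4.symm

theorem mem_TQ {F : FusionSystem S} {Q : Subgroup S} {σ : Set (Subgroup (MulAut Q))} {x : Q}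
    {α : MulAut Q} : α ∈ TQ F σ x ↔ α ∈ F.AutF Q ∧ cj α '' σ = σ ∧ IsConj (α x) x := Iff.rfl

/-- The value of `(Q, σ, x)`. -/
def QT.val {F : FusionSystem S} {ℓ : ℕ} (ζ : ∀ (K : Type) [Group K], ℤ) (a : QT F ℓ) : ℤ :=
  (-1) ^ (a.σ.ncard - 1) * ζ (FusionSystem.outq (TQ F a.σ a.x))

/-- A centric subgroup `P`, a chain `τ` of normal subgroups of `P` with top `P` and an element `x` of the bottom of `τ`. -/
structure DT (F : FusionSystem S) where
  P : Subgroup S
  τ : Set (Subgroup S)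
  x : P
  centric : F.Centric P
  top_mem : P ∈ τ
  le : ∀ X ∈ τ, X ≤ P
  total : ∀ X ∈ τ, ∀ Y ∈ τ, X ≤ Y ∨ Y ≤ X
  normal : ∀ X ∈ τ, P ≤ Subgroup.normalizer (X : Set S)
  x_mem : (x : S) ∈ sInf τ

theorem img_mul {P : Subgroup S} (a b : MulAut P) (X : Subgroup S) : img (a * b : MulAut P) X = img a (img b X) := by
  ext z
  simp only [mem_img]
  constructor
  · rintro ⟨y, hy, rfl⟩
    exact ⟨b y, ⟨y, hy, rfl⟩, rfl⟩
  · rintro ⟨y, ⟨w, hw, h⟩, rfl⟩
    have : y = b w := Subtype.ext h.symm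
    exact ⟨w, hw, by rw [this]; rfl⟩

/-- The stabiliser of the chain `τ` and of the `P`-class of `x` in `Aut_F(P)`. -/
def TD (F : FusionSystem S) {P : Subgroup S} (τ : Set (Subgroup S)) (hτ : ∀ X ∈ τ, X ≤ P) (x : P) :
    Subgroup (MulAut P) where
  carrier := {α | α ∈ F.AutF P ∧ img α '' τ = τ ∧ IsConj (α x) x}
  mul_mem' := by
    rintro a b ⟨h1, h2, h3⟩ ⟨h4, h5, h6⟩
    refine ⟨mul_mem h1 h4, ?_, ?_⟩
    · have : img (a * b : MulAut P) = img a ∘ img b := by funext X; exact img_mul a b X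
      rw [this, Set.image_comp, h5, h2]
    · exact (a.toMonoidHom.map_isConj h6).trans h3
  one_mem' := ⟨one_mem _, by
    ext X
    constructor
    · rintro ⟨Y, hY, rfl⟩
      have : img (1 : MulAut P) Y = Y := by
        ext z; rw [mem_img]
        constructor
        · rintro ⟨y, hy, rfl⟩; exact hy
        · intro hz; exact ⟨⟨z, hτ Y hY hz⟩, hz, rfl⟩
      rw [this]; exact hY
    · intro hX
      refine ⟨X, hX, ?_⟩
      ext z; rw [mem_img]
      constructor
      · rintro ⟨y, hy, rfl⟩; exact hy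
      · intro hz; exact ⟨⟨z, hτ X hX hz⟩, hz, rfl⟩, IsConj.refl _⟩
  inv_mem' := by
    rintro a ⟨h1, h2, h3⟩
    refine ⟨inv_mem h1, ?_, ?_⟩
    · have key : ∀ X ∈ τ, img a⁻¹ (img a X) = X := by
        intro X hX
        rw [← img_mul, inv_mul_cancel]
        ext z; rw [mem_img]
        constructor
        · rintro ⟨y, hy, rfl⟩; exact hy
        · intro hz; exact ⟨⟨z, hτ X hX hz⟩, hz, rfl⟩
      conv_lhs => rw [← h2]
      rw [← Set.image_comp]
      ext X
      constructor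
      · rintro ⟨Y, hY, rfl⟩
        rw [Function.comp_apply, key Y hY]; exact hY
      · intro hX; exact ⟨X, hX, key X hX⟩
    · have h4 := (a⁻¹).toMonoidHom.map_isConj h3
      have h5 : (a⁻¹).toMonoidHom (a x) = x := MulAut.inv_apply_self _ a x
      rw [h5] at h4
      exact h4.symm

theorem mem_TD {F : FusionSystem S} {P : Subgroup S} {τ : Set (Subgroup S)} {hτ : ∀ X ∈ τ, X ≤ P}
    {x : P} {α : MulAut P} :
    α ∈ TD F τ hτ x ↔ α ∈ F.AutF P ∧ img α '' τ = τ ∧ IsConj (α x) x := Iff.rfl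

/-- `C_P(x)`. -/
def DT.cx {F : FusionSystem S} (a : DT F) : Subgroup S := Subgroup.centralizer {(a.x : S)} ⊓ a.P

open Classical in
/-- The value of `(P, τ, x)`. -/
def DT.val {F : FusionSystem S} (ζ : ∀ (K : Type) [Group K], ℤ) (a : DT F) : ℤ :=
  if a.cx ≤ sInf a.τ then (-1) ^ (a.τ.ncard - 1) * ζ (FusionSystem.outq (TD F a.τ a.le a.x)) else 0

/-- A centric subgroup `P` and a central element `x` of `P`. -/
structure ZT (F : FusionSystem S) where
  P : Subgroup S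
  x : P
  centric : F.Centric P
  central : ∀ y : P, y * x = x * y

/-- The stabiliser of `x` in `Aut_F(P)`. -/
def TZ (F : FusionSystem S) {P : Subgroup S} (x : P) : Subgroup (MulAut P) :=
  F.AutF P ⊓ stabilizer (MulAut P) x

/-- The value of `(P, x)`. -/
def ZT.val {F : FusionSystem S} (ζ : ∀ (K : Type) [Group K], ℤ) (a : ZT F) : ℤ :=
  ζ (FusionSystem.outq (TZ F a.x))

theorem img_refl {P X : Subgroup S} (h : X ≤ P) : img (MulEquiv.refl P) X = X := by
  ext z; rw [mem_img]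
  constructor
  · rintro ⟨y, hy, rfl⟩; exact hy
  · intro hz; exact ⟨⟨z, h hz⟩, hz, rfl⟩

theorem img_trans {P Q R : Subgroup S} (e : P ≃* Q) (f : Q ≃* R) (X : Subgroup S) :
    img (e.trans f) X = img f (img e X) := by
  ext z
  simp only [mem_img]
  constructor
  · rintro ⟨y, hy, rfl⟩
    exact ⟨e y, ⟨y, hy, rfl⟩, rfl⟩
  · rintro ⟨y, ⟨w, hw, h⟩, rfl⟩
    have : y = e w := Subtype.ext h.symm
    exact ⟨w, hw, by rw [this]; rfl⟩

theorem img_symm_img {P Q X : Subgroup S} (e : P ≃* Q) (h : X ≤ P) : img e.symm (img e X) = X := by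
  rw [← img_trans]
  have : e.trans e.symm = MulEquiv.refl P := by ext x; simp
  rw [this, img_refl h]

theorem img_le {P Q : Subgroup S} (e : P ≃* Q) (X : Subgroup S) : img e X ≤ Q := by
  intro z hz
  obtain ⟨y, hy, rfl⟩ := mem_img.1 hz
  exact (e y).2

/-- The action of `e : P ≃* Q` on subgroups of `Aut(P)`. -/
def mapA {P Q : Type} [Group P] [Group Q] (e : P ≃* Q) (X : Subgroup (MulAut P)) :
    Subgroup (MulAut Q) := X.map (MulAut.congr e).toMonoidHom

theorem mem_mapA {P Q : Type} [Group P] [Group Q] {e : P ≃* Q} {X : Subgroup (MulAut P)}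
    {β : MulAut Q} : β ∈ mapA e X ↔ ∃ α ∈ X, MulAut.congr e α = β := Iff.rfl

theorem mapA_refl {P : Type} [Group P] (X : Subgroup (MulAut P)) : mapA (MulEquiv.refl P) X = X := by
  ext β; rw [mem_mapA]
  constructor
  · rintro ⟨α, hα, rfl⟩; exact hα
  · intro h; exact ⟨β, h, rfl⟩

theorem mapA_trans {P Q R : Type} [Group P] [Group Q] [Group R] (e : P ≃* Q) (f : Q ≃* R)
    (X : Subgroup (MulAut P)) : mapA (e.trans f) X = mapA f (mapA e X) := by
  ext β
  simp only [mem_mapA]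
  constructor
  · rintro ⟨α, hα, rfl⟩; exact ⟨_, ⟨α, hα, rfl⟩, rfl⟩
  · rintro ⟨_, ⟨α, hα, rfl⟩, rfl⟩; exact ⟨α, hα, rfl⟩

/-- Isomorphism classes of the triples `(Q, σ, x)`. -/
def qtSetoid (F : FusionSystem S) (ℓ : ℕ) : Setoid (QT F ℓ) where
  r a b := ∃ e ∈ F.Iso a.Q b.Q, mapA e '' a.σ = b.σ ∧ e a.x = b.x
  iseqv := by
    refine ⟨fun a => ⟨_, F.iso_refl _, ?_, rfl⟩, ?_, ?_⟩
    · have : (mapA (MulEquiv.refl a.Q)) = id := funext mapA_refl
      rw [this, Set.image_id]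
    · rintro a b ⟨e, he, h1, h2⟩
      refine ⟨e.symm, F.iso_symm he, ?_, by rw [← h2]; simp⟩
      rw [← h1, ← Set.image_comp]
      have : mapA e.symm ∘ mapA e = id := by
        funext X; rw [Function.comp_apply, ← mapA_trans]
        have : e.trans e.symm = MulEquiv.refl a.Q := by ext x; simp
        rw [this, mapA_refl]; rfl
      rw [this, Set.image_id]
    · rintro a b c ⟨e, he, h1, h2⟩ ⟨f, hf, h3, h4⟩
      refine ⟨e.trans f, F.iso_trans he hf, ?_, by rw [MulEquiv.trans_apply, h2, h4]⟩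
      have : mapA (e.trans f) = mapA f ∘ mapA e := by funext X; exact mapA_trans e f X
      rw [this, Set.image_comp, h1, h3]

/-- Isomorphism classes of the triples `(P, τ, x)`. -/
def dtSetoid (F : FusionSystem S) : Setoid (DT F) where
  r a b := ∃ e ∈ F.Iso a.P b.P, img e '' a.τ = b.τ ∧ e a.x = b.x
  iseqv := by
    refine ⟨fun a => ⟨_, F.iso_refl _, ?_, rfl⟩, ?_, ?_⟩
    · ext X
      constructor
      · rintro ⟨Y, hY, rfl⟩; rw [img_refl (a.le Y hY)]; exact hY
      · intro hX; exact ⟨X, hX, img_refl (a.le X hX)⟩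
    · rintro a b ⟨e, he, h1, h2⟩
      refine ⟨e.symm, F.iso_symm he, ?_, by rw [← h2]; simp⟩
      rw [← h1, ← Set.image_comp]
      ext X
      constructor
      · rintro ⟨Y, hY, rfl⟩; rw [Function.comp_apply, img_symm_img e (a.le Y hY)]; exact hY
      · intro hX; exact ⟨X, hX, img_symm_img e (a.le X hX)⟩
    · rintro a b c ⟨e, he, h1, h2⟩ ⟨f, hf, h3, h4⟩
      refine ⟨e.trans f, F.iso_trans he hf, ?_, by rw [MulEquiv.trans_apply, h2, h4]⟩
      have : img (e.trans f) = img f ∘ img e := by funext X; exact img_trans e f X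
      rw [this, Set.image_comp, h1, h3]

/-- Isomorphism classes of the pairs `(P, x)`. -/
def ztSetoid (F : FusionSystem S) : Setoid (ZT F) where
  r a b := ∃ e ∈ F.Iso a.P b.P, e a.x = b.x
  iseqv := by
    refine ⟨fun a => ⟨_, F.iso_refl _, rfl⟩, ?_, ?_⟩
    · rintro a b ⟨e, he, h2⟩
      exact ⟨e.symm, F.iso_symm he, by rw [← h2]; simp⟩
    · rintro a b c ⟨e, he, h2⟩ ⟨f, hf, h4⟩
      exact ⟨e.trans f, F.iso_trans he hf, by rw [MulEquiv.trans_apply, h2, h4]⟩

instance qt_finite (F : FusionSystem S) (ℓ : ℕ) [Finite S] : Finite (QT F ℓ) := by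
  have : ∀ Q : Subgroup S, Finite (MulAut Q) := fun Q =>
    Finite.of_injective (fun e : MulAut Q => (e : Q → Q)) DFunLike.coe_injective
  refine Finite.of_injective
    (fun t => (⟨t.Q, t.σ, t.x⟩ : Σ Q : Subgroup S, Set (Subgroup (MulAut Q)) × Q)) ?_
  rintro ⟨Q, σ, x, _⟩ ⟨Q', σ', x', _⟩ h
  simp only [Sigma.mk.injEq] at h
  obtain ⟨rfl, h⟩ := h
  simp only [heq_eq_eq, Prod.mk.injEq] at h
  obtain ⟨rfl, rfl⟩ := h
  rfl

instance dt_finite (F : FusionSystem S) [Finite S] : Finite (DT F) := by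
  refine Finite.of_injective
    (fun t => (⟨t.P, t.τ, t.x⟩ : Σ P : Subgroup S, Set (Subgroup S) × P)) ?_
  rintro ⟨Q, σ, x, _⟩ ⟨Q', σ', x', _⟩ h
  simp only [Sigma.mk.injEq] at h
  obtain ⟨rfl, h⟩ := h
  simp only [heq_eq_eq, Prod.mk.injEq] at h
  obtain ⟨rfl, rfl⟩ := h
  rfl

instance zt_finite (F : FusionSystem S) [Finite S] : Finite (ZT F) := by
  refine Finite.of_injective (fun t => (⟨t.P, t.x⟩ : Σ P : Subgroup S, P)) ?_
  rintro ⟨Q, x, _⟩ ⟨Q', x', _⟩ h
  simp only [Sigma.mk.injEq] at h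
  obtain ⟨rfl, h⟩ := h
  simp only [heq_eq_eq] at h
  obtain rfl := h
  rfl

end Pool.FS95
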