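import Pool.Agent.LibFS95.Defs

/-! General lemmas on `clsum`. -/

set_option autoImplicit false
noncomputable section
open MulAction
namespace Pool.FS95

theorem clsum_congr {X : Type*} {r : Setoid X} {f g : X → ℤ} (h : ∀ x, f x = g x) :
    clsum r f = clsum r g := by
  have : f = g := funext h
  rw [this]

theorem clsum_eq_lift {X : Type*} (r : Setoid X) (f : X → ℤ) (hf : ∀ x x', r x x' → f x = f x') :
    clsum r f = ∑ᶠ q : Quotient r, Quotient.lift f hf q := by
  unfold clsum
  apply finsum_congr
  intro q
  conv_rhs => rw [← Quotient.out_eq q]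
  rfl

theorem clsum_add {X : Type*} {r : Setoid X} [Finite (Quotient r)] (f g : X → ℤ) :
    clsum r (fun x => f x + g x) = clsum r f + clsum r g :=
  finsum_add_distrib (Set.toFinite _) (Set.toFinite _)

theorem clsum_sub {X : Type*} {r : Setoid X} [Finite (Quotient r)] (f g : X → ℤ) :
    clsum r (fun x => f x - g x) = clsum r f - clsum r g :=
  finsum_sub_distrib (Set.toFinite _) (Set.toFinite _)

theorem clsum_mul_left {X : Type*} {r : Setoid X} [Finite (Quotient r)] (c : ℤ) (f : X → ℤ) :
    clsum r (fun x => c * f x) = c * clsum r f :=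
  (mul_finsum _ c).symm

theorem clsum_zero {X : Type*} {r : Setoid X} {f : X → ℤ} (h : ∀ x, f x = 0) : clsum r f = 0 := by
  unfold clsum
  rw [finsum_congr (fun q => h _), finsum_zero]

end Pool.FS95
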