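import Pool.Agent.LibFS95.Z1
import Pool.Agent.LibFS95.G4

/-!
Row K1: the number of weights of a subgroup `A` of `H`, weighted form.

Plan. `A` acts on `{Q : Subgroup A // IsPGroup ℓ Q}` by `cj`, `lsubSetoid` is the orbit relation, the stabiliser of `Q` is `normalizer Q`; G4 gives
`|A| * clsum = ∑_Q |N_A(Q)| z(N_A(Q)/Q)` (invariance of the summand: conjugate subgroups have isomorphic `NQ`, `zproj_iso`). The `ℓ`-subgroups of `A` correspond to the `ℓ`-subgroups `Q ≤ A` of `H`
(`Q ↦ Q.map A.subtype`, inverse `subgroupOf`), and `N_A(Q)` to `normalizer Q ⊓ A` (only the cardinality is needed).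
-/

set_option autoImplicit false
noncomputable section
open MulAction
namespace Pool.FS95

private theorem k1_NQ {G : Type} [Group G] (h : G) (Q : Subgroup G) :
    Nonempty (NQ Q ≃* NQ (cj h Q)) := by
  let eN : ↥(Subgroup.normalizer (Q : Set G)) ≃* ↥(Subgroup.normalizer ((cj h Q : Subgroup G) : Set G)) :=
    ((MulAut.conj h).subgroupMap (Subgroup.normalizer (Q : Set G))).trans
      (MulEquiv.subgroupCongr (Subgroup.map_equiv_normalizer_eq Q (MulAut.conj h)))
  have heN : ∀ x, ((eN x : ↥(Subgroup.normalizer ((cj h Q : Subgroup G) : Set G))) : G) =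
      h * x * h⁻¹ := fun x => rfl
  refine ⟨QuotientGroup.congr _ _ eN ?_⟩
  ext y
  rw [Subgroup.mem_map, Subgroup.mem_subgroupOf, mem_cj]
  constructor
  · rintro ⟨x, hx, rfl⟩
    exact ⟨x, Subgroup.mem_subgroupOf.1 hx, (heN x).symm⟩
  · rintro ⟨x, hx, hxy⟩
    refine ⟨⟨x, Subgroup.le_normalizer hx⟩, Subgroup.mem_subgroupOf.2 hx, ?_⟩
    apply Subtype.ext
    rw [← hxy]
    exact heN _

private theorem k1_norm {G : Type} [Group G] [Finite G] (h : G) (Q : Subgroup G) :
    cj h Q = Q ↔ h ∈ Subgroup.normalizer (Q : Set G) := by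
  rw [Subgroup.mem_normalizer_iff]
  constructor
  · intro hQ x
    constructor
    · intro hx
      rw [← hQ, mem_cj]
      exact ⟨x, hx, rfl⟩
    · intro hx
      rw [← hQ, mem_cj] at hx
      obtain ⟨y, hy, hyx⟩ := hx
      have : y = x := by
        have h1 := mul_right_cancel hyx
        exact mul_left_cancel h1
      rwa [← this]
  · intro hQ
    ext z
    rw [mem_cj]
    constructor
    · rintro ⟨x, hx, rfl⟩
      exact (hQ x).1 hx
    · intro hz
      refine ⟨h⁻¹ * z * h, ?_, by group⟩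
      rw [hQ]
      have : h * (h⁻¹ * z * h) * h⁻¹ = z := by group
      rwa [this]

/-- the action by conjugation on the `ℓ`-subgroups -/
private def k1_act (ℓ : ℕ) (G : Type) [Group G] : MulAction G {Q : Subgroup G // IsPGroup ℓ Q} where
  smul h Q := ⟨cj h Q.1, Q.2.map _⟩
  one_smul Q := Subtype.ext (cj_one _)
  mul_smul g h Q := Subtype.ext (cj_mul g h _)

private theorem k1_count (ℓ : ℕ) (k : Type) [Field k] (G : Type) [Group G] [Finite G] :
    (Nat.card G : ℤ) * clsum (lsubSetoid ℓ G) (fun Q => zproj k (NQ Q.1)) =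
      ∑ᶠ Q : {Q : Subgroup G // IsPGroup ℓ Q},
        (Nat.card ↥(Subgroup.normalizer (Q.1 : Set G)) : ℤ) * zproj k (NQ Q.1) := by
  letI := k1_act ℓ G
  have hsmul : ∀ (h : G) (Q : {Q : Subgroup G // IsPGroup ℓ Q}), (h • Q).1 = cj h Q.1 :=
    fun _ _ => rfl
  have hset : lsubSetoid ℓ G = orbitRel G {Q : Subgroup G // IsPGroup ℓ Q} := by
    ext Q R
    constructor
    · rintro ⟨g, hg⟩
      refine ⟨g⁻¹, Subtype.ext ?_⟩
      change cj g⁻¹ R.1 = Q.1
      rw [← hg, ← cj_mul, inv_mul_cancel, cj_one]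
    · rintro ⟨g, hg⟩
      refine ⟨g⁻¹, ?_⟩
      have hg' : cj g R.1 = Q.1 := congrArg Subtype.val hg
      rw [← hg', ← cj_mul, inv_mul_cancel, cj_one]
  rw [hset, card_mul_clsum]
  · refine finsum_congr fun Q => ?_
    congr 2
    have h1 : (stabilizer G Q : Subgroup G) = Subgroup.normalizer (Q.1 : Set G) := by
      ext h
      rw [mem_stabilizer_iff, ← k1_norm, ← hsmul]
      exact Subtype.ext_iff
    rw [h1]
  · intro h Q
    exact (zproj_iso k _ _ (k1_NQ h Q.1)).symm

theorem card_mul_weights (ℓ : ℕ) (k : Type) [Field k] (H : Type) [Group H] [Finite H]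
    (A : Subgroup H) :
    (Nat.card A : ℤ) * clsum (lsubSetoid ℓ ↥A) (fun Q => zproj k (NQ Q.1)) =
      ∑ᶠ Q : {Q : Subgroup H // IsPGroup ℓ Q ∧ Q ≤ A},
        (Nat.card ↥(Subgroup.normalizer (Q.1 : Set H) ⊓ A) : ℤ) * zproj k (NQ (Q.1.subgroupOf A)) := by
  rw [k1_count ℓ k ↥A]
  symm
  have hbij : Function.Bijective
      (fun Q : {Q : Subgroup H // IsPGroup ℓ Q ∧ Q ≤ A} =>
        (⟨Q.1.subgroupOf A, Q.2.1.comap_subtype⟩ : {Q : Subgroup ↥A // IsPGroup ℓ Q})) := by
    constructor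
    · intro Q Q' h
      have h1 : Q.1.subgroupOf A = Q'.1.subgroupOf A := congrArg Subtype.val h
      apply Subtype.ext
      rw [← Subgroup.map_subgroupOf_eq_of_le Q.2.2, h1, Subgroup.map_subgroupOf_eq_of_le Q'.2.2]
    · intro P
      refine ⟨⟨P.1.map A.subtype, P.2.map _, Subgroup.map_subtype_le _⟩, Subtype.ext ?_⟩
      change (P.1.map A.subtype).subgroupOf A = P.1
      rw [Subgroup.subgroupOf, Subgroup.comap_map_eq_self_of_injective A.subtype_injective]
  refine finsum_eq_of_bijective _ hbij fun Q => ?_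
  congr 2
  refine Nat.card_congr
    { toFun := fun h => ⟨⟨h.1, h.2.2⟩, ?_⟩
      invFun := fun a => ⟨a.1.1, ?_, a.1.2⟩
      left_inv := fun h => rfl
      right_inv := fun a => rfl }
  · have h1 := Subgroup.mem_normalizer_iff.1 h.2.1
    rw [Subgroup.mem_normalizer_iff]
    intro x
    rw [Subgroup.mem_subgroupOf, Subgroup.mem_subgroupOf]
    exact h1 x
  · have h1 := Subgroup.mem_normalizer_iff.1 a.2
    change (a.1.1 : H) ∈ Subgroup.normalizer (Q.1 : Set H)
    rw [Subgroup.mem_normalizer_iff]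
    intro x
    by_cases hx : x ∈ A
    · exact h1 ⟨x, hx⟩
    · constructor
      · intro h2
        exact absurd (Q.2.2 h2) hx
      · intro h2
        have h3 := Q.2.2 h2
        exact absurd ((A.mul_mem_cancel_left a.1.2).1 ((A.mul_mem_cancel_right
          (A.inv_mem a.1.2)).1 h3)) hx

end Pool.FS95
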