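import Pool.Agent.LibFS95.K1
import Pool.Agent.LibFS95.K2
import Pool.Agent.LibFS95.G1

/-!
Row K3: the Knoerr-Robinson identity `∑_σ (-1)^{|σ|} (number of weights of H_σ) = z(kH)`. STRONG.

Plan. Multiply by `|H| ≠ 0`; G4 and K1: `|H| * LHS = ∑_σ ∑_{Q ≤ H_σ} (-1)^{len σ} F(σ,Q)`, `F(σ,Q) = |N_H(Q) ⊓ H_σ| z(NQ (Q.subgroupOf H_σ))` (invariance of the summand under `H`: isomorphic stabilisers; the number of weights is
invariant under isomorphism: prove it by `clsum_transfer`, or use `card_mul_weights` with `A = H_σ`, `A = H_{hσ}` and conjugate).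
Let `T = sSup σ` (a member, `T ≤ H_σ` as `T` normalises all members, and `H_σ` normalises `T`). If `¬ T ≤ Q` then `F = 0` (`zproj_NQ_zero`). For the pairs with `T ≤ Q`, `Q ≠ ⊥`: toggle `Q` in `σ` (`σ' = σ \ {Q}` if `Q ∈ σ` (then `Q = T`), else
`insert Q σ`): `Q ≤ H_σ` normalises all members, so this is a normal chain; `H_{σ'} ⊓ N(Q) = H_σ ⊓ N(Q)`, `Q ≤ H_{σ'}`, so `F` is unchanged (`zproj_NQ_congr`), the sign changes, `T' ≤ Q` again. So these pairs cancel. There remain the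
pairs with `Q = ⊥`, `T = ⊥`, i.e. `σ = {⊥}`, `H_σ = ⊤`: contribution `|H| z(kH)` (`zproj_NQ_bot`, `zproj_iso`).
-/

set_option autoImplicit false
noncomputable section
open MulAction
namespace Pool.FS95

private theorem k3_NQ {G G' : Type} [Group G] [Group G'] (e : G ≃* G') (Q : Subgroup G)
    (Q' : Subgroup G') (h : ∀ x, x ∈ Q ↔ e x ∈ Q') : Nonempty (NQ Q ≃* NQ Q') := by
  have hN : ∀ x, x ∈ Subgroup.normalizer (Q : Set G) ↔
      e x ∈ Subgroup.normalizer (Q' : Set G') := by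
    intro x
    rw [Subgroup.mem_normalizer_iff, Subgroup.mem_normalizer_iff]
    constructor
    · intro hx y
      have h1 := hx (e.symm y)
      have h2 := h (e.symm y)
      have h3 := h (x * e.symm y * x⁻¹)
      simp only [MulEquiv.apply_symm_apply, map_mul, map_inv] at h2 h3
      rw [← h2, h1, h3]
    · intro hx y
      have h1 := hx (e y)
      have h3 := h (x * y * x⁻¹)
      simp only [map_mul, map_inv] at h3
      rw [h y, h1, h3]
  let E : ↥(Subgroup.normalizer (Q : Set G)) ≃* ↥(Subgroup.normalizer (Q' : Set G')) :=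
    { toFun := fun x => ⟨e x.1, (hN x.1).1 x.2⟩
      invFun := fun y => ⟨e.symm y.1, (hN _).2 (by simp)⟩
      left_inv := fun x => by simp
      right_inv := fun y => by simp
      map_mul' := fun x y => by
        apply Subtype.ext
        simp }
  refine ⟨QuotientGroup.congr _ _ E ?_⟩
  ext y
  rw [Subgroup.mem_map, Subgroup.mem_subgroupOf]
  constructor
  · rintro ⟨x, hx, rfl⟩
    exact (h x.1).1 hx
  · intro hy
    refine ⟨E.symm y, ?_, by simp⟩
    rw [Subgroup.mem_subgroupOf]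
    have h1 : e (E.symm y).1 = y.1 := by
      have := E.apply_symm_apply y
      exact congrArg Subtype.val this
    rw [h, h1]
    exact hy

private theorem k3_map_cj {A A' : Type} [Group A] [Group A'] (e : A ≃* A') (g : A)
    (Q : Subgroup A) : cj (e g) (Q.map e.toMonoidHom) = (cj g Q).map e.toMonoidHom := by
  ext z
  rw [mem_cj, Subgroup.mem_map]
  constructor
  · rintro ⟨x, hx, rfl⟩
    obtain ⟨y, hy, rfl⟩ := Subgroup.mem_map.mp hx
    exact ⟨g * y * g⁻¹, mem_cj.2 ⟨y, hy, rfl⟩, by simp⟩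
  · rintro ⟨x, hx, rfl⟩
    obtain ⟨y, hy, rfl⟩ := mem_cj.1 hx
    exact ⟨e y, Subgroup.mem_map.mpr ⟨y, hy, rfl⟩, by simp⟩

private theorem k3_inv (ℓ : ℕ) (k : Type) [Field k] (A : Type) [Group A] :
    ∀ Q R : {Q : Subgroup A // IsPGroup ℓ Q}, lsubSetoid ℓ A Q R →
      zproj k (NQ Q.1) = zproj k (NQ R.1) := by
  rintro Q R ⟨g, hg⟩
  refine zproj_iso k _ _ (k3_NQ (MulAut.conj g) Q.1 R.1 fun x => ?_)
  rw [← hg, mem_cj]
  constructor
  · intro hx
    exact ⟨x, hx, rfl⟩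
  · rintro ⟨y, hy, hyx⟩
    have : y = x := (MulAut.conj g).injective hyx
    rw [← this]
    exact hy

private theorem k3_weights (ℓ : ℕ) (k : Type) [Field k] (A A' : Type) [Group A] [Group A']
    (e : A ≃* A') : clsum (lsubSetoid ℓ A) (fun Q => zproj k (NQ Q.1)) =
      clsum (lsubSetoid ℓ A') (fun Q => zproj k (NQ Q.1)) := by
  refine clsum_transfer (lsubSetoid ℓ A) (lsubSetoid ℓ A') _ _ (k3_inv ℓ k A) (k3_inv ℓ k A')
    (fun Q => ⟨Q.1.map e.toMonoidHom, Q.2.map _⟩) ?_ ?_ ?_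
  · intro Q R
    constructor
    · rintro ⟨g, hg⟩
      refine ⟨e g, ?_⟩
      change cj (e g) (Q.1.map e.toMonoidHom) = R.1.map e.toMonoidHom
      rw [k3_map_cj, hg]
    · rintro ⟨g, hg⟩
      refine ⟨e.symm g, ?_⟩
      change cj g (Q.1.map e.toMonoidHom) = R.1.map e.toMonoidHom at hg
      rw [← e.apply_symm_apply g, k3_map_cj] at hg
      exact Subgroup.map_injective e.injective hg
  · intro y _
    refine ⟨⟨y.1.map e.symm.toMonoidHom, y.2.map _⟩, 1, ?_⟩
    rw [cj_one]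
    change (y.1.map e.symm.toMonoidHom).map e.toMonoidHom = y.1
    rw [Subgroup.map_map]
    have h1 : e.toMonoidHom.comp e.symm.toMonoidHom = MonoidHom.id A' := by
      ext x
      simp
    rw [h1, Subgroup.map_id]
  · intro Q
    refine zproj_iso k _ _ (k3_NQ e Q.1 _ fun x => ?_)
    change x ∈ Q.1 ↔ e x ∈ Q.1.map e.toMonoidHom
    rw [Subgroup.mem_map]
    constructor
    · intro hx
      exact ⟨x, hx, rfl⟩
    · rintro ⟨y, hy, hyx⟩
      have : y = x := e.injective hyx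
      rw [← this]
      exact hy

private theorem k3_len {ℓ : ℕ} {H : Type} [Group H] (h : H) (σ : NChain ℓ H) :
    (h • σ).len = σ.len := by
  unfold NChain.len
  rw [smul_val, Set.ncard_image_of_injective]
  intro X Y hXY
  exact le_antisymm ((cj_le_cj h).1 hXY.le) ((cj_le_cj h).1 hXY.ge)

/-- Toggle `Q` in `σ`. -/
private def k3_tg {H : Type} [Group H] (Q : Subgroup H) (σ : Set (Subgroup H)) :
    Set (Subgroup H) := {X | (X ∈ σ ∧ X ≠ Q) ∨ (X = Q ∧ Q ∉ σ)}

private theorem k3_tg_tg {H : Type} [Group H] (Q : Subgroup H) (σ : Set (Subgroup H)) :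
    k3_tg Q (k3_tg Q σ) = σ := by
  ext X
  by_cases hX : X = Q
  · subst hX
    simp [k3_tg]
  · simp [k3_tg, hX]

private theorem k3_tg_mem {H : Type} [Group H] {Q : Subgroup H} {σ : Set (Subgroup H)}
    (h : Q ∈ σ) : k3_tg Q σ = σ \ {Q} := by
  ext X
  simp [k3_tg, h]

private theorem k3_tg_notMem {H : Type} [Group H] {Q : Subgroup H} {σ : Set (Subgroup H)}
    (h : Q ∉ σ) : k3_tg Q σ = insert Q σ := by
  ext X
  simp only [k3_tg, Set.mem_setOf_eq, Set.mem_insert_iff]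
  constructor
  · rintro (⟨h1, _⟩ | ⟨h1, _⟩)
    · exact Or.inr h1
    · exact Or.inl h1
  · rintro (h1 | h1)
    · exact Or.inr ⟨h1, h⟩
    · exact Or.inl ⟨h1, fun h2 => h (h2 ▸ h1)⟩

/-- The relevant pairs. -/
private def k3_P (ℓ : ℕ) {H : Type} [Group H] (x : NChain ℓ H × Subgroup H) : Prop :=
  IsPGroup ℓ x.2 ∧ x.2 ≤ stabilizer H x.1 ∧ ∀ X ∈ x.1.1, X ≤ x.2

private theorem k3_tg_chain {ℓ : ℕ} {H : Type} [Group H] [Finite H]
    {x : NChain ℓ H × Subgroup H} (hx : k3_P ℓ x) (hb : x.2 ≠ ⊥) :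
    IsNChain ℓ (k3_tg x.2 x.1.1) := by
  obtain ⟨⟨σ, hσ⟩, Q⟩ := x
  obtain ⟨h1, h2, h3⟩ := hx
  simp only at h1 h2 h3 hb ⊢
  have hnorm : ∀ X ∈ σ, Q ≤ Subgroup.normalizer (X : Set H) := fun X hX q hq =>
    mem_stab_normalizer (h2 hq) hX
  refine ⟨Or.inl ⟨hσ.bot_mem, hb.symm⟩, ?_, ?_, ?_⟩
  · rintro X (⟨hX, _⟩ | ⟨rfl, _⟩)
    · exact hσ.isPGroup X hX
    · exact h1
  · rintro X (⟨hX, _⟩ | ⟨rfl, _⟩) Y (⟨hY, _⟩ | ⟨rfl, _⟩)
    · exact hσ.total X hX Y hY
    · exact Or.inl (h3 X hX)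
    · exact Or.inr (h3 Y hY)
    · exact Or.inl le_rfl
  · rintro X (⟨hX, _⟩ | ⟨rfl, _⟩) Y (⟨hY, _⟩ | ⟨rfl, _⟩) hXY
    · exact hσ.normal X hX Y hY hXY
    · exact hnorm X hX
    · have : X = Y := le_antisymm hXY (h3 Y hY)
      rw [this]
      exact Subgroup.le_normalizer
    · exact Subgroup.le_normalizer

private theorem k3_stab {ℓ : ℕ} {H : Type} [Group H] [Finite H] (Q : Subgroup H)
    (σ τ : NChain ℓ H) (h : τ.1 = k3_tg Q σ.1) {g : H}
    (hg : g ∈ Subgroup.normalizer (Q : Set H)) : g ∈ stabilizer H σ ↔ g ∈ stabilizer H τ := by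
  rw [mem_stab_iff', mem_stab_iff', h]
  constructor
  · rintro h1 X (⟨hX, _⟩ | ⟨rfl, _⟩)
    · exact h1 X hX
    · exact hg
  · intro h1 X hX
    by_cases hXQ : X = Q
    · rw [hXQ]
      exact hg
    · exact h1 X (Or.inl ⟨hX, hXQ⟩)

/-- The summand. -/
private def k3_F (k : Type) [Field k] {ℓ : ℕ} {H : Type} [Group H] (σ : NChain ℓ H)
    (Q : Subgroup H) : ℤ :=
  (Nat.card ↥(Subgroup.normalizer (Q : Set H) ⊓ stabilizer H σ) : ℤ) *
    zproj k (NQ (Q.subgroupOf (stabilizer H σ)))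

private theorem k3_F_tog (k : Type) [Field k] {ℓ : ℕ} {H : Type} [Group H] [Finite H]
    (Q : Subgroup H) (σ τ : NChain ℓ H) (h : τ.1 = k3_tg Q σ.1) (h1 : Q ≤ stabilizer H σ)
    (h2 : Q ≤ stabilizer H τ) : k3_F k σ Q = k3_F k τ Q := by
  have h3 : Subgroup.normalizer (Q : Set H) ⊓ stabilizer H σ =
      Subgroup.normalizer (Q : Set H) ⊓ stabilizer H τ := by
    ext g
    rw [Subgroup.mem_inf, Subgroup.mem_inf]
    constructor
    · rintro ⟨hg, hs⟩
      exact ⟨hg, (k3_stab Q σ τ h hg).1 hs⟩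
    · rintro ⟨hg, hs⟩
      exact ⟨hg, (k3_stab Q σ τ h hg).2 hs⟩
  unfold k3_F
  rw [h3, zproj_NQ_congr k H _ _ Q h1 h2 h3]

private theorem k3_sign {ℓ : ℕ} {H : Type} [Group H] [Finite H] {Q : Subgroup H}
    {σ τ : NChain ℓ H} (h : τ.1 = k3_tg Q σ.1) :
    ((-1 : ℤ)) ^ τ.len = -(-1) ^ σ.len := by
  have hfin : σ.1.Finite := Set.toFinite _
  have hpos : 1 ≤ σ.1.ncard := (Set.ncard_pos hfin).2 ⟨⊥, σ.2.bot_mem⟩
  have hposτ : 1 ≤ τ.1.ncard := (Set.ncard_pos (Set.toFinite _)).2 ⟨⊥, τ.2.bot_mem⟩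
  unfold NChain.len
  by_cases hQ : Q ∈ σ.1
  · rw [k3_tg_mem hQ] at h
    have h1 : τ.1.ncard = σ.1.ncard - 1 := by
      rw [h]
      exact Set.ncard_diff_singleton_of_mem hQ
    have h2 : σ.1.ncard - 1 = (τ.1.ncard - 1) + 1 := by omega
    rw [h2, pow_succ]
    ring
  · rw [k3_tg_notMem hQ] at h
    have h1 : τ.1.ncard = σ.1.ncard + 1 := by
      rw [h]
      exact Set.ncard_insert_of_notMem hQ hfin
    have h2 : τ.1.ncard - 1 = (σ.1.ncard - 1) + 1 := by omega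
    rw [h2, pow_succ]
    ring

/-- The toggled chain. -/
private def k3_tog {ℓ : ℕ} {H : Type} [Group H] [Finite H]
    (x : NChain ℓ H × Subgroup H) (hx : k3_P ℓ x) (hb : x.2 ≠ ⊥) : NChain ℓ H :=
  ⟨k3_tg x.2 x.1.1, k3_tg_chain hx hb⟩

open Classical in
private theorem k3_cancel (ℓ : ℕ) (k : Type) [Field k] (H : Type) [Group H] [Finite H]
    [Fintype (NChain ℓ H × Subgroup H)] :
    ∑ x ∈ (Finset.univ.filter fun x : NChain ℓ H × Subgroup H => k3_P ℓ x ∧ x.2 ≠ ⊥),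
      (-1) ^ x.1.len * k3_F k x.1 x.2 = 0 := by
  have hmem : ∀ x ∈ (Finset.univ.filter fun x : NChain ℓ H × Subgroup H =>
      k3_P ℓ x ∧ x.2 ≠ ⊥), k3_P ℓ x ∧ x.2 ≠ ⊥ := fun x hx => (Finset.mem_filter.mp hx).2
  have hP : ∀ (x : NChain ℓ H × Subgroup H) (hx : k3_P ℓ x) (hb : x.2 ≠ ⊥),
      k3_P ℓ (k3_tog x hx hb, x.2) := by
    intro x hx hb
    refine ⟨hx.1, fun q hq => ?_, ?_⟩
    · exact (k3_stab x.2 x.1 (k3_tog x hx hb) rfl
        (Subgroup.le_normalizer hq)).1 (hx.2.1 hq)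
    · rintro X (⟨hX, _⟩ | ⟨rfl, _⟩)
      · exact hx.2.2 X hX
      · exact le_rfl
  refine Finset.sum_involution
    (fun x hx => (k3_tog x (hmem x hx).1 (hmem x hx).2, x.2)) ?_ ?_ ?_ ?_
  · intro x hx
    have hP' := hP x (hmem x hx).1 (hmem x hx).2
    simp only
    rw [k3_sign (Q := x.2) (σ := x.1) (τ := k3_tog x (hmem x hx).1 (hmem x hx).2) rfl,
      ← k3_F_tog k x.2 x.1 (k3_tog x (hmem x hx).1 (hmem x hx).2) rfl (hmem x hx).1.2.1
      hP'.2.1]
    ring
  · intro x hx _ heq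
    have h1 : k3_tg x.2 x.1.1 = x.1.1 := congrArg (fun y : NChain ℓ H × Subgroup H => y.1.1) heq
    by_cases hQ : x.2 ∈ x.1.1
    · rw [k3_tg_mem hQ] at h1
      rw [← h1] at hQ
      exact hQ.2 rfl
    · rw [k3_tg_notMem hQ] at h1
      apply hQ
      rw [← h1]
      exact Set.mem_insert _ _
  · intro x hx
    rw [Finset.mem_filter]
    exact ⟨Finset.mem_univ _, hP x (hmem x hx).1 (hmem x hx).2, (hmem x hx).2⟩
  · intro x hx
    apply Prod.ext
    · apply Subtype.ext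
      exact k3_tg_tg x.2 x.1.1
    · rfl

theorem kr_sum (ℓ : ℕ) [Fact ℓ.Prime] (k : Type) [Field k] [CharP k ℓ] (H : Type) [Group H]
    [Finite H] :
    clsum (orbitRel H (NChain ℓ H)) (fun σ => (-1) ^ σ.len *
      clsum (lsubSetoid ℓ ↥(stabilizer H σ)) fun Q => zproj k (NQ Q.1)) = zproj k H := by
  classical
  have hHpos : (Nat.card H : ℤ) ≠ 0 := by
    have : 0 < Nat.card H := Nat.card_pos
    exact_mod_cast this.ne'
  apply mul_left_cancel₀ hHpos
  rw [card_mul_clsum]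
  swap
  · intro h σ
    rw [k3_len, k3_weights ℓ k _ _ (stabilizerEquivStabilizer (g := h) (a := σ) (b := h • σ) rfl)]
  haveI : Fintype (NChain ℓ H) := Fintype.ofFinite _
  haveI : Fintype (Subgroup H) := Fintype.ofFinite _
  rw [finsum_eq_sum_of_fintype]
  -- the sum over pairs
  have h1 : ∀ σ : NChain ℓ H, (Nat.card (stabilizer H σ) : ℤ) * ((-1) ^ σ.len *
      clsum (lsubSetoid ℓ ↥(stabilizer H σ)) fun Q => zproj k (NQ Q.1)) =
      ∑ Q : Subgroup H, if IsPGroup ℓ Q ∧ Q ≤ stabilizer H σ then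
        (-1) ^ σ.len * k3_F k σ Q else 0 := by
    intro σ
    have h2 := card_mul_weights ℓ k H (stabilizer H σ)
    rw [mul_left_comm, h2, finsum_eq_sum_of_fintype, ← Finset.sum_filter, Finset.mul_sum]
    exact (Finset.sum_subtype (Finset.univ.filter fun Q : Subgroup H =>
      IsPGroup ℓ Q ∧ Q ≤ stabilizer H σ) (fun Q => by simp)
      (fun Q => (-1) ^ σ.len * k3_F k σ Q)).symm
  rw [Finset.sum_congr rfl fun σ _ => h1 σ, ← Fintype.sum_prod_type']
  have h3 : ∀ x : NChain ℓ H × Subgroup H, (if IsPGroup ℓ x.2 ∧ x.2 ≤ stabilizer H x.1 then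
      (-1) ^ x.1.len * k3_F k x.1 x.2 else 0) =
      if k3_P ℓ x then (-1) ^ x.1.len * k3_F k x.1 x.2 else 0 := by
    intro x
    by_cases hx : k3_P ℓ x
    · rw [if_pos hx, if_pos ⟨hx.1, hx.2.1⟩]
    · rw [if_neg hx]
      by_cases hx2 : IsPGroup ℓ x.2 ∧ x.2 ≤ stabilizer H x.1
      · rw [if_pos hx2]
        have h4 : ∃ X ∈ x.1.1, ¬ X ≤ x.2 := by
          by_contra hcon
          push Not at hcon
          exact hx ⟨hx2.1, hx2.2, hcon⟩
        obtain ⟨X, hX, hXQ⟩ := h4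
        -- the largest member
        have hT := sSup_mem_of_total ⟨X, hX⟩ x.1.2.total
        have hTQ : ¬ sSup x.1.1 ≤ x.2 := fun h5 => hXQ ((le_sSup hX).trans h5)
        have hTs : sSup x.1.1 ≤ stabilizer H x.1 := by
          intro g hg
          rw [mem_stab_iff']
          intro Y hY
          exact x.1.2.normal Y hY _ hT (le_sSup hY) hg
        have hn : stabilizer H x.1 ≤ Subgroup.normalizer ((sSup x.1.1 : Subgroup H) : Set H) :=
          fun g hg => mem_stab_normalizer hg hT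
        have h5 := zproj_NQ_zero ℓ k H (stabilizer H x.1) (sSup x.1.1) x.2 hTs
          (x.1.2.isPGroup _ hT) hn hx2.1 hx2.2 hTQ
        unfold k3_F
        rw [h5]
        ring
      · rw [if_neg hx2]
  rw [Finset.sum_congr rfl fun x _ => h3 x, ← Finset.sum_filter,
    ← Finset.sum_filter_add_sum_filter_not _ (fun x : NChain ℓ H × Subgroup H => x.2 ≠ ⊥),
    Finset.filter_filter, Finset.filter_filter, k3_cancel, zero_add]
  -- the pair `({⊥}, ⊥)`
  have hbot : IsNChain ℓ ({⊥} : Set (Subgroup H)) := by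
    refine ⟨rfl, ?_, ?_, ?_⟩
    · rintro X rfl
      exact IsPGroup.of_bot
    · rintro X rfl Y rfl
      exact Or.inl le_rfl
    · rintro X rfl Y rfl _
      exact Subgroup.le_normalizer
  obtain ⟨σ₀, hσ₀⟩ : ∃ σ : NChain ℓ H, σ.1 = {⊥} := ⟨⟨{⊥}, hbot⟩, rfl⟩
  have hstab : stabilizer H σ₀ = ⊤ := by
    rw [eq_top_iff]
    intro g _
    rw [mem_stab_iff', hσ₀]
    rintro X rfl
    rw [Subgroup.mem_normalizer_iff]
    intro y
    simp [Subgroup.mem_bot]
  have hset : (Finset.univ.filter fun x : NChain ℓ H × Subgroup H => k3_P ℓ x ∧ ¬ x.2 ≠ ⊥) =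
      {(σ₀, (⊥ : Subgroup H))} := by
    ext x
    rw [Finset.mem_filter, Finset.mem_singleton]
    constructor
    · rintro ⟨-, hx, hb⟩
      rw [not_not] at hb
      apply Prod.ext
      · apply Subtype.ext
        rw [hσ₀]
        ext X
        constructor
        · intro hX
          have := hx.2.2 X hX
          rw [hb] at this
          exact le_bot_iff.mp this
        · rintro rfl
          exact x.1.2.bot_mem
      · exact hb
    · rintro rfl
      refine ⟨Finset.mem_univ _, ⟨IsPGroup.of_bot, bot_le, ?_⟩, not_not.mpr rfl⟩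
      simp only
      rw [hσ₀]
      rintro X rfl
      exact le_rfl
  rw [hset, Finset.sum_singleton]
  have hlen : σ₀.len = 0 := by
    unfold NChain.len
    rw [hσ₀]
    simp
  have hF : k3_F k σ₀ ⊥ = (Nat.card H : ℤ) * zproj k H := by
    unfold k3_F
    have e1 : Subgroup.normalizer (((⊥ : Subgroup H)) : Set H) ⊓ stabilizer H σ₀ = ⊤ := by
      rw [hstab, inf_top_eq, eq_top_iff]
      intro g _
      rw [Subgroup.mem_normalizer_iff]
      intro y
      simp [Subgroup.mem_bot]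
    have e2 : zproj k (NQ ((⊥ : Subgroup H).subgroupOf (stabilizer H σ₀))) = zproj k H := by
      rw [← zproj_NQ_bot k H]
      refine zproj_iso k _ _ (k3_NQ ((MulEquiv.subgroupCongr hstab).trans Subgroup.topEquiv)
        _ _ fun x => ?_)
      rw [Subgroup.mem_subgroupOf]
      exact Iff.rfl
    rw [e1, Subgroup.card_top, e2]
  simp only
  rw [hlen, hF, pow_zero, one_mul]

end Pool.FS95
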