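import Pool.Agent.LibFS95.K3
import Pool.Agent.LibFS95.C4
import Pool.Agent.LibFS95.G1

/-!
Row K4: consequences of the Knoerr-Robinson identity.

Plan. `zp_sub_zproj`: subtract `kr_sum` from the definition of `zp` (`clsum_sub`, finiteness of the quotient). `zp_eq_zproj_of_awc`: all `awcD` are 0 (`awcD_eq_zero_iff`), `clsum_zero`. `zp_sub_zproj_min`: a chain `σ ≠ {⊥}` has
`stabilizer H σ ≠ ⊤`, otherwise its top member is a non-trivial normal `ℓ`-subgroup of `H`; so only the class of `{⊥}` contributes, with stabiliser `⊤`, and `awcD ℓ k ↥⊤ = awcD ℓ k H` by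
`awcD_iso` (transport: `lreg_iso`, `zproj_iso`, `clsum_transfer` along `Subgroup.map`; include its proof here).
-/

set_option autoImplicit false
noncomputable section
open MulAction
namespace Pool.FS95

theorem k4_map_normalizer {G G' : Type} [Group G] [Group G'] (e : G ≃* G') (Q : Subgroup G)
    (x : G) : e x ∈ Subgroup.normalizer ((Q.map e.toMonoidHom : Subgroup G') : Set G') ↔
      x ∈ Subgroup.normalizer (Q : Set G) := by
  have hm : ∀ y : G, e y ∈ Q.map e.toMonoidHom ↔ y ∈ Q := by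
    intro y
    constructor
    · rintro ⟨z, hz, hzy⟩
      have : z = y := e.injective hzy
      rwa [this] at hz
    · intro hy
      exact ⟨y, hy, rfl⟩
  rw [Subgroup.mem_normalizer_iff, Subgroup.mem_normalizer_iff]
  constructor
  · intro h y
    have h1 := h (e y)
    rw [← map_mul, ← map_inv, ← map_mul, hm, hm] at h1
    exact h1
  · intro h y
    obtain ⟨z, rfl⟩ := e.surjective y
    rw [← map_mul, ← map_inv, ← map_mul, hm, hm]
    exact h z

theorem k4_NQ_map (k : Type) [Field k] {G G' : Type} [Group G] [Group G'] (e : G ≃* G')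
    (Q : Subgroup G) : zproj k (NQ Q) = zproj k (NQ (Q.map e.toMonoidHom)) := by
  apply zproj_iso k
  let f : ↥(Subgroup.normalizer (Q : Set G)) ≃*
      ↥(Subgroup.normalizer ((Q.map e.toMonoidHom : Subgroup G') : Set G')) :=
    { toFun := fun x => ⟨e x, (k4_map_normalizer e Q x.1).2 x.2⟩
      invFun := fun y => ⟨e.symm y, (k4_map_normalizer e Q (e.symm y.1)).1 (by
        rw [e.apply_symm_apply]; exact y.2)⟩
      left_inv := fun x => Subtype.ext (e.symm_apply_apply x.1)
      right_inv := fun y => Subtype.ext (e.apply_symm_apply y.1)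
      map_mul' := fun x y => Subtype.ext (map_mul e x.1 y.1) }
  refine ⟨QuotientGroup.congr _ _ f ?_⟩
  ext y
  constructor
  · rintro ⟨x, hx, rfl⟩
    rw [SetLike.mem_coe, Subgroup.mem_subgroupOf] at hx
    rw [Subgroup.mem_subgroupOf]
    exact ⟨x, hx, rfl⟩
  · intro hy
    rw [Subgroup.mem_subgroupOf] at hy
    refine ⟨f.symm y, ?_, f.apply_symm_apply y⟩
    rw [SetLike.mem_coe, Subgroup.mem_subgroupOf]
    obtain ⟨z, hz, hzy⟩ := hy
    have : z = e.symm y.1 := by
      apply e.injective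
      rw [e.apply_symm_apply]
      exact hzy
    show e.symm y.1 ∈ Q
    rw [← this]
    exact hz

theorem k4_NQ_cj (k : Type) [Field k] {G : Type} [Group G] (g : G) (Q : Subgroup G) :
    zproj k (NQ Q) = zproj k (NQ (cj g Q)) :=
  k4_NQ_map k (MulAut.conj g) Q

theorem k4_map_cj {G G' : Type} [Group G] [Group G'] (e : G ≃* G') (g : G) (Q : Subgroup G) :
    (cj g Q).map e.toMonoidHom = cj (e g) (Q.map e.toMonoidHom) := by
  ext y
  rw [mem_cj]
  constructor
  · rintro ⟨z, hz, rfl⟩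
    rw [SetLike.mem_coe, mem_cj] at hz
    obtain ⟨x, hx, rfl⟩ := hz
    refine ⟨e x, ⟨x, hx, rfl⟩, ?_⟩
    simp
  · rintro ⟨_, ⟨x, hx, rfl⟩, rfl⟩
    refine ⟨g * x * g⁻¹, mem_cj.2 ⟨x, hx, rfl⟩, ?_⟩
    simp

theorem awcD_iso (ℓ : ℕ) (k : Type) [Field k] : IsoInv (fun K _ => awcD ℓ k K) := by
  intro G G' _ _ ⟨e⟩
  have h1 : lreg ℓ G = lreg ℓ G' := lreg_iso ℓ G G' ⟨e⟩
  show awcD ℓ k G = awcD ℓ k G'
  unfold awcD
  rw [h1]
  congr 1
  have hf : ∀ (J : Type) [Group J], ∀ Q R : {Q : Subgroup J // IsPGroup ℓ Q},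
      lsubSetoid ℓ J Q R → zproj k (NQ Q.1) = zproj k (NQ R.1) := by
    intro J _ Q R ⟨g, hg⟩
    rw [← hg]
    exact k4_NQ_cj k g Q.1
  refine clsum_transfer (lsubSetoid ℓ G) (lsubSetoid ℓ G') _ _ (hf G) (hf G')
    (fun Q => ⟨Q.1.map e.toMonoidHom, Q.2.map _⟩) ?_ ?_ ?_
  · intro Q R
    constructor
    · rintro ⟨g, hg⟩
      refine ⟨e g, ?_⟩
      show cj (e g) (Q.1.map e.toMonoidHom) = R.1.map e.toMonoidHom
      rw [← k4_map_cj, hg]
    · rintro ⟨g', hg⟩
      obtain ⟨g, rfl⟩ := e.surjective g'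
      refine ⟨g, ?_⟩
      have h2 : cj (e g) (Q.1.map e.toMonoidHom) = R.1.map e.toMonoidHom := hg
      rw [← k4_map_cj] at h2
      exact Subgroup.map_injective e.injective h2
  · intro R _
    refine ⟨⟨R.1.map e.symm.toMonoidHom, R.2.map _⟩, 1, ?_⟩
    rw [cj_one]
    show (R.1.map e.symm.toMonoidHom).map e.toMonoidHom = R.1
    rw [Subgroup.map_map]
    have : e.toMonoidHom.comp e.symm.toMonoidHom = MonoidHom.id G' := by
      ext x
      simp
    rw [this, Subgroup.map_id]
  · intro Q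
    exact k4_NQ_map k e Q.1

theorem zp_sub_zproj (ℓ : ℕ) [Fact ℓ.Prime] (k : Type) [Field k] [CharP k ℓ] (H : Type) [Group H]
    [Finite H] : zp ℓ H - zproj k H =
      clsum (orbitRel H (NChain ℓ H)) fun σ => (-1) ^ σ.len * awcD ℓ k ↥(stabilizer H σ) := by
  unfold zp
  rw [← kr_sum ℓ k H, ← clsum_sub]
  apply clsum_congr
  intro σ
  unfold awcD
  ring

theorem zp_eq_zproj_of_awc (ℓ : ℕ) [Fact ℓ.Prime] (k : Type) [Field k] [CharP k ℓ] (H : Type)
    [Group H] [Finite H] (h : ∀ K : Subgroup H, AWCfor ℓ k ↥K) : zp ℓ H = zproj k H := by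
  have h1 := zp_sub_zproj ℓ k H
  rw [clsum_zero] at h1
  · exact sub_eq_zero.1 h1
  · intro σ
    rw [(awcD_eq_zero_iff ℓ k _).2 (h _), mul_zero]

theorem zp_sub_zproj_min (ℓ : ℕ) [Fact ℓ.Prime] (k : Type) [Field k] [CharP k ℓ] (H : Type)
    [Group H] [Finite H] (hO : OTriv ℓ H) (h : ∀ K : Subgroup H, K ≠ ⊤ → AWCfor ℓ k ↥K) :
    zp ℓ H - zproj k H = awcD ℓ k H := by
  classical
  have hσ0 : IsNChain ℓ ({⊥} : Set (Subgroup H)) :=
    { bot_mem := rfl
      isPGroup := by
        intro X hX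
        rw [Set.mem_singleton_iff] at hX
        subst hX
        exact IsPGroup.of_bot
      total := by
        intro X hX Y hY
        rw [Set.mem_singleton_iff] at hX hY
        subst hX; subst hY
        exact Or.inl le_rfl
      normal := by
        intro X hX Y hY _
        rw [Set.mem_singleton_iff] at hX hY
        subst hX; subst hY
        exact bot_le }
  let σ0 : NChain ℓ H := ⟨{⊥}, hσ0⟩
  have hfix : ∀ g : H, g • σ0 = σ0 := by
    intro g
    apply Subtype.ext
    rw [smul_val]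
    show cj g '' {⊥} = {⊥}
    rw [Set.image_singleton, cj_bot]
  have hstab : stabilizer H σ0 = ⊤ := by
    rw [eq_top_iff]
    intro g _
    exact mem_stabilizer_iff.2 (hfix g)
  have hne : ∀ σ : NChain ℓ H, σ ≠ σ0 → stabilizer H σ ≠ ⊤ := by
    intro σ hσ htop
    apply hσ
    have hT : sSup σ.1 ∈ σ.1 := sSup_mem_of_total ⟨⊥, σ.2.bot_mem⟩ σ.2.total
    have hTn : (sSup σ.1).Normal := by
      constructor
      intro n hn g
      have h1 : g ∈ stabilizer H σ := by rw [htop]; exact Subgroup.mem_top g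
      exact (Subgroup.mem_normalizer_iff.1 (mem_stab_normalizer h1 hT) n).1 hn
    have hT0 : sSup σ.1 = ⊥ := hO _ hTn (σ.2.isPGroup _ hT)
    apply Subtype.ext
    show σ.1 = {⊥}
    ext X
    rw [Set.mem_singleton_iff]
    constructor
    · intro hX
      have h2 : X ≤ sSup σ.1 := le_sSup hX
      rw [hT0] at h2
      exact le_bot_iff.1 h2
    · rintro rfl
      exact σ.2.bot_mem
  rw [zp_sub_zproj ℓ k H]
  unfold clsum
  rw [finsum_eq_single _ (Quotient.mk (orbitRel H (NChain ℓ H)) σ0)]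
  · have hout : (Quotient.mk (orbitRel H (NChain ℓ H)) σ0).out = σ0 := by
      have h1 : (orbitRel H (NChain ℓ H)) (Quotient.mk (orbitRel H (NChain ℓ H)) σ0).out σ0 :=
        Quotient.exact (Quotient.out_eq _)
      obtain ⟨g, hg⟩ := h1
      rw [← hg]
      exact hfix g
    rw [hout]
    have hlen : σ0.len = 0 := by
      unfold NChain.len
      show ({⊥} : Set (Subgroup H)).ncard - 1 = 0
      rw [Set.ncard_singleton]
    show (-1) ^ σ0.len * awcD ℓ k ↥(stabilizer H σ0) = awcD ℓ k H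
    rw [hlen, pow_zero, one_mul]
    have h2 := awcD_iso ℓ k ↥(stabilizer H σ0) H
      ⟨(MulEquiv.subgroupCongr hstab).trans Subgroup.topEquiv⟩
    exact h2
  · intro q hq
    have h1 : q.out ≠ σ0 := by
      intro h2
      apply hq
      rw [← h2, Quotient.out_eq]
    show (-1) ^ q.out.len * awcD ℓ k ↥(stabilizer H q.out) = 0
    rw [(awcD_eq_zero_iff ℓ k _).2 (h _ (hne _ h1)), mul_zero]

end Pool.FS95
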