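import Pool.Agent.LibFS95.Q7
import Pool.Agent.LibFS95.Ch

/-!
Row K5: `l(H/O) = l(H)` for a normal `ℓ`-subgroup `O`.

Plan. The map `ConjClasses H → ConjClasses (H/O)` restricts to a bijection between the `ℓ`-regular classes. Well defined: the order of the image divides. Surjective: `x̄` regular, `x` a preimage, `x = y z` with commuting `y` `ℓ`-regular, `z` an `ℓ`-element
(powers of `x`); `z̄` has `ℓ`-power order and is a power of `x̄`, so `z̄ = 1` and `ȳ = x̄`. Injective: `x, y` regular with conjugate images; conjugating we may assume `ȳ = x̄`, `y ∈ O x`. Glauberman's lemma (Q7): `A = Subgroup.zpowers (x, y) ≤ H × H`, of order prime to `ℓ`,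
acts on `O` by `(a,b) • u = b u b⁻¹` and on `Ω = O` by `(a,b) • u = b u a⁻¹` (in `O` because `b a⁻¹ ∈ O` for `(a,b) ∈ A`), `O` acts on `Ω` by left multiplication: transitive, compatible. A fixed point `u` satisfies `y u x⁻¹ = u`, `y = u x u⁻¹`.
-/

set_option autoImplicit false
noncomputable section
open MulAction
namespace Pool.FS95

private theorem k5_lift (ℓ : ℕ) [Fact ℓ.Prime] {H : Type} [Group H] [Finite H] (O : Subgroup H)
    [O.Normal] (g : H ⧸ O) (hg : ¬ ℓ ∣ orderOf g) :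
    ∃ y : H, (QuotientGroup.mk y : H ⧸ O) = g ∧ ¬ ℓ ∣ orderOf y := by
  have hℓ := (Fact.out : ℓ.Prime)
  obtain ⟨x, rfl⟩ := QuotientGroup.mk_surjective g
  obtain ⟨a, m, hm, hn⟩ := Nat.exists_eq_pow_mul_and_not_dvd (orderOf_pos x).ne' ℓ hℓ.ne_one
  have hcop : Nat.Coprime (ℓ ^ a) m := Nat.Coprime.pow_left a ((hℓ.coprime_iff_not_dvd).2 hm)
  have hbez : (1 : ℤ) = ((ℓ ^ a : ℕ) : ℤ) * Nat.gcdA (ℓ ^ a) m + (m : ℤ) * Nat.gcdB (ℓ ^ a) m := by
    have := Nat.gcd_eq_gcd_ab (ℓ ^ a) m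
    rw [hcop] at this
    exact_mod_cast this
  set u : ℤ := Nat.gcdA (ℓ ^ a) m with hu
  set v : ℤ := Nat.gcdB (ℓ ^ a) m with hv
  have hxn : x ^ (ℓ ^ a * m) = 1 := by
    rw [← hn, pow_orderOf_eq_one]
  refine ⟨x ^ (((ℓ ^ a : ℕ) : ℤ) * u), ?_, ?_⟩
  · have hk : orderOf (QuotientGroup.mk x : H ⧸ O) ∣ m := by
      have h1 : orderOf (QuotientGroup.mk x : H ⧸ O) ∣ ℓ ^ a * m := by
        rw [← hn]
        exact orderOf_map_dvd (QuotientGroup.mk' O) x
      have h2 : Nat.Coprime (orderOf (QuotientGroup.mk x : H ⧸ O)) (ℓ ^ a) :=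
        (Nat.Coprime.pow_left a ((hℓ.coprime_iff_not_dvd).2 hg)).symm
      exact h2.dvd_of_dvd_mul_left h1
    have h3 : (QuotientGroup.mk x : H ⧸ O) ^ m = 1 := orderOf_dvd_iff_pow_eq_one.1 hk
    have h4 : ((ℓ ^ a : ℕ) : ℤ) * u = 1 - (m : ℤ) * v := by linarith
    rw [h4, QuotientGroup.mk_zpow, zpow_sub, zpow_one, zpow_mul, zpow_natCast, h3, one_zpow,
      inv_one, mul_one]
  · intro hd
    have h5 : (x ^ (((ℓ ^ a : ℕ) : ℤ) * u)) ^ m = 1 := by
      rw [← zpow_natCast, ← zpow_mul]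
      have : ((ℓ ^ a : ℕ) : ℤ) * u * (m : ℤ) = ((ℓ ^ a * m : ℕ) : ℤ) * u := by
        push_cast
        ring
      rw [this, zpow_mul, zpow_natCast, hxn, one_zpow]
    exact hm (hd.trans (orderOf_dvd_of_pow_eq_one h5))

private structure K5Om {H : Type} [Group H] (O : Subgroup H) : Type where
  val : H
  mem : val ∈ O

private theorem K5Om.ext' {H : Type} [Group H] {O : Subgroup H} {w w' : K5Om O}
    (h : w.val = w'.val) : w = w' := by
  cases w
  cases w'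
  simp only at h
  subst h
  rfl

private theorem k5_conj (ℓ : ℕ) [Fact ℓ.Prime] {H : Type} [Group H] [Finite H] (O : Subgroup H)
    [O.Normal] (hO : IsPGroup ℓ O) (x y : H)
    (hxy : (QuotientGroup.mk x : H ⧸ O) = QuotientGroup.mk y) (hx : ¬ ℓ ∣ orderOf x)
    (hy : ¬ ℓ ∣ orderOf y) : IsConj x y := by
  have hℓ := (Fact.out : ℓ.Prime)
  set A : Subgroup (H × H) := Subgroup.zpowers (x, y) with hA
  have hAmk : ∀ a ∈ A, (QuotientGroup.mk a.1 : H ⧸ O) = QuotientGroup.mk a.2 := by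
    intro a ha
    obtain ⟨n, rfl⟩ := Subgroup.mem_zpowers_iff.1 ha
    rw [Prod.pow_fst, Prod.pow_snd, QuotientGroup.mk_zpow, QuotientGroup.mk_zpow, hxy]
  have hcard : ¬ ℓ ∣ Nat.card A := by
    rw [hA, Nat.card_zpowers, Prod.orderOf]
    intro hd
    rcases (hℓ.dvd_mul).1 (hd.trans (Nat.lcm_dvd_mul _ _)) with h | h
    · exact hx h
    · exact hy h
  have hN := (inferInstance : O.Normal)
  have hmemΩ : ∀ a : A, ∀ w : K5Om O, a.1.2 * w.val * a.1.1⁻¹ ∈ O := by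
    intro a w
    rw [← QuotientGroup.eq_one_iff, QuotientGroup.mk_mul, QuotientGroup.mk_mul,
      QuotientGroup.mk_inv, hAmk a.1 a.2, (QuotientGroup.eq_one_iff w.val).2 w.mem, mul_one,
      mul_inv_cancel]
  let i1 : MulDistribMulAction A O :=
    { smul := fun a u => ⟨a.1.2 * u.1 * a.1.2⁻¹, hN.conj_mem u.1 u.2 a.1.2⟩
      one_smul := fun u => Subtype.ext (by
        change (1 : H) * u.1 * (1 : H)⁻¹ = u.1
        group)
      mul_smul := fun a b u => Subtype.ext (by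
        change (a.1.2 * b.1.2) * u.1 * (a.1.2 * b.1.2)⁻¹ =
          a.1.2 * (b.1.2 * u.1 * b.1.2⁻¹) * a.1.2⁻¹
        group)
      smul_mul := fun a u v => Subtype.ext (by
        change a.1.2 * (u.1 * v.1) * a.1.2⁻¹ = (a.1.2 * u.1 * a.1.2⁻¹) * (a.1.2 * v.1 * a.1.2⁻¹)
        group)
      smul_one := fun a => Subtype.ext (by
        change a.1.2 * (1 : H) * a.1.2⁻¹ = 1
        group) }
  let i2 : MulAction O (K5Om O) :=
    { smul := fun o w => ⟨o.1 * w.val, O.mul_mem o.2 w.mem⟩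
      one_smul := fun w => K5Om.ext' (one_mul w.val)
      mul_smul := fun a b w => K5Om.ext' (mul_assoc a.1 b.1 w.val) }
  let i3 : MulAction A (K5Om O) :=
    { smul := fun a w => ⟨a.1.2 * w.val * a.1.1⁻¹, hmemΩ a w⟩
      one_smul := fun w => K5Om.ext' (by
        change (1 : H) * w.val * (1 : H)⁻¹ = w.val
        group)
      mul_smul := fun a b w => K5Om.ext' (by
        change (a.1.2 * b.1.2) * w.val * (a.1.1 * b.1.1)⁻¹ =
          a.1.2 * (b.1.2 * w.val * b.1.1⁻¹) * a.1.1⁻¹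
        group) }
  have hne : Nonempty (K5Om O) := ⟨⟨1, O.one_mem⟩⟩
  have hpre : IsPretransitive O (K5Om O) := by
    constructor
    intro w w'
    refine ⟨⟨w'.val * w.val⁻¹, O.mul_mem w'.mem (O.inv_mem w.mem)⟩, K5Om.ext' ?_⟩
    change w'.val * w.val⁻¹ * w.val = w'.val
    group
  obtain ⟨w, hw⟩ := glauberman_lemma ℓ (O := O) (A := A) (Ω := K5Om O) hO hcard (by
    intro a o w
    apply K5Om.ext'
    change a.1.2 * (o.1 * w.val) * a.1.1⁻¹ = (a.1.2 * o.1 * a.1.2⁻¹) * (a.1.2 * w.val * a.1.1⁻¹)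
    group)
  have h1 := congrArg K5Om.val (hw ⟨(x, y), Subgroup.mem_zpowers _⟩)
  have h2 : y * w.val * x⁻¹ = w.val := h1
  rw [isConj_iff]
  refine ⟨w.val, ?_⟩
  have h3 : w.val * x = y * w.val := by
    rw [mul_inv_eq_iff_eq_mul] at h2
    exact h2.symm
  rw [h3]
  group

theorem lreg_quot (ℓ : ℕ) [Fact ℓ.Prime] (H : Type) [Group H] [Finite H] (O : Subgroup H) [O.Normal]
    (hO : IsPGroup ℓ O) : lreg ℓ (H ⧸ O) = lreg ℓ H := by
  have hℓ := (Fact.out : ℓ.Prime)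
  unfold lreg
  refine congrArg (Nat.cast : ℕ → ℤ) ?_
  have hmk : ∀ g : H, ConjClasses.map (QuotientGroup.mk' O) (ConjClasses.mk g) =
      ConjClasses.mk (QuotientGroup.mk g : H ⧸ O) := fun g => rfl
  refine (Nat.card_eq_of_bijective
    (fun c : {c : ConjClasses H // ∃ g, ConjClasses.mk g = c ∧ ¬ ℓ ∣ orderOf g} =>
      (⟨ConjClasses.map (QuotientGroup.mk' O) c.1, by
        obtain ⟨c, g, hg, ho⟩ := c
        refine ⟨QuotientGroup.mk g, ?_, fun hd => ho (hd.trans ?_)⟩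
        · simp only [← hg, hmk]
        · exact orderOf_map_dvd (QuotientGroup.mk' O) g⟩ :
        {c : ConjClasses (H ⧸ O) // ∃ g, ConjClasses.mk g = c ∧ ¬ ℓ ∣ orderOf g})) ⟨?_, ?_⟩).symm
  · rintro ⟨c, x, hx, hox⟩ ⟨c', y, hy, hoy⟩ hcc
    apply Subtype.ext
    simp only
    have h1 : ConjClasses.map (QuotientGroup.mk' O) c = ConjClasses.map (QuotientGroup.mk' O) c' :=
      congrArg Subtype.val hcc
    rw [← hx, ← hy, hmk, hmk, ConjClasses.mk_eq_mk_iff_isConj, isConj_iff] at h1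
    obtain ⟨c0, hc0⟩ := h1
    obtain ⟨d, rfl⟩ := QuotientGroup.mk_surjective c0
    rw [← QuotientGroup.mk_inv, ← QuotientGroup.mk_mul, ← QuotientGroup.mk_mul] at hc0
    have h2 : ¬ ℓ ∣ orderOf (d * x * d⁻¹) := by
      have h3 : d * x * d⁻¹ = MulAut.conj d x := (MulAut.conj_apply d x).symm
      rw [h3, MulEquiv.orderOf_eq (MulAut.conj d) x]
      exact hox
    have h3 := k5_conj ℓ O hO (d * x * d⁻¹) y hc0 h2 hoy
    have h4 : IsConj x (d * x * d⁻¹) := isConj_iff.2 ⟨d, rfl⟩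
    rw [← hx, ← hy, ConjClasses.mk_eq_mk_iff_isConj]
    exact h4.trans h3
  · rintro ⟨c, g, hg, ho⟩
    obtain ⟨y, hy1, hy2⟩ := k5_lift ℓ O g ho
    refine ⟨⟨ConjClasses.mk y, y, rfl, hy2⟩, ?_⟩
    apply Subtype.ext
    simp only
    rw [hmk, hy1, hg]

end Pool.FS95
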