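import Pool.Agent.LibFS95.Q7
import Pool.Agent.LibFS95.Blk

/-!
Row Q8: counting stable twisted classes and stable classes: both are in bijection with the classes of `C = C_Q(g,h)`.
-/

set_option autoImplicit false
noncomputable section
open MulAction
namespace Pool.FS95

/-- `C_Q(g,h)`. -/
def fixSub {Q : Type} [Group Q] (g h : MulAut Q) : Subgroup Q where
  carrier := {x | g x = x ∧ h x = x}
  mul_mem' := by rintro a b ⟨h1, h2⟩ ⟨h3, h4⟩; exact ⟨by rw [map_mul, h1, h3], by rw [map_mul, h2, h4]⟩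
  one_mem' := ⟨map_one g, map_one h⟩
  inv_mem' := by rintro a ⟨h1, h2⟩; exact ⟨by rw [map_inv, h1], by rw [map_inv, h2]⟩

private def q8_R {Q : Type} [Group Q] (u : MulAut Q) (x y : Q) : Prop := ∃ q : Q, y = q * x * (u q)⁻¹

private theorem q8_comm {Q : Type} [Group Q] {a u : MulAut Q} (hau : Commute a u) (x : Q) :
    a (u x) = u (a x) := by
  have h1 : a * u = u * a := hau
  rw [← MulAut.mul_apply, h1, MulAut.mul_apply]

private theorem q8_fix (ℓ : ℕ) [Fact ℓ.Prime] {Q : Type} [Group Q] [Finite Q] (hQ : IsPGroup ℓ Q)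
    {A : Type} [Group A] [Finite A] (hA : ¬ ℓ ∣ Nat.card A) (φ : A →* MulAut Q) (u : MulAut Q)
    (hu : ∀ a, Commute (φ a) u) (x₀ : Q) (hx : ∀ a, q8_R u x₀ (φ a x₀)) :
    ∃ x, q8_R u x₀ x ∧ ∀ a, φ a x = x := by
  letI i1 : MulDistribMulAction A Q := MulDistribMulAction.compHom Q φ
  letI i2 : MulAction Q {y // q8_R u x₀ y} :=
    { smul := fun q y => ⟨q * y.1 * (u q)⁻¹, by
        obtain ⟨y, r, rfl⟩ := y
        exact ⟨q * r, by rw [map_mul]; group⟩⟩
      one_smul := fun y => Subtype.ext (by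
        change 1 * y.1 * (u 1)⁻¹ = y.1
        rw [map_one]; group)
      mul_smul := fun q r y => Subtype.ext (by
        change (q * r) * y.1 * (u (q * r))⁻¹ = q * (r * y.1 * (u r)⁻¹) * (u q)⁻¹
        rw [map_mul]; group) }
  letI i3 : MulAction A {y // q8_R u x₀ y} :=
    { smul := fun a y => ⟨φ a y.1, by
        obtain ⟨y, r, rfl⟩ := y
        obtain ⟨s, hs⟩ := hx a
        refine ⟨φ a r * s, ?_⟩
        change φ a (r * x₀ * (u r)⁻¹) = _
        rw [map_mul, map_mul, map_inv, hs, q8_comm (hu a), map_mul]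
        group⟩
      one_smul := fun y => Subtype.ext (by
        change φ 1 y.1 = y.1
        rw [map_one]; rfl)
      mul_smul := fun a b y => Subtype.ext (by
        change φ (a * b) y.1 = φ a (φ b y.1)
        rw [map_mul]; rfl) }
  haveI i4 : Nonempty {y // q8_R u x₀ y} := ⟨⟨x₀, 1, by rw [map_one]; group⟩⟩
  haveI i5 : IsPretransitive Q {y // q8_R u x₀ y} := by
    refine ⟨fun y z => ?_⟩
    obtain ⟨y, q, rfl⟩ := y
    obtain ⟨z, r, rfl⟩ := z
    refine ⟨r * q⁻¹, Subtype.ext ?_⟩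
    change (r * q⁻¹) * (q * x₀ * (u q)⁻¹) * (u (r * q⁻¹))⁻¹ = r * x₀ * (u r)⁻¹
    rw [map_mul, map_inv]
    group
  obtain ⟨ω, hω⟩ := glauberman_lemma ℓ (O := Q) (A := A) (Ω := {y // q8_R u x₀ y}) hQ hA
    (fun a o ω => Subtype.ext (by
      change φ a (o * ω.1 * (u o)⁻¹) = φ a o * φ a ω.1 * (u (φ a o))⁻¹
      rw [map_mul, map_mul, map_inv, q8_comm (hu a)]))
  exact ⟨ω.1, ω.2, fun a => congrArg Subtype.val (hω a)⟩

private theorem q8_conj (ℓ : ℕ) [Fact ℓ.Prime] {Q : Type} [Group Q] [Finite Q] (hQ : IsPGroup ℓ Q)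
    {A : Type} [Group A] [Finite A] (hA : ¬ ℓ ∣ Nat.card A) (φ : A →* MulAut Q) (u : MulAut Q)
    (hu : ∀ a, Commute (φ a) u) (x y : Q) (hx : ∀ a, φ a x = x) (hy : ∀ a, φ a y = y)
    (hxy : q8_R u x y) : ∃ c, (∀ a, φ a c = c) ∧ y = c * x * (u c)⁻¹ := by
  let O : Subgroup Q :=
    { carrier := {v | v * y * (u v)⁻¹ = y}
      mul_mem' := by
        intro v w hv hw
        simp only [Set.mem_setOf_eq] at hv hw ⊢
        calc v * w * y * (u (v * w))⁻¹ = v * (w * y * (u w)⁻¹) * (u v)⁻¹ := by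
              rw [map_mul]; group
          _ = y := by rw [hw, hv]
      one_mem' := by
        simp only [Set.mem_setOf_eq]
        rw [map_one]; group
      inv_mem' := by
        intro v hv
        simp only [Set.mem_setOf_eq] at hv ⊢
        calc v⁻¹ * y * (u v⁻¹)⁻¹ = v⁻¹ * (v * y * (u v)⁻¹) * (u v⁻¹)⁻¹ := by rw [hv]
          _ = y := by rw [map_inv]; group }
  have hO : ∀ v : O, v.1 * y * (u v.1)⁻¹ = y := fun v => v.2
  letI i1 : MulDistribMulAction A O :=
    { smul := fun a v => ⟨φ a v.1, by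
        change φ a v.1 * y * (u (φ a v.1))⁻¹ = y
        have h1 := congrArg (φ a) (hO v)
        rwa [map_mul, map_mul, map_inv, hy a, q8_comm (hu a)] at h1⟩
      one_smul := fun v => Subtype.ext (by
        change φ 1 v.1 = v.1
        rw [map_one]; rfl)
      mul_smul := fun a b v => Subtype.ext (by
        change φ (a * b) v.1 = φ a (φ b v.1)
        rw [map_mul]; rfl)
      smul_mul := fun a v w => Subtype.ext (by
        change φ a (v.1 * w.1) = φ a v.1 * φ a w.1
        rw [map_mul])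
      smul_one := fun a => Subtype.ext (by
        change φ a 1 = 1
        rw [map_one]) }
  letI i2 : MulAction O {q : Q // y = q * x * (u q)⁻¹} :=
    { smul := fun v q => ⟨v.1 * q.1, by
        have h1 := hO v
        calc y = v.1 * y * (u v.1)⁻¹ := h1.symm
          _ = v.1 * (q.1 * x * (u q.1)⁻¹) * (u v.1)⁻¹ := by rw [← q.2]
          _ = v.1 * q.1 * x * (u (v.1 * q.1))⁻¹ := by rw [map_mul]; group⟩
      one_smul := fun q => Subtype.ext (one_mul q.1)
      mul_smul := fun v w q => Subtype.ext (mul_assoc v.1 w.1 q.1) }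
  letI i3 : MulAction A {q : Q // y = q * x * (u q)⁻¹} :=
    { smul := fun a q => ⟨φ a q.1, by
        have h1 := congrArg (φ a) q.2
        rwa [map_mul, map_mul, map_inv, hy a, hx a, q8_comm (hu a)] at h1⟩
      one_smul := fun q => Subtype.ext (by
        change φ 1 q.1 = q.1
        rw [map_one]; rfl)
      mul_smul := fun a b q => Subtype.ext (by
        change φ (a * b) q.1 = φ a (φ b q.1)
        rw [map_mul]; rfl) }
  haveI i4 : Nonempty {q : Q // y = q * x * (u q)⁻¹} := by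
    obtain ⟨q, hq⟩ := hxy
    exact ⟨⟨q, hq⟩⟩
  haveI i5 : IsPretransitive O {q : Q // y = q * x * (u q)⁻¹} := by
    refine ⟨fun q r => ?_⟩
    have hq := q.2
    have hr := r.2
    refine ⟨⟨r.1 * q.1⁻¹, ?_⟩, Subtype.ext ?_⟩
    · change r.1 * q.1⁻¹ * y * (u (r.1 * q.1⁻¹))⁻¹ = y
      calc r.1 * q.1⁻¹ * y * (u (r.1 * q.1⁻¹))⁻¹
          = r.1 * q.1⁻¹ * (q.1 * x * (u q.1)⁻¹) * (u (r.1 * q.1⁻¹))⁻¹ := by rw [← hq]
        _ = r.1 * x * (u r.1)⁻¹ := by rw [map_mul, map_inv]; group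
        _ = y := hr.symm
    · change r.1 * q.1⁻¹ * q.1 = r.1
      group
  obtain ⟨ω, hω⟩ := glauberman_lemma ℓ (O := O) (A := A) (Ω := {q : Q // y = q * x * (u q)⁻¹})
    (hQ.to_subgroup O) hA
    (fun a o ω => Subtype.ext (by
      change φ a (o.1 * ω.1) = φ a o.1 * φ a ω.1
      rw [map_mul]))
  exact ⟨ω.1, fun a => congrArg Subtype.val (hω a), ω.2⟩

/-- the group generated by `g`, `h` -/
private def q8_phi {Q : Type} [Group Q] (g h : MulAut Q) (hgh : g * h = h * g) :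
    (Subgroup.zpowers g) × (Subgroup.zpowers h) →* MulAut Q :=
  MonoidHom.noncommCoprod (Subgroup.zpowers g).subtype (Subgroup.zpowers h).subtype (by
    rintro ⟨m, i, rfl⟩ ⟨n, j, rfl⟩
    exact Commute.zpow_zpow (show Commute g h from hgh) i j)

private theorem q8_phi_apply {Q : Type} [Group Q] (g h : MulAut Q) (hgh : g * h = h * g)
    (a : (Subgroup.zpowers g) × (Subgroup.zpowers h)) :
    q8_phi g h hgh a = a.1.1 * a.2.1 := rfl

private theorem q8_phi_g {Q : Type} [Group Q] (g h : MulAut Q) (hgh : g * h = h * g) {x : Q}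
    (hx : ∀ a, q8_phi g h hgh a x = x) : g x = x ∧ h x = x := by
  constructor
  · have := hx (⟨g, Subgroup.mem_zpowers g⟩, 1)
    rw [q8_phi_apply] at this
    simpa using this
  · have := hx (1, ⟨h, Subgroup.mem_zpowers h⟩)
    rw [q8_phi_apply] at this
    simpa using this

/-- a property of automorphisms which is stable under products and inverses -/
private theorem q8_phi_mem {Q : Type} [Group Q] (g h : MulAut Q) (hgh : g * h = h * g)
    (S : Subgroup (MulAut Q)) (hg : g ∈ S) (hh : h ∈ S) (a : (Subgroup.zpowers g) × (Subgroup.zpowers h)) :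
    q8_phi g h hgh a ∈ S := by
  rw [q8_phi_apply]
  exact S.mul_mem ((Subgroup.zpowers_le.2 hg) a.1.2) ((Subgroup.zpowers_le.2 hh) a.2.2)

private def q8_stab {Q : Type} [Group Q] (x : Q) : Subgroup (MulAut Q) where
  carrier := {a | a x = x}
  mul_mem' := by
    intro a b ha hb
    simp only [Set.mem_setOf_eq] at ha hb ⊢
    rw [MulAut.mul_apply, hb, ha]
  one_mem' := rfl
  inv_mem' := by
    intro a ha
    simp only [Set.mem_setOf_eq] at ha ⊢
    conv_lhs => rw [← ha]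
    rw [← MulAut.mul_apply, inv_mul_cancel, MulAut.one_apply]

private def q8_tw {Q : Type} [Group Q] (u : MulAut Q) (x₀ : Q) : Subgroup (MulAut Q) where
  carrier := {a | Commute a u ∧ q8_R u x₀ (a x₀)}
  mul_mem' := by
    rintro a b ⟨ha, r, hr⟩ ⟨hb, s, hs⟩
    refine ⟨ha.mul_left hb, a s * r, ?_⟩
    rw [MulAut.mul_apply, hs, map_mul, map_mul, map_inv, hr, q8_comm ha, map_mul]
    group
  one_mem' := ⟨Commute.one_left u, 1, by rw [map_one, MulAut.one_apply]; group⟩
  inv_mem' := by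
    rintro a ⟨ha, r, hr⟩
    have ha' : Commute a⁻¹ u := ha.inv_left
    refine ⟨ha', (a⁻¹ r)⁻¹, ?_⟩
    have h1 := congrArg (a⁻¹ : MulAut Q) hr
    rw [← MulAut.mul_apply, inv_mul_cancel, MulAut.one_apply, map_mul, map_mul, map_inv,
      q8_comm ha'] at h1
    rw [map_inv]
    conv_rhs => rw [h1]
    group

private theorem q8_card (ℓ : ℕ) [Fact ℓ.Prime] {Q : Type} [Group Q] (g h : MulAut Q)
    (hg : ¬ ℓ ∣ orderOf g) (hh : ¬ ℓ ∣ orderOf h) :
    ¬ ℓ ∣ Nat.card ((Subgroup.zpowers g) × (Subgroup.zpowers h)) := by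
  rw [Nat.card_prod, Nat.card_zpowers, Nat.card_zpowers, (Fact.out : ℓ.Prime).dvd_mul]
  push Not
  exact ⟨hg, hh⟩

private theorem q8_main (ℓ : ℕ) [Fact ℓ.Prime] {Q : Type} [Group Q] [Finite Q]
    (hQ : IsPGroup ℓ Q) (g h u : MulAut Q) (hgh : g * h = h * g) (hg : ¬ ℓ ∣ orderOf g)
    (hh : ¬ ℓ ∣ orderOf h) (hgu : Commute g u) (hhu : Commute h u)
    (hfix : ∀ q : Q, g q = q → u q = q) :
    Nat.card {c : Quotient (twSetoid u) // ∃ x, Quotient.mk (twSetoid u) x = c ∧
      Quotient.mk (twSetoid u) (g x) = c ∧ Quotient.mk (twSetoid u) (h x) = c} =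
      Nat.card (ConjClasses (fixSub g h)) := by
  have hu : ∀ a, Commute (q8_phi g h hgh a) u := fun a => by
    have h1 : q8_phi g h hgh a ∈ Subgroup.centralizer ({u} : Set (MulAut Q)) := by
      apply q8_phi_mem
      · rw [Subgroup.mem_centralizer_singleton_iff]
        exact hgu
      · rw [Subgroup.mem_centralizer_singleton_iff]
        exact hhu
    rw [Subgroup.mem_centralizer_singleton_iff] at h1
    exact h1
  have hA := q8_card ℓ g h hg hh
  symm
  have hwd : ∀ x y : fixSub g h, IsConj x y →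
      (⟨Quotient.mk (twSetoid u) x.1, x.1, rfl, by rw [x.2.1], by rw [x.2.2]⟩ :
        {c : Quotient (twSetoid u) // ∃ x, Quotient.mk (twSetoid u) x = c ∧
          Quotient.mk (twSetoid u) (g x) = c ∧ Quotient.mk (twSetoid u) (h x) = c}) =
      ⟨Quotient.mk (twSetoid u) y.1, y.1, rfl, by rw [y.2.1], by rw [y.2.2]⟩ := by
    intro x y hxy
    obtain ⟨c, hc⟩ := isConj_iff.1 hxy
    apply Subtype.ext
    apply Quotient.sound
    refine ⟨c.1, ?_⟩
    rw [hfix c.1 c.2.1, ← hc]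
    rfl
  refine Nat.card_congr (Equiv.ofBijective (Quotient.lift (s := IsConj.setoid (fixSub g h))
    (fun x : fixSub g h => (⟨Quotient.mk (twSetoid u) x.1, x.1, rfl, by rw [x.2.1], by rw [x.2.2]⟩ :
        {c : Quotient (twSetoid u) // ∃ x, Quotient.mk (twSetoid u) x = c ∧
          Quotient.mk (twSetoid u) (g x) = c ∧ Quotient.mk (twSetoid u) (h x) = c})) hwd) ⟨?_, ?_⟩)
  · intro c d
    refine Quotient.inductionOn₂ c d (fun x y hxy => ?_)
    have h1 : Quotient.mk (twSetoid u) x.1 = Quotient.mk (twSetoid u) y.1 := congrArg Subtype.val hxy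
    have h2 : q8_R u x.1 y.1 := Quotient.exact h1
    obtain ⟨q, hq1, hq2⟩ := q8_conj ℓ hQ hA (q8_phi g h hgh) u hu x.1 y.1
      (fun a => q8_phi_mem g h hgh (q8_stab x.1) x.2.1 x.2.2 a)
      (fun a => q8_phi_mem g h hgh (q8_stab y.1) y.2.1 y.2.2 a) h2
    have hq3 := q8_phi_g g h hgh hq1
    apply Quotient.sound
    change IsConj x y
    rw [isConj_iff]
    refine ⟨⟨q, hq3⟩, Subtype.ext ?_⟩
    rw [hfix q hq3.1] at hq2
    exact hq2.symm
  · rintro ⟨c, x₀, rfl, h1, h2⟩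
    have h1' : q8_R u x₀ (g x₀) := Quotient.exact h1.symm
    have h2' : q8_R u x₀ (h x₀) := Quotient.exact h2.symm
    obtain ⟨x, hx, hxa⟩ := q8_fix ℓ hQ hA (q8_phi g h hgh) u hu x₀
      (fun a => (q8_phi_mem g h hgh (q8_tw u x₀) ⟨hgu, h1'⟩ ⟨hhu, h2'⟩ a).2)
    have hx3 := q8_phi_g g h hgh hxa
    refine ⟨Quotient.mk (IsConj.setoid (fixSub g h)) ⟨x, hx3⟩, Subtype.ext ?_⟩
    exact (Quotient.sound (s := twSetoid u) hx).symm

theorem card_twisted_fixed (ℓ : ℕ) [Fact ℓ.Prime] {Q : Type} [Group Q] [Finite Q]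
    (hQ : IsPGroup ℓ Q) (g h : MulAut Q) (hgh : g * h = h * g) (hg : ¬ ℓ ∣ orderOf g)
    (hh : ¬ ℓ ∣ orderOf h) :
    Nat.card {c : Quotient (twSetoid g) //
        ∃ x, Quotient.mk (twSetoid g) x = c ∧ Quotient.mk (twSetoid g) (h x) = c} =
      Nat.card (ConjClasses (fixSub g h)) := by
  rw [← q8_main ℓ hQ g h g hgh hg hh (Commute.refl g) (show Commute h g from hgh.symm)
    (fun q hq => hq)]
  refine Nat.card_congr (Equiv.subtypeEquivRight fun c => ?_)
  constructor
  · rintro ⟨x, rfl, h2⟩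
    refine ⟨x, rfl, ?_, h2⟩
    symm
    apply Quotient.sound
    exact ⟨x⁻¹, by rw [map_inv]; group⟩
  · rintro ⟨x, h1, _, h2⟩
    exact ⟨x, h1, h2⟩

theorem card_classes_fixed (ℓ : ℕ) [Fact ℓ.Prime] {Q : Type} [Group Q] [Finite Q]
    (hQ : IsPGroup ℓ Q) (g h : MulAut Q) (hgh : g * h = h * g) (hg : ¬ ℓ ∣ orderOf g)
    (hh : ¬ ℓ ∣ orderOf h) :
    Nat.card {c : ConjClasses Q // g • c = c ∧ h • c = c} = Nat.card (ConjClasses (fixSub g h)) := by
  rw [← q8_main ℓ hQ g h 1 hgh hg hh (Commute.one_right g) (Commute.one_right h)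
    (fun q _ => rfl)]
  have hrel : ∀ x y : Q, IsConj x y ↔ twSetoid (1 : MulAut Q) x y := by
    intro x y
    rw [isConj_iff]
    constructor
    · rintro ⟨c, hc⟩
      exact ⟨c, hc.symm⟩
    · rintro ⟨c, hc⟩
      exact ⟨c, hc.symm⟩
  refine Nat.card_congr (Equiv.subtypeEquiv
    (Quotient.congrRight (r := IsConj.setoid Q) (r' := twSetoid (1 : MulAut Q)) hrel) fun c => ?_)
  refine Quotient.inductionOn c (fun x => ?_)
  change (ConjClasses.mk (g x) = ConjClasses.mk x ∧ ConjClasses.mk (h x) = ConjClasses.mk x) ↔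
    ∃ x', Quotient.mk (twSetoid (1 : MulAut Q)) x' = Quotient.mk (twSetoid (1 : MulAut Q)) x ∧
      Quotient.mk (twSetoid (1 : MulAut Q)) (g x') = Quotient.mk (twSetoid (1 : MulAut Q)) x ∧
      Quotient.mk (twSetoid (1 : MulAut Q)) (h x') = Quotient.mk (twSetoid (1 : MulAut Q)) x
  have key : ∀ a b : Q, Quotient.mk (twSetoid (1 : MulAut Q)) a = Quotient.mk (twSetoid (1 : MulAut Q)) b ↔
      ConjClasses.mk a = ConjClasses.mk b := by
    intro a b
    rw [ConjClasses.mk_eq_mk_iff_isConj, hrel]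
    exact Quotient.eq (r := twSetoid (1 : MulAut Q))
  constructor
  · rintro ⟨h1, h2⟩
    exact ⟨x, rfl, (key _ _).2 h1, (key _ _).2 h2⟩
  · rintro ⟨x', h0, h1, h2⟩
    rw [key] at h0 h1 h2
    have hm : ∀ a : MulAut Q, ConjClasses.mk (a x) = ConjClasses.mk (a x') := by
      intro a
      have := congrArg (fun c => a • c) h0
      exact this.symm
    exact ⟨(hm g).trans h1, (hm h).trans h2⟩

end Pool.FS95
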