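import Pool.Agent.LibFS95.Q6
import Pool.Agent.LibFS95.Q8
import Pool.Agent.LibFS95.B4

/-!
Row Q9: `|Irr(Q)^{g,h}| = |Cl(Q)^{g,h}|` for commuting `ℓ'`-automorphisms of an `ℓ`-group, and the version for `T/Inn(Q)`.

Plan. `irr_fixed`: Q2 and Q6 compute the same trace; so `#{blocks fixed by g,h} = #{h-stable g-twisted classes}` (`Nat.cast_injective` for `ℂ`); Q8; the equivariant bijection of B4.
`irr_fixed_out`: `g, h : outq T` commute and are `ℓ`-regular. Let `M ≤ T` be the preimage of `closure {g,h}` (a commutative group, order prime to `ℓ` because it divides `orderOf g * orderOf h`); the kernel `R = (inn Q).subgroupOf T ≤ M` is an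
`ℓ`-group (a quotient of `Q`), normal, of index prime to `ℓ` in `M`. Schur-Zassenhaus (`Subgroup.exists_right_complement'_of_coprime`) gives a complement `A` in `M`, `A ≃ closure {g,h}`; let `g₀, h₀ ∈ A` be the preimages of `g, h`:
they commute, `orderOf g₀ = orderOf g`, `orderOf h₀ = orderOf h`, and `g • y = g₀ • y` (`outq_smul`). Apply `irr_fixed`.
-/

set_option autoImplicit false
noncomputable section
open MulAction
namespace Pool.FS95

theorem irr_fixed (ℓ : ℕ) [Fact ℓ.Prime] {Q : Type} [Group Q] [Finite Q] (hQ : IsPGroup ℓ Q)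
    (g h : MulAut Q) (hgh : g * h = h * g) (hg : ¬ ℓ ∣ orderOf g) (hh : ¬ ℓ ∣ orderOf h) :
    Nat.card {χ : Irr Q // g • χ = χ ∧ h • χ = χ} =
      Nat.card {c : ConjClasses Q // g • c = c ∧ h • c = c} := by
  obtain ⟨Φ, hΦ⟩ := exists_irr_equiv_blk Q
  have h1 : Nat.card {χ : Irr Q // g • χ = χ ∧ h • χ = χ} =
      Nat.card {e : Blk ℂ Q // g • e = e ∧ h • e = e} := by
    refine Nat.card_congr (Equiv.subtypeEquiv Φ fun χ => ?_)
    rw [← hΦ, ← hΦ, Φ.apply_eq_iff_eq, Φ.apply_eq_iff_eq]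
  have h2 := trace_tzMap g h hgh
  rw [trace_tzMap_blk ℓ hQ g h hgh hg] at h2
  have h3 := Nat.cast_injective h2
  rw [h1, h3, card_twisted_fixed ℓ hQ g h hgh hg hh, card_classes_fixed ℓ hQ g h hgh hg hh]

private theorem q9_zz {G : Type*} [Group G] {g h : G} (hgh : g * h = h * g) (a b c d : ℤ) :
    (g ^ a * h ^ b) * (g ^ c * h ^ d) = g ^ (a + c) * h ^ (b + d) := by
  have hc : Commute g h := hgh
  have h1 : h ^ b * g ^ c = g ^ c * h ^ b := (hc.symm.zpow_zpow b c).eq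
  rw [zpow_add, zpow_add]
  calc (g ^ a * h ^ b) * (g ^ c * h ^ d) = g ^ a * (h ^ b * g ^ c) * h ^ d := by group
    _ = g ^ a * (g ^ c * h ^ b) * h ^ d := by rw [h1]
    _ = g ^ a * g ^ c * (h ^ b * h ^ d) := by group

private def q9B {G : Type*} [Group G] (g h : G) (hgh : g * h = h * g) : Subgroup G where
  carrier := {y | ∃ a b : ℤ, y = g ^ a * h ^ b}
  mul_mem' := by
    rintro _ _ ⟨a, b, rfl⟩ ⟨c, d, rfl⟩
    exact ⟨a + c, b + d, q9_zz hgh a b c d⟩
  one_mem' := ⟨0, 0, by simp⟩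
  inv_mem' := by
    rintro _ ⟨a, b, rfl⟩
    refine ⟨-a, -b, ?_⟩
    rw [inv_eq_iff_mul_eq_one, q9_zz hgh]
    simp

private theorem q9_lift {ℓ : ℕ} [Fact ℓ.Prime] {T : Type*} [Group T] [Finite T] (R : Subgroup T)
    [R.Normal] (hR : IsPGroup ℓ R) (g h : T ⧸ R) (hgh : g * h = h * g) (hg : ¬ ℓ ∣ orderOf g)
    (hh : ¬ ℓ ∣ orderOf h) : ∃ g₀ h₀ : T, (QuotientGroup.mk g₀ : T ⧸ R) = g ∧
      (QuotientGroup.mk h₀ : T ⧸ R) = h ∧ g₀ * h₀ = h₀ * g₀ ∧ ¬ ℓ ∣ orderOf g₀ ∧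
      ¬ ℓ ∣ orderOf h₀ := by
  have hℓ := (Fact.out : ℓ.Prime)
  set B : Subgroup (T ⧸ R) := q9B g h hgh with hB
  set M : Subgroup T := B.comap (QuotientGroup.mk' R) with hM
  set N : Subgroup M := R.subgroupOf M with hN
  have hNp : IsPGroup ℓ N := hR.comap_of_injective M.subtype M.subtype_injective
  have hmemN : ∀ x : M, x ∈ N ↔ (QuotientGroup.mk (x : T) : T ⧸ R) = 1 := by
    intro x
    rw [hN, Subgroup.mem_subgroupOf, QuotientGroup.eq_one_iff]
  set m : ℕ := orderOf g * orderOf h with hm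
  have hmℓ : ¬ ℓ ∣ m := by
    intro hd
    rcases (hℓ.dvd_mul).1 hd with h1 | h1
    · exact hg h1
    · exact hh h1
  have hpow : ∀ x : M, x ^ m ∈ N := by
    intro x
    rw [hmemN]
    obtain ⟨a, b, hab⟩ : ∃ a b : ℤ, (QuotientGroup.mk (x : T) : T ⧸ R) = g ^ a * h ^ b := x.2
    have h1 : (QuotientGroup.mk ((x ^ m : M) : T) : T ⧸ R) =
        (QuotientGroup.mk (x : T) : T ⧸ R) ^ m := by
      rw [Subgroup.coe_pow, QuotientGroup.mk_pow]
    rw [h1, hab]
    have hc : Commute (g ^ a) (h ^ b) := (show Commute g h from hgh).zpow_zpow a b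
    rw [hc.mul_pow]
    have e1 : (g ^ a) ^ m = 1 := by
      rw [hm, pow_mul, ← zpow_natCast (g ^ a), ← zpow_mul, mul_comm a, zpow_mul, zpow_natCast,
        pow_orderOf_eq_one, one_zpow, one_pow]
    have e2 : (h ^ b) ^ m = 1 := by
      rw [hm, mul_comm (orderOf g), pow_mul, ← zpow_natCast (h ^ b), ← zpow_mul, mul_comm b,
        zpow_mul, zpow_natCast, pow_orderOf_eq_one, one_zpow, one_pow]
    rw [e1, e2, one_mul]
  have hcop : Nat.Coprime (Nat.card N) N.index := by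
    obtain ⟨k, hk⟩ := IsPGroup.iff_card.1 hNp
    rw [hk]
    apply Nat.Coprime.pow_left
    rw [hℓ.coprime_iff_not_dvd]
    intro hd
    rw [Subgroup.index_eq_card] at hd
    obtain ⟨y, hy⟩ := exists_prime_orderOf_dvd_card' (G := M ⧸ N) ℓ hd
    obtain ⟨x, rfl⟩ := QuotientGroup.mk_surjective y
    have h1 : (QuotientGroup.mk x : M ⧸ N) ^ m = 1 := by
      rw [← QuotientGroup.mk_pow, QuotientGroup.eq_one_iff]
      exact hpow x
    have h2 := orderOf_dvd_of_pow_eq_one h1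
    rw [hy] at h2
    exact hmℓ h2
  obtain ⟨H, hH⟩ := Subgroup.exists_right_complement'_of_coprime hcop
  have hlift : ∀ y ∈ B, ∃ x ∈ H, (QuotientGroup.mk (x : T) : T ⧸ R) = y := by
    intro y hy
    obtain ⟨x, rfl⟩ := QuotientGroup.mk_surjective y
    have hxM : x ∈ M := hy
    obtain ⟨⟨n, z⟩, hnz⟩ := hH.2 (⟨x, hxM⟩ : M)
    refine ⟨z.1, z.2, ?_⟩
    have h1 : x = ((n.1 : M) : T) * ((z.1 : M) : T) := by
      have := congrArg (Subtype.val : M → T) hnz
      exact this.symm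
    have h2 : (QuotientGroup.mk ((n.1 : M) : T) : T ⧸ R) = 1 := (hmemN n.1).1 n.2
    rw [h1, QuotientGroup.mk_mul, h2, one_mul]
  have htriv : ∀ x : M, x ∈ H → (QuotientGroup.mk (x : T) : T ⧸ R) = 1 → x = 1 := by
    intro x hx h1
    have h2 : x ∈ N := (hmemN x).2 h1
    have h3 : x ∈ N ⊓ H := ⟨h2, hx⟩
    rw [hH.disjoint.eq_bot] at h3
    exact Subgroup.mem_bot.1 h3
  obtain ⟨g₀, hg0, hg1⟩ := hlift g ⟨1, 0, by simp⟩
  obtain ⟨h₀, hh0, hh1⟩ := hlift h ⟨0, 1, by simp⟩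
  have hcomm : g₀ * h₀ = h₀ * g₀ := by
    have h1 := htriv (g₀ * h₀ * (h₀ * g₀)⁻¹)
      (H.mul_mem (H.mul_mem hg0 hh0) (H.inv_mem (H.mul_mem hh0 hg0))) (by
        rw [Subgroup.coe_mul, Subgroup.coe_mul, Subgroup.coe_inv, Subgroup.coe_mul,
          QuotientGroup.mk_mul, QuotientGroup.mk_mul, QuotientGroup.mk_inv, QuotientGroup.mk_mul,
          hg1, hh1, hgh, mul_inv_cancel])
    exact mul_inv_eq_one.1 h1
  have hord : ∀ x : M, x ∈ H → orderOf x ∣ orderOf (QuotientGroup.mk (x : T) : T ⧸ R) := by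
    intro x hx
    apply orderOf_dvd_of_pow_eq_one
    apply htriv _ (H.pow_mem hx _)
    rw [Subgroup.coe_pow, QuotientGroup.mk_pow, pow_orderOf_eq_one]
  refine ⟨g₀, h₀, hg1, hh1, ?_, ?_, ?_⟩
  · exact congrArg (Subtype.val : M → T) hcomm
  · rw [Subgroup.orderOf_coe]
    intro hd
    have := hord g₀ hg0
    rw [hg1] at this
    exact hg (hd.trans this)
  · rw [Subgroup.orderOf_coe]
    intro hd
    have := hord h₀ hh0
    rw [hh1] at this
    exact hh (hd.trans this)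

theorem irr_fixed_out (ℓ : ℕ) [Fact ℓ.Prime] {Q : Type} [Group Q] [Finite Q] (hQ : IsPGroup ℓ Q)
    (T : Subgroup (MulAut Q)) (g h : FusionSystem.outq T) (hgh : g * h = h * g)
    (hg : ¬ ℓ ∣ orderOf g) (hh : ¬ ℓ ∣ orderOf h) :
    Nat.card {χ : Irr Q // g • χ = χ ∧ h • χ = χ} =
      Nat.card {c : ConjClasses Q // g • c = c ∧ h • c = c} := by
  have hR : IsPGroup ℓ ((FusionSystem.inn Q).subgroupOf T) := by
    have h1 : IsPGroup ℓ (FusionSystem.inn Q) := hQ.of_surjective (MulAut.conj : Q →* MulAut Q).rangeRestrict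
      (MulAut.conj : Q →* MulAut Q).rangeRestrict_surjective
    exact h1.comap_of_injective T.subtype T.subtype_injective
  obtain ⟨g₀, h₀, e1, e2, e3, e4, e5⟩ := q9_lift (ℓ := ℓ) ((FusionSystem.inn Q).subgroupOf T) hR g h hgh hg hh
  subst e1
  subst e2
  refine irr_fixed ℓ hQ (g₀ : MulAut Q) (h₀ : MulAut Q) ?_ ?_ ?_
  · exact congrArg Subtype.val e3
  · rwa [Subgroup.orderOf_coe]
  · rwa [Subgroup.orderOf_coe]

end Pool.FS95
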