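import Pool.Agent.LibFS95.C3
import Pool.Agent.LibFS95.C7
import Pool.Agent.LibFS95.K4
import Pool.Agent.LibFS95.Q9
import Pool.Agent.LibFS95.F12
import Pool.Agent.LibFS95.F15
import Pool.Agent.LibFS95.F18
import Pool.Agent.LibFS95.F21
import Pool.Agent.LibFS95.F22

/-! The local criterion: `m(F) = k(F)`. -/

set_option autoImplicit false
noncomputable section
open MulAction
namespace Pool.FS95

theorem W_sub (ℓ : ℕ) (ζ₁ ζ₂ : ∀ (K : Type) [Group K], ℤ) (H Y : Type) [Group H] [Finite H]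
    [MulAction H Y] [Finite Y] :
    W ℓ (fun K _ => ζ₁ K - ζ₂ K) H Y = W ℓ ζ₁ H Y - W ℓ ζ₂ H Y := by
  unfold W
  rw [← clsum_sub]
  apply clsum_congr
  intro σ
  rw [clsum_sub]
  ring

theorem awc_iso (ℓ : ℕ) (k : Type) [Field k] (G G' : Type) [Group G] [Group G']
    (e : Nonempty (G ≃* G')) (h : AWCfor ℓ k G) : AWCfor ℓ k G' := by
  rw [← awcD_eq_zero_iff] at h ⊢
  have h2 : awcD ℓ k G = awcD ℓ k G' := awcD_iso ℓ k G G' e
  rw [← h2]; exact h

theorem awc_sub (ℓ : ℕ) (k : Type) [Field k] (H : Type) [Group H] (B : Subgroup H)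
    (h : ∀ K ≤ B, AWCfor ℓ k ↥K) (K : Subgroup ↥B) : AWCfor ℓ k ↥K := by
  have h1 := h (K.map B.subtype) (by
    rintro _ ⟨x, _, rfl⟩
    exact x.2)
  exact awc_iso ℓ k _ _ ⟨(K.equivMapOfInjective _ B.subtype_injective).symm⟩ h1

/-- The key local statement: `W_z(H,Y) = W_z(H,Y')`. -/
theorem W_zproj_congr (ℓ : ℕ) [Fact ℓ.Prime] (k : Type) [Field k] [CharP k ℓ] (H Y Y' : Type)
    [Group H] [Finite H] [MulAction H Y] [Finite Y] [MulAction H Y'] [Finite Y']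
    (h1 : ∀ g h : H, g * h = h * g → ¬ ℓ ∣ orderOf g → ¬ ℓ ∣ orderOf h →
      Nat.card {y : Y // g • y = y ∧ h • y = y} = Nat.card {y : Y' // g • y = y ∧ h • y = y})
    (h2 : ∀ B : Subgroup H, OTriv ℓ B →
      (Nat.card {y : Y // ∀ b ∈ B, b • y = y} = Nat.card {y : Y' // ∀ b ∈ B, b • y = y}) ∨
        ∀ K ≤ B, AWCfor ℓ k ↥K) :
    W ℓ (fun K _ => zproj k K) H Y = W ℓ (fun K _ => zproj k K) H Y' := by
  have hz := zproj_iso k
  have hzp := zp_iso ℓ
  have hd : IsoInv (fun K _ => zproj k K - zp ℓ K) := by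
    intro K K' _ _ e
    change zproj k K - zp ℓ K = zproj k K' - zp ℓ K'
    rw [show zproj k K = zproj k K' from hz K K' e, show zp ℓ K = zp ℓ K' from hzp K K' e]
  have e1 := W_sub ℓ (fun K _ => zproj k K) (fun K _ => zp ℓ K) H Y
  have e2 := W_sub ℓ (fun K _ => zproj k K) (fun K _ => zp ℓ K) H Y'
  have e3 : W ℓ (fun K _ => zp ℓ K) H Y = W ℓ (fun K _ => zp ℓ K) H Y' := W_zp_congr ℓ H Y Y' h1
  have e4 : W ℓ (fun K _ => zproj k K - zp ℓ K) H Y = W ℓ (fun K _ => zproj k K - zp ℓ K) H Y' := by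
    apply W_congr_of_marks ℓ hd
    intro B hB
    rcases h2 B hB with h | h
    · left
      have a1 : ∀ (Z : Type) [MulAction H Z] (y : Z), B ≤ stabilizer H y ↔ ∀ b ∈ B, b • y = y :=
        fun Z _ y => ⟨fun h b hb => h hb, fun h b hb => h b hb⟩
      simp only [a1]
      exact h
    · right
      intro K hK
      rw [zp_eq_zproj_of_awc ℓ k ↥K (awc_sub ℓ k H K (fun K' hK' => h K' (hK'.trans hK))), sub_self]
  linarith

/-- `k(F)` as a sum over the centric radical subgroups. -/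
theorem k_eq {S : Type} [Group S] [Finite S] {ℓ : ℕ} [Fact ℓ.Prime]
    (hS : IsPGroup ℓ S) {F : FusionSystem S} (hF : F.Saturated ℓ) (k : Type) [Field k] [CharP k ℓ] :
    F.k ℓ k = clsum (F.subSetoid fun P => F.Centric P ∧ F.Radical ℓ P)
      (fun Q => W ℓ (fun K _ => zproj k K) (F.OutF Q.1) (ConjClasses Q.1)) := by
  have h0 : ∀ (K : Type) [Group K] [Finite K], ¬ OTriv ℓ K → zproj k K = 0 :=
    fun K _ _ h => zproj_eq_zero ℓ k K h
  have hz : IsoInv (fun K _ => zproj k K) := zproj_iso k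
  rw [clsum_W_classes hS hz, clsum_QT_eq_DT hS hF hz h0, clsum_DT_eq_ZT hS hz, ← kζ_eq hF hz h0]
  rfl

theorem finite_classes (Q : Type) [Group Q] [Finite Q] : Finite (ConjClasses Q) := inferInstance

/-- The local criterion. -/
theorem m_eq_k_of_local {S : Type} [Group S] [Finite S] {ℓ : ℕ} [Fact ℓ.Prime]
    (hS : IsPGroup ℓ S) {F : FusionSystem S} (hF : F.Saturated ℓ) (k : Type) [Field k] [CharP k ℓ]
    (hloc : ∀ Q : Subgroup S, F.Centric Q → F.Radical ℓ Q → ∀ B : Subgroup (F.OutF Q), OTriv ℓ B →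
      (Nat.card {χ : Irr Q // ∀ b ∈ B, b • χ = χ} = Nat.card {c : ConjClasses Q // ∀ b ∈ B, b • c = c})
        ∨ ∀ K ≤ B, AWCfor ℓ k ↥K) :
    F.m ℓ k = F.k ℓ k := by

  rw [k_eq hS hF k, m_eq F ℓ k]
  apply clsum_congr
  rintro ⟨Q, hQ, hr⟩
  have : Finite (Irr Q) := irr_finite Q
  have hQp : IsPGroup ℓ Q := hS.to_subgroup Q
  exact W_zproj_congr ℓ k (F.OutF Q) (Irr Q) (ConjClasses Q)
    (fun g h hgh hg hh => irr_fixed_out ℓ hQp (F.AutF Q) g h hgh hg hh) (hloc Q hQ hr)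

end Pool.FS95
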