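import Pool.Agent.LibFS95.Main1
import Pool.Agent.LibFS95.K6
import Pool.Agent.LibFS95.N5

/-! Alperin's weight conjecture for `ℓ`-nilpotent groups with cyclic Sylow `ℓ`-subgroups, and the
unconditional family. -/

set_option autoImplicit false
noncomputable section
open MulAction
namespace Pool.FS95

theorem nilCyc_sub (ℓ : ℕ) (H : Type) [Group H] [Finite H] (h : NilCyc ℓ H) (K : Subgroup H) :
    NilCyc ℓ ↥K := by
  obtain ⟨N, hN, h1, h2, h3⟩ := h
  let f : ↥K →* H ⧸ N := (QuotientGroup.mk' N).comp K.subtype
  have hk : f.ker = N.subgroupOf K := by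
    ext x
    simp [f, MonoidHom.mem_ker, Subgroup.mem_subgroupOf]
  have hinj : Function.Injective (QuotientGroup.kerLift f) := QuotientGroup.kerLift_injective f
  refine ⟨f.ker, inferInstance, ?_, ?_, ?_⟩
  · intro hd
    apply h1
    rw [hk] at hd
    have h4 : Nat.card (N.subgroupOf K) ∣ Nat.card N := by
      have h5 : Nat.card (N.subgroupOf K) = Nat.card ((N.subgroupOf K).map K.subtype) :=
        Nat.card_congr ((N.subgroupOf K).equivMapOfInjective _ K.subtype_injective).toEquiv
      rw [h5]
      exact Subgroup.card_dvd_of_le (by rintro _ ⟨x, hx, rfl⟩; exact hx)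
    exact hd.trans h4
  · exact h2.of_injective _ hinj
  · exact isCyclic_of_injective _ hinj

theorem awc_of_nilCyc (ℓ : ℕ) [Fact ℓ.Prime] (k : Type) [Field k] [IsAlgClosed k] [CharP k ℓ] :
    ∀ n : ℕ, ∀ (H : Type) [Group H] [Finite H], Nat.card H = n → NilCyc ℓ H → AWCfor ℓ k H := by
  intro n
  induction n using Nat.strong_induction_on with
  | _ n ih =>
    intro H _ _ hn hH
    by_cases hO : OTriv ℓ H
    · rw [← awcD_eq_zero_iff,
        ← zp_sub_zproj_min ℓ k H hO (fun K hK => ih (Nat.card ↥K) (by
          rw [← hn]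
          exact lt_of_le_of_ne (Subgroup.card_le_card_group K)
            (fun h => hK (Subgroup.eq_top_of_card_eq K h))) ↥K rfl (nilCyc_sub ℓ H hH K))]
      obtain ⟨N, hN, h1, h2, h3⟩ := hH
      rw [zp_eq_zproj_of_nilp ℓ k H N h1 h2 h3, sub_self]
    · unfold OTriv at hO
      push Not at hO
      obtain ⟨M, hM, hMp, hne⟩ := hO
      have hlt : Nat.card (H ⧸ M) < Nat.card H := by
        have h1 : Nat.card H = Nat.card (H ⧸ M) * Nat.card M :=
          Subgroup.card_eq_card_quotient_mul_card_subgroup M
        have h2 : 1 < Nat.card M := by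
          rw [Subgroup.one_lt_card_iff_ne_bot]; exact hne
        have h3 : 0 < Nat.card (H ⧸ M) := Nat.card_pos
        rw [h1]
        nlinarith
      refine awc_quot ℓ k H M hMp (ih _ (hn ▸ hlt) (H ⧸ M) rfl ?_)
      -- the quotient is again of this kind
      obtain ⟨N, hN, h1, h2, h3⟩ := hH
      let N' : Subgroup (H ⧸ M) := N.map (QuotientGroup.mk' M)
      have hN' : N'.Normal := hN.map _ (QuotientGroup.mk'_surjective M)
      refine ⟨N', hN', ?_, ?_, ?_⟩
      · intro hd
        apply h1
        exact hd.trans (Subgroup.card_map_dvd _ _)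
      · let g : H ⧸ N →* (H ⧸ M) ⧸ N' := QuotientGroup.lift N
          ((QuotientGroup.mk' N').comp (QuotientGroup.mk' M)) (by
            intro x hx
            rw [MonoidHom.mem_ker, MonoidHom.comp_apply]
            exact (QuotientGroup.eq_one_iff _).2 ⟨x, hx, rfl⟩)
        have hg : Function.Surjective g := by
          intro y
          obtain ⟨z, rfl⟩ := QuotientGroup.mk'_surjective N' y
          obtain ⟨x, rfl⟩ := QuotientGroup.mk'_surjective M z
          exact ⟨QuotientGroup.mk' N x, rfl⟩
        exact h2.of_surjective g hg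
      · let g : H ⧸ N →* (H ⧸ M) ⧸ N' := QuotientGroup.lift N
          ((QuotientGroup.mk' N').comp (QuotientGroup.mk' M)) (by
            intro x hx
            rw [MonoidHom.mem_ker, MonoidHom.comp_apply]
            exact (QuotientGroup.eq_one_iff _).2 ⟨x, hx, rfl⟩)
        have hg : Function.Surjective g := by
          intro y
          obtain ⟨z, rfl⟩ := QuotientGroup.mk'_surjective N' y
          obtain ⟨x, rfl⟩ := QuotientGroup.mk'_surjective M z
          exact ⟨QuotientGroup.mk' N x, rfl⟩
        exact isCyclic_of_surjective g hg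

end Pool.FS95
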