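import Pool.Agent.LibFS95.E0

/-!
Row N1: the Euler characteristic for `B ≤ N`, where `N ⊴ H` is an `ℓ'`-group and `H/N` a cyclic `ℓ`-group.

Plan. By `eul_eq` (E0) the sum is over the normal chains of `ℓ`-subgroups `X` normalised by `B`. For such `X`: `[X, B] ≤ X ⊓ N = ⊥`, so `X` centralises `B`; conversely. Every `ℓ`-subgroup of `H` embeds in `H/N`, so it is cyclic; a non-trivial one contains exactly one subgroup `Ω` of order `ℓ`, and if
`X ≤ Y` are non-trivial they have the same `Ω`. For a chain `σ ≠ {⊥}` let `Ω` be the subgroup of order `ℓ` of its top. Chains `σ` other than `{⊥}` and `{⊥, Ω}` cancel by adding/removing `Ω` (all subgroups of a cyclic group are normal and comparable here; `Ω ≤ X` for all `X ∈ σ`, `X ≠ ⊥`;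
the top is not changed because `σ ≠ {⊥, Ω}`). `{⊥}` gives `1`, the chains `{⊥, Ω}` give `-1` each.
-/

set_option autoImplicit false
noncomputable section
open MulAction
namespace Pool.FS95

section n1
variable {ℓ : ℕ} [hℓ : Fact ℓ.Prime] {H : Type} [Group H] [Finite H] {N : Subgroup H} [N.Normal]

private theorem n1_inf (hN : ¬ ℓ ∣ Nat.card N) {T : Subgroup H} (hT : IsPGroup ℓ T) :
    T ⊓ N = ⊥ := by
  obtain ⟨n, hn⟩ := IsPGroup.iff_card.1 hT
  apply Subgroup.inf_eq_bot_of_coprime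
  rw [hn]
  exact Nat.Coprime.pow_left n ((Nat.Prime.coprime_iff_not_dvd hℓ.out).2 hN)

private theorem n1_cyc (hN : ¬ ℓ ∣ Nat.card N) (hc : IsCyclic (H ⧸ N)) {T : Subgroup H}
    (hT : IsPGroup ℓ T) : IsCyclic T := by
  have := hc
  refine isCyclic_of_injective ((QuotientGroup.mk' N).comp T.subtype) ?_
  rw [← MonoidHom.ker_eq_bot_iff, eq_bot_iff]
  intro t ht
  have h1 : (t : H) ∈ N := (QuotientGroup.eq_one_iff _).1 ht
  have h2 : (t : H) ∈ T ⊓ N := Subgroup.mem_inf.2 ⟨t.2, h1⟩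
  rw [n1_inf hN hT] at h2
  exact Subgroup.mem_bot.2 (Subtype.ext (Subgroup.mem_bot.1 h2))

private theorem n1_comm (hN : ¬ ℓ ∣ Nat.card N) (hc : IsCyclic (H ⧸ N)) {T : Subgroup H}
    (hT : IsPGroup ℓ T) {a b : H} (ha : a ∈ T) (hb : b ∈ T) : a * b = b * a := by
  have := n1_cyc hN hc hT
  have h := (IsCyclic.commGroup (α := T)).mul_comm ⟨a, ha⟩ ⟨b, hb⟩
  exact congrArg Subtype.val h

private theorem n1_mem_iff (hN : ¬ ℓ ∣ Nat.card N) (hc : IsCyclic (H ⧸ N)) {T : Subgroup H}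
    (hT : IsPGroup ℓ T) {X : Subgroup H} (hX : X ≤ T) (cX : Nat.card X = ℓ) (a : T) :
    (a : H) ∈ X ↔ a ^ ℓ = 1 := by
  classical
  have := n1_cyc hN hc hT
  have := Fintype.ofFinite T
  have h1 : (Finset.univ.filter fun a : T => (a : H) ∈ X) ⊆
      Finset.univ.filter fun a : T => a ^ ℓ = 1 := by
    intro b hb
    rw [Finset.mem_filter] at hb ⊢
    refine ⟨hb.1, ?_⟩
    have h2 : (⟨(b : H), hb.2⟩ : X) ^ Nat.card X = 1 := pow_card_eq_one'
    rw [cX] at h2
    apply Subtype.ext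
    have h3 := congrArg Subtype.val h2
    simpa using h3
  have h2 : (Finset.univ.filter fun a : T => a ^ ℓ = 1).card ≤
      (Finset.univ.filter fun a : T => (a : H) ∈ X).card := by
    refine (IsCyclic.card_pow_eq_one_le hℓ.out.pos).trans ?_
    rw [← Fintype.card_subtype, ← Nat.card_eq_fintype_card]
    refine le_of_eq ?_
    rw [← cX]
    exact Nat.card_congr ⟨fun x => ⟨⟨x.1, hX x.2⟩, x.2⟩, fun y => ⟨y.1.1, y.2⟩, fun _ => rfl,
      fun _ => rfl⟩
  have h3 := Finset.eq_of_subset_of_card_le h1 h2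
  have h4 := Finset.ext_iff.1 h3 a
  rw [Finset.mem_filter, Finset.mem_filter] at h4
  constructor
  · intro h
    exact (h4.1 ⟨Finset.mem_univ _, h⟩).2
  · intro h
    exact (h4.2 ⟨Finset.mem_univ _, h⟩).2

private theorem n1_uniq (hN : ¬ ℓ ∣ Nat.card N) (hc : IsCyclic (H ⧸ N)) {T : Subgroup H}
    (hT : IsPGroup ℓ T) {X Y : Subgroup H} (hX : X ≤ T) (hY : Y ≤ T) (cX : Nat.card X = ℓ)
    (cY : Nat.card Y = ℓ) : X = Y := by
  ext a
  constructor
  · intro ha
    exact (n1_mem_iff hN hc hT hY cY ⟨a, hX ha⟩).2 ((n1_mem_iff hN hc hT hX cX ⟨a, hX ha⟩).1 ha)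
  · intro ha
    exact (n1_mem_iff hN hc hT hX cX ⟨a, hY ha⟩).2 ((n1_mem_iff hN hc hT hY cY ⟨a, hY ha⟩).1 ha)

omit [Finite H] in
private theorem n1_exists [Finite H] {T : Subgroup H} (hT : IsPGroup ℓ T) (h : T ≠ ⊥) :
    ∃ X ≤ T, Nat.card X = ℓ := by
  obtain ⟨n, hn⟩ := IsPGroup.iff_card.1 hT
  have hn0 : n ≠ 0 := by
    rintro rfl
    rw [pow_zero] at hn
    exact h (Subgroup.card_eq_one.1 hn)
  have hd : ℓ ∣ Nat.card T := by
    rw [hn]
    exact dvd_pow_self ℓ hn0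
  obtain ⟨x, hx⟩ := exists_prime_orderOf_dvd_card' ℓ hd
  refine ⟨Subgroup.zpowers (x : H), ?_, ?_⟩
  · rw [Subgroup.zpowers_le]
    exact x.2
  · rw [Nat.card_zpowers, Subgroup.orderOf_coe, hx]

private theorem n1_central (hN : ¬ ℓ ∣ Nat.card N) {B : Subgroup H} (hB : B ≤ N) {T : Subgroup H}
    (hT : IsPGroup ℓ T) (hBT : B ≤ Subgroup.normalizer (T : Set H)) {b t : H} (hb : b ∈ B)
    (ht : t ∈ T) : b * t = t * b := by
  have h1 : b * t * b⁻¹ ∈ T := (Subgroup.mem_normalizer_iff.1 (hBT hb) t).1 ht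
  have h2 : b * t * b⁻¹ * t⁻¹ ∈ T := T.mul_mem h1 (T.inv_mem ht)
  have h3 : b * t * b⁻¹ * t⁻¹ ∈ N := by
    have h4 : t * b⁻¹ * t⁻¹ ∈ N := Subgroup.Normal.conj_mem inferInstance _ (N.inv_mem (hB hb)) t
    have h5 : b * t * b⁻¹ * t⁻¹ = b * (t * b⁻¹ * t⁻¹) := by group
    rw [h5]
    exact N.mul_mem (hB hb) h4
  have h6 : b * t * b⁻¹ * t⁻¹ ∈ T ⊓ N := Subgroup.mem_inf.2 ⟨h2, h3⟩
  rw [n1_inf hN hT, Subgroup.mem_bot] at h6
  calc b * t = b * t * b⁻¹ * t⁻¹ * (t * b) := by group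
    _ = t * b := by rw [h6, one_mul]

omit [Finite H] in
private theorem n1_norm {X : Subgroup H} {g : H} (h : ∀ x ∈ X, g * x = x * g) :
    g ∈ Subgroup.normalizer (X : Set H) := by
  rw [Subgroup.mem_normalizer_iff]
  intro x
  constructor
  · intro hx
    have : g * x * g⁻¹ = x := by rw [h x hx]; group
    rw [this]
    exact hx
  · intro hx
    have h1 := h _ hx
    have : g * x * g⁻¹ = x := mul_left_cancel (a := g) (by rw [h1]; group)
    rwa [this] at hx

omit [Finite H] hℓ in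
private theorem n1_chain [Fact ℓ.Prime] {B T : Subgroup H} (hT : IsPGroup ℓ T)
    (hcomm : ∀ a ∈ T, ∀ b ∈ T, a * b = b * a) (hcen : ∀ b ∈ B, ∀ t ∈ T, b * t = t * b)
    {σ : Set (Subgroup H)} (h0 : ⊥ ∈ σ) (htot : ∀ X ∈ σ, ∀ Y ∈ σ, X ≤ Y ∨ Y ≤ X)
    (hle : ∀ X ∈ σ, X ≤ T) : IsPChain ℓ B σ ∧ NormalSet σ :=
  ⟨⟨h0, fun X hX => hT.to_le (hle X hX), htot, fun X hX b hb =>
    n1_norm fun x hx => hcen b hb x (hle X hX hx)⟩, fun X hX Y hY _ y hy =>
    n1_norm fun x hx => hcomm y (hle Y hY hy) x (hle X hX hx)⟩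

private theorem n1_prime {X T : Subgroup H} (hX : X ≤ T) (hT : Nat.card T = ℓ) :
    X = ⊥ ∨ X = T := by
  have h1 : Nat.card X ∣ ℓ := hT ▸ Subgroup.card_dvd_of_le hX
  rcases (Nat.dvd_prime hℓ.out).1 h1 with h | h
  · exact Or.inl (Subgroup.card_eq_one.1 h)
  · exact Or.inr (Subgroup.eq_of_le_of_card_ge hX (by rw [h, hT]))

private theorem n1_sign {σ : Set (Subgroup H)} {X : Subgroup H} (h0 : ⊥ ∈ σ) (hX : X ∉ σ) :
    ((-1 : ℤ) ^ (σ.ncard - 1)) + (-1) ^ ((insert X σ).ncard - 1) = 0 := by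
  have h1 : 0 < σ.ncard := (Set.ncard_pos (Set.toFinite σ)).2 ⟨⊥, h0⟩
  rw [Set.ncard_insert_of_notMem hX (Set.toFinite σ)]
  obtain ⟨n, hn⟩ : ∃ n, σ.ncard = n + 1 := ⟨σ.ncard - 1, by omega⟩
  rw [hn]
  have h2 : n + 1 + 1 - 1 = n + 1 := by omega
  rw [h2, Nat.add_sub_cancel, pow_succ]
  ring

end n1

theorem eul_nilp (ℓ : ℕ) [Fact ℓ.Prime] (H : Type) [Group H] [Finite H] (N : Subgroup H) [N.Normal]
    (hN : ¬ ℓ ∣ Nat.card N) (hP : IsPGroup ℓ (H ⧸ N)) (hc : IsCyclic (H ⧸ N)) (B : Subgroup H)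
    (hB : B ≤ N) :
    eul ℓ B = 1 - (Nat.card {X : Subgroup H // Nat.card X = ℓ ∧ ∀ b ∈ B, ∀ x ∈ X, b * x = x * b} : ℤ) := by
  classical
  have hprime : ℓ.Prime := Fact.out
  have := Fintype.ofFinite (Subgroup H)
  let 𝒞 : Finset (Set (Subgroup H)) :=
    Finset.univ.filter fun σ => IsPChain ℓ B σ ∧ NormalSet σ
  have h𝒞 : ∀ σ, σ ∈ 𝒞 ↔ IsPChain ℓ B σ ∧ NormalSet σ := fun σ => by
    simp only [𝒞, Finset.mem_filter, Finset.mem_univ, true_and]
  have heul : eul ℓ B = ∑ σ ∈ 𝒞, (-1 : ℤ) ^ (σ.ncard - 1) := by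
    rw [eul_eq, finsum_eq_sum_of_fintype]
    exact (Finset.sum_subtype 𝒞 h𝒞 fun σ => (-1 : ℤ) ^ (σ.ncard - 1)).symm
  -- the top of a chain
  have htop : ∀ σ, IsPChain ℓ B σ → sSup σ ∈ σ := fun σ hσ =>
    sSup_mem_of_total ⟨⊥, hσ.bot_mem⟩ hσ.total
  have hcomm : ∀ T : Subgroup H, IsPGroup ℓ T → ∀ a ∈ T, ∀ b ∈ T, a * b = b * a :=
    fun T hT a ha b hb => n1_comm hN hc hT ha hb
  have hcen : ∀ T : Subgroup H, IsPGroup ℓ T → B ≤ Subgroup.normalizer (T : Set H) →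
      ∀ b ∈ B, ∀ t ∈ T, b * t = t * b :=
    fun T hT hBT b hb t ht => n1_central hN hB hT hBT hb ht
  -- the subgroup of order `ℓ`
  have hω : ∀ T : Subgroup H, ∃ X : Subgroup H, IsPGroup ℓ T → T ≠ ⊥ → X ≤ T ∧ Nat.card X = ℓ := by
    intro T
    by_cases h : IsPGroup ℓ T ∧ T ≠ ⊥
    · obtain ⟨X, hX, hX'⟩ := n1_exists h.1 h.2
      exact ⟨X, fun _ _ => ⟨hX, hX'⟩⟩
    · exact ⟨⊥, fun h1 h2 => absurd ⟨h1, h2⟩ h⟩
  choose ω hω using hω
  -- chains with top of order `ℓ`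
  have hs1 : ∑ σ ∈ 𝒞.filter (fun σ => Nat.card (sSup σ : Subgroup H) = ℓ),
      (-1 : ℤ) ^ (σ.ncard - 1) =
      ∑ _X ∈ (Finset.univ.filter fun X : Subgroup H =>
        Nat.card X = ℓ ∧ ∀ b ∈ B, ∀ x ∈ X, b * x = x * b), (-1 : ℤ) := by
    have hpair : ∀ X : Subgroup H, Nat.card X = ℓ → X ≠ ⊥ := by
      rintro X hX rfl
      rw [Subgroup.card_bot] at hX
      exact hprime.one_lt.ne hX
    have hsup : ∀ X : Subgroup H, sSup ({⊥, X} : Set (Subgroup H)) = X := by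
      intro X
      rw [sSup_insert, sSup_singleton, bot_sup_eq]
    have heq : ∀ σ, IsPChain ℓ B σ → Nat.card (sSup σ : Subgroup H) = ℓ →
        ({⊥, sSup σ} : Set (Subgroup H)) = σ := by
      intro σ hσ h
      ext X
      rw [Set.mem_insert_iff, Set.mem_singleton_iff]
      constructor
      · rintro (rfl | rfl)
        · exact hσ.bot_mem
        · exact htop σ hσ
      · intro hX
        exact n1_prime (le_sSup hX) h
    refine Finset.sum_nbij' (fun σ => sSup σ) (fun X => {⊥, X}) ?_ ?_ ?_ ?_ ?_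
    · intro σ hσ
      obtain ⟨hσ1, hσ2⟩ := Finset.mem_filter.1 hσ
      obtain ⟨h1, h2⟩ := (h𝒞 σ).1 hσ1
      rw [Finset.mem_filter]
      exact ⟨Finset.mem_univ _, hσ2, hcen _ (h1.isPGroup _ (htop σ h1)) (h1.norm _ (htop σ h1))⟩
    · intro X hX
      obtain ⟨_, hX1, hX2⟩ := Finset.mem_filter.1 hX
      rw [Finset.mem_filter, h𝒞, hsup]
      refine ⟨?_, hX1⟩
      have hXP : IsPGroup ℓ X := IsPGroup.of_card (n := 1) (by rw [hX1, pow_one])
      refine n1_chain hXP (hcomm X hXP) hX2 (Set.mem_insert _ _) ?_ ?_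
      · rintro Y (rfl | hY) Z hZ
        · exact Or.inl bot_le
        · rcases hZ with rfl | hZ
          · exact Or.inr bot_le
          · rw [Set.mem_singleton_iff] at hY hZ
            rw [hY, hZ]
            exact Or.inl le_rfl
      · rintro Y (rfl | hY)
        · exact bot_le
        · rw [Set.mem_singleton_iff] at hY
          rw [hY]
    · intro σ hσ
      obtain ⟨hσ1, hσ2⟩ := Finset.mem_filter.1 hσ
      exact heq σ ((h𝒞 σ).1 hσ1).1 hσ2
    · intro X _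
      exact hsup X
    · intro σ hσ
      obtain ⟨hσ1, hσ2⟩ := Finset.mem_filter.1 hσ
      have h1 := heq σ ((h𝒞 σ).1 hσ1).1 hσ2
      rw [← h1, Set.ncard_pair (hpair _ hσ2).symm]
      norm_num
  -- the trivial chain
  have hs0 : ∑ σ ∈ (𝒞.filter (fun σ => ¬ Nat.card (sSup σ : Subgroup H) = ℓ)).filter
      (fun σ => (sSup σ : Subgroup H) = ⊥), (-1 : ℤ) ^ (σ.ncard - 1) = 1 := by
    have h1 : (𝒞.filter (fun σ => ¬ Nat.card (sSup σ : Subgroup H) = ℓ)).filter
      (fun σ => (sSup σ : Subgroup H) = ⊥) = {{⊥}} := by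
      ext σ
      rw [Finset.mem_filter, Finset.mem_filter, h𝒞, Finset.mem_singleton]
      constructor
      · rintro ⟨⟨⟨h1, h2⟩, h3⟩, h4⟩
        ext X
        rw [Set.mem_singleton_iff]
        constructor
        · intro hX
          exact le_bot_iff.1 (h4 ▸ le_sSup hX)
        · rintro rfl
          exact h1.bot_mem
      · rintro rfl
        rw [sSup_singleton]
        refine ⟨⟨?_, ?_⟩, rfl⟩
        · have hb : IsPGroup ℓ (⊥ : Subgroup H) := IsPGroup.of_bot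
          refine n1_chain hb (hcomm _ hb) ?_ rfl ?_ ?_
          · intro b _ t ht
            rw [Subgroup.mem_bot.1 ht, mul_one, one_mul]
          · intro X hX Y hY
            rw [Set.mem_singleton_iff] at hX hY
            rw [hX, hY]
            exact Or.inl le_rfl
          · intro X hX
            rw [Set.mem_singleton_iff] at hX
            rw [hX]
        · rw [Subgroup.card_bot]
          exact hprime.one_lt.ne
    rw [h1, Finset.sum_singleton, Set.ncard_singleton]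
    norm_num
  -- the other chains cancel
  have hs2 : ∑ σ ∈ (𝒞.filter (fun σ => ¬ Nat.card (sSup σ : Subgroup H) = ℓ)).filter
      (fun σ => ¬ (sSup σ : Subgroup H) = ⊥), (-1 : ℤ) ^ (σ.ncard - 1) = 0 := by
    let g : Set (Subgroup H) → Set (Subgroup H) := fun σ =>
      if ω (sSup σ) ∈ σ then σ \ {ω (sSup σ)} else insert (ω (sSup σ)) σ
    -- facts
    have hmem : ∀ σ, σ ∈ (𝒞.filter (fun σ => ¬ Nat.card (sSup σ : Subgroup H) = ℓ)).filter
      (fun σ => ¬ (sSup σ : Subgroup H) = ⊥) ↔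
        ((IsPChain ℓ B σ ∧ NormalSet σ) ∧ ¬ Nat.card (sSup σ : Subgroup H) = ℓ) ∧
          ¬ (sSup σ : Subgroup H) = ⊥ := fun σ => by
      rw [Finset.mem_filter, Finset.mem_filter, h𝒞]
    have hfacts : ∀ σ, ((IsPChain ℓ B σ ∧ NormalSet σ) ∧ ¬ Nat.card (sSup σ : Subgroup H) = ℓ) ∧
          ¬ (sSup σ : Subgroup H) = ⊥ →
        ω (sSup σ) ≤ sSup σ ∧ ω (sSup σ) ≠ sSup σ ∧ ω (sSup σ) ≠ ⊥ ∧
          ∀ X ∈ σ, X ≠ ⊥ → ω (sSup σ) ≤ X := by
      rintro σ ⟨⟨⟨h1, h2⟩, h3⟩, h4⟩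
      have hTP := h1.isPGroup _ (htop σ h1)
      obtain ⟨h5, h6⟩ := hω (sSup σ) hTP h4
      refine ⟨h5, ?_, ?_, ?_⟩
      · intro h
        rw [h] at h6
        exact h3 h6
      · intro h
        rw [h, Subgroup.card_bot] at h6
        exact hprime.one_lt.ne h6
      · intro X hX hX0
        obtain ⟨Y, hY, hY'⟩ := n1_exists (h1.isPGroup X hX) hX0
        rw [n1_uniq hN hc hTP h5 (hY.trans (le_sSup hX)) h6 hY']
        exact hY
    have hsup : ∀ σ, ((IsPChain ℓ B σ ∧ NormalSet σ) ∧ ¬ Nat.card (sSup σ : Subgroup H) = ℓ) ∧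
          ¬ (sSup σ : Subgroup H) = ⊥ → sSup (g σ) = sSup σ := by
      intro σ hσ
      obtain ⟨f1, f2, f3, f4⟩ := hfacts σ hσ
      by_cases h : ω (sSup σ) ∈ σ
      · simp only [g, if_pos h]
        refine le_antisymm (sSup_le_sSup Set.sdiff_subset) ?_
        exact le_sSup ⟨htop σ hσ.1.1.1, fun h' => f2 h'.symm⟩
      · simp only [g, if_neg h]
        rw [sSup_insert]
        exact sup_eq_right.2 f1
    have hg : ∀ σ, ((IsPChain ℓ B σ ∧ NormalSet σ) ∧ ¬ Nat.card (sSup σ : Subgroup H) = ℓ) ∧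
          ¬ (sSup σ : Subgroup H) = ⊥ →
        ((IsPChain ℓ B (g σ) ∧ NormalSet (g σ)) ∧ ¬ Nat.card (sSup (g σ) : Subgroup H) = ℓ) ∧
          ¬ (sSup (g σ) : Subgroup H) = ⊥ := by
      intro σ hσ
      obtain ⟨f1, f2, f3, f4⟩ := hfacts σ hσ
      rw [hsup σ hσ]
      refine ⟨⟨?_, hσ.1.2⟩, hσ.2⟩
      obtain ⟨⟨⟨h1, h2⟩, h3⟩, h4⟩ := hσ
      have hTP := h1.isPGroup _ (htop σ h1)
      have hBT := h1.norm _ (htop σ h1)
      by_cases h : ω (sSup σ) ∈ σ
      · simp only [g, if_pos h]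
        refine n1_chain hTP (hcomm _ hTP) (hcen _ hTP hBT) ⟨h1.bot_mem, fun h' => f3 h'.symm⟩ ?_ ?_
        · intro X hX Y hY
          exact h1.total X hX.1 Y hY.1
        · intro X hX
          exact le_sSup hX.1
      · simp only [g, if_neg h]
        refine n1_chain hTP (hcomm _ hTP) (hcen _ hTP hBT) (Set.mem_insert_of_mem _ h1.bot_mem) ?_ ?_
        · rintro X (rfl | hX) Y (rfl | hY)
          · exact Or.inl le_rfl
          · by_cases hY0 : Y = ⊥
            · rw [hY0]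
              exact Or.inr bot_le
            · exact Or.inl (f4 Y hY hY0)
          · by_cases hX0 : X = ⊥
            · rw [hX0]
              exact Or.inl bot_le
            · exact Or.inr (f4 X hX hX0)
          · exact h1.total X hX Y hY
        · rintro X (rfl | hX)
          · exact f1
          · exact le_sSup hX
    refine Finset.sum_involution (fun σ _ => g σ) ?_ ?_ ?_ ?_
    · intro σ hσ
      rw [hmem] at hσ
      obtain ⟨f1, f2, f3, f4⟩ := hfacts σ hσ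
      by_cases h : ω (sSup σ) ∈ σ
      · simp only [g, if_pos h]
        have h1 := n1_sign (σ := σ \ {ω (sSup σ)}) (X := ω (sSup σ))
          ⟨hσ.1.1.1.bot_mem, fun h' => f3 h'.symm⟩ (fun h' => h'.2 rfl)
        rw [Set.insert_sdiff_singleton, Set.insert_eq_of_mem h] at h1
        rw [add_comm]
        exact h1
      · simp only [g, if_neg h]
        exact n1_sign hσ.1.1.1.bot_mem h
    · intro σ hσ _
      by_cases h : ω (sSup σ) ∈ σ
      · simp only [g, if_pos h]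
        intro h'
        rw [← h'] at h
        exact h.2 (by rw [h']; rfl)
      · simp only [g, if_neg h]
        intro h'
        have h2 := Set.mem_insert (ω (sSup σ)) σ
        rw [h'] at h2
        exact h h2
    · intro σ hσ
      rw [hmem] at hσ ⊢
      exact hg σ hσ
    · intro σ hσ
      rw [hmem] at hσ
      have h1 := hsup σ hσ
      by_cases h : ω (sSup σ) ∈ σ
      · have h2 : g σ = σ \ {ω (sSup σ)} := by simp only [g, if_pos h]
        have h3 : ω (sSup (g σ)) ∉ g σ := by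
          rw [h1, h2]
          exact fun h' => h'.2 rfl
        have h4 : g (g σ) = insert (ω (sSup (g σ))) (g σ) := if_neg h3
        rw [h4, h1, h2, Set.insert_sdiff_singleton, Set.insert_eq_of_mem h]
      · have h2 : g σ = insert (ω (sSup σ)) σ := by simp only [g, if_neg h]
        have h3 : ω (sSup (g σ)) ∈ g σ := by
          rw [h1, h2]
          exact Set.mem_insert _ _
        have h4 : g (g σ) = g σ \ {ω (sSup (g σ))} := if_pos h3
        rw [h4, h1, h2]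
        exact Set.insert_sdiff_self_of_notMem h
  rw [heul, ← Finset.sum_filter_add_sum_filter_not 𝒞
    (fun σ => Nat.card (sSup σ : Subgroup H) = ℓ), hs1,
    ← Finset.sum_filter_add_sum_filter_not (𝒞.filter (fun σ => ¬ Nat.card (sSup σ : Subgroup H) = ℓ))
    (fun σ => (sSup σ : Subgroup H) = ⊥), hs0, hs2, Finset.sum_const, ← Fintype.card_subtype,
    ← Nat.card_eq_fintype_card, smul_neg, nsmul_eq_mul, mul_one]
  ring

end Pool.FS95
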