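import Pool.Agent.LibFS95.Ch

/-!
Row N2: the subgroups of order `ℓ` of `H` (same setting as N1): they are all conjugate under `N`, and `N_N(X) = C_N(X)`.
-/

set_option autoImplicit false
noncomputable section
open MulAction
namespace Pool.FS95

/-- in a cyclic group a subgroup of order `ℓ` contains all elements with `a ^ ℓ = 1` -/
private theorem n2_mem {ℓ : ℕ} (hℓ : ℓ.Prime) {C : Type} [Group C] [Finite C] [IsCyclic C]
    {Z : Subgroup C} (hZ : Nat.card Z = ℓ) {a : C} (ha : a ^ ℓ = 1) : a ∈ Z := by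
  classical
  haveI := Fintype.ofFinite C
  have h1 : (Finset.univ.filter fun a : C => a ∈ Z) ⊆
      Finset.univ.filter fun a : C => a ^ ℓ = 1 := by
    intro b hb
    rw [Finset.mem_filter] at hb ⊢
    refine ⟨hb.1, ?_⟩
    have h2 : (⟨b, hb.2⟩ : Z) ^ Nat.card Z = 1 := pow_card_eq_one'
    rw [hZ] at h2
    have h3 := congrArg Subtype.val h2
    simpa using h3
  have h2 : (Finset.univ.filter fun a : C => a ^ ℓ = 1).card ≤
      (Finset.univ.filter fun a : C => a ∈ Z).card := by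
    refine (IsCyclic.card_pow_eq_one_le hℓ.pos).trans ?_
    rw [← Fintype.card_subtype, ← Nat.card_eq_fintype_card]
    exact le_of_eq hZ.symm
  have h3 := Finset.eq_of_subset_of_card_le h1 h2
  have h4 := (Finset.ext_iff.1 h3 a).2 (Finset.mem_filter.2 ⟨Finset.mem_univ _, ha⟩)
  exact (Finset.mem_filter.1 h4).2

section n2

variable {ℓ : ℕ} [hℓ : Fact ℓ.Prime] {H : Type} [Group H] [Finite H] {N : Subgroup H} [N.Normal]

private theorem n2_inf (hN : ¬ ℓ ∣ Nat.card N) {X : Subgroup H} (hX : Nat.card X = ℓ) {x : H}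
    (h1 : x ∈ X) (h2 : x ∈ N) : x = 1 := by
  have h3 : X ⊓ N = ⊥ := by
    apply Subgroup.inf_eq_bot_of_coprime
    rw [hX]
    exact (Nat.Prime.coprime_iff_not_dvd hℓ.out).2 hN
  have h4 : x ∈ X ⊓ N := Subgroup.mem_inf.2 ⟨h1, h2⟩
  rw [h3] at h4
  exact Subgroup.mem_bot.1 h4

private theorem n2_dec (hN : ¬ ℓ ∣ Nat.card N) (hc : IsCyclic (H ⧸ N)) {X Y : Subgroup H}
    (hX : Nat.card X = ℓ) (hY : Nat.card Y = ℓ) {y : H} (hy : y ∈ Y) :
    ∃ x ∈ X, y * x⁻¹ ∈ N := by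
  haveI := hc
  have hinj : Function.Injective ((QuotientGroup.mk' N).comp X.subtype) := by
    rw [← MonoidHom.ker_eq_bot_iff, eq_bot_iff]
    intro t ht
    have h1 : (t : H) ∈ N := (QuotientGroup.eq_one_iff _).1 ht
    exact Subgroup.mem_bot.2 (Subtype.ext (n2_inf hN hX t.2 h1))
  have hZ : Nat.card ((QuotientGroup.mk' N).comp X.subtype).range = ℓ := by
    rw [← hX]
    exact (Nat.card_congr (MonoidHom.ofInjective hinj).toEquiv).symm
  have hy1 : (QuotientGroup.mk' N y) ^ ℓ = 1 := by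
    have h2 : (⟨y, hy⟩ : Y) ^ Nat.card Y = 1 := pow_card_eq_one'
    rw [hY] at h2
    have h3 : y ^ ℓ = 1 := by
      have := congrArg Subtype.val h2
      simpa using this
    rw [← map_pow, h3, map_one]
  obtain ⟨x, hx⟩ := n2_mem hℓ.out hZ hy1
  refine ⟨x.1, x.2, ?_⟩
  have h4 : QuotientGroup.mk' N x.1 = QuotientGroup.mk' N y := hx
  rw [← QuotientGroup.eq_one_iff]
  change QuotientGroup.mk' N (y * x.1⁻¹) = 1
  rw [map_mul, map_inv, h4, mul_inv_cancel]

private theorem n2_card_cj (h : H) (X : Subgroup H) : Nat.card (cj h X) = Nat.card X :=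
  (Nat.card_congr (X.equivMapOfInjective _ (MulAut.conj h).injective).toEquiv).symm

private theorem n2_conj (hN : ¬ ℓ ∣ Nat.card N) (hc : IsCyclic (H ⧸ N)) {X Y : Subgroup H}
    (hX : Nat.card X = ℓ) (hY : Nat.card Y = ℓ) : ∃ n ∈ N, cj n X = Y := by
  have hYp : IsPGroup ℓ Y := IsPGroup.of_card (n := 1) (by rw [hY, pow_one])
  letI i1 : MulAction Y {c : H ⧸ X // ∃ n ∈ N, c = (QuotientGroup.mk n : H ⧸ X)} :=
    { smul := fun y c => ⟨y.1 • c.1, by
        obtain ⟨c, n, hn, rfl⟩ := c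
        obtain ⟨x, hx, hyx⟩ := n2_dec hN hc hX hY y.2
        refine ⟨y.1 * n * x⁻¹, ?_, ?_⟩
        · have h1 : y.1 * n * x⁻¹ = (y.1 * n * y.1⁻¹) * (y.1 * x⁻¹) := by group
          rw [h1]
          exact N.mul_mem (Subgroup.Normal.conj_mem inferInstance n hn y.1) hyx
        · change (QuotientGroup.mk (y.1 * n) : H ⧸ X) = _
          rw [QuotientGroup.eq]
          have h1 : (y.1 * n)⁻¹ * (y.1 * n * x⁻¹) = x⁻¹ := by group
          rw [h1]
          exact X.inv_mem hx⟩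
      one_smul := fun c => Subtype.ext (one_smul H c.1)
      mul_smul := fun y z c => Subtype.ext (mul_smul y.1 z.1 c.1) }
  have hcard : Nat.card {c : H ⧸ X // ∃ n ∈ N, c = (QuotientGroup.mk n : H ⧸ X)} = Nat.card N := by
    symm
    refine Nat.card_congr (Equiv.ofBijective (fun n : N =>
      (⟨(QuotientGroup.mk n.1 : H ⧸ X), n.1, n.2, rfl⟩ :
        {c : H ⧸ X // ∃ n ∈ N, c = (QuotientGroup.mk n : H ⧸ X)})) ⟨?_, ?_⟩)
    · intro m n hmn
      have h1 : (QuotientGroup.mk m.1 : H ⧸ X) = QuotientGroup.mk n.1 := congrArg Subtype.val hmn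
      rw [QuotientGroup.eq] at h1
      have h2 := n2_inf hN hX h1 (N.mul_mem (N.inv_mem m.2) n.2)
      apply Subtype.ext
      rw [inv_mul_eq_one] at h2
      exact h2
    · rintro ⟨c, n, hn, rfl⟩
      exact ⟨⟨n, hn⟩, rfl⟩
  obtain ⟨c, hcf⟩ := hYp.nonempty_fixed_point_of_prime_not_dvd_card
    {c : H ⧸ X // ∃ n ∈ N, c = (QuotientGroup.mk n : H ⧸ X)} (by rw [hcard]; exact hN)
  obtain ⟨c, n, hn, rfl⟩ := c
  refine ⟨n, hn, ?_⟩
  symm
  apply Subgroup.eq_of_le_of_card_ge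
  · intro y hy
    have h1 : (QuotientGroup.mk (y * n) : H ⧸ X) = QuotientGroup.mk n :=
      congrArg Subtype.val (hcf ⟨y, hy⟩)
    rw [eq_comm, QuotientGroup.eq] at h1
    rw [mem_cj]
    exact ⟨n⁻¹ * (y * n), h1, by group⟩
  · rw [n2_card_cj, hX, hY]

end n2

theorem card_order_l (ℓ : ℕ) [Fact ℓ.Prime] (H : Type) [Group H] [Finite H] (N : Subgroup H)
    [N.Normal] (hN : ¬ ℓ ∣ Nat.card N) (hP : IsPGroup ℓ (H ⧸ N)) (hc : IsCyclic (H ⧸ N))
    (X : Subgroup H) (hX : Nat.card X = ℓ) :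
    Nat.card {Y : Subgroup H // Nat.card Y = ℓ} *
      Nat.card ↥(Subgroup.centralizer (X : Set H) ⊓ N) = Nat.card N ∧
    ∀ Y : Subgroup H, Nat.card Y = ℓ → ∃ n ∈ N, cj n X = Y := by
  refine ⟨?_, fun Y hY => n2_conj hN hc hX hY⟩
  letI i1 : MulAction N {Y : Subgroup H // Nat.card Y = ℓ} :=
    { smul := fun n Y => ⟨cj n.1 Y.1, by rw [n2_card_cj]; exact Y.2⟩
      one_smul := fun Y => Subtype.ext (cj_one Y.1)
      mul_smul := fun m n Y => Subtype.ext (cj_mul m.1 n.1 Y.1) }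
  haveI i2 : IsPretransitive N {Y : Subgroup H // Nat.card Y = ℓ} := by
    refine ⟨fun Y Z => ?_⟩
    obtain ⟨n, hn, h⟩ := n2_conj hN hc Y.2 Z.2
    exact ⟨⟨n, hn⟩, Subtype.ext h⟩
  have h1 : (stabilizer N (⟨X, hX⟩ : {Y : Subgroup H // Nat.card Y = ℓ})).index =
      Nat.card {Y : Subgroup H // Nat.card Y = ℓ} := index_stabilizer_of_transitive N _
  have h2 : Nat.card (stabilizer N (⟨X, hX⟩ : {Y : Subgroup H // Nat.card Y = ℓ})) =
      Nat.card ↥(Subgroup.centralizer (X : Set H) ⊓ N) := by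
    have key : ∀ n : N, n ∈ stabilizer N (⟨X, hX⟩ : {Y : Subgroup H // Nat.card Y = ℓ}) ↔
        n.1 ∈ Subgroup.centralizer (X : Set H) ⊓ N := by
      intro n
      rw [mem_stabilizer_iff, Subgroup.mem_inf, Subgroup.mem_centralizer_iff]
      have e1 : n • (⟨X, hX⟩ : {Y : Subgroup H // Nat.card Y = ℓ}) = ⟨X, hX⟩ ↔ cj n.1 X = X :=
        Subtype.ext_iff
      rw [e1]
      constructor
      · intro h
        refine ⟨fun x hx => ?_, n.2⟩
        have h3 : n.1 * x * n.1⁻¹ ∈ X := by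
          rw [← h]
          exact mem_cj.2 ⟨x, hx, rfl⟩
        have h4 : n.1 * x * n.1⁻¹ * x⁻¹ ∈ X := X.mul_mem h3 (X.inv_mem hx)
        have h5 : n.1 * x * n.1⁻¹ * x⁻¹ ∈ N := by
          have h6 : x * n.1⁻¹ * x⁻¹ ∈ N :=
            Subgroup.Normal.conj_mem inferInstance _ (N.inv_mem n.2) x
          have h7 : n.1 * x * n.1⁻¹ * x⁻¹ = n.1 * (x * n.1⁻¹ * x⁻¹) := by group
          rw [h7]
          exact N.mul_mem n.2 h6
        have h8 := n2_inf hN hX h4 h5
        calc x * n.1 = (n.1 * x * n.1⁻¹ * x⁻¹)⁻¹ * (n.1 * x) := by group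
          _ = n.1 * x := by rw [h8]; group
      · rintro ⟨h, _⟩
        ext z
        rw [mem_cj]
        constructor
        · rintro ⟨x, hx, rfl⟩
          rw [← h x hx, mul_inv_cancel_right]
          exact hx
        · intro hz
          refine ⟨z, hz, ?_⟩
          rw [← h z hz, mul_inv_cancel_right]
    exact Nat.card_congr
      ⟨fun n => ⟨n.1.1, (key n.1).1 n.2⟩,
        fun n => ⟨⟨n.1, (Subgroup.mem_inf.1 n.2).2⟩, (key _).2 n.2⟩, fun _ => rfl, fun _ => rfl⟩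
  rw [← h1, ← h2, mul_comm]
  exact Subgroup.card_mul_index _

end Pool.FS95
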