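import Pool.Agent.LibFS95.N1
import Pool.Agent.LibFS95.N2
import Pool.Agent.LibFS95.C8

/-!
Row N3: `|H:N| z'(H)` in the setting of N1.

Plan. C8: `|H| z'(H) = ∑ eul(⟨g,h⟩)` over the commuting pairs of `ℓ`-regular elements; `ℓ`-regular elements are the elements of `N` (their image in `H/N` has order prime to `ℓ` and a power of `ℓ`; conversely `ℓ ∤ |N|`). N1: `eul = 1 - #{X // |X| = ℓ, X centralises g and h}`. So
`|H| z'(H) = #comm(N) - ∑_X #comm(C_N(X))`, `#comm(K) = |K| k(K)` = number of commuting pairs (`card_comm_eq_card_conjClasses_mul_card`). N2: there are `|N : C_N(X)|` subgroups `X`, all with the same `#comm` (conjugate by elements of `N`): the sum is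
`|N : C_N(X)| |C_N(X)| k(C_N(X)) = |N| k(C_N(X))`. Divide by `|N|`. If `N = ⊤` there is no `X` at all (`zp_of_top`; there `|H| z'(H) = |H| k(H)`, N1 and C8 with `N = ⊤`).
-/

set_option autoImplicit false
noncomputable section
open MulAction
namespace Pool.FS95

private theorem n3_reg {ℓ : ℕ} [Fact ℓ.Prime] {H : Type} [Group H] [Finite H] {N : Subgroup H}
    [N.Normal] (hN : ¬ ℓ ∣ Nat.card N) (hP : IsPGroup ℓ (H ⧸ N)) (g : H) :
    ¬ ℓ ∣ orderOf g ↔ g ∈ N := by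
  constructor
  · intro h
    obtain ⟨k, hk⟩ := IsPGroup.iff_orderOf.1 hP (QuotientGroup.mk' N g)
    have h1 : orderOf (QuotientGroup.mk' N g) ∣ orderOf g := orderOf_map_dvd _ g
    rcases Nat.eq_zero_or_pos k with h0 | h0
    · rw [h0, pow_zero, orderOf_eq_one_iff] at hk
      exact (QuotientGroup.eq_one_iff g).1 hk
    · exact absurd ((dvd_pow_self ℓ h0.ne').trans (hk ▸ h1)) h
  · intro hg h
    exact hN (h.trans (Subgroup.orderOf_dvd_natCard N hg))

/-- number of commuting pairs in a subgroup -/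
private def n3_cp {H : Type} [Group H] (K : Subgroup H) : ℕ :=
  Nat.card {p : H × H // p.1 * p.2 = p.2 * p.1 ∧ p.1 ∈ K ∧ p.2 ∈ K}

private theorem n3_cp_eq {H : Type} [Group H] (K : Subgroup H) :
    n3_cp K = Nat.card (ConjClasses K) * Nat.card K := by
  rw [← card_comm_eq_card_conjClasses_mul_card]
  exact Nat.card_congr
    ⟨fun p => ⟨(⟨p.1.1, p.2.2.1⟩, ⟨p.1.2, p.2.2.2⟩), Subtype.ext p.2.1⟩,
      fun p => ⟨(p.1.1, p.1.2), congrArg Subtype.val p.2, p.1.1.2, p.1.2.2⟩,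
      fun _ => rfl, fun _ => rfl⟩

private theorem n3_cp_conj {H : Type} [Group H] (n : H) (K L : Subgroup H)
    (h : ∀ g, g ∈ K ↔ n * g * n⁻¹ ∈ L) : n3_cp K = n3_cp L := by
  refine Nat.card_congr
    ⟨fun p => ⟨(n * p.1.1 * n⁻¹, n * p.1.2 * n⁻¹), ?_, (h _).1 p.2.2.1, (h _).1 p.2.2.2⟩,
      fun p => ⟨(n⁻¹ * p.1.1 * n, n⁻¹ * p.1.2 * n), ?_, (h _).2 ?_, (h _).2 ?_⟩, ?_, ?_⟩
  · have := p.2.1
    calc n * p.1.1 * n⁻¹ * (n * p.1.2 * n⁻¹) = n * (p.1.1 * p.1.2) * n⁻¹ := by group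
      _ = n * (p.1.2 * p.1.1) * n⁻¹ := by rw [this]
      _ = _ := by group
  · have := p.2.1
    calc n⁻¹ * p.1.1 * n * (n⁻¹ * p.1.2 * n) = n⁻¹ * (p.1.1 * p.1.2) * n := by group
      _ = n⁻¹ * (p.1.2 * p.1.1) * n := by rw [this]
      _ = _ := by group
  · have : n * (n⁻¹ * p.1.1 * n) * n⁻¹ = p.1.1 := by group
    rw [this]
    exact p.2.2.1
  · have : n * (n⁻¹ * p.1.2 * n) * n⁻¹ = p.1.2 := by group
    rw [this]
    exact p.2.2.2
  · intro p
    apply Subtype.ext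
    apply Prod.ext
    · change n⁻¹ * (n * p.1.1 * n⁻¹) * n = p.1.1
      group
    · change n⁻¹ * (n * p.1.2 * n⁻¹) * n = p.1.2
      group
  · intro p
    apply Subtype.ext
    apply Prod.ext
    · change n * (n⁻¹ * p.1.1 * n) * n⁻¹ = p.1.1
      group
    · change n * (n⁻¹ * p.1.2 * n) * n⁻¹ = p.1.2
      group

private theorem n3_cent {H : Type} [Group H] (X : Subgroup H) (g h : H) :
    (∀ b ∈ Subgroup.closure {g, h}, ∀ x ∈ X, b * x = x * b) ↔
      g ∈ Subgroup.centralizer (X : Set H) ∧ h ∈ Subgroup.centralizer (X : Set H) := by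
  constructor
  · intro H1
    exact ⟨Subgroup.mem_centralizer_iff.2 fun x hx =>
        (H1 g (Subgroup.subset_closure (Set.mem_insert _ _)) x hx).symm,
      Subgroup.mem_centralizer_iff.2 fun x hx =>
        (H1 h (Subgroup.subset_closure (Set.mem_insert_of_mem _ rfl)) x hx).symm⟩
  · rintro ⟨h1, h2⟩ b hb x hx
    have h3 : Subgroup.closure {g, h} ≤ Subgroup.centralizer (X : Set H) := by
      rw [Subgroup.closure_le]
      rintro y (rfl | hy)
      · exact h1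
      · rw [Set.mem_singleton_iff] at hy
        rw [hy]
        exact h2
    exact (Subgroup.mem_centralizer_iff.1 (h3 hb) x hx).symm

private theorem n3_sum {ℓ : ℕ} [Fact ℓ.Prime] {H : Type} [Group H] [Finite H] {N : Subgroup H}
    [N.Normal] (hN : ¬ ℓ ∣ Nat.card N) (hP : IsPGroup ℓ (H ⧸ N)) (hc : IsCyclic (H ⧸ N)) :
    (Nat.card H : ℤ) * zp ℓ H = (n3_cp N : ℤ) -
      (Nat.card (Σ Y : {Y : Subgroup H // Nat.card Y = ℓ},
        {p : H × H // p.1 * p.2 = p.2 * p.1 ∧ p.1 ∈ Subgroup.centralizer (Y.1 : Set H) ⊓ N ∧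
          p.2 ∈ Subgroup.centralizer (Y.1 : Set H) ⊓ N}) : ℤ) := by
  classical
  rw [card_mul_zp]
  have := Fintype.ofFinite
    {p : H × H // p.1 * p.2 = p.2 * p.1 ∧ ¬ ℓ ∣ orderOf p.1 ∧ ¬ ℓ ∣ orderOf p.2}
  have hmem : ∀ p : {p : H × H // p.1 * p.2 = p.2 * p.1 ∧ ¬ ℓ ∣ orderOf p.1 ∧ ¬ ℓ ∣ orderOf p.2},
      Subgroup.closure {p.1.1, p.1.2} ≤ N := by
    intro p
    rw [Subgroup.closure_le]
    rintro y (rfl | hy)
    · exact (n3_reg hN hP _).1 p.2.2.1
    · rw [Set.mem_singleton_iff] at hy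
      rw [hy]
      exact (n3_reg hN hP _).1 p.2.2.2
  rw [finsum_eq_sum_of_fintype]
  rw [Finset.sum_congr rfl fun p _ => eul_nilp ℓ H N hN hP hc _ (hmem p)]
  rw [Finset.sum_sub_distrib]
  congr 1
  · rw [Finset.sum_const, nsmul_eq_mul, mul_one, Finset.card_univ, ← Nat.card_eq_fintype_card]
    congr 1
    exact Nat.card_congr (Equiv.subtypeEquivRight fun p => by
      rw [n3_reg hN hP, n3_reg hN hP])
  · rw [← Nat.cast_sum, ← Nat.card_sigma]
    congr 1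
    refine Nat.card_congr
      ⟨fun q => ⟨⟨q.2.1, q.2.2.1⟩, ⟨q.1.1, q.1.2.1,
          Subgroup.mem_inf.2 ⟨((n3_cent _ _ _).1 q.2.2.2).1, (n3_reg hN hP _).1 q.1.2.2.1⟩,
          Subgroup.mem_inf.2 ⟨((n3_cent _ _ _).1 q.2.2.2).2, (n3_reg hN hP _).1 q.1.2.2.2⟩⟩⟩,
        fun q => ⟨⟨q.2.1, q.2.2.1, (n3_reg hN hP _).2 (Subgroup.mem_inf.1 q.2.2.2.1).2,
          (n3_reg hN hP _).2 (Subgroup.mem_inf.1 q.2.2.2.2).2⟩, ⟨q.1.1, q.1.2,
          (n3_cent _ _ _).2 ⟨(Subgroup.mem_inf.1 q.2.2.2.1).1, (Subgroup.mem_inf.1 q.2.2.2.2).1⟩⟩⟩,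
        fun _ => rfl, fun _ => rfl⟩

theorem index_mul_zp (ℓ : ℕ) [Fact ℓ.Prime] (H : Type) [Group H] [Finite H] (N : Subgroup H)
    [N.Normal] (hN : ¬ ℓ ∣ Nat.card N) (hP : IsPGroup ℓ (H ⧸ N)) (hc : IsCyclic (H ⧸ N))
    (X : Subgroup H) (hX : Nat.card X = ℓ) :
    (N.index : ℤ) * zp ℓ H = (Nat.card (ConjClasses N) : ℤ) -
      Nat.card (ConjClasses ↥(Subgroup.centralizer (X : Set H) ⊓ N)) := by
  classical
  obtain ⟨h1, h2⟩ := card_order_l ℓ H N hN hP hc X hX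
  have h3 := n3_sum hN hP hc
  have := Fintype.ofFinite {Y : Subgroup H // Nat.card Y = ℓ}
  have h4 : ∀ Y : {Y : Subgroup H // Nat.card Y = ℓ},
      Nat.card {p : H × H // p.1 * p.2 = p.2 * p.1 ∧ p.1 ∈ Subgroup.centralizer (Y.1 : Set H) ⊓ N ∧
          p.2 ∈ Subgroup.centralizer (Y.1 : Set H) ⊓ N} =
      n3_cp (Subgroup.centralizer (X : Set H) ⊓ N) := by
    rintro ⟨Y, hY⟩
    obtain ⟨n, hn, rfl⟩ := h2 Y hY
    symm
    refine n3_cp_conj n _ _ fun g => ?_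
    rw [Subgroup.mem_inf, Subgroup.mem_inf, Subgroup.mem_centralizer_iff,
      Subgroup.mem_centralizer_iff]
    refine and_congr ?_ ?_
    · constructor
      · intro h x hx
        obtain ⟨y, hy, rfl⟩ := mem_cj.1 hx
        have := h y hy
        calc n * y * n⁻¹ * (n * g * n⁻¹) = n * (y * g) * n⁻¹ := by group
          _ = n * (g * y) * n⁻¹ := by rw [this]
          _ = _ := by group
      · intro h y hy
        have := h (n * y * n⁻¹) (mem_cj.2 ⟨y, hy, rfl⟩)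
        calc y * g = n⁻¹ * (n * y * n⁻¹ * (n * g * n⁻¹)) * n := by group
          _ = n⁻¹ * (n * g * n⁻¹ * (n * y * n⁻¹)) * n := by rw [this]
          _ = _ := by group
    · constructor
      · intro hg
        exact N.mul_mem (N.mul_mem hn hg) (N.inv_mem hn)
      · intro hg
        have : g = n⁻¹ * (n * g * n⁻¹) * n := by group
        rw [this]
        exact N.mul_mem (N.mul_mem (N.inv_mem hn) hg) hn
  rw [Nat.card_sigma, Finset.sum_congr rfl fun Y _ => h4 Y, Finset.sum_const, smul_eq_mul,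
    Finset.card_univ, ← Nat.card_eq_fintype_card, n3_cp_eq, n3_cp_eq] at h3
  have h5 : Nat.card {Y : Subgroup H // Nat.card Y = ℓ} *
      (Nat.card (ConjClasses ↥(Subgroup.centralizer (X : Set H) ⊓ N)) *
        Nat.card ↥(Subgroup.centralizer (X : Set H) ⊓ N)) =
      Nat.card (ConjClasses ↥(Subgroup.centralizer (X : Set H) ⊓ N)) * Nat.card N := by
    rw [← h1]
    ring
  rw [h5, ← Subgroup.index_mul_card N] at h3
  push_cast at h3
  have h6 : (Nat.card N : ℤ) ≠ 0 := by exact_mod_cast Nat.card_pos.ne'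
  apply mul_right_cancel₀ h6
  linear_combination h3

theorem zp_of_not_dvd (ℓ : ℕ) [Fact ℓ.Prime] (H : Type) [Group H] [Finite H]
    (hH : ¬ ℓ ∣ Nat.card H) : zp ℓ H = (Nat.card (ConjClasses H) : ℤ) := by
  classical
  have hN : ¬ ℓ ∣ Nat.card (⊤ : Subgroup H) := by
    rwa [Subgroup.card_top]
  have : Subsingleton (H ⧸ (⊤ : Subgroup H)) := QuotientGroup.subsingleton_quotient_top
  have hP : IsPGroup ℓ (H ⧸ (⊤ : Subgroup H)) := fun g => ⟨0, Subsingleton.elim _ _⟩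
  have hc : IsCyclic (H ⧸ (⊤ : Subgroup H)) := isCyclic_of_subsingleton
  have h3 := n3_sum hN hP hc
  have : IsEmpty {Y : Subgroup H // Nat.card Y = ℓ} :=
    ⟨fun Y => hH (Y.2 ▸ Subgroup.card_subgroup_dvd_card Y.1)⟩
  have h7 : Nat.card (Σ Y : {Y : Subgroup H // Nat.card Y = ℓ},
        {p : H × H // p.1 * p.2 = p.2 * p.1 ∧
          p.1 ∈ Subgroup.centralizer (Y.1 : Set H) ⊓ (⊤ : Subgroup H) ∧
          p.2 ∈ Subgroup.centralizer (Y.1 : Set H) ⊓ (⊤ : Subgroup H)}) = 0 :=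
    Nat.card_of_isEmpty
  rw [h7, Nat.cast_zero, sub_zero] at h3
  have h4 : n3_cp (⊤ : Subgroup H) = Nat.card (ConjClasses H) * Nat.card H := by
    rw [← card_comm_eq_card_conjClasses_mul_card]
    exact Nat.card_congr (Equiv.subtypeEquivRight fun p =>
      ⟨fun h => h.1, fun h => ⟨h, Subgroup.mem_top _, Subgroup.mem_top _⟩⟩)
  rw [h4] at h3
  have h6 : (Nat.card H : ℤ) ≠ 0 := by exact_mod_cast Nat.card_pos.ne'
  apply mul_left_cancel₀ h6
  rw [h3]
  push_cast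
  ring

end Pool.FS95
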