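import Pool.Agent.LibFS95.Div

/-!
Systems of conditions `x_i + 1 = x_k`, `x_i ! = x_k`, `x_i ∤ x_k` in positive integers
(MP_38ee21_nt): the bound, if all divisors of the non-divisibility conditions are in components
without successor conditions.
-/

set_option autoImplicit false

namespace Pool.Agent.LibFS95

open Nat Finset Pool.Agent.LibFSN

theorem sh_even {K : Finset ℕ} (hK : ¬ Rigid K) {b : ℕ} (hb : 2 ∣ b) : ∀ u ∈ K, 2 ∣ sh K b u := by
  intro u
  induction u using Nat.strong_induction_on with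
  | _ u ih =>
    intro hu
    by_cases h : ∃ w, Src K w u
    · obtain ⟨w, hw⟩ := h
      rw [sh_of hK b hw]
      have h3 : 3 ≤ w := by
        by_contra hc
        exact hK (Or.inl ⟨w, hw.1, by omega⟩)
      have h1 : 2 ∣ (w + sh K b w)! := (Nat.prime_two.dvd_factorial).2 (by omega)
      have h2 : 2 ∣ w ! := (Nat.prime_two.dvd_factorial).2 (by omega)
      exact Nat.dvd_sub h1 h2
    · rw [sh_not b h]
      exact hb

/-- If no divisor of a non-divisibility atom is in a component with a successor atom, then the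
values in the components without successor atoms are at most `2`. -/
theorem pure_two {n : ℕ} {A B C : Set (Fin n × Fin n)} {W : Set (Fin n)}
    (hA : ∀ p ∈ A, p.1 ∉ W ∧ p.2 ∉ W) (hB : ∀ p ∈ B, p.1 ∈ W ↔ p.2 ∈ W) (hC : ∀ p ∈ C, p.1 ∈ W)
    {x : Fin n → ℕ} (hx : x ∈ Sols A B C) {i : Fin n} (hiW : i ∈ W) (hi : 3 ≤ x i) :
    (Sols A B C).Infinite := by
  classical
  obtain ⟨hx1, hxA, hxB, hxC⟩ := hx
  have hxle : ∀ j, x j ≤ ∑ k, x k := fun j =>
    Finset.single_le_sum (f := x) (fun _ _ => Nat.zero_le _) (Finset.mem_univ j)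
  have hle : ∀ j, x j ≤ 3 + ∑ j, x j := fun j => (hxle j).trans (by omega)
  refine Set.Infinite.of_image (fun y => y i) (Set.infinite_of_not_bddAbove ?_)
  rintro ⟨P, hP⟩
  obtain ⟨g, hg⟩ := exists_gm (P + 1 + ∑ j, x j) (3 + ∑ j, x j) (by omega)
  have hmem : (fun j => if j ∈ W then g (x j) else x j) ∈ Sols A B C := by
    refine ⟨fun j => ?_, fun p hp => ?_, fun p hp => ?_, fun p hp => ?_⟩
    · show 1 ≤ (if j ∈ W then g (x j) else x j)
      split_ifs
      · rcases (hx1 j).eq_or_lt with h | h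
        · rw [← h, hg.one]
        · have := hg.mono 1 (x j) le_rfl h (hle j)
          omega
      · exact hx1 j
    · obtain ⟨h1, h2⟩ := hA p hp
      simp only [if_neg h1, if_neg h2]
      exact hxA p hp
    · have h1 := hxB p hp
      have h2 := hB p hp
      by_cases h : p.1 ∈ W
      · simp only [if_pos h, if_pos (h2.1 h)]
        rw [← h1]
        exact (hg.fac _ (h1 ▸ hle p.2)).symm
      · simp only [if_neg h, if_neg (fun h' => h (h2.2 h'))]
        exact h1
    · have h1 := hC p hp
      by_cases h2 : p.2 ∈ W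
      · simp only [if_pos h1, if_pos h2]
        exact hg.nd (hx1 _) (hx1 _) (hle _) (hle _) (hxC p hp)
      · simp only [if_pos h1, if_neg h2]
        by_cases h3 : 3 ≤ x p.1
        · intro hd
          have h4 := Nat.le_of_dvd (hx1 p.2) hd
          have h5 := hg.large h3 (hle _)
          have h6 := hxle p.2
          omega
        · have h4 := hx1 p.1
          have h5 : x p.1 = 1 ∨ x p.1 = 2 := by omega
          rcases h5 with h5 | h5
          · exact fun _ => hxC p hp (h5 ▸ one_dvd _)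
          · rw [h5, hg.two, ← h5]
            exact hxC p hp
  have h1 : (if i ∈ W then g (x i) else x i) ≤ P :=
    hP (Set.mem_image_of_mem (fun y : Fin n → ℕ => y i) hmem)
  have h2 := hg.large hi (hle i)
  rw [if_pos hiW] at h1
  omega

/-- The bound, if no divisor of a non-divisibility atom is in a component with a successor atom. -/
theorem dsor_bound {n : ℕ} {A B C : Set (Fin n × Fin n)} (hC : ∀ p ∈ C, ∀ q ∈ A, ¬ Joined A B p.1 q.1)
    (hfin : (Sols A B C).Finite) {x : Fin n → ℕ} (hx : x ∈ Sols A B C) (i : Fin n) : x i ≤ bnd n := by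
  classical
  by_contra hc
  let W : Set (Fin n) := {j | ∀ q ∈ A, ¬ Joined A B j q.1}
  have hAW : ∀ p ∈ A, p.1 ∉ W ∧ p.2 ∉ W := by
    intro p hp
    have h1 : Joined A B p.1 p.2 := Relation.EqvGen.rel _ _ (Or.inl hp)
    exact ⟨fun h2 => h2 p hp (Relation.EqvGen.refl _), fun h2 => h2 p hp (h1.symm _ _)⟩
  have hBW : ∀ p ∈ B, p.1 ∈ W ↔ p.2 ∈ W := by
    intro p hp
    have h1 : Joined A B p.1 p.2 := Relation.EqvGen.rel _ _ (Or.inr hp)
    constructor
    · exact fun h2 q hq h3 => h2 q hq (h1.trans _ _ _ h3)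
    · exact fun h2 q hq h3 => h2 q hq ((h1.symm _ _).trans _ _ _ h3)
  have hW : ∀ j ∈ W, x j ≤ 2 := by
    intro j hj
    by_contra h
    exact pure_two hAW hBW (fun p hp => hC p hp) hx hj (by omega) hfin
  obtain ⟨hx1, hxA, hxB, hxC⟩ := hx
  let V : Finset ℕ := univ.image x
  have hV : ∀ j, x j ∈ V := fun j => mem_image_of_mem x (mem_univ j)
  obtain ⟨K, hKV, hMK, hcl, hmin⟩ := comp_exists V (hV i)
  have hcard : K.card ≤ n := by
    calc K.card ≤ V.card := card_le_card hKV
      _ ≤ (univ : Finset (Fin n)).card := card_image_le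
      _ = n := by simp
  have hKr : ¬ Rigid K := by
    intro hr
    have h1 := rigid_bound hmin hr _ hMK
    have h2 : 1 ≤ K.card := card_pos.2 ⟨_, hMK⟩
    exact hc (h1.trans (bnd_mono h2 hcard))
  have hWK : ∀ j ∈ W, x j ∉ K := by
    intro j hj h
    exact hKr (Or.inl ⟨x j, h, by have := hW j hj; omega⟩)
  let y : ℕ → Fin n → ℕ := fun b j => if x j ∈ K then x j + sh K b (x j) else x j
  have hy : ∀ b, 2 ∣ b → y b ∈ Sols A B C := by
    intro b hb
    refine ⟨fun j => ?_, fun p hp => ?_, fun p hp => ?_, fun p hp => ?_⟩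
    · simp only [y]
      have := hx1 j
      split_ifs <;> omega
    · have h := hxA p hp
      have hadj : Adj (x p.1) (x p.2) := Or.inl h
      by_cases h1 : x p.1 ∈ K
      · have h2 : x p.2 ∈ K := hcl _ h1 _ (hV _) hadj
        simp only [y, if_pos h1, if_pos h2]
        rw [← h] at h2 ⊢
        rw [sh_succ hKr b h1 h2]
        ring
      · have h2 : x p.2 ∉ K := fun h2 => h1 (hcl _ h2 _ (hV _) hadj.symm)
        simp only [y, if_neg h1, if_neg h2]
        exact h
    · have h := hxB p hp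
      have hadj : Adj (x p.1) (x p.2) := Or.inr (Or.inr (Or.inl h))
      by_cases h1 : x p.1 ∈ K
      · have h2 : x p.2 ∈ K := hcl _ h1 _ (hV _) hadj
        simp only [y, if_pos h1, if_pos h2]
        rw [← h] at h2 ⊢
        rw [sh_fac hKr b h1 h2]
      · have h2 : x p.2 ∉ K := fun h2 => h1 (hcl _ h2 _ (hV _) hadj.symm)
        simp only [y, if_neg h1, if_neg h2]
        exact h
    · have hw : p.1 ∈ W := hC p hp
      have h1 := hxC p hp
      have h2 := hW _ hw
      have h3 := hx1 p.1
      have h4 : x p.1 = 2 := by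
        rcases (show x p.1 = 1 ∨ x p.1 = 2 by omega) with h | h
        · exact absurd (h ▸ one_dvd _) h1
        · exact h
      simp only [y, if_neg (hWK _ hw)]
      by_cases h5 : x p.2 ∈ K
      · simp only [if_pos h5]
        have h6 := sh_even hKr hb _ h5
        rw [h4] at h1 ⊢
        exact fun hd => h1 ((Nat.dvd_add_left h6).1 hd)
      · simp only [if_neg h5]
        exact h1
  obtain ⟨N, hN⟩ := (hfin.image fun z => z i).bddAbove
  have h1 : y (2 * (N + 1)) i ≤ N := hN ⟨y (2 * (N + 1)), hy _ (dvd_mul_right _ _), rfl⟩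
  have h2 : 2 * (N + 1) ≤ sh K (2 * (N + 1)) (x i) := le_sh hKr _ _ hMK
  simp only [y, if_pos hMK] at h1
  omega

/-- The bound for three kinds of systems. -/
theorem main3 {n : ℕ} (A B C : Set (Fin n × Fin n))
    (h : (∃ i, ∀ p ∈ B, ¬ Joined A B i p.1) ∨ (∀ p ∈ C, ∀ q ∈ A, ¬ Joined A B p.1 q.1) ∨
      ∀ p ∈ C, ∀ q ∈ A, ¬ Joined A B p.2 q.1)
    (hfin : (Sols A B C).Finite) (x : Fin n → ℕ) (hx : x ∈ Sols A B C) (i : Fin n) : x i ≤ bnd n := by
  rcases h with h | h | h
  · exact main A B C (Or.inl h) hfin x hx i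
  · exact dsor_bound h hfin hx i
  · exact div_bound h hfin hx i

end Pool.Agent.LibFS95
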