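import Pool.Agent.LibFS95.Blk

/-!
Row Q1: Skolem-Noether for matrix algebras.
-/

set_option autoImplicit false
noncomputable section
open MulAction
namespace Pool.FS95

private theorem q1_inner {K : Type} [Field K] {n : ℕ}
    (φ : Matrix (Fin n) (Fin n) K ≃ₐ[K] Matrix (Fin n) (Fin n) K) :
    ∃ U : (Matrix (Fin n) (Fin n) K)ˣ, ∀ X, φ X = (U : Matrix (Fin n) (Fin n) K) * X *
      ((U⁻¹ : (Matrix (Fin n) (Fin n) K)ˣ) : Matrix (Fin n) (Fin n) K) := by
  obtain ⟨T, hT⟩ := AlgEquiv.eq_linearEquivConjAlgEquiv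
    ((Matrix.toLinAlgEquiv' (R := K) (n := Fin n)).symm.trans
      (φ.trans (Matrix.toLinAlgEquiv' (R := K) (n := Fin n))))
  have hUV : LinearMap.toMatrix' (T : (Fin n → K) →ₗ[K] (Fin n → K)) *
      LinearMap.toMatrix' (T.symm : (Fin n → K) →ₗ[K] (Fin n → K)) = 1 := by
    rw [← LinearMap.toMatrix'_comp, LinearEquiv.comp_symm, LinearMap.toMatrix'_id]
  have hVU : LinearMap.toMatrix' (T.symm : (Fin n → K) →ₗ[K] (Fin n → K)) *
      LinearMap.toMatrix' (T : (Fin n → K) →ₗ[K] (Fin n → K)) = 1 := by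
    rw [← LinearMap.toMatrix'_comp, LinearEquiv.symm_comp, LinearMap.toMatrix'_id]
  refine ⟨⟨_, _, hUV, hVU⟩, fun X => ?_⟩
  have h1 := DFunLike.congr_fun hT (Matrix.toLin' X)
  rw [LinearEquiv.conjAlgEquiv_apply] at h1
  have h2 : ((Matrix.toLinAlgEquiv' (R := K) (n := Fin n)).symm.trans
      (φ.trans (Matrix.toLinAlgEquiv' (R := K) (n := Fin n)))) (Matrix.toLin' X) =
      Matrix.toLin' (φ X) := by
    have h3 : Matrix.toLin' X = Matrix.toLinAlgEquiv' X := rfl
    have h4 : Matrix.toLin' (φ X) = Matrix.toLinAlgEquiv' (φ X) := rfl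
    rw [h3, h4, AlgEquiv.trans_apply, AlgEquiv.trans_apply, AlgEquiv.symm_apply_apply]
  rw [h2] at h1
  have h5 := congrArg LinearMap.toMatrix' h1
  rw [LinearMap.toMatrix'_toLin', LinearMap.toMatrix'_comp, LinearMap.toMatrix'_comp,
    LinearMap.toMatrix'_toLin', ← Matrix.mul_assoc] at h5
  exact h5

theorem skolem_noether {K A : Type} [Field K] [Ring A] [Algebra K A] {n : ℕ} [NeZero n]
    (π π' : A →ₐ[K] Matrix (Fin n) (Fin n) K) (h : Function.Surjective π)
    (h' : Function.Surjective π') (hk : ∀ a, π a = 0 ↔ π' a = 0) :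
    ∃ U : (Matrix (Fin n) (Fin n) K)ˣ, ∀ a, π' a = (U : Matrix (Fin n) (Fin n) K) * π a *
      ((U⁻¹ : (Matrix (Fin n) (Fin n) K)ˣ) : Matrix (Fin n) (Fin n) K) := by
  have hwd : ∀ a b, π a = π b → π' a = π' b := by
    intro a b hab
    have h1 : π (a - b) = 0 := by rw [map_sub, hab, sub_self]
    rw [hk, map_sub] at h1
    exact sub_eq_zero.1 h1
  have hwd' : ∀ a b, π' a = π' b → π a = π b := by
    intro a b hab
    have h1 : π' (a - b) = 0 := by rw [map_sub, hab, sub_self]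
    rw [← hk, map_sub] at h1
    exact sub_eq_zero.1 h1
  obtain ⟨ψ, hψ⟩ : ∃ ψ : Matrix (Fin n) (Fin n) K → Matrix (Fin n) (Fin n) K,
      ∀ a, ψ (π a) = π' a :=
    ⟨fun X => π' (Function.surjInv h X), fun a => hwd _ _ (Function.surjInv_eq h (π a))⟩
  let Ψ : Matrix (Fin n) (Fin n) K →ₐ[K] Matrix (Fin n) (Fin n) K :=
    { toFun := ψ
      map_one' := by
        have := hψ 1
        rwa [map_one, map_one] at this
      map_mul' := by
        intro X Y
        obtain ⟨a, rfl⟩ := h X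
        obtain ⟨b, rfl⟩ := h Y
        rw [← map_mul, hψ, hψ, hψ, map_mul]
      map_zero' := by
        have := hψ 0
        rwa [map_zero, map_zero] at this
      map_add' := by
        intro X Y
        obtain ⟨a, rfl⟩ := h X
        obtain ⟨b, rfl⟩ := h Y
        rw [← map_add, hψ, hψ, hψ, map_add]
      commutes' := by
        intro r
        have := hψ (algebraMap K A r)
        rwa [AlgHom.commutes, AlgHom.commutes] at this }
  have hΨ : ∀ a, Ψ (π a) = π' a := hψ
  have hbij : Function.Bijective Ψ := by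
    constructor
    · intro X Y hXY
      obtain ⟨a, rfl⟩ := h X
      obtain ⟨b, rfl⟩ := h Y
      rw [hΨ, hΨ] at hXY
      exact hwd' _ _ hXY
    · intro X
      obtain ⟨a, rfl⟩ := h' X
      exact ⟨π a, hΨ a⟩
  obtain ⟨U, hU⟩ := q1_inner (AlgEquiv.ofBijective Ψ hbij)
  refine ⟨U, fun a => ?_⟩
  have := hU (π a)
  rw [AlgEquiv.coe_ofBijective, hΨ] at this
  exact this

end Pool.FS95
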