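import Pool.Agent.LibFS95.Blk

/-!
Row Q2: the trace of `h` on the `g`-twisted centre is the number of `h`-stable `g`-twisted classes.
-/

set_option autoImplicit false
noncomputable section
open MulAction
namespace Pool.FS95

private theorem q2_aut_coeff {Q : Type} [Group Q] (α : MulAut Q) (a : MonoidAlgebra ℂ Q) (x : Q) :
    (aut ℂ α a).coeff x = a.coeff (α⁻¹ x) :=
  MonoidAlgebra.coeff_domCongr (R := ℂ) α a x

private theorem q2_mem {Q : Type} [Group Q] (g : MulAut Q) (a : MonoidAlgebra ℂ Q) :
    a ∈ tz g ↔ ∀ q x, a.coeff (q * x * (g q)⁻¹) = a.coeff x := by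
  constructor
  · intro h q x
    have h1 := h (MonoidAlgebra.single q 1)
    rw [aut_single] at h1
    have h2 := congrArg (fun z : MonoidAlgebra ℂ Q => z.coeff (q * x)) h1
    simp only [MonoidAlgebra.coeff_single_mul_apply, MonoidAlgebra.coeff_mul_single_apply, one_mul,
      mul_one, inv_mul_cancel_left] at h2
    exact h2.symm
  · intro h b
    refine MonoidAlgebra.induction_linear (motive := fun b => b * a = a * aut ℂ g b) b ?_ ?_ ?_
    · simp
    · intro u v hu hv
      rw [add_mul, map_add, mul_add, hu, hv]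
    · intro q r
      rw [aut_single]
      apply MonoidAlgebra.ext
      ext y
      rw [MonoidAlgebra.coeff_single_mul_apply, MonoidAlgebra.coeff_mul_single_apply]
      have h1 := h q (q⁻¹ * y)
      rw [mul_inv_cancel_left] at h1
      rw [h1, mul_comm]

private theorem q2_symm_apply {Q : Type} [Group Q] (h : MulAut Q) (x : Q) : h (h⁻¹ x) = x := by
  rw [← MulAut.mul_apply, mul_inv_cancel, MulAut.one_apply]

private theorem q2_apply_symm {Q : Type} [Group Q] (h : MulAut Q) (x : Q) : h⁻¹ (h x) = x := by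
  rw [← MulAut.mul_apply, inv_mul_cancel, MulAut.one_apply]

private theorem q2_comm {Q : Type} [Group Q] {g h : MulAut Q} (hgh : g * h = h * g) (x : Q) :
    h⁻¹ (g x) = g (h⁻¹ x) := by
  have h1 : h⁻¹ * g = g * h⁻¹ := by
    rw [inv_mul_eq_iff_eq_mul, ← mul_assoc, ← hgh, mul_inv_cancel_right]
  rw [← MulAut.mul_apply, h1, MulAut.mul_apply]

/-- the map induced by `h⁻¹` on the twisted classes -/
private def q2_tau {Q : Type} [Group Q] (g h : MulAut Q) (hgh : g * h = h * g) :
    Quotient (twSetoid g) → Quotient (twSetoid g) :=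
  Quotient.map (fun x => h⁻¹ x) (by
    rintro x y ⟨q, rfl⟩
    refine ⟨h⁻¹ q, ?_⟩
    rw [map_mul, map_mul, map_inv, q2_comm hgh])

/-- the twisted centre is the space of functions on the twisted classes -/
private def q2_equiv {Q : Type} [Group Q] [Finite Q] (g : MulAut Q) :
    tz g ≃ₗ[ℂ] (Quotient (twSetoid g) → ℂ) where
  toFun a := fun c => Quotient.lift (fun x => a.1.coeff x) (by
    rintro x y ⟨q, rfl⟩
    exact ((q2_mem g a.1).1 a.2 q x).symm) c
  map_add' a b := by
    funext c
    refine Quotient.inductionOn c (fun x => ?_)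
    rfl
  map_smul' r a := by
    funext c
    refine Quotient.inductionOn c (fun x => ?_)
    rfl
  invFun f := ⟨MonoidAlgebra.ofCoeff (Finsupp.equivFunOnFinite.symm
    (fun x => f (Quotient.mk (twSetoid g) x))), (q2_mem g _).2 (fun q x => by
      change f _ = f _
      congr 1
      exact (Quotient.sound (s := twSetoid g) ⟨q, rfl⟩).symm)⟩
  left_inv a := by
    apply Subtype.ext
    apply MonoidAlgebra.ext
    ext x
    rfl
  right_inv f := by
    funext c
    refine Quotient.inductionOn c (fun x => ?_)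
    rfl

private theorem q2_conj {Q : Type} [Group Q] [Finite Q] (g h : MulAut Q) (hgh : g * h = h * g)
    (f : Quotient (twSetoid g) → ℂ) (c : Quotient (twSetoid g)) :
    q2_equiv g (tzMap g h hgh ((q2_equiv g).symm f)) c = f (q2_tau g h hgh c) := by
  refine Quotient.inductionOn c (fun x => ?_)
  change (tzMap g h hgh ((q2_equiv g).symm f) : MonoidAlgebra ℂ Q).coeff x = _
  rw [tzMap_coe, q2_aut_coeff]
  rfl

theorem trace_tzMap {Q : Type} [Group Q] [Finite Q] (g h : MulAut Q) (hgh : g * h = h * g) :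
    LinearMap.trace ℂ (tz g) (tzMap g h hgh) =
      (Nat.card {c : Quotient (twSetoid g) //
        ∃ x, Quotient.mk (twSetoid g) x = c ∧ Quotient.mk (twSetoid g) (h x) = c} : ℂ) := by
  classical
  haveI : Fintype (Quotient (twSetoid g)) := Fintype.ofFinite _
  have h1 := LinearMap.trace_conj' (tzMap g h hgh) (q2_equiv g)
  rw [← h1, LinearMap.trace_eq_matrix_trace ℂ (Pi.basisFun ℂ (Quotient (twSetoid g)))]
  have h2 : ∀ c : Quotient (twSetoid g), (LinearMap.toMatrix (Pi.basisFun ℂ (Quotient (twSetoid g)))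
      (Pi.basisFun ℂ (Quotient (twSetoid g))) ((q2_equiv g).conj (tzMap g h hgh))) c c =
      if q2_tau g h hgh c = c then 1 else 0 := by
    intro c
    rw [LinearMap.toMatrix_apply]
    simp only [Pi.basisFun_apply, Pi.basisFun_repr]
    have h3 : ((q2_equiv g).conj (tzMap g h hgh)) (Pi.single c 1) c =
        (Pi.single c (1 : ℂ) : Quotient (twSetoid g) → ℂ) (q2_tau g h hgh c) := by
      rw [LinearEquiv.conj_apply_apply]
      exact q2_conj g h hgh _ c
    rw [h3, Pi.single_apply]
  unfold Matrix.trace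
  simp only [Matrix.diag_apply]
  rw [Finset.sum_congr rfl fun c _ => h2 c, Finset.sum_boole]
  congr 1
  rw [Nat.card_eq_fintype_card, Fintype.card_subtype]
  congr 1
  ext c
  simp only [Finset.mem_filter, Finset.mem_univ, true_and]
  constructor
  · refine Quotient.inductionOn c (fun x hx => ?_)
    have hx' : Quotient.mk (twSetoid g) (h⁻¹ x) = Quotient.mk (twSetoid g) x := hx
    exact ⟨h⁻¹ x, hx', by rw [q2_symm_apply]⟩
  · rintro ⟨x, hx1, hx2⟩
    rw [← hx2]
    change Quotient.mk (twSetoid g) (h⁻¹ (h x)) = _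
    rw [q2_apply_symm, hx1, hx2]

end Pool.FS95
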