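import Pool.Agent.LibFS95.B2
import Pool.Agent.LibFS95.Q1

/-!
Row Q3: the blocks of the twisted centre.

Plan. `π = π_e` (B2). (a) For `a ∈ tz g`: `e a = a g(e)` (`b = e`), and `e (e a) = e a`, so `e a = e (e a) = e a g(e) = a g(e) ... `: precisely
`e a = e e a = e (a g(e)) = (e g(e)) a` (blocks are central) `= 0` if `g • e ≠ e` (`blk_orth`).
(b) If `g • e = e`: `π` and `π ∘ aut g` are surjective with the same kernel (`e (g a) = g (e a)`), so `π (g a) = U π(a) U⁻¹` (Q1). Choose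
`t = e t` with `π t = U⁻¹`. Then `π (b t) = π(b) U⁻¹ = U⁻¹ (U π(b) U⁻¹) = π(t) π(g b) = π(t * g b)` and both `b t`, `t (g b)` are in `e ℂQ`, so `t ∈ tz g`.
Uniqueness: for `a ∈ tz g` with `e a = a`, `π(b) π(a) = π(a) U π(b) U⁻¹`, so `π(a) U` commutes with all `π(b)`, i.e. with all matrices: it is a scalar `c`, and
`a = c t`.
-/

set_option autoImplicit false
noncomputable section
open MulAction
namespace Pool.FS95

theorem q3_card {Q : Type} [Group Q] [Finite Q] : (Nat.card Q : ℂ) ≠ 0 := by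
  have : Nat.card Q ≠ 0 := Nat.card_pos.ne'
  exact_mod_cast this

theorem tz_blk_zero {Q : Type} [Group Q] [Finite Q] (g : MulAut Q) (e : Blk ℂ Q) (he : g • e ≠ e)
    (a : MonoidAlgebra ℂ Q) (ha : a ∈ tz g) : e.1 * a = 0 := by
  have h1 : (g • e).1 * e.1 = 0 := blk_orth ℂ Q q3_card _ _ he
  have h2 : e.1 * a = a * (g • e).1 := ha e.1
  calc e.1 * a = e.1 * e.1 * a := by rw [e.2.2.1]
    _ = e.1 * (a * (g • e).1) := by rw [mul_assoc, h2]
    _ = a * (g • e).1 * e.1 := e.2.2.2.1 _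
    _ = 0 := by rw [mul_assoc, h1, mul_zero]

theorem exists_tz_gen {Q : Type} [Group Q] [Finite Q] (g : MulAut Q) (e : Blk ℂ Q)
    (he : g • e = e) : ∃ t ∈ tz g, t ≠ 0 ∧ e.1 * t = t ∧ ∀ a ∈ tz g, e.1 * a = a → ∃ c : ℂ, a = c • t := by
  obtain ⟨n, hn, π, hπs, hπk⟩ := exists_blkHom ℂ Q q3_card e
  have hge : aut ℂ g e.1 = e.1 := congrArg Subtype.val he
  obtain ⟨U, hU⟩ := skolem_noether π (π.comp (aut ℂ g).toAlgHom) hπs
    (hπs.comp (aut ℂ g).surjective) (fun a => by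
      change π a = 0 ↔ π (aut ℂ g a) = 0
      rw [hπk, hπk]
      conv_rhs => rw [← hge]
      rw [← map_mul, map_eq_zero_iff _ (aut ℂ g).injective])
  have hU' : ∀ a, π (aut ℂ g a) = (U : Matrix (Fin n) (Fin n) ℂ) * π a *
      ((U⁻¹ : (Matrix (Fin n) (Fin n) ℂ)ˣ) : Matrix (Fin n) (Fin n) ℂ) := hU
  have hπe : π e.1 = 1 := by
    have h1 : π (1 - e.1) = 0 := by
      rw [hπk, mul_sub, mul_one, e.2.2.1, sub_self]
    rw [map_sub, map_one, sub_eq_zero] at h1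
    exact h1.symm
  -- two elements of the block with the same image
  have hinj : ∀ a b : MonoidAlgebra ℂ Q, e.1 * a = a → e.1 * b = b → π a = π b → a = b := by
    intro a b ha hb hab
    have h1 : π (a - b) = 0 := by rw [map_sub, hab, sub_self]
    rw [hπk, mul_sub, ha, hb] at h1
    exact sub_eq_zero.1 h1
  obtain ⟨t₀, ht₀⟩ := hπs ((U⁻¹ : (Matrix (Fin n) (Fin n) ℂ)ˣ) : Matrix (Fin n) (Fin n) ℂ)
  obtain ⟨t, ht⟩ : ∃ t, t = e.1 * t₀ := ⟨_, rfl⟩
  have hπt : π t = ((U⁻¹ : (Matrix (Fin n) (Fin n) ℂ)ˣ) : Matrix (Fin n) (Fin n) ℂ) := by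
    rw [ht, map_mul, hπe, one_mul, ht₀]
  have het : e.1 * t = t := by rw [ht, ← mul_assoc, e.2.2.1]
  refine ⟨t, fun b => ?_, ?_, het, ?_⟩
  · apply hinj
    · rw [← mul_assoc, e.2.2.2.1 b, mul_assoc, het]
    · rw [← mul_assoc, het]
    · rw [map_mul, map_mul, hπt, hU', ← mul_assoc, ← mul_assoc, Units.inv_mul, one_mul]
  · intro h0
    rw [h0, map_zero] at hπt
    exact Units.ne_zero U⁻¹ hπt.symm
  · intro a ha hea
    have hcomm : ∀ X : Matrix (Fin n) (Fin n) ℂ, X * (π a * U) = π a * U * X := by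
      intro X
      obtain ⟨b, rfl⟩ := hπs X
      have h1 := congrArg π (ha b)
      rw [map_mul, map_mul, hU'] at h1
      rw [← mul_assoc, h1, mul_assoc, mul_assoc, mul_assoc, Units.inv_mul, mul_one, mul_assoc]
    obtain ⟨c, hc⟩ := Matrix.mem_range_scalar_of_commute_single
      (M := π a * (U : Matrix (Fin n) (Fin n) ℂ)) (fun i j _ => hcomm _)
    refine ⟨c, hinj _ _ hea ?_ ?_⟩
    · rw [mul_smul_comm, het]
    · rw [map_smul, hπt]
      have h1 : π a = π a * U *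
          ((U⁻¹ : (Matrix (Fin n) (Fin n) ℂ)ˣ) : Matrix (Fin n) (Fin n) ℂ) := by
        rw [mul_assoc, Units.mul_inv, mul_one]
      rw [h1, ← hc, Matrix.scalar_apply, ← Matrix.smul_one_eq_diagonal, smul_mul_assoc, one_mul]

end Pool.FS95
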