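import Pool.Agent.LibFS95.B2

/-!
Row Q4: the degree of a block divides the group order (Frobenius).
-/

set_option autoImplicit false
noncomputable section
open MulAction
namespace Pool.FS95

private theorem Q4_trace {n : ℕ} (M : Matrix (Fin n) (Fin n) ℂ) (m : ℕ) (hm : 0 < m) (h : M ^ m = 1) :
    IsIntegral ℤ M.trace := by
  rw [Matrix.trace_eq_sum_roots_charpoly]
  apply IsIntegral.multiset_sum
  intro μ hμ
  rcases Nat.eq_zero_or_pos n with hn | hn
  · subst hn
    simp at hμ
  · haveI : NeZero n := ⟨hn.ne'⟩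
    have h1 : μ ∈ spectrum ℂ M := by
      rw [Matrix.mem_spectrum_iff_isRoot_charpoly]
      exact Polynomial.isRoot_of_mem_roots hμ
    have h2 : μ ^ m ∈ spectrum ℂ (M ^ m) := spectrum.pow_mem_pow M m h1
    rw [h, spectrum.one_eq, Set.mem_singleton_iff] at h2
    exact IsIntegral.of_pow hm (by rw [h2]; exact isIntegral_one)

section
variable {Q : Type} [Group Q] [Finite Q] {n : ℕ} [NeZero n]

/-- the representation -/
private def Q4_rho (π : MonoidAlgebra ℂ Q →ₐ[ℂ] Matrix (Fin n) (Fin n) ℂ) : Q →* Matrix (Fin n) (Fin n) ℂ :=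
  (π : MonoidAlgebra ℂ Q →* Matrix (Fin n) (Fin n) ℂ).comp (MonoidAlgebra.of ℂ Q)

omit [Finite Q] [NeZero n] in
private theorem Q4_comm {π : MonoidAlgebra ℂ Q →ₐ[ℂ] Matrix (Fin n) (Fin n) ℂ} (hπ : Function.Surjective π)
    (C : Matrix (Fin n) (Fin n) ℂ) (hC : ∀ y, C * Q4_rho π y = Q4_rho π y * C) :
    ∃ c : ℂ, C = Matrix.scalar (Fin n) c := by
  have h1 : ∀ a : MonoidAlgebra ℂ Q, C * π a = π a * C := by
    intro a
    induction a using MonoidAlgebra.induction_on with
    | of g => exact hC g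
    | add f g hf hg => rw [map_add, mul_add, add_mul, hf, hg]
    | smul r f hf => rw [map_smul, mul_smul_comm, smul_mul_assoc, hf]
  obtain ⟨c, hc⟩ := Matrix.mem_range_scalar_of_commute_single (M := C) (fun i j _ => by
    obtain ⟨a, ha⟩ := hπ (Matrix.single i j 1)
    rw [← ha]
    exact (h1 a).symm)
  exact ⟨c, hc.symm⟩

end

theorem blk_degree_dvd {Q : Type} [Group Q] [Finite Q] {n : ℕ} [NeZero n]
    (π : MonoidAlgebra ℂ Q →ₐ[ℂ] Matrix (Fin n) (Fin n) ℂ) (hπ : Function.Surjective π) :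
    n ∣ Nat.card Q := by
  classical
  haveI := Fintype.ofFinite Q
  set ρ := Q4_rho π with hρ
  have hn0 : (n : ℂ) ≠ 0 := by exact_mod_cast NeZero.ne n
  -- averaging
  have havg : ∀ M : Matrix (Fin n) (Fin n) ℂ,
      ∑ x : Q, ρ x * M * ρ x⁻¹ = Matrix.scalar (Fin n) ((Fintype.card Q : ℂ) * M.trace / n) := by
    intro M
    obtain ⟨c, hc⟩ := Q4_comm hπ (∑ x : Q, ρ x * M * ρ x⁻¹) (fun y => by
      rw [← hρ, Finset.sum_mul, Finset.mul_sum]
      refine (Fintype.sum_equiv (Equiv.mulLeft y⁻¹) _ _ fun x => ?_)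
      rw [Equiv.coe_mulLeft, mul_inv_rev, inv_inv, map_mul, map_mul]
      have : ρ y * (ρ y⁻¹ * ρ x * M * (ρ x⁻¹ * ρ y)) = (ρ y * ρ y⁻¹) * (ρ x * M * ρ x⁻¹ * ρ y) := by
        noncomm_ring
      rw [this, ← map_mul, mul_inv_cancel, map_one, one_mul])
    have htr := congrArg Matrix.trace hc
    have h1 : ∀ x : Q, (ρ x * M * ρ x⁻¹).trace = M.trace := by
      intro x
      rw [Matrix.trace_mul_comm, ← mul_assoc, ← map_mul, inv_mul_cancel, map_one, one_mul]
    rw [Matrix.trace_sum] at htr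
    simp only [h1, Finset.sum_const, Finset.card_univ, nsmul_eq_mul, Matrix.scalar_apply,
      Matrix.trace_diagonal, Fintype.card_fin] at htr
    rw [hc]
    congr 1
    field_simp
    linear_combination -htr
  -- orthogonality
  have horth : ∑ x : Q, (ρ x).trace * (ρ x⁻¹).trace = Fintype.card Q := by
    have h1 : ∀ i k : Fin n, ∑ x : Q, ρ x i i * ρ x⁻¹ k k =
        if i = k then (Fintype.card Q : ℂ) / n else 0 := by
      intro i k
      have h2 := congrFun (congrFun (havg (Matrix.single i k 1)) i) k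
      rw [Matrix.sum_apply] at h2
      have h3 : ∀ x : Q, (ρ x * Matrix.single i k (1 : ℂ) * ρ x⁻¹ : Matrix (Fin n) (Fin n) ℂ) i k =
          ρ x i i * ρ x⁻¹ k k := by
        intro x
        rw [Matrix.mul_apply]
        rw [Finset.sum_eq_single k]
        · simp
        · intro j _ hj
          have h0 : (ρ x * Matrix.single i k (1 : ℂ) : Matrix (Fin n) (Fin n) ℂ) i j = 0 := by
            rw [Matrix.mul_apply]
            apply Finset.sum_eq_zero
            intro l _
            rw [Matrix.single_apply, if_neg (fun h => hj h.2.symm), mul_zero]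
          rw [h0, zero_mul]
        · simp
      simp_rw [h3] at h2
      rw [h2, Matrix.scalar_apply]
      by_cases hik : i = k
      · subst hik
        rw [Matrix.diagonal_apply_eq, if_pos rfl, Matrix.trace_single_eq_same, mul_one]
      · rw [Matrix.diagonal_apply_ne _ hik, if_neg hik]
    calc ∑ x : Q, (ρ x).trace * (ρ x⁻¹).trace
        = ∑ x : Q, ∑ i, ∑ k, ρ x i i * ρ x⁻¹ k k := by
          apply Finset.sum_congr rfl
          intro x _
          unfold Matrix.trace
          simp only [Matrix.diag_apply]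
          rw [Finset.sum_mul_sum]
      _ = ∑ i, ∑ k, ∑ x : Q, ρ x i i * ρ x⁻¹ k k := by
          rw [Finset.sum_comm]
          apply Finset.sum_congr rfl
          intro i _
          rw [Finset.sum_comm]
      _ = Fintype.card Q := by
          simp_rw [h1]
          simp only [Finset.sum_ite_eq, Finset.mem_univ, if_true, Finset.sum_const, Finset.card_univ,
            Fintype.card_fin, nsmul_eq_mul]
          field_simp
  -- the central element
  set Z : Matrix (Fin n) (Fin n) ℂ := ∑ x : Q, (ρ x⁻¹).trace • ρ x with hZ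
  have hZs : Z = Matrix.scalar (Fin n) ((Fintype.card Q : ℂ) / n) := by
    obtain ⟨c, hc⟩ := Q4_comm hπ Z (fun y => by
      rw [← hρ, hZ, Finset.sum_mul, Finset.mul_sum]
      refine (Fintype.sum_equiv (MulAut.conj y⁻¹).toEquiv _ _ fun x => ?_)
      have e1 : (MulAut.conj y⁻¹).toEquiv x = y⁻¹ * x * y := by
        simp [MulAut.conj_apply]
      have e2 : (ρ (y⁻¹ * x * y)⁻¹).trace = (ρ x⁻¹).trace := by
        have : (y⁻¹ * x * y)⁻¹ = y⁻¹ * (x⁻¹ * y) := by group
        rw [this, map_mul, Matrix.trace_mul_comm, ← map_mul]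
        congr 2
        group
      rw [e1, e2, smul_mul_assoc, mul_smul_comm, ← map_mul, ← map_mul]
      congr 2
      group)
    have htr := congrArg Matrix.trace hc
    rw [hZ, Matrix.trace_sum] at htr
    have h1 : ∀ x : Q, ((ρ x⁻¹).trace • ρ x).trace = (ρ x).trace * (ρ x⁻¹).trace := by
      intro x
      rw [Matrix.trace_smul, smul_eq_mul, mul_comm]
    simp only [h1, horth, Matrix.scalar_apply, Matrix.trace_diagonal, Finset.sum_const, Finset.card_univ,
      nsmul_eq_mul, Fintype.card_fin] at htr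
    rw [hc]
    congr 1
    field_simp
    linear_combination -htr
  -- integrality
  have hint : ∀ x : Q, IsIntegral ℤ (ρ x).trace := by
    intro x
    apply Q4_trace _ (orderOf x) (orderOf_pos x)
    rw [← map_pow, pow_orderOf_eq_one, map_one]
  let R : Subalgebra ℤ ℂ := Algebra.adjoin ℤ (Set.range fun x : Q => (ρ x).trace)
  have hRfg : R.toSubmodule.FG := by
    apply fg_adjoin_of_finite (Set.finite_range _)
    rintro _ ⟨x, rfl⟩
    exact hint x
  haveI : Module.Finite ℤ R := Module.Finite.iff_fg.2 hRfg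
  have hmem : ∀ x : Q, (ρ x).trace ∈ R := fun x => Algebra.subset_adjoin ⟨x, rfl⟩
  haveI : Module.Finite R (MonoidAlgebra R Q) := inferInstance
  haveI : Module.Finite ℤ (MonoidAlgebra R Q) := Module.Finite.trans R _
  let Θ : MonoidAlgebra R Q →ₐ[R] Matrix (Fin n) (Fin n) ℂ := MonoidAlgebra.lift R (Matrix (Fin n) (Fin n) ℂ) Q ρ
  let z : MonoidAlgebra R Q := ∑ x : Q, MonoidAlgebra.single x ⟨(ρ x⁻¹).trace, hmem x⁻¹⟩
  have hz : IsIntegral ℤ z := IsIntegral.of_finite ℤ z
  have hΘz : Θ z = Z := by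
    rw [map_sum, hZ]
    apply Finset.sum_congr rfl
    intro x _
    rw [MonoidAlgebra.lift_single]
    rfl
  have hZint : IsIntegral ℤ Z := by
    rw [← hΘz]
    exact map_isIntegral_int Θ hz
  have hq : IsIntegral ℤ ((Fintype.card Q : ℂ) / n) := by
    rw [hZs] at hZint
    have hinj : Function.Injective (algebraMap ℂ (Matrix (Fin n) (Fin n) ℂ)) :=
      FaithfulSMul.algebraMap_injective _ _
    exact (isIntegral_algebraMap_iff hinj).1 hZint
  have hq' : IsIntegral ℤ ((Fintype.card Q : ℚ) / n) := by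
    have h1 : ((Fintype.card Q : ℂ) / n) = algebraMap ℚ ℂ ((Fintype.card Q : ℚ) / n) := by
      push_cast
      simp
    rw [h1] at hq
    exact (isIntegral_algebraMap_iff (algebraMap ℚ ℂ).injective).1 hq
  obtain ⟨m, hm⟩ := IsIntegrallyClosed.isIntegral_iff.1 hq'
  have hnq : (n : ℚ) ≠ 0 := by exact_mod_cast NeZero.ne n
  have h2 : (m : ℚ) * n = Fintype.card Q := by
    rw [eq_div_iff hnq] at hm
    exact hm
  have h3 : m * (n : ℤ) = (Fintype.card Q : ℤ) := by exact_mod_cast h2
  have h4 : (n : ℤ) ∣ (Fintype.card Q : ℤ) := ⟨m, by rw [← h3, mul_comm]⟩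
  rw [Nat.card_eq_fintype_card]
  exact_mod_cast h4

end Pool.FS95
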