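import Pool.Agent.LibFS95.Q3
import Pool.Agent.LibFS95.Q4

/-!
Row Q5: `h` fixes the generator of the `e`-part of the `g`-twisted centre.

Plan. `π = π_e`, `n` = degree. `h t ∈ tz g` (`tzMap`), `e (h t) = h (e t) = h t` (as `h • e = e`), so `h t = λ t` (`hu`). `π ∘ aut h` and `π` have the same kernel, Q1: `π (h a) = U π(a) U⁻¹`. So
`U T U⁻¹ = λ T` with `T = π t ≠ 0`. `T` is invertible: `ker T` is stable under all `π(g b)` (`T π(g b) v = π(b) T v = 0`), i.e. under all matrices, and `T ≠ 0`, so `ker T = 0`. Determinants: `λ^n = 1`;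
`n ∣ |Q|` (Q4) is a power of `ℓ`. With `r = orderOf g`: `π(b) T^r = T^r π(g^r b) = T^r π(b)` so `T^r` is scalar, commutes with `U`: `T^r = U T^r U⁻¹ = λ^r T^r`, so `λ^r = 1`. `gcd(n, r) = 1`, so `λ = 1`.
-/

set_option autoImplicit false
noncomputable section
open MulAction
namespace Pool.FS95

/-- a matrix whose kernel is stable under all matrices is zero or invertible -/
theorem q5_det {n : ℕ} (T : Matrix (Fin n) (Fin n) ℂ) (hT : T ≠ 0)
    (h : ∀ (v : Fin n → ℂ), T.mulVec v = 0 → ∀ X : Matrix (Fin n) (Fin n) ℂ,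
      T.mulVec (X.mulVec v) = 0) : T.det ≠ 0 := by
  intro h0
  obtain ⟨v, hv, hTv⟩ := Matrix.exists_mulVec_eq_zero_iff.2 h0
  obtain ⟨i, hi⟩ := Function.ne_iff.1 hv
  apply hT
  ext a j
  have h1 := h v hTv (Matrix.single j i (v i)⁻¹)
  have h2 : (Matrix.single j i (v i)⁻¹ : Matrix (Fin n) (Fin n) ℂ).mulVec v =
      Pi.single j 1 := by
    rw [Matrix.single_mulVec, inv_mul_cancel₀ hi]
    rfl
  rw [h2, Matrix.mulVec_single_one] at h1
  exact congrFun h1 a

/-- the matrix of a twisted central element: powers -/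
theorem q5_pow {Q : Type} [Group Q] {g : MulAut Q} {n : ℕ}
    (π : MonoidAlgebra ℂ Q →ₐ[ℂ] Matrix (Fin n) (Fin n) ℂ) {t : MonoidAlgebra ℂ Q}
    (ht : t ∈ tz g) (j : ℕ) (b : MonoidAlgebra ℂ Q) :
    π b * π t ^ j = π t ^ j * π (aut ℂ (g ^ j) b) := by
  induction j with
  | zero => rw [pow_zero, pow_zero, mul_one, one_mul, aut_one]
  | succ j ih =>
    have h1 : π (aut ℂ (g ^ j) b) * π t = π t * π (aut ℂ (g ^ (j + 1)) b) := by
      rw [← map_mul, ht, map_mul, pow_succ', aut_mul]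
    rw [pow_succ, ← mul_assoc, ih, mul_assoc, h1, ← mul_assoc]

theorem tz_gen_fixed (ℓ : ℕ) [Fact ℓ.Prime] {Q : Type} [Group Q] [Finite Q] (hQ : IsPGroup ℓ Q)
    (g h : MulAut Q) (hgh : g * h = h * g) (hg : ¬ ℓ ∣ orderOf g) (e : Blk ℂ Q) (he : g • e = e)
    (he' : h • e = e) (t : MonoidAlgebra ℂ Q) (ht : t ∈ tz g) (ht0 : t ≠ 0) (het : e.1 * t = t)
    (hu : ∀ a ∈ tz g, e.1 * a = a → ∃ c : ℂ, a = c • t) : aut ℂ h t = t := by
  have hcard : (Nat.card Q : ℂ) ≠ 0 := by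
    have : Nat.card Q ≠ 0 := Nat.card_pos.ne'
    exact_mod_cast this
  obtain ⟨n, hn, π, hπs, hπk⟩ := exists_blkHom ℂ Q hcard e
  have hhe : aut ℂ h e.1 = e.1 := congrArg Subtype.val he'
  -- `h t = lam t`
  obtain ⟨lam, hlam⟩ := hu (aut ℂ h t) (tzMap g h hgh ⟨t, ht⟩).2 (by
    conv_lhs => rw [← hhe]
    rw [← map_mul, het])
  -- the conjugation
  obtain ⟨U, hU⟩ := skolem_noether π (π.comp (aut ℂ h).toAlgHom) hπs
    (hπs.comp (aut ℂ h).surjective) (fun a => by
      change π a = 0 ↔ π (aut ℂ h a) = 0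
      rw [hπk, hπk]
      conv_rhs => rw [← hhe]
      rw [← map_mul, map_eq_zero_iff _ (aut ℂ h).injective])
  have hU' : ∀ a, π (aut ℂ h a) = (U : Matrix (Fin n) (Fin n) ℂ) * π a *
      ((U⁻¹ : (Matrix (Fin n) (Fin n) ℂ)ˣ) : Matrix (Fin n) (Fin n) ℂ) := hU
  have hT0 : π t ≠ 0 := by
    intro h0
    rw [hπk, het] at h0
    exact ht0 h0
  have hTU := hU' t
  rw [hlam, map_smul] at hTU
  -- `T` is invertible
  have hdet : (π t).det ≠ 0 := by
    refine q5_det (π t) hT0 fun v hv X => ?_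
    obtain ⟨a, rfl⟩ := hπs X
    have h1 := ht (aut ℂ g⁻¹ a)
    rw [← aut_mul, mul_inv_cancel, aut_one] at h1
    have h2 := congrArg π h1
    rw [map_mul, map_mul] at h2
    rw [Matrix.mulVec_mulVec, ← h2, ← Matrix.mulVec_mulVec, hv, Matrix.mulVec_zero]
  -- determinants
  have hlamn : lam ^ n = 1 := by
    have h1 := congrArg Matrix.det hTU
    rw [Matrix.det_smul, Fintype.card_fin, Matrix.det_mul, Matrix.det_mul, mul_right_comm,
      ← Matrix.det_mul, Units.mul_inv, Matrix.det_one, one_mul] at h1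
    exact mul_right_cancel₀ hdet (h1.trans (one_mul _).symm)
  -- the order of `g`
  have hlamr : lam ^ orderOf g = 1 := by
    have h1 : ∀ b, π b * π t ^ orderOf g = π t ^ orderOf g * π b := by
      intro b
      have h2 := q5_pow π ht (orderOf g) b
      rwa [pow_orderOf_eq_one, aut_one] at h2
    have h2 : (U : Matrix (Fin n) (Fin n) ℂ) * π t ^ orderOf g = π t ^ orderOf g * U := by
      obtain ⟨b, hb⟩ := hπs (U : Matrix (Fin n) (Fin n) ℂ)
      rw [← hb]
      exact h1 b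
    have h3 := congrArg (fun M : Matrix (Fin n) (Fin n) ℂ => M ^ orderOf g) hTU
    simp only [smul_pow] at h3
    rw [Units.conj_pow, h2, mul_assoc, Units.mul_inv, mul_one] at h3
    have h4 : π t ^ orderOf g ≠ 0 := by
      intro h0
      have h5 := congrArg Matrix.det h0
      rw [Matrix.det_pow, Matrix.det_zero] at h5
      exact pow_ne_zero _ hdet h5
    by_contra hne
    have h5 : (lam ^ orderOf g - 1) • π t ^ orderOf g = 0 := by
      rw [sub_smul, one_smul, h3, sub_self]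
    rcases smul_eq_zero.1 h5 with h6 | h6
    · exact hne (sub_eq_zero.1 h6)
    · exact h4 h6
  -- the degree is a power of `ℓ`
  have hcop : Nat.Coprime n (orderOf g) := by
    obtain ⟨m, hm⟩ := IsPGroup.iff_card.1 hQ
    have h1 := blk_degree_dvd π hπs
    rw [hm, Nat.dvd_prime_pow (Fact.out : ℓ.Prime)] at h1
    obtain ⟨k, -, rfl⟩ := h1
    exact Nat.Coprime.pow_left k (((Fact.out : ℓ.Prime).coprime_iff_not_dvd).2 hg)
  have hlam1 : lam = 1 := by
    rw [← orderOf_eq_one_iff]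
    exact Nat.dvd_one.1 (hcop ▸ Nat.dvd_gcd (orderOf_dvd_of_pow_eq_one hlamn)
      (orderOf_dvd_of_pow_eq_one hlamr))
  rw [hlam, hlam1, one_smul]

end Pool.FS95
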