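import Pool.Agent.LibFS95.Q5
import Pool.Agent.LibFS95.Q2

/-!
Row Q6: the trace of `h` on the `g`-twisted centre is the number of blocks fixed by `g` and `h`.
-/

set_option autoImplicit false
noncomputable section
open MulAction
namespace Pool.FS95

private theorem q6_card {Q : Type} [Group Q] [Finite Q] : (Nat.card Q : ℂ) ≠ 0 := by
  have : Nat.card Q ≠ 0 := Nat.card_pos.ne'
  exact_mod_cast this

theorem trace_tzMap_blk (ℓ : ℕ) [Fact ℓ.Prime] {Q : Type} [Group Q] [Finite Q] (hQ : IsPGroup ℓ Q)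
    (g h : MulAut Q) (hgh : g * h = h * g) (hg : ¬ ℓ ∣ orderOf g) :
    LinearMap.trace ℂ (tz g) (tzMap g h hgh) =
      (Nat.card {e : Blk ℂ Q // g • e = e ∧ h • e = e} : ℂ) := by
  classical
  haveI : Finite (Blk ℂ Q) := blk_finite ℂ Q q6_card
  haveI : Fintype (Blk ℂ Q) := Fintype.ofFinite _
  haveI : Fintype {e : Blk ℂ Q // g • e = e} := Fintype.ofFinite _
  choose t ht ht0 het hu using fun e : {e : Blk ℂ Q // g • e = e} => exists_tz_gen g e.1 e.2
  obtain ⟨b0, hb0⟩ : ∃ b0 : {e : Blk ℂ Q // g • e = e} → tz g,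
      ∀ e, (b0 e : MonoidAlgebra ℂ Q) = t e := ⟨fun e => ⟨t e, ht e⟩, fun e => rfl⟩
  have horth : ∀ i j : {e : Blk ℂ Q // g • e = e}, i ≠ j →
      (j.1.1 : MonoidAlgebra ℂ Q) * t i = 0 := by
    intro i j hij
    have h1 := blk_orth ℂ Q q6_card j.1 i.1 (fun h => hij (Subtype.ext h.symm))
    rw [← het i, ← mul_assoc, h1, zero_mul]
  have hli : LinearIndependent ℂ b0 := by
    rw [Fintype.linearIndependent_iff]
    intro c hc j
    have h1 : (∑ i, c i • t i : MonoidAlgebra ℂ Q) = 0 := by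
      have h2 := congrArg Subtype.val hc
      rw [Submodule.coe_sum] at h2
      rw [← Submodule.coe_zero (p := tz g), ← h2]
      refine Finset.sum_congr rfl fun i _ => ?_
      rw [Submodule.coe_smul, hb0]
    have h3 := congrArg (fun z : MonoidAlgebra ℂ Q => j.1.1 * z) h1
    simp only [Finset.mul_sum, mul_smul_comm, mul_zero] at h3
    rw [Finset.sum_eq_single j (fun i _ hij => by rw [horth i j hij, smul_zero])
      (fun hj => absurd (Finset.mem_univ j) hj), het j] at h3
    exact (smul_eq_zero.1 h3).resolve_right (ht0 j)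
  have hspan : ⊤ ≤ Submodule.span ℂ (Set.range b0) := by
    intro a _
    have ha : (a : MonoidAlgebra ℂ Q) = ∑ e : Blk ℂ Q, e.1 * a.1 := by
      rw [← Finset.sum_mul, ← finsum_eq_sum_of_fintype, blk_sum ℂ Q q6_card, one_mul]
    have hmem : ∀ e : Blk ℂ Q, e.1 * a.1 ∈ tz g := fun e b => by
      rw [← mul_assoc, ← e.2.2.2.1 b, mul_assoc, a.2 b, mul_assoc]
    have ha' : a = ∑ e : Blk ℂ Q, (⟨e.1 * a.1, hmem e⟩ : tz g) := by
      apply Subtype.ext
      rw [Submodule.coe_sum]
      exact ha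
    rw [ha']
    apply Submodule.sum_mem
    intro e _
    by_cases he : g • e = e
    · obtain ⟨c, hc⟩ := hu ⟨e, he⟩ (e.1 * a.1) (hmem e) (by
        change e.1 * (e.1 * a.1) = e.1 * a.1
        rw [← mul_assoc, e.2.2.1])
      have h1 : (⟨e.1 * a.1, hmem e⟩ : tz g) = c • b0 ⟨e, he⟩ := by
        apply Subtype.ext
        rw [Submodule.coe_smul, hb0]
        exact hc
      rw [h1]
      exact Submodule.smul_mem _ _ (Submodule.subset_span ⟨_, rfl⟩)
    · have h1 : (⟨e.1 * a.1, hmem e⟩ : tz g) = 0 := Subtype.ext (tz_blk_zero g e he a.1 a.2)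
      rw [h1]
      exact Submodule.zero_mem _
  obtain ⟨b, hb⟩ : ∃ b : Module.Basis {e : Blk ℂ Q // g • e = e} ℂ (tz g), ∀ e, b e = b0 e :=
    ⟨Module.Basis.mk hli hspan, fun e => by rw [Module.Basis.mk_apply]⟩
  rw [LinearMap.trace_eq_matrix_trace ℂ b]
  have hentry : ∀ e : {e : Blk ℂ Q // g • e = e},
      (LinearMap.toMatrix b b (tzMap g h hgh)) e e = if h • e.1 = e.1 then 1 else 0 := by
    intro e
    rw [LinearMap.toMatrix_apply]
    split_ifs with he
    · have h1 : tzMap g h hgh (b e) = b e := by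
        apply Subtype.ext
        rw [tzMap_coe, hb, hb0]
        exact tz_gen_fixed ℓ hQ g h hgh hg e.1 e.2 he (t e) (ht e) (ht0 e) (het e) (hu e)
      rw [h1, b.repr_self, Finsupp.single_eq_same]
    · have he' : g • (h • e.1) = h • e.1 := by
        rw [← mul_smul, hgh, mul_smul, e.2]
      have h1 : (h • e.1).1 * aut ℂ h (t e) = aut ℂ h (t e) := by
        rw [blk_smul_val, ← map_mul, het e]
      have h2 : aut ℂ h (t e) ∈ tz g := by
        have := (tzMap g h hgh (b e)).2
        rwa [tzMap_coe, hb, hb0] at this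
      obtain ⟨c, hc⟩ := hu ⟨h • e.1, he'⟩ (aut ℂ h (t e)) h2 h1
      have h3 : tzMap g h hgh (b e) = c • b ⟨h • e.1, he'⟩ := by
        apply Subtype.ext
        rw [tzMap_coe, Submodule.coe_smul, hb, hb, hb0, hb0]
        exact hc
      rw [h3, map_smul, b.repr_self, Finsupp.smul_apply, Finsupp.single_apply, if_neg, smul_zero]
      intro h4
      exact he (congrArg Subtype.val h4)
  unfold Matrix.trace
  simp only [Matrix.diag_apply]
  rw [Finset.sum_congr rfl fun c _ => hentry c, Finset.sum_boole]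
  congr 1
  rw [← Fintype.card_subtype, ← Nat.card_eq_fintype_card]
  exact Nat.card_congr (Equiv.subtypeSubtypeEquivSubtypeInter (fun e : Blk ℂ Q => g • e = e)
    (fun e => h • e = e))

end Pool.FS95
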