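import Pool.Agent.LibFS95.Gen

/-!
Row Q7: Glauberman's lemma for an `ℓ`-group `O` and an `ℓ'`-group `A`.
Proof: along the derived series of `O`; in every step the group is abelian modulo the next term.
-/

set_option autoImplicit false
noncomputable section
open MulAction
namespace Pool.FS95

section
variable {O A Ω : Type} [Group O] [Finite O] [Group A] [Finite A] [MulDistribMulAction A O]
    [MulAction O Ω] [MulAction A Ω]

/-- one step -/
private theorem Q7_step (hc : ∀ (a : A) (o : O) (ω : Ω), a • (o • ω) = (a • o) • (a • ω))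
    (k : ℕ) (hk : ∀ x : O, x ^ (Nat.card A * k) = x) (M : Subgroup O) (hM : ∀ (a : A), ∀ m ∈ M, a • m ∈ M)
    [(⁅M, M⁆ : Subgroup O).Normal] (ω : Ω) (hω : ∀ a : A, ∃ m ∈ M, a • ω = m • ω) :
    ∃ ω' : Ω, ∀ a : A, ∃ n ∈ ⁅M, M⁆, a • ω' = n • ω' := by
  classical
  haveI := Fintype.ofFinite A
  choose m₀ hm₀ hmω using hω
  let m : A → M := fun a => ⟨m₀ a, hm₀ a⟩
  let q : M →* Abelianization M := Abelianization.of
  -- the group `S`
  let S : Subgroup M :=
    { carrier := {x | ∃ n ∈ ⁅M, M⁆, (x : O) • ω = n • ω}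
      one_mem' := ⟨1, one_mem _, by simp⟩
      mul_mem' := by
        rintro x y ⟨n, hn, hx⟩ ⟨n', hn', hy⟩
        refine ⟨((x : O) * n' * (x : O)⁻¹) * n, mul_mem (Subgroup.Normal.conj_mem inferInstance _ hn' _) hn, ?_⟩
        rw [Subgroup.coe_mul, mul_smul, hy, mul_smul, ← hx, ← mul_smul, ← mul_smul]
        congr 1
        group
      inv_mem' := by
        rintro x ⟨n, hn, hx⟩
        refine ⟨((x : O)⁻¹ * n * ((x : O)⁻¹)⁻¹)⁻¹,
          inv_mem (Subgroup.Normal.conj_mem inferInstance _ hn _), ?_⟩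
        rw [Subgroup.coe_inv]
        have h1 : ω = ((x : O)⁻¹ * n) • ω := by
          rw [mul_smul, ← hx, inv_smul_smul]
        rw [eq_inv_smul_iff, ← mul_smul]
        have h2 : (x : O)⁻¹ * n * ((x : O)⁻¹)⁻¹ * (x : O)⁻¹ = (x : O)⁻¹ * n := by group
        rw [h2]
        exact h1.symm }
  have hSmem : ∀ x : M, x ∈ S ↔ ∃ n ∈ ⁅M, M⁆, (x : O) • ω = n • ω := fun x => Iff.rfl
  have hcomm : commutator M ≤ S := by
    intro x hx
    have h1 : (x : O) ∈ (commutator M).map M.subtype := ⟨x, hx, rfl⟩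
    rw [commutator_def, Subgroup.map_commutator, ← MonoidHom.range_eq_map, Subgroup.range_subtype] at h1
    exact ⟨x, h1, rfl⟩
  have hqS : ∀ x : M, q x ∈ S.map q → x ∈ S := by
    rintro x ⟨s, hs, hsx⟩
    have h1 : x * s⁻¹ ∈ q.ker := by
      rw [MonoidHom.mem_ker, map_mul, map_inv, hsx, mul_inv_cancel]
    have h2 : q.ker = commutator M := Abelianization.ker_of M
    rw [h2] at h1
    have h3 := S.mul_mem (hcomm h1) hs
    rwa [inv_mul_cancel_right] at h3
  -- the action of `a` on `M`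
  let f : A → M →* M := fun a =>
    { toFun := fun x => ⟨a • (x : O), hM a x x.2⟩
      map_one' := Subtype.ext (smul_one a)
      map_mul' := fun x y => Subtype.ext (smul_mul' a (x : O) (y : O)) }
  have hf : ∀ a x, ((f a x : M) : O) = a • (x : O) := fun a x => rfl
  let α : A → Abelianization M →* Abelianization M := fun a => Abelianization.lift (q.comp (f a))
  have hα : ∀ a x, α a (q x) = q (f a x) := fun a x => by
    simp only [α, q, Abelianization.lift_apply_of, MonoidHom.comp_apply]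
  obtain ⟨d, hd⟩ : ∃ d : M, q d = ∏ b : A, q (m b) := QuotientGroup.mk_surjective _
  -- cocycle
  have hcoc : ∀ a b : A, (m (a * b))⁻¹ * (f a (m b) * m a) ∈ S := by
    intro a b
    refine ⟨1, one_mem _, ?_⟩
    rw [Subgroup.coe_mul, Subgroup.coe_inv, Subgroup.coe_mul, hf, one_smul, mul_smul, inv_smul_eq_iff]
    have h1 : (a * b) • ω = (m (a * b) : O) • ω := hmω (a * b)
    rw [← h1, mul_smul, mul_smul a b ω]
    have h2 : b • ω = (m b : O) • ω := hmω b
    have h3 : a • ω = (m a : O) • ω := hmω a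
    rw [h2, hc, h3]
  have hprod : ∀ a : A, (q d)⁻¹ * (q (f a d) * q (m a) ^ Fintype.card A) ∈ S.map q := by
    intro a
    have h1 : ∏ b : A, ((q (m (a * b)))⁻¹ * (q (f a (m b)) * q (m a))) ∈ S.map q := by
      apply Subgroup.prod_mem
      intro b _
      refine ⟨_, hcoc a b, ?_⟩
      rw [map_mul, map_inv, map_mul]
    have h2 : ∏ b : A, q (m (a * b)) = q d := by
      rw [hd]
      exact Fintype.prod_equiv (Equiv.mulLeft a) _ _ fun b => rfl
    have h3 : ∏ b : A, q (f a (m b)) = q (f a d) := by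
      rw [← hα, hd, map_prod]
      exact Finset.prod_congr rfl fun b _ => (hα a (m b)).symm
    rw [Finset.prod_mul_distrib, Finset.prod_mul_distrib, Finset.prod_inv_distrib, h2, h3,
      Finset.prod_const, Finset.card_univ] at h1
    exact h1
  have hfin : ∀ a : A, (d ^ k)⁻¹ * (f a (d ^ k) * m a) ∈ S := by
    intro a
    apply hqS
    have h1 := Subgroup.pow_mem _ (hprod a) k
    have h2 : ((q d)⁻¹ * (q (f a d) * q (m a) ^ Fintype.card A)) ^ k =
        q ((d ^ k)⁻¹ * (f a (d ^ k) * m a)) := by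
      rw [mul_pow, mul_pow, inv_pow, ← pow_mul, map_mul, map_inv, map_mul, map_pow, map_pow, map_pow]
      congr 2
      rw [← map_pow]
      congr 1
      apply Subtype.ext
      rw [Subgroup.coe_pow, ← Nat.card_eq_fintype_card]
      exact hk _
    rw [h2] at h1
    exact h1
  refine ⟨((d ^ k : M) : O) • ω, fun a => ?_⟩
  obtain ⟨n, hn, h1⟩ := hfin a
  set z : M := d ^ k with hz
  rw [Subgroup.coe_mul, Subgroup.coe_inv, Subgroup.coe_mul, hf, mul_smul, inv_smul_eq_iff, mul_smul] at h1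
  refine ⟨(z : O) * n * (z : O)⁻¹, Subgroup.Normal.conj_mem inferInstance _ hn _, ?_⟩
  rw [hc, hmω a]
  have h2 : (m a : O) = m₀ a := rfl
  rw [h2] at h1
  rw [h1, ← mul_smul, ← mul_smul]
  congr 1
  group

end

theorem glauberman_lemma (ℓ : ℕ) [Fact ℓ.Prime] {O A Ω : Type} [Group O] [Finite O] [Group A]
    [Finite A] (hO : IsPGroup ℓ O) (hA : ¬ ℓ ∣ Nat.card A) [MulDistribMulAction A O]
    [MulAction O Ω] [MulAction A Ω] [Nonempty Ω] [IsPretransitive O Ω]
    (hc : ∀ (a : A) (o : O) (ω : Ω), a • (o • ω) = (a • o) • (a • ω)) :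
    ∃ ω : Ω, ∀ a : A, a • ω = ω := by
  classical
  -- the exponent `k`
  obtain ⟨k, hk⟩ : ∃ k : ℕ, ∀ x : O, x ^ (Nat.card A * k) = x := by
    obtain ⟨r, hr⟩ := (IsPGroup.iff_card).1 hO
    have hcop : (Nat.card A).Coprime (Nat.card O) := by
      rw [hr]
      apply Nat.Coprime.pow_right
      exact ((Nat.Prime.coprime_iff_not_dvd (Fact.out : ℓ.Prime)).2 hA).symm
    rcases Nat.lt_or_ge 1 (Nat.card O) with h1 | h1
    · obtain ⟨k, -, hk⟩ := Nat.exists_mul_mod_eq_one_of_coprime hcop h1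
      refine ⟨k, fun x => ?_⟩
      rw [← pow_mod_natCard, hk, pow_one]
    · have : Subsingleton O := (Finite.card_le_one_iff_subsingleton).1 h1
      exact ⟨1, fun x => Subsingleton.elim _ _⟩
  haveI : Group.IsNilpotent O := hO.isNilpotent
  obtain ⟨N, hN⟩ := (isSolvable_def O).1 inferInstance
  have hstep : ∀ n : ℕ, ∃ ω : Ω, ∀ a : A, ∃ m ∈ derivedSeries O n, a • ω = m • ω := by
    intro n
    induction n with
    | zero =>
      obtain ⟨ω⟩ := (inferInstance : Nonempty Ω)
      refine ⟨ω, fun a => ?_⟩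
      obtain ⟨o, ho⟩ := MulAction.exists_smul_eq O ω (a • ω)
      exact ⟨o, by simp, ho.symm⟩
    | succ n ih =>
      obtain ⟨ω, hω⟩ := ih
      rw [derivedSeries_succ]
      haveI : (⁅derivedSeries O n, derivedSeries O n⁆ : Subgroup O).Normal := by
        rw [← derivedSeries_succ]; infer_instance
      refine Q7_step hc k hk (derivedSeries O n) ?_ ω hω
      intro a m hm
      have h1 := (Subgroup.characteristic_iff_map_eq.1 (derivedSeries_characteristic O n))
        (MulDistribMulAction.toMulEquiv O a)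
      rw [← h1]
      exact ⟨m, hm, rfl⟩
  obtain ⟨ω, hω⟩ := hstep N
  refine ⟨ω, fun a => ?_⟩
  obtain ⟨m, hm, h⟩ := hω a
  rw [hN, Subgroup.mem_bot] at hm
  rw [h, hm, one_smul]

end Pool.FS95
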