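import Pool.Agent.LibFSN.Plus
import Mathlib.NumberTheory.Bertrand

/-!
Systems of conditions `x_i + 1 = x_k`, `x_i ! = x_k`, `x_i ∤ x_k` in positive integers
(MP_38ee21_nt): the structure of a system with finitely many solutions and a large solution.
-/

set_option autoImplicit false

namespace Pool.Agent.LibFS95

open Nat Finset Pool.Agent.LibFSN

/-- A set of unknowns which no factorial atom touches and no successor atom leaves can be shifted. -/
theorem shift_inf {n : ℕ} {A B C : Set (Fin n × Fin n)} {U : Set (Fin n)} (hU : U.Nonempty)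
    (hA : ∀ p ∈ A, p.1 ∈ U ↔ p.2 ∈ U) (hB : ∀ p ∈ B, p.1 ∉ U ∧ p.2 ∉ U)
    {x : Fin n → ℕ} (hx : x ∈ Sols A B C) : (Sols A B C).Infinite := by
  classical
  obtain ⟨hx1, hxA, hxB, hxC⟩ := hx
  obtain ⟨u, hu⟩ := hU
  set L : ℕ := ∏ i, x i with hL
  set M : ℕ := ∑ i, x i with hM
  have hL1 : 1 ≤ L := Finset.one_le_prod' fun i _ => hx1 i
  have hdL : ∀ i, x i ∣ L := fun i => Finset.dvd_prod_of_mem x (Finset.mem_univ i)
  have hle : ∀ i, x i ≤ M := fun i =>
    Finset.single_le_sum (f := x) (fun _ _ => Nat.zero_le _) (Finset.mem_univ i)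
  let y : ℕ → Fin n → ℕ := fun t i => if i ∈ U then x i + L * (M + 1 + t) else x i
  have hbig : ∀ t, M + 1 ≤ L * (M + 1 + t) := by
    intro t
    calc M + 1 ≤ M + 1 + t := Nat.le_add_right _ _
      _ = 1 * (M + 1 + t) := (one_mul _).symm
      _ ≤ L * (M + 1 + t) := Nat.mul_le_mul_right _ hL1
  refine Set.infinite_of_injective_forall_mem (f := y) ?_ ?_
  · intro s t hst
    have h := congrFun hst u
    simp only [y, if_pos hu] at h
    have h2 : L * (M + 1 + s) = L * (M + 1 + t) := by omega
    have h3 := Nat.eq_of_mul_eq_mul_left hL1 h2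
    omega
  · intro t
    refine ⟨fun i => ?_, fun p hp => ?_, fun p hp => ?_, fun p hp => ?_⟩
    · simp only [y]
      split_ifs
      · have := hx1 i; omega
      · exact hx1 i
    · have h1 := hxA p hp
      have h2 := hA p hp
      by_cases h : p.1 ∈ U
      · simp only [y, if_pos h, if_pos (h2.1 h)]; omega
      · simp only [y, if_neg h, if_neg (fun h' => h (h2.2 h'))]; exact h1
    · have h1 := hxB p hp
      obtain ⟨h2, h3⟩ := hB p hp
      simp only [y, if_neg h2, if_neg h3]; exact h1
    · have h1 := hxC p hp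
      have hb := hbig t
      have e1 := hle p.1
      have e2 := hle p.2
      have e3 := hx1 p.1
      have e4 := hx1 p.2
      by_cases h : p.1 ∈ U
      · by_cases h' : p.2 ∈ U
        · simp only [y, if_pos h, if_pos h']
          rintro ⟨c, hc⟩
          rcases c with _ | _ | c
          · omega
          · have : x p.1 = x p.2 := by omega
            exact h1 (this ▸ dvd_rfl)
          · have : 2 * (x p.1 + L * (M + 1 + t)) ≤ (x p.1 + L * (M + 1 + t)) * (c + 1 + 1) := by
              rw [mul_comm]
              exact Nat.mul_le_mul_left _ (by omega)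
            omega
        · simp only [y, if_pos h, if_neg h']
          intro hd
          have := Nat.le_of_dvd e4 hd
          omega
      · by_cases h' : p.2 ∈ U
        · simp only [y, if_neg h, if_pos h']
          intro hd
          exact h1 ((Nat.dvd_add_left ((hdL p.1).mul_right _)).1 hd)
        · simp only [y, if_neg h, if_neg h']
          exact h1

/-- The map which replaces the positive integers up to `M` by `1`, `2` and large numbers. -/
structure Gm (P N M : ℕ) (g : ℕ → ℕ) : Prop where
  zero : g 0 = 0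
  one : g 1 = 1
  two : g 2 = 2
  three : P ≤ g 3
  mono : ∀ v w, 1 ≤ v → v < w → w ≤ M → g v < g w
  fac : ∀ w, w ! ≤ M → g (w !) = (g w)!
  prime : ∀ v, 3 ≤ v → v ≤ M → (∀ w, w ! ≠ v) → (g v).Prime
  ctl : ∀ u v, 3 ≤ u → u ≤ M → v ≤ M → v < (u + 1)! → g v ≤ 2 ^ v * (g u)!
  low : ∀ v, v ≤ M → v < 6 → g v ≤ 2 ^ v * g 3

theorem Gm.large {P N M : ℕ} {g : ℕ → ℕ} (h : Gm P N M g) {v : ℕ} (h3 : 3 ≤ v) (hv : v ≤ M) : P ≤ g v := by
  rcases h3.eq_or_lt with rfl | h4
  · exact h.three
  · exact h.three.trans (h.mono 3 v (by norm_num) h4 hv).le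

theorem fac_cases {w : ℕ} (h : w ! ≤ 3) : w = 0 ∨ w = 1 ∨ w = 2 := by
  by_contra hc
  have h3 : 3 ≤ w := by omega
  have := Nat.factorial_le h3
  have h6 : 3 ! = 6 := rfl
  omega

theorem gm_base {P N : ℕ} (hP : P.Prime) (h6 : 6 ≤ P) : Gm P N 3 (fun v => if v < 3 then v else P) where
  zero := by simp
  one := by simp
  two := by simp
  three := by simp
  mono := by
    intro v w h1 h2 h3
    interval_cases w
    · omega
    · omega
    · have : v = 1 := by omega
      subst this; simp
    · simp only [lt_irrefl, if_false]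
      rw [if_pos (by omega)]
      omega
  fac := by
    intro w hw
    rcases fac_cases hw with rfl | rfl | rfl <;> simp
  prime := by
    intro v h1 h2 _
    have : v = 3 := by omega
    subst this; simpa using hP
  ctl := by
    intro u v h1 h2 h3 _
    have : u = 3 := by omega
    subst this
    have e1 : (if v < 3 then v else P) ≤ P := by split_ifs <;> omega
    have e2 : P ≤ P ! := Nat.self_le_factorial P
    have e3 : P ! ≤ 2 ^ v * P ! := Nat.le_mul_of_pos_left _ (by positivity)
    simpa using e1.trans (e2.trans e3)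
  low := by
    intro v h1 _
    have e1 : (if v < 3 then v else P) ≤ P := by split_ifs <;> omega
    have e3 : P ≤ 2 ^ v * P := Nat.le_mul_of_pos_left _ (by positivity)
    simpa using e1.trans e3

theorem gm_step {P N M : ℕ} (h6 : 6 ≤ P) (hN : 2 ^ N ≤ P) (h3 : 3 ≤ M) (hM : M + 1 ≤ N) {g : ℕ → ℕ}
    (h : Gm P N M g) : ∃ g', Gm P N (M + 1) g' := by
  classical
  have hgM : P ≤ g M := h.large h3 le_rfl
  have hPM : 2 ^ M < P := lt_of_lt_of_le (Nat.pow_lt_pow_right (by norm_num) (by omega)) hN
  -- the new value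
  have key : ∃ val, g M < val ∧ (∀ w, w ! = M + 1 → val = (g w)!) ∧ ((∀ w, w ! ≠ M + 1) → val.Prime ∧ val ≤ 2 * g M) := by
    by_cases hf : ∃ w, w ! = M + 1
    · obtain ⟨w, hw⟩ := hf
      have hw3 : 3 ≤ w := by
        by_contra hc
        have : w = 0 ∨ w = 1 ∨ w = 2 := by omega
        rcases this with rfl | rfl | rfl
        · simp at hw; omega
        · simp at hw; omega
        · have : (2 : ℕ) ! = 2 := rfl
          omega
      have hwM : w ≤ M := by
        have := Nat.lt_factorial_self hw3
        omega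
      refine ⟨(g w)!, ?_, fun w' hw' => ?_, fun hn => absurd hw (hn w)⟩
      · rcases hw3.eq_or_lt with rfl | h4
        · have e : (3 : ℕ) ! = 6 := rfl
          have hM5 : M = 5 := by omega
          subst hM5
          have e1 := h.low 5 le_rfl (by norm_num)
          have e2 : 6 ≤ g 3 := h6.trans h.three
          have e3 : 2 ^ 5 * g 3 < (g 3)! := by
            obtain ⟨c, hc⟩ := Nat.exists_eq_add_of_le e2
            have e4 : (5 : ℕ) ! ≤ (5 + c)! := Nat.factorial_le (by omega)
            have e5 : (5 : ℕ) ! = 120 := rfl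
            rw [hc, show 6 + c = (5 + c) + 1 by ring, Nat.factorial_succ, mul_comm (5 + c + 1)]
            have e6 : 0 < 5 + c + 1 := by omega
            have e7 : (2 : ℕ) ^ 5 < (5 + c)! := by
              rw [e5] at e4
              have : (2 : ℕ) ^ 5 = 32 := by norm_num
              omega
            exact Nat.mul_lt_mul_of_pos_right e7 e6
          exact lt_of_le_of_lt e1 e3
        · obtain ⟨u, rfl⟩ : ∃ u, w = u + 1 := ⟨w - 1, by omega⟩
          have e1 := h.ctl u M (by omega) (by omega) le_rfl (by omega)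
          have e2 : P ≤ g u := h.large (by omega) (by omega)
          have e3 : g u + 1 ≤ g (u + 1) := h.mono u (u + 1) (by omega) (by omega) hwM
          have e4 : (g u + 1)! ≤ (g (u + 1))! := Nat.factorial_le e3
          have e5 : 2 ^ M * (g u)! < (g u + 1)! := by
            rw [Nat.factorial_succ]
            exact Nat.mul_lt_mul_of_pos_right (by omega) (Nat.factorial_pos _)
          omega
      · have : w' = w := by
          have h1 : w' ! = w ! := hw'.trans hw.symm
          exact ((Nat.factorial_inj (by omega)).1 h1.symm).symm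
        rw [this]
    · obtain ⟨p, hp, h1, h2⟩ := Nat.exists_prime_lt_and_le_two_mul (g M) (by omega)
      exact ⟨p, h1, fun w hw => absurd ⟨w, hw⟩ hf, fun _ => ⟨hp, h2⟩⟩
  obtain ⟨val, hv1, hv2, hv3⟩ := key
  refine ⟨fun v => if v = M + 1 then val else g v, ?_⟩
  have hold : ∀ v, v ≤ M → (if v = M + 1 then val else g v) = g v := fun v hv => if_neg (by omega)
  have hfl : ∀ w, w ! ≤ M → w ≤ M := fun w hw => (Nat.self_le_factorial w).trans hw
  have hlt : ∀ v, v ≤ M → g v ≤ g M := by
    intro v hv
    rcases hv.eq_or_lt with rfl | h1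
    · exact le_rfl
    · rcases Nat.eq_zero_or_pos v with rfl | h2
      · rw [h.zero]; exact Nat.zero_le _
      · exact (h.mono v M h2 h1 le_rfl).le
  constructor
  · simpa using h.zero
  · rw [hold 1 (by omega)]; exact h.one
  · rw [hold 2 (by omega)]; exact h.two
  · rw [hold 3 h3]; exact h.three
  · intro v w h1 h2 h4
    rw [hold v (by omega)]
    rcases Nat.lt_or_ge w (M + 1) with h5 | h5
    · rw [hold w (by omega)]; exact h.mono v w h1 h2 (by omega)
    · have : w = M + 1 := by omega
      subst this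
      rw [if_pos rfl]
      exact lt_of_le_of_lt (hlt v (by omega)) hv1
  · intro w hw
    rcases Nat.lt_or_ge (w !) (M + 1) with h5 | h5
    · rw [hold _ (by omega), hold _ (hfl w (by omega))]
      exact h.fac w (by omega)
    · have e : w ! = M + 1 := by omega
      have hw3 : 3 ≤ w := by
        by_contra hc
        have : w = 0 ∨ w = 1 ∨ w = 2 := by omega
        rcases this with rfl | rfl | rfl
        · simp at e; omega
        · simp at e; omega
        · have : (2 : ℕ) ! = 2 := rfl
          omega
      have := Nat.lt_factorial_self hw3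
      rw [if_pos e, hold w (by omega)]
      exact hv2 w e
  · intro v h1 h2 h4
    rcases Nat.lt_or_ge v (M + 1) with h5 | h5
    · rw [hold v (by omega)]; exact h.prime v h1 (by omega) h4
    · have : v = M + 1 := by omega
      subst this
      rw [if_pos rfl]
      exact (hv3 h4).1
  · intro u v h1 h2 h4 h5
    have hpow : ∀ a b : ℕ, a ≤ b → a ≤ 2 ^ v * b := fun a b hab =>
      hab.trans (Nat.le_mul_of_pos_left _ (by positivity))
    rcases Nat.lt_or_ge u (M + 1) with h6' | h6'
    · rw [hold u (by omega)]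
      rcases Nat.lt_or_ge v (M + 1) with h7 | h7
      · rw [hold v (by omega)]; exact h.ctl u v h1 (by omega) (by omega) h5
      · have : v = M + 1 := by omega
        subst this
        rw [if_pos rfl]
        by_cases hf : ∃ w, w ! = M + 1
        · obtain ⟨w, hw⟩ := hf
          have hwu : w ≤ u := by
            by_contra hc
            have := Nat.factorial_le (show u + 1 ≤ w by omega)
            omega
          rw [hv2 w hw]
          apply hpow
          apply Nat.factorial_le
          rcases hwu.eq_or_lt with rfl | h8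
          · exact le_rfl
          · rcases Nat.eq_zero_or_pos w with rfl | h9
            · rw [h.zero]; exact Nat.zero_le _
            · exact (h.mono w u h9 h8 (by omega)).le
        · have h8 := (hv3 (fun w hw => hf ⟨w, hw⟩)).2
          have h9 := h.ctl u M h1 (by omega) le_rfl (by omega)
          calc val ≤ 2 * g M := h8
            _ ≤ 2 * (2 ^ M * (g u)!) := Nat.mul_le_mul_left _ h9
            _ = 2 ^ (M + 1) * (g u)! := by rw [pow_succ]; ring
    · have : u = M + 1 := by omega
      subst this
      rw [if_pos rfl]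
      apply hpow
      refine le_trans ?_ (Nat.self_le_factorial val)
      rcases Nat.lt_or_ge v (M + 1) with h7 | h7
      · rw [hold v (by omega)]
        exact (hlt v (by omega)).trans hv1.le
      · have : v = M + 1 := by omega
        subst this
        rw [if_pos rfl]
  · intro v h1 h2
    rw [hold 3 h3]
    rcases Nat.lt_or_ge v (M + 1) with h7 | h7
    · rw [hold v (by omega)]; exact h.low v (by omega) h2
    · have : v = M + 1 := by omega
      subst this
      rw [if_pos rfl]
      have hf : ∀ w, w ! ≠ M + 1 := by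
        intro w hw
        rcases Nat.lt_or_ge w 3 with h8 | h8
        · have : w = 0 ∨ w = 1 ∨ w = 2 := by omega
          rcases this with rfl | rfl | rfl
          · simp at hw; omega
          · simp at hw; omega
          · have : (2 : ℕ) ! = 2 := rfl
            omega
        · have := Nat.factorial_le h8
          have e : (3 : ℕ) ! = 6 := rfl
          omega
      have h8 := (hv3 hf).2
      have h9 := h.low M le_rfl (by omega)
      calc val ≤ 2 * g M := h8
        _ ≤ 2 * (2 ^ M * g 3) := Nat.mul_le_mul_left _ h9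
        _ = 2 ^ (M + 1) * g 3 := by rw [pow_succ]; ring

theorem exists_gm (P N : ℕ) (hN : 3 ≤ N) : ∃ g, Gm P N N g := by
  obtain ⟨Q, hQ, hQp⟩ := Nat.exists_infinite_primes (P + 6 + 2 ^ N)
  have h6 : 6 ≤ Q := le_trans (by linarith [Nat.zero_le P, Nat.zero_le (2 ^ N)]) hQ
  have hP : P ≤ Q := le_trans (by linarith [Nat.zero_le (2 ^ N)]) hQ
  have h2 : 2 ^ N ≤ Q := le_trans (by linarith [Nat.zero_le P]) hQ
  have h : ∀ M, 3 ≤ M → M ≤ N → ∃ g, Gm Q N M g := by
    intro M hM
    induction M, hM using Nat.le_induction with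
    | base => exact fun _ => ⟨_, gm_base hQp h6⟩
    | succ M hM ih =>
      intro h1
      obtain ⟨g, hg⟩ := ih (by omega)
      exact gm_step h6 h2 hM h1 hg
  obtain ⟨g, hg⟩ := h N hN le_rfl
  exact ⟨g, { hg with three := hP.trans hg.three }⟩

/-- `g` preserves non-divisibility. -/
theorem Gm.nd {P N M : ℕ} {g : ℕ → ℕ} (h : Gm P N M g) {x y : ℕ} (hx : 1 ≤ x) (hy : 1 ≤ y) (hxM : x ≤ M)
    (hyM : y ≤ M) (hnd : ¬ x ∣ y) : ¬ g x ∣ g y := by
  have hpos : ∀ v, 1 ≤ v → v ≤ M → 1 ≤ g v := by
    intro v h1 h2
    rcases h1.eq_or_lt with rfl | h3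
    · rw [h.one]
    · have := h.mono 1 v le_rfl h3 h2
      omega
  intro hd
  rcases lt_trichotomy x y with hlt | heq | hgt
  · have hx2 : 2 ≤ x := by
      by_contra hc
      have : x = 1 := by omega
      subst this
      exact hnd (one_dvd _)
    have hg2 : 2 ≤ g x := by
      have := h.mono 1 x le_rfl (by omega) hxM
      rw [h.one] at this
      omega
    by_cases hf : ∃ w, w ! = y
    · obtain ⟨w, rfl⟩ := hf
      have hwx : w < x := by
        by_contra hc
        exact hnd (Nat.dvd_factorial (by omega) (by omega))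
      have hw2 : 2 ≤ w := by
        by_contra hc
        have : w = 0 ∨ w = 1 := by omega
        rcases this with rfl | rfl <;> simp at hlt <;> omega
      have hx3 : 3 ≤ x := by omega
      have hnf : ∀ u, u ! ≠ x := by
        intro u hu
        subst hu
        rcases Nat.lt_or_ge w u with h1 | h1
        · have := Nat.factorial_le h1.le
          omega
        · exact hnd (Nat.factorial_dvd_factorial h1)
      have hp := h.prime x hx3 hxM hnf
      rw [h.fac w hyM, hp.dvd_factorial] at hd
      have := h.mono w x (by omega) hwx hxM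
      omega
    · have hp := h.prime y (by omega) hyM (fun w hw => hf ⟨w, hw⟩)
      have h1 := (Nat.dvd_prime hp).1 hd
      have h2 := h.mono x y hx hlt hyM
      omega
  · exact hnd (heq ▸ dvd_rfl)
  · have h1 := h.mono y x hy hgt hxM
    have h2 := Nat.le_of_dvd (hpos y hy hyM) hd
    omega

/-- If no successor atom touches `W`, no factorial atom leaves `W` and all non-divisibility atoms are
inside `W`, then a coordinate `≥ 3` in `W` gives infinitely many solutions. -/
theorem noSucc_inf {n : ℕ} {A B C : Set (Fin n × Fin n)} {W : Set (Fin n)}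
    (hA : ∀ p ∈ A, p.1 ∉ W ∧ p.2 ∉ W) (hB : ∀ p ∈ B, p.1 ∈ W ↔ p.2 ∈ W) (hC : ∀ p ∈ C, p.1 ∈ W ∧ p.2 ∈ W)
    {x : Fin n → ℕ} (hx : x ∈ Sols A B C) {i : Fin n} (hiW : i ∈ W) (hi : 3 ≤ x i) :
    (Sols A B C).Infinite := by
  classical
  obtain ⟨hx1, hxA, hxB, hxC⟩ := hx
  have hle : ∀ j, x j ≤ 3 + ∑ j, x j := fun j =>
    (Finset.single_le_sum (f := x) (fun _ _ => Nat.zero_le _) (Finset.mem_univ j)).trans (by omega)
  refine Set.Infinite.of_image (fun y => y i) (Set.infinite_of_not_bddAbove ?_)
  rintro ⟨P, hP⟩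
  obtain ⟨g, hg⟩ := exists_gm (P + 1) (3 + ∑ j, x j) (by omega)
  have hmem : (fun j => if j ∈ W then g (x j) else x j) ∈ Sols A B C := by
    refine ⟨fun j => ?_, fun p hp => ?_, fun p hp => ?_, fun p hp => ?_⟩
    · show 1 ≤ (if j ∈ W then g (x j) else x j)
      split_ifs
      · rcases (hx1 j).eq_or_lt with h | h
        · rw [← h, hg.one]
        · have := hg.mono 1 (x j) le_rfl h (hle j)
          omega
      · exact hx1 j
    · obtain ⟨h1, h2⟩ := hA p hp
      simp only [if_neg h1, if_neg h2]
      exact hxA p hp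
    · have h1 := hxB p hp
      have h2 := hB p hp
      by_cases h : p.1 ∈ W
      · simp only [if_pos h, if_pos (h2.1 h)]
        rw [← h1]
        exact (hg.fac _ (h1 ▸ hle p.2)).symm
      · simp only [if_neg h, if_neg (fun h' => h (h2.2 h'))]
        exact h1
    · obtain ⟨h1, h2⟩ := hC p hp
      simp only [if_pos h1, if_pos h2]
      exact hg.nd (hx1 _) (hx1 _) (hle _) (hle _) (hxC p hp)
  have h1 : (if i ∈ W then g (x i) else x i) ≤ P :=
    hP (Set.mem_image_of_mem (fun y : Fin n → ℕ => y i) hmem)
  have h2 : P + 1 ≤ g (x i) := hg.large hi (hle i)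
  rw [if_pos hiW] at h1
  omega

theorem fix_fac {a : ℕ} (h : a ! = a) : a ≤ 2 := by
  by_contra hc
  have := Nat.lt_factorial_self (show 3 ≤ a by omega)
  omega

theorem fac_fix {a : ℕ} (h1 : 1 ≤ a) (h : a ≤ 2) : a ! = a := by
  have : a = 1 ∨ a = 2 := by omega
  rcases this with rfl | rfl <;> rfl

/-- The bound, if all non-divisibility atoms are inside a set `W` which no successor atom touches
and which no factorial atom leaves. -/
theorem pure_bound {n : ℕ} {A B C : Set (Fin n × Fin n)} {W : Set (Fin n)}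
    (hA : ∀ p ∈ A, p.1 ∉ W ∧ p.2 ∉ W) (hB : ∀ p ∈ B, p.1 ∈ W ↔ p.2 ∈ W) (hC : ∀ p ∈ C, p.1 ∈ W ∧ p.2 ∈ W)
    (hfin : (Sols A B C).Finite) {x : Fin n → ℕ} (hx : x ∈ Sols A B C) (i : Fin n) : x i ≤ bnd n := by
  classical
  have hW : ∀ j ∈ W, x j ≤ 2 := by
    intro j hj
    by_contra hc
    exact noSucc_inf hA hB hC hx hj (by omega) hfin
  set B' : Set (Fin n × Fin n) := B ∪ {p | p.1 = p.2 ∧ p.1 ∈ W} with hB'
  have hx' : x ∈ Sols A B' ∅ := by
    refine ⟨hx.1, hx.2.1, fun p hp => ?_, fun p hp => absurd hp (Set.notMem_empty p)⟩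
    rcases hp with hp | ⟨h1, h2⟩
    · exact hx.2.2.1 p hp
    · rw [← h1]
      exact fac_fix (hx.1 _) (hW _ h2)
  obtain ⟨b, hb⟩ := hfin.bddAbove
  have hfin' : (Sols A B' ∅).Finite := by
    refine (Set.finite_Iic (fun j => b j + 2)).subset fun y hy => ?_
    obtain ⟨hy1, hyA, hyB, -⟩ := hy
    have hyW : ∀ j ∈ W, y j ≤ 2 := fun j hj => fix_fac (hyB (j, j) (Or.inr ⟨rfl, hj⟩))
    have hz : (fun j => if j ∈ W then x j else y j) ∈ Sols A B C := by
      refine ⟨fun j => ?_, fun p hp => ?_, fun p hp => ?_, fun p hp => ?_⟩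
      · show 1 ≤ (if j ∈ W then x j else y j)
        split_ifs
        · exact hx.1 j
        · exact hy1 j
      · obtain ⟨h1, h2⟩ := hA p hp
        simp only [if_neg h1, if_neg h2]
        exact hyA p hp
      · have h2 := hB p hp
        by_cases h : p.1 ∈ W
        · simp only [if_pos h, if_pos (h2.1 h)]
          exact hx.2.2.1 p hp
        · simp only [if_neg h, if_neg (fun h' => h (h2.2 h'))]
          exact hyB p (Or.inl hp)
      · obtain ⟨h1, h2⟩ := hC p hp
        simp only [if_pos h1, if_pos h2]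
        exact hx.2.2.2 p hp
    intro j
    show y j ≤ b j + 2
    by_cases h : j ∈ W
    · have := hyW j h
      omega
    · have h1 : (if j ∈ W then x j else y j) ≤ b j := hb hz j
      rw [if_neg h] at h1
      omega
  exact plus_bound A B' hfin' x hx' i

/-- The unknowns `i` and `j` are joined by a chain of successor and factorial atoms. -/
def Joined {n : ℕ} (A B : Set (Fin n × Fin n)) (i j : Fin n) : Prop :=
  Relation.EqvGen (fun a b => (a, b) ∈ A ∨ (a, b) ∈ B) i j

theorem joined_iff {n : ℕ} {A B : Set (Fin n × Fin n)} {p : Fin n × Fin n} (hp : p ∈ A ∨ p ∈ B) (i : Fin n) :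
    Joined A B i p.1 ↔ Joined A B i p.2 := by
  have h : Joined A B p.1 p.2 := Relation.EqvGen.rel _ _ hp
  exact ⟨fun h' => h'.trans _ _ _ h, fun h' => h'.trans _ _ _ (h.symm _ _)⟩

/-- The bound for two kinds of systems. -/
theorem main {n : ℕ} (A B C : Set (Fin n × Fin n))
    (h : (∃ i, ∀ p ∈ B, ¬ Joined A B i p.1) ∨
      ∀ p ∈ C, ∀ q ∈ A, ¬ Joined A B p.1 q.1 ∧ ¬ Joined A B p.2 q.1)
    (hfin : (Sols A B C).Finite) (x : Fin n → ℕ) (hx : x ∈ Sols A B C) (i : Fin n) : x i ≤ bnd n := by
  rcases h with ⟨i0, h0⟩ | h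
  · exfalso
    refine shift_inf (U := {j | Joined A B i0 j}) ⟨i0, Relation.EqvGen.refl _⟩
      (fun p hp => joined_iff (Or.inl hp) i0) (fun p hp => ⟨h0 p hp, fun h' => ?_⟩) hx hfin
    exact h0 p hp ((joined_iff (Or.inr hp) i0).2 h')
  · refine pure_bound (W := {j | ∀ q ∈ A, ¬ Joined A B j q.1}) (fun p hp => ?_) (fun p hp => ?_)
      (fun p hp => ⟨fun q hq => (h p hp q hq).1, fun q hq => (h p hp q hq).2⟩) hfin hx i
    · have h1 : Joined A B p.1 p.2 := Relation.EqvGen.rel _ _ (Or.inl hp)
      exact ⟨fun h2 => h2 p hp (Relation.EqvGen.refl _), fun h2 => h2 p hp (h1.symm _ _)⟩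
    · have h1 : Joined A B p.1 p.2 := Relation.EqvGen.rel _ _ (Or.inr hp)
      constructor
      · exact fun h2 q hq h3 => h2 q hq (h1.trans _ _ _ h3)
      · exact fun h2 q hq h3 => h2 q hq ((h1.symm _ _).trans _ _ _ h3)

end Pool.Agent.LibFS95
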