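import Pool.Agent.LibFS95.B2

/-!
Row Z3: the degree of a block of a semisimple group algebra is non-zero in the field.

Proof (averaging). Let `A = E_00`, of trace one, and `B = ∑_g π(g) A π(g⁻¹)`. `B` commutes with all `π(h)`, and `π` is surjective, so `B = c I` and `n c = trace B = |G| trace A = |G| ≠ 0`.
-/

set_option autoImplicit false
noncomputable section
open MulAction
namespace Pool.FS95

theorem blk_degree_ne_zero (K : Type) [Field K] [IsAlgClosed K] (G : Type) [Group G] [Finite G]
    (hG : (Nat.card G : K) ≠ 0) (e : Blk K G) (n : ℕ) [NeZero n]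
    (π : MonoidAlgebra K G →ₐ[K] Matrix (Fin n) (Fin n) K) (hπ : IsBlkHom e π) : (n : K) ≠ 0 := by
  classical
  have hfin : Fintype G := Fintype.ofFinite G
  intro hn
  let A : Matrix (Fin n) (Fin n) K := Matrix.single 0 0 1
  let B : Matrix (Fin n) (Fin n) K :=
    ∑ g : G, π (MonoidAlgebra.single g 1) * A * π (MonoidAlgebra.single g⁻¹ 1)
  have hcomm : ∀ x : MonoidAlgebra K G, π x * B = B * π x := by
    intro x
    induction x using MonoidAlgebra.induction_linear with
    | zero => rw [map_zero, zero_mul, mul_zero]
    | add f g hf hg => rw [map_add, add_mul, mul_add, hf, hg]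
    | single h c =>
      have h1 : MonoidAlgebra.single h c = c • MonoidAlgebra.single h (1 : K) := by
        rw [MonoidAlgebra.smul_single, smul_eq_mul, mul_one]
      rw [h1, map_smul, smul_mul_assoc, mul_smul_comm]
      congr 1
      change _ * ∑ g : G, _ = (∑ g : G, _) * _
      rw [Finset.mul_sum, Finset.sum_mul]
      refine Fintype.sum_equiv (Equiv.mulLeft h) _ _ fun g => ?_
      have h2 : π (MonoidAlgebra.single h 1) * π (MonoidAlgebra.single g 1) =
          π (MonoidAlgebra.single (h * g) 1) := by
        rw [← map_mul, MonoidAlgebra.single_mul_single, mul_one]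
      have h3 : π (MonoidAlgebra.single (h * g)⁻¹ 1) * π (MonoidAlgebra.single h 1) =
          π (MonoidAlgebra.single g⁻¹ 1) := by
        rw [← map_mul, MonoidAlgebra.single_mul_single, mul_one]
        congr 2
        group
      change π (MonoidAlgebra.single h 1) * (π (MonoidAlgebra.single g 1) * A *
        π (MonoidAlgebra.single g⁻¹ 1)) = π (MonoidAlgebra.single (h * g) 1) * A *
          π (MonoidAlgebra.single (h * g)⁻¹ 1) * π (MonoidAlgebra.single h 1)
      rw [mul_assoc _ _ (π (MonoidAlgebra.single h 1)), h3, ← mul_assoc, ← mul_assoc, h2]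
  have hscal : B ∈ Set.range (Matrix.scalar (Fin n)) := by
    refine Matrix.mem_range_scalar_of_commute_single fun i j _ => ?_
    obtain ⟨x, hx⟩ := hπ.1 (Matrix.single i j 1)
    rw [← hx]
    exact hcomm x
  obtain ⟨c, hc⟩ := hscal
  have htr : B.trace = (Nat.card G : K) := by
    change (∑ g : G, _ : Matrix (Fin n) (Fin n) K).trace = _
    rw [Matrix.trace_sum]
    have h1 : ∀ g : G, (π (MonoidAlgebra.single g 1) * A *
        π (MonoidAlgebra.single g⁻¹ 1)).trace = (1 : K) := by
      intro g
      rw [Matrix.trace_mul_comm, ← mul_assoc, ← map_mul, MonoidAlgebra.single_mul_single,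
        inv_mul_cancel, one_mul]
      have h2 : MonoidAlgebra.single (1 : G) (1 : K) = 1 := rfl
      rw [h2, map_one, one_mul]
      exact Matrix.trace_single_eq_same _ _
    rw [Finset.sum_congr rfl fun g _ => h1 g]
    simp
  rw [← hc] at htr
  have h4 : (Matrix.scalar (Fin n) c).trace = (n : K) * c := by
    simp [Matrix.trace, Matrix.scalar]
  rw [h4, hn, zero_mul] at htr
  exact hG htr.symm

end Pool.FS95
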