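import Pool.Agent.LibFS95.Ch

/-!
Row Z4: dimensions of modules of `ℓ`-groups in characteristic `ℓ`; `|P|` divides the dimension of a projective module. STRONG.

Plan. (a) `dim V ≤ |P| dim V^P` for a linear action of a finite `ℓ`-group `P` on a finite dimensional space over a field of characteristic `ℓ`: induction on `|P|`; `P ≠ 1` has a central element `z` of order `ℓ`, `(z - 1)^ℓ = z^ℓ - 1 = 0`, so `dim V ≤ ℓ dim ker (z - 1)`
(for `f^ℓ = 0`, `dim ker f^{i+1} ≤ dim ker f^i + dim ker f`), and `ker (z-1) = V^{⟨z⟩}` is acted on by `P/⟨z⟩`. (It may be convenient to state it for `ρ : Representation k P V` and `ρ.invariants`, or for submodules stable under a subgroup.)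
(b) `V` finite dimensional and projective over `kH`, `P ≤ H` an `ℓ`-subgroup. `V` is a direct summand of `F = (kH)^r` (finite because `V` is finitely generated): `F ≅ V × V'`. `F^P` has dimension `r |H|/|P|` (functions constant on the cosets `P g`), so
`|P| (dim V^P + dim V'^P) = |P| dim F^P = dim F = dim V + dim V' `, and (a) for `V` and `V'` forces `dim V = |P| dim V^P`.
-/

set_option autoImplicit false
noncomputable section
open MulAction
namespace Pool.FS95

section nil

variable {k U : Type} [Field k] [AddCommGroup U] [Module k U] [FiniteDimensional k U]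

private theorem Z4_step (f : U →ₗ[k] U) (i : ℕ) :
    Module.finrank k (LinearMap.ker (f ^ (i + 1))) ≤
      Module.finrank k (LinearMap.ker (f ^ i)) + Module.finrank k (LinearMap.ker f) := by
  let g : LinearMap.ker (f ^ (i + 1)) →ₗ[k] U := (f ^ i).comp (LinearMap.ker (f ^ (i + 1))).subtype
  have h1 := LinearMap.finrank_range_add_finrank_ker g
  have h2 : LinearMap.range g ≤ LinearMap.ker f := by
    rintro _ ⟨u, rfl⟩
    rw [LinearMap.mem_ker]
    have h3 : (f ^ (i + 1)) (u : U) = 0 := LinearMap.mem_ker.1 u.2
    have h4 : f ^ (i + 1) = f * f ^ i := pow_succ' f i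
    have h5 : (f * f ^ i) (u : U) = 0 := by
      rw [← h4]
      exact h3
    exact h5
  have h4 : Module.finrank k (LinearMap.range g) ≤ Module.finrank k (LinearMap.ker f) :=
    Submodule.finrank_mono h2
  have h5 : Module.finrank k (LinearMap.ker g) ≤ Module.finrank k (LinearMap.ker (f ^ i)) := by
    let j : LinearMap.ker g →ₗ[k] LinearMap.ker (f ^ i) :=
      LinearMap.codRestrict (LinearMap.ker (f ^ i))
        ((LinearMap.ker (f ^ (i + 1))).subtype.comp (LinearMap.ker g).subtype) (fun u => u.2)
    refine LinearMap.finrank_le_finrank_of_injective (f := j) ?_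
    intro u u' h
    have h6 : ((j u : LinearMap.ker (f ^ i)) : U) = ((j u' : LinearMap.ker (f ^ i)) : U) := by
      rw [h]
    exact Subtype.ext (Subtype.ext h6)
  omega

private theorem Z4_nil (f : U →ₗ[k] U) (n : ℕ) (hf : f ^ n = 0) :
    Module.finrank k U ≤ n * Module.finrank k (LinearMap.ker f) := by
  have h1 : ∀ i, Module.finrank k (LinearMap.ker (f ^ i)) ≤
      i * Module.finrank k (LinearMap.ker f) := by
    intro i
    induction i with
    | zero =>
      have h2 : LinearMap.ker (f ^ 0) = ⊥ := by
        rw [pow_zero]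
        exact LinearMap.ker_id
      rw [h2]
      simp
    | succ i ih =>
      have h3 := Z4_step f i
      rw [Nat.succ_mul]
      omega
  have h4 := h1 n
  rw [hf, LinearMap.ker_zero, finrank_top] at h4
  exact h4

end nil

section inv

variable {k P V : Type} [Field k] [Group P] [AddCommGroup V] [Module k V]

/-- the invariants of a subgroup -/
private def Z4_inv (ρ : Representation k P V) (M : Subgroup P) : Submodule k V where
  carrier := {v | ∀ m ∈ M, ρ m v = v}
  add_mem' := by
    intro a b ha hb m hm
    rw [map_add, ha m hm, hb m hm]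
  zero_mem' := by
    intro m _
    exact map_zero _
  smul_mem' := by
    intro c a ha m hm
    rw [map_smul, ha m hm]

private theorem Z4_inv_step {ℓ : ℕ} [Fact ℓ.Prime] [CharP k ℓ] [Finite P]
    [FiniteDimensional k V] (ρ : Representation k P V) {H K : Subgroup P} {n : ℕ} (hHK : H ≤ K)
    (hH : Nat.card H = ℓ ^ n) (hK : Nat.card K = ℓ ^ (n + 1)) :
    Module.finrank k (Z4_inv ρ H) ≤ ℓ * Module.finrank k (Z4_inv ρ K) := by
  have hℓ : ℓ.Prime := Fact.out
  -- `H` is normal in `K`
  have hidx : (H.subgroupOf K).index = ℓ := by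
    have h1 : Nat.card (H.subgroupOf K) = ℓ ^ n := by
      rw [Nat.card_congr (Subgroup.subgroupOfEquivOfLe hHK).toEquiv, hH]
    have h2 := (H.subgroupOf K).card_mul_index
    rw [h1, hK, pow_succ] at h2
    exact Nat.eq_of_mul_eq_mul_left (pow_pos hℓ.pos n) h2
  have hnorm : (H.subgroupOf K).Normal := by
    refine Subgroup.normal_of_index_eq_minFac_card ?_
    rw [hidx, hK, hℓ.pow_minFac (Nat.succ_ne_zero n)]
  -- an element of `K` outside of `H`
  obtain ⟨g, hgK, hgH⟩ : ∃ g ∈ K, g ∉ H := by
    by_contra hcon
    push Not at hcon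
    have h1 : K = H := le_antisymm hcon hHK
    rw [h1, hH] at hK
    have h2 := Nat.pow_lt_pow_right hℓ.one_lt (Nat.lt_succ_self n)
    exact absurd hK (ne_of_lt h2)
  have hpow : g ^ ℓ ∈ H := by
    have h1 := (H.subgroupOf K).pow_index_mem (⟨g, hgK⟩ : K)
    rw [hidx, Subgroup.mem_subgroupOf] at h1
    exact h1
  have hconj : ∀ x ∈ H, g⁻¹ * x * g ∈ H := by
    intro x hx
    have h1 := hnorm.conj_mem (⟨x, hHK hx⟩ : K) (by rw [Subgroup.mem_subgroupOf]; exact hx)
      (⟨g, hgK⟩⁻¹ : K)
    rw [Subgroup.mem_subgroupOf] at h1
    simpa using h1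
  -- the nilpotent operator
  have hmap : ∀ u ∈ Z4_inv ρ H, (ρ g - 1) u ∈ Z4_inv ρ H := by
    intro u hu x hx
    rw [LinearMap.sub_apply, Module.End.one_apply, map_sub, hu x hx]
    congr 1
    have h1 : ρ x (ρ g u) = ρ g (ρ (g⁻¹ * x * g) u) := by
      rw [← Module.End.mul_apply, ← Module.End.mul_apply, ← map_mul, ← map_mul]
      congr 2
      group
    rw [h1, hu _ (hconj x hx)]
  let f : Z4_inv ρ H →ₗ[k] Z4_inv ρ H := (ρ g - 1).restrict hmap
  have hfv : ∀ u, ((f u : Z4_inv ρ H) : V) = ρ g (u : V) - (u : V) := fun u => rfl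
  have hfn : f ^ ℓ = 0 := by
    have h0 : ∀ n, ∀ u : Z4_inv ρ H, (((f ^ n) u : Z4_inv ρ H) : V) = ((ρ g - 1) ^ n) (u : V) := by
      intro n
      induction n with
      | zero => intro u; rfl
      | succ n ih =>
        intro u
        rw [pow_succ f n, Module.End.mul_apply, ih (f u), pow_succ (ρ g - 1) n,
          Module.End.mul_apply]
        rfl
    refine LinearMap.ext fun u => Subtype.ext ?_
    rw [h0 ℓ u]
    change ((ρ g - 1) ^ ℓ) (u : V) = 0
    rcases subsingleton_or_nontrivial V with hV | hV
    · exact Subsingleton.elim _ _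
    · have hcp : CharP (Module.End k V) ℓ :=
        charP_of_injective_algebraMap (algebraMap k (Module.End k V)).injective ℓ
      rw [sub_pow_char_of_commute ℓ (Commute.one_right (ρ g)), one_pow, ← map_pow,
        LinearMap.sub_apply, Module.End.one_apply, u.2 _ hpow, sub_self]
  have hker : Module.finrank k (LinearMap.ker f) ≤ Module.finrank k (Z4_inv ρ K) := by
    let j : LinearMap.ker f →ₗ[k] Z4_inv ρ K :=
      LinearMap.codRestrict (Z4_inv ρ K)
        ((Z4_inv ρ H).subtype.comp (LinearMap.ker f).subtype) (fun u => by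
          change ∀ m ∈ K, ρ m ((u : Z4_inv ρ H) : V) = ((u : Z4_inv ρ H) : V)
          -- the stabiliser of the vector
          let S : Subgroup P :=
            { carrier := {m | ρ m ((u : Z4_inv ρ H) : V) = ((u : Z4_inv ρ H) : V)}
              one_mem' := by
                change ρ 1 _ = _
                rw [map_one]
                rfl
              mul_mem' := by
                intro a b ha hb
                change ρ (a * b) _ = _
                rw [map_mul, Module.End.mul_apply]
                have hb' : ρ b ((u : Z4_inv ρ H) : V) = ((u : Z4_inv ρ H) : V) := hb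
                have ha' : ρ a ((u : Z4_inv ρ H) : V) = ((u : Z4_inv ρ H) : V) := ha
                rw [hb', ha']
              inv_mem' := by
                intro a ha
                have ha' : ρ a ((u : Z4_inv ρ H) : V) = ((u : Z4_inv ρ H) : V) := ha
                change ρ a⁻¹ _ = _
                conv_lhs => rw [← ha']
                rw [← Module.End.mul_apply, ← map_mul, inv_mul_cancel, map_one]
                rfl }
          have hHS : H ≤ S := fun m hm => (u : Z4_inv ρ H).2 m hm
          have hgS : g ∈ S := by
            have h1 : f (u : Z4_inv ρ H) = 0 := LinearMap.mem_ker.1 u.2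
            have h2 : ((f (u : Z4_inv ρ H) : Z4_inv ρ H) : V) = 0 := by rw [h1]; rfl
            rw [hfv] at h2
            exact sub_eq_zero.1 h2
          -- `S ∩ K` contains `H` properly, and `H` has prime index in `K`
          have hcard : Nat.card (S ⊓ K : Subgroup P) ∣ ℓ ^ (n + 1) := by
            rw [← hK]
            exact Subgroup.card_dvd_of_le inf_le_right
          have hdvd : ℓ ^ n ∣ Nat.card (S ⊓ K : Subgroup P) := by
            rw [← hH]
            exact Subgroup.card_dvd_of_le (le_inf hHS hHK)
          have hKS : K ≤ S := by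
            obtain ⟨i, hi, hi2⟩ := (Nat.dvd_prime_pow hℓ).1 hcard
            rw [hi2, Nat.pow_dvd_pow_iff_le_right hℓ.one_lt] at hdvd
            have h3 : i = n + 1 := by
              rcases Nat.lt_or_ge i (n + 1) with h | h
              · exfalso
                have h4 : i = n := by omega
                have h5 : Nat.card (S ⊓ K : Subgroup P) = Nat.card H := by rw [hi2, h4, hH]
                have h6 : H = S ⊓ K :=
                  Subgroup.eq_of_le_of_card_ge (le_inf hHS hHK) (le_of_eq h5)
                exact hgH (h6 ▸ (⟨hgS, hgK⟩ : g ∈ S ⊓ K))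
              · omega
            have h5 : (S ⊓ K : Subgroup P) = K := by
              refine Subgroup.eq_of_le_of_card_ge inf_le_right ?_
              rw [hi2, h3, hK]
            rw [← h5]
            exact inf_le_left
          exact fun m hm => hKS hm)
    refine LinearMap.finrank_le_finrank_of_injective (f := j) ?_
    intro u u' h
    have h6 : ((j u : Z4_inv ρ K) : V) = ((j u' : Z4_inv ρ K) : V) := by
      rw [h]
    exact Subtype.ext (Subtype.ext h6)
  exact (Z4_nil f ℓ hfn).trans (Nat.mul_le_mul_left ℓ hker)

end inv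

theorem finrank_le_card_mul {ℓ : ℕ} [Fact ℓ.Prime] {k : Type} [Field k] [CharP k ℓ] {P V : Type}
    [Group P] [Finite P] (hP : IsPGroup ℓ P) [AddCommGroup V] [Module k V] [FiniteDimensional k V]
    (ρ : Representation k P V) :
    Module.finrank k V ≤ Nat.card P * Module.finrank k ρ.invariants := by
  obtain ⟨N, hN⟩ := IsPGroup.iff_card.1 hP
  have h1 : ∀ n, n ≤ N → ∃ K : Subgroup P, Nat.card K = ℓ ^ n ∧
      Module.finrank k V ≤ ℓ ^ n * Module.finrank k (Z4_inv ρ K) := by
    intro n
    induction n with
    | zero =>
      intro _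
      refine ⟨⊥, by simp, ?_⟩
      have h2 : Z4_inv ρ (⊥ : Subgroup P) = ⊤ := by
        refine eq_top_iff.2 fun v _ => ?_
        intro m hm
        rw [Subgroup.mem_bot.1 hm, map_one]
        rfl
      rw [h2, finrank_top, pow_zero, one_mul]
    | succ n ih =>
      intro hn
      obtain ⟨H, hH, h3⟩ := ih (by omega)
      obtain ⟨K, hK, hHK⟩ := Sylow.exists_subgroup_card_pow_succ
        (show ℓ ^ (n + 1) ∣ Nat.card P by rw [hN]; exact pow_dvd_pow _ hn) hH
      refine ⟨K, hK, h3.trans ?_⟩
      rw [pow_succ, mul_assoc]
      exact Nat.mul_le_mul_left _ (Z4_inv_step ρ hHK hH hK)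
  obtain ⟨K, hK, h2⟩ := h1 N le_rfl
  have h3 : K = ⊤ := Subgroup.eq_top_of_card_eq K (by rw [hK, hN])
  have h4 : Z4_inv ρ K = ρ.invariants := by
    rw [h3]
    ext v
    exact ⟨fun h m => h m (Subgroup.mem_top m), fun h m _ => h m⟩
  rw [hN, ← h4]
  exact h2

section proj

variable {k H : Type} [Field k] [Group H]

/-- the representation of a subgroup on a module over the group algebra -/
private def Z4_rep (P : Subgroup H) (W : Type) [AddCommGroup W] [Module k W]
    [Module (MonoidAlgebra k H) W] [IsScalarTower k (MonoidAlgebra k H) W] :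
    Representation k P W where
  toFun p :=
    { toFun := fun w => MonoidAlgebra.single (p : H) (1 : k) • w
      map_add' := fun a b => smul_add _ a b
      map_smul' := fun c a => by
        rw [RingHom.id_apply]
        exact smul_comm _ c a }
  map_one' := by
    refine LinearMap.ext fun w => ?_
    change MonoidAlgebra.single ((1 : P) : H) (1 : k) • w = w
    have h1 : MonoidAlgebra.single ((1 : P) : H) (1 : k) = 1 := rfl
    rw [h1, one_smul]
  map_mul' := by
    intro p q
    refine LinearMap.ext fun w => ?_
    change MonoidAlgebra.single ((p * q : P) : H) (1 : k) • w =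
      MonoidAlgebra.single (p : H) (1 : k) • MonoidAlgebra.single (q : H) (1 : k) • w
    rw [← mul_smul, MonoidAlgebra.single_mul_single, mul_one]
    rfl

private theorem Z4_free [Finite H] (P : Subgroup H) (n : ℕ) :
    Nat.card P * Module.finrank k (Z4_rep (k := k) P (Fin n → MonoidAlgebra k H)).invariants ≤
      n * Nat.card H := by
  classical
  let Q := Quotient (QuotientGroup.rightRel P)
  have hQf : Finite Q := Quotient.finite _
  have hQ : Fintype Q := Fintype.ofFinite Q
  have hHf : Fintype H := Fintype.ofFinite H
  let j : (Z4_rep (k := k) P (Fin n → MonoidAlgebra k H)).invariants →ₗ[k] (Fin n × Q → k) :=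
    { toFun := fun x iq => ((x : Fin n → MonoidAlgebra k H) iq.1).coeff iq.2.out
      map_add' := fun a b => rfl
      map_smul' := fun c a => rfl }
  have hj : Function.Injective j := by
    rw [← LinearMap.ker_eq_bot, LinearMap.ker_eq_bot']
    intro x hx
    refine Subtype.ext (funext fun i => ?_)
    refine MonoidAlgebra.coeff_injective (Finsupp.ext fun h => ?_)
    -- `h = p * q.out`
    have h1 : (QuotientGroup.rightRel P) (⟦h⟧ : Q).out h := Quotient.exact (Quotient.out_eq _)
    rw [QuotientGroup.rightRel_apply] at h1
    have h2 := x.2 ⟨h * (⟦h⟧ : Q).out⁻¹, h1⟩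
    have h3 : MonoidAlgebra.single (h * (⟦h⟧ : Q).out⁻¹) (1 : k) *
        (x : Fin n → MonoidAlgebra k H) i = (x : Fin n → MonoidAlgebra k H) i :=
      congrFun h2 i
    have h4 : ((x : Fin n → MonoidAlgebra k H) i).coeff (⟦h⟧ : Q).out = 0 :=
      congrFun hx (i, ⟦h⟧)
    change ((x : Fin n → MonoidAlgebra k H) i).coeff h = 0
    rw [← h3, MonoidAlgebra.coeff_single_mul_apply, one_mul]
    have h5 : (h * (⟦h⟧ : Q).out⁻¹)⁻¹ * h = (⟦h⟧ : Q).out := by group
    rw [h5, h4]
  have h1 := LinearMap.finrank_le_finrank_of_injective hj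
  rw [Module.finrank_pi, Fintype.card_prod, Fintype.card_fin] at h1
  have h2 : Fintype.card Q = P.index := by
    rw [← Nat.card_eq_fintype_card, Subgroup.index]
    exact Nat.card_congr (QuotientGroup.quotientRightRelEquivQuotientLeftRel P)
  rw [h2] at h1
  calc Nat.card P * Module.finrank k (Z4_rep (k := k) P (Fin n → MonoidAlgebra k H)).invariants
      ≤ Nat.card P * (n * P.index) := Nat.mul_le_mul_left _ h1
    _ = n * (Nat.card P * P.index) := by ring
    _ = n * Nat.card H := by rw [P.card_mul_index]

private theorem Z4_add (P : Subgroup H) (V V' F : Type) [AddCommGroup V] [Module k V]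
    [Module (MonoidAlgebra k H) V] [IsScalarTower k (MonoidAlgebra k H) V]
    [AddCommGroup V'] [Module k V'] [Module (MonoidAlgebra k H) V']
    [IsScalarTower k (MonoidAlgebra k H) V']
    [AddCommGroup F] [Module k F] [Module (MonoidAlgebra k H) F]
    [IsScalarTower k (MonoidAlgebra k H) F] [FiniteDimensional k V] [FiniteDimensional k V']
    [FiniteDimensional k F]
    (s : V →ₗ[MonoidAlgebra k H] F) (t : V' →ₗ[MonoidAlgebra k H] F)
    (hst : ∀ v v', s v + t v' = 0 → v = 0 ∧ v' = 0) :
    Module.finrank k (Z4_rep (k := k) P V).invariants +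
      Module.finrank k (Z4_rep (k := k) P V').invariants ≤
      Module.finrank k (Z4_rep (k := k) P F).invariants := by
  rw [← Module.finrank_prod]
  let sk : V →ₗ[k] F := s.restrictScalars k
  let tk : V' →ₗ[k] F := t.restrictScalars k
  let j : ((Z4_rep (k := k) P V).invariants × (Z4_rep (k := k) P V').invariants) →ₗ[k]
      (Z4_rep (k := k) P F).invariants :=
    LinearMap.codRestrict _ (LinearMap.coprod (sk.comp (Submodule.subtype _))
      (tk.comp (Submodule.subtype _))) (by
        rintro ⟨x, y⟩ p
        change MonoidAlgebra.single (p : H) (1 : k) • (s (x : V) + t (y : V')) =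
          s (x : V) + t (y : V')
        have h4 : MonoidAlgebra.single (p : H) (1 : k) • (x : V) = (x : V) := x.2 p
        have h5 : MonoidAlgebra.single (p : H) (1 : k) • (y : V') = (y : V') := y.2 p
        rw [smul_add, ← s.map_smul, ← t.map_smul, h4, h5])
  refine LinearMap.finrank_le_finrank_of_injective (f := j) ?_
  rw [← LinearMap.ker_eq_bot, LinearMap.ker_eq_bot']
  rintro ⟨x, y⟩ hxy
  have h4 : s (x : V) + t (y : V') = 0 := congrArg Subtype.val hxy
  have h5 := hst _ _ h4
  exact Prod.ext (Subtype.ext h5.1) (Subtype.ext h5.2)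

end proj

theorem card_dvd_finrank_of_projective {ℓ : ℕ} [Fact ℓ.Prime] {k : Type} [Field k] [CharP k ℓ]
    {H : Type} [Group H] [Finite H] (P : Subgroup H) (hP : IsPGroup ℓ P) (V : Type) [AddCommGroup V]
    [Module k V] [Module (MonoidAlgebra k H) V] [IsScalarTower k (MonoidAlgebra k H) V]
    [FiniteDimensional k V] [Module.Projective (MonoidAlgebra k H) V] :
    Nat.card P ∣ Module.finrank k V := by
  classical
  have hHf : Fintype H := Fintype.ofFinite H
  have hfin : Module.Finite (MonoidAlgebra k H) V :=
    Module.Finite.of_restrictScalars_finite k (MonoidAlgebra k H) V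
  obtain ⟨n, f, hf⟩ := Module.Finite.exists_fin' (MonoidAlgebra k H) V
  obtain ⟨s, hs⟩ := Module.projective_lifting_property f LinearMap.id hf
  have hs' : ∀ v, f (s v) = v := fun v => LinearMap.congr_fun hs v
  have hfinA : Module.Finite k (MonoidAlgebra k H) :=
    Module.Finite.equiv (MonoidAlgebra.coeffLinearEquiv (R := k) (S := k) (M := H)).symm
  have hF : Module.finrank k (Fin n → MonoidAlgebra k H) = n * Nat.card H := by
    rw [Module.finrank_pi_fintype]
    have h1 : Module.finrank k (MonoidAlgebra k H) = Nat.card H := by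
      rw [(MonoidAlgebra.coeffLinearEquiv (R := k) (S := k) (M := H)).finrank_eq,
        Module.finrank_finsupp_self, Nat.card_eq_fintype_card]
    simp [h1]
  let fk : (Fin n → MonoidAlgebra k H) →ₗ[k] V := f.restrictScalars k
  have hfk : Function.Surjective fk := hf
  have hfinker : Module.Finite k (LinearMap.ker f) := by
    have h1 : Module.Finite k (LinearMap.ker fk) := inferInstance
    exact h1
  have hdim : Module.finrank k V + Module.finrank k (LinearMap.ker f) = n * Nat.card H := by
    have h1 := LinearMap.finrank_range_add_finrank_ker fk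
    rw [LinearMap.range_eq_top.2 hfk, finrank_top, hF] at h1
    exact h1
  have h1 : Module.finrank k V ≤
      Nat.card P * Module.finrank k (Z4_rep (k := k) P V).invariants :=
    finrank_le_card_mul hP _
  have h2 : Module.finrank k (LinearMap.ker f) ≤
      Nat.card P * Module.finrank k (Z4_rep (k := k) P (LinearMap.ker f)).invariants :=
    finrank_le_card_mul hP _
  have h3 := Z4_add (k := k) P V (LinearMap.ker f) (Fin n → MonoidAlgebra k H) s
    (LinearMap.ker f).subtype (by
      intro v v' h4
      have h5 : v = 0 := by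
        have h6 := congrArg f h4
        rw [map_add, hs', Submodule.subtype_apply, LinearMap.mem_ker.1 v'.2, add_zero,
          map_zero] at h6
        exact h6
      refine ⟨h5, ?_⟩
      rw [h5, map_zero, zero_add] at h4
      exact Subtype.ext h4)
  have h4 := Z4_free (k := k) P n
  have h5 := Nat.mul_le_mul_left (Nat.card P) h3
  rw [mul_add] at h5
  exact ⟨Module.finrank k (Z4_rep (k := k) P V).invariants, by omega⟩

end Pool.FS95
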