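import Pool.Agent.LibFS95.B2

/-!
Row Z5: simple `kH`-modules and the blocks of `kN`, `N ⊴ H` (Clifford). `ιN : kN → kH` is the inclusion.

Plan. `V` a simple `kH`-module. (a) `∑ e = 1` in `kN` (`blk_sum`), so `ιN(e) v ≠ 0` for some `e` and some `v ≠ 0`. (b) For `h ∈ H`: `h ιN(e) h⁻¹ = ιN(conjNormal h • e)`. If `e V ≠ 0` and `f V ≠ 0`, then the span of all `h e V` is a non-zero `kH`-submodule, so it is `V`, and `f h e V ≠ 0` for some
`h`; `f h e = h (h⁻¹ f h) e ≠ 0` on `V`, so the blocks `h⁻¹ • f` and `e` are equal (`blk_orth`). (c) the subspaces `e' V`, for `e'` in the `H`-orbit of `e`, are independent (orthogonal idempotents), their sum is `V`, and `h : e V → (h • e) V` is bijective: if the stabiliser of `e`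
is `N` there are `|H:N|` of them, `dim V = |H:N| dim eV`; in general `dim V = |H:H_e| dim eV`. Here `eV` is the range of `ιN(e)` acting on `V` (a `k`-subspace).
-/

set_option autoImplicit false
noncomputable section
open MulAction
namespace Pool.FS95

/-- The inclusion `kN → kH`. -/
def iN (k : Type) [Field k] {H : Type} [Group H] (N : Subgroup H) :
    MonoidAlgebra k N →ₐ[k] MonoidAlgebra k H := MonoidAlgebra.mapDomainAlgHom k k N.subtype

/-- The action of `a : kH` on a module, as a `k`-linear map. -/
def actK (k : Type) [Field k] {H : Type} [Group H] (V : Type) [AddCommGroup V] [Module k V]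
    [Module (MonoidAlgebra k H) V] [IsScalarTower k (MonoidAlgebra k H) V] (a : MonoidAlgebra k H) :
    V →ₗ[k] V where
  toFun v := a • v
  map_add' := smul_add a
  map_smul' c v := by
    rw [RingHom.id_apply, ← algebraMap_smul (MonoidAlgebra k H) c v,
      ← algebraMap_smul (MonoidAlgebra k H) c (a • v), smul_smul, smul_smul, Algebra.commutes]

/-- The stabiliser of a block of `kN` in `H`. -/
def blkStab {k : Type} [Field k] {H : Type} [Group H] (N : Subgroup H) [N.Normal] (e : Blk k N) :
    Subgroup H := (stabilizer (MulAut N) e).comap MulAut.conjNormal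

theorem exists_blk_smul_ne_zero (k : Type) [Field k] [IsAlgClosed k] {H : Type} [Group H] [Finite H]
    (N : Subgroup H) (hN : (Nat.card N : k) ≠ 0) (V : Type) [AddCommGroup V]
    [Module (MonoidAlgebra k H) V] (v : V) (hv : v ≠ 0) :
    ∃ e : Blk k N, iN k N e.1 • v ≠ 0 := by
  classical
  by_contra hcon
  push Not at hcon
  have h1 : Finite (Blk k N) := blk_finite k N hN
  have h2 : Fintype (Blk k N) := Fintype.ofFinite _
  have h3 := blk_sum k N hN
  rw [finsum_eq_sum_of_fintype] at h3
  apply hv
  have h4 : iN k N (∑ e : Blk k N, e.1) • v = 0 := by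
    rw [map_sum, Finset.sum_smul]
    exact Finset.sum_eq_zero fun e _ => hcon e
  rw [h3, map_one, one_smul] at h4
  exact h4

/-- conjugation by an element of the big group -/
private theorem Z5_conj (k : Type) [Field k] {H : Type} [Group H] (N : Subgroup H) [N.Normal]
    (h : H) (a : MonoidAlgebra k N) :
    iN k N (aut k (MulAut.conjNormal h : MulAut N) a) * MonoidAlgebra.single h 1 =
      MonoidAlgebra.single h 1 * iN k N a := by
  induction a using MonoidAlgebra.induction_linear with
  | zero => rw [map_zero, map_zero, zero_mul, mul_zero]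
  | add f g hf hg => rw [map_add, map_add, map_add, add_mul, mul_add, hf, hg]
  | single y c =>
    rw [aut_single]
    have h1 : ∀ (z : N) (d : k), iN k N (MonoidAlgebra.single z d) =
        MonoidAlgebra.single (z : H) d := by
      intro z d
      exact MonoidAlgebra.mapDomain_single
    rw [h1, h1, MonoidAlgebra.single_mul_single, MonoidAlgebra.single_mul_single, mul_one,
      one_mul]
    congr 1
    rw [MulAut.conjNormal_apply]
    simp

theorem blk_smul_conj (k : Type) [Field k] [IsAlgClosed k] {H : Type} [Group H] [Finite H]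
    (N : Subgroup H) [N.Normal] (hN : (Nat.card N : k) ≠ 0) (V : Type) [AddCommGroup V]
    [Module (MonoidAlgebra k H) V] [IsSimpleModule (MonoidAlgebra k H) V] (e f : Blk k N)
    (he : ∃ v : V, iN k N e.1 • v ≠ 0) (hf : ∃ v : V, iN k N f.1 • v ≠ 0) :
    ∃ h : H, (MulAut.conjNormal h : MulAut N) • e = f := by
  obtain ⟨v, hv⟩ := he
  obtain ⟨w, hw⟩ := hf
  obtain ⟨a, ha⟩ := IsSimpleModule.toSpanSingleton_surjective (MonoidAlgebra k H) hv w
  have ha' : a • iN k N e.1 • v = w := ha
  by_contra hcon
  push Not at hcon
  apply hw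
  rw [← ha']
  clear ha ha' hw
  induction a using MonoidAlgebra.induction_linear with
  | zero => rw [zero_smul, smul_zero]
  | add x y hx hy => rw [add_smul, smul_add, hx, hy, add_zero]
  | single h c =>
    have h1 : MonoidAlgebra.single h c = c • MonoidAlgebra.single h (1 : k) := by
      rw [MonoidAlgebra.smul_single, smul_eq_mul, mul_one]
    have h2 : (MulAut.conjNormal h⁻¹ : MulAut N) • f ≠ e := by
      intro h3
      apply hcon h
      rw [← h3, ← mul_smul, ← map_mul, mul_inv_cancel, map_one, one_smul]
    have h3 : iN k N f.1 * MonoidAlgebra.single h (1 : k) =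
        MonoidAlgebra.single h 1 * iN k N (aut k (MulAut.conjNormal h⁻¹ : MulAut N) f.1) := by
      rw [← Z5_conj, ← aut_mul, ← map_mul, mul_inv_cancel, map_one, aut_one]
    have h4 : aut k (MulAut.conjNormal h⁻¹ : MulAut N) f.1 * e.1 = 0 :=
      blk_orth k N hN ((MulAut.conjNormal h⁻¹ : MulAut N) • f) e h2
    have h5 : iN k N f.1 * MonoidAlgebra.single h c * iN k N e.1 = 0 := by
      rw [h1, mul_smul_comm, smul_mul_assoc, h3, mul_assoc, ← map_mul, h4, map_zero, mul_zero,
        smul_zero]
    have h6 : iN k N f.1 • MonoidAlgebra.single h c • iN k N e.1 • v =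
        (iN k N f.1 * MonoidAlgebra.single h c * iN k N e.1) • v := by
      rw [mul_smul, mul_smul]
    rw [h6, h5, zero_smul]

/-- orthogonal idempotents decompose the space -/
private theorem Z5_sum {k V ι : Type} [Field k] [AddCommGroup V] [Module k V]
    [FiniteDimensional k V] [Fintype ι] [DecidableEq ι] (P : ι → (V →ₗ[k] V))
    (horth : ∀ i j, i ≠ j → ∀ v, P i (P j v) = 0) (hsum : ∀ v, ∑ i, P i v = v) :
    Module.finrank k V = ∑ i, Module.finrank k (LinearMap.range (P i)) := by
  have hidem : ∀ i v, P i (P i v) = P i v := by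
    intro i v
    have h1 := congrArg (P i) (hsum v)
    rw [map_sum, Finset.sum_eq_single i (fun j _ hj => horth i j (Ne.symm hj) v)
      (fun h => absurd (Finset.mem_univ i) h)] at h1
    exact h1
  have hfix : ∀ i, ∀ w ∈ LinearMap.range (P i), P i w = w := by
    rintro i _ ⟨v, rfl⟩
    exact hidem i v
  have hzero : ∀ i j, i ≠ j → ∀ w ∈ LinearMap.range (P j), P i w = 0 := by
    rintro i j hij _ ⟨v, rfl⟩
    exact horth i j hij v
  let E : V ≃ₗ[k] (∀ i, LinearMap.range (P i)) :=
    { toFun := fun v i => ⟨P i v, ⟨v, rfl⟩⟩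
      map_add' := fun v w => by
        funext i
        exact Subtype.ext (map_add (P i) v w)
      map_smul' := fun c v => by
        funext i
        exact Subtype.ext (map_smul (P i) c v)
      invFun := fun w => ∑ i, (w i : V)
      left_inv := fun v => hsum v
      right_inv := fun w => by
        funext i
        refine Subtype.ext ?_
        change P i (∑ j, (w j : V)) = (w i : V)
        rw [map_sum, Finset.sum_eq_single i (fun j _ hj => hzero i j (Ne.symm hj) _ (w j).2)
          (fun h => absurd (Finset.mem_univ i) h)]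
        exact hfix i _ (w i).2 }
  rw [E.finrank_eq, Module.finrank_pi_fintype]

/-- the dimension of the part of a block only increases along the orbit -/
private theorem Z5_le (k : Type) [Field k] {H : Type} [Group H]
    (N : Subgroup H) [N.Normal] (V : Type) [AddCommGroup V] [Module k V]
    [Module (MonoidAlgebra k H) V] [IsScalarTower k (MonoidAlgebra k H) V]
    [FiniteDimensional k V] (a : MonoidAlgebra k N) (h : H) :
    Module.finrank k (LinearMap.range (actK k V (iN k N a))) ≤
      Module.finrank k (LinearMap.range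
        (actK k V (iN k N (aut k (MulAut.conjNormal h : MulAut N) a)))) := by
  let j : LinearMap.range (actK k V (iN k N a)) →ₗ[k] LinearMap.range
      (actK k V (iN k N (aut k (MulAut.conjNormal h : MulAut N) a))) :=
    LinearMap.codRestrict _ ((actK k V (MonoidAlgebra.single h 1)).comp (Submodule.subtype _)) (by
      rintro ⟨_, v, rfl⟩
      refine ⟨(MonoidAlgebra.single h (1 : k)) • v, ?_⟩
      change iN k N (aut k (MulAut.conjNormal h : MulAut N) a) • MonoidAlgebra.single h (1 : k) • v
        = MonoidAlgebra.single h (1 : k) • iN k N a • v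
      rw [smul_smul, smul_smul, Z5_conj])
  refine LinearMap.finrank_le_finrank_of_injective (f := j) ?_
  rw [← LinearMap.ker_eq_bot, LinearMap.ker_eq_bot']
  rintro ⟨w, hw⟩ h1
  have h2 : MonoidAlgebra.single h (1 : k) • w = 0 := congrArg Subtype.val h1
  refine Subtype.ext ?_
  have h3 : MonoidAlgebra.single h⁻¹ (1 : k) • MonoidAlgebra.single h (1 : k) • w = w := by
    rw [smul_smul, MonoidAlgebra.single_mul_single, inv_mul_cancel, one_mul]
    exact one_smul _ w
  rw [h2, smul_zero] at h3
  exact h3.symm

theorem finrank_eq_index_mul (k : Type) [Field k] [IsAlgClosed k] {H : Type} [Group H] [Finite H]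
    (N : Subgroup H) [N.Normal] (hN : (Nat.card N : k) ≠ 0) (V : Type) [AddCommGroup V] [Module k V]
    [Module (MonoidAlgebra k H) V] [IsScalarTower k (MonoidAlgebra k H) V]
    [FiniteDimensional k V] [IsSimpleModule (MonoidAlgebra k H) V] (e : Blk k N)
    (he : ∃ v : V, iN k N e.1 • v ≠ 0) :
    Module.finrank k V = (blkStab N e).index *
      Module.finrank k (LinearMap.range (actK k V (iN k N e.1))) := by
  classical
  have h1 : Finite (Blk k N) := blk_finite k N hN
  have h2 : Fintype (Blk k N) := Fintype.ofFinite _
  letI act : MulAction H (Blk k N) :=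
    MulAction.compHom (Blk k N) (MulAut.conjNormal : H →* MulAut N)
  have hstab : blkStab N e = stabilizer H e := rfl
  have horb : (blkStab N e).index = (Finset.univ.filter fun f : Blk k N => f ∈ orbit H e).card := by
    rw [hstab, MulAction.index_stabilizer, Set.ncard_eq_toFinset_card']
    congr 1
    ext f
    simp
  have hmain : Module.finrank k V =
      ∑ f : Blk k N, Module.finrank k (LinearMap.range (actK k V (iN k N f.1))) := by
    refine Z5_sum (fun f : Blk k N => actK k V (iN k N f.1)) ?_ ?_
    · intro f g hfg v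
      change iN k N f.1 • iN k N g.1 • v = 0
      rw [smul_smul, ← map_mul, blk_orth k N hN f g hfg, map_zero, zero_smul]
    · intro v
      have h3 := blk_sum k N hN
      rw [finsum_eq_sum_of_fintype] at h3
      change ∑ f : Blk k N, iN k N f.1 • v = v
      rw [← Finset.sum_smul, ← map_sum, h3, map_one, one_smul]
  rw [hmain, horb, ← Finset.sum_filter_add_sum_filter_not Finset.univ
    (fun f : Blk k N => f ∈ orbit H e)]
  have h3 : ∀ f ∈ Finset.univ.filter (fun f : Blk k N => f ∈ orbit H e),
      Module.finrank k (LinearMap.range (actK k V (iN k N f.1))) =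
        Module.finrank k (LinearMap.range (actK k V (iN k N e.1))) := by
    intro f hf
    obtain ⟨h, rfl⟩ := (Finset.mem_filter.1 hf).2
    refine le_antisymm ?_ ?_
    · have h4 := Z5_le k N V (aut k (MulAut.conjNormal h : MulAut N) e.1) h⁻¹
      rw [← aut_mul, ← map_mul, inv_mul_cancel, map_one, aut_one] at h4
      exact h4
    · exact Z5_le k N V e.1 h
  have h5 : ∀ f ∈ Finset.univ.filter (fun f : Blk k N => ¬ f ∈ orbit H e),
      Module.finrank k (LinearMap.range (actK k V (iN k N f.1))) = 0 := by
    intro f hf
    have h6 := (Finset.mem_filter.1 hf).2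
    have h7 : actK k V (iN k N f.1) = 0 := by
      by_contra hcon
      obtain ⟨v, hv⟩ : ∃ v : V, iN k N f.1 • v ≠ 0 := by
        by_contra hc
        push Not at hc
        exact hcon (LinearMap.ext hc)
      obtain ⟨h, hh⟩ := blk_smul_conj k N hN V e f he ⟨v, hv⟩
      exact h6 ⟨h, hh⟩
    rw [h7, LinearMap.range_zero, finrank_bot]
  rw [Finset.sum_congr rfl h3, Finset.sum_congr rfl h5, Finset.sum_const, Finset.sum_const_zero,
    add_zero, smul_eq_mul]

end Pool.FS95
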