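import Pool.Agent.LibFS95.Z5

/-!
Row Z6: rank one idempotents of a block.

Plan. `e : Blk k N`, `π = π_e` (B2), `u = e u ∈ kN` with `π u = E_00`. (a) `u² = u = e u` and `u ≠ 0` (`π` is injective on `e kN`). (b) for any `kN`-module structure (here `V` is a `kH`-module, `u` acts through `iN`): `dim eV = n dim uV`: choose `u_ij ∈ e kN` with `π u_ij = E_ij`; then `e = ∑ u_ii`,
`u_i0 : uV → u_ii V` is bijective with inverse `u_0i`. (c) `u kN u = k u`, more generally for `y ∈ kN` with `π' = π ∘ aut α⁻¹` ...: for `h ∈ H`: `u · (a h) · u` for `a ∈ kN` equals `(u a (h u h⁻¹)) h`; if `h` does not stabilise `e` this is `0` (`u = u e`, `h u h⁻¹ = (h•e)(h u h⁻¹)`, `e (h • e) = 0`); if it does, then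
`w = h u h⁻¹ ∈ e kN` is an idempotent with `π w` of rank one, so `π(u) M_n π(w)` is one-dimensional. So `dim (u kH u) ≤ |H_e : N|` (sum over coset representatives `h` of `N` in `H_e`).
(d) `dim (kH u) = |H:N| n`: `kH = ⊕ h kN` and `dim (kN u) = n`.
-/

set_option autoImplicit false
noncomputable section
open MulAction
namespace Pool.FS95

section units

variable {k : Type} [Field k] {G : Type} [Group G] {e : Blk k G} {n : ℕ}
  {π : MonoidAlgebra k G →ₐ[k] Matrix (Fin n) (Fin n) k}

private theorem Z6_one (hπ : IsBlkHom e π) : π e.1 = 1 := by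
  have h1 : π (1 - e.1) = 0 := (hπ.2 _).2 (by rw [mul_sub, mul_one, e.2.2.1, sub_self])
  rw [map_sub, map_one, sub_eq_zero] at h1
  exact h1.symm

private theorem Z6_ext (hπ : IsBlkHom e π) {x y : MonoidAlgebra k G} (hx : e.1 * x = x)
    (hy : e.1 * y = y) (h : π x = π y) : x = y := by
  have h1 : π (x - y) = 0 := by rw [map_sub, h, sub_self]
  have h2 := (hπ.2 _).1 h1
  rw [mul_sub, hx, hy, sub_eq_zero] at h2
  exact h2

private theorem Z6_lift (hπ : IsBlkHom e π) (M : Matrix (Fin n) (Fin n) k) :
    ∃ x, e.1 * x = x ∧ π x = M := by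
  obtain ⟨a, ha⟩ := hπ.1 M
  refine ⟨e.1 * a, by rw [← mul_assoc, e.2.2.1], ?_⟩
  rw [map_mul, Z6_one hπ, one_mul, ha]

private theorem Z6_units (hπ : IsBlkHom e π) : ∃ E : Fin n → Fin n → MonoidAlgebra k G,
    (∀ i j, e.1 * E i j = E i j) ∧ (∀ i j, π (E i j) = Matrix.single i j 1) ∧
    (∀ i j l, E i j * E j l = E i l) ∧ (∀ i j j' l, j ≠ j' → E i j * E j' l = 0) ∧
    ∑ i, E i i = e.1 := by
  choose E hE1 hE2 using fun i j => Z6_lift hπ (Matrix.single i j (1 : k))
  refine ⟨E, hE1, hE2, ?_, ?_, ?_⟩
  · intro i j l
    refine Z6_ext hπ (by rw [← mul_assoc, hE1]) (hE1 i l) ?_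
    rw [map_mul, hE2, hE2, hE2, Matrix.single_mul_single_same, one_mul]
  · intro i j j' l hj
    refine Z6_ext hπ (by rw [← mul_assoc, hE1]) (mul_zero _) ?_
    rw [map_mul, hE2, hE2, Matrix.single_mul_single_of_ne _ _ _ _ hj, map_zero]
  · refine Z6_ext hπ (by rw [Finset.mul_sum]; exact Finset.sum_congr rfl fun i _ => hE1 i i)
      e.2.2.1 ?_
    rw [map_sum, Z6_one hπ]
    simp only [hE2]
    ext i j
    rw [Matrix.sum_apply, Finset.sum_eq_single i]
    · by_cases hij : i = j
      · subst hij
        simp
      · rw [Matrix.one_apply_ne hij]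
        simp [Matrix.single_apply, hij]
    · intro l _ hl
      simp [Matrix.single_apply, hl]
    · intro h
      exact absurd (Finset.mem_univ i) h

end units

section main

variable {k : Type} [Field k] {H : Type} [Group H]

private theorem Z6_iN_single (N : Subgroup H) (z : N) (d : k) :
    iN k N (MonoidAlgebra.single z d) = MonoidAlgebra.single (z : H) d :=
  MonoidAlgebra.mapDomain_single

/-- conjugation by an element of the big group -/
private theorem Z6_conj (N : Subgroup H) [N.Normal]
    (h : H) (a : MonoidAlgebra k N) :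
    MonoidAlgebra.single h 1 * iN k N a =
      iN k N (aut k (MulAut.conjNormal h : MulAut N) a) * MonoidAlgebra.single h 1 := by
  induction a using MonoidAlgebra.induction_linear with
  | zero => rw [map_zero, map_zero, map_zero, zero_mul, mul_zero]
  | add f g hf hg => rw [map_add, map_add, map_add, add_mul, mul_add, hf, hg]
  | single y c =>
    rw [aut_single, Z6_iN_single, Z6_iN_single, MonoidAlgebra.single_mul_single,
      MonoidAlgebra.single_mul_single, mul_one, one_mul]
    congr 1
    rw [MulAut.conjNormal_apply]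
    simp

private theorem Z6_coeff_in (N : Subgroup H) (a : MonoidAlgebra k N) (x : N) :
    (iN k N a).coeff (x : H) = a.coeff x := by
  change (MonoidAlgebra.mapDomain N.subtype a).coeff (N.subtype x) = a.coeff x
  rw [MonoidAlgebra.coeff_mapDomain]
  exact Finsupp.mapDomain_apply N.subtype_injective _ _

private theorem Z6_coeff_out (N : Subgroup H) (a : MonoidAlgebra k N) (x : H) (hx : x ∉ N) :
    (iN k N a).coeff x = 0 := by
  change (MonoidAlgebra.mapDomain N.subtype a).coeff x = 0
  rw [MonoidAlgebra.coeff_mapDomain]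
  refine Finsupp.mapDomain_of_notMem_range _ _ ?_
  rintro ⟨y, rfl⟩
  exact hx y.2

/-- the part of a block is `n` times the part of a primitive idempotent -/
private theorem Z6_dim (N : Subgroup H) (e : Blk k N) {n : ℕ} [NeZero n]
    (E : Fin n → Fin n → MonoidAlgebra k N)
    (hE : ∀ i j, e.1 * E i j = E i j) (hmul : ∀ i j l, E i j * E j l = E i l)
    (hmul0 : ∀ i j j' l, j ≠ j' → E i j * E j' l = 0) (hsum : ∑ i, E i i = e.1)
    (V : Type) [AddCommGroup V] [Module k V] [Module (MonoidAlgebra k H) V]
    [IsScalarTower k (MonoidAlgebra k H) V] [FiniteDimensional k V] :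
    Module.finrank k (LinearMap.range (actK k V (iN k N e.1))) =
      n * Module.finrank k (LinearMap.range (actK k V (iN k N (E 0 0)))) := by
  classical
  have hee : e.1 * e.1 = e.1 := e.2.2.1
  have hfixe : ∀ w ∈ LinearMap.range (actK k V (iN k N e.1)), iN k N e.1 • w = w := by
    rintro _ ⟨v, rfl⟩
    change iN k N e.1 • iN k N e.1 • v = iN k N e.1 • v
    rw [smul_smul, ← map_mul, hee]
  have hfixu : ∀ w ∈ LinearMap.range (actK k V (iN k N (E 0 0))), iN k N (E 0 0) • w = w := by
    rintro _ ⟨v, rfl⟩
    change iN k N (E 0 0) • iN k N (E 0 0) • v = iN k N (E 0 0) • v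
    rw [smul_smul, ← map_mul, hmul]
  let F : LinearMap.range (actK k V (iN k N e.1)) ≃ₗ[k]
      (Fin n → LinearMap.range (actK k V (iN k N (E 0 0)))) :=
    { toFun := fun w i => ⟨iN k N (E 0 i) • (w : V), ⟨iN k N (E 0 i) • (w : V), by
        change iN k N (E 0 0) • iN k N (E 0 i) • (w : V) = _
        rw [smul_smul, ← map_mul, hmul]⟩⟩
      map_add' := fun v w => by
        funext i
        exact Subtype.ext (smul_add _ _ _)
      map_smul' := fun c v => by
        funext i
        exact Subtype.ext (map_smul (actK k V (iN k N (E 0 i))) c _)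
      invFun := fun w => ⟨∑ i, iN k N (E i 0) • (w i : V), ⟨∑ i, iN k N (E i 0) • (w i : V), by
        change iN k N e.1 • ∑ i, iN k N (E i 0) • (w i : V) = _
        rw [Finset.smul_sum]
        refine Finset.sum_congr rfl fun i _ => ?_
        rw [smul_smul, ← map_mul, hE]⟩⟩
      left_inv := fun w => by
        refine Subtype.ext ?_
        change ∑ i, iN k N (E i 0) • iN k N (E 0 i) • (w : V) = (w : V)
        have h1 : ∀ i, iN k N (E i 0) • iN k N (E 0 i) • (w : V) = iN k N (E i i) • (w : V) := by
          intro i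
          rw [smul_smul, ← map_mul, hmul]
        rw [Finset.sum_congr rfl fun i _ => h1 i, ← Finset.sum_smul, ← map_sum, hsum]
        exact hfixe _ w.2
      right_inv := fun w => by
        funext j
        refine Subtype.ext ?_
        change iN k N (E 0 j) • ∑ i, iN k N (E i 0) • (w i : V) = (w j : V)
        rw [Finset.smul_sum, Finset.sum_eq_single j]
        · rw [smul_smul, ← map_mul, hmul]
          exact hfixu _ (w j).2
        · intro i _ hij
          rw [smul_smul, ← map_mul, hmul0 0 j i 0 (Ne.symm hij), map_zero, zero_smul]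
        · intro h
          exact absurd (Finset.mem_univ j) h }
  rw [F.finrank_eq, Module.finrank_pi_fintype]
  simp

/-- the left ideal generated by the primitive idempotent -/
private theorem Z6_left [Finite H] (N : Subgroup H) (e : Blk k N) {n : ℕ} [NeZero n]
    (π : MonoidAlgebra k N →ₐ[k] Matrix (Fin n) (Fin n) k) (hπ : IsBlkHom e π)
    (E : Fin n → Fin n → MonoidAlgebra k N)
    (hE : ∀ i j, e.1 * E i j = E i j) (hE2 : ∀ i j, π (E i j) = Matrix.single i j 1)
    (hmul : ∀ i j l, E i j * E j l = E i l) :
    Module.finrank k (Submodule.span k {b : MonoidAlgebra k H | ∃ a, b = a * iN k N (E 0 0)}) =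
      N.index * n := by
  classical
  have hfin : Finite (H ⧸ N) := inferInstance
  have hft : Fintype (H ⧸ N) := Fintype.ofFinite _
  let b : (H ⧸ N) × Fin n → MonoidAlgebra k H := fun qi =>
    MonoidAlgebra.single qi.1.out 1 * iN k N (E qi.2 0)
  have hspan : Submodule.span k {b : MonoidAlgebra k H | ∃ a, b = a * iN k N (E 0 0)} =
      Submodule.span k (Set.range b) := by
    refine le_antisymm (Submodule.span_le.2 ?_) (Submodule.span_le.2 ?_)
    · rintro _ ⟨a, rfl⟩
      change a * iN k N (E 0 0) ∈ Submodule.span k (Set.range b)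
      induction a using MonoidAlgebra.induction_linear with
      | zero => rw [zero_mul]; exact Submodule.zero_mem _
      | add f g hf hg => rw [add_mul]; exact Submodule.add_mem _ hf hg
      | single g c =>
        have hx : ((g : H ⧸ N).out)⁻¹ * g ∈ N := QuotientGroup.eq.1 (QuotientGroup.out_eq' _)
        let x : N := ⟨((g : H ⧸ N).out)⁻¹ * g, hx⟩
        have h1 : MonoidAlgebra.single g c =
            MonoidAlgebra.single ((g : H ⧸ N).out) (1 : k) *
              iN k N (MonoidAlgebra.single x c) := by
          rw [Z6_iN_single, MonoidAlgebra.single_mul_single, one_mul]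
          congr 1
          change g = (g : H ⧸ N).out * (((g : H ⧸ N).out)⁻¹ * g)
          group
        have h2 : MonoidAlgebra.single x c * E 0 0 =
            ∑ i, (π (MonoidAlgebra.single x c)) i 0 • E i 0 := by
          have hcen : e.1 * MonoidAlgebra.single x c = MonoidAlgebra.single x c * e.1 :=
            e.2.2.2.1 _
          refine Z6_ext hπ ?_ ?_ ?_
          · rw [← mul_assoc, hcen, mul_assoc, hE]
          · rw [Finset.mul_sum]
            refine Finset.sum_congr rfl fun i _ => ?_
            rw [mul_smul_comm, hE]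
          · rw [map_mul, map_sum, hE2]
            simp only [map_smul, hE2]
            ext i j
            rw [Matrix.sum_apply]
            simp only [Matrix.smul_apply, Matrix.single_apply, smul_eq_mul]
            by_cases hj : j = 0
            · subst hj
              rw [Matrix.mul_single_apply_same]
              simp
            · rw [Matrix.mul_single_apply_of_ne _ _ _ _ _ hj]
              symm
              refine Finset.sum_eq_zero fun l _ => ?_
              rw [if_neg (fun h => hj h.2.symm), mul_zero]
        rw [h1, mul_assoc, ← map_mul, h2, map_sum, Finset.mul_sum]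
        refine Submodule.sum_mem _ fun i _ => ?_
        rw [map_smul, mul_smul_comm]
        exact Submodule.smul_mem _ _ (Submodule.subset_span ⟨((g : H ⧸ N), i), rfl⟩)
    · rintro _ ⟨⟨q, i⟩, rfl⟩
      refine Submodule.subset_span ⟨MonoidAlgebra.single q.out 1 * iN k N (E i 0), ?_⟩
      change MonoidAlgebra.single q.out 1 * iN k N (E i 0) = _
      rw [mul_assoc, ← map_mul, hmul]
  have hli : LinearIndependent k b := by
    rw [Fintype.linearIndependent_iff]
    intro c hc
    have h1 : ∀ q : H ⧸ N, ∑ i, c (q, i) • E i 0 = 0 := by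
      intro q
      refine MonoidAlgebra.coeff_injective (Finsupp.ext fun x => ?_)
      change (∑ i, c (q, i) • E i 0).coeff x = 0
      rw [← Z6_coeff_in]
      -- the coefficient at `q.out * x`
      have h2 : ∑ p : H ⧸ N, MonoidAlgebra.single p.out (1 : k) *
          iN k N (∑ i, c (p, i) • E i 0) = 0 := by
        rw [← hc, Fintype.sum_prod_type]
        refine Finset.sum_congr rfl fun p _ => ?_
        rw [map_sum, Finset.mul_sum]
        refine Finset.sum_congr rfl fun i _ => ?_
        rw [map_smul, mul_smul_comm]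
      have h3 := congrArg (fun y : MonoidAlgebra k H => y.coeff (q.out * (x : H))) h2
      simp only [MonoidAlgebra.coeff_sum] at h3
      rw [Finsupp.finsetSum_apply, Finset.sum_eq_single q] at h3
      · rw [MonoidAlgebra.coeff_single_mul_apply, one_mul] at h3
        have h4 : (q.out)⁻¹ * (q.out * (x : H)) = (x : H) := by group
        rw [h4] at h3
        exact h3
      · intro p _ hp
        rw [MonoidAlgebra.coeff_single_mul_apply, one_mul]
        refine Z6_coeff_out _ _ _ ?_
        intro h4
        apply hp
        have h5 : p.out⁻¹ * q.out ∈ N := by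
          have h6 := N.mul_mem h4 (N.inv_mem x.2)
          have h7 : p.out⁻¹ * (q.out * (x : H)) * (x : H)⁻¹ = p.out⁻¹ * q.out := by group
          rw [h7] at h6
          exact h6
        have h6 := QuotientGroup.eq.2 h5
        rw [QuotientGroup.out_eq', QuotientGroup.out_eq'] at h6
        exact h6
      · intro h
        exact absurd (Finset.mem_univ q) h
    rintro ⟨q, i⟩
    have h2 := congrArg (fun y => (π y) i 0) (h1 q)
    simp only [map_sum, map_smul, map_zero, hE2] at h2
    rw [Matrix.sum_apply] at h2
    simpa [Matrix.single_apply] using h2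
  rw [hspan, finrank_span_eq_card hli, Fintype.card_prod, Fintype.card_fin, Subgroup.index,
    Nat.card_eq_fintype_card]

/-- the local algebra of the primitive idempotent -/
private theorem Z6_corner [IsAlgClosed k] [Finite H] (N : Subgroup H) [N.Normal]
    (hN : (Nat.card N : k) ≠ 0) (e : Blk k N) {n : ℕ} [NeZero n]
    (π : MonoidAlgebra k N →ₐ[k] Matrix (Fin n) (Fin n) k) (hπ : IsBlkHom e π)
    (E : Fin n → Fin n → MonoidAlgebra k N)
    (hE : ∀ i j, e.1 * E i j = E i j) (hE2 : ∀ i j, π (E i j) = Matrix.single i j 1)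
    (hmul : ∀ i j l, E i j * E j l = E i l) :
    Module.finrank k (Submodule.span k
        {b : MonoidAlgebra k H | ∃ a, b = iN k N (E 0 0) * a * iN k N (E 0 0)}) ≤
      N.relIndex (blkStab N e) := by
  classical
  have hft : Fintype (H ⧸ N) := Fintype.ofFinite _
  -- `u kN u = k u`
  have huu : ∀ z : MonoidAlgebra k N, ∃ c : k, E 0 0 * z * E 0 0 = c • E 0 0 := by
    intro z
    refine ⟨(π z) 0 0, ?_⟩
    refine Z6_ext hπ (by rw [← mul_assoc, ← mul_assoc, hE]) (by rw [mul_smul_comm, hE]) ?_
    rw [map_mul, map_mul, map_smul, hE2]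
    ext i j
    by_cases hj : j = 0
    · subst hj
      rw [Matrix.mul_single_apply_same]
      by_cases hi : i = 0
      · subst hi
        rw [Matrix.single_mul_apply_same]
        simp
      · rw [Matrix.single_mul_apply_of_ne _ _ _ _ _ hi]
        simp [Matrix.single_apply, Ne.symm hi]
    · rw [Matrix.mul_single_apply_of_ne _ _ _ _ _ hj]
      simp [Matrix.single_apply, Ne.symm hj]
  -- for every `h` of the stabiliser the space `u kN (h u h⁻¹)` is at most one-dimensional
  have hone : ∀ h : H, ∃ x : MonoidAlgebra k N, ∀ z : MonoidAlgebra k N, ∃ c : k,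
      E 0 0 * z * aut k (MulAut.conjNormal h : MulAut N) (E 0 0) = c • x := by
    intro h
    set w := aut k (MulAut.conjNormal h : MulAut N) (E 0 0) with hw
    have hww : w * w = w := by rw [hw, ← map_mul, hmul]
    have hwz : ∀ z : MonoidAlgebra k N, ∃ c : k, w * z * w = c • w := by
      intro z
      obtain ⟨c, hc⟩ := huu (aut k (MulAut.conjNormal h : MulAut N)⁻¹ z)
      refine ⟨c, ?_⟩
      have h1 := congrArg (aut k (MulAut.conjNormal h : MulAut N)) hc
      rw [map_mul, map_mul, map_smul, ← aut_mul, mul_inv_cancel, aut_one] at h1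
      exact h1
    by_cases h0 : ∀ z : MonoidAlgebra k N, E 0 0 * z * w = 0
    · exact ⟨0, fun z => ⟨0, by rw [h0 z, zero_smul]⟩⟩
    · push Not at h0
      obtain ⟨z0, hz0⟩ := h0
      set x := E 0 0 * z0 * w with hx
      refine ⟨x, fun z => ?_⟩
      have hxe : e.1 * x = x := by rw [hx, ← mul_assoc, ← mul_assoc, hE]
      have hux : E 0 0 * x = x := by rw [hx, ← mul_assoc, ← mul_assoc, hmul]
      have hxw : x * w = x := by rw [hx, mul_assoc, hww]
      have hπx : π x ≠ 0 := by
        intro h1
        apply hz0
        exact Z6_ext hπ hxe (mul_zero _) (by rw [h1, map_zero])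
      -- a non-zero entry in the row `0`
      obtain ⟨j, hj⟩ : ∃ j, (π x) 0 j ≠ 0 := by
        by_contra hcon
        push Not at hcon
        apply hπx
        ext i j
        rw [← hux, map_mul, hE2]
        by_cases hi : i = 0
        · subst hi
          rw [Matrix.single_mul_apply_same, hcon j]
          simp
        · rw [Matrix.single_mul_apply_of_ne _ _ _ _ _ hi]
          simp
      have hxE : x * E j 0 = (π x) 0 j • E 0 0 := by
        refine Z6_ext hπ (by rw [← mul_assoc, hxe]) (by rw [mul_smul_comm, hE]) ?_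
        rw [map_mul, map_smul, hE2, hE2]
        ext i l
        by_cases hl : l = 0
        · subst hl
          rw [Matrix.mul_single_apply_same, mul_one]
          by_cases hi : i = 0
          · subst hi
            simp [Matrix.single_apply]
          · have h1 : (π x) i j = 0 := by
              rw [← hux, map_mul, hE2, Matrix.single_mul_apply_of_ne _ _ _ _ _ hi]
            rw [h1]
            simp [Matrix.single_apply, Ne.symm hi]
        · rw [Matrix.mul_single_apply_of_ne _ _ _ _ _ hl]
          simp [Matrix.single_apply, Ne.symm hl]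
      set ρ := (π x) 0 j with hρ
      obtain ⟨c, hc⟩ := hwz (E j 0 * (E 0 0 * z * w))
      refine ⟨ρ⁻¹ * c, ?_⟩
      have h1 : ρ • (E 0 0 * z * w) = c • x := by
        calc ρ • (E 0 0 * z * w) = ρ • (E 0 0 * (E 0 0 * z * w)) := by
              rw [← mul_assoc (E 0 0) (E 0 0 * z) w, ← mul_assoc (E 0 0) (E 0 0) z, hmul]
          _ = (ρ • E 0 0) * (E 0 0 * z * w) := by rw [smul_mul_assoc]
          _ = x * E j 0 * (E 0 0 * z * w) := by rw [hxE]
          _ = (x * w) * E j 0 * (E 0 0 * z * w * w) := by
              rw [hxw, mul_assoc (E 0 0 * z) w w, hww]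
          _ = x * (w * (E j 0 * (E 0 0 * z * w)) * w) := by simp only [mul_assoc]
          _ = x * (c • w) := by rw [hc]
          _ = c • x := by rw [mul_smul_comm, hxw]
      rw [mul_smul, ← h1, smul_smul, inv_mul_cancel₀ hj, one_smul]
  choose X hX using hone
  -- outside of the stabiliser the product vanishes
  have hzero : ∀ h : H, h ∉ blkStab N e → ∀ z : MonoidAlgebra k N,
      E 0 0 * z * aut k (MulAut.conjNormal h : MulAut N) (E 0 0) = 0 := by
    intro h hh z
    have h1 : e ≠ (MulAut.conjNormal h : MulAut N) • e := fun h2 => hh h2.symm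
    have h2 := blk_orth k N hN _ _ h1
    rw [blk_smul_val] at h2
    have h3 : aut k (MulAut.conjNormal h : MulAut N) (E 0 0) =
        aut k (MulAut.conjNormal h : MulAut N) e.1 *
          aut k (MulAut.conjNormal h : MulAut N) (E 0 0) := by
      rw [← map_mul, hE]
    have hcen : e.1 * (E 0 0 * z) = E 0 0 * z * e.1 := e.2.2.2.1 _
    have h4 : E 0 0 * z = E 0 0 * z * e.1 := by rw [← hcen, ← mul_assoc, hE]
    rw [h3, h4, mul_assoc, ← mul_assoc e.1, h2, zero_mul, mul_zero]
  let Q := {q : H ⧸ N // q.out ∈ blkStab N e}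
  have hQ : Fintype Q := Fintype.ofFinite _
  let b : Q → MonoidAlgebra k H := fun q => iN k N (X q.1.out) * MonoidAlgebra.single q.1.out 1
  have hle : Submodule.span k
      {b : MonoidAlgebra k H | ∃ a, b = iN k N (E 0 0) * a * iN k N (E 0 0)} ≤
      Submodule.span k (Set.range b) := by
    refine Submodule.span_le.2 ?_
    rintro _ ⟨a, rfl⟩
    change iN k N (E 0 0) * a * iN k N (E 0 0) ∈ Submodule.span k (Set.range b)
    induction a using MonoidAlgebra.induction_linear with
    | zero => rw [mul_zero, zero_mul]; exact Submodule.zero_mem _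
    | add f g hf hg => rw [mul_add, add_mul]; exact Submodule.add_mem _ hf hg
    | single g c =>
      have hx : ((g : H ⧸ N).out)⁻¹ * g ∈ N := QuotientGroup.eq.1 (QuotientGroup.out_eq' _)
      set h := (g : H ⧸ N).out with hh
      have h1 : MonoidAlgebra.single g c = MonoidAlgebra.single h (1 : k) *
          iN k N (MonoidAlgebra.single (⟨h⁻¹ * g, hx⟩ : N) c) := by
        rw [Z6_iN_single, MonoidAlgebra.single_mul_single, one_mul]
        congr 1
        change g = h * (h⁻¹ * g)
        group
      set y : MonoidAlgebra k N := MonoidAlgebra.single (⟨h⁻¹ * g, hx⟩ : N) c with hy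
      have h2 : iN k N (E 0 0) * MonoidAlgebra.single g c * iN k N (E 0 0) =
          iN k N (E 0 0 * aut k (MulAut.conjNormal h : MulAut N) y *
            aut k (MulAut.conjNormal h : MulAut N) (E 0 0)) * MonoidAlgebra.single h 1 := by
        rw [h1]
        calc iN k N (E 0 0) * (MonoidAlgebra.single h (1 : k) * iN k N y) * iN k N (E 0 0)
            = iN k N (E 0 0) * (MonoidAlgebra.single h (1 : k) * iN k N (y * E 0 0)) := by
              rw [map_mul]
              simp only [mul_assoc]
          _ = _ := by
              rw [Z6_conj, map_mul, map_mul, map_mul, map_mul]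
              simp only [mul_assoc]
      rw [h2]
      by_cases hs : h ∈ blkStab N e
      · obtain ⟨d, hd⟩ := hX h (aut k (MulAut.conjNormal h : MulAut N) y)
        rw [hd, map_smul, smul_mul_assoc]
        exact Submodule.smul_mem _ _ (Submodule.subset_span ⟨⟨(g : H ⧸ N), hs⟩, rfl⟩)
      · rw [hzero h hs, map_zero, zero_mul]
        exact Submodule.zero_mem _
  have hfinA : Module.Finite k (MonoidAlgebra k H) :=
    Module.Finite.equiv (MonoidAlgebra.coeffLinearEquiv (R := k) (S := k) (M := H)).symm
  have h1 := Submodule.finrank_mono hle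
  have h2 : Module.finrank k (Submodule.span k (Set.range b)) ≤ Fintype.card Q :=
    finrank_range_le_card b
  have h3 : Fintype.card Q ≤ N.relIndex (blkStab N e) := by
    have h4 : Finite (blkStab N e ⧸ N.subgroupOf (blkStab N e)) := inferInstance
    rw [← Nat.card_eq_fintype_card]
    change Nat.card Q ≤ Nat.card (blkStab N e ⧸ N.subgroupOf (blkStab N e))
    refine Nat.card_le_card_of_injective
      (fun q : Q => (QuotientGroup.mk (⟨q.1.out, q.2⟩ : blkStab N e) :
        blkStab N e ⧸ N.subgroupOf (blkStab N e))) ?_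
    intro q q' hqq
    have h5 := QuotientGroup.eq.1 hqq
    rw [Subgroup.mem_subgroupOf] at h5
    have h6 : q.1.out⁻¹ * q'.1.out ∈ N := h5
    have h7 := QuotientGroup.eq.2 h6
    rw [QuotientGroup.out_eq', QuotientGroup.out_eq'] at h7
    exact Subtype.ext h7
  exact h1.trans (h2.trans h3)

end main

theorem exists_rank_one (k : Type) [Field k] [IsAlgClosed k] {H : Type} [Group H] [Finite H]
    (N : Subgroup H) [N.Normal] (hN : (Nat.card N : k) ≠ 0) (e : Blk k N) :
    ∃ (n : ℕ) (_ : NeZero n) (π : MonoidAlgebra k N →ₐ[k] Matrix (Fin n) (Fin n) k)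
      (u : MonoidAlgebra k N), IsBlkHom e π ∧ u ≠ 0 ∧ u * u = u ∧ e.1 * u = u ∧
      (∀ (V : Type) [AddCommGroup V] [Module k V] [Module (MonoidAlgebra k H) V]
        [IsScalarTower k (MonoidAlgebra k H) V] [FiniteDimensional k V],
        Module.finrank k (LinearMap.range (actK k V (iN k N e.1))) =
          n * Module.finrank k (LinearMap.range (actK k V (iN k N u)))) ∧
      Module.finrank k (Submodule.span k
        {b : MonoidAlgebra k H | ∃ a, b = iN k N u * a * iN k N u}) ≤ N.relIndex (blkStab N e) ∧
      Module.finrank k (Submodule.span k {b : MonoidAlgebra k H | ∃ a, b = a * iN k N u}) =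
        N.index * n := by
  obtain ⟨n, hn, π, hπ⟩ := exists_blkHom k N hN e
  obtain ⟨E, hE1, hE2, hmul, hmul0, hsum⟩ := Z6_units hπ
  refine ⟨n, hn, π, E 0 0, hπ, ?_, hmul 0 0 0, hE1 0 0, ?_, ?_, ?_⟩
  · intro h
    have h1 := hE2 0 0
    rw [h, map_zero] at h1
    have h2 := congrFun (congrFun h1 0) 0
    simp at h2
  · intro V _ _ _ _ _
    exact Z6_dim N e E hE1 hmul hmul0 hsum V
  · exact Z6_corner N hN e π hπ E hE1 hE2 hmul
  · exact Z6_left N e π hπ E hE1 hE2 hmul

end Pool.FS95
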