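import Pool.Agent.LibFS95.Z6
import Pool.Agent.LibFS95.Z4
import Pool.Agent.LibFS95.Z3

/-!
Row Z7: the simple projective `kH`-modules lie over blocks of `kN` with stabiliser `N`, and every such block carries exactly one. STRONG (may be split).

Setting: `N ⊴ H`, `ℓ ∤ |N|`, `H/N` an `ℓ`-group, `k` algebraically closed of characteristic `ℓ`.
Plan. (b) `V` simple projective with `eV ≠ 0`; `n, u` from Z6, `m = dim uV ≥ 1` (`dim eV = n m ≠ 0`), `q = |H_e : N|` a power of `ℓ`. A Sylow `ℓ`-subgroup `P` of `H` has order `|H:N|` and divides `dim V = |H:H_e| n m` (Z4, Z5), so `q ∣ n m`; `ℓ ∤ n` (Z3), so `q ∣ m`, `q ≤ m`. Density: `kH → End_k(V)` is surjective (`V` simple,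
`k` algebraically closed, finite dimensional: Jacobson density `jacobson_density`/ or `Module.End` double centraliser: Mathlib has `IsSimpleModule.algebraMap_end_bijective_of_isAlgClosed` and `jacobson_density`), so `u kH u → End_k(uV)` is surjective: `m² ≤ dim(u kH u) ≤ q`. So `m² ≤ q ≤ m`, `q = 1`.
(c) `blkStab N e = N`. Let `L = kH u` (a left ideal, projective since `u` is idempotent; `dim L = |H:N| n`). Any simple `V` with `eV ≠ 0` has `uV ≠ 0` (Z6), so there is a non-zero, hence surjective, map `L → V`, `a u ↦ a u v`; `dim V = |H:N| dim eV = |H:N| n m ≥ |H:N| n = dim L` so it is an isomorphism: `V ≅ L`. Existence: `L ≠ 0` has a simple quotient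
`V = L/M` (maximal submodule), `u` acts non-trivially on it (`L` is generated by `u`), so `V ≅ L`.
-/

set_option autoImplicit false
noncomputable section
open MulAction
namespace Pool.FS95

section density

variable {k : Type} [Field k] {H : Type} [Group H] [Finite H]

/-- Burnside: `kH → End_k(V)` is surjective for a simple module. -/
private theorem Z7_density [IsAlgClosed k] (V : Type) [AddCommGroup V] [Module k V]
    [Module (MonoidAlgebra k H) V] [IsScalarTower k (MonoidAlgebra k H) V]
    [FiniteDimensional k V] [IsSimpleModule (MonoidAlgebra k H) V] (φ : V →ₗ[k] V) :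
    ∃ a : MonoidAlgebra k H, ∀ v, φ v = a • v := by
  classical
  have hbij := IsSimpleModule.algebraMap_end_bijective_of_isAlgClosed (A := MonoidAlgebra k H)
    (V := V) k
  let F : Module.End (Module.End (MonoidAlgebra k H) V) V :=
    { toFun := φ
      map_add' := φ.map_add
      map_smul' := by
        intro g v
        obtain ⟨c, rfl⟩ := hbij.2 g
        rw [RingHom.id_apply]
        change φ (c • v) = c • φ v
        exact φ.map_smul c v }
  let b := Module.finBasis k V
  obtain ⟨a, ha⟩ := jacobson_density F (Finset.univ.image b)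
  refine ⟨a, fun v => ?_⟩
  have h1 : φ = actK k V a := by
    refine b.ext fun i => ?_
    exact ha (b i) (Finset.mem_image_of_mem _ (Finset.mem_univ i))
  rw [h1]
  rfl

private theorem Z7_sq_le [IsAlgClosed k] (V : Type) [AddCommGroup V] [Module k V]
    [Module (MonoidAlgebra k H) V] [IsScalarTower k (MonoidAlgebra k H) V]
    [FiniteDimensional k V] [IsSimpleModule (MonoidAlgebra k H) V] (u : MonoidAlgebra k H)
    (hu : u * u = u) :
    Module.finrank k (LinearMap.range (actK k V u)) * Module.finrank k (LinearMap.range (actK k V u))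
      ≤ Module.finrank k (Submodule.span k {b : MonoidAlgebra k H | ∃ a, b = u * a * u}) := by
  have hfinA : Module.Finite k (MonoidAlgebra k H) :=
    Module.Finite.equiv (MonoidAlgebra.coeffLinearEquiv (R := k) (S := k) (M := H)).symm
  let U := LinearMap.range (actK k V u)
  let pu : V →ₗ[k] U := (actK k V u).rangeRestrict
  let Θ : (U →ₗ[k] U) →ₗ[k] (V →ₗ[k] V) :=
    { toFun := fun φ => U.subtype.comp (φ.comp pu)
      map_add' := fun φ ψ => rfl
      map_smul' := fun c φ => rfl }
  let Ψ : (Submodule.span k {b : MonoidAlgebra k H | ∃ a, b = u * a * u}) →ₗ[k] (V →ₗ[k] V) :=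
    { toFun := fun b => actK k V (b : MonoidAlgebra k H)
      map_add' := fun b b' => by
        refine LinearMap.ext fun v => ?_
        exact add_smul _ _ v
      map_smul' := fun c b => by
        refine LinearMap.ext fun v => ?_
        exact smul_assoc c (b : MonoidAlgebra k H) v }
  have hΘ : Function.Injective Θ := by
    rw [← LinearMap.ker_eq_bot, LinearMap.ker_eq_bot']
    intro φ hφ
    refine LinearMap.ext fun w => ?_
    obtain ⟨v, hv⟩ := (actK k V u).surjective_rangeRestrict w
    have h1 : U.subtype (φ (pu v)) = 0 := LinearMap.congr_fun hφ v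
    have h2 : pu v = w := hv
    rw [h2] at h1
    exact Subtype.ext h1
  have hle : LinearMap.range Θ ≤ LinearMap.range Ψ := by
    rintro _ ⟨φ, rfl⟩
    obtain ⟨a, ha⟩ := Z7_density (H := H) V (Θ φ)
    refine ⟨⟨u * a * u, Submodule.subset_span ⟨a, rfl⟩⟩, ?_⟩
    refine LinearMap.ext fun v => ?_
    change (u * a * u) • v = Θ φ v
    have h1 : pu (u • v) = pu v := by
      refine Subtype.ext ?_
      change u • u • v = u • v
      rw [smul_smul, hu]
    have h2 : u • ((φ (pu v) : U) : V) = ((φ (pu v) : U) : V) := by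
      obtain ⟨x, hx⟩ := (φ (pu v)).2
      rw [← hx]
      change u • u • x = u • x
      rw [smul_smul, hu]
    rw [mul_smul, mul_smul, ← ha]
    change u • ((φ (pu (u • v)) : U) : V) = ((φ (pu v) : U) : V)
    rw [h1, h2]
  have h1 : Module.finrank k (LinearMap.range Θ) =
      Module.finrank k U * Module.finrank k U := by
    rw [LinearMap.finrank_range_of_inj hΘ, Module.finrank_linearMap]
  have h2 : Module.finrank k (LinearMap.range Ψ) ≤
      Module.finrank k (Submodule.span k {b : MonoidAlgebra k H | ∃ a, b = u * a * u}) :=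
    LinearMap.finrank_range_le Ψ
  have h3 := Submodule.finrank_mono hle
  rw [h1] at h3
  exact h3.trans h2

end density

section stab

variable {k : Type} [Field k] {H : Type} [Group H] [Finite H]

private theorem Z7_conj (N : Subgroup H) [N.Normal] (x : N) (a : MonoidAlgebra k N) :
    aut k (MulAut.conjNormal (x : H) : MulAut N) a * MonoidAlgebra.single x 1 =
      MonoidAlgebra.single x 1 * a := by
  induction a using MonoidAlgebra.induction_linear with
  | zero => rw [map_zero, zero_mul, mul_zero]
  | add f g hf hg => rw [map_add, add_mul, mul_add, hf, hg]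
  | single y c =>
    rw [aut_single, MonoidAlgebra.single_mul_single, MonoidAlgebra.single_mul_single, mul_one,
      one_mul]
    congr 1
    refine Subtype.ext ?_
    rw [Subgroup.coe_mul, MulAut.conjNormal_apply]
    simp

private theorem Z7_le_stab (N : Subgroup H) [N.Normal] (e : Blk k N) : N ≤ blkStab N e := by
  intro x hx
  change (MulAut.conjNormal x : MulAut N) • e = e
  refine Subtype.ext ?_
  rw [blk_smul_val]
  have h1 := Z7_conj N ⟨x, hx⟩ e.1
  have h2 : (MonoidAlgebra.single (⟨x, hx⟩ : N) (1 : k)) * MonoidAlgebra.single (⟨x, hx⟩ : N)⁻¹ 1 =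
      1 := by
    rw [MonoidAlgebra.single_mul_single, mul_inv_cancel, one_mul]
    rfl
  have h3 := congrArg (· * MonoidAlgebra.single (⟨x, hx⟩ : N)⁻¹ (1 : k)) h1
  simp only at h3
  rw [mul_assoc, h2, mul_one, ← e.2.2.2.1, mul_assoc, h2, mul_one] at h3
  exact h3

end stab

private theorem Z7_stab (ℓ : ℕ) [Fact ℓ.Prime] (k : Type) [Field k] [IsAlgClosed k]
    [CharP k ℓ] {H : Type} [Group H] [Finite H] (N : Subgroup H) [N.Normal]
    (hN : ¬ ℓ ∣ Nat.card N) (hP : IsPGroup ℓ (H ⧸ N)) (V : Type) [AddCommGroup V] [Module k V]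
    [Module (MonoidAlgebra k H) V] [IsScalarTower k (MonoidAlgebra k H) V]
    [FiniteDimensional k V] [IsSimpleModule (MonoidAlgebra k H) V]
    [Module.Projective (MonoidAlgebra k H) V] (e : Blk k N) (he : ∃ v : V, iN k N e.1 • v ≠ 0) :
    blkStab N e = N := by
  have hℓ : ℓ.Prime := Fact.out
  have hN' : (Nat.card N : k) ≠ 0 := fun h => hN ((CharP.cast_eq_zero_iff k ℓ _).1 h)
  obtain ⟨n, hn0, π, u, hπ, -, huu, -, h1, h2, -⟩ := exists_rank_one k N hN' e
  have hn : ¬ ℓ ∣ n := fun h =>
    blk_degree_ne_zero k N hN' e n π hπ ((CharP.cast_eq_zero_iff k ℓ _).2 h)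
  have h3 := finrank_eq_index_mul k N hN' V e he
  rw [h1 V] at h3
  set m := Module.finrank k (LinearMap.range (actK k V (iN k N u))) with hm
  have hV : 0 < Module.finrank k V := by
    have := IsSimpleModule.nontrivial (MonoidAlgebra k H) V
    exact Module.finrank_pos
  have hm0 : 0 < m := by
    rcases Nat.eq_zero_or_pos m with h | h
    · rw [h] at h3
      simp at h3
      omega
    · exact h
  -- the index of `N` divides the dimension
  obtain ⟨a, ha⟩ := IsPGroup.iff_card.1 hP
  have hidx : N.index = ℓ ^ a := by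
    rw [Subgroup.index, ha]
  have h4 : ℓ ^ a ∣ Module.finrank k V := by
    obtain ⟨P, hPc⟩ := Sylow.exists_subgroup_card_pow_prime (G := H) ℓ (n := a) (by
      rw [← N.card_mul_index, hidx]
      exact dvd_mul_left _ _)
    have h5 := card_dvd_finrank_of_projective P (IsPGroup.of_card hPc) (k := k) V
    rw [hPc] at h5
    exact h5
  have hle := Z7_le_stab N e
  have h6 := Subgroup.relIndex_mul_index hle
  rw [hidx] at h6
  have h7 : N.relIndex (blkStab N e) ∣ m := by
    have h8 : N.relIndex (blkStab N e) ∣ ℓ ^ a := ⟨_, h6.symm⟩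
    have h9 : Nat.Coprime (N.relIndex (blkStab N e)) n := by
      refine Nat.Coprime.coprime_dvd_left h8 ?_
      exact Nat.Coprime.pow_left a ((Nat.Prime.coprime_iff_not_dvd hℓ).2 hn)
    refine h9.dvd_of_dvd_mul_left ?_
    have hi : 0 < (blkStab N e).index := Nat.pos_of_ne_zero Subgroup.index_ne_zero_of_finite
    rw [h3, ← h6, mul_comm (blkStab N e).index] at h4
    exact Nat.dvd_of_mul_dvd_mul_right hi h4
  have h8 := Z7_sq_le (H := H) V (iN k N u) (by rw [← map_mul, huu])
  rw [← hm] at h8
  have h9 : m * m ≤ N.relIndex (blkStab N e) := h8.trans h2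
  have h10 : N.relIndex (blkStab N e) ≤ m := Nat.le_of_dvd hm0 h7
  have h11 : m = 1 := by nlinarith
  rw [h11] at h7
  have h12 : N.relIndex (blkStab N e) = 1 := Nat.dvd_one.1 h7
  exact le_antisymm (Subgroup.relIndex_eq_one.1 h12) hle

theorem stab_eq_of_projective (ℓ : ℕ) [Fact ℓ.Prime] (k : Type) [Field k] [IsAlgClosed k]
    [CharP k ℓ] {H : Type} [Group H] [Finite H] (N : Subgroup H) [N.Normal]
    (hN : ¬ ℓ ∣ Nat.card N) (hP : IsPGroup ℓ (H ⧸ N)) (V : Type) [AddCommGroup V]
    [Module (MonoidAlgebra k H) V] [IsSimpleModule (MonoidAlgebra k H) V]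
    [Module.Projective (MonoidAlgebra k H) V] (e : Blk k N) (he : ∃ v : V, iN k N e.1 • v ≠ 0) :
    blkStab N e = N := by
  letI : Module k V := Module.compHom V (algebraMap k (MonoidAlgebra k H))
  haveI : IsScalarTower k (MonoidAlgebra k H) V :=
    ⟨fun c a v => by
      change (c • a) • v = algebraMap k (MonoidAlgebra k H) c • a • v
      rw [Algebra.smul_def, mul_smul]⟩
  have hfinA : Module.Finite k (MonoidAlgebra k H) :=
    Module.Finite.equiv (MonoidAlgebra.coeffLinearEquiv (R := k) (S := k) (M := H)).symm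
  haveI : Module.Finite k V := Module.Finite.trans (MonoidAlgebra k H) V
  exact Z7_stab ℓ k N hN hP V e he

section exist

variable {k : Type} [Field k] [IsAlgClosed k] {H : Type} [Group H] [Finite H]

/-- every simple module over the block is the left ideal generated by the idempotent -/
private theorem Z7_iso (N : Subgroup H) [N.Normal] (e : Blk k N) (he : blkStab N e = N)
    (hN' : (Nat.card N : k) ≠ 0) (n : ℕ) (u : MonoidAlgebra k N) (hn : 0 < n) (huu : u * u = u)
    (h1 : ∀ (V : Type) [AddCommGroup V] [Module k V] [Module (MonoidAlgebra k H) V]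
        [IsScalarTower k (MonoidAlgebra k H) V] [FiniteDimensional k V],
        Module.finrank k (LinearMap.range (actK k V (iN k N e.1))) =
          n * Module.finrank k (LinearMap.range (actK k V (iN k N u))))
    (h2 : Module.finrank k (Submodule.span k
      {b : MonoidAlgebra k H | ∃ a, b = a * iN k N u}) = N.index * n)
    (V : Type) [AddCommGroup V] [Module k V] [Module (MonoidAlgebra k H) V]
    [IsScalarTower k (MonoidAlgebra k H) V] [FiniteDimensional k V]
    [IsSimpleModule (MonoidAlgebra k H) V] (hV : ∃ v : V, iN k N e.1 • v ≠ 0) :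
    Nonempty ((Submodule.span (MonoidAlgebra k H) {iN k N u}) ≃ₗ[MonoidAlgebra k H] V) := by
  have hfinA : Module.Finite k (MonoidAlgebra k H) :=
    Module.Finite.equiv (MonoidAlgebra.coeffLinearEquiv (R := k) (S := k) (M := H)).symm
  have h3 := finrank_eq_index_mul k N hN' V e hV
  rw [h1 V, he] at h3
  have hV0 : 0 < Module.finrank k V := by
    have := IsSimpleModule.nontrivial (MonoidAlgebra k H) V
    exact Module.finrank_pos
  have hm0 : 0 < Module.finrank k (LinearMap.range (actK k V (iN k N u))) := by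
    rcases Nat.eq_zero_or_pos (Module.finrank k (LinearMap.range (actK k V (iN k N u)))) with h | h
    · rw [h] at h3
      simp at h3
      omega
    · exact h
  obtain ⟨v, hv⟩ : ∃ v : V, iN k N u • v ≠ 0 := by
    by_contra hcon
    push Not at hcon
    have h4 : LinearMap.range (actK k V (iN k N u)) = ⊥ := by
      rw [LinearMap.range_eq_bot]
      exact LinearMap.ext hcon
    rw [h4, finrank_bot] at hm0
    exact lt_irrefl 0 hm0
  let φ : (Submodule.span (MonoidAlgebra k H) {iN k N u}) →ₗ[MonoidAlgebra k H] V :=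
    (LinearMap.toSpanSingleton (MonoidAlgebra k H) V v).comp (Submodule.subtype _)
  have hφ : φ ≠ 0 := by
    intro h
    have h5 := LinearMap.congr_fun h ⟨iN k N u, Submodule.mem_span_singleton_self _⟩
    exact hv h5
  have hsurj : Function.Surjective φ := LinearMap.surjective_of_ne_zero hφ
  let φk : (Submodule.span (MonoidAlgebra k H) {iN k N u}) →ₗ[k] V := φ.restrictScalars k
  have hL : Module.finrank k (Submodule.span (MonoidAlgebra k H) {iN k N u}) = N.index * n := by
    rw [← h2]
    have h6 : (Submodule.span (MonoidAlgebra k H) {iN k N u}).restrictScalars k =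
        Submodule.span k {b : MonoidAlgebra k H | ∃ a, b = a * iN k N u} := by
      refine le_antisymm ?_ ?_
      · intro x hx
        obtain ⟨a, rfl⟩ := Submodule.mem_span_singleton.1 hx
        exact Submodule.subset_span ⟨a, rfl⟩
      · refine Submodule.span_le.2 ?_
        rintro _ ⟨a, rfl⟩
        exact Submodule.mem_span_singleton.2 ⟨a, rfl⟩
    rw [← h6]
    rfl
  have hfinL : Module.Finite k (Submodule.span (MonoidAlgebra k H) {iN k N u}) := by
    have : Module.Finite k ((Submodule.span (MonoidAlgebra k H) {iN k N u}).restrictScalars k) :=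
      inferInstance
    exact this
  have hge : N.index * n ≤ Module.finrank k V := by
    rw [h3]
    refine Nat.mul_le_mul_left _ ?_
    exact Nat.le_mul_of_pos_right n hm0
  have hinj : Function.Injective φk := by
    have h7 := LinearMap.finrank_range_add_finrank_ker φk
    have h8 : LinearMap.range φk = ⊤ := LinearMap.range_eq_top.2 hsurj
    rw [h8, finrank_top, hL] at h7
    have h9 : Module.finrank k (LinearMap.ker φk) = 0 := by omega
    rw [← LinearMap.ker_eq_bot]
    exact Submodule.finrank_eq_zero.1 h9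
  exact ⟨LinearEquiv.ofBijective φ ⟨hinj, hsurj⟩⟩

end exist

theorem exists_projSimple (ℓ : ℕ) [Fact ℓ.Prime] (k : Type) [Field k] [IsAlgClosed k]
    [CharP k ℓ] {H : Type} [Group H] [Finite H] (N : Subgroup H) [N.Normal]
    (hN : ¬ ℓ ∣ Nat.card N) (e : Blk k N) (he : blkStab N e = N) :
    ∃ I : ProjSimple k H, (∃ v : MonoidAlgebra k H ⧸ I.1, iN k N e.1 • v ≠ 0) ∧
      ∀ J : ProjSimple k H, (∃ v : MonoidAlgebra k H ⧸ J.1, iN k N e.1 • v ≠ 0) →
        Nonempty ((MonoidAlgebra k H ⧸ J.1) ≃ₗ[MonoidAlgebra k H] (MonoidAlgebra k H ⧸ I.1)) := by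
  have hN' : (Nat.card N : k) ≠ 0 := fun h => hN ((CharP.cast_eq_zero_iff k ℓ _).1 h)
  obtain ⟨n, hn0, π, u, hπ, hu0, huu, heu, h1, -, h2⟩ := exists_rank_one k N hN' e
  have hn : 0 < n := Nat.pos_of_ne_zero hn0.out
  have hfinA : Module.Finite k (MonoidAlgebra k H) :=
    Module.Finite.equiv (MonoidAlgebra.coeffLinearEquiv (R := k) (S := k) (M := H)).symm
  have hiso := fun (V : Type) [AddCommGroup V] [Module k V] [Module (MonoidAlgebra k H) V]
    [IsScalarTower k (MonoidAlgebra k H) V] [FiniteDimensional k V]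
    [IsSimpleModule (MonoidAlgebra k H) V] (hV : ∃ v : V, iN k N e.1 • v ≠ 0) =>
      Z7_iso N e he hN' n u hn huu h1 h2 V hV
  have hUU : iN k N u * iN k N u = iN k N u := by rw [← map_mul, huu]
  have hEU : iN k N e.1 * iN k N u = iN k N u := by rw [← map_mul, heu]
  have hinj : Function.Injective (iN k N) :=
    MonoidAlgebra.mapDomain_injective (R := k) N.subtype_injective
  have hU0 : iN k N u ≠ 0 := by
    intro h
    exact hu0 (hinj (by rw [h, map_zero]))
  -- the left ideal
  let L := Submodule.span (MonoidAlgebra k H) {iN k N u}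
  have hUL : iN k N u ∈ L := Submodule.mem_span_singleton_self _
  let w : L := ⟨iN k N u, hUL⟩
  have hw0 : w ≠ 0 := fun h => hU0 (congrArg Subtype.val h)
  -- the projection onto `L`
  let p : MonoidAlgebra k H →ₗ[MonoidAlgebra k H] L :=
    LinearMap.toSpanSingleton (MonoidAlgebra k H) L w
  have hp : ∀ x : L, p (x : MonoidAlgebra k H) = x := by
    intro x
    refine Subtype.ext ?_
    obtain ⟨a, ha⟩ := Submodule.mem_span_singleton.1 x.2
    change (x : MonoidAlgebra k H) * iN k N u = (x : MonoidAlgebra k H)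
    rw [← ha, smul_eq_mul, mul_assoc, hUU]
  have hps : Function.Surjective p := fun x => ⟨x, hp x⟩
  have hproj : Module.Projective (MonoidAlgebra k H) L :=
    Module.Projective.of_split L.subtype p (LinearMap.ext hp)
  -- `L` is simple
  have hsimple : IsSimpleModule (MonoidAlgebra k H) L := by
    have hnt : Nontrivial (Submodule (MonoidAlgebra k H) L) := by
      have : Nontrivial L := ⟨⟨w, 0, hw0⟩⟩
      infer_instance
    have hfinL : Module.Finite (MonoidAlgebra k H) L := Module.Finite.of_surjective p hps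
    obtain ⟨M, hM⟩ := IsCoatomic.exists_coatom (Submodule (MonoidAlgebra k H) L)
    have hMs : IsSimpleModule (MonoidAlgebra k H) (L ⧸ M) := isSimpleModule_iff_isCoatom.2 hM
    have hwM : w ∉ M := by
      intro h
      refine hM.1 (eq_top_iff.2 fun x _ => ?_)
      rw [← hp x]
      exact M.smul_mem _ h
    have hfinq : Module.Finite k (L ⧸ M) := Module.Finite.trans (MonoidAlgebra k H) (L ⧸ M)
    obtain ⟨φ⟩ := hiso (L ⧸ M) ⟨Submodule.Quotient.mk w, by
      rw [← Submodule.Quotient.mk_smul]
      have h3 : iN k N e.1 • w = w := Subtype.ext hEU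
      rw [h3]
      intro h4
      exact hwM ((Submodule.Quotient.mk_eq_zero M).1 h4)⟩
    exact IsSimpleModule.congr φ
  -- the maximal left ideal
  let I : Submodule (MonoidAlgebra k H) (MonoidAlgebra k H) := LinearMap.ker p
  let ψ : (MonoidAlgebra k H ⧸ I) ≃ₗ[MonoidAlgebra k H] L := p.quotKerEquivOfSurjective hps
  have hIs : IsSimpleModule (MonoidAlgebra k H) (MonoidAlgebra k H ⧸ I) := IsSimpleModule.congr ψ
  have hIp : Module.Projective (MonoidAlgebra k H) (MonoidAlgebra k H ⧸ I) :=
    Module.Projective.of_equiv ψ.symm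
  refine ⟨⟨I, hIs, hIp⟩, ⟨ψ.symm w, ?_⟩, ?_⟩
  · rw [← map_smul]
    have h3 : iN k N e.1 • w = w := Subtype.ext hEU
    rw [h3]
    intro h4
    exact hw0 (by rw [← ψ.apply_symm_apply w, h4, map_zero])
  · intro J hJ
    have hJs : IsSimpleModule (MonoidAlgebra k H) (MonoidAlgebra k H ⧸ J.1) := J.2.1
    have hfinq : Module.Finite k (MonoidAlgebra k H ⧸ J.1) :=
      Module.Finite.trans (MonoidAlgebra k H) (MonoidAlgebra k H ⧸ J.1)
    obtain ⟨φ⟩ := hiso (MonoidAlgebra k H ⧸ J.1) hJ
    exact ⟨φ.symm.trans ψ.symm⟩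

end Pool.FS95
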